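import Pool.Agent.DPG.StmtsA
import Pool.Agent.DPM.TWC

/-!
# Module AMA: the twisted group of an invariant character
-/

set_option autoImplicit false

namespace Pool.Agent.DPG

open Pool.Agent.DP Pool.Agent.DPC Pool.Agent.DPM Pool.Agent.DPN Pool.Agent.DPF
  Pool.Agent.Lib_helper13 Representation
open Pool.Agent.Lib_helper13.Dade (pCore DadeHolds dadeSum)

namespace AMA

variable {Q K1 : Type} [Group Q] [Group K1]

theorem mem_al {q : Q →* K1} {α : K1 →* MulAut Q} {S : Subgroup K1}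
    (hq : ∀ k x, q (α k x) = k * q x * k⁻¹) (k : S) (a : ↥(S.comap q)) :
    α (k : K1) (a : Q) ∈ S.comap q := by
  rw [Subgroup.mem_comap, hq]
  exact S.mul_mem (S.mul_mem k.2 a.2) (S.inv_mem k.2)

/-- The action of `S` on the inverse image of `S`. -/
def aS (q : Q →* K1) (α : K1 →* MulAut Q) (S : Subgroup K1)
    (hq : ∀ k x, q (α k x) = k * q x * k⁻¹) : S →* MulAut ↥(S.comap q) where
  toFun k :=
    { toFun := fun a => ⟨α (k : K1) (a : Q), mem_al hq k a⟩
      invFun := fun a => ⟨α ((k⁻¹ : S) : K1) (a : Q), mem_al hq k⁻¹ a⟩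
      left_inv := by
        intro a
        apply Subtype.ext
        change α ((k⁻¹ : S) : K1) (α (k : K1) (a : Q)) = a
        rw [← MulAut.mul_apply, ← map_mul, ← Subgroup.coe_mul, inv_mul_cancel, Subgroup.coe_one,
          map_one, MulAut.one_apply]
      right_inv := by
        intro a
        apply Subtype.ext
        change α (k : K1) (α ((k⁻¹ : S) : K1) (a : Q)) = a
        rw [← MulAut.mul_apply, ← map_mul, ← Subgroup.coe_mul, mul_inv_cancel, Subgroup.coe_one,
          map_one, MulAut.one_apply]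
      map_mul' := by
        intro a b
        apply Subtype.ext
        exact map_mul (α (k : K1)) (a : Q) (b : Q) }
  map_one' := by
    ext a
    change α ((1 : S) : K1) (a : Q) = a
    rw [Subgroup.coe_one, map_one, MulAut.one_apply]
  map_mul' := by
    intro k k'
    ext a
    change α ((k * k' : S) : K1) (a : Q) = α (k : K1) (α (k' : K1) (a : Q))
    rw [Subgroup.coe_mul, map_mul, MulAut.mul_apply]

theorem aS_coe {q : Q →* K1} {α : K1 →* MulAut Q} {S : Subgroup K1}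
    {hq : ∀ k x, q (α k x) = k * q x * k⁻¹} (k : S) (a : ↥(S.comap q)) :
    ((aS q α S hq k a : ↥(S.comap q)) : Q) = α (k : K1) (a : Q) := rfl

/-- The image in `S`. -/
def qS (q : Q →* K1) (S : Subgroup K1) : ↥(S.comap q) →* S where
  toFun a := ⟨q a, a.2⟩
  map_one' := by
    apply Subtype.ext
    exact map_one q
  map_mul' := by
    intro a b
    apply Subtype.ext
    exact map_mul q _ _

theorem aS_q {q : Q →* K1} {α : K1 →* MulAut Q} {S : Subgroup K1}
    {hq : ∀ k x, q (α k x) = k * q x * k⁻¹} (hα : ∀ x a, α (q x) a = x * a * x⁻¹)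
    (a b : ↥(S.comap q)) : aS q α S hq (qS q S a) b = a * b * a⁻¹ := by
  apply Subtype.ext
  exact hα _ _

theorem qS_a {q : Q →* K1} {α : K1 →* MulAut Q} {S : Subgroup K1}
    {hq : ∀ k x, q (α k x) = k * q x * k⁻¹} (k : S) (b : ↥(S.comap q)) :
    qS q S (aS q α S hq k b) = k * qS q S b * k⁻¹ := by
  apply Subtype.ext
  exact hq _ _

section abs

variable {A S : Type} [Group A] [Group S] (φ : S →* MulAut A) (q : A →* S)

/-- The conjugation action of the semidirect product. -/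
def cT : A ⋊[φ] S →* MulAut A :=
  SemidirectProduct.lift MulAut.conj φ (by
    intro g
    ext a b
    simp [MulAut.conj_apply])

theorem cT_apply (t : A ⋊[φ] S) (a : A) : cT φ t a = t.left * φ t.right a * t.left⁻¹ := rfl

theorem clg : ClG (SemidirectProduct.inl : A →* A ⋊[φ] S) (cT φ)
    (SemidirectProduct.rightHom : A ⋊[φ] S →* S) where
  inj := SemidirectProduct.inl_injective
  act := by
    intro y a
    rw [cT_apply]
    apply SemidirectProduct.ext
    · simp
    · simp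
  ker := by
    intro y
    constructor
    · intro h
      refine ⟨y.left, ?_⟩
      apply SemidirectProduct.ext
      · simp
      · rw [SemidirectProduct.right_inl]
        exact h.symm
    · rintro ⟨a, rfl⟩
      simp

/-- The element `(a⁻¹, q a)`. -/
def tt (a : A) : A ⋊[φ] S := ⟨a⁻¹, q a⟩

variable {φ q}

theorem tt_mul (hq : ∀ a b, φ (q a) b = a * b * a⁻¹) (a b : A) :
    tt φ q a * tt φ q b = tt φ q (a * b) := by
  apply SemidirectProduct.ext
  · change a⁻¹ * φ (q a) b⁻¹ = (a * b)⁻¹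
    rw [hq]
    group
  · change q a * q b = q (a * b)
    rw [map_mul]

theorem tt_comm (hq : ∀ a b, φ (q a) b = a * b * a⁻¹) (a b : A) :
    tt φ q a * SemidirectProduct.inl b = SemidirectProduct.inl b * tt φ q a := by
  apply SemidirectProduct.ext
  · change a⁻¹ * φ (q a) b = b * φ 1 a⁻¹
    rw [hq, map_one, MulAut.one_apply]
    group
  · change q a * 1 = 1 * q a
    rw [mul_one, one_mul]

theorem tt_conj (hq' : ∀ s a, q (φ s a) = s * q a * s⁻¹) (s : S) (a : A) :
    SemidirectProduct.inr s * tt φ q a = tt φ q (φ s a) * SemidirectProduct.inr s := by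
  apply SemidirectProduct.ext
  · change 1 * φ s a⁻¹ = (φ s a)⁻¹ * φ (q (φ s a)) 1
    rw [map_one, map_inv, one_mul, mul_one]
  · change s * q a = q (φ s a) * s
    rw [hq', inv_mul_cancel_right]

theorem tt_inl (hq : ∀ a b, φ (q a) b = a * b * a⁻¹) (a : A) :
    tt φ q a * SemidirectProduct.inl a = SemidirectProduct.inr (q a) := by
  apply SemidirectProduct.ext
  · change a⁻¹ * φ (q a) a = 1
    rw [hq]
    group
  · change q a * 1 = q a
    rw [mul_one]

/-- The abstract form. -/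
theorem main [Fintype A] [Finite S] (hq : ∀ a b, φ (q a) b = a * b * a⁻¹)
    (hq' : ∀ s a, q (φ s a) = s * q a * s⁻¹) (θ : A → ℂ) (hθ : IsIrr θ)
    (hinv : ∀ s a, θ (φ s a) = θ a) :
    ∃ (Λ : Type) (_ : Group Λ) (_ : Fintype Λ) (π2 : Λ →* S) (μ2 : π2.ker →* ℂˣ)
      (j : A →* Λ) (E : Λ → ℂ), Function.Surjective π2 ∧
      π2.ker ≤ Subgroup.center Λ ∧ Function.Injective μ2 ∧
      (∀ a, π2 (j a) = q a) ∧
      (∀ (y : Λ) (a b : A), b = φ (π2 y) a → j b = y * j a * y⁻¹) ∧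
      IsChr E ∧ (∀ a, E (j a) = θ a) ∧
      ∀ (z : π2.ker) (x : Λ), E (z * x) = ((μ2 z : ℂˣ) : ℂ) * E x := by
  classical
  have hfT : Finite (A ⋊[φ] S) :=
    Finite.of_equiv _ (SemidirectProduct.equivProd (φ := φ)).symm
  let _ : Fintype (A ⋊[φ] S) := Fintype.ofFinite _
  have hcl := clg φ
  have hinvT : ∀ (t : A ⋊[φ] S) a, θ (cT φ t a) = θ a := by
    intro t a
    rw [cT_apply, hθ.conj_eq, hinv]
  obtain ⟨Γ, Λ, _, _, _, _, e, q', r, E, U, μ, π, hD⟩ :=
    TWC_thm A (A ⋊[φ] S) S SemidirectProduct.inl (cT φ) SemidirectProduct.rightHom hcl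
      SemidirectProduct.rightHom_surjective θ hθ hinvT
  have hE1 : E 1 ≠ 0 := by
    rw [← map_one e, hD.Ee]
    exact hθ.one_ne_zero
  -- the intersection of the kernels of `q'` and `r`
  have hker : ∀ w, q' w = 1 → r w = 1 → w = 1 := by
    intro w h1 h2
    obtain ⟨a, rfl⟩ := (hD.qk w).1 h1
    rw [hD.re] at h2
    have h3 : a = 1 := SemidirectProduct.inl_injective (h2.trans (map_one _).symm)
    rw [h3, map_one]
  have hqU : ∀ w, r w = 1 → q' w ∈ U := by
    intro w h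
    rw [← hD.πk, hD.πq, h, map_one]
  -- the elements above `t_a`
  have hex : ∀ a : A, ∃ γ, r γ = tt φ q a ∧ ∀ γ', E (γ * γ') = E γ' :=
    fun a => hD.ce _ (fun b => tt_comm hq a b)
  have hun : ∀ γ γ₁ : Γ, r γ = r γ₁ → (∀ γ', E (γ * γ') = E γ') → (∀ γ', E (γ₁ * γ') = E γ') →
      γ = γ₁ := by
    intro γ γ₁ h h1 h2
    have hr : r (γ * γ₁⁻¹) = 1 := by rw [map_mul, map_inv, h, mul_inv_cancel]
    have hz : ∀ x, E (γ * γ₁⁻¹ * x) = E x := by
      intro x
      rw [mul_assoc, h1]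
      have h3 := h2 (γ₁⁻¹ * x)
      rw [mul_inv_cancel_left] at h3
      exact h3.symm
    have h4 := hD.El (γ * γ₁⁻¹) 1 (hqU _ hr) hr
    rw [hz 1] at h4
    have h5 : ((μ ⟨q' (γ * γ₁⁻¹), hqU _ hr⟩ : ℂˣ) : ℂ) = 1 :=
      mul_right_cancel₀ hE1 (h4.trans (one_mul _).symm)
    have h6 : μ ⟨q' (γ * γ₁⁻¹), hqU _ hr⟩ = 1 := Units.ext h5
    have h7 := hD.inj (h6.trans (map_one μ).symm)
    have h8 : q' (γ * γ₁⁻¹) = 1 := congrArg Subtype.val h7
    exact mul_inv_eq_one.1 (hker _ h8 hr)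
  choose g₀ hg1 hg2 using hex
  let g : A →* Γ := MonoidHom.mk' g₀ (by
    intro a b
    apply hun
    · rw [hg1, map_mul, hg1, hg1, tt_mul hq]
    · exact hg2 _
    · intro γ'
      rw [mul_assoc, hg2, hg2])
  have hgr : ∀ a, r (g a) = tt φ q a := hg1
  have hgE : ∀ a γ', E (g a * γ') = E γ' := hg2
  -- the section
  have hsx : ∀ l : Λ, ∃ γ, q' γ = l ∧ r γ = SemidirectProduct.inr (π l) := by
    intro l
    obtain ⟨γ, rfl⟩ := hD.qs l
    refine ⟨(e (r γ).left)⁻¹ * γ, ?_, ?_⟩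
    · rw [map_mul, map_inv, (hD.qk _).2 ⟨_, rfl⟩, inv_one, one_mul]
    · rw [map_mul, map_inv, hD.re, hD.πq]
      rw [inv_mul_eq_iff_eq_mul]
      exact (SemidirectProduct.inl_left_mul_inr_right (r γ)).symm
  choose s₀ hs1 hs2 using hsx
  let s : Λ →* Γ := MonoidHom.mk' s₀ (by
    intro l l'
    have h := hker ((s₀ (l * l'))⁻¹ * (s₀ l * s₀ l')) (by
      rw [map_mul, map_inv, map_mul, hs1, hs1, hs1, inv_mul_cancel]) (by
      rw [map_mul, map_inv, map_mul, hs2, hs2, hs2, map_mul, map_mul, inv_mul_cancel])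
    exact inv_mul_eq_one.1 h)
  have hsq : ∀ l, q' (s l) = l := hs1
  have hsr : ∀ l, r (s l) = SemidirectProduct.inr (π l) := hs2
  have hUk : ∀ z : π.ker, (z : Λ) ∈ U := fun z => (hD.πk _).1 z.2
  let μ2 : π.ker →* ℂˣ := (μ.comp (Subgroup.inclusion (fun z hz => (hD.πk z).1 hz)))⁻¹
  have hμ2 : ∀ z : π.ker, μ2 z = (μ ⟨z, hUk z⟩)⁻¹ := fun z => rfl
  have hπj : ∀ a, π (q' (g a)) = q a := by
    intro a
    rw [hD.πq, hgr]
    rfl
  refine ⟨Λ, inferInstance, inferInstance, π, μ2, q'.comp g, fun l => E (s l), hD.πs, ?_, ?_,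
    hπj, ?_, hD.Ec.comp s, ?_, ?_⟩
  · intro z hz
    exact hD.Uc ((hD.πk z).1 hz)
  · intro z z' h
    rw [hμ2, hμ2, inv_inj] at h
    have h1 := hD.inj h
    have h2 : (z : Λ) = z' := congrArg (fun w : U => (w : Λ)) h1
    exact Subtype.ext h2
  · rintro y a b rfl
    change q' (g (φ (π y) a)) = y * q' (g a) * y⁻¹
    have h : g (φ (π y) a) = s y * g a * (s y)⁻¹ := by
      apply hun
      · rw [hgr, map_mul, map_inv, map_mul, hsr, hgr, tt_conj hq', mul_inv_cancel_right]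
      · exact hgE _
      · intro γ'
        have h1 : s y * g a * (s y)⁻¹ * γ' = s y * (g a * ((s y)⁻¹ * γ' * s y)) * (s y)⁻¹ := by
          group
        rw [h1, hD.Ec.conj_eq, hgE]
        have h2 := hD.Ec.conj_eq (s y)⁻¹ γ'
        rw [inv_inv] at h2
        exact h2
    rw [h, map_mul, map_mul, map_inv, hsq]
  · intro a
    change E (s (q' (g a))) = θ a
    have h : s (q' (g a)) = g a * e a := by
      have h1 := hker ((s (q' (g a)))⁻¹ * (g a * e a)) (by
        rw [map_mul, map_inv, hsq, map_mul, (hD.qk (e a)).2 ⟨_, rfl⟩, mul_one, inv_mul_cancel])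
        (by
        rw [map_mul, map_inv, hsr, map_mul, hgr, hD.re, tt_inl hq, hπj, inv_mul_cancel])
      exact inv_mul_eq_one.1 h1
    rw [h, hgE, hD.Ee]
  · intro z x
    change E (s (z * x)) = ((μ2 z : ℂˣ) : ℂ) * E (s x)
    rw [map_mul]
    have hr : r (s z) = 1 := by
      rw [hsr]
      have h1 : π z = 1 := z.2
      rw [h1, map_one]
    have hU : q' (s z) ∈ U := by
      rw [hsq]
      exact hUk z
    have h2 := hD.El (s z) (s x) hU hr
    have h3 : μ ⟨q' (s z), hU⟩ = μ ⟨z, hUk z⟩ := by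
      congr 1
      exact Subtype.ext (hsq _)
    rw [h3] at h2
    rw [hμ2, ← h2, ← mul_assoc, ← Units.val_mul, inv_mul_cancel, Units.val_one, one_mul]

end abs

end AMA

open AMA in
/-- AMA. -/
theorem AMA_thm : Stmt_AMA := by
  classical
  intro Q K1 _ _ _ _ q α μQ hα hq hz hμQ S f hf hov hinv
  have hθ : IsIrr (fun a : ↥(S.comap q) => f a) := hf.1
  obtain ⟨Λ, iΛ, fΛ, π2, μ2, j, E, h1, h2, h3, h4, h5, h6, h7, h8⟩ :=
    main (φ := aS q α S hq) (q := qS q S) (fun a b => aS_q hα a b) (fun s a => qS_a s a)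
      (fun a : ↥(S.comap q) => f a) hθ (fun s a => hinv s s.2 a)
  have hj : ∀ (z : q.ker) (a : ↥(S.comap q)) (h : j a ∈ π2.ker), (a : Q) = z →
      μ2 ⟨j a, h⟩ = μQ z := by
    intro z a h haz
    have e1 := h8 ⟨j a, h⟩ (j 1)
    have e2 : (⟨j a, h⟩ : π2.ker) * (j 1) = j a := by
      rw [map_one, mul_one]
    rw [e2, h7, h7] at e1
    have e3 := hov z 1
    rw [mul_one, ← haz] at e3
    have e4 : f 1 ≠ 0 := hθ.one_ne_zero
    have e5 : ((μ2 ⟨j a, h⟩ : ℂˣ) : ℂ) * f 1 = ((μQ z : ℂˣ) : ℂ) * f 1 := by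
      rw [← e3]
      exact e1.symm
    exact Units.ext (mul_right_cancel₀ e4 e5)
  refine ⟨Λ, iΛ, fΛ, π2, μ2, j, E, h1, h2, h3, ?_, ?_, ?_, hj, h6, h7, h8⟩
  · rw [injective_iff_map_eq_one]
    intro a ha
    have hqa : q a = 1 := by
      have e1 := h4 a
      rw [ha, map_one] at e1
      exact (congrArg Subtype.val e1).symm
    have hm : j a ∈ π2.ker := by
      rw [ha]
      exact Subgroup.one_mem _
    have e2 := hj ⟨a, hqa⟩ a hm rfl
    have e3 : (⟨j a, hm⟩ : π2.ker) = 1 := Subtype.ext ha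
    rw [e3, map_one] at e2
    have e4 := hμQ ((map_one μQ).trans e2)
    exact Subtype.ext (congrArg Subtype.val e4).symm
  · intro a
    exact congrArg Subtype.val (h4 a)
  · intro y a b hb
    exact h5 y a b (Subtype.ext hb)

end Pool.Agent.DPG
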