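import Pool.Agent.DPG.StmtsA
import Pool.Agent.DPC.W0

/-!
# Module AMB: the amalgam
-/

set_option autoImplicit false

namespace Pool.Agent.DPG

open Pool.Agent.DP Pool.Agent.DPC Pool.Agent.DPM Pool.Agent.DPN Pool.Agent.DPF
  Pool.Agent.Lib_helper13 Representation
open Pool.Agent.Lib_helper13.Dade (pCore DadeHolds dadeSum)

namespace AMB

variable {Q K1 Λ : Type} [Group Q] [Group K1] [Group Λ]

/-- The action of `Λ` on `Q`. -/
def ac (α : K1 →* MulAut Q) (S : Subgroup K1) (π2 : Λ →* S) : Λ →* MulAut Q :=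
  α.comp (S.subtype.comp π2)

theorem ac_apply (α : K1 →* MulAut Q) (S : Subgroup K1) (π2 : Λ →* S) (y : Λ) (x : Q) :
    ac α S π2 y x = α ((π2 y : S) : K1) x := rfl

/-- The elements which are identified with `1`. -/
def RR {q : Q →* K1} {α : K1 →* MulAut Q} {S : Subgroup K1} {π2 : Λ →* S}
    {j : ↥(S.comap q) →* Λ} (hα : ∀ x a, α (q x) a = x * a * x⁻¹)
    (hj : ∀ a : ↥(S.comap q), ((π2 (j a) : S) : K1) = q a) :
    Subgroup (Q ⋊[ac α S π2] Λ) where
  carrier := {g | ∃ a : ↥(S.comap q), g.left = (a : Q)⁻¹ ∧ g.right = j a}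
  one_mem' := ⟨1, by simp, by simp⟩
  mul_mem' := by
    rintro g h ⟨a, ha, ha'⟩ ⟨b, hb, hb'⟩
    refine ⟨a * b, ?_, ?_⟩
    · rw [SemidirectProduct.mul_left, ha, hb, ha', ac_apply, hj, hα, Subgroup.coe_mul]
      group
    · rw [SemidirectProduct.mul_right, ha', hb', map_mul]
  inv_mem' := by
    rintro g ⟨a, ha, ha'⟩
    refine ⟨a⁻¹, ?_, ?_⟩
    · rw [SemidirectProduct.inv_left, ha, ha', ac_apply, Subgroup.coe_inv, ← map_inv j]
      rw [hj, hα, Subgroup.coe_inv]
      group
    · rw [SemidirectProduct.inv_right, ha', map_inv]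

theorem RR_normal {q : Q →* K1} {α : K1 →* MulAut Q} {S : Subgroup K1} {π2 : Λ →* S}
    {j : ↥(S.comap q) →* Λ} (hα : ∀ x a, α (q x) a = x * a * x⁻¹)
    (hq : ∀ k x, q (α k x) = k * q x * k⁻¹)
    (hj : ∀ a : ↥(S.comap q), ((π2 (j a) : S) : K1) = q a)
    (hc : ∀ (y : Λ) (a b : ↥(S.comap q)), (b : Q) = α (π2 y : S) a → j b = y * j a * y⁻¹) :
    (RR hα hj).Normal := by
  constructor
  rintro g ⟨a, ha, ha'⟩ h
  have hm : α ((π2 h.right : S) : K1) (a : Q) ∈ S.comap q := by
    rw [Subgroup.mem_comap, hq]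
    exact S.mul_mem (S.mul_mem (π2 h.right).2 a.2) (S.inv_mem (π2 h.right).2)
  have h1 := hc h.right a ⟨_, hm⟩ rfl
  refine ⟨⟨_, hm⟩, ?_, ?_⟩
  · have h2 : (h * g * h⁻¹).left =
        h.left * α ((π2 h.right : S) : K1) g.left *
          (α ((π2 (h.right * g.right * h.right⁻¹) : S) : K1) h.left⁻¹) := by
      rw [SemidirectProduct.mul_left, SemidirectProduct.mul_left, SemidirectProduct.inv_left,
        SemidirectProduct.mul_right, ac_apply, ac_apply, ac_apply, map_mul π2,
        map_mul π2, Subgroup.coe_mul, Subgroup.coe_mul, map_mul α, map_mul α,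
        MulAut.mul_apply, MulAut.mul_apply]
      simp only [MulAut.mul_apply, map_mul, Subgroup.coe_mul]
    rw [h2, ha, ha', ← h1, hj, hα]
    simp only [map_inv]
    group
  · rw [SemidirectProduct.mul_right, SemidirectProduct.mul_right, SemidirectProduct.inv_right,
      ha', h1]

theorem exists_am [Finite Q] [Finite Λ] {q : Q →* K1} {α : K1 →* MulAut Q} {S : Subgroup K1}
    {π2 : Λ →* S} {j : ↥(S.comap q) →* Λ} (hα : ∀ x a, α (q x) a = x * a * x⁻¹)
    (hq : ∀ k x, q (α k x) = k * q x * k⁻¹)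
    (hj : ∀ a : ↥(S.comap q), ((π2 (j a) : S) : K1) = q a)
    (hc : ∀ (y : Λ) (a b : ↥(S.comap q)), (b : Q) = α (π2 y : S) a → j b = y * j a * y⁻¹)
    (hi : Function.Injective j) :
    ∃ (L1 : Type) (_ : Group L1) (_ : Fintype L1) (π1 : L1 →* K1) (ι : Q →* L1) (i : Λ →* L1),
      Function.Injective ι ∧ Function.Injective i ∧ (∀ x, π1 (ι x) = q x) ∧
      (∀ y, π1 (i y) = (π2 y : S)) ∧ (∀ a : ↥(S.comap q), i (j a) = ι a) ∧
      (∀ l, ∃ x y, l = ι x * i y) ∧
      ∀ y x, i y * ι x * (i y)⁻¹ = ι (α ((π2 y : S) : K1) x) := by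
  have := RR_normal hα hq hj hc
  have : Finite (Q ⋊[ac α S π2] Λ) :=
    Finite.of_equiv (Q × Λ) SemidirectProduct.equivProd.symm
  let f : Q ⋊[ac α S π2] Λ →* K1 :=
    SemidirectProduct.lift q (S.subtype.comp π2) (by
      intro y
      ext x
      change q (α ((π2 y : S) : K1) x) = ((π2 y : S) : K1) * q x * ((π2 y : S) : K1)⁻¹
      exact hq _ _)
  have hf : ∀ g : Q ⋊[ac α S π2] Λ, f g = q g.left * ((π2 g.right : S) : K1) := by
    intro g
    rfl
  have hRf : ∀ g ∈ RR hα hj, f g = 1 := by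
    rintro g ⟨a, ha, ha'⟩
    rw [hf, ha, ha', hj, map_inv, inv_mul_cancel]
  let mk := QuotientGroup.mk' (RR hα hj)
  have hmk : ∀ g, mk g = 1 ↔ g ∈ RR hα hj := by
    intro g
    exact QuotientGroup.eq_one_iff g
  refine ⟨(Q ⋊[ac α S π2] Λ) ⧸ RR hα hj, inferInstance, Fintype.ofFinite _,
    QuotientGroup.lift (RR hα hj) f hRf, mk.comp SemidirectProduct.inl,
    mk.comp SemidirectProduct.inr, ?_, ?_, ?_, ?_, ?_, ?_, ?_⟩
  · rw [injective_iff_map_eq_one]
    intro x hx
    rw [MonoidHom.comp_apply, hmk] at hx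
    obtain ⟨a, ha, ha'⟩ := hx
    rw [SemidirectProduct.right_inl] at ha'
    rw [SemidirectProduct.left_inl] at ha
    have h1 : a = 1 := hi (by rw [← ha', map_one])
    rw [ha, h1]
    simp
  · rw [injective_iff_map_eq_one]
    intro y hy
    rw [MonoidHom.comp_apply, hmk] at hy
    obtain ⟨a, ha, ha'⟩ := hy
    rw [SemidirectProduct.right_inr] at ha'
    rw [SemidirectProduct.left_inr] at ha
    have h1 : a = 1 := by
      apply Subtype.ext
      have h2 : (a : Q) = 1 := by
        rw [← inv_inv (a : Q), ← ha, inv_one]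
      exact h2
    rw [ha', h1, map_one]
  · intro x
    change f (SemidirectProduct.inl x) = q x
    rw [hf]
    simp
  · intro y
    change f (SemidirectProduct.inr y) = _
    rw [hf]
    simp
  · intro a
    rw [MonoidHom.comp_apply, MonoidHom.comp_apply]
    symm
    rw [← inv_mul_eq_one, ← map_inv, ← map_mul, hmk]
    refine ⟨a, ?_, ?_⟩
    · rw [← map_inv, SemidirectProduct.mul_left, SemidirectProduct.left_inl,
        SemidirectProduct.right_inl, SemidirectProduct.left_inr]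
      simp
    · rw [← map_inv, SemidirectProduct.mul_right, SemidirectProduct.right_inl,
        SemidirectProduct.right_inr, one_mul]
  · intro l
    obtain ⟨g, rfl⟩ := QuotientGroup.mk'_surjective _ l
    refine ⟨g.left, g.right, ?_⟩
    rw [MonoidHom.comp_apply, MonoidHom.comp_apply, ← map_mul,
      SemidirectProduct.inl_left_mul_inr_right]
  · intro y x
    rw [MonoidHom.comp_apply, MonoidHom.comp_apply, MonoidHom.comp_apply, ← map_inv,
      ← map_mul, ← map_mul, ← ac_apply, SemidirectProduct.inl_aut, map_inv]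

end AMB

open AMB in
theorem AMB_thm : Stmt_AMB := by
  intro Q K1 Λ _ _ _ _ _ _ q α μQ hα hq hz S f hf hS π2 μ2 j E hs hc hμ hji hj hcj hμj hE hEj
    hEz
  obtain ⟨L1, gL, fL, π1, ι, i, ιi, ii, πι, πi, ij, gen, cji⟩ :=
    exists_am (Q := Q) (K1 := K1) (Λ := Λ) hα hq hj hcj hji
  have hr : ∀ l, π1 l ∈ S → ∃ y, i y = l := by
    intro l hl
    obtain ⟨x, y, rfl⟩ := gen l
    rw [map_mul, πι, πi] at hl
    have hx : x ∈ S.comap q := by
      rw [Subgroup.mem_comap]
      have h1 := S.mul_mem hl (S.inv_mem (π2 y).2)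
      rw [mul_inv_cancel_right] at h1
      exact h1
    refine ⟨j ⟨x, hx⟩ * y, ?_⟩
    rw [map_mul, ij]
  have hr' : ∀ y, π1 (i y) ∈ S := by
    intro y
    rw [πi]
    exact (π2 y).2
  have hk : ∀ z : π1.ker, ∃ u : π2.ker, i (u : Λ) = z := by
    intro z
    have h1 : π1 (z : L1) = 1 := z.2
    obtain ⟨y, hy⟩ := hr z (by rw [h1]; exact S.one_mem)
    refine ⟨⟨y, ?_⟩, hy⟩
    rw [MonoidHom.mem_ker]
    apply Subtype.ext
    rw [← πi, hy, h1]
    rfl
  choose k hk using hk
  let kh : π1.ker →* π2.ker :=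
    { toFun := k
      map_one' := by
        apply Subtype.ext
        apply ii
        rw [hk, Subgroup.coe_one, Subgroup.coe_one, map_one]
      map_mul' := by
        intro a b
        apply Subtype.ext
        apply ii
        rw [hk, Subgroup.coe_mul, Subgroup.coe_mul, map_mul, hk, hk] }
  have hk' : ∀ s : ↥(S.comap π1), ∃ y, i y = s := fun s => hr s s.2
  choose k' hk' using hk'
  let kh' : ↥(S.comap π1) →* Λ :=
    { toFun := k'
      map_one' := by
        apply ii
        rw [hk', Subgroup.coe_one, map_one]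
      map_mul' := by
        intro a b
        apply ii
        rw [hk', Subgroup.coe_mul, map_mul, hk', hk'] }
  classical
  let F : L1 → ℂ := fun l => if h : ∃ y, i y = l then E h.choose else 0
  have hF : ∀ y, F (i y) = E y := by
    intro y
    have h : ∃ y', i y' = i y := ⟨y, rfl⟩
    have h1 : F (i y) = E h.choose := dif_pos h
    rw [h1]
    exact congrArg E (ii h.choose_spec)
  have hF0 : ∀ l, π1 l ∉ S → F l = 0 := by
    intro l hl
    apply dif_neg
    rintro ⟨y, rfl⟩
    exact hl (hr' y)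
  have hFι : ∀ x ∈ S.comap q, F (ι x) = f x := by
    intro x hx
    have h1 := ij ⟨x, hx⟩
    change i (j ⟨x, hx⟩) = ι x at h1
    rw [← h1, hF, hEj]
  refine ⟨L1, gL, fL, π1, μ2.comp kh, ι, F, ⟨?_, ?_, ?_, ιi, πι, ?_, ?_⟩, ⟨?_, ?_⟩, hFι, ?_⟩
  · -- surjective
    rw [← MonoidHom.range_eq_top, eq_top_iff, ← hS, sup_le_iff]
    constructor
    · rintro _ ⟨x, rfl⟩
      exact ⟨ι x, πι x⟩
    · intro s hs'
      obtain ⟨y, hy⟩ := hs ⟨s, hs'⟩
      refine ⟨i y, ?_⟩
      rw [πi, hy]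
  · -- central
    intro z hz'
    obtain ⟨u, hu⟩ : ∃ u : π2.ker, i (u : Λ) = z := ⟨k ⟨z, hz'⟩, hk ⟨z, hz'⟩⟩
    rw [Subgroup.mem_center_iff]
    intro l
    obtain ⟨x, y, rfl⟩ := gen l
    have h1 : i (u : Λ) * ι x = ι x * i (u : Λ) := by
      have h2 := cji (u : Λ) x
      have h3 : π2 (u : Λ) = 1 := u.2
      rw [h3, Subgroup.coe_one, map_one, MulAut.one_apply] at h2
      exact mul_inv_eq_iff_eq_mul.1 h2
    have h2 : i (u : Λ) * i y = i y * i (u : Λ) := by
      have h3 := Subgroup.mem_center_iff.1 (hc u.2) y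
      rw [← map_mul, ← map_mul, h3]
    rw [← hu, mul_assoc, ← h2, ← mul_assoc, ← h1, mul_assoc]
  · -- injective
    intro a b hab
    have h1 : k a = k b := hμ hab
    apply Subtype.ext
    rw [← hk a, ← hk b, h1]
  · intro l x
    obtain ⟨x', y, rfl⟩ := gen l
    rw [map_mul, πι, πi, map_mul, MulAut.mul_apply, hα, map_mul, map_mul, ← cji, map_inv]
    group
  · intro z h
    have hz' : (z : Q) ∈ S.comap q := by
      rw [Subgroup.mem_comap]
      have h1 : q (z : Q) = 1 := z.2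
      rw [h1]
      exact S.one_mem
    have h1 : ((k ⟨ι z, h⟩ : π2.ker) : Λ) = j ⟨z, hz'⟩ := by
      apply ii
      rw [hk, ij]
    have h2 : j ⟨z, hz'⟩ ∈ π2.ker := by
      rw [← h1]
      exact (k ⟨ι z, h⟩).2
    have h3 := hμj z ⟨z, hz'⟩ h2 rfl
    rw [← h3]
    change μ2 (k ⟨ι z, h⟩) = _
    congr 1
    exact Subtype.ext h1
  · -- irreducible
    let i0 : ↥(S.comap q) →* ↥(S.comap π1) :=
      (ι.comp (S.comap q).subtype).codRestrict (S.comap π1) (by
        intro a
        rw [Subgroup.mem_comap, MonoidHom.comp_apply, πι]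
        exact a.2)
    have hc1 : IsChr (fun s : ↥(S.comap π1) => F s) := by
      have h1 := hE.comp kh'
      have h2 : (fun s : ↥(S.comap π1) => F s) = fun s => E (kh' s) := by
        funext s
        have h3 : i (kh' s) = s := hk' s
        rw [← h3, hF]
      rw [h2]
      exact h1
    refine W0.isIrr_of_res i0 hc1 ?_
    have h2 : (fun a : ↥(S.comap q) => F (i0 a)) = fun a : ↥(S.comap q) => f a := by
      funext a
      exact hFι a a.2
    exact h2 ▸ hf.1
  · intro l hl
    exact hF0 l hl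
  · intro z x
    by_cases hx : π1 x ∈ S
    · obtain ⟨y, rfl⟩ := hr x hx
      have h1 : (z : L1) * i y = i ((k z : Λ) * y) := by
        rw [map_mul, hk]
      rw [h1, hF, hF, hEz]
      rfl
    · rw [hF0 x hx, hF0, mul_zero]
      have h1 : π1 (z : L1) = 1 := z.2
      rw [map_mul, h1, one_mul]
      exact hx

end Pool.Agent.DPG
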