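import Mathlib
import Pool.Agent.DPF.Defs

/-!
# Dade's conjecture: minimal normal subgroups which are not simple: definitions
-/

namespace Pool.Agent.DPG

open Pool.Agent.DP Pool.Agent.DPC Pool.Agent.DPM Pool.Agent.DPN Pool.Agent.DPF
  Pool.Agent.Lib_helper13 Representation
open Pool.Agent.Lib_helper13.Dade (pCore DadeHolds dadeSum)

/-! ### Scalars of invariant functions -/

section Sc

variable {L : Type} [Group L]

/-- `u` is invariant under conjugation by the elements of `S`. -/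
def CIv {A : Type} (S : Subgroup L) (u : L → A) : Prop := ∀ s ∈ S, ∀ x, u (s * x * s⁻¹) = u x

/-- `u` vanishes outside `S`. -/
def SOn {A : Type} [Zero A] (S : Set L) (u : L → A) : Prop := ∀ x, x ∉ S → u x = 0

/-- The reduction of the scalar by which the invariant function `u` acts on the character `F`
(extended by zero to `L`). -/
noncomputable def sc [Fintype L] (𝔐 : Ideal (integralClosure ℤ ℂ)) (F : L → ℂ) (u : L → ℤ) :
    (integralClosure ℤ ℂ) ⧸ 𝔐 :=
  red 𝔐 ((∑ x, ((u x : ℤ) : ℂ) * F x) / F 1)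

/-- The function `F` lies over the linear character `μ` of the kernel of `π`. -/
def Ov {K : Type} [Group K] (π : L →* K) (μ : π.ker →* ℂˣ) (F : L → ℂ) : Prop :=
  ∀ (z : π.ker) (x : L), F (z * x) = ((μ z : ℂˣ) : ℂ) * F x

end Sc

/-! ### Pairs -/

section Pairs

variable {L K : Type} [Group L] [Group K]

/-- The inverse image in `L` of `N ⊓ S`. -/
abbrev AL (π : L →* K) (N S : Subgroup K) : Subgroup L := (N ⊓ S).comap π

/-- A chain of `ℓ`-subgroups of `N`. -/
def ChN (ℓ : ℕ) (N : Subgroup K) (σ : Finset (Subgroup K)) : Prop :=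
  IsCh ℓ ⊥ σ ∧ ∀ D ∈ σ, D ≤ N

/-- The character `F` of the inverse image of `M ⊓ S` extends an irreducible character of the
inverse image of `N ⊓ S`, and `S` covers `M / N`. -/
structure EF (π : L →* K) (N M S : Subgroup K) (F : L → ℂ) : Prop where
  irr : IrrOn (AL π M S) F
  res : IsIrr (fun a : AL π N S => F a)
  cov : M ≤ N ⊔ S

/-- For every element `x` above `M` some invariant function on the coset of `x` has a nonzero
scalar. -/
def SUP [Fintype L] (𝔐 : Ideal (integralClosure ℤ ℂ)) (π : L →* K) (N M : Subgroup K)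
    (F : L → ℂ) : Prop :=
  ∀ x, π x ∈ M → ∃ u : L → ℤ, CIv (N.comap π) u ∧ SOn {y | π (x⁻¹ * y) ∈ N} u ∧ sc 𝔐 F u ≠ 0

/-- The character `f` of the inverse image of `M ⊓ S` over `μ` is invariant under `S`, which covers
`K / M`, and its central function agrees with `ω` on the inverse image of `M`. -/
structure BPs [Fintype L] (𝔐 : Ideal (integralClosure ℤ ℂ)) (π : L →* K) (μ : π.ker →* ℂˣ)
    (M : Subgroup K) (ω : L → (integralClosure ℤ ℂ) ⧸ 𝔐) (S : Subgroup K) (f : L → ℂ) :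
    Prop where
  irr : IrrOn (AL π M S) f
  ovl : Ov π μ f
  cn : ∀ g, π g ∈ M → cg 𝔐 f g = ω g
  sj : M ⊔ S = ⊤
  iv : ∀ t, π t ∈ S → ∀ x, f (t * x * t⁻¹) = f x

/-- The characters of the inverse image of `N` over `μ` which are covered by `ω`. -/
def Cvd [Fintype L] (𝔐 : Ideal (integralClosure ℤ ℂ)) (π : L →* K) (μ : π.ker →* ℂˣ)
    (N : Subgroup K) (ω : L → (integralClosure ℤ ℂ) ⧸ 𝔐) (f : L → ℂ) : Prop :=
  IrrOn (N.comap π) f ∧ Ov π μ f ∧ ∀ g, π g ∈ N → cg 𝔐 f g = ω g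

/-- The blocks of the inverse image of `N` which are covered by `ω` are stable. -/
def STB [Fintype L] (𝔐 : Ideal (integralClosure ℤ ℂ)) (π : L →* K) (μ : π.ker →* ℂˣ)
    (N : Subgroup K) (ω : L → (integralClosure ℤ ℂ) ⧸ 𝔐) : Prop :=
  ∀ f, Cvd 𝔐 π μ N ω f → ∀ u : L → ℤ, CIv (N.comap π) u → SOn (N.comap π : Set L) u →
    ∀ l, sc 𝔐 f (fun x => u (l * x * l⁻¹)) = sc 𝔐 f u

/-- The support of the blocks of the inverse image of `N` which are covered by `ω` contains
`M`. -/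
def SPP [Fintype L] (𝔐 : Ideal (integralClosure ℤ ℂ)) (π : L →* K) (μ : π.ker →* ℂˣ)
    (N M : Subgroup K) (ω : L → (integralClosure ℤ ℂ) ⧸ 𝔐) : Prop :=
  ∀ f, Cvd 𝔐 π μ N ω f → ∀ x, π x ∈ M → ∃ u v : L → ℤ, CIv (N.comap π) u ∧
    CIv (N.comap π) v ∧ SOn {y | π (x⁻¹ * y) ∈ N} u ∧ SOn {y | π (x * y) ∈ N} v ∧
    sc 𝔐 f (conv u v) ≠ 0

/-- The fibre product of the inverse image of `S` and `W` over `H`. -/
def GS {H W : Type} [Group H] [Group W] (π : L →* K) (p : K →* H) (πW : W →* H)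
    (S : Subgroup K) : Subgroup (L × W) where
  carrier := {x | π x.1 ∈ S ∧ p (π x.1) = πW x.2}
  one_mem' := by
    constructor
    · simp [S.one_mem]
    · simp
  mul_mem' := by
    rintro a b ⟨ha1, ha2⟩ ⟨hb1, hb2⟩
    refine ⟨?_, ?_⟩
    · rw [Prod.fst_mul, map_mul]
      exact S.mul_mem ha1 hb1
    · rw [Prod.fst_mul, Prod.snd_mul, map_mul, map_mul, map_mul, ha2, hb2]
  inv_mem' := by
    rintro a ⟨ha1, ha2⟩
    refine ⟨?_, ?_⟩
    · rw [Prod.fst_inv, map_inv]
      exact S.inv_mem ha1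
    · rw [Prod.fst_inv, Prod.snd_inv, map_inv, map_inv, map_inv, ha2]

/-- The character `f` extends over the extension `W` of `H`, with `ν` on the kernel. -/
def EDb {H W : Type} [Group H] [Group W] (π : L →* K) (p : K →* H) (M : Subgroup K)
    (πW : W →* H) (S : Subgroup K) (f : L → ℂ) (ν : πW.ker →* ℂˣ) : Prop :=
  ∃ E : L × W → ℂ, IsChr (fun x : GS π p πW S => E x) ∧ (∀ x, x ∉ GS π p πW S → E x = 0) ∧
    (∀ a, π a ∈ M → π a ∈ S → E (a, 1) = f a) ∧
    ∀ (z : πW.ker) (t : L) (w : W), ((ν z : ℂˣ) : ℂ) * E (t, z * w) = E (t, w)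

end Pairs

/-! ### Wreath products -/

section Wr

/-- The map between wreath products induced by a homomorphism. -/
def gmap {B B' : Type} [Group B] [Group B'] (Ω : Type) (f : B →* B') :
    Gam (Equiv.Perm Ω) Ω B →* Gam (Equiv.Perm Ω) Ω B' where
  toFun x := ⟨fun o => f (x.left o), x.right⟩
  map_one' := by
    apply SemidirectProduct.ext
    · ext o
      simp
    · simp
  map_mul' := by
    intro x y
    apply SemidirectProduct.ext
    · ext o
      exact f.map_mul _ _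
    · simp

/-- The element of the base group. -/
def gin {B : Type} [Group B] {Ω : Type} (n : Ω → B) : Gam (Equiv.Perm Ω) Ω B :=
  SemidirectProduct.inl n

variable {L K K1 Q Ω : Type} [Group L] [Group K] [Group K1] [Group Q] [Fintype Ω]

/-- `L` is a central extension of `K`; `K` is embedded by `φ` in the wreath product of `K1` with
the symmetric group of `Ω`; `Q` is a central extension (by `q`) of a normal subgroup of `K1`, on
which `K1` acts by `α`, and `ε` maps `Q ^ Ω` onto the inverse image in `L` of a normal subgroup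
of `K`. -/
structure WD (π : L →* K) (μ : π.ker →* ℂˣ) (φ : K →* Gam (Equiv.Perm Ω) Ω K1) (q : Q →* K1)
    (α : K1 →* MulAut Q) (ε : (Ω → Q) →* L) (μQ : q.ker →* ℂˣ) : Prop where
  πs : Function.Surjective π
  πc : π.ker ≤ Subgroup.center L
  μi : Function.Injective μ
  φi : Function.Injective φ
  μQi : Function.Injective μQ
  qα : ∀ x a, α (q x) a = x * a * x⁻¹
  qe : ∀ k x, q (α k x) = k * q x * k⁻¹
  αz : ∀ k, ∀ z ∈ q.ker, α k z = z
  φε : ∀ n : Ω → Q, φ (π (ε n)) = gin (fun o => q (n o))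
  cj : ∀ l n, ε (wB α Ω (φ (π l)) n) = l * ε n * l⁻¹
  kr : π.ker ≤ ε.range
  με : ∀ (n : Ω → Q) (h : ∀ o, n o ∈ q.ker) (h' : ε n ∈ π.ker),
    μ ⟨ε n, h'⟩ = ∏ o, μQ ⟨n o, h o⟩
  tr : ∀ o o', ∃ k, (φ k).right o = o'
  sj : ∀ o b, ∃ k, (φ k).right o = o ∧ (φ k).left o = b

/-- `L1` is a central extension of `K1` which contains `Q`. -/
structure LD {L1 : Type} [Group L1] (q : Q →* K1) (α : K1 →* MulAut Q) (μQ : q.ker →* ℂˣ)
    (π1 : L1 →* K1) (μ1 : π1.ker →* ℂˣ) (ι : Q →* L1) : Prop where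
  s : Function.Surjective π1
  c : π1.ker ≤ Subgroup.center L1
  i : Function.Injective μ1
  ιi : Function.Injective ι
  πι : ∀ x, π1 (ι x) = q x
  ια : ∀ y x, ι (α (π1 y) x) = y * ι x * y⁻¹
  μι : ∀ (z : q.ker) (h : ι z ∈ π1.ker), μ1 ⟨ι z, h⟩ = μQ z

/-- The normal subgroup of `K` which belongs to `Q ^ Ω`. -/
abbrev NN' (π : L →* K) (ε : (Ω → Q) →* L) : Subgroup K := ε.range.map π

/-- `M` is a normal subgroup of `K` which acts trivially on `Ω`; `M1` is the group of the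
coordinates of its elements. -/
structure MM (ℓ : ℕ) (π : L →* K) (φ : K →* Gam (Equiv.Perm Ω) Ω K1) (q : Q →* K1)
    (ε : (Ω → Q) →* L) (M : Subgroup K) (M1 : Subgroup K1) : Prop where
  nm : M.Normal
  nm1 : M1.Normal
  r : ∀ m ∈ M, (φ m).right = 1
  l : ∀ m ∈ M, ∀ o, (φ m).left o ∈ M1
  s : ∀ o, ∀ b ∈ M1, ∃ m ∈ M, (φ m).left o = b
  le : NN' π ε ≤ M
  cop : ¬ ℓ ∣ (NN' π ε).relIndex M
  le1 : q.range ≤ M1
  cop1 : ¬ ℓ ∣ q.range.relIndex M1

/-- The elements of `N` with coordinates in `D`. -/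
def cst (φ : K →* Gam (Equiv.Perm Ω) Ω K1) (N : Subgroup K) (D : Subgroup K1) : Subgroup K where
  carrier := {k | k ∈ N ∧ (φ k).right = 1 ∧ ∀ o, (φ k).left o ∈ D}
  one_mem' := by
    refine ⟨N.one_mem, by simp, ?_⟩
    intro o
    simp [D.one_mem]
  mul_mem' := by
    rintro a b ⟨ha, ha', ha''⟩ ⟨hb, hb', hb''⟩
    refine ⟨N.mul_mem ha hb, by simp [ha', hb'], ?_⟩
    intro o
    rw [map_mul]
    change (φ a).left o * (φ b).left ((φ a).right⁻¹ • o) ∈ D
    exact D.mul_mem (ha'' o) (hb'' _)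
  inv_mem' := by
    rintro a ⟨ha, ha', ha''⟩
    refine ⟨N.inv_mem ha, by simp [ha'], ?_⟩
    intro o
    rw [map_inv]
    change ((φ a).left ((φ a).right⁻¹⁻¹ • o))⁻¹ ∈ D
    exact D.inv_mem (ha'' _)

open Classical in
/-- The chain of `N` with all coordinates equal to the chain `σ`. -/
noncomputable def cstC (φ : K →* Gam (Equiv.Perm Ω) Ω K1) (N : Subgroup K)
    (σ : Finset (Subgroup K1)) : Finset (Subgroup K) :=
  σ.image (cst φ N)

/-- The elements of `N` whose coordinates are coordinates of elements of `D`. -/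
def clN (φ : K →* Gam (Equiv.Perm Ω) Ω K1) (N D : Subgroup K) : Set K :=
  {k | k ∈ N ∧ ∀ o, ∃ d ∈ D, (φ d).left o = (φ k).left o}

/-- The members of the chain `σ` of `N` are products of subgroups of the coordinates. -/
def Clo (φ : K →* Gam (Equiv.Perm Ω) Ω K1) (N : Subgroup K) (σ : Finset (Subgroup K)) : Prop :=
  ∀ D ∈ σ, clN φ N D ⊆ (D : Set K)

open Classical in
/-- Conjugation of a chain. -/
noncomputable def cjC {G : Type} [Group G] (g : G) (σ : Finset (Subgroup G)) :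
    Finset (Subgroup G) :=
  σ.image (fun D => D.map (MulAut.conj g).toMonoidHom)

/-- Conjugation of a function. -/
def cjF {G : Type} [Group G] (g : G) (f : G → ℂ) (x : G) : ℂ := f (g⁻¹ * x * g)

end Wr

/-! ### The fibre product -/

section Fb

variable {L K K1 Q L1 Ω : Type} [Group L] [Group K] [Group K1] [Group Q] [Group L1]
  [Fintype Ω]

/-- The elements `(l, g)` such that the image of `g` is `φ (π l)`. -/
abbrev YY (π : L →* K) (φ : K →* Gam (Equiv.Perm Ω) Ω K1) (π1 : L1 →* K1) :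
    Subgroup (L × Gam (Equiv.Perm Ω) Ω L1) :=
  fpr (φ.comp π) (gmap Ω π1)

/-- The elements above `M`. -/
def MY (π : L →* K) (φ : K →* Gam (Equiv.Perm Ω) Ω K1) (π1 : L1 →* K1) (M : Subgroup K) :
    Subgroup (L × Gam (Equiv.Perm Ω) Ω L1) :=
  YY π φ π1 ⊓ M.comap (π.comp (MonoidHom.fst L (Gam (Equiv.Perm Ω) Ω L1)))

/-- The element of the fibre product which belongs to `n`. -/
def dY (ε : (Ω → Q) →* L) (ι : Q →* L1) (n : Ω → Q) : L × Gam (Equiv.Perm Ω) Ω L1 :=
  (ε n, gin (fun o => ι (n o)))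

/-- The irreducible character `ζ` of the group above `M` is trivial on `Q ^ Ω` and lies over the
inverse of the product of the `μ1`. -/
structure ZT (π : L →* K) (φ : K →* Gam (Equiv.Perm Ω) Ω K1) (π1 : L1 →* K1)
    (μ1 : π1.ker →* ℂˣ) (ε : (Ω → Q) →* L) (ι : Q →* L1) (M : Subgroup K)
    (ζ : L × Gam (Equiv.Perm Ω) Ω L1 → ℂ) : Prop where
  irr : IrrOn (MY π φ π1 M) ζ
  d : ∀ (n : Ω → Q) (x), ζ (x * dY ε ι n) = ζ x
  z : ∀ (z : Ω → π1.ker) (x),
    (∏ o, ((μ1 (z o) : ℂˣ) : ℂ)) * ζ ((1, gin (fun o => (z o : L1))) * x) = ζ x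

/-- `θ` is the product of the values of `F` at the coordinates and of `ζ`. -/
def TP (π : L →* K) (φ : K →* Gam (Equiv.Perm Ω) Ω K1) (π1 : L1 →* K1) (M : Subgroup K)
    (F : L1 → ℂ) (ζ : L × Gam (Equiv.Perm Ω) Ω L1 → ℂ) (θ : L → ℂ) : Prop :=
  (∀ l, π l ∉ M → θ l = 0) ∧ ∀ x ∈ MY π φ π1 M, θ x.1 = (∏ o, F (x.2.left o)) * ζ x

end Fb

end Pool.Agent.DPG
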