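import Mathlib
import Pool.Agent.DPG.Defs
import Pool.Agent.DPF.Stmts

/-!
# Dade's conjecture: minimal normal subgroups which are not simple: statements of the modules,
part A (general facts)
-/

namespace Pool.Agent.DPG

open Pool.Agent.DP Pool.Agent.DPC Pool.Agent.DPM Pool.Agent.DPN Pool.Agent.DPF
  Pool.Agent.Lib_helper13 Representation
open Pool.Agent.Lib_helper13.Dade (pCore DadeHolds dadeSum)

/-! ### Commutators in wreath products -/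

/-- STK: the product of the coordinates of a commutator. -/
def Stmt_STK : Prop :=
  ∀ (G B Δ : Type) [Group G] [Group B] [Fintype Δ] (ψ : G →* Gam (Equiv.Perm Δ) Δ B) (x y : G)
    (C0 : Subgroup B), C0 ≤ Subgroup.center B →
    (∀ δ δ' : Δ, ∃ g ∈ Subgroup.closure {x, y}, (ψ g).right δ = δ') →
    (ψ (x * y * x⁻¹ * y⁻¹)).right = 1 →
    ∀ hc : ∀ δ, (ψ (x * y * x⁻¹ * y⁻¹)).left δ ∈ C0, ∀ δ0 : Δ,
    ∃ U V : B, (∃ hUV : U * V * U⁻¹ * V⁻¹ ∈ C0, ∀ χ : C0 →* ℂˣ,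
        χ ⟨U * V * U⁻¹ * V⁻¹, hUV⟩ = ∏ δ, χ ⟨(ψ (x * y * x⁻¹ * y⁻¹)).left δ, hc δ⟩) ∧
      ∀ g ∈ Subgroup.closure {x, y}, (ψ g).right δ0 = δ0 →
        (ψ g).left δ0 ∈ Subgroup.closure {U, V} ⊔ C0

/-- PST: passage to the orbits of a Sylow subgroup. -/
def Stmt_PST : Prop :=
  ∀ (W B Ω : Type) [Group W] [Finite W] [Group B] [Finite B] [Fintype Ω] (ℓ : ℕ)
    [Fact ℓ.Prime], ¬ ℓ ∣ Nat.card B → ∀ (ψ : W →* Gam (Equiv.Perm Ω) Ω B) (T P : Subgroup W),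
    T.Normal → P.Normal → T ≤ P → (∀ x ∈ P, ∃ k : ℕ, x ^ ℓ ^ k ∈ T) →
    ∀ C0 : Subgroup B, C0 ≤ Subgroup.center B → (∀ t ∈ T, (ψ t).right = 1) →
    ∀ hT : ∀ t ∈ T, ∀ o, (ψ t).left o ∈ C0, (∀ o o' : Ω, ∃ w, (ψ w).right o = o') →
    ∀ x y e : W, Subgroup.closure {x, y} ⊔ P = ⊤ → e ∈ ⁅P, P⁆ →
    ∀ ht : x * y * x⁻¹ * y⁻¹ * e ∈ T, ∀ o0 : Ω,
    ∃ U V : B, (∃ hUV : U * V * U⁻¹ * V⁻¹ ∈ C0, ∀ χ : C0 →* ℂˣ,
        χ ⟨U * V * U⁻¹ * V⁻¹, hUV⟩ = ∏ o, χ ⟨(ψ (x * y * x⁻¹ * y⁻¹ * e)).left o, hT _ ht o⟩) ∧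
      ∀ w : W, (ψ w).right o0 = o0 → (ψ w).left o0 ∈ Subgroup.closure {U, V} ⊔ C0

/-- STO: the product of the coordinates of a commutator is a commutator. -/
def Stmt_STO : Prop :=
  ∀ (W H W1 H1 Ω : Type) [Group W] [Fintype W] [Group H] [Fintype H] [Group W1] [Fintype W1]
    [Group H1] [Fintype H1] [Fintype Ω] [Nonempty Ω] (ℓ : ℕ) [Fact ℓ.Prime] (π : W →* H),
    Function.Surjective π → ∀ P : Subgroup H, SylAb ℓ P → ∀ π1 : W1 →* H1,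
    Function.Surjective π1 → π1.ker ≤ Subgroup.center W1 → ∀ P1 : Subgroup H1, SylAb ℓ P1 →
    ∀ ψ : W →* Gam (Equiv.Perm Ω) Ω W1, (∀ o o' : Ω, ∃ w, (ψ w).right o = o') →
    (∀ o b, ∃ w, (ψ w).right o = o ∧ (ψ w).left o = b) → (∀ z ∈ π.ker, (ψ z).right = 1) →
    ∀ hk : ∀ z ∈ π.ker, ∀ o, (ψ z).left o ∈ π1.ker,
    ∀ a : π.ker, InS π P (a : W) → ∃ a1 : π1.ker, InS π1 P1 (a1 : W1) ∧
      ∀ χ : π1.ker →* ℂˣ, χ a1 = ∏ o, χ ⟨(ψ (a : W)).left o, hk _ a.2 o⟩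

/-- SYT: the quotient of the vertex group. -/
def Stmt_SYT : Prop :=
  ∀ (K K1 H Ω : Type) [Group K] [Finite K] [Group K1] [Finite K1] [Group H] [Finite H]
    [Nonempty Ω] (ℓ : ℕ) [Fact ℓ.Prime] (φ : K →* Gam (Equiv.Perm Ω) Ω K1),
    (∀ o b, ∃ k, (φ k).right o = o ∧ (φ k).left o = b) →
    ∀ (M : Subgroup K) (M1 : Subgroup K1) [M1.Normal], (∀ m ∈ M, (φ m).right = 1) →
    (∀ m ∈ M, ∀ o, (φ m).left o ∈ M1) → ∀ p : K →* H, Function.Surjective p →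
    (∀ k, p k = 1 ↔ k ∈ M) → ∀ P : Subgroup H, SylAb ℓ P →
    ∃ P1 : Subgroup (K1 ⧸ M1), SylAb ℓ P1

/-! ### The amalgam -/

/-- AMA: the twisted group of an invariant character. -/
def Stmt_AMA : Prop :=
  ∀ (Q K1 : Type) [Group Q] [Fintype Q] [Group K1] [Fintype K1] (q : Q →* K1)
    (α : K1 →* MulAut Q) (μQ : q.ker →* ℂˣ), (∀ x a, α (q x) a = x * a * x⁻¹) →
    (∀ k x, q (α k x) = k * q x * k⁻¹) → (∀ k, ∀ z ∈ q.ker, α k z = z) →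
    Function.Injective μQ → ∀ (S : Subgroup K1) (f : Q → ℂ), IrrOn (S.comap q) f → Ov q μQ f →
    (∀ k ∈ S, ∀ x, f (α k x) = f x) →
    ∃ (Λ : Type) (_ : Group Λ) (_ : Fintype Λ) (π2 : Λ →* S) (μ2 : π2.ker →* ℂˣ)
      (j : ↥(S.comap q) →* Λ) (E : Λ → ℂ), Function.Surjective π2 ∧
      π2.ker ≤ Subgroup.center Λ ∧ Function.Injective μ2 ∧ Function.Injective j ∧
      (∀ a : ↥(S.comap q), ((π2 (j a) : S) : K1) = q a) ∧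
      (∀ (y : Λ) (a b : ↥(S.comap q)), (b : Q) = α (π2 y : S) a → j b = y * j a * y⁻¹) ∧
      (∀ (z : q.ker) (a : ↥(S.comap q)) (h : j a ∈ π2.ker), (a : Q) = z → μ2 ⟨j a, h⟩ = μQ z) ∧
      IsChr E ∧ (∀ a : ↥(S.comap q), E (j a) = f a) ∧
      ∀ (z : π2.ker) (x : Λ), E (z * x) = ((μ2 z : ℂˣ) : ℂ) * E x

/-- AMB: the amalgam. -/
def Stmt_AMB : Prop :=
  ∀ (Q K1 Λ : Type) [Group Q] [Fintype Q] [Group K1] [Fintype K1] [Group Λ] [Fintype Λ]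
    (q : Q →* K1) (α : K1 →* MulAut Q) (μQ : q.ker →* ℂˣ),
    (∀ x a, α (q x) a = x * a * x⁻¹) → (∀ k x, q (α k x) = k * q x * k⁻¹) →
    (∀ k, ∀ z ∈ q.ker, α k z = z) → ∀ (S : Subgroup K1) (f : Q → ℂ), IrrOn (S.comap q) f →
    q.range ⊔ S = ⊤ →
    ∀ (π2 : Λ →* S) (μ2 : π2.ker →* ℂˣ) (j : ↥(S.comap q) →* Λ) (E : Λ → ℂ),
      Function.Surjective π2 → π2.ker ≤ Subgroup.center Λ → Function.Injective μ2 →
      Function.Injective j → (∀ a : ↥(S.comap q), ((π2 (j a) : S) : K1) = q a) →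
      (∀ (y : Λ) (a b : ↥(S.comap q)), (b : Q) = α (π2 y : S) a → j b = y * j a * y⁻¹) →
      (∀ (z : q.ker) (a : ↥(S.comap q)) (h : j a ∈ π2.ker), (a : Q) = z →
        μ2 ⟨j a, h⟩ = μQ z) →
      IsChr E → (∀ a : ↥(S.comap q), E (j a) = f a) →
      (∀ (z : π2.ker) (x : Λ), E (z * x) = ((μ2 z : ℂˣ) : ℂ) * E x) →
    ∃ (L1 : Type) (_ : Group L1) (_ : Fintype L1) (π1 : L1 →* K1) (μ1 : π1.ker →* ℂˣ)
      (ι : Q →* L1) (F : L1 → ℂ), LD q α μQ π1 μ1 ι ∧ IrrOn (S.comap π1) F ∧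
      (∀ x ∈ S.comap q, F (ι x) = f x) ∧ Ov π1 μ1 F

/-! ### Blocks -/

/-- CHT: the chains of a central extension. -/
def Stmt_CHT : Prop :=
  ∀ (L K : Type) [Group L] [Fintype L] [Group K] [Fintype K] (ℓ : ℕ) [Fact ℓ.Prime]
    (π : L →* K), Function.Surjective π → π.ker ≤ Subgroup.center L →
    ∀ (N : Subgroup K) (σ : Finset (Subgroup K)), ChN ℓ N σ →
    ∃ (Z : Subgroup ↥(N.comap π)) (τ : Finset (Subgroup ↥(N.comap π))),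
      Z.map (N.comap π).subtype ≤ Subgroup.center L ∧ IsPGroup ℓ Z ∧ τ ∈ Ch ℓ Z ∧
      stb (mapCh (N.comap π).subtype τ) = (stb σ).comap π ∧
      ∀ s : ↥(N.comap π), s ∈ stb τ ↔ π s ∈ stb σ

/-- CHB: products of invariant functions and their restrictions to the stabilizer of a chain. -/
def Stmt_CHB : Prop :=
  ∀ (L K : Type) [Group L] [Fintype L] [Group K] [Fintype K]
    (𝔐 : Ideal (integralClosure ℤ ℂ)) (ℓ : ℕ) [Fact ℓ.Prime], 𝔐.IsMaximal →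
    (ℓ : integralClosure ℤ ℂ) ∈ 𝔐 → ∀ π : L →* K, Function.Surjective π →
    π.ker ≤ Subgroup.center L → ∀ (N : Subgroup K) [N.Normal] (σ : Finset (Subgroup K)),
    ChN ℓ N σ → ∀ f : L → ℂ, IrrOn (AL π N (stb σ)) f → ∀ u v : L → ℤ,
    CIv (N.comap π) u → CIv (N.comap π) v →
    sc 𝔐 f (conv u v) =
      sc 𝔐 f (fun x => ∑ y : L, open Classical in
        if π y ∈ stb σ then u y * v (y⁻¹ * x) else 0)

/-- IRC: characters of the normal subgroup in the block of a character of the stabilizer of a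
chain. -/
def Stmt_IRC : Prop :=
  ∀ (L K : Type) [Group L] [Fintype L] [Group K] [Fintype K]
    (𝔐 : Ideal (integralClosure ℤ ℂ)) (ℓ : ℕ) [Fact ℓ.Prime], 𝔐.IsMaximal →
    (ℓ : integralClosure ℤ ℂ) ∈ 𝔐 → ∀ π : L →* K, Function.Surjective π →
    π.ker ≤ Subgroup.center L → ∀ (μ : π.ker →* ℂˣ) (M : Subgroup K) [M.Normal]
    (σ : Finset (Subgroup K)), ChN ℓ M σ → ∀ G : L → ℂ, IrrOn (AL π M (stb σ)) G → Ov π μ G →
    ∃ χ : L → ℂ, IrrOn (M.comap π) χ ∧ Ov π μ χ ∧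
      ∀ u : L → ℤ, CIv (M.comap π) u → SOn (M.comap π : Set L) u → sc 𝔐 χ u = sc 𝔐 G u

/-- SST: the elements of the support stabilize the characters. -/
def Stmt_SST : Prop :=
  ∀ (L K : Type) [Group L] [Fintype L] [Group K] [Fintype K]
    (𝔐 : Ideal (integralClosure ℤ ℂ)) (ℓ : ℕ) [Fact ℓ.Prime], 𝔐.IsMaximal →
    (ℓ : integralClosure ℤ ℂ) ∈ 𝔐 → ∀ π : L →* K, Function.Surjective π →
    π.ker ≤ Subgroup.center L → ∀ (N : Subgroup K) [N.Normal] (σ : Finset (Subgroup K)),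
    ChN ℓ N σ → ∀ f : L → ℂ, IrrOn (AL π N (stb σ)) f → ∀ (x0 : L) (u v : L → ℤ),
    CIv (N.comap π) u → CIv (N.comap π) v → SOn {y | π (x0⁻¹ * y) ∈ N} u →
    SOn {y | π (x0 * y) ∈ N} v → sc 𝔐 f (conv u v) ≠ 0 →
    (∃ t, π t ∈ stb σ ∧ π (x0⁻¹ * t) ∈ N) ∧
    ∀ t, π t ∈ stb σ → π (x0⁻¹ * t) ∈ N → ∀ x, f (t * x * t⁻¹) = f x

/-- RIX: existence of an extension with prescribed scalars. -/
def Stmt_RIX : Prop :=
  ∀ (L K : Type) [Group L] [Fintype L] [Group K] [Fintype K]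
    (𝔐 : Ideal (integralClosure ℤ ℂ)) (ℓ : ℕ) [Fact ℓ.Prime], 𝔐.IsMaximal →
    (ℓ : integralClosure ℤ ℂ) ∈ 𝔐 → ∀ π : L →* K, Function.Surjective π →
    π.ker ≤ Subgroup.center L → ∀ (N M : Subgroup K) [N.Normal] [M.Normal], N ≤ M →
    ¬ ℓ ∣ N.relIndex M → ∀ (σr : Finset (Subgroup K)) (Fr : L → ℂ), ChN ℓ N σr →
    EF π N M (stb σr) Fr → SUP 𝔐 π N M Fr → ∀ (σ : Finset (Subgroup K)) (f : L → ℂ),
    ChN ℓ N σ → IrrOn (AL π N (stb σ)) f →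
    (∀ u : L → ℤ, CIv (N.comap π) u → SOn (N.comap π : Set L) u → sc 𝔐 f u = sc 𝔐 Fr u) →
    M ≤ N ⊔ stb σ ∧ (∀ t, π t ∈ M → π t ∈ stb σ → ∀ x, f (t * x * t⁻¹) = f x) ∧
    ∃ F : L → ℂ, EF π N M (stb σ) F ∧ (∀ x ∈ AL π N (stb σ), F x = f x) ∧
      ∀ u : L → ℤ, CIv (N.comap π) u → sc 𝔐 F u = sc 𝔐 Fr u

/-- RIY: uniqueness of the extension with prescribed scalars. -/
def Stmt_RIY : Prop :=
  ∀ (L K : Type) [Group L] [Fintype L] [Group K] [Fintype K]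
    (𝔐 : Ideal (integralClosure ℤ ℂ)) (ℓ : ℕ) [Fact ℓ.Prime], 𝔐.IsMaximal →
    (ℓ : integralClosure ℤ ℂ) ∈ 𝔐 → ∀ π : L →* K, Function.Surjective π →
    π.ker ≤ Subgroup.center L → ∀ (N M : Subgroup K) [N.Normal] [M.Normal], N ≤ M →
    ¬ ℓ ∣ N.relIndex M → ∀ (S : Subgroup K) (F F' : L → ℂ), EF π N M S F → EF π N M S F' →
    (∀ x ∈ AL π N S, F x = F' x) → SUP 𝔐 π N M F →
    (∀ u : L → ℤ, CIv (N.comap π) u → sc 𝔐 F u = sc 𝔐 F' u) → F = F'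

/-- RIU: the characters of the block are extensions with the same scalars. -/
def Stmt_RIU : Prop :=
  ∀ (L K : Type) [Group L] [Fintype L] [Group K] [Fintype K]
    (𝔐 : Ideal (integralClosure ℤ ℂ)) (ℓ : ℕ) [Fact ℓ.Prime], 𝔐.IsMaximal →
    (ℓ : integralClosure ℤ ℂ) ∈ 𝔐 → ∀ π : L →* K, Function.Surjective π →
    π.ker ≤ Subgroup.center L → ∀ (N M : Subgroup K) [N.Normal] [M.Normal], N ≤ M →
    ¬ ℓ ∣ N.relIndex M → ∀ (σr : Finset (Subgroup K)) (Fr : L → ℂ), ChN ℓ N σr →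
    EF π N M (stb σr) Fr → SUP 𝔐 π N M Fr → ∀ (σ : Finset (Subgroup K)) (G : L → ℂ),
    ChN ℓ N σ → IrrOn (AL π M (stb σ)) G →
    (∀ u : L → ℤ, CIv (M.comap π) u → SOn (M.comap π : Set L) u → sc 𝔐 G u = sc 𝔐 Fr u) →
    EF π N M (stb σ) G ∧ ∀ u : L → ℤ, CIv (N.comap π) u → sc 𝔐 G u = sc 𝔐 Fr u

/-- BEM: invariant pairs with the same central function on the classes of the group have the same
central function on the classes of the normal subgroup. -/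
def Stmt_BEM : Prop :=
  ∀ (L K : Type) [Group L] [Fintype L] [Group K] [Fintype K]
    (𝔐 : Ideal (integralClosure ℤ ℂ)) (ℓ : ℕ) [Fact ℓ.Prime], 𝔐.IsMaximal →
    (ℓ : integralClosure ℤ ℂ) ∈ 𝔐 → ∀ π : L →* K, Function.Surjective π →
    π.ker ≤ Subgroup.center L → ∀ (μ : π.ker →* ℂˣ) (M : Subgroup K) [M.Normal]
    (ω : L → (integralClosure ℤ ℂ) ⧸ 𝔐) (σ σ' : Finset (Subgroup K)) (G G' : L → ℂ),
    ChN ℓ M σ → ChN ℓ M σ' → BPs 𝔐 π μ M ω (stb σ) G → BPs 𝔐 π μ M ω (stb σ') G' →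
    ∀ u : L → ℤ, CIv (M.comap π) u → SOn (M.comap π : Set L) u → sc 𝔐 G u = sc 𝔐 G' u

/-- NPT: the restriction to `N` of a pair. -/
def Stmt_NPT : Prop :=
  ∀ (L K : Type) [Group L] [Fintype L] [Group K] [Fintype K]
    (𝔐 : Ideal (integralClosure ℤ ℂ)) (ℓ : ℕ) [Fact ℓ.Prime], 𝔐.IsMaximal →
    (ℓ : integralClosure ℤ ℂ) ∈ 𝔐 → ∀ π : L →* K, Function.Surjective π →
    π.ker ≤ Subgroup.center L → ∀ (μ : π.ker →* ℂˣ) (N M : Subgroup K) [N.Normal]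
    [M.Normal], N ≤ M → ∀ ω : L → (integralClosure ℤ ℂ) ⧸ 𝔐,
    STB 𝔐 π μ N ω → SPP 𝔐 π μ N M ω → ∀ (σ : Finset (Subgroup K)) (θ : L → ℂ), ChN ℓ N σ →
    BPs 𝔐 π μ M ω (stb σ) θ →
    ∃ (f : L → ℂ) (e : ℕ), e ≠ 0 ∧ IrrOn (AL π N (stb σ)) f ∧ Ov π μ f ∧
      N ⊔ stb σ = ⊤ ∧ (∀ t, π t ∈ stb σ → ∀ x, f (t * x * t⁻¹) = f x) ∧
      (∀ x ∈ AL π N (stb σ), θ x = e * f x) ∧ (∃ f0, Cvd 𝔐 π μ N ω f0) ∧
      ∀ f0, Cvd 𝔐 π μ N ω f0 → ∀ u : L → ℤ, CIv (N.comap π) u →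
        SOn (N.comap π : Set L) u → sc 𝔐 f u = sc 𝔐 f0 u

/-- PSN: no character of the inverse image of `N` covered by `ω` has minimal defect. -/
def Stmt_PSN : Prop :=
  ∀ (L K : Type) [Group L] [Fintype L] [Group K] [Fintype K]
    (𝔐 : Ideal (integralClosure ℤ ℂ)) (ℓ : ℕ) [Fact ℓ.Prime], 𝔐.IsMaximal →
    (ℓ : integralClosure ℤ ℂ) ∈ 𝔐 → ∀ π : L →* K, Function.Surjective π →
    π.ker ≤ Subgroup.center L → ∀ (μ : π.ker →* ℂˣ) (N M : Subgroup K) [N.Normal]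
    [M.Normal], N ≤ M → ¬ ℓ ∣ N.relIndex M → ∀ ω : L → (integralClosure ℤ ℂ) ⧸ 𝔐,
    Pos 𝔐 ℓ π μ M ω → STB 𝔐 π μ N ω → ∀ (σ : Finset (Subgroup K)) (θ : L → ℂ), ChN ℓ M σ →
    BPs 𝔐 π μ M ω (stb σ) θ → ∀ f0, Cvd 𝔐 π μ N ω f0 → ∀ f : L → ℂ, IrrOn (N.comap π) f →
    Ov π μ f → (∀ u : L → ℤ, CIv (N.comap π) u → SOn (N.comap π : Set L) u →
      sc 𝔐 f u = sc 𝔐 f0 u) →
    ¬ HasDefect ℓ (fun s : ↥(N.comap π) => f s) (padicValNat ℓ (Nat.card π.ker))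

/-! ### Pairs in the two forms -/

/-- BGA: the fixed pairs and the extensions in the two forms. -/
def Stmt_BGA : Prop :=
  ∀ (L K H W : Type) [Group L] [Fintype L] [Group K] [Fintype K] [Group H] [Fintype H]
    [Group W] [Fintype W] (𝔐 : Ideal (integralClosure ℤ ℂ)) (π : L →* K),
    Function.Surjective π → ∀ (μ : π.ker →* ℂˣ) (M : Subgroup K) [M.Normal] (p : K →* H),
    Function.Surjective p → (∀ k, p k = 1 ↔ k ∈ M) → ∀ ω : L → (integralClosure ℤ ℂ) ⧸ 𝔐,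
    ∀ (τ : Finset (Subgroup M)) (θ : ↥(SL π M τ M) → ℂ),
    (PrU 𝔐 π μ p M ω τ θ ↔ BPs 𝔐 π μ M ω (stb (mapCh M.subtype τ)) (ext0 θ)) ∧
    ∀ πW : W →* H, Function.Surjective πW → ∀ ν : πW.ker →* ℂˣ,
      PrU 𝔐 π μ p M ω τ θ →
      (EDt π p M πW τ θ ν ↔ EDb π p M πW (stb (mapCh M.subtype τ)) (ext0 θ) ν)

open Classical in
/-- BGB: the relations in the two forms. -/
def Stmt_BGB : Prop :=
  ∀ (L K H W : Type) [Group L] [Fintype L] [Group K] [Fintype K] [Group H] [Fintype H]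
    [Group W] [Fintype W] (𝔐 : Ideal (integralClosure ℤ ℂ)) (ℓ : ℕ) [Fact ℓ.Prime]
    (π : L →* K), Function.Surjective π → ∀ (μ : π.ker →* ℂˣ) (M : Subgroup K) [M.Normal]
    (p : K →* H), Function.Surjective p → (∀ k, p k = 1 ↔ k ∈ M) →
    ∀ ω : L → (integralClosure ℤ ℂ) ⧸ 𝔐, ∀ (πW : W →* H) (P : Subgroup H)
      (ν : Subgroup K → (L → ℂ) → (πW.ker →* ℂˣ)),
    T2 𝔐 ℓ π μ p M ω πW P (fun τ θ => ν (stb (mapCh M.subtype τ)) (ext0 θ)) ↔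
    ∀ a : πW.ker, InS πW P (a : W) → ∀ n : ℕ,
      ∑ σ ∈ Ch ℓ (⊥ : Subgroup K) with ChN ℓ M σ, (-1 : ℂ) ^ σ.card *
        ∑ f ∈ irrOn (AL π M (stb σ)) with BPs 𝔐 π μ M ω (stb σ) f ∧
            HasDefect ℓ (fun s : AL π M (stb σ) => f s) n,
          (Nat.card ↥(M ⊓ stb σ) : ℂ) * ((ν (stb σ) f a : ℂˣ) : ℂ) = 0

/-- CJN: conjugation of pairs. -/
def Stmt_CJN : Prop :=
  ∀ (L K : Type) [Group L] [Fintype L] [Group K] [Fintype K]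
    (𝔐 : Ideal (integralClosure ℤ ℂ)) (π : L →* K), Function.Surjective π →
    π.ker ≤ Subgroup.center L → ∀ (μ : π.ker →* ℂˣ) (M : Subgroup K) [M.Normal]
    (l : L) (S : Subgroup K) (f : L → ℂ),
    (∀ ω : L → (integralClosure ℤ ℂ) ⧸ 𝔐, BPs 𝔐 π μ M ω S f →
      BPs 𝔐 π μ M ω (S.map (MulAut.conj (π l)).toMonoidHom) (cjF l f)) ∧
    (∀ ℓ n : ℕ, HasDefect ℓ (fun s : AL π M S => f s) n →
      HasDefect ℓ (fun s : AL π M (S.map (MulAut.conj (π l)).toMonoidHom) => cjF l f s) n) ∧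
    ∀ (H W : Type) [Group H] [Group W] (p : K →* H) (πW : W →* H) (ν : πW.ker →* ℂˣ),
      p (π l) = 1 → EDb π p M πW S f ν →
      EDb π p M πW (S.map (MulAut.conj (π l)).toMonoidHom) (cjF l f) ν

/-- CJS: conjugation of chains. -/
def Stmt_CJS : Prop :=
  ∀ (G : Type) [Group G] [Fintype G] (ℓ : ℕ) (M : Subgroup G) [M.Normal] (g h : G)
    (σ : Finset (Subgroup G)),
    cjC (1 : G) σ = σ ∧ cjC (g * h) σ = cjC g (cjC h σ) ∧ (cjC g σ).card = σ.card ∧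
    stb (cjC g σ) = (stb σ).map (MulAut.conj g).toMonoidHom ∧
    (ChN ℓ M σ → ChN ℓ M (cjC g σ)) ∧ (g ∈ stb σ → cjC g σ = σ) ∧
    (IsCh ℓ ⊥ σ → cjC g σ = σ → g ∈ stb σ)

/-- PLE: extensions over a larger extension. -/
def Stmt_PLE : Prop :=
  ∀ (L K H W W' : Type) [Group L] [Finite L] [Group K] [Group H] [Group W] [Finite W]
    [Group W'] [Finite W'] (π : L →* K) (p : K →* H) (M : Subgroup K) (πW : W →* H)
    (h : W' →* W) (S : Subgroup K) (f : L → ℂ) (ν : πW.ker →* ℂˣ),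
    EDb π p M πW S f ν → ∀ ν' : (πW.comp h).ker →* ℂˣ,
    (∀ (z : (πW.comp h).ker) (hz : h z ∈ πW.ker), ν' z = ν ⟨h z, hz⟩) →
    EDb π p M (πW.comp h) S f ν'

/-- CNO: counting the elements of orbits. -/
def Stmt_CNO : Prop :=
  ∀ (G ι γ Ω : Type) [Group G] [Fintype G] [Fintype Ω] [Nonempty Ω] (a : G → ι → ι)
    (b : (Ω → G) → γ → γ), (∀ i, a 1 i = i) → (∀ g h i, a (g * h) i = a g (a h i)) →
    (∀ c, b 1 c = c) → (∀ n m c, b (n * m) c = b n (b m c)) →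
    ∀ (D : Finset ι) (C : Finset γ) (Ψ : ι → γ), (∀ g, ∀ i ∈ D, a g i ∈ D) →
    (∀ i ∈ D, ∀ n, b n (Ψ i) ∈ C) → (∀ c ∈ C, ∃ i ∈ D, ∃ n, c = b n (Ψ i)) →
    (∀ i ∈ D, ∀ i' ∈ D, ∀ n, b n (Ψ i) = Ψ i' ↔ ∀ o, a (n o) i = i') →
    ∀ F : γ → ℂ, (∀ c ∈ C, ∀ n, F (b n c) = F c) → ∀ s : ι → ℕ,
    (∀ i ∈ D, s i = Nat.card {g // a g i = i}) →
    ∑ c ∈ C, F c = ∑ i ∈ D, ((Nat.card G : ℂ) / (s i : ℂ)) ^ (Fintype.card Ω - 1) * F (Ψ i)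

end Pool.Agent.DPG
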