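import Mathlib
import Pool.Agent.DPG.StmtsA
import Pool.Agent.DPN.Base

/-!
# BEM: invariant pairs with the same central function
-/

set_option autoImplicit false

namespace Pool.Agent.DPG

open Pool.Agent.DP Pool.Agent.DPC Pool.Agent.DPM Pool.Agent.DPN Pool.Agent.DPF
  Pool.Agent.Lib_helper13 Representation
open Pool.Agent.Lib_helper13.Dade (pCore DadeHolds dadeSum)

namespace BEM

section

variable {L : Type} [Group L] [Fintype L] {𝔐 : Ideal (integralClosure ℤ ℂ)}

/-- The scalar of a function supported on a subgroup. -/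
theorem sc_sub (S : Subgroup L) [Fintype S] {F : L → ℂ} (hF : ∀ x, x ∉ S → F x = 0)
    (u : L → ℤ) :
    sc 𝔐 F u = red 𝔐 (wt (fun s : S => F s) (fun s : S => ((u s : ℤ) : ℂ))) := by
  classical
  have h1 : ∑ x, ((u x : ℤ) : ℂ) * F x = ∑ s : S, ((u s : ℤ) : ℂ) * F s := by
    rw [← Finset.sum_filter_of_ne (p := fun x => x ∈ S)]
    · exact Finset.sum_subtype _ (by simp) _
    · intro x _ hx
      by_contra h
      exact hx (by rw [hF x h, mul_zero])
  rw [sc, wt, h1]
  rfl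

open Classical in
/-- The integral indicator function of a class. -/
noncomputable def cI (g x : L) : ℤ := if IsConj x g then 1 else 0

theorem cI_cast (g x : L) : ((cI g x : ℤ) : ℂ) = conjInd x g := by
  classical
  rw [cI, conjInd]
  split_ifs
  · simp
  · simp

theorem cg_eq (F : L → ℂ) (g : L) : cg 𝔐 F g = sc 𝔐 F (cI g) := by
  rw [cg, sc]
  congr 2
  refine Finset.sum_congr rfl fun x _ => ?_
  rw [cI_cast]

theorem cI_conj (g s x : L) : cI g (s * x * s⁻¹) = cI g x := by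
  have h : ((cI g (s * x * s⁻¹) : ℤ) : ℂ) = ((cI g x : ℤ) : ℂ) := by
    rw [cI_cast, cI_cast, conjInd_conj]
  exact_mod_cast h

theorem cI_not_mem (S : Subgroup L) [S.Normal] {g x : L} (hg : g ∈ S) (hx : x ∉ S) :
    cI g x = 0 := by
  rw [cI, if_neg]
  intro h
  obtain ⟨c, hc⟩ := isConj_iff.mp h.symm
  exact hx (hc ▸ Subgroup.Normal.conj_mem ‹S.Normal› g hg c)

/-- The central function on the whole group. -/
theorem cen_eq (S : Subgroup L) [S.Normal] [Fintype S] {F : L → ℂ} (hF : ∀ x, x ∉ S → F x = 0)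
    {G : L → ℂ} (hFG : ∀ u : L → ℤ, CIv S u → SOn (S : Set L) u → sc 𝔐 F u = sc 𝔐 G u)
    {ω : L → (integralClosure ℤ ℂ) ⧸ 𝔐} (hG : ∀ g ∈ S, cg 𝔐 G g = ω g) (g : L) :
    cen 𝔐 S.subtype (fun s : S => F s) g = open Classical in if g ∈ S then ω g else 0 := by
  classical
  have h1 : (fun y : S => conjInd (S.subtype y) g) = fun s : S => ((cI g s : ℤ) : ℂ) := by
    funext s
    rw [cI_cast]
    rfl
  rw [cen, h1]
  split_ifs with hg
  · rw [← sc_sub S hF, hFG (cI g) (fun s _ x => cI_conj g s x)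
      (fun x hx => cI_not_mem S hg hx), ← cg_eq, hG g hg]
  · have h2 : (fun s : S => ((cI g s : ℤ) : ℂ)) = fun _ => 0 := by
      funext s
      rw [cI, if_neg]
      · simp
      · intro h
        obtain ⟨c, hc⟩ := isConj_iff.mp h
        exact hg (hc ▸ Subgroup.Normal.conj_mem ‹S.Normal› _ s.2 c)
    rw [h2, wt]
    simp [red_zero]

/-- Conjugation by elements of the group. -/
theorem sc_conj {K : Type} [Group K] {π : L →* K} (hπ : Function.Surjective π) {M S : Subgroup K}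
    [M.Normal] (hMS : M ⊔ S = ⊤) {G : L → ℂ} (hG : ∀ t, π t ∈ S → ∀ x, G (t * x * t⁻¹) = G x)
    {u : L → ℤ} (hu : CIv (M.comap π) u) (l : L) :
    sc 𝔐 G (fun x => u (l * x * l⁻¹)) = sc 𝔐 G u := by
  have h1 : π l ∈ M ⊔ S := by
    rw [hMS]
    exact Subgroup.mem_top _
  obtain ⟨m, hm, t, ht, hmt⟩ := Subgroup.mem_sup_of_normal_left.mp h1
  obtain ⟨t', rfl⟩ := hπ t
  have hm' : π (l * t'⁻¹) = m := by
    rw [map_mul, map_inv, ← hmt, mul_inv_cancel_right]
  rw [sc, sc]
  congr 2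
  refine Fintype.sum_equiv (MulAut.conj t').toEquiv _ _ fun x => ?_
  have h3 : (MulAut.conj t').toEquiv x = t' * x * t'⁻¹ := rfl
  rw [h3, hG t' ht]
  congr 2
  have h4 := hu (l * t'⁻¹) (by rw [Subgroup.mem_comap, hm']; exact hm) (t' * x * t'⁻¹)
  rw [← h4]
  congr 1
  group

end

end BEM

open BEM in
/-- BEM: invariant pairs with the same central function on the classes of the group have the same
central function on the classes of the normal subgroup. -/
theorem BEM_thm (h1 : Stmt_IRC) : Stmt_BEM := by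
  classical
  intro L K _ _ _ _ 𝔐 ℓ _ hmax hℓ π hπ hπc μ M _ ω σ σ' G G' hσ hσ' hG hG' u hu hus
  haveI hS : (M.comap π).Normal := inferInstance
  haveI hfin : Fintype ↥(M.comap π) := Fintype.ofFinite _
  obtain ⟨χ, hχ, -, hχG⟩ := h1 L K 𝔐 ℓ hmax hℓ π hπ hπc μ M σ hσ G hG.irr hG.ovl
  obtain ⟨χ', hχ', -, hχG'⟩ := h1 L K 𝔐 ℓ hmax hℓ π hπ hπc μ M σ' hσ' G' hG'.irr hG'.ovl
  have hc := cen_eq (𝔐 := 𝔐) (M.comap π) hχ.2 hχG (ω := ω) (fun g hg => hG.cn g hg)
  have hc' := cen_eq (𝔐 := 𝔐) (M.comap π) hχ'.2 hχG' (ω := ω) (fun g hg => hG'.cn g hg)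
  have hcc : cen 𝔐 (M.comap π).subtype (fun s : ↥(M.comap π) => χ s) =
      cen 𝔐 (M.comap π).subtype (fun s : ↥(M.comap π) => χ' s) := by
    funext g
    rw [hc, hc']
  have hcl : ClG (M.comap π).subtype (MulAut.conjNormal : L →* MulAut ↥(M.comap π))
      (QuotientGroup.mk' (M.comap π)) := by
    refine ⟨Subtype.val_injective, fun y a => ?_, fun y => ?_⟩
    · exact MulAut.conjNormal_apply y a
    · rw [Subgroup.range_subtype, QuotientGroup.mk'_apply, QuotientGroup.eq_one_iff]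
  obtain ⟨y, hy⟩ := Pool.Agent.DPW.COVW_thm (↥(M.comap π)) L (L ⧸ M.comap π) 𝔐 ℓ hmax hℓ
    (M.comap π).subtype (MulAut.conjNormal : L →* MulAut ↥(M.comap π))
    (QuotientGroup.mk' (M.comap π)) hcl (fun s => χ s) (fun s => χ' s) hχ.1 hχ'.1 (by
      intro a ha hai
      have hf1 : ∀ g x, (ext0 a : L → ℂ) (g * x * g⁻¹) = ext0 a x := by
        intro g x
        by_cases hx : x ∈ M.comap π
        · have h2 : g * x * g⁻¹ ∈ M.comap π := hS.conj_mem x hx g
          rw [ext0_of_mem a hx, ext0_of_mem a h2, ← ha g ⟨x, hx⟩]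
          congr 1
        · have h2 : g * x * g⁻¹ ∉ M.comap π := by
            intro h3
            apply hx
            have h4 := hS.conj_mem _ h3 g⁻¹
            have h5 : g⁻¹ * (g * x * g⁻¹) * g⁻¹⁻¹ = x := by group
            rwa [h5] at h4
          rw [ext0_of_not_mem a hx, ext0_of_not_mem a h2]
      have hf2 : ∀ x, IsIntegral ℤ ((ext0 a : L → ℂ) x) := by
        intro x
        by_cases hx : x ∈ M.comap π
        · rw [ext0_of_mem a hx]
          exact hai _
        · rw [ext0_of_not_mem a hx]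
          exact isIntegral_zero
      have hf3 : (fun s : ↥(M.comap π) => (ext0 a : L → ℂ) ((M.comap π).subtype s)) = a := by
        funext s
        exact ext0_of_mem a s.2
      have e1 := red_wt_eq_pair 𝔐 (M.comap π).subtype hχ.1 (ext0 a) hf1 hf2
      have e2 := red_wt_eq_pair 𝔐 (M.comap π).subtype hχ'.1 (ext0 a) hf1 hf2
      rw [hf3] at e1 e2
      rw [e1, e2, hcc])
  -- the functions on the normal subgroup
  have hirr : IsIrr (fun x : ↥(M.comap π) => χ' (MulAut.conjNormal y x : ↥(M.comap π))) :=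
    hχ'.1.comp_mulEquiv (MulAut.conjNormal y)
  have hv : ∀ v : L → ℤ, CIv (M.comap π) v →
      red 𝔐 (wt (fun s : ↥(M.comap π) => χ s) (fun s => ((v s : ℤ) : ℂ))) =
      red 𝔐 (wt (fun x : ↥(M.comap π) => χ' (MulAut.conjNormal y x : ↥(M.comap π)))
        (fun s => ((v s : ℤ) : ℂ))) := by
    intro v hv
    have e1 := red_wt_eq_pair 𝔐 (MonoidHom.id ↥(M.comap π)) hχ.1
      (fun s => ((v s : ℤ) : ℂ)) (by
        intro g x
        have := hv g g.2 x
        simp only [Subgroup.coe_mul, Subgroup.coe_inv]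
        rw [this]) (fun x => Pool.Agent.Lib_helper13.isIntegral_intCast _)
    have e2 := red_wt_eq_pair 𝔐 (MonoidHom.id ↥(M.comap π)) hirr
      (fun s => ((v s : ℤ) : ℂ)) (by
        intro g x
        have := hv g g.2 x
        simp only [Subgroup.coe_mul, Subgroup.coe_inv]
        rw [this]) (fun x => Pool.Agent.Lib_helper13.isIntegral_intCast _)
    rw [hy] at e2
    exact e1.trans e2.symm
  have h2 : sc 𝔐 χ u = sc 𝔐 χ' (fun x => u (y⁻¹ * x * y⁻¹⁻¹)) := by
    rw [sc_sub (M.comap π) hχ.2, sc_sub (M.comap π) hχ'.2, hv u hu]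
    have h3 := wt_comp_equiv (MulAut.conjNormal y : ↥(M.comap π) ≃* ↥(M.comap π))
      (fun s : ↥(M.comap π) => χ' s)
      (fun s : ↥(M.comap π) => ((u (y⁻¹ * (s : L) * y⁻¹⁻¹) : ℤ) : ℂ))
    rw [← h3]
    congr 2
    funext s
    congr 2
    rw [MulAut.conjNormal_apply]
    group
  rw [← hχG u hu hus, h2, hχG' (fun x => u (y⁻¹ * x * y⁻¹⁻¹)), sc_conj hπ hG'.sj hG'.iv hu]
  · intro s hs x
    have h3 := hu (y⁻¹ * s * y⁻¹⁻¹) (hS.conj_mem s hs y⁻¹) (y⁻¹ * x * y⁻¹⁻¹)
    change u (y⁻¹ * (s * x * s⁻¹) * y⁻¹⁻¹) = u (y⁻¹ * x * y⁻¹⁻¹)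
    rw [← h3]
    congr 1
    group
  · intro x hx
    apply hus
    intro h3
    apply hx
    have h4 := hS.conj_mem _ h3 y
    have h5 : y * (y⁻¹ * x * y⁻¹⁻¹) * y⁻¹ = x := by group
    rwa [h5] at h4

end Pool.Agent.DPG
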