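import Pool.Agent.DPG.StmtsA
import Pool.Agent.DP.EVAL
import Pool.Agent.DP.IRRPI

/-!
# BGA: the fixed pairs and the extensions in the two forms
-/

namespace Pool.Agent.DPG

open Pool.Agent.DP Pool.Agent.DPC Pool.Agent.DPM Pool.Agent.DPN Pool.Agent.DPF
  Pool.Agent.Lib_helper13 Representation
open Pool.Agent.Lib_helper13.Dade (pCore DadeHolds dadeSum)

namespace BGA

variable {L K H W : Type} [Group L] [Group K] [Group H] [Group W]

/-- The kernel is contained in `AL`. -/
theorem mem_AL_mul {π : L →* K} {N S : Subgroup K} {z x : L} (hz : π z = 1) :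
    z * x ∈ AL π N S ↔ x ∈ AL π N S := by
  rw [Subgroup.mem_comap, Subgroup.mem_comap, map_mul, hz, one_mul]

theorem mem_AL_conj {π : L →* K} {M S : Subgroup K} (hM : M.Normal) {t x : L} (ht : π t ∈ S) :
    t * x * t⁻¹ ∈ AL π M S ↔ x ∈ AL π M S := by
  have key : ∀ (t x : L), π t ∈ S → x ∈ AL π M S → t * x * t⁻¹ ∈ AL π M S := by
    intro t x ht hx
    have h1 : π x ∈ M ⊓ S := hx
    change π (t * x * t⁻¹) ∈ M ⊓ S
    rw [map_mul, map_mul, map_inv]
    exact ⟨hM.conj_mem _ h1.1 _, S.mul_mem (S.mul_mem ht h1.2) (S.inv_mem ht)⟩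
  constructor
  · intro h
    have h1 := key t⁻¹ _ (by rw [map_inv]; exact S.inv_mem ht) h
    have h2 : t⁻¹ * (t * x * t⁻¹) * t⁻¹⁻¹ = x := by group
    rwa [h2] at h1
  · exact key t x ht

/-- The extensions in the two forms. -/
theorem ext_iff [Finite L] [Finite W] (π : L →* K) (p : K →* H) (M : Subgroup K)
    (hp : ∀ k, p k = 1 ↔ k ∈ M) (πW : W →* H) (τ : Finset (Subgroup M))
    (θ : ↥(SL π M τ M) → ℂ) (ν : πW.ker →* ℂˣ) :
    EDt π p M πW τ θ ν ↔ EDb π p M πW (stb (mapCh M.subtype τ)) (ext0 θ) ν := by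
  classical
  constructor
  · rintro ⟨G, _, _, α, β, E, hF, hE⟩
    -- the isomorphism with the standard fibre product
    let f : G →* ↥(GS π p πW (stb (mapCh M.subtype τ))) :=
      { toFun := fun g => ⟨((α g : L), β g), (α g).2.2, hF.cm g⟩
        map_one' := by
          apply Subtype.ext
          simp
        map_mul' := by
          intro a b
          apply Subtype.ext
          simp }
    have hf : Function.Bijective f := by
      constructor
      · intro a b hab
        have h1 : ((α a : L), β a) = ((α b : L), β b) := congrArg Subtype.val hab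
        obtain ⟨h2, h3⟩ := Prod.mk.inj h1
        obtain ⟨g, hg, hu⟩ := hF.ex (α a) (β a) (hF.cm a)
        exact (hu a ⟨rfl, rfl⟩).trans (hu b ⟨Subtype.ext h2.symm, h3.symm⟩).symm
      · rintro ⟨⟨t, w⟩, h1, h2⟩
        obtain ⟨g, hg, -⟩ := hF.ex ⟨t, ⟨trivial, h1⟩⟩ w h2
        refine ⟨g, Subtype.ext (Prod.ext ?_ hg.2)⟩
        exact congrArg Subtype.val hg.1
    let e := MulEquiv.ofBijective f hf
    have he : ∀ (x : ↥(GS π p πW (stb (mapCh M.subtype τ)))),
        ((α (e.symm x) : ↥(SL π M τ ⊤)) : L) = (x : L × W).1 ∧ β (e.symm x) = (x : L × W).2 := by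
      intro x
      have h1 : f (e.symm x) = x := e.apply_symm_apply x
      have h2 : ((α (e.symm x) : L), β (e.symm x)) = (x : L × W) := congrArg Subtype.val h1
      exact ⟨congrArg Prod.fst h2, congrArg Prod.snd h2⟩
    refine ⟨ext0 (fun x => E (e.symm x)), ?_, fun x hx => ext0_of_not_mem _ hx, ?_, ?_⟩
    · have h1 : (fun x : ↥(GS π p πW (stb (mapCh M.subtype τ))) =>
          ext0 (fun x => E (e.symm x)) (x : L × W)) = fun x => E (e.symm x) := by
        ext x
        rw [ext0_of_mem _ x.2]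
      rw [h1]
      exact hE.Ec.comp e.symm.toMonoidHom
    · intro a ha ha'
      have h1 : ((a, 1) : L × W) ∈ GS π p πW (stb (mapCh M.subtype τ)) := by
        refine ⟨ha', ?_⟩
        change p (π a) = πW 1
        rw [map_one, (hp _).mpr ha]
      have h2 : a ∈ SL π M τ M := ⟨ha, ha'⟩
      rw [ext0_of_mem _ h1, ext0_of_mem _ h2]
      apply hE.Ee
      · exact Subtype.ext (he ⟨_, h1⟩).1
      · exact (he ⟨_, h1⟩).2
    · intro z t w
      have hz : πW (z : W) = 1 := MonoidHom.mem_ker.mp z.2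
      by_cases h1 : ((t, w) : L × W) ∈ GS π p πW (stb (mapCh M.subtype τ))
      · have h2 : ((t, z * w) : L × W) ∈ GS π p πW (stb (mapCh M.subtype τ)) := by
          refine ⟨h1.1, ?_⟩
          change p (π t) = πW (z * w)
          rw [map_mul, hz, one_mul]
          exact h1.2
        rw [ext0_of_mem _ h1, ext0_of_mem _ h2]
        apply hE.El
        · exact Subtype.ext ((he ⟨_, h2⟩).1.trans (he ⟨_, h1⟩).1.symm)
        · rw [(he ⟨_, h2⟩).2, (he ⟨_, h1⟩).2]
      · have h2 : ((t, z * w) : L × W) ∉ GS π p πW (stb (mapCh M.subtype τ)) := by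
          intro h3
          apply h1
          refine ⟨h3.1, ?_⟩
          have h4 : p (π t) = πW (z * w) := h3.2
          rw [map_mul, hz, one_mul] at h4
          exact h4
        rw [ext0_of_not_mem _ h1, ext0_of_not_mem _ h2, mul_zero]
  · rintro ⟨E, hE1, hE2, hE3, hE4⟩
    let α : ↥(GS π p πW (stb (mapCh M.subtype τ))) →* ↥(SL π M τ ⊤) :=
      { toFun := fun x => ⟨(x : L × W).1, ⟨trivial, x.2.1⟩⟩
        map_one' := by
          apply Subtype.ext
          simp
        map_mul' := by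
          intro a b
          apply Subtype.ext
          simp }
    let β : ↥(GS π p πW (stb (mapCh M.subtype τ))) →* W :=
      (MonoidHom.snd L W).comp (GS π p πW (stb (mapCh M.subtype τ))).subtype
    refine ⟨_, inferInstance, inferInstance, α, β, fun x => E x, ⟨fun g => g.2.2, ?_⟩,
      ⟨hE1, ?_, ?_⟩⟩
    · intro t w h
      refine ⟨⟨((t : L), w), t.2.2, h⟩, ⟨rfl, rfl⟩, ?_⟩
      rintro ⟨⟨t', w'⟩, h'⟩ ⟨h1, h2⟩
      apply Subtype.ext
      exact Prod.ext (congrArg Subtype.val h1) h2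
    · intro a g h1 h2
      have h3 : (g : L × W) = ((a : L), 1) := Prod.ext (congrArg Subtype.val h1) h2
      change E (g : L × W) = θ a
      rw [h3, hE3 a a.2.1 a.2.2, ext0_of_mem _ a.2]
    · intro z g g' h1 h2
      have h3 : (g' : L × W) = ((g : L × W).1, z * (g : L × W).2) :=
        Prod.ext (congrArg Subtype.val h1) h2
      change ((ν z : ℂˣ) : ℂ) * E (g' : L × W) = E (g : L × W)
      rw [h3]
      exact hE4 z _ _

end BGA

open BGA in
theorem BGA_thm : Stmt_BGA := by
  intro L K H W _ _ _ _ _ _ _ _ 𝔐 π hπ μ M hM p hp hpM ω τ θ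
  refine ⟨?_, fun πW _ ν _ => ext_iff π p M hpM πW τ θ ν⟩
  have hcg : ∀ g, cg 𝔐 (ext0 θ) g = cen 𝔐 (SL π M τ M).subtype θ g := fun g => EVAL.cg_eq 𝔐 θ g
  constructor
  · intro h
    refine ⟨IRRPI.irrOn_ext0 h.irr, ?_, ?_, ?_, ?_⟩
    · intro z x
      have hz : π (z : L) = 1 := MonoidHom.mem_ker.mp z.2
      by_cases hx : x ∈ SL π M τ M
      · have hzA : (z : L) ∈ SL π M τ M := by
          change π (z : L) ∈ M ⊓ _
          rw [hz]
          exact Subgroup.one_mem _
        have hzx : (z : L) * x ∈ SL π M τ M := Subgroup.mul_mem _ hzA hx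
        rw [ext0_of_mem _ hx, ext0_of_mem _ hzx]
        exact h.ovl ⟨z, hzA⟩ ⟨x, hx⟩ z.2
      · have hzx : (z : L) * x ∉ SL π M τ M := fun h' => hx ((mem_AL_mul hz).mp h')
        rw [ext0_of_not_mem _ hx, ext0_of_not_mem _ hzx, mul_zero]
    · intro g hg
      rw [hcg]
      exact h.cn g hg
    · rw [eq_top_iff]
      intro k _
      obtain ⟨s, hs, hs'⟩ := h.sj (p k)
      have h1 : k * s⁻¹ ∈ M := by
        rw [← hpM, map_mul, map_inv, hs', mul_inv_cancel]
      have h2 : k * s⁻¹ * s = k := by group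
      rw [← h2]
      exact Subgroup.mul_mem_sup h1 hs
    · intro t ht x
      by_cases hx : x ∈ SL π M τ M
      · have hx' : t * x * t⁻¹ ∈ SL π M τ M := (mem_AL_conj hM ht).mpr hx
        rw [ext0_of_mem _ hx, ext0_of_mem _ hx']
        exact h.iv t ⟨trivial, ht⟩ ⟨x, hx⟩ ⟨_, hx'⟩ rfl
      · have hx' : t * x * t⁻¹ ∉ SL π M τ M := fun h' => hx ((mem_AL_conj hM ht).mp h')
        rw [ext0_of_not_mem _ hx, ext0_of_not_mem _ hx']
  · intro h
    have hirr : IsIrr θ := by
      have h1 := h.irr.1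
      rw [IRRPI.res_ext0] at h1
      exact h1
    refine ⟨hirr, ?_, ?_, ?_, ?_⟩
    · intro s t hs
      have h1 := h.ovl ⟨s, hs⟩ (t : L)
      change ext0 θ ((s : L) * (t : L)) = _ at h1
      rw [ext0_of_mem θ t.2, ext0_of_mem θ (Subgroup.mul_mem _ s.2 t.2)] at h1
      exact h1
    · intro g hg
      rw [← hcg]
      exact h.cn g hg
    · intro y
      obtain ⟨k, rfl⟩ := hp y
      have h1 : k ∈ M ⊔ stb (mapCh M.subtype τ) := by
        rw [h.sj]
        trivial
      obtain ⟨m, hm, s, hs, rfl⟩ := Subgroup.mem_sup_of_normal_left.mp h1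
      refine ⟨s, hs, ?_⟩
      rw [map_mul, (hpM m).mpr hm, one_mul]
    · intro t ht a b hab
      have h1 := h.iv t ht.2 a
      rw [← hab, ext0_of_mem θ a.2, ext0_of_mem θ b.2] at h1
      exact h1

end Pool.Agent.DPG
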