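import Mathlib
import Pool.Agent.DPG.StmtsA

/-!
# BGB: the relations in the two forms
-/

set_option autoImplicit false

namespace Pool.Agent.DPG

open Pool.Agent.DP Pool.Agent.DPC Pool.Agent.DPM Pool.Agent.DPN Pool.Agent.DPF
  Pool.Agent.Lib_helper13 Representation
open Pool.Agent.Lib_helper13.Dade (pCore DadeHolds dadeSum)

namespace BGB

theorem ext0_coe {G : Type} [Group G] {S : Subgroup G} (θ : S → ℂ) :
    (fun s : S => ext0 θ (s : G)) = θ := by
  funext s
  rw [ext0_of_mem θ s.2]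

theorem ext0_injective {G : Type} [Group G] {S : Subgroup G} :
    Function.Injective (fun θ : S → ℂ => (ext0 θ : G → ℂ)) := by
  intro θ θ' h
  have h1 : (ext0 θ : G → ℂ) = ext0 θ' := h
  rw [← ext0_coe θ, ← ext0_coe θ', h1]

/-- A sum over the characters of `S`, extended by zero. -/
theorem sum_irrOn {G : Type} [Group G] [Fintype G] (S : Subgroup G) (Q : (G → ℂ) → Prop)
    (Q' : (S → ℂ) → Prop) [DecidablePred Q] [DecidablePred Q'] (hQ : ∀ θ, Q (ext0 θ) ↔ Q' θ)
    (F : (G → ℂ) → ℂ) :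
    ∑ f ∈ irrOn S with Q f, F f = ∑ θ ∈ irrF S with Q' θ, F (ext0 θ) := by
  rw [Finset.sum_filter, Finset.sum_filter, irrOn, Finset.sum_image]
  · refine Finset.sum_congr rfl fun θ _ => ?_
    by_cases h : Q' θ
    · rw [if_pos h, if_pos ((hQ θ).2 h)]
    · rw [if_neg h, if_neg fun h' => h ((hQ θ).1 h')]
  · intro θ _ θ' _ h
    exact ext0_injective h

end BGB

open BGB in
/-- BGB: the relations in the two forms. -/
theorem BGB_thm (h1 : Stmt_BGA) : Stmt_BGB := by
  classical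
  intro L K H W _ _ _ _ _ _ _ _ 𝔐 ℓ _ π hπ μ M _ p hp hpM ω πW P ν
  have key : ∀ (a : πW.ker) (n : ℕ),
      ∑ σ ∈ Ch ℓ (⊥ : Subgroup K) with ChN ℓ M σ, (-1 : ℂ) ^ σ.card *
        ∑ f ∈ irrOn (AL π M (stb σ)) with BPs 𝔐 π μ M ω (stb σ) f ∧
            HasDefect ℓ (fun s : AL π M (stb σ) => f s) n,
          (Nat.card ↥(M ⊓ stb σ) : ℂ) * ((ν (stb σ) f a : ℂˣ) : ℂ) =
      ∑ τ ∈ Ch ℓ (⊥ : Subgroup M), (-1 : ℂ) ^ τ.card *
        ∑ θ ∈ irrF (SL π M τ M) with PrU 𝔐 π μ p M ω τ θ ∧ HasDefect ℓ θ n,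
          (Nat.card ↥(M ⊓ stb (mapCh M.subtype τ)) : ℂ) *
            ((ν (stb (mapCh M.subtype τ)) (ext0 θ) a : ℂˣ) : ℂ) := by
    intro a n
    have hb : (⊥ : Subgroup K) = (⊥ : Subgroup M).map M.subtype := Subgroup.map_bot _ |>.symm
    have hf : (Ch ℓ (⊥ : Subgroup K)).filter (fun σ => ChN ℓ M σ) =
        (Ch ℓ ((⊥ : Subgroup M).map M.subtype)).filter
          (fun σ => ∀ D ∈ σ, D ≤ M.subtype.range) := by
      rw [← hb]
      refine Finset.filter_congr fun σ hσ => ?_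
      rw [Subgroup.range_subtype]
      constructor
      · intro h
        exact h.2
      · intro h
        exact ⟨mem_Ch.1 hσ, h⟩
    rw [hf, sum_Ch_range (i := M.subtype) M.subtype_injective ℓ (⊥ : Subgroup M)]
    refine Finset.sum_congr rfl fun τ hτ => ?_
    rw [card_mapCh (i := M.subtype) M.subtype_injective]
    congr 1
    refine sum_irrOn (AL π M (stb (mapCh M.subtype τ))) _ _ (fun θ => ?_) _
    rw [ext0_coe, (h1 L K H W 𝔐 π hπ μ M p hp hpM ω τ θ).1]
  constructor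
  · intro h a ha n
    rw [key]
    exact h a ha n
  · intro h a ha n
    rw [← key]
    exact h a ha n

end Pool.Agent.DPG
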