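import Mathlib
import Pool.Agent.DPG.StmtsA
import Pool.Agent.DPN.CHM

/-!
# CHB: products of invariant functions and their restrictions to the stabilizer of a chain
-/

namespace Pool.Agent.DPG

open Pool.Agent.DP Pool.Agent.DPC Pool.Agent.DPM Pool.Agent.DPN Pool.Agent.DPF
  Pool.Agent.Lib_helper13 Representation

namespace CHB

theorem pl_two {X : Type} [Group X] [Fintype X] (u v : X → ℤ) (x : X) :
    pl [u, v] x = conv u v x := by
  classical
  rw [CHM.pl_cons]
  have h : (fun x => pl [v] x) = v := by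
    funext y
    rw [CHM.pl_cons, conv]
    rw [Finset.sum_eq_single y]
    · rw [CHM.pl_nil, if_pos (inv_mul_cancel y), mul_one]
    · intro z _ hz
      rw [CHM.pl_nil, if_neg, mul_zero]
      intro h
      exact hz (inv_mul_eq_one.mp h)
    · intro h
      exact absurd (Finset.mem_univ _) h
  rw [show pl [v] = v from h]

/-- The normal subgroup, its action and the quotient. -/
theorem clg {X : Type} [Group X] (O : Subgroup X) [O.Normal] :
    ClG O.subtype (MulAut.conjNormal (H := O)) (QuotientGroup.mk' O) where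
  inj := O.subtype_injective
  act := by
    intro y a
    rw [Subgroup.coe_subtype, MulAut.conjNormal_apply]
  ker := by
    intro y
    rw [QuotientGroup.mk'_apply, QuotientGroup.eq_one_iff, Subgroup.range_subtype]

/-- A sum over a subgroup. -/
theorem sum_sub {X M : Type} [Group X] [Fintype X] [AddCommMonoid M] (S : Subgroup X)
    [Fintype S] (F : X → M) (hF : ∀ x, x ∉ S → F x = 0) : ∑ x, F x = ∑ s : S, F s := by
  classical
  rw [← Finset.sum_subset (Finset.subset_univ (Finset.univ.filter (fun k : X => k ∈ S)))]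
  · rw [← Finset.sum_subtype_eq_sum_filter, Finset.subtype_univ]
  · intro y _ hy
    exact hF y (fun h => hy (Finset.mem_filter.mpr ⟨Finset.mem_univ _, h⟩))

end CHB

open CHB in
theorem CHB_thm (h1 : Stmt_CHT) : Stmt_CHB := by
  classical
  intro L K _ _ _ _ 𝔐 ℓ _ hM hℓ π hπ hc N _ σ hσ f hf u v hu hv
  obtain ⟨Z, τ, hZ1, hZ2, hτ, hs, hst⟩ := h1 L K ℓ π hπ hc N σ hσ
  have hcl := clg (N.comap π)
  -- the character of the stabilizer
  have hmem : ∀ a : ↥(N.comap π), a ∈ stb τ ↔ (a : L) ∈ AL π N (stb σ) := by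
    intro a
    rw [hst, Subgroup.mem_comap, Subgroup.mem_inf]
    exact ⟨fun h => ⟨Subgroup.mem_comap.mp a.2, h⟩, fun h => h.2⟩
  have hN : ∀ x : L, x ∈ AL π N (stb σ) → x ∈ N.comap π := by
    intro x hx
    exact (Subgroup.mem_inf.mp (Subgroup.mem_comap.mp hx)).1
  let e : stb τ ≃* ↥(AL π N (stb σ)) :=
    { toFun := fun a => ⟨((a : ↥(N.comap π)) : L), (hmem _).mp a.2⟩
      invFun := fun a => ⟨⟨(a : L), hN _ a.2⟩, (hmem _).mpr a.2⟩
      left_inv := fun a => rfl
      right_inv := fun a => rfl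
      map_mul' := fun a b => rfl }
  have hθ : IsIrr (fun a : stb τ => f ((a : ↥(N.comap π)) : L)) := hf.1.comp_mulEquiv e
  have hiv : ∀ w ∈ [u, v], AIv (N.comap π).subtype w := by
    intro w hw a x
    rcases List.mem_cons.mp hw with rfl | hw
    · exact hu a a.2 x
    · rw [List.mem_singleton.mp hw]
      exact hv a a.2 x
  have key := CHM_thm ↥(N.comap π) L (L ⧸ N.comap π) 𝔐 ℓ hM hℓ (N.comap π).subtype _ _ hcl Z τ hτ
    (fun a : stb τ => f ((a : ↥(N.comap π)) : L)) hθ [u, v] hiv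
  -- the two sides
  have hsum : ∀ F : L → ℤ, (∑ x : L, ((F x : ℤ) : ℂ) * f x) / f 1 =
      wt (fun a : stb τ => f ((a : ↥(N.comap π)) : L))
        (fun a : stb τ => ((F ((a : ↥(N.comap π)) : L) : ℤ) : ℂ)) := by
    intro F
    rw [wt]
    have h2 : (∑ x : L, ((F x : ℤ) : ℂ) * f x) =
        ∑ s : ↥(AL π N (stb σ)), ((F s : ℤ) : ℂ) * f s := by
      apply sum_sub (AL π N (stb σ)) (fun x => ((F x : ℤ) : ℂ) * f x)
      intro x hx
      change ((F x : ℤ) : ℂ) * f x = 0
      rw [hf.2 x hx, mul_zero]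
    have h3 : (∑ s : ↥(AL π N (stb σ)), ((F s : ℤ) : ℂ) * f s) =
        ∑ a : stb τ, ((F ((a : ↥(N.comap π)) : L) : ℤ) : ℂ) * f ((a : ↥(N.comap π)) : L) := by
      symm
      exact Fintype.sum_equiv e.toEquiv _ _ (fun s => rfl)
    rw [h2, h3]
    rfl
  rw [sc, sc, hsum, hsum]
  have hl : (fun a : stb τ => ((conv u v ((a : ↥(N.comap π)) : L) : ℤ) : ℂ)) =
      (fun a : stb τ => ((pl [u, v] ((N.comap π).subtype (a : ↥(N.comap π))) : ℤ) : ℂ)) := by
    funext a
    rw [pl_two]
    rfl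
  rw [hl, ← key]
  congr 2
  funext a
  congr 1
  rw [List.map_cons, List.map_cons, List.map_nil, pl_two, conv]
  symm
  have h4 : (∑ y : L, if π y ∈ stb σ then u y * v (y⁻¹ * ((a : ↥(N.comap π)) : L)) else 0) =
      ∑ y : ↥(YS (N.comap π).subtype τ), if π y ∈ stb σ then
        u y * v ((y : L)⁻¹ * ((a : ↥(N.comap π)) : L)) else 0 := by
    apply sum_sub (YS (N.comap π).subtype τ)
      (fun y => if π y ∈ stb σ then u y * v (y⁻¹ * ((a : ↥(N.comap π)) : L)) else 0)
    intro y hy
    change (if π y ∈ stb σ then u y * v (y⁻¹ * ((a : ↥(N.comap π)) : L)) else 0) = 0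
    rw [if_neg]
    intro h
    apply hy
    change y ∈ stb (mapCh (N.comap π).subtype τ)
    rw [hs]
    exact Subgroup.mem_comap.mpr h
  rw [h4]
  apply Finset.sum_congr rfl
  intro y _
  have h5 : π y ∈ stb σ := by
    have h6 : (y : L) ∈ stb (mapCh (N.comap π).subtype τ) := y.2
    rw [hs] at h6
    exact Subgroup.mem_comap.mp h6
  rw [if_pos h5]
  rfl

end Pool.Agent.DPG
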