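import Mathlib
import Pool.Agent.DPG.StmtsA
import Pool.Agent.DPM.CHC

/-!
# CHT: the chains of a central extension
-/

set_option linter.unusedSectionVars false
set_option linter.unusedVariables false

namespace Pool.Agent.DPG

open Pool.Agent.DP Pool.Agent.DPC Pool.Agent.DPM Pool.Agent.DPN Pool.Agent.DPF
  Pool.Agent.Lib_helper13 Representation
open Pool.Agent.Lib_helper13.Dade (pCore DadeHolds dadeSum)

namespace CHT

section
variable {L K : Type} [Group L] [Fintype L] [Group K] [Fintype K] {π : L →* K}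

/-- the elements of `ℓ`-power order of the kernel -/
def Z0 (ℓ : ℕ) (hk : π.ker ≤ Subgroup.center L) : Subgroup L where
  carrier := {z | z ∈ π.ker ∧ ∃ n : ℕ, z ^ ℓ ^ n = 1}
  one_mem' := ⟨one_mem _, 0, by simp⟩
  mul_mem' := by
    rintro a b ⟨ha, n, hn⟩ ⟨hb, m, hm⟩
    refine ⟨mul_mem ha hb, n + m, ?_⟩
    have hc : Commute a b := Subgroup.mem_center_iff.mp (hk hb) a
    have h1 : a ^ ℓ ^ (n + m) = 1 := by rw [pow_add, pow_mul, hn, one_pow]
    have h2 : b ^ ℓ ^ (n + m) = 1 := by rw [add_comm, pow_add, pow_mul, hm, one_pow]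
    rw [hc.mul_pow, h1, h2, one_mul]
  inv_mem' := by
    rintro a ⟨ha, n, hn⟩
    exact ⟨inv_mem ha, n, by rw [inv_pow, hn, inv_one]⟩

theorem Z0_le (ℓ : ℕ) (hk : π.ker ≤ Subgroup.center L) : Z0 ℓ hk ≤ π.ker := fun _ h => h.1

theorem Z0_p (ℓ : ℕ) (hk : π.ker ≤ Subgroup.center L) : IsPGroup ℓ (Z0 ℓ hk) := by
  rintro ⟨z, hz, n, hn⟩
  exact ⟨n, Subtype.ext hn⟩

theorem Z0_normal (ℓ : ℕ) (hk : π.ker ≤ Subgroup.center L) : (Z0 ℓ hk).Normal := by
  constructor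
  intro n hn g
  have h1 := Subgroup.mem_center_iff.mp (hk (Z0_le ℓ hk hn)) g
  rw [h1, mul_assoc, mul_inv_cancel, mul_one]
  exact hn

variable {ℓ : ℕ} [Fact ℓ.Prime]

/-- membership in an `ℓ`-subgroup which contains the `ℓ`-part of the kernel -/
theorem mem_iff (hk : π.ker ≤ Subgroup.center L) {D : Subgroup L} (hD : IsPGroup ℓ D)
    (hZ : Z0 ℓ hk ≤ D) (x : L) : x ∈ D ↔ π x ∈ D.map π ∧ ∃ n : ℕ, x ^ ℓ ^ n = 1 := by
  constructor
  · intro hx
    refine ⟨Subgroup.mem_map_of_mem π hx, ?_⟩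
    obtain ⟨n, hn⟩ := hD ⟨x, hx⟩
    exact ⟨n, by simpa using congrArg Subtype.val hn⟩
  · rintro ⟨⟨d, hd, hdx⟩, n, hn⟩
    obtain ⟨m, hm⟩ := hD ⟨d, hd⟩
    have hm' : d ^ ℓ ^ m = 1 := by simpa using congrArg Subtype.val hm
    have hk1 : d⁻¹ * x ∈ π.ker := by
      rw [MonoidHom.mem_ker, map_mul, map_inv, hdx, inv_mul_cancel]
    have hkc := hk hk1
    have hx : x = d * (d⁻¹ * x) := by group
    set z := d⁻¹ * x with hz
    have hcomm : Commute d z := (Subgroup.mem_center_iff.mp hkc d)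
    have hzn : z ^ ℓ ^ (n + m) = 1 := by
      have h1 : x ^ ℓ ^ (n + m) = 1 := by rw [pow_add, pow_mul, hn, one_pow]
      have h2 : d ^ ℓ ^ (n + m) = 1 := by rw [add_comm, pow_add, pow_mul, hm', one_pow]
      rw [hx, hcomm.mul_pow, h2, one_mul] at h1
      exact h1
    rw [hx]
    exact mul_mem hd (hZ ⟨hk1, n + m, hzn⟩)

theorem map_le_iff (hk : π.ker ≤ Subgroup.center L) {D E : Subgroup L} (hD : IsPGroup ℓ D)
    (hE : IsPGroup ℓ E) (hZ : Z0 ℓ hk ≤ E) : D.map π ≤ E.map π ↔ D ≤ E := by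
  refine ⟨fun h x hx => ?_, fun h => Subgroup.map_mono h⟩
  rw [mem_iff hk hE hZ]
  refine ⟨h (Subgroup.mem_map_of_mem π hx), ?_⟩
  obtain ⟨n, hn⟩ := hD ⟨x, hx⟩
  exact ⟨n, by simpa using congrArg Subtype.val hn⟩

/-- the lift of an `ℓ`-subgroup -/
theorem exists_lift' (hs : Function.Surjective π) (hk : π.ker ≤ Subgroup.center L)
    (E : Subgroup K) (hE : IsPGroup ℓ E) :
    ∃ D : Subgroup L, (IsPGroup ℓ D ∧ Z0 ℓ hk ≤ D) ∧ D.map π = E := by
  obtain ⟨D, hD, rfl⟩ := CHC.exists_lift hs E hE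
  have := Z0_normal ℓ hk
  refine ⟨D ⊔ Z0 ℓ hk, ⟨hD.to_sup_of_normal_right (Z0_p ℓ hk), le_sup_right⟩, ?_⟩
  rw [Subgroup.map_sup, (Subgroup.map_eq_bot_iff _).2 (Z0_le ℓ hk), sup_bot_eq]

/-- the stabilizers correspond -/
theorem stb_eq (hk : π.ker ≤ Subgroup.center L) (hs : Function.Surjective π)
    {σ : Finset (Subgroup L)} (hσ : ∀ D ∈ σ, IsPGroup ℓ D ∧ Z0 ℓ hk ≤ D) :
    stb σ = (stb (mapCh π σ)).comap π := by
  ext x
  rw [Subgroup.mem_comap, mem_stb', mem_stb']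
  constructor
  · rintro h E hE y
    obtain ⟨D, hD, rfl⟩ := mem_mapCh.1 hE
    constructor
    · rintro ⟨d, hd, rfl⟩
      exact ⟨x * d * x⁻¹, (h D hD d).1 hd, by simp⟩
    · rintro ⟨d, hd, hdy⟩
      refine ⟨x⁻¹ * d * x, ?_, ?_⟩
      · have : x * (x⁻¹ * d * x) * x⁻¹ = d := by group
        refine (h D hD _).2 ?_
        rw [this]; exact hd
      · rw [map_mul, map_mul, map_inv, hdy]; group
  · intro h D hD y
    obtain ⟨h1, h2⟩ := hσ D hD
    rw [mem_iff hk h1 h2, mem_iff hk h1 h2, h _ (mem_mapCh.2 ⟨D, hD, rfl⟩)]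
    have h3 : ∀ n : ℕ, (x * y * x⁻¹) ^ ℓ ^ n = 1 ↔ y ^ ℓ ^ n = 1 := fun n => by
      rw [conj_pow, mul_inv_eq_one, mul_eq_left]
    simp only [h3, map_mul, map_inv]

end

end CHT

theorem CHT_thm : Stmt_CHT := by
  classical
  intro L K _ _ _ _ ℓ _ π hs hk N σ hσ
  choose! G hG1 hG2 using fun (E : Subgroup K) (hE : IsPGroup ℓ E) =>
    CHT.exists_lift' (ℓ := ℓ) hs hk E hE
  obtain ⟨⟨hσ1, hσ2⟩, hσN⟩ := hσ
  have hIs : IsCh ℓ (CHT.Z0 ℓ hk) (σ.image G) := by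
    constructor
    · intro D hD
      obtain ⟨E, hE, rfl⟩ := Finset.mem_image.1 hD
      obtain ⟨h1, h2⟩ := hσ1 E hE
      refine ⟨(hG1 E h1).1, lt_of_le_of_ne (hG1 E h1).2 fun h3 => ?_⟩
      have h4 := hG2 E h1
      rw [← h3, (Subgroup.map_eq_bot_iff _).2 (CHT.Z0_le ℓ hk)] at h4
      exact absurd h4 h2.ne
    · intro D hD D' hD' _
      obtain ⟨E, hE, rfl⟩ := Finset.mem_image.1 (Finset.mem_coe.1 hD)
      obtain ⟨E', hE', rfl⟩ := Finset.mem_image.1 (Finset.mem_coe.1 hD')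
      have h1 := (hσ1 E hE).1
      have h1' := (hσ1 E' hE').1
      have htot : E ≤ E' ∨ E' ≤ E := hσ2.total (Finset.mem_coe.2 hE) (Finset.mem_coe.2 hE')
      rcases htot with h | h
      · left
        change G E ≤ G E'
        rw [← CHT.map_le_iff hk (hG1 E h1).1 (hG1 E' h1').1 (hG1 E' h1').2, hG2 E h1, hG2 E' h1']
        exact h
      · right
        change G E' ≤ G E
        rw [← CHT.map_le_iff hk (hG1 E' h1').1 (hG1 E h1).1 (hG1 E h1).2, hG2 E h1, hG2 E' h1']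
        exact h
  have hmap : mapCh π (σ.image G) = σ := by
    ext E
    rw [mem_mapCh]
    constructor
    · rintro ⟨D, hD, rfl⟩
      obtain ⟨E, hE, rfl⟩ := Finset.mem_image.1 hD
      rw [hG2 E (hσ1 E hE).1]
      exact hE
    · intro hE
      exact ⟨G E, Finset.mem_image_of_mem G hE, hG2 E (hσ1 E hE).1⟩
  have hstb : stb (σ.image G) = (stb σ).comap π := by
    rw [CHT.stb_eq (ℓ := ℓ) hk hs, hmap]
    intro D hD
    obtain ⟨h1, h2⟩ := hIs.1 D hD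
    exact ⟨h1, h2.le⟩
  have hi : Function.Injective (N.comap π).subtype := Subgroup.subtype_injective _
  obtain ⟨τ, hτ⟩ : ∃ τ, mapCh (N.comap π).subtype τ = σ.image G := by
    apply exists_mapCh
    intro D hD
    obtain ⟨E, hE, rfl⟩ := Finset.mem_image.1 hD
    rw [Subgroup.range_subtype]
    intro x hx
    rw [Subgroup.mem_comap]
    apply hσN E hE
    rw [← hG2 E (hσ1 E hE).1]
    exact Subgroup.mem_map_of_mem π hx
  have hZr : CHT.Z0 ℓ hk ≤ (N.comap π).subtype.range := by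
    rw [Subgroup.range_subtype]
    intro x hx
    rw [Subgroup.mem_comap]
    have h1 : π x = 1 := CHT.Z0_le ℓ hk hx
    rw [h1]
    exact one_mem N
  have hZm : ((CHT.Z0 ℓ hk).comap (N.comap π).subtype).map (N.comap π).subtype = CHT.Z0 ℓ hk :=
    Subgroup.map_comap_eq_self hZr
  refine ⟨(CHT.Z0 ℓ hk).comap (N.comap π).subtype, τ, ?_, ?_, ?_, ?_, ?_⟩
  · rw [hZm]
    exact (CHT.Z0_le ℓ hk).trans hk
  · exact (CHT.Z0_p ℓ hk).comap_of_injective _ hi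
  · rw [mem_Ch, ← isCh_mapCh_iff hi, hτ, hZm]
    exact hIs
  · rw [hτ, hstb]
  · intro s
    rw [← comap_stb_mapCh hi τ, hτ, hstb]
    exact Iff.rfl

end Pool.Agent.DPG
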