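import Pool.Agent.DPG.StmtsA

/-!
# CJS: conjugation of chains
-/

namespace Pool.Agent.DPG

open Pool.Agent.DP Pool.Agent.DPC Pool.Agent.DPM Pool.Agent.DPN Pool.Agent.DPF
  Pool.Agent.Lib_helper13 Representation

namespace CJS

variable {G : Type} [Group G]

theorem mem_cj (g : G) (D : Subgroup G) (x : G) :
    x ∈ D.map (MulAut.conj g).toMonoidHom ↔ g⁻¹ * x * g ∈ D := by
  rw [Subgroup.mem_map]
  constructor
  · rintro ⟨y, hy, rfl⟩
    have : g⁻¹ * (MulAut.conj g).toMonoidHom y * g = y := by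
      change g⁻¹ * (g * y * g⁻¹) * g = y
      group
    rw [this]
    exact hy
  · intro h
    refine ⟨g⁻¹ * x * g, h, ?_⟩
    change g * (g⁻¹ * x * g) * g⁻¹ = x
    group

theorem cj_one (D : Subgroup G) : D.map (MulAut.conj (1 : G)).toMonoidHom = D := by
  ext x
  rw [mem_cj]
  simp

theorem cj_mul (g h : G) (D : Subgroup G) : D.map (MulAut.conj (g * h)).toMonoidHom =
    (D.map (MulAut.conj h).toMonoidHom).map (MulAut.conj g).toMonoidHom := by
  ext x
  rw [mem_cj, mem_cj, mem_cj]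
  have : (g * h)⁻¹ * x * (g * h) = h⁻¹ * (g⁻¹ * x * g) * h := by group
  rw [this]

theorem cj_inj (g : G) : Function.Injective
    (fun D : Subgroup G => D.map (MulAut.conj g).toMonoidHom) := by
  intro D E h
  have h1 : (D.map (MulAut.conj g).toMonoidHom).map (MulAut.conj g⁻¹).toMonoidHom =
      (E.map (MulAut.conj g).toMonoidHom).map (MulAut.conj g⁻¹).toMonoidHom := by
    have h' : D.map (MulAut.conj g).toMonoidHom = E.map (MulAut.conj g).toMonoidHom := h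
    rw [h']
  rw [← cj_mul, ← cj_mul, inv_mul_cancel, cj_one, cj_one] at h1
  exact h1

theorem mem_cjC (g : G) (σ : Finset (Subgroup G)) (E : Subgroup G) :
    E ∈ cjC g σ ↔ ∃ D ∈ σ, D.map (MulAut.conj g).toMonoidHom = E := by
  classical
  unfold cjC
  simp

theorem cjC_one (σ : Finset (Subgroup G)) : cjC (1 : G) σ = σ := by
  ext E
  rw [mem_cjC]
  constructor
  · rintro ⟨D, hD, rfl⟩
    rw [cj_one]
    exact hD
  · intro h
    exact ⟨E, h, cj_one E⟩

theorem cjC_mul (g h : G) (σ : Finset (Subgroup G)) : cjC (g * h) σ = cjC g (cjC h σ) := by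
  ext E
  rw [mem_cjC, mem_cjC]
  constructor
  · rintro ⟨D, hD, rfl⟩
    exact ⟨_, (mem_cjC _ _ _).2 ⟨D, hD, rfl⟩, (cj_mul g h D).symm⟩
  · rintro ⟨E', hE', rfl⟩
    obtain ⟨D, hD, rfl⟩ := (mem_cjC _ _ _).1 hE'
    exact ⟨D, hD, cj_mul g h D⟩

theorem cjC_card (g : G) (σ : Finset (Subgroup G)) : (cjC g σ).card = σ.card := by
  classical
  unfold cjC
  exact Finset.card_image_of_injective _ (cj_inj g)

theorem stb_cjC (g : G) (σ : Finset (Subgroup G)) :
    stb (cjC g σ) = (stb σ).map (MulAut.conj g).toMonoidHom := by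
  ext k
  rw [mem_cj, mem_stb', mem_stb']
  constructor
  · intro h D hD x
    have h1 := h _ ((mem_cjC _ _ _).2 ⟨D, hD, rfl⟩) (g * x * g⁻¹)
    rw [mem_cj, mem_cj] at h1
    have e1 : g⁻¹ * (g * x * g⁻¹) * g = x := by group
    have e2 : g⁻¹ * (k * (g * x * g⁻¹) * k⁻¹) * g =
        g⁻¹ * k * g * x * (g⁻¹ * k * g)⁻¹ := by group
    rw [e1, e2] at h1
    exact h1
  · intro h E hE x
    obtain ⟨D, hD, rfl⟩ := (mem_cjC _ _ _).1 hE
    have h1 := h D hD (g⁻¹ * x * g)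
    rw [mem_cj, mem_cj]
    have e2 : g⁻¹ * (k * x * k⁻¹) * g =
        g⁻¹ * k * g * (g⁻¹ * x * g) * (g⁻¹ * k * g)⁻¹ := by group
    rw [e2]
    exact h1

theorem chN_cjC (ℓ : ℕ) (M : Subgroup G) [M.Normal] (g : G) (σ : Finset (Subgroup G))
    (h : ChN ℓ M σ) : ChN ℓ M (cjC g σ) := by
  have hinj : Function.Injective (MulAut.conj g).toMonoidHom := (MulAut.conj g).injective
  refine ⟨⟨?_, ?_⟩, ?_⟩
  · intro E hE
    obtain ⟨D, hD, rfl⟩ := (mem_cjC _ _ _).1 hE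
    obtain ⟨h1, h2⟩ := h.1.1 D hD
    refine ⟨h1.map _, ?_⟩
    rw [bot_lt_iff_ne_bot]
    intro h3
    rw [Subgroup.map_eq_bot_iff_of_injective _ hinj] at h3
    rw [h3] at h2
    exact lt_irrefl _ h2
  · intro E hE E' hE' _
    obtain ⟨D, hD, rfl⟩ := (mem_cjC _ _ _).1 (Finset.mem_coe.1 hE)
    obtain ⟨D', hD', rfl⟩ := (mem_cjC _ _ _).1 (Finset.mem_coe.1 hE')
    rcases h.1.total hD hD' with h1 | h1
    · exact Or.inl (Subgroup.map_mono h1)
    · exact Or.inr (Subgroup.map_mono h1)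
  · intro E hE
    obtain ⟨D, hD, rfl⟩ := (mem_cjC _ _ _).1 hE
    rintro x hx
    rw [mem_cj] at hx
    have h1 := Subgroup.Normal.conj_mem ‹M.Normal› _ (h.2 D hD hx) g
    have e : g * (g⁻¹ * x * g) * g⁻¹ = x := by group
    rw [e] at h1
    exact h1

theorem cjC_of_mem {g : G} {σ : Finset (Subgroup G)} (h : g ∈ stb σ) : cjC g σ = σ := by
  rw [mem_stb] at h
  ext E
  rw [mem_cjC]
  constructor
  · rintro ⟨D, hD, rfl⟩
    rw [h D hD]
    exact hD
  · intro hE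
    exact ⟨E, hE, h E hE⟩

theorem mem_of_cjC [Finite G] {ℓ : ℕ} {g : G} {σ : Finset (Subgroup G)} (hσ : IsCh ℓ ⊥ σ)
    (h : cjC g σ = σ) : g ∈ stb σ := by
  rw [mem_stb]
  intro D hD
  have hinj : Function.Injective (MulAut.conj g).toMonoidHom := (MulAut.conj g).injective
  have h1 : D.map (MulAut.conj g).toMonoidHom ∈ σ := by
    have : D.map (MulAut.conj g).toMonoidHom ∈ cjC g σ := (mem_cjC _ _ _).2 ⟨D, hD, rfl⟩
    rw [h] at this
    exact this
  have hc : Nat.card (D.map (MulAut.conj g).toMonoidHom) = Nat.card D :=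
    (Nat.card_congr (D.equivMapOfInjective _ hinj).toEquiv).symm
  rcases hσ.total h1 hD with h2 | h2
  · exact Subgroup.eq_of_le_of_card_ge h2 (le_of_eq hc.symm)
  · exact (Subgroup.eq_of_le_of_card_ge h2 (le_of_eq hc)).symm

end CJS

/-- CJS -/
theorem CJS_thm : Stmt_CJS := by
  intro G _ _ ℓ M _ g h σ
  exact ⟨CJS.cjC_one σ, CJS.cjC_mul g h σ, CJS.cjC_card g σ, CJS.stb_cjC g σ,
    CJS.chN_cjC ℓ M g σ, CJS.cjC_of_mem, CJS.mem_of_cjC⟩

end Pool.Agent.DPG
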