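import Mathlib
import Pool.Agent.DPG.Defs

/-!
# Dade's conjecture: minimal normal subgroups which are not simple: further definitions
-/

namespace Pool.Agent.DPG

open Pool.Agent.DP Pool.Agent.DPC Pool.Agent.DPM Pool.Agent.DPN Pool.Agent.DPF
  Pool.Agent.Lib_helper13 Representation
open Pool.Agent.Lib_helper13.Dade (pCore DadeHolds dadeSum)

section

variable {L K K1 Q L1 Ω : Type} [Group L] [Group K] [Group K1] [Group Q] [Group L1]
  [Fintype Ω]

/-- The elements of `K` which act trivially on `Ω` and whose coordinate at `o` lies in `S o`. -/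
def PS (φ : K →* Gam (Equiv.Perm Ω) Ω K1) (S : Ω → Subgroup K1) : Subgroup K where
  carrier := {k | (φ k).right = 1 ∧ ∀ o, (φ k).left o ∈ S o}
  one_mem' := by
    refine ⟨by simp, ?_⟩
    intro o
    simp [(S o).one_mem]
  mul_mem' := by
    rintro a b ⟨ha', ha''⟩ ⟨hb', hb''⟩
    refine ⟨by simp [ha', hb'], ?_⟩
    intro o
    rw [map_mul]
    change (φ a).left o * (φ b).left ((φ a).right⁻¹ • o) ∈ S o
    rw [ha', inv_one, one_smul]
    exact (S o).mul_mem (ha'' o) (hb'' o)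
  inv_mem' := by
    rintro a ⟨ha', ha''⟩
    refine ⟨by simp [ha'], ?_⟩
    intro o
    rw [map_inv]
    change ((φ a).left ((φ a).right⁻¹⁻¹ • o))⁻¹ ∈ S o
    rw [ha', inv_one, inv_one, one_smul]
    exact (S o).inv_mem (ha'' o)

/-- `F` is the product of the functions `f o` of the coordinates. -/
def TF (ε : (Ω → Q) →* L) (f : Ω → Q → ℂ) (F : L → ℂ) : Prop :=
  (∀ n : Ω → Q, F (ε n) = ∏ o, f o (n o)) ∧ ∀ l, l ∉ ε.range → F l = 0

open Classical in
/-- The sum over the elements of a coset of the products of the values of `F` at the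
coordinates. -/
noncomputable def psm [Fintype Q] (ε : (Ω → Q) →* L) (ι : Q →* L1) (F : L1 → ℂ) (u : L → ℤ)
    (x : L × Gam (Equiv.Perm Ω) Ω L1) : ℂ :=
  (∑ n : Ω → Q, ((u (x.1 * ε n) : ℤ) : ℂ) * ∏ o, F (x.2.left o * ι (n o))) /
    (Nat.card ε.ker * F 1 ^ Fintype.card Ω)

variable [Fintype L] [Fintype L1]

/-- Reference data: `Fr` belongs to an invariant pair of `L1`, and its support contains `M1`;
`ζ` is an invariant character of the group above `M`. -/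
structure RF (𝔐 : Ideal (integralClosure ℤ ℂ)) (ℓ : ℕ) (π : L →* K) (μ : π.ker →* ℂˣ)
    (φ : K →* Gam (Equiv.Perm Ω) Ω K1) (q : Q →* K1) (α : K1 →* MulAut Q)
    (ε : (Ω → Q) →* L) (μQ : q.ker →* ℂˣ) (π1 : L1 →* K1) (μ1 : π1.ker →* ℂˣ) (ι : Q →* L1)
    (M : Subgroup K) (M1 : Subgroup K1) (σr : Finset (Subgroup K1)) (Fr : L1 → ℂ)
    (ζ : L × Gam (Equiv.Perm Ω) Ω L1 → ℂ) : Prop where
  wd : WD π μ φ q α ε μQ
  ld : LD q α μQ π1 μ1 ι
  mm : MM ℓ π φ q ε M M1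
  ch : ChN ℓ q.range σr
  ef : EF π1 q.range M1 (stb σr) Fr
  ov : Ov π1 μ1 Fr
  sj : q.range ⊔ stb σr = ⊤
  iv : ∀ t, π1 t ∈ stb σr → ∀ x, Fr (t * x * t⁻¹) = Fr x
  sup : SUP 𝔐 π1 q.range M1 Fr
  zt : ZT π φ π1 μ1 ε ι M ζ
  zi : ∀ y ∈ YY π φ π1, ∀ x, ζ (y * x * y⁻¹) = ζ x

open Classical in
/-- The relations between the linear characters of the pairs with the given property. -/
def T2X {H W : Type} [Group H] [Group W] [Fintype K] (𝔐 : Ideal (integralClosure ℤ ℂ)) (ℓ : ℕ)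
    (π : L →* K) (μ : π.ker →* ℂˣ) (M : Subgroup K) (ω : L → (integralClosure ℤ ℂ) ⧸ 𝔐)
    (πW : W →* H) (P : Subgroup H) (C : Finset (Subgroup K) → Prop)
    (ν : Subgroup K → (L → ℂ) → (πW.ker →* ℂˣ)) : Prop :=
  ∀ a : πW.ker, InS πW P (a : W) → ∀ n : ℕ,
    ∑ σ ∈ Ch ℓ (⊥ : Subgroup K) with C σ, (-1 : ℂ) ^ σ.card *
      ∑ f ∈ irrOn (AL π M (stb σ)) with BPs 𝔐 π μ M ω (stb σ) f ∧
          HasDefect ℓ (fun s : AL π M (stb σ) => f s) n,
        (Nat.card ↥(M ⊓ stb σ) : ℂ) * ((ν (stb σ) f a : ℂˣ) : ℂ) = 0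

end

end Pool.Agent.DPG
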