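import Mathlib
import Pool.Agent.DPG.DefsB
import Pool.Agent.DPG.StmtsA
import Pool.Agent.DPK.Defs

/-!
# Dade's conjecture: minimal normal subgroups which are not simple: statements of the modules,
part B (wreath products)
-/

namespace Pool.Agent.DPG

open Pool.Agent.DP Pool.Agent.DPC Pool.Agent.DPM Pool.Agent.DPN Pool.Agent.DPF
  Pool.Agent.DPK Pool.Agent.Lib_helper13 Representation
open Pool.Agent.Lib_helper13.Dade (pCore DadeHolds dadeSum)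

/-! ### The wreath product data -/

/-- CNA: the factors of a minimal normal subgroup. -/
def Stmt_CNA : Prop :=
  ∀ (K : Type) [Group K] [Finite K] (N : Subgroup K) [N.Normal], N ≠ ⊥ →
    (∀ N' : Subgroup K, N'.Normal → N' ≤ N → N' = ⊥ ∨ N' = N) →
    (∃ x ∈ N, ∃ y ∈ N, x * y ≠ y * x) → ¬ IsSimpleGroup N →
    ∃ E : Subgroup K, E ≤ N ∧ E ≠ ⊥ ∧ ⁅E, E⁆ = E ∧
      (∀ x ∈ E, (∀ y ∈ E, x * y = y * x) → x = 1) ∧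
      (∀ k : K, E.map (MulAut.conj k).toMonoidHom = E ∨
        ∀ x ∈ E, ∀ y ∈ E, (k * x * k⁻¹) * y = y * (k * x * k⁻¹)) ∧
      (⨆ k : K, E.map (MulAut.conj k).toMonoidHom) = N ∧
      ∃ k : K, E.map (MulAut.conj k).toMonoidHom ≠ E

/-- CNB: the wreath product data. -/
def Stmt_CNB : Prop :=
  ∀ (L K : Type) [Group L] [Fintype L] [Group K] [Fintype K] (π : L →* K),
    Function.Surjective π → π.ker ≤ Subgroup.center L → ∀ μ : π.ker →* ℂˣ,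
    Function.Injective μ → ∀ (N : Subgroup K) [N.Normal],
    (∀ k : K, (∀ x ∈ N, k * x = x * k) → k = 1) → ∀ E : Subgroup K, E ≤ N → E ≠ ⊥ →
    ⁅E, E⁆ = E → (∀ x ∈ E, (∀ y ∈ E, x * y = y * x) → x = 1) →
    (∀ k : K, E.map (MulAut.conj k).toMonoidHom = E ∨
      ∀ x ∈ E, ∀ y ∈ E, (k * x * k⁻¹) * y = y * (k * x * k⁻¹)) →
    (⨆ k : K, E.map (MulAut.conj k).toMonoidHom) = N →
    (∃ k : K, E.map (MulAut.conj k).toMonoidHom ≠ E) →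
    ∃ (Ω K1 Q : Type) (_ : Fintype Ω) (_ : Group K1) (_ : Fintype K1) (_ : Group Q)
      (_ : Fintype Q) (φ : K →* Gam (Equiv.Perm Ω) Ω K1) (q : Q →* K1) (α : K1 →* MulAut Q)
      (ε : (Ω → Q) →* L) (μQ : q.ker →* ℂˣ), WD π μ φ q α ε μQ ∧ NN' π ε = N ∧
      1 < Fintype.card Ω ∧ Nat.card K1 < Nat.card K

/-- CST: the chains with constant coordinates. -/
def Stmt_CST : Prop :=
  ∀ (L K K1 Q Ω : Type) [Group L] [Fintype L] [Group K] [Fintype K] [Group K1] [Fintype K1]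
    [Group Q] [Fintype Q] [Fintype Ω] [Nonempty Ω] (ℓ : ℕ) [Fact ℓ.Prime] (π : L →* K)
    (μ : π.ker →* ℂˣ) (φ : K →* Gam (Equiv.Perm Ω) Ω K1) (q : Q →* K1) (α : K1 →* MulAut Q)
    (ε : (Ω → Q) →* L) (μQ : q.ker →* ℂˣ), WD π μ φ q α ε μQ →
    (NN' π ε).Normal ∧ q.range.Normal ∧ ∀ σ : Finset (Subgroup K1), ChN ℓ q.range σ →
      ChN ℓ (NN' π ε) (cstC φ (NN' π ε) σ) ∧ Clo φ (NN' π ε) (cstC φ (NN' π ε) σ) ∧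
      (cstC φ (NN' π ε) σ).card = σ.card ∧
      (∀ k, k ∈ stb (cstC φ (NN' π ε) σ) ↔ ∀ o, (φ k).left o ∈ stb σ) ∧
      Nat.card ↥(NN' π ε ⊓ stb (cstC φ (NN' π ε) σ)) =
        Nat.card ↥(q.range ⊓ stb σ) ^ Fintype.card Ω ∧
      (q.range ⊔ stb σ = ⊤ → NN' π ε ⊔ stb (cstC φ (NN' π ε) σ) = ⊤) ∧
      ∀ σ' : Finset (Subgroup K1), ChN ℓ q.range σ' → ∀ n : Ω → Q,
        (cjC (π (ε n)) (cstC φ (NN' π ε) σ) = cstC φ (NN' π ε) σ' ↔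
          ∀ o, cjC (q (n o)) σ = σ')

open Classical in
/-- TOG: the chains which are not closed cancel. -/
def Stmt_TOG : Prop :=
  ∀ (L K K1 Q Ω : Type) [Group L] [Fintype L] [Group K] [Fintype K] [Group K1] [Fintype K1]
    [Group Q] [Fintype Q] [Fintype Ω] (ℓ : ℕ) [Fact ℓ.Prime] (π : L →* K)
    (μ : π.ker →* ℂˣ) (φ : K →* Gam (Equiv.Perm Ω) Ω K1) (q : Q →* K1) (α : K1 →* MulAut Q)
    (ε : (Ω → Q) →* L) (μQ : q.ker →* ℂˣ), WD π μ φ q α ε μQ → ∀ G : Subgroup K → ℂ,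
    ∑ σ ∈ Ch ℓ (⊥ : Subgroup K) with ChN ℓ (NN' π ε) σ, (-1 : ℂ) ^ σ.card * G (stb σ) =
      ∑ σ ∈ Ch ℓ (⊥ : Subgroup K) with ChN ℓ (NN' π ε) σ ∧ Clo φ (NN' π ε) σ,
        (-1 : ℂ) ^ σ.card * G (stb σ)

/-- TNA: products of characters are irreducible. -/
def Stmt_TNA : Prop :=
  ∀ (L K K1 Q Ω : Type) [Group L] [Fintype L] [Group K] [Fintype K] [Group K1] [Fintype K1]
    [Group Q] [Fintype Q] [Fintype Ω] (π : L →* K)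
    (μ : π.ker →* ℂˣ) (φ : K →* Gam (Equiv.Perm Ω) Ω K1) (q : Q →* K1) (α : K1 →* MulAut Q)
    (ε : (Ω → Q) →* L) (μQ : q.ker →* ℂˣ), WD π μ φ q α ε μQ → ∀ S : Ω → Subgroup K1,
    (∀ f : Ω → Q → ℂ, (∀ o, IrrOn ((S o).comap q) (f o) ∧ Ov q μQ (f o)) →
      ∃ F : L → ℂ, IrrOn (AL π (NN' π ε) (PS φ S)) F ∧ Ov π μ F ∧ TF ε f F) ∧
    (∀ F : L → ℂ, IrrOn (AL π (NN' π ε) (PS φ S)) F → Ov π μ F →
      ∃ f : Ω → Q → ℂ, (∀ o, IrrOn ((S o).comap q) (f o) ∧ Ov q μQ (f o)) ∧ TF ε f F) ∧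
    ∀ (f f' : Ω → Q → ℂ) (F : L → ℂ), (∀ o, IrrOn ((S o).comap q) (f o)) →
      (∀ o, IrrOn ((S o).comap q) (f' o)) → TF ε f F → TF ε f' F → f = f'

/-- CLS: the invariant pairs of closed chains are conjugate to pairs with constant
coordinates. -/
def Stmt_CLS : Prop :=
  ∀ (L K K1 Q Ω : Type) [Group L] [Fintype L] [Group K] [Fintype K] [Group K1] [Fintype K1]
    [Group Q] [Fintype Q] [Fintype Ω] [Nonempty Ω] (ℓ : ℕ) [Fact ℓ.Prime] (π : L →* K)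
    (μ : π.ker →* ℂˣ) (φ : K →* Gam (Equiv.Perm Ω) Ω K1) (q : Q →* K1) (α : K1 →* MulAut Q)
    (ε : (Ω → Q) →* L) (μQ : q.ker →* ℂˣ), WD π μ φ q α ε μQ →
    ∀ (σ : Finset (Subgroup K)) (f : L → ℂ), ChN ℓ (NN' π ε) σ → Clo φ (NN' π ε) σ →
    IrrOn (AL π (NN' π ε) (stb σ)) f → Ov π μ f → NN' π ε ⊔ stb σ = ⊤ →
    (∀ t, π t ∈ stb σ → ∀ x, f (t * x * t⁻¹) = f x) →
    ∃ (n : Ω → Q) (σ1 : Finset (Subgroup K1)) (f1 : Q → ℂ), ChN ℓ q.range σ1 ∧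
      σ = cjC (π (ε n)) (cstC φ (NN' π ε) σ1) ∧ IrrOn ((stb σ1).comap q) f1 ∧ Ov q μQ f1 ∧
      q.range ⊔ stb σ1 = ⊤ ∧ (∀ k ∈ stb σ1, ∀ x, f1 (α k x) = f1 x) ∧
      TF ε (fun _ => f1) (cjF (ε n)⁻¹ f)

/-! ### Products of scalars -/

open Classical in
/-- PRC: products of scalars. -/
def Stmt_PRC : Prop :=
  ∀ (Q Ω : Type) [Group Q] [Fintype Q] [Fintype Ω] (𝔐 : Ideal (integralClosure ℤ ℂ)) (ℓ : ℕ)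
    [Fact ℓ.Prime], 𝔐.IsMaximal → (ℓ : integralClosure ℤ ℂ) ∈ 𝔐 → ∀ (Z : Subgroup Q)
    (μ : Z →* ℂˣ), Z ≤ Subgroup.center Q → Function.Injective μ → ∀ β : Ω → MulAut Q,
    (∀ o, ∀ z ∈ Z, β o z = z) → ∀ Φ Φ' : Ω → Q → ℂ,
    (∀ o (z : Z) n, Φ o (z * n) = ((μ z : ℂˣ) : ℂ) * Φ o n) →
    (∀ o (z : Z) n, Φ' o (z * n) = ((μ z : ℂˣ) : ℂ) * Φ' o n) →
    (∀ o (w : Q → ℤ), (∀ a n, w (β o a * n * a⁻¹) = w n) →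
      IsIntegral ℤ (∑ n, ((w n : ℤ) : ℂ) * Φ o n) ∧
      IsIntegral ℤ (∑ n, ((w n : ℤ) : ℂ) * Φ' o n) ∧
      red 𝔐 (∑ n, ((w n : ℤ) : ℂ) * Φ o n) = red 𝔐 (∑ n, ((w n : ℤ) : ℂ) * Φ' o n)) →
    ∀ u : (Ω → Q) → ℤ, (∀ a n : Ω → Q, u (fun o => β o (a o) * n o * (a o)⁻¹) = u n) →
    (∀ (z : Ω → Z) (n : Ω → Q), (∏ o, μ (z o)) = 1 → u (fun o => z o * n o) = u n) →
    IsIntegral ℤ ((∑ n : Ω → Q, ((u n : ℤ) : ℂ) * ∏ o, Φ o (n o)) /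
      Nat.card {z : Ω → Z // ∏ o, μ (z o) = 1}) ∧
    red 𝔐 ((∑ n : Ω → Q, ((u n : ℤ) : ℂ) * ∏ o, Φ o (n o)) /
      Nat.card {z : Ω → Z // ∏ o, μ (z o) = 1}) =
    red 𝔐 ((∑ n : Ω → Q, ((u n : ℤ) : ℂ) * ∏ o, Φ' o (n o)) /
      Nat.card {z : Ω → Z // ∏ o, μ (z o) = 1})

/-- LMT: the blocks of products of characters. -/
def Stmt_LMT : Prop :=
  ∀ (L K K1 Q Ω : Type) [Group L] [Fintype L] [Group K] [Fintype K] [Group K1] [Fintype K1]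
    [Group Q] [Fintype Q] [Fintype Ω] (𝔐 : Ideal (integralClosure ℤ ℂ)) (ℓ : ℕ)
    [Fact ℓ.Prime], 𝔐.IsMaximal → (ℓ : integralClosure ℤ ℂ) ∈ 𝔐 → ∀ (π : L →* K)
    (μ : π.ker →* ℂˣ) (φ : K →* Gam (Equiv.Perm Ω) Ω K1) (q : Q →* K1) (α : K1 →* MulAut Q)
    (ε : (Ω → Q) →* L) (μQ : q.ker →* ℂˣ), WD π μ φ q α ε μQ →
    ∀ (S S' : Ω → Subgroup K1) (f f' : Ω → Q → ℂ) (F F' : L → ℂ),
    (∀ o, IrrOn ((S o).comap q) (f o) ∧ Ov q μQ (f o)) →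
    (∀ o, IrrOn ((S' o).comap q) (f' o) ∧ Ov q μQ (f' o)) → TF ε f F → TF ε f' F' →
    ((∀ (o : Ω) (u : Q → ℤ), CIv ⊤ u → sc 𝔐 (f o) u = sc 𝔐 (f' o) u) ↔
      ∀ u : L → ℤ, CIv ((NN' π ε).comap π) u → SOn ((NN' π ε).comap π : Set L) u →
        sc 𝔐 F u = sc 𝔐 F' u)

/-- PRF: products of the scalars on cosets. -/
def Stmt_PRF : Prop :=
  ∀ (L K K1 Q L1 Ω : Type) [Group L] [Fintype L] [Group K] [Fintype K] [Group K1]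
    [Fintype K1] [Group Q] [Fintype Q] [Group L1] [Fintype L1] [Fintype Ω]
    (𝔐 : Ideal (integralClosure ℤ ℂ)) (ℓ : ℕ) [Fact ℓ.Prime], 𝔐.IsMaximal →
    (ℓ : integralClosure ℤ ℂ) ∈ 𝔐 → ∀ (π : L →* K) (μ : π.ker →* ℂˣ)
    (φ : K →* Gam (Equiv.Perm Ω) Ω K1) (q : Q →* K1) (α : K1 →* MulAut Q)
    (ε : (Ω → Q) →* L) (μQ : q.ker →* ℂˣ) (π1 : L1 →* K1) (μ1 : π1.ker →* ℂˣ)
    (ι : Q →* L1) (M : Subgroup K) (M1 : Subgroup K1), WD π μ φ q α ε μQ →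
    LD q α μQ π1 μ1 ι → MM ℓ π φ q ε M M1 → ∀ (S S' : Subgroup K1) (F F' : L1 → ℂ),
    EF π1 q.range M1 S F → EF π1 q.range M1 S' F' → Ov π1 μ1 F → Ov π1 μ1 F' →
    (∀ u : L1 → ℤ, CIv (q.range.comap π1) u → sc 𝔐 F u = sc 𝔐 F' u) →
    ∀ x ∈ MY π φ π1 M, ∀ u : L → ℤ, CIv ((NN' π ε).comap π) u →
      IsIntegral ℤ (psm ε ι F u x) ∧ IsIntegral ℤ (psm ε ι F' u x) ∧
      red 𝔐 (psm ε ι F u x) = red 𝔐 (psm ε ι F' u x)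

/-! ### The group `M` -/

/-- TRO: `M` acts trivially on `Ω`. -/
def Stmt_TRO (Cl : ∀ (Y : Type) [Group Y], Prop) : Prop :=
  ∀ (L K K1 Q Ω : Type) [Group L] [Fintype L] [Group K] [Fintype K] [Group K1] [Fintype K1]
    [Group Q] [Fintype Q] [Fintype Ω] (𝔐 : Ideal (integralClosure ℤ ℂ)) (ℓ : ℕ)
    [Fact ℓ.Prime], 𝔐.IsMaximal → (ℓ : integralClosure ℤ ℂ) ∈ 𝔐 → ∀ (π : L →* K)
    (μ : π.ker →* ℂˣ) (φ : K →* Gam (Equiv.Perm Ω) Ω K1) (q : Q →* K1) (α : K1 →* MulAut Q)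
    (ε : (Ω → Q) →* L) (μQ : q.ker →* ℂˣ), WD π μ φ q α ε μQ → Cl q.range →
    HR Cl ℓ (Nat.card q.range) →
    ∀ (M : Subgroup K) [M.Normal], NN' π ε ≤ M → ¬ ℓ ∣ (NN' π ε).relIndex M →
    ∀ ω : L → (integralClosure ℤ ℂ) ⧸ 𝔐, Pos 𝔐 ℓ π μ M ω → STB 𝔐 π μ (NN' π ε) ω →
    SPP 𝔐 π μ (NN' π ε) M ω → ∀ (σ : Finset (Subgroup K)) (θ : L → ℂ),
    ChN ℓ (NN' π ε) σ → BPs 𝔐 π μ M ω (stb σ) θ → ∀ m ∈ M, (φ m).right = 1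

/-- MMC: the group of the coordinates of the elements of `M`. -/
def Stmt_MMC : Prop :=
  ∀ (L K K1 Q Ω : Type) [Group L] [Fintype L] [Group K] [Fintype K] [Group K1] [Fintype K1]
    [Group Q] [Fintype Q] [Fintype Ω] [Nonempty Ω] (ℓ : ℕ) [Fact ℓ.Prime] (π : L →* K)
    (μ : π.ker →* ℂˣ) (φ : K →* Gam (Equiv.Perm Ω) Ω K1) (q : Q →* K1) (α : K1 →* MulAut Q)
    (ε : (Ω → Q) →* L) (μQ : q.ker →* ℂˣ), WD π μ φ q α ε μQ →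
    ∀ (M : Subgroup K) [M.Normal], NN' π ε ≤ M → ¬ ℓ ∣ (NN' π ε).relIndex M →
    (∀ m ∈ M, (φ m).right = 1) → ∃ M1 : Subgroup K1, MM ℓ π φ q ε M M1

/-- SUL: the support of the characters of the coordinates. -/
def Stmt_SUL : Prop :=
  ∀ (L K K1 Q L1 Ω : Type) [Group L] [Fintype L] [Group K] [Fintype K] [Group K1]
    [Fintype K1] [Group Q] [Fintype Q] [Group L1] [Fintype L1] [Fintype Ω] [Nonempty Ω]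
    (𝔐 : Ideal (integralClosure ℤ ℂ)) (ℓ : ℕ) [Fact ℓ.Prime], 𝔐.IsMaximal →
    (ℓ : integralClosure ℤ ℂ) ∈ 𝔐 → ∀ (π : L →* K) (μ : π.ker →* ℂˣ)
    (φ : K →* Gam (Equiv.Perm Ω) Ω K1) (q : Q →* K1) (α : K1 →* MulAut Q)
    (ε : (Ω → Q) →* L) (μQ : q.ker →* ℂˣ) (π1 : L1 →* K1) (μ1 : π1.ker →* ℂˣ)
    (ι : Q →* L1) (M : Subgroup K) (M1 : Subgroup K1), WD π μ φ q α ε μQ →
    LD q α μQ π1 μ1 ι → MM ℓ π φ q ε M M1 → ∀ (σr : Finset (Subgroup K1)) (Fr : L1 → ℂ),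
    ChN ℓ q.range σr → EF π1 q.range M1 (stb σr) Fr → Ov π1 μ1 Fr → ∀ f : L → ℂ,
    IrrOn (AL π (NN' π ε) (stb (cstC φ (NN' π ε) σr))) f →
    (∀ n : Ω → Q, f (ε n) = ∏ o, Fr (ι (n o))) →
    (∀ x, π x ∈ M → ∃ u v : L → ℤ, CIv ((NN' π ε).comap π) u ∧
      CIv ((NN' π ε).comap π) v ∧ SOn {y | π (x⁻¹ * y) ∈ NN' π ε} u ∧
      SOn {y | π (x * y) ∈ NN' π ε} v ∧ sc 𝔐 f (conv u v) ≠ 0) →
    SUP 𝔐 π1 q.range M1 Fr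

/-! ### The character of the quotient -/

/-- ZEX: a character over a product of characters is a product. -/
def Stmt_ZEX : Prop :=
  ∀ (L K K1 Q L1 Ω : Type) [Group L] [Fintype L] [Group K] [Fintype K] [Group K1]
    [Fintype K1] [Group Q] [Fintype Q] [Group L1] [Fintype L1] [Fintype Ω] [Nonempty Ω]
    (ℓ : ℕ) [Fact ℓ.Prime] (π : L →* K) (μ : π.ker →* ℂˣ)
    (φ : K →* Gam (Equiv.Perm Ω) Ω K1) (q : Q →* K1) (α : K1 →* MulAut Q)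
    (ε : (Ω → Q) →* L) (μQ : q.ker →* ℂˣ) (π1 : L1 →* K1) (μ1 : π1.ker →* ℂˣ)
    (ι : Q →* L1) (M : Subgroup K) (M1 : Subgroup K1), WD π μ φ q α ε μQ →
    LD q α μQ π1 μ1 ι → MM ℓ π φ q ε M M1 → ∀ (σ : Finset (Subgroup K1)) (F : L1 → ℂ),
    ChN ℓ q.range σ → EF π1 q.range M1 (stb σ) F → Ov π1 μ1 F → ∀ (θ : L → ℂ) (e : ℂ),
    IrrOn (AL π M (stb (cstC φ (NN' π ε) σ))) θ → Ov π μ θ →
    (∀ n : Ω → Q, θ (ε n) = e * ∏ o, F (ι (n o))) →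
    ∃ ζ, ZT π φ π1 μ1 ε ι M ζ ∧ TP π φ π1 M F ζ θ

/-- ZCO: products are characters. -/
def Stmt_ZCO : Prop :=
  ∀ (L K K1 Q L1 Ω : Type) [Group L] [Fintype L] [Group K] [Fintype K] [Group K1]
    [Fintype K1] [Group Q] [Fintype Q] [Group L1] [Fintype L1] [Fintype Ω] [Nonempty Ω]
    (ℓ : ℕ) [Fact ℓ.Prime] (π : L →* K) (μ : π.ker →* ℂˣ)
    (φ : K →* Gam (Equiv.Perm Ω) Ω K1) (q : Q →* K1) (α : K1 →* MulAut Q)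
    (ε : (Ω → Q) →* L) (μQ : q.ker →* ℂˣ) (π1 : L1 →* K1) (μ1 : π1.ker →* ℂˣ)
    (ι : Q →* L1) (M : Subgroup K) (M1 : Subgroup K1), WD π μ φ q α ε μQ →
    LD q α μQ π1 μ1 ι → MM ℓ π φ q ε M M1 → ∀ (σ : Finset (Subgroup K1)) (F : L1 → ℂ),
    ChN ℓ q.range σ → EF π1 q.range M1 (stb σ) F → Ov π1 μ1 F → ∀ ζ,
    ZT π φ π1 μ1 ε ι M ζ →
    ∃ θ : L → ℂ, IrrOn (AL π M (stb (cstC φ (NN' π ε) σ))) θ ∧ Ov π μ θ ∧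
      TP π φ π1 M F ζ θ

/-- CMA: the central functions of products. -/
def Stmt_CMA : Prop :=
  ∀ (L K K1 Q L1 Ω : Type) [Group L] [Fintype L] [Group K] [Fintype K] [Group K1]
    [Fintype K1] [Group Q] [Fintype Q] [Group L1] [Fintype L1] [Fintype Ω] [Nonempty Ω]
    (𝔐 : Ideal (integralClosure ℤ ℂ)) (ℓ : ℕ) [Fact ℓ.Prime], 𝔐.IsMaximal →
    (ℓ : integralClosure ℤ ℂ) ∈ 𝔐 → ∀ (π : L →* K) (μ : π.ker →* ℂˣ)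
    (φ : K →* Gam (Equiv.Perm Ω) Ω K1) (q : Q →* K1) (α : K1 →* MulAut Q)
    (ε : (Ω → Q) →* L) (μQ : q.ker →* ℂˣ) (π1 : L1 →* K1) (μ1 : π1.ker →* ℂˣ)
    (ι : Q →* L1) (M : Subgroup K) (M1 : Subgroup K1), WD π μ φ q α ε μQ →
    LD q α μQ π1 μ1 ι → MM ℓ π φ q ε M M1 → ∀ (S S' : Subgroup K1) (F F' : L1 → ℂ),
    EF π1 q.range M1 S F → EF π1 q.range M1 S' F' → Ov π1 μ1 F → Ov π1 μ1 F' →
    (∀ u : L1 → ℤ, CIv (q.range.comap π1) u → sc 𝔐 F u = sc 𝔐 F' u) →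
    ∀ ζ, ZT π φ π1 μ1 ε ι M ζ → ∀ (T T' : Subgroup K) (θ θ' : L → ℂ),
    IrrOn (AL π M T) θ → IrrOn (AL π M T') θ' → TP π φ π1 M F ζ θ →
    TP π φ π1 M F' ζ θ' → ∀ u : L → ℤ, CIv (M.comap π) u → sc 𝔐 θ u = sc 𝔐 θ' u

/-- CMB: the character of the quotient is determined by the central function. -/
def Stmt_CMB : Prop :=
  ∀ (L K K1 Q L1 Ω : Type) [Group L] [Fintype L] [Group K] [Fintype K] [Group K1]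
    [Fintype K1] [Group Q] [Fintype Q] [Group L1] [Fintype L1] [Fintype Ω] [Nonempty Ω]
    (𝔐 : Ideal (integralClosure ℤ ℂ)) (ℓ : ℕ) [Fact ℓ.Prime], 𝔐.IsMaximal →
    (ℓ : integralClosure ℤ ℂ) ∈ 𝔐 → ∀ (π : L →* K) (μ : π.ker →* ℂˣ)
    (φ : K →* Gam (Equiv.Perm Ω) Ω K1) (q : Q →* K1) (α : K1 →* MulAut Q)
    (ε : (Ω → Q) →* L) (μQ : q.ker →* ℂˣ) (π1 : L1 →* K1) (μ1 : π1.ker →* ℂˣ)
    (ι : Q →* L1) (M : Subgroup K) (M1 : Subgroup K1), WD π μ φ q α ε μQ →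
    LD q α μQ π1 μ1 ι → MM ℓ π φ q ε M M1 → ∀ (S S' : Subgroup K1) (F F' : L1 → ℂ),
    EF π1 q.range M1 S F → EF π1 q.range M1 S' F' → Ov π1 μ1 F → Ov π1 μ1 F' →
    SUP 𝔐 π1 q.range M1 F →
    (∀ u : L1 → ℤ, CIv (q.range.comap π1) u → sc 𝔐 F u = sc 𝔐 F' u) →
    ∀ ζ ζ', ZT π φ π1 μ1 ε ι M ζ → ZT π φ π1 μ1 ε ι M ζ' →
    ∀ (T T' : Subgroup K) (θ θ' : L → ℂ), IrrOn (AL π M T) θ → IrrOn (AL π M T') θ' →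
    TP π φ π1 M F ζ θ → TP π φ π1 M F' ζ' θ' →
    (∀ u : L → ℤ, CIv (M.comap π) u → SOn (M.comap π : Set L) u →
      sc 𝔐 θ u = sc 𝔐 θ' u) → ζ = ζ'

/-- ZIN: invariance. -/
def Stmt_ZIN : Prop :=
  ∀ (L K K1 Q L1 Ω : Type) [Group L] [Fintype L] [Group K] [Fintype K] [Group K1]
    [Fintype K1] [Group Q] [Fintype Q] [Group L1] [Fintype L1] [Fintype Ω] [Nonempty Ω]
    (ℓ : ℕ) [Fact ℓ.Prime] (π : L →* K) (μ : π.ker →* ℂˣ)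
    (φ : K →* Gam (Equiv.Perm Ω) Ω K1) (q : Q →* K1) (α : K1 →* MulAut Q)
    (ε : (Ω → Q) →* L) (μQ : q.ker →* ℂˣ) (π1 : L1 →* K1) (μ1 : π1.ker →* ℂˣ)
    (ι : Q →* L1) (M : Subgroup K) (M1 : Subgroup K1), WD π μ φ q α ε μQ →
    LD q α μQ π1 μ1 ι → MM ℓ π φ q ε M M1 → ∀ (σ : Finset (Subgroup K1)) (F : L1 → ℂ),
    ChN ℓ q.range σ → EF π1 q.range M1 (stb σ) F → Ov π1 μ1 F →
    q.range ⊔ stb σ = ⊤ → (∀ t, π1 t ∈ stb σ → ∀ x, F (t * x * t⁻¹) = F x) →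
    ∀ ζ, ZT π φ π1 μ1 ε ι M ζ → ∀ θ : L → ℂ, TP π φ π1 M F ζ θ →
    ((∀ t, π t ∈ stb (cstC φ (NN' π ε) σ) → ∀ x, θ (t * x * t⁻¹) = θ x) ↔
      ∀ y ∈ YY π φ π1, ∀ x, ζ (y * x * y⁻¹) = ζ x)

/-- DFT: the defects of products. -/
def Stmt_DFT : Prop :=
  ∀ (L K K1 Q L1 Ω : Type) [Group L] [Fintype L] [Group K] [Fintype K] [Group K1]
    [Fintype K1] [Group Q] [Fintype Q] [Group L1] [Fintype L1] [Fintype Ω] [Nonempty Ω]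
    (ℓ : ℕ) [Fact ℓ.Prime] (π : L →* K) (μ : π.ker →* ℂˣ)
    (φ : K →* Gam (Equiv.Perm Ω) Ω K1) (q : Q →* K1) (α : K1 →* MulAut Q)
    (ε : (Ω → Q) →* L) (μQ : q.ker →* ℂˣ) (π1 : L1 →* K1) (μ1 : π1.ker →* ℂˣ)
    (ι : Q →* L1) (M : Subgroup K) (M1 : Subgroup K1), WD π μ φ q α ε μQ →
    LD q α μQ π1 μ1 ι → MM ℓ π φ q ε M M1 → ∀ (σ : Finset (Subgroup K1)) (F : L1 → ℂ),
    ChN ℓ q.range σ → EF π1 q.range M1 (stb σ) F → Ov π1 μ1 F → ∀ ζ,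
    ZT π φ π1 μ1 ε ι M ζ → ∀ θ : L → ℂ, TP π φ π1 M F ζ θ →
    Nat.card ↥(M ⊓ stb (cstC φ (NN' π ε) σ)) * Nat.card q.range ^ Fintype.card Ω =
      Nat.card M * Nat.card ↥(q.range ⊓ stb σ) ^ Fintype.card Ω ∧
    ∀ n : ℕ, HasDefect ℓ (fun s : AL π M (stb (cstC φ (NN' π ε) σ)) => θ s) n ↔
      ∃ n1, HasDefect ℓ (fun s : AL π1 M1 (stb σ) => F s) n1 ∧
        n + Fintype.card Ω * padicValNat ℓ (Nat.card π1.ker) =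
          Fintype.card Ω * n1 + padicValNat ℓ (Nat.card π.ker)

/-- PSI: conjugacy of products. -/
def Stmt_PSI : Prop :=
  ∀ (L K K1 Q L1 Ω : Type) [Group L] [Fintype L] [Group K] [Fintype K] [Group K1]
    [Fintype K1] [Group Q] [Fintype Q] [Group L1] [Fintype L1] [Fintype Ω] [Nonempty Ω]
    (𝔐 : Ideal (integralClosure ℤ ℂ)) (ℓ : ℕ) [Fact ℓ.Prime], 𝔐.IsMaximal →
    (ℓ : integralClosure ℤ ℂ) ∈ 𝔐 → ∀ (π : L →* K) (μ : π.ker →* ℂˣ)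
    (φ : K →* Gam (Equiv.Perm Ω) Ω K1) (q : Q →* K1) (α : K1 →* MulAut Q)
    (ε : (Ω → Q) →* L) (μQ : q.ker →* ℂˣ) (π1 : L1 →* K1) (μ1 : π1.ker →* ℂˣ)
    (ι : Q →* L1) (M : Subgroup K) (M1 : Subgroup K1) (σr : Finset (Subgroup K1))
    (Fr : L1 → ℂ) (ζ : L × Gam (Equiv.Perm Ω) Ω L1 → ℂ),
    RF 𝔐 ℓ π μ φ q α ε μQ π1 μ1 ι M M1 σr Fr ζ →
    ∀ (σ σ' : Finset (Subgroup K1)) (F F' : L1 → ℂ) (θ θ' : L → ℂ), ChN ℓ q.range σ →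
    ChN ℓ q.range σ' → q.range ⊔ stb σ = ⊤ → q.range ⊔ stb σ' = ⊤ →
    EF π1 q.range M1 (stb σ) F → EF π1 q.range M1 (stb σ') F' →
    Ov π1 μ1 F → Ov π1 μ1 F' →
    (∀ u : L1 → ℤ, CIv (q.range.comap π1) u → sc 𝔐 F u = sc 𝔐 Fr u) →
    (∀ u : L1 → ℤ, CIv (q.range.comap π1) u → sc 𝔐 F' u = sc 𝔐 Fr u) →
    TP π φ π1 M F ζ θ → TP π φ π1 M F' ζ θ' → ∀ n : Ω → Q,
    ((cjC (π (ε n)) (cstC φ (NN' π ε) σ) = cstC φ (NN' π ε) σ' ∧ cjF (ε n) θ = θ') ↔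
      ∀ o, cjC (q (n o)) σ = σ' ∧ cjF (ι (n o)) F = F') ∧
    ((stb (cstC φ (NN' π ε) σ)).map (MulAut.conj (π (ε n))).toMonoidHom =
        stb (cstC φ (NN' π ε) σ') → cjF (ε n) θ = θ' →
      ∀ o, (stb σ).map (MulAut.conj (q (n o))).toMonoidHom = stb σ' ∧
        cjF (ι (n o)) F = F')

/-! ### Pairs of the two levels -/

/-- RFE: existence of reference data. -/
def Stmt_RFE : Prop :=
  ∀ (L K K1 Q Ω : Type) [Group L] [Fintype L] [Group K] [Fintype K] [Group K1] [Fintype K1]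
    [Group Q] [Fintype Q] [Fintype Ω] [Nonempty Ω] (𝔐 : Ideal (integralClosure ℤ ℂ)) (ℓ : ℕ)
    [Fact ℓ.Prime], 𝔐.IsMaximal → (ℓ : integralClosure ℤ ℂ) ∈ 𝔐 → ∀ (π : L →* K)
    (μ : π.ker →* ℂˣ) (φ : K →* Gam (Equiv.Perm Ω) Ω K1) (q : Q →* K1) (α : K1 →* MulAut Q)
    (ε : (Ω → Q) →* L) (μQ : q.ker →* ℂˣ), WD π μ φ q α ε μQ →
    ∀ (M : Subgroup K) (M1 : Subgroup K1), MM ℓ π φ q ε M M1 →
    ∀ ω : L → (integralClosure ℤ ℂ) ⧸ 𝔐, STB 𝔐 π μ (NN' π ε) ω →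
    SPP 𝔐 π μ (NN' π ε) M ω → ∀ (σ : Finset (Subgroup K)) (θ : L → ℂ),
    ChN ℓ (NN' π ε) σ → Clo φ (NN' π ε) σ → BPs 𝔐 π μ M ω (stb σ) θ →
    ∃ (L1 : Type) (_ : Group L1) (_ : Fintype L1) (π1 : L1 →* K1) (μ1 : π1.ker →* ℂˣ)
      (ι : Q →* L1) (σr : Finset (Subgroup K1)) (Fr : L1 → ℂ)
      (ζ : L × Gam (Equiv.Perm Ω) Ω L1 → ℂ) (θr : L → ℂ),
      RF 𝔐 ℓ π μ φ q α ε μQ π1 μ1 ι M M1 σr Fr ζ ∧
      BPs 𝔐 π μ M ω (stb (cstC φ (NN' π ε) σr)) θr ∧ TP π φ π1 M Fr ζ θr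

/-- RSC: the pairs of `L1` in the block of the reference pair. -/
def Stmt_RSC : Prop :=
  ∀ (L K K1 Q L1 Ω : Type) [Group L] [Fintype L] [Group K] [Fintype K] [Group K1]
    [Fintype K1] [Group Q] [Fintype Q] [Group L1] [Fintype L1] [Fintype Ω] [Nonempty Ω]
    (𝔐 : Ideal (integralClosure ℤ ℂ)) (ℓ : ℕ) [Fact ℓ.Prime], 𝔐.IsMaximal →
    (ℓ : integralClosure ℤ ℂ) ∈ 𝔐 → ∀ (π : L →* K) (μ : π.ker →* ℂˣ)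
    (φ : K →* Gam (Equiv.Perm Ω) Ω K1) (q : Q →* K1) (α : K1 →* MulAut Q)
    (ε : (Ω → Q) →* L) (μQ : q.ker →* ℂˣ) (π1 : L1 →* K1) (μ1 : π1.ker →* ℂˣ)
    (ι : Q →* L1) (M : Subgroup K) (M1 : Subgroup K1) (σr : Finset (Subgroup K1))
    (Fr : L1 → ℂ) (ζ : L × Gam (Equiv.Perm Ω) Ω L1 → ℂ),
    RF 𝔐 ℓ π μ φ q α ε μQ π1 μ1 ι M M1 σr Fr ζ →
    BPs 𝔐 π1 μ1 M1 (cg 𝔐 Fr) (stb σr) Fr ∧
    ∀ (σ : Finset (Subgroup K1)) (F : L1 → ℂ), ChN ℓ M1 σ →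
      BPs 𝔐 π1 μ1 M1 (cg 𝔐 Fr) (stb σ) F → ChN ℓ q.range σ ∧ EF π1 q.range M1 (stb σ) F ∧
        q.range ⊔ stb σ = ⊤ ∧
        ∀ u : L1 → ℤ, CIv (q.range.comap π1) u → sc 𝔐 F u = sc 𝔐 Fr u

/-- UPP: the pairs of `L` which belong to the pairs of `L1`. -/
def Stmt_UPP : Prop :=
  ∀ (L K K1 Q L1 Ω : Type) [Group L] [Fintype L] [Group K] [Fintype K] [Group K1]
    [Fintype K1] [Group Q] [Fintype Q] [Group L1] [Fintype L1] [Fintype Ω] [Nonempty Ω]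
    (𝔐 : Ideal (integralClosure ℤ ℂ)) (ℓ : ℕ) [Fact ℓ.Prime], 𝔐.IsMaximal →
    (ℓ : integralClosure ℤ ℂ) ∈ 𝔐 → ∀ (π : L →* K) (μ : π.ker →* ℂˣ)
    (φ : K →* Gam (Equiv.Perm Ω) Ω K1) (q : Q →* K1) (α : K1 →* MulAut Q)
    (ε : (Ω → Q) →* L) (μQ : q.ker →* ℂˣ) (π1 : L1 →* K1) (μ1 : π1.ker →* ℂˣ)
    (ι : Q →* L1) (M : Subgroup K) (M1 : Subgroup K1) (σr : Finset (Subgroup K1))
    (Fr : L1 → ℂ) (ζ : L × Gam (Equiv.Perm Ω) Ω L1 → ℂ),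
    RF 𝔐 ℓ π μ φ q α ε μQ π1 μ1 ι M M1 σr Fr ζ →
    ∀ (ω : L → (integralClosure ℤ ℂ) ⧸ 𝔐) (θr : L → ℂ), TP π φ π1 M Fr ζ θr →
    BPs 𝔐 π μ M ω (stb (cstC φ (NN' π ε) σr)) θr →
    ∀ (σ : Finset (Subgroup K1)) (F : L1 → ℂ), ChN ℓ M1 σ →
    BPs 𝔐 π1 μ1 M1 (cg 𝔐 Fr) (stb σ) F →
    ∃ θ : L → ℂ, TP π φ π1 M F ζ θ ∧ BPs 𝔐 π μ M ω (stb (cstC φ (NN' π ε) σ)) θ

/-- DWN: every pair of `L` of a closed chain is conjugate to a pair which belongs to a pair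
of `L1`. -/
def Stmt_DWN : Prop :=
  ∀ (L K K1 Q L1 Ω : Type) [Group L] [Fintype L] [Group K] [Fintype K] [Group K1]
    [Fintype K1] [Group Q] [Fintype Q] [Group L1] [Fintype L1] [Fintype Ω] [Nonempty Ω]
    (𝔐 : Ideal (integralClosure ℤ ℂ)) (ℓ : ℕ) [Fact ℓ.Prime], 𝔐.IsMaximal →
    (ℓ : integralClosure ℤ ℂ) ∈ 𝔐 → ∀ (π : L →* K) (μ : π.ker →* ℂˣ)
    (φ : K →* Gam (Equiv.Perm Ω) Ω K1) (q : Q →* K1) (α : K1 →* MulAut Q)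
    (ε : (Ω → Q) →* L) (μQ : q.ker →* ℂˣ) (π1 : L1 →* K1) (μ1 : π1.ker →* ℂˣ)
    (ι : Q →* L1) (M : Subgroup K) (M1 : Subgroup K1) (σr : Finset (Subgroup K1))
    (Fr : L1 → ℂ) (ζ : L × Gam (Equiv.Perm Ω) Ω L1 → ℂ),
    RF 𝔐 ℓ π μ φ q α ε μQ π1 μ1 ι M M1 σr Fr ζ →
    ∀ (ω : L → (integralClosure ℤ ℂ) ⧸ 𝔐) (θr : L → ℂ), TP π φ π1 M Fr ζ θr →
    BPs 𝔐 π μ M ω (stb (cstC φ (NN' π ε) σr)) θr → STB 𝔐 π μ (NN' π ε) ω →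
    SPP 𝔐 π μ (NN' π ε) M ω → ∀ (σ : Finset (Subgroup K)) (θ : L → ℂ),
    ChN ℓ (NN' π ε) σ → Clo φ (NN' π ε) σ → BPs 𝔐 π μ M ω (stb σ) θ →
    ∃ (n : Ω → Q) (σ1 : Finset (Subgroup K1)) (F1 : L1 → ℂ), ChN ℓ M1 σ1 ∧
      BPs 𝔐 π1 μ1 M1 (cg 𝔐 Fr) (stb σ1) F1 ∧
      σ = cjC (π (ε n)) (cstC φ (NN' π ε) σ1) ∧ TP π φ π1 M F1 ζ (cjF (ε n)⁻¹ θ)

/-- POL: no character of `L1` in the block of the reference pair has minimal defect. -/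
def Stmt_POL : Prop :=
  ∀ (L K K1 Q L1 Ω : Type) [Group L] [Fintype L] [Group K] [Fintype K] [Group K1]
    [Fintype K1] [Group Q] [Fintype Q] [Group L1] [Fintype L1] [Fintype Ω] [Nonempty Ω]
    (𝔐 : Ideal (integralClosure ℤ ℂ)) (ℓ : ℕ) [Fact ℓ.Prime], 𝔐.IsMaximal →
    (ℓ : integralClosure ℤ ℂ) ∈ 𝔐 → ∀ (π : L →* K) (μ : π.ker →* ℂˣ)
    (φ : K →* Gam (Equiv.Perm Ω) Ω K1) (q : Q →* K1) (α : K1 →* MulAut Q)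
    (ε : (Ω → Q) →* L) (μQ : q.ker →* ℂˣ) (π1 : L1 →* K1) (μ1 : π1.ker →* ℂˣ)
    (ι : Q →* L1) (M : Subgroup K) (M1 : Subgroup K1) (σr : Finset (Subgroup K1))
    (Fr : L1 → ℂ) (ζ : L × Gam (Equiv.Perm Ω) Ω L1 → ℂ),
    RF 𝔐 ℓ π μ φ q α ε μQ π1 μ1 ι M M1 σr Fr ζ →
    ∀ (ω : L → (integralClosure ℤ ℂ) ⧸ 𝔐) (θr : L → ℂ), TP π φ π1 M Fr ζ θr →
    BPs 𝔐 π μ M ω (stb (cstC φ (NN' π ε) σr)) θr → STB 𝔐 π μ (NN' π ε) ω →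
    SPP 𝔐 π μ (NN' π ε) M ω → Pos 𝔐 ℓ π μ M ω → Pos 𝔐 ℓ π1 μ1 M1 (cg 𝔐 Fr)

/-! ### The relations -/

/-- LVT: the relations for the smaller group. -/
def Stmt_LVT (Cl : ∀ (Y : Type) [Group Y], Prop) : Prop :=
  ∀ (L K H : Type) [Group L] [Fintype L] [Group K] [Fintype K] [Group H] [Fintype H]
    (𝔐 : Ideal (integralClosure ℤ ℂ)) (ℓ : ℕ) [Fact ℓ.Prime], 𝔐.IsMaximal →
    (ℓ : integralClosure ℤ ℂ) ∈ 𝔐 → ∀ π : L →* K, Function.Surjective π →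
    π.ker ≤ Subgroup.center L → ∀ (μ : π.ker →* ℂˣ) (M : Subgroup K) [M.Normal]
    (p : K →* H), Function.Surjective p → (∀ k, p k = 1 ↔ k ∈ M) → ∀ P : Subgroup H,
    SylAb ℓ P → Cl K → HR Cl ℓ (Nat.card K) → ∀ ω : L → (integralClosure ℤ ℂ) ⧸ 𝔐,
    Pos 𝔐 ℓ π μ M ω →
    ∃ (W : Type) (_ : Group W) (_ : Fintype W) (πW : W →* H)
      (ν : Subgroup K → (L → ℂ) → (πW.ker →* ℂˣ)), Function.Surjective πW ∧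
      πW.ker ≤ Subgroup.center W ∧
      (∀ σ f, ChN ℓ M σ → BPs 𝔐 π μ M ω (stb σ) f →
        EDb π p M πW (stb σ) f (ν (stb σ) f)) ∧
      (∀ l, π l ∈ M → ∀ S f,
        ν (S.map (MulAut.conj (π l)).toMonoidHom) (cjF l f) = ν S f) ∧
      T2X 𝔐 ℓ π μ M ω πW P (ChN ℓ M) ν

/-- TIE: the tensor induced character. -/
def Stmt_TIE : Prop :=
  ∀ (L K H K1 H1 Q L1 W1 Ω : Type) [Group L] [Fintype L] [Group K] [Fintype K] [Group H]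
    [Group K1] [Fintype K1] [Group H1] [Group Q] [Fintype Q] [Group L1] [Fintype L1]
    [Group W1] [Fintype W1] [Fintype Ω] (ℓ : ℕ) (π : L →* K) (μ : π.ker →* ℂˣ)
    (φ : K →* Gam (Equiv.Perm Ω) Ω K1) (q : Q →* K1) (α : K1 →* MulAut Q)
    (ε : (Ω → Q) →* L) (μQ : q.ker →* ℂˣ) (π1 : L1 →* K1) (μ1 : π1.ker →* ℂˣ)
    (ι : Q →* L1) (M : Subgroup K) (M1 : Subgroup K1), WD π μ φ q α ε μQ →
    LD q α μQ π1 μ1 ι → MM ℓ π φ q ε M M1 → ∀ p1 : K1 →* H1, Function.Surjective p1 →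
    (∀ k, p1 k = 1 ↔ k ∈ M1) → ∀ πW1 : W1 →* H1, Function.Surjective πW1 →
    πW1.ker ≤ Subgroup.center W1 → ∀ (S1 : Subgroup K1) (F : L1 → ℂ)
      (ν1 : πW1.ker →* ℂˣ), IrrOn (AL π1 M1 S1) F → Ov π1 μ1 F →
      EDb π1 p1 M1 πW1 S1 F ν1 →
    ∃ E : Gam (Equiv.Perm Ω) Ω L1 × Gam (Equiv.Perm Ω) Ω W1 → ℂ,
      (∀ (B : Type) [Group B] [Finite B]
        (h : B →* Gam (Equiv.Perm Ω) Ω L1 × Gam (Equiv.Perm Ω) Ω W1),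
        (∀ b, gmap Ω (p1.comp π1) (h b).1 = gmap Ω πW1 (h b).2 ∧
          ∀ o, π1 ((h b).1.left o) ∈ S1) → IsChr (fun b => E (h b))) ∧
      (∀ g : Gam (Equiv.Perm Ω) Ω L1, g.right = 1 → (∀ o, π1 (g.left o) ∈ M1 ⊓ S1) →
        E (g, 1) = ∏ o, F (g.left o)) ∧
      ∀ (z : Ω → π1.ker) (a : Ω → πW1.ker) (g : Gam (Equiv.Perm Ω) Ω L1)
        (w : Gam (Equiv.Perm Ω) Ω W1), gmap Ω (p1.comp π1) g = gmap Ω πW1 w →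
        (∀ o, π1 (g.left o) ∈ S1) →
        (∏ o, ((ν1 (a o) : ℂˣ) : ℂ)) *
          E (gin (fun o => (z o : L1)) * g, gin (fun o => (a o : W1)) * w) =
        (∏ o, ((μ1 (z o) : ℂˣ) : ℂ)) * E (g, w)

/-- EDK: the extensions of the products. -/
def Stmt_EDK : Prop :=
  ∀ (L K H K1 H1 Q L1 W1 Ω : Type) [Group L] [Fintype L] [Group K] [Fintype K] [Group H]
    [Fintype H] [Group K1] [Fintype K1] [Group H1] [Fintype H1] [Group Q] [Fintype Q]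
    [Group L1] [Fintype L1] [Group W1] [Fintype W1] [Fintype Ω] [Nonempty Ω]
    (𝔐 : Ideal (integralClosure ℤ ℂ)) (ℓ : ℕ) [Fact ℓ.Prime], 𝔐.IsMaximal →
    (ℓ : integralClosure ℤ ℂ) ∈ 𝔐 → ∀ (π : L →* K) (μ : π.ker →* ℂˣ)
    (φ : K →* Gam (Equiv.Perm Ω) Ω K1) (q : Q →* K1) (α : K1 →* MulAut Q)
    (ε : (Ω → Q) →* L) (μQ : q.ker →* ℂˣ) (π1 : L1 →* K1) (μ1 : π1.ker →* ℂˣ)
    (ι : Q →* L1) (M : Subgroup K) (M1 : Subgroup K1) (σr : Finset (Subgroup K1))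
    (Fr : L1 → ℂ) (ζ : L × Gam (Equiv.Perm Ω) Ω L1 → ℂ),
    RF 𝔐 ℓ π μ φ q α ε μQ π1 μ1 ι M M1 σr Fr ζ → ∀ p : K →* H, Function.Surjective p →
    (∀ k, p k = 1 ↔ k ∈ M) → ∀ p1 : K1 →* H1, Function.Surjective p1 →
    (∀ k, p1 k = 1 ↔ k ∈ M1) → ∀ πW1 : W1 →* H1, Function.Surjective πW1 →
    πW1.ker ≤ Subgroup.center W1 →
    ∃ (W : Type) (_ : Group W) (_ : Fintype W) (πW : W →* H)
      (ψ : W →* Gam (Equiv.Perm Ω) Ω W1) (μ0 : πW.ker →* ℂˣ), Function.Surjective πW ∧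
      (∀ w k, πW w = p k → gmap Ω πW1 (ψ w) = gmap Ω p1 (φ k)) ∧
      (∀ g k, gmap Ω πW1 g = gmap Ω p1 (φ k) → ∃ w, πW w = p k ∧ ψ w = g) ∧
      ∀ (σ : Finset (Subgroup K1)) (F : L1 → ℂ) (ν1 : πW1.ker →* ℂˣ) (θ : L → ℂ),
        ChN ℓ q.range σ → EF π1 q.range M1 (stb σ) F → Ov π1 μ1 F →
        EDb π1 p1 M1 πW1 (stb σ) F ν1 → TP π φ π1 M F ζ θ →
        ∃ ν : πW.ker →* ℂˣ, (∀ (a : πW.ker) (h : ∀ o, (ψ (a : W)).left o ∈ πW1.ker),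
            ν a = μ0 a * ∏ o, ν1 ⟨(ψ (a : W)).left o, h o⟩) ∧
          EDb π p M πW (stb (cstC φ (NN' π ε) σ)) θ ν

/-- TQC: the linear characters of the pairs of the closed chains. -/
def Stmt_TQC : Prop :=
  ∀ (L K K1 Q L1 Ω : Type) [Group L] [Fintype L] [Group K] [Fintype K] [Group K1]
    [Fintype K1] [Group Q] [Fintype Q] [Group L1] [Fintype L1] [Fintype Ω] [Nonempty Ω]
    (𝔐 : Ideal (integralClosure ℤ ℂ)) (ℓ : ℕ) [Fact ℓ.Prime], 𝔐.IsMaximal →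
    (ℓ : integralClosure ℤ ℂ) ∈ 𝔐 → ∀ (π : L →* K) (μ : π.ker →* ℂˣ)
    (φ : K →* Gam (Equiv.Perm Ω) Ω K1) (q : Q →* K1) (α : K1 →* MulAut Q)
    (ε : (Ω → Q) →* L) (μQ : q.ker →* ℂˣ) (π1 : L1 →* K1) (μ1 : π1.ker →* ℂˣ)
    (ι : Q →* L1) (M : Subgroup K) (M1 : Subgroup K1) (σr : Finset (Subgroup K1))
    (Fr : L1 → ℂ) (ζ : L × Gam (Equiv.Perm Ω) Ω L1 → ℂ),
    RF 𝔐 ℓ π μ φ q α ε μQ π1 μ1 ι M M1 σr Fr ζ →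
    ∀ (X : Type) (ξ : Subgroup K1 → (L1 → ℂ) → X) (ξ0 : Subgroup K → (L → ℂ) → X),
    (∀ l, π1 l ∈ M1 → ∀ S f,
      ξ (S.map (MulAut.conj (π1 l)).toMonoidHom) (cjF l f) = ξ S f) →
    ∃ ξ' : Subgroup K → (L → ℂ) → X,
      (∀ (σ : Finset (Subgroup K1)) (F : L1 → ℂ) (θ : L → ℂ) (n : Ω → Q), ChN ℓ M1 σ →
        BPs 𝔐 π1 μ1 M1 (cg 𝔐 Fr) (stb σ) F → TP π φ π1 M F ζ θ →
        ξ' ((stb (cstC φ (NN' π ε) σ)).map (MulAut.conj (π (ε n))).toMonoidHom)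
          (cjF (ε n) θ) = ξ (stb σ) F) ∧
      ∀ S f, (∃ (σ : Finset (Subgroup K1)) (F : L1 → ℂ) (θ : L → ℂ) (n : Ω → Q),
        ChN ℓ M1 σ ∧ BPs 𝔐 π1 μ1 M1 (cg 𝔐 Fr) (stb σ) F ∧ TP π φ π1 M F ζ θ ∧
        S = (stb (cstC φ (NN' π ε) σ)).map (MulAut.conj (π (ε n))).toMonoidHom ∧
        f = cjF (ε n) θ) ∨ ξ' S f = ξ0 S f

/-- TQB: the relations for the pairs of the closed chains. -/
def Stmt_TQB : Prop :=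
  ∀ (L K H K1 H1 Q L1 W W1 Ω : Type) [Group L] [Fintype L] [Group K] [Fintype K] [Group H]
    [Fintype H] [Group K1] [Fintype K1] [Group H1] [Fintype H1] [Group Q] [Fintype Q]
    [Group L1] [Fintype L1] [Group W] [Fintype W] [Group W1] [Fintype W1] [Fintype Ω]
    [Nonempty Ω] (𝔐 : Ideal (integralClosure ℤ ℂ)) (ℓ : ℕ) [Fact ℓ.Prime], 𝔐.IsMaximal →
    (ℓ : integralClosure ℤ ℂ) ∈ 𝔐 → ∀ (π : L →* K) (μ : π.ker →* ℂˣ)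
    (φ : K →* Gam (Equiv.Perm Ω) Ω K1) (q : Q →* K1) (α : K1 →* MulAut Q)
    (ε : (Ω → Q) →* L) (μQ : q.ker →* ℂˣ) (π1 : L1 →* K1) (μ1 : π1.ker →* ℂˣ)
    (ι : Q →* L1) (M : Subgroup K) (M1 : Subgroup K1) (σr : Finset (Subgroup K1))
    (Fr : L1 → ℂ) (ζ : L × Gam (Equiv.Perm Ω) Ω L1 → ℂ),
    RF 𝔐 ℓ π μ φ q α ε μQ π1 μ1 ι M M1 σr Fr ζ →
    ∀ (ω : L → (integralClosure ℤ ℂ) ⧸ 𝔐) (θr : L → ℂ), TP π φ π1 M Fr ζ θr →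
    BPs 𝔐 π μ M ω (stb (cstC φ (NN' π ε) σr)) θr → STB 𝔐 π μ (NN' π ε) ω →
    SPP 𝔐 π μ (NN' π ε) M ω →
    ∀ (p : K →* H), Function.Surjective p → (∀ k, p k = 1 ↔ k ∈ M) → ∀ P : Subgroup H,
    SylAb ℓ P → ∀ p1 : K1 →* H1, Function.Surjective p1 → (∀ k, p1 k = 1 ↔ k ∈ M1) →
    ∀ P1 : Subgroup H1, SylAb ℓ P1 → ∀ πW1 : W1 →* H1, Function.Surjective πW1 →
    πW1.ker ≤ Subgroup.center W1 → ∀ ν1 : Subgroup K1 → (L1 → ℂ) → (πW1.ker →* ℂˣ),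
    T2X 𝔐 ℓ π1 μ1 M1 (cg 𝔐 Fr) πW1 P1 (ChN ℓ M1) ν1 → ∀ (πW : W →* H)
    (ψ : W →* Gam (Equiv.Perm Ω) Ω W1) (μ0 : πW.ker →* ℂˣ), Function.Surjective πW →
    (∀ w k, πW w = p k → gmap Ω πW1 (ψ w) = gmap Ω p1 (φ k)) →
    (∀ g k, gmap Ω πW1 g = gmap Ω p1 (φ k) → ∃ w, πW w = p k ∧ ψ w = g) →
    ∀ ν : Subgroup K → (L → ℂ) → (πW.ker →* ℂˣ),
    (∀ (σ : Finset (Subgroup K1)) (F : L1 → ℂ) (θ : L → ℂ) (n : Ω → Q), ChN ℓ M1 σ →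
      BPs 𝔐 π1 μ1 M1 (cg 𝔐 Fr) (stb σ) F → TP π φ π1 M F ζ θ →
      ∀ (a : πW.ker) (h : ∀ o, (ψ (a : W)).left o ∈ πW1.ker),
        ν ((stb (cstC φ (NN' π ε) σ)).map (MulAut.conj (π (ε n))).toMonoidHom)
          (cjF (ε n) θ) a = μ0 a * ∏ o, ν1 (stb σ) F ⟨(ψ (a : W)).left o, h o⟩) →
    T2X 𝔐 ℓ π μ M ω πW P (fun σ => ChN ℓ (NN' π ε) σ ∧ Clo φ (NN' π ε) σ) ν

/-- VCL: the vertex group belongs to the class. -/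
def Stmt_VCL (Cl : ∀ (Y : Type) [Group Y], Prop) : Prop :=
  GC Cl → ∀ (K K1 Q Ω : Type) [Group K] [Finite K] [Group K1] [Finite K1] [Group Q]
    [Nonempty Ω] (φ : K →* Gam (Equiv.Perm Ω) Ω K1) (q : Q →* K1),
    (∀ o b, ∃ k, (φ k).right o = o ∧ (φ k).left o = b) → Cl K → Cl K1 ∧ Cl q.range

/-- TQA: the relations for the larger group. -/
def Stmt_TQA (Cl : ∀ (Y : Type) [Group Y], Prop) : Prop :=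
  ∀ (L K H K1 Q Ω : Type) [Group L] [Fintype L] [Group K] [Fintype K] [Group H] [Fintype H]
    [Group K1] [Fintype K1] [Group Q] [Fintype Q] [Fintype Ω] [Nonempty Ω]
    (𝔐 : Ideal (integralClosure ℤ ℂ)) (ℓ : ℕ) [Fact ℓ.Prime], 𝔐.IsMaximal →
    (ℓ : integralClosure ℤ ℂ) ∈ 𝔐 → ∀ (π : L →* K)
    (μ : π.ker →* ℂˣ) (φ : K →* Gam (Equiv.Perm Ω) Ω K1) (q : Q →* K1) (α : K1 →* MulAut Q)
    (ε : (Ω → Q) →* L) (μQ : q.ker →* ℂˣ), WD π μ φ q α ε μQ →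
    ∀ (M : Subgroup K) (M1 : Subgroup K1), MM ℓ π φ q ε M M1 → Cl K1 →
    HR Cl ℓ (Nat.card K1) →
    ∀ p : K →* H, Function.Surjective p → (∀ k, p k = 1 ↔ k ∈ M) → ∀ P : Subgroup H,
    SylAb ℓ P → ∀ ω : L → (integralClosure ℤ ℂ) ⧸ 𝔐, Pos 𝔐 ℓ π μ M ω →
    STB 𝔐 π μ (NN' π ε) ω → SPP 𝔐 π μ (NN' π ε) M ω →
    ∃ (W : Type) (_ : Group W) (_ : Fintype W) (πW : W →* H)
      (ν : Subgroup K → (L → ℂ) → (πW.ker →* ℂˣ)), Function.Surjective πW ∧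
      (∀ σ f, ChN ℓ M σ → BPs 𝔐 π μ M ω (stb σ) f →
        EDb π p M πW (stb σ) f (ν (stb σ) f)) ∧
      T2X 𝔐 ℓ π μ M ω πW P (fun σ => ChN ℓ (NN' π ε) σ ∧ Clo φ (NN' π ε) σ) ν

/-- TEN: the theorem. -/
def Stmt_TEN (Cl : ∀ (Y : Type) [Group Y], Prop) : Prop :=
  ∀ (L K H : Type) [Group L] [Fintype L] [Group K] [Fintype K] [Group H] [Fintype H]
    (𝔐 : Ideal (integralClosure ℤ ℂ)) (ℓ : ℕ) [Fact ℓ.Prime], 𝔐.IsMaximal →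
    (ℓ : integralClosure ℤ ℂ) ∈ 𝔐 → ∀ π : L →* K, Function.Surjective π →
    π.ker ≤ Subgroup.center L → ∀ μ : π.ker →* ℂˣ, Function.Injective μ →
    pCore ℓ K = ⊥ → GC Cl → Cl K → (∀ n < Nat.card K, HR Cl ℓ n) →
    ∀ (M : Subgroup K) [M.Normal]
    (p : K →* H), Function.Surjective p → (∀ k, p k = 1 ↔ k ∈ M) → ∀ P : Subgroup H,
    SylAb ℓ P → ∀ ω : L → (integralClosure ℤ ℂ) ⧸ 𝔐, Pos 𝔐 ℓ π μ M ω →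
    ∀ (N : Subgroup K) [N.Normal], N ≤ M → ¬ ℓ ∣ N.relIndex M → N ≠ ⊥ →
    (∀ N' : Subgroup K, N'.Normal → N' ≤ N → N' = ⊥ ∨ N' = N) →
    (∃ x ∈ N, ∃ y ∈ N, x * y ≠ y * x) → (∀ k : K, (∀ x ∈ N, k * x = x * k) → k = 1) →
    ¬ IsSimpleGroup N → STB 𝔐 π μ N ω → SPP 𝔐 π μ N M ω →
    ∀ d : ℕ, DKU 𝔐 ℓ d π μ M ω = 0

end Pool.Agent.DPG
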