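import Mathlib
import Pool.Agent.DPG.StmtsB

/-!
# CLS: the invariant pairs of closed chains
-/

set_option autoImplicit false

namespace Pool.Agent.DPG

open Pool.Agent.DP Pool.Agent.DPC Pool.Agent.DPM Pool.Agent.DPN Pool.Agent.DPF
  Pool.Agent.Lib_helper13 Representation
open Pool.Agent.Lib_helper13.Dade (pCore DadeHolds dadeSum)

namespace CLS

/-! ### Characters of subgroups -/

section Irr

variable {Q : Type} [Group Q]

theorem irrOn_conj {S : Subgroup Q} {f : Q → ℂ} (hf : IrrOn S f) {s : Q} (hs : s ∈ S) (x : Q) :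
    f (s * x * s⁻¹) = f x := by
  by_cases hx : x ∈ S
  · exact hf.1.conj_eq (⟨s, hs⟩ : S) ⟨x, hx⟩
  · rw [hf.2 x hx, hf.2]
    intro h
    apply hx
    have h1 : x = s⁻¹ * (s * x * s⁻¹) * s := by group
    rw [h1]
    exact S.mul_mem (S.mul_mem (S.inv_mem hs) h) hs

theorem irrOn_comp [Finite Q] (e : Q ≃* Q) {S S' : Subgroup Q} (h : ∀ x, x ∈ S ↔ e x ∈ S')
    {f : Q → ℂ} (hf : IrrOn S' f) : IrrOn S (fun x => f (e x)) := by
  have := Fintype.ofFinite S
  have := Fintype.ofFinite S'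
  have h1 : S.map e.toMonoidHom = S' := by
    ext y
    rw [Subgroup.mem_map]
    constructor
    · rintro ⟨x, hx, rfl⟩
      exact (h x).mp hx
    · intro hy
      refine ⟨e.symm y, (h _).mpr ?_, e.apply_symm_apply y⟩
      rw [e.apply_symm_apply]
      exact hy
  refine ⟨?_, fun x hx => hf.2 _ fun h2 => hx ((h x).mpr h2)⟩
  exact hf.1.comp_mulEquiv ((e.subgroupMap S).trans (MulEquiv.subgroupCongr h1))

end Irr

/-! ### Coordinates -/

section Crd

variable {K K1 Ω : Type} [Group K] [Group K1] (φ : K →* Gam (Equiv.Perm Ω) Ω K1)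

theorem left_mul (a b : K) (o : Ω) :
    (φ (a * b)).left o = (φ a).left o * (φ b).left ((φ a).right⁻¹ • o) := by
  rw [map_mul]
  rfl

theorem right_mul (a b : K) : (φ (a * b)).right = (φ a).right * (φ b).right := by
  rw [map_mul]
  rfl

theorem left_inv (a : K) (o : Ω) :
    (φ a⁻¹).left o = ((φ a).left ((φ a).right • o))⁻¹ := by
  rw [map_inv]
  change ((φ a).left ((φ a).right⁻¹⁻¹ • o))⁻¹ = _
  rw [inv_inv]

theorem right_inv (a : K) : (φ a⁻¹).right = (φ a).right⁻¹ := by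
  rw [map_inv]
  rfl

theorem conj_left (t m : K) (hm : (φ m).right = 1) (o : Ω) :
    (φ (t * m * t⁻¹)).left o =
      (φ t).left o * (φ m).left ((φ t).right⁻¹ • o) * ((φ t).left o)⁻¹ := by
  rw [left_mul, left_mul, left_inv, right_mul, hm, mul_one, smul_inv_smul]

theorem conj_right (t m : K) (hm : (φ m).right = 1) : (φ (t * m * t⁻¹)).right = 1 := by
  rw [right_mul, right_mul, hm, mul_one, right_inv, mul_inv_cancel]

theorem conj_left' (t m : K) (hm : (φ m).right = 1) (w : Ω) :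
    (φ (t * m * t⁻¹)).left ((φ t).right • w) =
      (φ t).left ((φ t).right • w) * (φ m).left w * ((φ t).left ((φ t).right • w))⁻¹ := by
  rw [conj_left φ t m hm, inv_smul_smul]

/-- The group of the coordinates of the elements of `D` which act trivially. -/
def crd (D : Subgroup K) (o : Ω) : Subgroup K1 where
  carrier := {b | ∃ d ∈ D, (φ d).right = 1 ∧ (φ d).left o = b}
  one_mem' := ⟨1, D.one_mem, by simp, by simp⟩
  mul_mem' := by
    rintro _ _ ⟨a, ha, ha', rfl⟩ ⟨b, hb, hb', rfl⟩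
    refine ⟨a * b, D.mul_mem ha hb, by rw [right_mul, ha', hb', mul_one], ?_⟩
    rw [left_mul, ha', inv_one, one_smul]
  inv_mem' := by
    rintro _ ⟨a, ha, ha', rfl⟩
    refine ⟨a⁻¹, D.inv_mem ha, by rw [right_inv, ha', inv_one], ?_⟩
    rw [left_inv, ha', one_smul]

variable {φ}

theorem mem_crd {D : Subgroup K} {o : Ω} {b : K1} :
    b ∈ crd φ D o ↔ ∃ d ∈ D, (φ d).right = 1 ∧ (φ d).left o = b := Iff.rfl

theorem crd_mono {D E : Subgroup K} (h : D ≤ E) (o : Ω) : crd φ D o ≤ crd φ E o := by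
  rintro _ ⟨a, ha, ha', rfl⟩
  exact ⟨a, h ha, ha', rfl⟩

theorem crd_conj {D : Subgroup K} {t : K} (ht : ∀ x, x ∈ D ↔ t * x * t⁻¹ ∈ D) (w : Ω) (b : K1) :
    b ∈ crd φ D w ↔ (φ t).left ((φ t).right • w) * b * ((φ t).left ((φ t).right • w))⁻¹ ∈
      crd φ D ((φ t).right • w) := by
  constructor
  · rintro ⟨d, hd, hd', rfl⟩
    exact ⟨t * d * t⁻¹, (ht d).mp hd, conj_right φ t d hd', conj_left' φ t d hd' w⟩
  · rintro ⟨c, hc, hc', h⟩
    have h1 : c = t * (t⁻¹ * c * t⁻¹⁻¹) * t⁻¹ := by group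
    have h2 : (φ (t⁻¹ * c * t⁻¹⁻¹)).right = 1 := conj_right φ t⁻¹ c hc'
    refine ⟨t⁻¹ * c * t⁻¹⁻¹, ?_, h2, ?_⟩
    · rw [ht, ← h1]
      exact hc
    · have h3 := conj_left' φ t _ h2 w
      rw [← h1, h] at h3
      exact (mul_left_cancel (mul_right_cancel h3)).symm

end Crd

/-! ### The structure -/

section Str

variable {L K K1 Q Ω : Type} [Group L] [Group K] [Group K1] [Group Q] [Fintype Ω]
  {π : L →* K} {μ : π.ker →* ℂˣ} {φ : K →* Gam (Equiv.Perm Ω) Ω K1} {q : Q →* K1}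
  {α : K1 →* MulAut Q} {ε : (Ω → Q) →* L} {μQ : q.ker →* ℂˣ}

theorem mem_N (h : WD π μ φ q α ε μQ) (k : K) :
    k ∈ NN' π ε ↔ (φ k).right = 1 ∧ ∀ o, (φ k).left o ∈ q.range := by
  constructor
  · rintro ⟨_, ⟨n, rfl⟩, rfl⟩
    rw [h.φε]
    exact ⟨rfl, fun o => ⟨n o, rfl⟩⟩
  · rintro ⟨h1, h2⟩
    choose n hn using h2
    refine ⟨ε n, ⟨n, rfl⟩, ?_⟩
    apply h.φi
    rw [h.φε]
    apply SemidirectProduct.ext
    · funext o
      exact hn o
    · exact h1.symm

/-- A closed member of a chain is given by its coordinates. -/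
theorem mem_closed {D : Subgroup K} (h : WD π μ φ q α ε μQ) (hD : D ≤ NN' π ε)
    (hcl : clN φ (NN' π ε) D ⊆ (D : Set K)) (x : K) :
    x ∈ D ↔ x ∈ NN' π ε ∧ ∀ o, (φ x).left o ∈ crd φ D o := by
  constructor
  · intro hx
    exact ⟨hD hx, fun o => ⟨x, hx, ((mem_N h x).mp (hD hx)).1, rfl⟩⟩
  · rintro ⟨h1, h2⟩
    apply hcl
    refine ⟨h1, fun o => ?_⟩
    obtain ⟨d, hd, -, hd'⟩ := h2 o
    exact ⟨d, hd, hd'⟩

/-- The elements of `N` in the stabilizer of a closed chain. -/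
theorem mem_stb_N (h : WD π μ φ q α ε μQ) (hn : (NN' π ε).Normal) {σ : Finset (Subgroup K)}
    (hσ : ∀ D ∈ σ, D ≤ NN' π ε) (hcl : Clo φ (NN' π ε) σ) {k : K} (hk : k ∈ NN' π ε) :
    k ∈ stb σ ↔ ∀ o, ∀ D ∈ σ, ∀ b, b ∈ crd φ D o ↔
      (φ k).left o * b * ((φ k).left o)⁻¹ ∈ crd φ D o := by
  have hk1 := ((mem_N h k).mp hk).1
  constructor
  · intro hs o D hD b
    have h1 := crd_conj (φ := φ) (mem_stb'.mp hs D hD) o b
    rw [hk1, one_smul] at h1
    exact h1
  · intro hs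
    rw [mem_stb']
    intro D hD x
    rw [mem_closed h (hσ D hD) (hcl D hD), mem_closed h (hσ D hD) (hcl D hD)]
    have h1 : x ∈ NN' π ε ↔ k * x * k⁻¹ ∈ NN' π ε := by
      constructor
      · intro hx
        exact hn.conj_mem x hx k
      · intro hx
        have h2 : x = k⁻¹ * (k * x * k⁻¹) * k⁻¹⁻¹ := by group
        rw [h2]
        exact hn.conj_mem _ hx k⁻¹
    rw [← h1]
    refine and_congr_right fun hx => forall_congr' fun o => ?_
    rw [conj_left φ k x ((mem_N h x).mp hx).1, hk1, inv_one, one_smul]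
    exact hs o D hD _

end Str

end CLS

open CLS in
theorem CLS_thm (h1 : Stmt_TNA) (h2 : Stmt_CST) : Stmt_CLS := by
  classical
  intro L K K1 Q Ω _ _ _ _ _ _ _ _ _ _ ℓ _ π μ φ q α ε μQ h σ f hch hcl hirr hov hcov hinv
  obtain ⟨hN, hq, -⟩ := h2 L K K1 Q Ω ℓ π μ φ q α ε μQ h
  have hDN : ∀ D ∈ σ, D ≤ NN' π ε := hch.2
  -- the chains of the coordinates
  let sc' : Ω → Finset (Subgroup K1) := fun o => σ.image (fun D => crd φ D o)
  have hsc : ∀ o b, b ∈ stb (sc' o) ↔ ∀ D ∈ σ, ∀ c, c ∈ crd φ D o ↔ b * c * b⁻¹ ∈ crd φ D o := by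
    intro o b
    rw [mem_stb']
    constructor
    · intro hb D hD
      exact hb _ (Finset.mem_image_of_mem _ hD)
    · intro hb E hE
      obtain ⟨D, hD, rfl⟩ := Finset.mem_image.mp hE
      exact hb D hD
  -- the characters of the coordinates
  have hAL : AL π (NN' π ε) (stb σ) = AL π (NN' π ε) (PS φ (fun o => stb (sc' o))) := by
    ext x
    rw [Subgroup.mem_comap, Subgroup.mem_comap, Subgroup.mem_inf, Subgroup.mem_inf]
    refine and_congr_right fun hx => ?_
    rw [mem_stb_N h hN hDN hcl hx]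
    have hx1 := ((mem_N h _).mp hx).1
    constructor
    · intro h3
      exact ⟨hx1, fun o => (hsc o _).mpr (h3 o)⟩
    · rintro ⟨-, h3⟩ o
      exact (hsc o _).mp (h3 o)
  obtain ⟨-, hT2, hT3⟩ := h1 L K K1 Q Ω π μ φ q α ε μQ h (fun o => stb (sc' o))
  rw [hAL] at hirr
  obtain ⟨g, hg, hgf⟩ := hT2 f hirr hov
  -- the action of the stabilizer
  have hconj : ∀ t ∈ stb σ, ∀ w, ∀ D ∈ σ, ∀ b, b ∈ crd φ D w ↔
      (φ t).left ((φ t).right • w) * b * ((φ t).left ((φ t).right • w))⁻¹ ∈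
        crd φ D ((φ t).right • w) :=
    fun t ht w D hD b => crd_conj (mem_stb'.mp ht D hD) w b
  have hstar : ∀ t ∈ stb σ, ∀ w x,
      g ((φ t).right • w) (α ((φ t).left ((φ t).right • w)) x) = g w x := by
    intro t ht
    obtain ⟨l, rfl⟩ := h.πs t
    have h4 : (fun w x => g ((φ (π l)).right • w)
        (α ((φ (π l)).left ((φ (π l)).right • w)) x)) = g := by
      apply hT3 _ _ f
      · intro w
        refine irrOn_comp (α ((φ (π l)).left ((φ (π l)).right • w))) ?_ (hg _).1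
        intro x
        rw [Subgroup.mem_comap, Subgroup.mem_comap, h.qe, hsc, hsc]
        set b := (φ (π l)).left ((φ (π l)).right • w) with hb
        have h5 : ∀ D ∈ σ, ∀ c, c ∈ crd φ D w ↔ b * c * b⁻¹ ∈ crd φ D ((φ (π l)).right • w) :=
          fun D hD c => hconj _ ht w D hD c
        constructor
        · intro h6 D hD c
          have h7 : c = b * (b⁻¹ * c * b) * b⁻¹ := by group
          have h8 : b * q x * b⁻¹ * c * (b * q x * b⁻¹)⁻¹ =
              b * (q x * (b⁻¹ * c * b) * (q x)⁻¹) * b⁻¹ := by group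
          rw [h8, ← h5 D hD, ← h6 D hD, h5 D hD, ← h7]
        · intro h6 D hD c
          have h8 : b * q x * b⁻¹ * (b * c * b⁻¹) * (b * q x * b⁻¹)⁻¹ =
              b * (q x * c * (q x)⁻¹) * b⁻¹ := by group
          rw [h5 D hD c, h6 D hD, h8, ← h5 D hD]
      · exact fun w => (hg w).1
      · refine ⟨?_, hgf.2⟩
        intro m
        have h5 := hinv l ht (ε m)
        rw [← h.cj, hgf.1] at h5
        rw [← h5]
        refine Fintype.prod_equiv ((φ (π l)).right⁻¹) _ _ fun o => ?_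
        rw [wB_apply]
        change _ = g ((φ (π l)).right • ((φ (π l)).right⁻¹ • o))
          (α ((φ (π l)).left ((φ (π l)).right • ((φ (π l)).right⁻¹ • o)))
            (m ((φ (π l)).right⁻¹ • o)))
        rw [smul_inv_smul]
      · exact hgf
    intro w x
    exact congrFun (congrFun h4 w) x
  -- transitivity
  have hdec : ∀ k : K, ∃ m ∈ NN' π ε, ∃ t ∈ stb σ, m * t = k := by
    intro k
    have hk : k ∈ NN' π ε ⊔ stb σ := by
      rw [hcov]
      exact Subgroup.mem_top k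
    exact Subgroup.mem_sup_of_normal_left.mp hk
  have htr : ∀ o o' : Ω, ∃ t ∈ stb σ, (φ t).right • o = o' := by
    intro o o'
    obtain ⟨k, hk⟩ := h.tr o o'
    obtain ⟨m, hm, t, ht, rfl⟩ := hdec k
    refine ⟨t, ht, ?_⟩
    rw [right_mul, ((mem_N h m).mp hm).1, one_mul] at hk
    exact hk
  obtain ⟨o0⟩ := ‹Nonempty Ω›
  have hStab : ∀ t ∈ stb σ, (φ t).right • o0 = o0 → (φ t).left o0 ∈ stb (sc' o0) ∧
      ∀ x, g o0 (α ((φ t).left o0) x) = g o0 x := by
    intro t ht h0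
    refine ⟨(hsc o0 _).mpr fun D hD c => ?_, fun x => ?_⟩
    · have h5 := hconj t ht o0 D hD c
      rw [h0] at h5
      exact h5
    · have h5 := hstar t ht o0 x
      rw [h0] at h5
      exact h5
  have hK1 : ∀ b : K1, ∃ (x : Q) (s : K1), s ∈ stb (sc' o0) ∧
      (∀ y, g o0 (α s y) = g o0 y) ∧ b = q x * s := by
    intro b
    obtain ⟨k, hk, hkb⟩ := h.sj o0 b
    obtain ⟨m, hm, t, ht, rfl⟩ := hdec k
    have hm' := (mem_N h m).mp hm
    have ht0 : (φ t).right • o0 = o0 := by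
      rw [right_mul, hm'.1, one_mul] at hk
      exact hk
    obtain ⟨x, hx⟩ := hm'.2 o0
    refine ⟨x, (φ t).left o0, (hStab t ht ht0).1, (hStab t ht ht0).2, ?_⟩
    rw [← hkb, left_mul, hm'.1, inv_one, one_smul, hx]
  have hno : ∀ o, ∃ (x : Q) (s : K1) (t : K), s ∈ stb (sc' o0) ∧
      (∀ y, g o0 (α s y) = g o0 y) ∧ t ∈ stb σ ∧ (φ t).right • o0 = o ∧
      (φ t).left o = q x * s := by
    intro o
    obtain ⟨t, ht, ht0⟩ := htr o0 o
    obtain ⟨x, s, hs, hs', he⟩ := hK1 ((φ t).left o)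
    exact ⟨x, s, t, hs, hs', ht, ht0, he⟩
  choose n s t hs hs' ht ht0 hl using hno
  have hDo : ∀ o, ∀ D ∈ σ, ∀ c, c ∈ crd φ D o0 ↔
      q (n o) * c * (q (n o))⁻¹ ∈ crd φ D o := by
    intro o D hD c
    have h5 := hconj (t o) (ht o) o0 D hD ((s o)⁻¹ * c * s o)
    rw [ht0, hl] at h5
    have h6 : q (n o) * s o * ((s o)⁻¹ * c * s o) * (q (n o) * s o)⁻¹ =
        q (n o) * c * (q (n o))⁻¹ := by group
    rw [h6] at h5
    rw [← h5]
    have h7 := (hsc o0 _).mp (hs o) D hD ((s o)⁻¹ * c * s o)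
    have h8 : s o * ((s o)⁻¹ * c * s o) * (s o)⁻¹ = c := by group
    rw [h8] at h7
    exact h7.symm
  have hgn : (φ (π (ε n))).right = 1 ∧ ∀ o, (φ (π (ε n))).left o = q (n o) := by
    rw [h.φε]
    exact ⟨rfl, fun o => rfl⟩
  have hst6 : ∀ k ∈ stb (sc' o0), ∀ x, g o0 (α k x) = g o0 x := by
    intro k hk x
    obtain ⟨y, b, hb, hb', he⟩ := hK1 k
    have hy : q y ∈ stb (sc' o0) := by
      have h5 : q y = k * b⁻¹ := by rw [he, mul_inv_cancel_right]
      rw [h5]
      exact Subgroup.mul_mem _ hk (Subgroup.inv_mem _ hb)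
    rw [he, map_mul, MulAut.mul_apply, h.qα, irrOn_conj (hg o0).1 (Subgroup.mem_comap.mpr hy), hb']
  refine ⟨n, sc' o0, g o0, ⟨⟨?_, ?_⟩, ?_⟩, ?_, (hg o0).1, (hg o0).2, ?_, hst6, ?_, ?_⟩
  · -- the members are nontrivial `ℓ`-groups
    intro E hE
    obtain ⟨D, hD, rfl⟩ := Finset.mem_image.mp hE
    constructor
    · let p : D →* crd φ D o0 :=
        { toFun := fun d => ⟨(φ d).left o0, d, d.2, ((mem_N h _).mp (hDN D hD d.2)).1, rfl⟩
          map_one' := by
            apply Subtype.ext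
            simp
          map_mul' := by
            intro a b
            apply Subtype.ext
            change (φ ((a : K) * b)).left o0 = (φ a).left o0 * (φ b).left o0
            rw [left_mul, ((mem_N h _).mp (hDN D hD a.2)).1, inv_one, one_smul] }
      refine (hch.1.1 D hD).1.of_surjective p ?_
      rintro ⟨_, d, hd, hd', rfl⟩
      exact ⟨⟨d, hd⟩, rfl⟩
    · rw [bot_lt_iff_ne_bot]
      intro hbot
      apply (hch.1.1 D hD).2.ne'
      rw [eq_bot_iff]
      intro d hd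
      rw [Subgroup.mem_bot]
      apply h.φi
      rw [map_one]
      have hd1 := (mem_N h d).mp (hDN D hD hd)
      apply SemidirectProduct.ext
      · funext o
        have h5 := hDo o D hD ((q (n o))⁻¹ * (φ d).left o * q (n o))
        have h6 : q (n o) * ((q (n o))⁻¹ * (φ d).left o * q (n o)) * (q (n o))⁻¹ =
            (φ d).left o := by group
        rw [h6] at h5
        have h7 := h5.mpr ⟨d, hd, hd1.1, rfl⟩
        rw [hbot, Subgroup.mem_bot] at h7
        have h8 : (φ d).left o =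
            q (n o) * ((q (n o))⁻¹ * (φ d).left o * q (n o)) * (q (n o))⁻¹ := h6.symm
        rw [h8, h7, mul_one, mul_inv_cancel]
        rfl
      · exact hd1.1
  · intro E hE E' hE' _
    obtain ⟨D, hD, rfl⟩ := Finset.mem_image.mp (Finset.mem_coe.mp hE)
    obtain ⟨D', hD', rfl⟩ := Finset.mem_image.mp (Finset.mem_coe.mp hE')
    exact (hch.1.total hD hD').imp (fun h5 => crd_mono h5 o0) (fun h5 => crd_mono h5 o0)
  · intro E hE
    obtain ⟨D, hD, rfl⟩ := Finset.mem_image.mp hE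
    rintro _ ⟨d, hd, hd', rfl⟩
    exact ((mem_N h d).mp (hDN D hD hd)).2 o0
  · -- the chain is conjugate to a chain with constant coordinates
    have key : ∀ D ∈ σ, (cst φ (NN' π ε) (crd φ D o0)).map
        (MulAut.conj (π (ε n))).toMonoidHom = D := by
      intro D hD
      ext x
      rw [mem_closed h (hDN D hD) (hcl D hD), Subgroup.mem_map]
      constructor
      · rintro ⟨y, ⟨hy1, hy2, hy3⟩, rfl⟩
        change π (ε n) * y * (π (ε n))⁻¹ ∈ NN' π ε ∧
          ∀ o, (φ (π (ε n) * y * (π (ε n))⁻¹)).left o ∈ crd φ D o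
        refine ⟨hN.conj_mem y hy1 _, fun o => ?_⟩
        rw [conj_left φ _ y hy2, hgn.1, inv_one, one_smul, hgn.2]
        exact (hDo o D hD _).mp (hy3 o)
      · rintro ⟨hx1, hx2⟩
        have hx3 : (φ x).right = 1 := ((mem_N h x).mp hx1).1
        have hy : ∀ o, (φ ((π (ε n))⁻¹ * x * (π (ε n))⁻¹⁻¹)).left o =
            (q (n o))⁻¹ * (φ x).left o * q (n o) := by
          intro o
          rw [conj_left φ _ x hx3, left_inv, right_inv, hgn.1, inv_one, inv_one, one_smul,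
            hgn.2, inv_inv]
        refine ⟨(π (ε n))⁻¹ * x * (π (ε n))⁻¹⁻¹, ⟨hN.conj_mem x hx1 _,
          conj_right φ _ x hx3, fun o => ?_⟩, ?_⟩
        · rw [hy, hDo o D hD]
          have h6 : q (n o) * ((q (n o))⁻¹ * (φ x).left o * q (n o)) * (q (n o))⁻¹ =
              (φ x).left o := by group
          rw [h6]
          exact hx2 o
        · change π (ε n) * ((π (ε n))⁻¹ * x * (π (ε n))⁻¹⁻¹) * (π (ε n))⁻¹ = x
          group
    ext E
    rw [cjC, cstC, Finset.image_image, Finset.image_image, Finset.mem_image]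
    constructor
    · intro hE
      exact ⟨E, hE, key E hE⟩
    · rintro ⟨D, hD, rfl⟩
      have h5 := key D hD
      change (cst φ (NN' π ε) (crd φ D o0)).map (MulAut.conj (π (ε n))).toMonoidHom ∈ σ
      rw [h5]
      exact hD
  · rw [eq_top_iff]
    intro b _
    obtain ⟨x, b', hb, -, rfl⟩ := hK1 b
    exact Subgroup.mul_mem _ (Subgroup.mem_sup_left ⟨x, rfl⟩) (Subgroup.mem_sup_right hb)
  · intro m
    change f ((ε n)⁻¹⁻¹ * ε m * (ε n)⁻¹) = _
    rw [inv_inv, ← map_inv, ← map_mul, ← map_mul, hgf.1]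
    refine Finset.prod_congr rfl fun o _ => ?_
    have h5 := hstar (t o) (ht o) o0 (α (s o)⁻¹ (m o))
    have h6 := hs' o (α (s o)⁻¹ (m o))
    rw [← MulAut.mul_apply, ← map_mul, mul_inv_cancel, map_one, MulAut.one_apply] at h6
    rw [ht0, hl, ← MulAut.mul_apply, ← map_mul, mul_inv_cancel_right, h.qα, ← h6] at h5
    exact h5
  · intro l hl'
    change f ((ε n)⁻¹⁻¹ * l * (ε n)⁻¹) = 0
    apply hgf.2
    intro h5
    apply hl'
    have h6 : l = (ε n)⁻¹ * ((ε n)⁻¹⁻¹ * l * (ε n)⁻¹) * ε n := by group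
    rw [h6]
    exact Subgroup.mul_mem _ (Subgroup.mul_mem _ (Subgroup.inv_mem _ ⟨n, rfl⟩) h5) ⟨n, rfl⟩

end Pool.Agent.DPG
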