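import Mathlib
import Pool.Agent.DPG.StmtsB

/-!
# LMT: the blocks of products of characters
-/

set_option autoImplicit false

namespace Pool.Agent.DPG

open Pool.Agent.DP Pool.Agent.DPC Pool.Agent.DPM Pool.Agent.DPN Pool.Agent.DPF
  Pool.Agent.DPK Pool.Agent.Lib_helper13 Representation
open Pool.Agent.Lib_helper13.Dade (pCore DadeHolds dadeSum)

namespace LMT

section

/-- Sums over the fibres of a homomorphism. -/
theorem sum_ker {G L : Type} [Group G] [Fintype G] [Group L] [Fintype L] (ε : G →* L)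
    (g : L → ℂ) (hg : ∀ x, x ∉ ε.range → g x = 0) :
    ∑ n, g (ε n) = (Nat.card ε.ker : ℂ) * ∑ x, g x := by
  classical
  rw [← Finset.sum_fiberwise (s := Finset.univ) (g := fun n => ε n), Finset.mul_sum]
  refine Finset.sum_congr rfl fun x _ => ?_
  have h1 : ∑ n ∈ Finset.univ.filter (fun n => ε n = x), g (ε n) =
      ∑ _n ∈ Finset.univ.filter (fun n => ε n = x), g x := by
    refine Finset.sum_congr rfl fun n hn => ?_
    rw [(Finset.mem_filter.mp hn).2]
  rw [h1, Finset.sum_const, nsmul_eq_mul]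
  by_cases hx : x ∈ ε.range
  · congr 1
    obtain ⟨y, hy⟩ := hx
    have h2 : (Finset.univ.filter (fun n => ε n = x)).card =
        (Finset.univ.filter (fun n => ε n = 1)).card :=
      MonoidHom.card_fiber_eq_of_mem_range ε ⟨y, hy⟩ ⟨1, map_one ε⟩
    rw [h2]
    have h3 : Nat.card ε.ker = (Finset.univ.filter (fun n => ε n = 1)).card := by
      rw [Nat.card_eq_fintype_card]
      exact Fintype.card_of_subtype _ (fun n => by simp [MonoidHom.mem_ker])
    rw [h3]
  · rw [hg x hx, mul_zero, mul_zero]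

variable {L K K1 Q Ω : Type} [Group L] [Group K] [Group K1] [Group Q] [Fintype Ω]
  {π : L →* K} {μ : π.ker →* ℂˣ} {φ : K →* Gam (Equiv.Perm Ω) Ω K1} {q : Q →* K1}
  {α : K1 →* MulAut Q} {ε : (Ω → Q) →* L} {μQ : q.ker →* ℂˣ}

theorem ker_center (h : WD π μ φ q α ε μQ) : q.ker ≤ Subgroup.center Q := by
  intro x hx
  rw [Subgroup.mem_center_iff]
  intro a
  have h1 := h.qα x a
  rw [MonoidHom.mem_ker.mp hx, map_one] at h1
  have h2 : a = x * a * x⁻¹ := h1
  calc a * x = x * a * x⁻¹ * x := by rw [← h2]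
    _ = x * a := by group

theorem mem_ker_pi (h : WD π μ φ q α ε μQ) (z : Ω → Q) (hz : ∀ o, z o ∈ q.ker) :
    ε z ∈ π.ker := by
  rw [MonoidHom.mem_ker]
  apply h.φi
  rw [h.φε, map_one]
  have : (fun o => q (z o)) = 1 := by
    funext o
    exact MonoidHom.mem_ker.mp (hz o)
  rw [this]
  exact map_one SemidirectProduct.inl

theorem eps_one (h : WD π μ φ q α ε μQ) (z : Ω → q.ker) (hz : ∏ o, μQ (z o) = 1) :
    ε (fun o => (z o : Q)) = 1 := by
  have h1 := mem_ker_pi h (fun o => (z o : Q)) (fun o => (z o).2)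
  have h2 := h.με (fun o => (z o : Q)) (fun o => (z o).2) h1
  rw [hz] at h2
  have h3 : (⟨ε (fun o => (z o : Q)), h1⟩ : π.ker) = 1 := h.μi (by rw [h2, map_one])
  exact congrArg Subtype.val h3

theorem ker_iff (h : WD π μ φ q α ε μQ) (n : Ω → Q) (hn : ε n = 1) :
    ∃ z : Ω → q.ker, ∏ o, μQ (z o) = 1 ∧ n = fun o => (z o : Q) := by
  have h1 := h.φε n
  rw [hn, map_one, map_one] at h1
  have h2 : ∀ o, n o ∈ q.ker := by
    intro o
    have h3 : (1 : Gam (Equiv.Perm Ω) Ω K1).left o = q (n o) := by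
      rw [h1]
      rfl
    rw [MonoidHom.mem_ker, ← h3]
    rfl
  have h4 : ε n ∈ π.ker := by
    rw [hn]
    exact π.ker.one_mem
  refine ⟨fun o => ⟨n o, h2 o⟩, ?_, rfl⟩
  rw [← h.με n h2 h4]
  have h5 : (⟨ε n, h4⟩ : π.ker) = 1 := Subtype.ext hn
  rw [h5, map_one]

theorem card_ker (h : WD π μ φ q α ε μQ) :
    Nat.card ε.ker = Nat.card {z : Ω → q.ker // ∏ o, μQ (z o) = 1} := by
  symm
  refine Nat.card_congr (Equiv.ofBijective
    (fun z => (⟨fun o => (z.1 o : Q), MonoidHom.mem_ker.mpr (eps_one h z.1 z.2)⟩ : ε.ker))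
    ⟨?_, ?_⟩)
  · intro z z' hzz
    apply Subtype.ext
    funext o
    apply Subtype.ext
    exact congrFun (congrArg Subtype.val hzz) o
  · rintro ⟨n, hn⟩
    obtain ⟨z, hz, hnz⟩ := ker_iff h n (MonoidHom.mem_ker.mp hn)
    exact ⟨⟨z, hz⟩, Subtype.ext hnz.symm⟩

theorem comap_eq (h : WD π μ φ q α ε μQ) : (NN' π ε).comap π = ε.range := by
  ext x
  rw [Subgroup.mem_comap]
  constructor
  · rintro ⟨y, hy, hyx⟩
    have h1 : x * y⁻¹ ∈ π.ker := by
      rw [MonoidHom.mem_ker, map_mul, map_inv, hyx, mul_inv_cancel]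
    have h2 := ε.range.mul_mem (h.kr h1) hy
    rwa [inv_mul_cancel_right] at h2
  · intro hx
    exact Subgroup.mem_map_of_mem π hx

theorem tf_one {f : Ω → Q → ℂ} {F : L → ℂ} (hF : TF ε f F) : F 1 = ∏ o, f o 1 := by
  have h1 := hF.1 1
  rw [map_one] at h1
  exact h1

open Classical in
/-- The scalars of the product in terms of the coordinates. -/
theorem scal_eq [Fintype L] [Fintype Q] (h : WD π μ φ q α ε μQ) {f : Ω → Q → ℂ} {F : L → ℂ}
    (hF : TF ε f F) (u : L → ℤ) :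
    (∑ x, ((u x : ℤ) : ℂ) * F x) / F 1 =
      (∑ n : Ω → Q, ((u (ε n) : ℤ) : ℂ) * ∏ o, (f o (n o) / f o 1)) /
        Nat.card {z : Ω → q.ker // ∏ o, μQ (z o) = 1} := by
  have h1 := sum_ker ε (fun x => ((u x : ℤ) : ℂ) * F x) (fun x hx => by
    rw [hF.2 x hx, mul_zero])
  have h2 : ∑ n : Ω → Q, ((u (ε n) : ℤ) : ℂ) * ∏ o, (f o (n o) / f o 1) =
      (∑ n : Ω → Q, ((u (ε n) : ℤ) : ℂ) * F (ε n)) / F 1 := by
    rw [Finset.sum_div]
    refine Finset.sum_congr rfl fun n _ => ?_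
    rw [hF.1 n, tf_one hF, Finset.prod_div_distrib, mul_div_assoc]
  have h3 : (Nat.card ε.ker : ℂ) ≠ 0 := by
    exact_mod_cast Nat.card_pos.ne'
  rw [h2, h1, ← card_ker h, mul_div_assoc, mul_div_cancel_left₀ _ h3]

theorem scal_w [Fintype Q] {T : Subgroup Q} {g : Q → ℂ} (hg : IrrOn T g) {w : Q → ℤ}
    (hw : ∀ a n, w (a * n * a⁻¹) = w n) :
    (∑ n, ((w n : ℤ) : ℂ) * (g n / g 1) = (∑ n, ((w n : ℤ) : ℂ) * g n) / g 1) ∧
      IsIntegral ℤ ((∑ n, ((w n : ℤ) : ℂ) * g n) / g 1) := by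
  classical
  refine ⟨?_, ?_⟩
  · rw [Finset.sum_div]
    exact Finset.sum_congr rfl fun n _ => (mul_div_assoc _ _ _).symm
  · have h1 : ∑ x, ((w x : ℤ) : ℂ) * g x = ∑ s : T, ((w s : ℤ) : ℂ) * g s := by
      rw [← Finset.sum_filter_of_ne (p := fun x => x ∈ T)]
      · exact Finset.sum_subtype _ (by simp) _
      · intro x _ hx
        by_contra h
        exact hx (by rw [hg.2 x h, mul_zero])
    rw [h1]
    exact isIntegral_wt_int hg.1 w fun s _ x => hw s x

theorem one_ne [Fintype Q] {T : Subgroup Q} {g : Q → ℂ} (hg : IrrOn T g) : g 1 ≠ 0 :=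
  hg.1.one_ne_zero

open Classical in
/-- The function on `L` which belongs to a function of one coordinate. -/
noncomputable def UU [Fintype Q] (ε : (Ω → Q) →* L) (o : Ω) (u : Q → ℤ) (l : L) : ℤ :=
  ∑ y : Q, if ε (Pi.mulSingle o y) = l then u y else 0

open Classical in
theorem UU_sum [Fintype L] [Fintype Q] {f : Ω → Q → ℂ} {F : L → ℂ}
    (hF : TF ε f F) (o : Ω) (u : Q → ℤ) :
    ∑ x, ((UU ε o u x : ℤ) : ℂ) * F x =
      (∑ y, ((u y : ℤ) : ℂ) * f o y) * ∏ w ∈ Finset.univ.erase o, f w 1 := by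
  have h1 : ∀ x, ((UU ε o u x : ℤ) : ℂ) * F x =
      ∑ y : Q, if ε (Pi.mulSingle o y) = x then ((u y : ℤ) : ℂ) * F x else 0 := by
    intro x
    rw [UU, Int.cast_sum, Finset.sum_mul]
    refine Finset.sum_congr rfl fun y _ => ?_
    split_ifs
    · rfl
    · rw [Int.cast_zero, zero_mul]
  rw [Finset.sum_congr rfl fun x _ => h1 x, Finset.sum_comm, Finset.sum_mul]
  refine Finset.sum_congr rfl fun y _ => ?_
  rw [Finset.sum_ite_eq, if_pos (Finset.mem_univ _), hF.1,
    ← Finset.mul_prod_erase Finset.univ _ (Finset.mem_univ o), Pi.mulSingle_eq_same, mul_assoc]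
  congr 2
  refine Finset.prod_congr rfl fun w hw => ?_
  rw [Pi.mulSingle_eq_of_ne (Finset.ne_of_mem_erase hw)]

open Classical in
theorem sc_UU [Fintype L] [Fintype Q] {𝔐 : Ideal (integralClosure ℤ ℂ)} {f : Ω → Q → ℂ}
    {F : L → ℂ} (hF : TF ε f F) (h0 : ∀ o, f o 1 ≠ 0) (o : Ω) (u : Q → ℤ) :
    sc 𝔐 F (UU ε o u) = sc 𝔐 (f o) u := by
  have h1 : ∏ w ∈ Finset.univ.erase o, f w 1 ≠ 0 :=
    Finset.prod_ne_zero_iff.mpr fun w _ => h0 w
  have h2 : F 1 = f o 1 * ∏ w ∈ Finset.univ.erase o, f w 1 := by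
    rw [tf_one hF, Finset.mul_prod_erase Finset.univ (fun w => f w 1) (Finset.mem_univ o)]
  rw [sc, sc, UU_sum hF, h2, mul_div_mul_right _ _ h1]

open Classical in
theorem UU_conj [Fintype Q] (o : Ω) {u : Q → ℤ} (hu : ∀ s x, u (s * x * s⁻¹) = u x)
    (a : Ω → Q) (x : L) : UU ε o u (ε a * x * (ε a)⁻¹) = UU ε o u x := by
  rw [UU, UU]
  symm
  refine Fintype.sum_equiv (MulAut.conj (a o)).toEquiv _ _ fun y => ?_
  have h1 : (MulAut.conj (a o)).toEquiv y = a o * y * (a o)⁻¹ := rfl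
  have h2 : Pi.mulSingle o (a o * y * (a o)⁻¹) = a * Pi.mulSingle o y * a⁻¹ := by
    funext w
    by_cases hw : w = o
    · subst hw
      simp
    · simp [Pi.mulSingle_eq_of_ne hw]
  have h3 : ε (Pi.mulSingle o (a o * y * (a o)⁻¹)) = ε a * x * (ε a)⁻¹ ↔
      ε (Pi.mulSingle o y) = x := by
    rw [h2, map_mul, map_mul, map_inv]
    constructor
    · intro h
      exact mul_left_cancel (mul_right_cancel h)
    · intro h
      rw [h]
  rw [h1, hu]
  by_cases hx : ε (Pi.mulSingle o y) = x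
  · rw [if_pos hx, if_pos (h3.mpr hx)]
  · rw [if_neg hx, if_neg fun h => hx (h3.mp h)]

open Classical in
theorem UU_out [Fintype Q] (o : Ω) (u : Q → ℤ) (x : L) (hx : x ∉ ε.range) :
    UU ε o u x = 0 := by
  rw [UU]
  refine Finset.sum_eq_zero fun y _ => ?_
  rw [if_neg]
  intro h
  exact hx ⟨_, h⟩

end

end LMT

open LMT in
theorem LMT_thm (h1 : Stmt_PRC) : Stmt_LMT := by
  classical
  intro L K K1 Q Ω _ _ _ _ _ _ _ _ _ 𝔐 ℓ _ hM hl π μ φ q α ε μQ h S S' f f' F F' hf hf' hF hF'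
  constructor
  · intro hsc u hu _
    have hmem : ∀ n, ε n ∈ (NN' π ε).comap π := by
      intro n
      rw [comap_eq h]
      exact ⟨n, rfl⟩
    have key := h1 Q Ω 𝔐 ℓ hM hl q.ker μQ (ker_center h) h.μQi (fun _ => 1) (fun _ _ _ => rfl)
      (fun o n => f o n / f o 1) (fun o n => f' o n / f' o 1)
      (fun o z n => by
        rw [(hf o).2 z n, mul_div_assoc])
      (fun o z n => by
        rw [(hf' o).2 z n, mul_div_assoc])
      (fun o w hw => by
        have hw' : ∀ a n, w (a * n * a⁻¹) = w n := fun a n => hw a n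
        have e1 := scal_w (hf o).1 hw'
        have e2 := scal_w (hf' o).1 hw'
        refine ⟨?_, ?_, ?_⟩
        · rw [e1.1]
          exact e1.2
        · rw [e2.1]
          exact e2.2
        · rw [e1.1, e2.1]
          exact hsc o w (fun s _ x => hw' s x))
      (fun n => u (ε n))
      (fun a n => by
        have e : (fun o => (1 : MulAut Q) (a o) * n o * (a o)⁻¹) = a * n * a⁻¹ := rfl
        show u (ε (fun o => (1 : MulAut Q) (a o) * n o * (a o)⁻¹)) = u (ε n)
        rw [e, map_mul, map_mul, map_inv]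
        exact hu (ε a) (hmem a) (ε n))
      (fun z n hz => by
        have e : (fun o => (z o : Q) * n o) = (fun o => (z o : Q)) * n := rfl
        show u (ε (fun o => (z o : Q) * n o)) = u (ε n)
        rw [e, map_mul, eps_one h z hz, one_mul])
    rw [sc, sc, scal_eq h hF u, scal_eq h hF' u]
    exact key.2
  · intro hsc o u hu
    have hu' : ∀ s x, u (s * x * s⁻¹) = u x := fun s x => hu s trivial x
    have e := hsc (UU ε o u) (fun s hs x => by
      rw [comap_eq h] at hs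
      obtain ⟨a, rfl⟩ := hs
      exact UU_conj o hu' a x) (fun x hx => by
      have hx' : x ∉ ε.range := by
        intro hxr
        apply hx
        rw [← comap_eq h] at hxr
        exact hxr
      exact UU_out o u x hx')
    rw [sc_UU hF (fun o => one_ne (hf o).1), sc_UU hF' (fun o => one_ne (hf' o).1)] at e
    exact e

end Pool.Agent.DPG
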