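import Mathlib
import Pool.Agent.DPG.DefsB

/-!
# Basic facts on the wreath product data
-/

set_option linter.unusedSectionVars false

namespace Pool.Agent.DPG.WDB

open Pool.Agent.DP Pool.Agent.DPC Pool.Agent.DPM Pool.Agent.DPN Pool.Agent.DPF Pool.Agent.DPG
  Pool.Agent.Lib_helper13 Representation

/-! ### Wreath products -/

section Gamma

variable {B B' Ω : Type} [Group B] [Group B']

theorem mul_left (g g' : Gam (Equiv.Perm Ω) Ω B) (o : Ω) :
    (g * g').left o = g.left o * g'.left (g.right⁻¹ o) := rfl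

theorem mul_right (g g' : Gam (Equiv.Perm Ω) Ω B) : (g * g').right = g.right * g'.right := rfl

theorem inv_right (g : Gam (Equiv.Perm Ω) Ω B) : g⁻¹.right = g.right⁻¹ := rfl

theorem one_left (o : Ω) : (1 : Gam (Equiv.Perm Ω) Ω B).left o = 1 := rfl

theorem one_right : (1 : Gam (Equiv.Perm Ω) Ω B).right = 1 := rfl

theorem inv_left (g : Gam (Equiv.Perm Ω) Ω B) (o : Ω) :
    g⁻¹.left o = (g.left (g.right o))⁻¹ := by
  rw [SemidirectProduct.inv_left]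
  change (g.left (g.right⁻¹⁻¹ • o))⁻¹ = _
  rw [inv_inv]
  rfl

theorem ext' {g g' : Gam (Equiv.Perm Ω) Ω B} (h1 : g.right = g'.right)
    (h2 : ∀ o, g.left o = g'.left o) : g = g' :=
  SemidirectProduct.ext (funext h2) h1

theorem conj_left (g m : Gam (Equiv.Perm Ω) Ω B) (hm : m.right = 1) (o : Ω) :
    (g * m * g⁻¹).left o = g.left o * m.left (g.right⁻¹ o) * (g.left o)⁻¹ := by
  rw [mul_left, mul_left, mul_right, hm, mul_one, inv_left]
  congr 2
  exact congrArg g.left (g.right.apply_symm_apply o)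

theorem conj_right (g m : Gam (Equiv.Perm Ω) Ω B) (hm : m.right = 1) :
    (g * m * g⁻¹).right = 1 := by
  rw [mul_right, mul_right, hm, mul_one, inv_right, mul_inv_cancel]

theorem gmap_left (f : B →* B') (g : Gam (Equiv.Perm Ω) Ω B) (o : Ω) :
    (gmap Ω f g).left o = f (g.left o) := rfl

theorem gmap_right (f : B →* B') (g : Gam (Equiv.Perm Ω) Ω B) :
    (gmap Ω f g).right = g.right := rfl

theorem gmap_eq {f : B →* B'} {g : Gam (Equiv.Perm Ω) Ω B} {g' : Gam (Equiv.Perm Ω) Ω B'} :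
    gmap Ω f g = g' ↔ g.right = g'.right ∧ ∀ o, f (g.left o) = g'.left o := by
  constructor
  · rintro rfl
    exact ⟨rfl, fun _ => rfl⟩
  · rintro ⟨h1, h2⟩
    exact ext' h1 h2

theorem gmap_surj {f : B →* B'} (hf : Function.Surjective f)
    (g' : Gam (Equiv.Perm Ω) Ω B') : ∃ g, gmap Ω f g = g' := by
  choose s hs using hf
  exact ⟨⟨fun o => s (g'.left o), g'.right⟩, ext' rfl fun o => hs _⟩

theorem gmap_surj' {f : B →* B'} (hf : Function.Surjective f)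
    (g' : Gam (Equiv.Perm Ω) Ω B') (o : Ω) (b : B) (hb : f b = g'.left o) :
    ∃ g, gmap Ω f g = g' ∧ g.left o = b := by
  classical
  choose s hs using hf
  refine ⟨⟨fun w => if w = o then b else s (g'.left w), g'.right⟩, ext' rfl fun w => ?_, ?_⟩
  · rw [gmap_left]
    change f (if w = o then b else s (g'.left w)) = g'.left w
    split_ifs with h
    · rw [h, hb]
    · exact hs _
  · change (if o = o then b else s (g'.left o)) = b
    rw [if_pos rfl]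

theorem gin_left (n : Ω → B) (o : Ω) : (gin n : Gam (Equiv.Perm Ω) Ω B).left o = n o := rfl

theorem gin_right (n : Ω → B) : (gin n : Gam (Equiv.Perm Ω) Ω B).right = 1 := rfl

theorem gin_one : (gin (fun _ => 1) : Gam (Equiv.Perm Ω) Ω B) = 1 := rfl

theorem gin_mul (n n' : Ω → B) :
    (gin (fun o => n o * n' o) : Gam (Equiv.Perm Ω) Ω B) = gin n * gin n' := by
  refine ext' ?_ fun o => ?_
  · rw [mul_right, gin_right, gin_right, gin_right, mul_one]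
  · rw [mul_left, gin_left, gin_left, gin_right, gin_left]
    rfl

theorem gin_inv (n : Ω → B) :
    (gin n : Gam (Equiv.Perm Ω) Ω B)⁻¹ = gin (fun o => (n o)⁻¹) := by
  refine ext' ?_ fun o => ?_
  · rw [inv_right, gin_right, gin_right, inv_one]
  · rw [inv_left, gin_left, gin_left, gin_right]
    rfl

theorem gin_inj {n n' : Ω → B} (h : (gin n : Gam (Equiv.Perm Ω) Ω B) = gin n') : n = n' := by
  funext o
  rw [← gin_left n o, h, gin_left]

theorem eq_gin {g : Gam (Equiv.Perm Ω) Ω B} (hg : g.right = 1) : g = gin g.left :=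
  ext' hg fun _ => rfl

theorem conj_gin (g : Gam (Equiv.Perm Ω) Ω B) (n : Ω → B) :
    g * gin n * g⁻¹ = gin (fun o => g.left o * n (g.right⁻¹ o) * (g.left o)⁻¹) :=
  ext' (conj_right g (gin n) rfl) fun o => conj_left g (gin n) rfl o

theorem gmap_gin (f : B →* B') (n : Ω → B) :
    gmap Ω f (gin n) = gin (fun o => f (n o)) := rfl

end Gamma

/-! ### The data -/

section Data

variable {L K K1 Q Ω : Type} [Group L] [Group K] [Group K1] [Group Q] [Fintype Ω]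
  {π : L →* K} {μ : π.ker →* ℂˣ} {φ : K →* Gam (Equiv.Perm Ω) Ω K1} {q : Q →* K1}
  {α : K1 →* MulAut Q} {ε : (Ω → Q) →* L} {μQ : q.ker →* ℂˣ}

/-- `ker q` is central. -/
theorem kerq_comm (h : WD π μ φ q α ε μQ) {z : Q} (hz : z ∈ q.ker) (x : Q) :
    z * x = x * z := by
  have h1 := h.qα z x
  rw [MonoidHom.mem_ker.mp hz, map_one, MulAut.one_apply] at h1
  rw [eq_mul_inv_iff_mul_eq] at h1
  exact h1.symm

theorem kerq_le (h : WD π μ φ q α ε μQ) : q.ker ≤ Subgroup.center Q :=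
  fun _ hz => Subgroup.mem_center_iff.mpr fun x => (kerq_comm h hz x).symm

theorem φε_right (h : WD π μ φ q α ε μQ) (n : Ω → Q) : (φ (π (ε n))).right = 1 := by
  rw [h.φε]
  rfl

theorem φε_left (h : WD π μ φ q α ε μQ) (n : Ω → Q) (o : Ω) :
    (φ (π (ε n))).left o = q (n o) := by
  rw [h.φε]
  rfl

theorem eq_of_coords (h : WD π μ φ q α ε μQ) {k k' : K} (h1 : (φ k).right = (φ k').right)
    (h2 : ∀ o, (φ k).left o = (φ k').left o) : k = k' :=
  h.φi (ext' h1 h2)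

/-- The elements of `N`. -/
theorem mem_NN (h : WD π μ φ q α ε μQ) {k : K} :
    k ∈ NN' π ε ↔ (φ k).right = 1 ∧ ∀ o, (φ k).left o ∈ q.range := by
  constructor
  · rintro ⟨_, ⟨n, rfl⟩, rfl⟩
    exact ⟨φε_right h n, fun o => ⟨n o, (φε_left h n o).symm⟩⟩
  · rintro ⟨h1, h2⟩
    choose n hn using h2
    refine ⟨ε n, ⟨n, rfl⟩, eq_of_coords h ?_ fun o => ?_⟩
    · rw [φε_right h n, h1]
    · rw [φε_left h n, hn]

theorem πε_mem (_ : WD π μ φ q α ε μQ) (n : Ω → Q) : π (ε n) ∈ NN' π ε :=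
  ⟨ε n, ⟨n, rfl⟩, rfl⟩

/-- Every family of elements of `q.range` is the family of the coordinates of an element of
`N`. -/
theorem exists_NN (h : WD π μ φ q α ε μQ) (s : Ω → K1) (hs : ∀ o, s o ∈ q.range) :
    ∃ n : Ω → Q, (∀ o, q (n o) = s o) ∧ (φ (π (ε n))).right = 1 ∧
      ∀ o, (φ (π (ε n))).left o = s o := by
  choose n hn using hs
  exact ⟨n, hn, φε_right h n, fun o => by rw [φε_left h n, hn]⟩

/-- The inverse image of `N` in `L` is the image of `ε`. -/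
theorem mem_comap_NN (h : WD π μ φ q α ε μQ) {x : L} :
    π x ∈ NN' π ε ↔ ∃ n, ε n = x := by
  constructor
  · rintro ⟨_, ⟨n, rfl⟩, hn⟩
    have h1 : x * (ε n)⁻¹ ∈ π.ker := by
      rw [MonoidHom.mem_ker, map_mul, map_inv, hn, mul_inv_cancel]
    obtain ⟨m, hm⟩ := h.kr h1
    exact ⟨m * n, by rw [map_mul, hm, inv_mul_cancel_right]⟩
  · rintro ⟨n, rfl⟩
    exact πε_mem h n

theorem comap_NN (h : WD π μ φ q α ε μQ) : (NN' π ε).comap π = ε.range := by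
  ext x
  exact mem_comap_NN h

theorem πε_eq_one (h : WD π μ φ q α ε μQ) {n : Ω → Q} :
    π (ε n) = 1 ↔ ∀ o, n o ∈ q.ker := by
  constructor
  · intro h1 o
    rw [MonoidHom.mem_ker, ← φε_left h n o, h1, map_one]
    rfl
  · intro h1
    refine eq_of_coords h ?_ fun o => ?_
    · rw [φε_right h, map_one]
      rfl
    · rw [φε_left h, MonoidHom.mem_ker.mp (h1 o), map_one]
      rfl

theorem ε_eq_one (h : WD π μ φ q α ε μQ) {n : Ω → Q} :
    ε n = 1 ↔ ∃ hn : ∀ o, n o ∈ q.ker, ∏ o, μQ ⟨n o, hn o⟩ = 1 := by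
  constructor
  · intro h1
    have h2 : π (ε n) = 1 := by rw [h1, map_one]
    refine ⟨(πε_eq_one h).mp h2, ?_⟩
    rw [← h.με n _ (MonoidHom.mem_ker.mpr h2)]
    have h3 : (⟨ε n, MonoidHom.mem_ker.mpr h2⟩ : π.ker) = 1 := Subtype.ext h1
    rw [h3, map_one]
  · rintro ⟨hn, h1⟩
    have h2 : π (ε n) = 1 := (πε_eq_one h).mpr hn
    rw [← h.με n hn (MonoidHom.mem_ker.mpr h2), ← map_one μ] at h1
    exact congrArg Subtype.val (h.μi h1)

/-- Conjugation of `ε n`. -/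
theorem conj_ε (h : WD π μ φ q α ε μQ) (l : L) (n : Ω → Q) :
    l * ε n * l⁻¹ = ε (fun o => α ((φ (π l)).left o) (n ((φ (π l)).right⁻¹ o))) :=
  (h.cj l n).symm

theorem inv_conj_ε (h : WD π μ φ q α ε μQ) (l : L) (hl : (φ (π l)).right = 1) (n : Ω → Q) :
    l⁻¹ * ε n * l = ε (fun o => α ((φ (π l)).left o)⁻¹ (n o)) := by
  have h1 := conj_ε h l (fun o => α ((φ (π l)).left o)⁻¹ (n o))
  simp only [hl, inv_one, Equiv.Perm.one_apply] at h1
  have h2 : (fun o => α ((φ (π l)).left o) (α ((φ (π l)).left o)⁻¹ (n o))) = n := by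
    funext o
    rw [← MulAut.mul_apply, ← map_mul, mul_inv_cancel, map_one, MulAut.one_apply]
  rw [h2] at h1
  rw [← h1]
  group

theorem normal_NN (h : WD π μ φ q α ε μQ) : (NN' π ε).Normal := by
  refine ⟨fun n hn k => ?_⟩
  obtain ⟨_, ⟨m, rfl⟩, rfl⟩ := hn
  obtain ⟨l, rfl⟩ := h.πs k
  rw [← map_inv, ← map_mul, ← map_mul, conj_ε h]
  exact πε_mem h _

theorem normal_range (h : WD π μ φ q α ε μQ) : q.range.Normal := by
  refine ⟨fun n hn k => ?_⟩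
  obtain ⟨x, rfl⟩ := hn
  exact ⟨α k x, h.qe k x⟩

/-- The elements of the inverse image of `N ⊓ PS φ S`. -/
theorem ε_mem_AL (h : WD π μ φ q α ε μQ) (S : Ω → Subgroup K1) {n : Ω → Q} :
    ε n ∈ AL π (NN' π ε) (PS φ S) ↔ ∀ o, q (n o) ∈ S o := by
  rw [Subgroup.mem_comap, Subgroup.mem_inf]
  constructor
  · rintro ⟨-, -, h1⟩ o
    rw [← φε_left h n o]
    exact h1 o
  · intro h1
    refine ⟨πε_mem h n, φε_right h n, fun o => ?_⟩
    rw [φε_left h]
    exact h1 o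

theorem AL_eq_map (h : WD π μ φ q α ε μQ) (S : Ω → Subgroup K1) :
    AL π (NN' π ε) (PS φ S) =
      (Subgroup.pi Set.univ (fun o => (S o).comap q)).map ε := by
  ext x
  constructor
  · intro hx
    obtain ⟨n, rfl⟩ := (mem_comap_NN h).mp (Subgroup.mem_comap.mp hx).1
    exact ⟨n, fun o _ => (ε_mem_AL h S).mp hx o, rfl⟩
  · rintro ⟨n, hn, rfl⟩
    exact (ε_mem_AL h S).mpr fun o => hn o (Set.mem_univ o)

/-- `ker ε`. -/
theorem card_kerε (h : WD π μ φ q α ε μQ) :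
    Nat.card ε.ker = Nat.card {z : Ω → q.ker // ∏ o, μQ (z o) = 1} := by
  refine Nat.card_congr ⟨fun n => ⟨fun o => ⟨(n : Ω → Q) o,
      ((ε_eq_one h).mp (MonoidHom.mem_ker.mp n.2)).1 o⟩,
      ((ε_eq_one h).mp (MonoidHom.mem_ker.mp n.2)).2⟩,
    fun z => ⟨fun o => (z.1 o : Q), MonoidHom.mem_ker.mpr ((ε_eq_one h).mpr
      ⟨fun o => (z.1 o).2, z.2⟩)⟩, fun n => rfl, fun z => rfl⟩

theorem card_NN (h : WD π μ φ q α ε μQ) :
    Nat.card (NN' π ε) = Nat.card q.range ^ Fintype.card Ω := by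
  have h1 : Nat.card (NN' π ε) = Nat.card (Ω → q.range) := by
    refine Nat.card_congr (Equiv.ofBijective (fun k => fun o =>
      ⟨(φ (k : K)).left o, ((mem_NN h).mp k.2).2 o⟩) ⟨?_, ?_⟩)
    · intro k k' hk
      refine Subtype.ext (eq_of_coords h ?_ fun o => ?_)
      · rw [((mem_NN h).mp k.2).1, ((mem_NN h).mp k'.2).1]
      · exact congrArg Subtype.val (congrFun hk o)
    · intro s
      obtain ⟨n, -, -, hn⟩ := exists_NN h (fun o => (s o : K1)) fun o => (s o).2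
      refine ⟨⟨π (ε n), πε_mem h n⟩, ?_⟩
      funext o
      exact Subtype.ext (hn o)
  rw [h1, Nat.card_fun, Nat.card_eq_fintype_card (α := Ω)]

theorem card_comap_NN (h : WD π μ φ q α ε μQ) :
    Nat.card ↥((NN' π ε).comap π) * Nat.card ε.ker = Nat.card Q ^ Fintype.card Ω := by
  rw [comap_NN h, ← Nat.card_eq_fintype_card (α := Ω), ← Nat.card_fun (α := Ω) (β := Q),
    Subgroup.card_eq_card_quotient_mul_card_subgroup ε.ker,
    Nat.card_congr (QuotientGroup.quotientKerEquivRange ε).toEquiv]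

theorem card_kerπ (h : WD π μ φ q α ε μQ) :
    Nat.card π.ker * Nat.card ε.ker = Nat.card q.ker ^ Fintype.card Ω := by
  classical
  rw [← Nat.card_eq_fintype_card (α := Ω), ← Nat.card_fun (α := Ω) (β := q.ker)]
  let j : (Ω → q.ker) →* π.ker :=
    { toFun := fun z => ⟨ε (fun o => (z o : Q)),
        MonoidHom.mem_ker.mpr ((πε_eq_one h).mpr fun o => (z o).2)⟩
      map_one' := Subtype.ext (map_one ε)
      map_mul' := fun z z' => Subtype.ext (map_mul ε (fun o => (z o : Q)) fun o => (z' o : Q)) }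
  have hj : Function.Surjective j := by
    intro z
    obtain ⟨n, hn⟩ := h.kr z.2
    have h1 : ∀ o, n o ∈ q.ker := (πε_eq_one h).mp (by rw [hn]; exact z.2)
    exact ⟨fun o => ⟨n o, h1 o⟩, Subtype.ext hn⟩
  have hk : Nat.card j.ker = Nat.card ε.ker := by
    refine Nat.card_congr ⟨fun z => ⟨fun o => ((z : Ω → q.ker) o : Q), ?_⟩,
      fun n => ⟨fun o => ⟨(n : Ω → Q) o, ((ε_eq_one h).mp (MonoidHom.mem_ker.mp n.2)).1 o⟩, ?_⟩,
      fun z => rfl, fun n => rfl⟩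
    · exact congrArg Subtype.val (MonoidHom.mem_ker.mp z.2)
    · exact Subtype.ext (MonoidHom.mem_ker.mp n.2)
  rw [Subgroup.card_eq_card_quotient_mul_card_subgroup j.ker, hk,
    Nat.card_congr (QuotientGroup.quotientKerEquivOfSurjective j hj).toEquiv]

/-! ### The groups `L1`, `YY`, `MY` -/

variable {L1 : Type} [Group L1] {π1 : L1 →* K1} {μ1 : π1.ker →* ℂˣ} {ι : Q →* L1}

theorem kerπ1_comm (h1 : LD q α μQ π1 μ1 ι) {z : L1} (hz : z ∈ π1.ker) (x : L1) :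
    z * x = x * z :=
  ((Subgroup.mem_center_iff.mp (h1.c hz)) x).symm

theorem conj_ι (h1 : LD q α μQ π1 μ1 ι) (y : L1) (x : Q) :
    y * ι x * y⁻¹ = ι (α (π1 y) x) :=
  (h1.ια y x).symm

theorem ι_mul (h1 : LD q α μQ π1 μ1 ι) (y : L1) (x : Q) :
    ι x * y = y * ι (α (π1 y)⁻¹ x) := by
  have h2 := conj_ι h1 y (α (π1 y)⁻¹ x)
  rw [← MulAut.mul_apply, ← map_mul, mul_inv_cancel, map_one, MulAut.one_apply] at h2
  rw [← h2]
  group

theorem ι_ker (h1 : LD q α μQ π1 μ1 ι) {x : Q} : ι x ∈ π1.ker ↔ x ∈ q.ker := by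
  rw [MonoidHom.mem_ker, MonoidHom.mem_ker, h1.πι]

theorem mem_comap_range (h1 : LD q α μQ π1 μ1 ι) {y : L1} :
    π1 y ∈ q.range ↔ ∃ z ∈ π1.ker, ∃ x, y = z * ι x := by
  constructor
  · rintro ⟨x, hx⟩
    refine ⟨y * (ι x)⁻¹, ?_, x, by rw [inv_mul_cancel_right]⟩
    rw [MonoidHom.mem_ker, map_mul, map_inv, h1.πι, hx, mul_inv_cancel]
  · rintro ⟨z, hz, x, rfl⟩
    rw [map_mul, MonoidHom.mem_ker.mp hz, one_mul, h1.πι]
    exact ⟨x, rfl⟩

theorem mem_YY {x : L × Gam (Equiv.Perm Ω) Ω L1} :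
    x ∈ YY π φ π1 ↔ φ (π x.1) = gmap Ω π1 x.2 := Iff.rfl

theorem mem_MY {M : Subgroup K} {x : L × Gam (Equiv.Perm Ω) Ω L1} :
    x ∈ MY π φ π1 M ↔ φ (π x.1) = gmap Ω π1 x.2 ∧ π x.1 ∈ M := Iff.rfl

theorem MY_le {M : Subgroup K} : MY π φ π1 M ≤ YY π φ π1 := inf_le_left

theorem YY_right {x : L × Gam (Equiv.Perm Ω) Ω L1} (hx : x ∈ YY π φ π1) :
    (φ (π x.1)).right = x.2.right := by
  rw [mem_YY.mp hx]
  rfl

theorem YY_left {x : L × Gam (Equiv.Perm Ω) Ω L1} (hx : x ∈ YY π φ π1) (o : Ω) :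
    (φ (π x.1)).left o = π1 (x.2.left o) := by
  rw [mem_YY.mp hx]
  rfl

theorem exists_YY (h1 : LD q α μQ π1 μ1 ι) (l : L) :
    ∃ g : Gam (Equiv.Perm Ω) Ω L1, (l, g) ∈ YY π φ π1 := by
  obtain ⟨g, hg⟩ := gmap_surj (Ω := Ω) h1.s (φ (π l))
  exact ⟨g, hg.symm⟩

theorem exists_YY' (h1 : LD q α μQ π1 μ1 ι) (l : L) (o : Ω) (y : L1)
    (hy : π1 y = (φ (π l)).left o) :
    ∃ g : Gam (Equiv.Perm Ω) Ω L1, (l, g) ∈ YY π φ π1 ∧ g.left o = y := by
  obtain ⟨g, hg, hgo⟩ := gmap_surj' (Ω := Ω) h1.s (φ (π l)) o y hy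
  exact ⟨g, hg.symm, hgo⟩

theorem MY_normal (M : Subgroup K) (hM : M.Normal) {x y : L × Gam (Equiv.Perm Ω) Ω L1}
    (hy : y ∈ YY π φ π1) (hx : x ∈ MY π φ π1 M) : y * x * y⁻¹ ∈ MY π φ π1 M := by
  refine ⟨Subgroup.mul_mem _ (Subgroup.mul_mem _ hy (MY_le hx)) (Subgroup.inv_mem _ hy), ?_⟩
  change π (y.1 * x.1 * y.1⁻¹) ∈ M
  rw [map_mul, map_mul, map_inv]
  exact hM.conj_mem _ (mem_MY.mp hx).2 _

theorem dY_fst (n : Ω → Q) : (dY ε ι n).1 = ε n := rfl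

theorem dY_left (n : Ω → Q) (o : Ω) : (dY ε ι n).2.left o = ι (n o) := rfl

theorem dY_right (n : Ω → Q) : (dY ε ι n).2.right = 1 := rfl

theorem dY_one : dY ε ι (1 : Ω → Q) = 1 := by
  refine Prod.ext (map_one ε) (ext' rfl fun o => ?_)
  exact map_one ι

theorem dY_mul (n n' : Ω → Q) : dY ε ι (n * n') = dY ε ι n * dY ε ι n' := by
  refine Prod.ext (map_mul ε n n') (ext' ?_ fun o => ?_)
  · change (1 : Equiv.Perm Ω) = 1 * 1
    rw [mul_one]
  · exact map_mul ι _ _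

theorem dY_inv (n : Ω → Q) : dY ε ι n⁻¹ = (dY ε ι n)⁻¹ := by
  rw [eq_inv_iff_mul_eq_one, ← dY_mul, inv_mul_cancel, dY_one]

theorem dY_inj (h1 : LD q α μQ π1 μ1 ι) {n n' : Ω → Q} (h2 : dY ε ι n = dY ε ι n') :
    n = n' := by
  funext o
  refine h1.ιi ?_
  rw [← dY_left (ε := ε), h2, dY_left]

theorem dY_mem_YY (h : WD π μ φ q α ε μQ) (h1 : LD q α μQ π1 μ1 ι) (n : Ω → Q) :
    dY ε ι n ∈ YY π φ π1 := by
  rw [mem_YY, dY_fst, h.φε]
  refine ext' rfl fun o => ?_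
  rw [gmap_left, dY_left, h1.πι]
  rfl

theorem dY_mem_MY (h : WD π μ φ q α ε μQ) (h1 : LD q α μQ π1 μ1 ι) {M : Subgroup K}
    (hM : NN' π ε ≤ M) (n : Ω → Q) : dY ε ι n ∈ MY π φ π1 M :=
  ⟨dY_mem_YY h h1 n, hM (πε_mem h n)⟩

/-- Conjugation of `dY n`. -/
theorem conj_dY (h : WD π μ φ q α ε μQ) (h1 : LD q α μQ π1 μ1 ι)
    {x : L × Gam (Equiv.Perm Ω) Ω L1} (hx : x ∈ YY π φ π1) (n : Ω → Q) :
    x * dY ε ι n * x⁻¹ =
      dY ε ι (fun o => α (π1 (x.2.left o)) (n (x.2.right⁻¹ o))) := by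
  refine Prod.ext ?_ (ext' (conj_right _ _ rfl) fun o => ?_)
  · change x.1 * ε n * x.1⁻¹ = _
    rw [conj_ε h, YY_right hx, dY_fst]
    congr 1
    funext o
    rw [YY_left hx]
  · rw [Prod.snd_mul, Prod.snd_mul, Prod.snd_inv, conj_left _ _ (dY_right n), dY_left, dY_left,
      conj_ι h1]

theorem MY_right {ℓ : ℕ} {M : Subgroup K} {M1 : Subgroup K1} (hm : MM ℓ π φ q ε M M1)
    {x : L × Gam (Equiv.Perm Ω) Ω L1} (hx : x ∈ MY π φ π1 M) : x.2.right = 1 := by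
  rw [← YY_right (MY_le hx)]
  exact hm.r _ (mem_MY.mp hx).2

theorem MY_left {ℓ : ℕ} {M : Subgroup K} {M1 : Subgroup K1} (hm : MM ℓ π φ q ε M M1)
    {x : L × Gam (Equiv.Perm Ω) Ω L1} (hx : x ∈ MY π φ π1 M) (o : Ω) :
    π1 (x.2.left o) ∈ M1 := by
  rw [← YY_left (MY_le hx)]
  exact hm.l _ (mem_MY.mp hx).2 o

/-- Coordinates are multiplicative on `MY`. -/
theorem MY_mul_left {ℓ : ℕ} {M : Subgroup K} {M1 : Subgroup K1} (hm : MM ℓ π φ q ε M M1)
    {x : L × Gam (Equiv.Perm Ω) Ω L1} (hx : x ∈ MY π φ π1 M)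
    (y : L × Gam (Equiv.Perm Ω) Ω L1) (o : Ω) :
    (x * y).2.left o = x.2.left o * y.2.left o := by
  rw [Prod.snd_mul, mul_left, MY_right hm hx]
  rfl

theorem mul_dY_left (x : L × Gam (Equiv.Perm Ω) Ω L1) (hx : x.2.right = 1) (n : Ω → Q)
    (o : Ω) : (x * dY ε ι n).2.left o = x.2.left o * ι (n o) := by
  rw [Prod.snd_mul, mul_left, hx]
  rfl

theorem z_mem_MY (M : Subgroup K) (z : Ω → π1.ker) :
    ((1, gin (fun o => (z o : L1))) : L × Gam (Equiv.Perm Ω) Ω L1) ∈ MY π φ π1 M := by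
  refine ⟨?_, ?_⟩
  · change φ (π 1) = gmap Ω π1 (gin (fun o => (z o : L1)))
    rw [map_one, map_one]
    refine ext' rfl fun o => ?_
    rw [gmap_left, gin_left, MonoidHom.mem_ker.mp (z o).2]
    rfl
  · change π 1 ∈ M
    rw [map_one]
    exact M.one_mem

theorem z_comm (h1 : LD q α μQ π1 μ1 ι) {ℓ : ℕ} {M : Subgroup K} {M1 : Subgroup K1}
    (hm : MM ℓ π φ q ε M M1) {x : L × Gam (Equiv.Perm Ω) Ω L1} (hx : x ∈ MY π φ π1 M)
    (z : Ω → π1.ker) :
    ((1, gin (fun o => (z o : L1))) : L × Gam (Equiv.Perm Ω) Ω L1) * x =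
      x * (1, gin (fun o => (z o : L1))) := by
  refine Prod.ext ?_ (ext' ?_ fun o => ?_)
  · change 1 * x.1 = x.1 * 1
    rw [one_mul, mul_one]
  · change 1 * x.2.right = x.2.right * 1
    rw [one_mul, mul_one]
  · rw [Prod.snd_mul, Prod.snd_mul, mul_left, mul_left, MY_right hm hx]
    exact kerπ1_comm h1 (z o).2 _

/-- The kernel of the projection to `L`. -/
theorem fst_eq_one {x : L × Gam (Equiv.Perm Ω) Ω L1} (hx : x ∈ YY π φ π1) (h2 : x.1 = 1) :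
    ∃ z : Ω → π1.ker, x = (1, gin (fun o => (z o : L1))) := by
  have h3 : φ (π x.1) = 1 := by rw [h2, map_one, map_one]
  have h4 : x.2.right = 1 := by
    rw [← YY_right hx, h3]
    rfl
  refine ⟨fun o => ⟨x.2.left o, ?_⟩, Prod.ext h2 (eq_gin h4)⟩
  rw [MonoidHom.mem_ker, ← YY_left hx, h3]
  rfl

/-- The elements of `MY` above `N`. -/
theorem MY_N (h : WD π μ φ q α ε μQ) (h1 : LD q α μQ π1 μ1 ι)
    {x : L × Gam (Equiv.Perm Ω) Ω L1} (hx : x ∈ YY π φ π1) (h2 : π x.1 ∈ NN' π ε) :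
    ∃ (n : Ω → Q) (z : Ω → π1.ker), x = dY ε ι n * (1, gin (fun o => (z o : L1))) := by
  obtain ⟨n, hn⟩ := (mem_comap_NN h).mp h2
  obtain ⟨z, hz⟩ := fst_eq_one (x := (dY ε ι n)⁻¹ * x)
    (Subgroup.mul_mem _ (Subgroup.inv_mem _ (dY_mem_YY h h1 n)) hx) (by
      change (ε n)⁻¹ * x.1 = 1
      rw [hn, inv_mul_cancel])
  exact ⟨n, z, by rw [← hz, mul_inv_cancel_left]⟩

end Data

end Pool.Agent.DPG.WDB
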