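import Mathlib
import Pool.Agent.DPG.StmtsB
import Pool.Agent.DPG.WDB
import Pool.Agent.DPG.LMT
import Pool.Agent.DPF.DGI
import Pool.Agent.DPN.YSL

/-!
# CMA: the central functions of products
-/

set_option autoImplicit false

namespace Pool.Agent.DPG

open Pool.Agent.DP Pool.Agent.DPC Pool.Agent.DPM Pool.Agent.DPN Pool.Agent.DPF
  Pool.Agent.DPK Pool.Agent.Lib_helper13 Representation
open Pool.Agent.Lib_helper13.Dade (pCore DadeHolds dadeSum)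

namespace CMA

open Classical in
/-- A sum over a group as a sum over the cosets of the image of a homomorphism. -/
theorem sum_cosets {G L : Type} [Group G] [Fintype G] [Group L] [Fintype L] (ε : G →* L)
    (f : L → ℂ) :
    ∑ l, f l = ∑ c : L ⧸ ε.range, (∑ n, f (c.out * ε n)) / Nat.card ε.ker := by
  rw [← Finset.sum_fiberwise (s := Finset.univ) (g := fun l : L => (l : L ⧸ ε.range))]
  refine Finset.sum_congr rfl fun c _ => ?_
  have h3 : (Nat.card ε.ker : ℂ) ≠ 0 := by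
    exact_mod_cast Nat.card_pos.ne'
  rw [eq_div_iff h3, mul_comm]
  have h4 := LMT.sum_ker ε (fun x => if x ∈ ε.range then f (c.out * x) else 0)
    (fun x hx => if_neg hx)
  have h5 : ∑ n, f (c.out * ε n) =
      ∑ n, (fun x => if x ∈ ε.range then f (c.out * x) else 0) (ε n) :=
    Finset.sum_congr rfl fun n _ => (if_pos ⟨n, rfl⟩).symm
  rw [h5, h4, ← Finset.sum_filter]
  congr 1
  symm
  refine Finset.sum_bij (fun x _ => c.out * x) ?_ ?_ ?_ ?_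
  · intro x hx
    rw [Finset.mem_filter] at hx ⊢
    refine ⟨Finset.mem_univ _, ?_⟩
    rw [QuotientGroup.mk_mul_of_mem _ hx.2]
    exact QuotientGroup.out_eq' c
  · intro x _ y _ hxy
    exact mul_left_cancel hxy
  · intro l hl
    rw [Finset.mem_filter] at hl
    refine ⟨c.out⁻¹ * l, ?_, mul_inv_cancel_left _ _⟩
    rw [Finset.mem_filter]
    refine ⟨Finset.mem_univ _, ?_⟩
    rw [← QuotientGroup.eq, hl.2]
    exact QuotientGroup.out_eq' c
  · intro x _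
    rfl

section

variable {L K K1 Q L1 Ω : Type} [Group L] [Fintype L] [Group K] [Fintype K] [Group K1]
  [Fintype K1] [Group Q] [Fintype Q] [Group L1] [Fintype L1] [Fintype Ω]
  {π : L →* K} {μ : π.ker →* ℂˣ} {φ : K →* Gam (Equiv.Perm Ω) Ω K1} {q : Q →* K1}
  {α : K1 →* MulAut Q} {ε : (Ω → Q) →* L} {μQ : q.ker →* ℂˣ} {π1 : L1 →* K1}
  {μ1 : π1.ker →* ℂˣ} {ι : Q →* L1} {M : Subgroup K} {M1 : Subgroup K1} {ℓ : ℕ}

theorem tp_one {F : L1 → ℂ} {ζ : L × Gam (Equiv.Perm Ω) Ω L1 → ℂ} {θ : L → ℂ}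
    (hTP : TP π φ π1 M F ζ θ) : θ 1 = F 1 ^ Fintype.card Ω * ζ 1 := by
  have h1 := hTP.2 1 (MY π φ π1 M).one_mem
  have h2 : ∏ o : Ω, F ((1 : L × Gam (Equiv.Perm Ω) Ω L1).2.left o) =
      F 1 ^ Fintype.card Ω := by
    have h3 : ∀ o : Ω, F ((1 : L × Gam (Equiv.Perm Ω) Ω L1).2.left o) = F 1 := fun _ => rfl
    rw [Finset.prod_congr rfl fun o _ => h3 o, Finset.prod_const, Finset.card_univ]
  rw [h2] at h1
  exact h1

open Classical in
/-- The sum over a coset. -/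
theorem coset_sum (h : WD π μ φ q α ε μQ) (h1 : LD q α μQ π1 μ1 ι)
    (hm : MM ℓ π φ q ε M M1) {F : L1 → ℂ} {ζ : L × Gam (Equiv.Perm Ω) Ω L1 → ℂ}
    (hζ : ZT π φ π1 μ1 ε ι M ζ) {θ : L → ℂ} (hTP : TP π φ π1 M F ζ θ) (u : L → ℤ)
    {x : L × Gam (Equiv.Perm Ω) Ω L1} (hx : x ∈ MY π φ π1 M) :
    ∑ n : Ω → Q, ((u (x.1 * ε n) : ℤ) : ℂ) * θ (x.1 * ε n) =
      (∑ n : Ω → Q, ((u (x.1 * ε n) : ℤ) : ℂ) * ∏ o, F (x.2.left o * ι (n o))) * ζ x := by
  rw [Finset.sum_mul]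
  refine Finset.sum_congr rfl fun n _ => ?_
  have h2 := hTP.2 (x * dY ε ι n)
    (Subgroup.mul_mem _ hx (WDB.dY_mem_MY h h1 hm.le n))
  rw [hζ.d n x] at h2
  have h3 : (x * dY ε ι n).1 = x.1 * ε n := rfl
  rw [h3] at h2
  rw [h2, mul_assoc]
  congr 2
  exact Finset.prod_congr rfl fun o _ => by
    rw [WDB.mul_dY_left x (WDB.MY_right hm hx) n o]

open Classical in
/-- The scalar of a product. -/
theorem scal_psm (h : WD π μ φ q α ε μQ) (h1 : LD q α μQ π1 μ1 ι)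
    (hm : MM ℓ π φ q ε M M1) {F : L1 → ℂ} (hF : F 1 ≠ 0)
    {ζ : L × Gam (Equiv.Perm Ω) Ω L1 → ℂ}
    (hζ : ZT π φ π1 μ1 ε ι M ζ) (hζ1 : ζ 1 ≠ 0) {θ : L → ℂ} (hTP : TP π φ π1 M F ζ θ)
    (u : L → ℤ) (g : L → Gam (Equiv.Perm Ω) Ω L1) (hg : ∀ l, (l, g l) ∈ YY π φ π1) :
    (∑ x, ((u x : ℤ) : ℂ) * θ x) / θ 1 * ζ 1 =
      ∑ c : L ⧸ ε.range, if π c.out ∈ M then
        psm ε ι F u (c.out, g c.out) * ζ (c.out, g c.out) else 0 := by
  have h3 : (Nat.card ε.ker : ℂ) ≠ 0 := by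
    exact_mod_cast Nat.card_pos.ne'
  have h4 : F 1 ^ Fintype.card Ω ≠ 0 := pow_ne_zero _ hF
  rw [sum_cosets ε (fun l => ((u l : ℤ) : ℂ) * θ l), tp_one hTP, div_mul_eq_mul_div,
    mul_div_mul_right _ _ hζ1, Finset.sum_div]
  refine Finset.sum_congr rfl fun c _ => ?_
  split_ifs with hc
  · have hx : ((c.out, g c.out) : L × Gam (Equiv.Perm Ω) Ω L1) ∈ MY π φ π1 M :=
      ⟨hg _, hc⟩
    have h5 := coset_sum h h1 hm hζ hTP u hx
    rw [psm, div_mul_eq_mul_div, ← h5, div_div]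
  · have h5 : ∑ n : Ω → Q, ((u (c.out * ε n) : ℤ) : ℂ) * θ (c.out * ε n) = 0 := by
      refine Finset.sum_eq_zero fun n _ => ?_
      rw [hTP.1, mul_zero]
      intro h6
      apply hc
      rw [map_mul] at h6
      exact (Subgroup.mul_mem_cancel_right M (hm.le (WDB.πε_mem h n))).mp h6
    rw [h5, zero_div, zero_div]

/-- Scalars of invariant functions are integral. -/
theorem int_scal {T : Subgroup L} {g : L → ℂ} (hg : IrrOn T g) {w : L → ℤ}
    (hw : ∀ a ∈ T, ∀ n, w (a * n * a⁻¹) = w n) :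
    IsIntegral ℤ ((∑ n, ((w n : ℤ) : ℂ) * g n) / g 1) := by
  classical
  have h1 : ∑ x, ((w x : ℤ) : ℂ) * g x = ∑ s : T, ((w s : ℤ) : ℂ) * g s := by
    rw [← Finset.sum_filter_of_ne (p := fun x => x ∈ T)]
    · exact Finset.sum_subtype _ (by simp) _
    · intro x _ hx
      by_contra h
      exact hx (by rw [hg.2 x h, mul_zero])
  rw [h1]
  exact isIntegral_wt_int hg.1 w hw

theorem int_zeta {ζ : L × Gam (Equiv.Perm Ω) Ω L1 → ℂ} (hζ : ZT π φ π1 μ1 ε ι M ζ)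
    (x : L × Gam (Equiv.Perm Ω) Ω L1) : IsIntegral ℤ (ζ x) := by
  classical
  have : Finite (Gam (Equiv.Perm Ω) Ω L1) :=
    Finite.of_injective (fun g => (g.left, g.right)) (fun g g' hgg =>
      SemidirectProduct.ext (Prod.mk.inj hgg).1 (Prod.mk.inj hgg).2)
  have : Fintype (MY π φ π1 M) := Fintype.ofFinite _
  by_cases hx : x ∈ MY π φ π1 M
  · exact isIntegral_char hζ.irr.1 ⟨x, hx⟩
  · rw [hζ.irr.2 x hx]
    exact isIntegral_zero

/-- The degree of `ζ` is prime to `ℓ`. -/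
theorem deg_zeta [Fact ℓ.Prime] (h : WD π μ φ q α ε μQ) (h1 : LD q α μQ π1 μ1 ι)
    (hm : MM ℓ π φ q ε M M1) {ζ : L × Gam (Equiv.Perm Ω) Ω L1 → ℂ}
    (hζ : ZT π φ π1 μ1 ε ι M ζ) : ∃ d : ℕ, ¬ ℓ ∣ d ∧ ζ 1 = d := by
  classical
  have hfin : Finite (Gam (Equiv.Perm Ω) Ω L1) :=
    Finite.of_injective (fun g => (g.left, g.right)) (fun g g' hgg =>
      SemidirectProduct.ext (Prod.mk.inj hgg).1 (Prod.mk.inj hgg).2)
  letI : Fintype (MY π φ π1 M) := Fintype.ofFinite _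
  have hζ1 : ζ 1 ≠ 0 := hζ.irr.1.one_ne_zero
  obtain ⟨η, hη⟩ : ∃ η : MY π φ π1 M → ℂ, η = (fun s : MY π φ π1 M => ζ s) :=
    ⟨_, rfl⟩
  have hηi : IsIrr η := by
    rw [hη]
    exact hζ.irr.1
  have hη1 : η 1 = ζ 1 := by
    rw [hη]
    rfl
  -- the projection to `M`
  obtain ⟨p, hp⟩ : ∃ p : MY π φ π1 M →* M, ∀ x, (p x : K) = π x.1.1 :=
    ⟨{ toFun := fun x => ⟨π x.1.1, (WDB.mem_MY.mp x.2).2⟩
       map_one' := Subtype.ext (map_one π)
       map_mul' := fun x y => Subtype.ext (map_mul π x.1.1 y.1.1) }, fun x => rfl⟩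
  have hps : Function.Surjective p := by
    intro m
    obtain ⟨l, hl⟩ := h.πs m
    obtain ⟨g, hg⟩ := WDB.exists_YY (π := π) (φ := φ) h1 l
    refine ⟨⟨(l, g), hg, ?_⟩, Subtype.ext ?_⟩
    · change π l ∈ M
      rw [hl]
      exact m.2
    · rw [hp]
      exact hl
  have hNn : (NN' π ε).Normal := WDB.normal_NN h
  obtain ⟨N0, hN0⟩ : ∃ N0 : Subgroup (MY π φ π1 M), N0 = ((NN' π ε).subgroupOf M).comap p :=
    ⟨_, rfl⟩
  have hN0n : N0.Normal := by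
    rw [hN0]
    infer_instance
  have hidx : N0.index = (NN' π ε).relIndex M := by
    rw [hN0, Subgroup.index_comap_of_surjective _ hps]
    rfl
  have hcop : ¬ ℓ ∣ N0.index := by
    rw [hidx]
    exact hm.cop
  have hmem0 : ∀ x : MY π φ π1 M, x ∈ N0 → π x.1.1 ∈ NN' π ε := by
    intro x h2
    rw [hN0] at h2
    have h3 : ((p x : M) : K) ∈ NN' π ε := h2
    rw [hp] at h3
    exact h3
  have hmem : ∀ x : N0, π ((x : MY π φ π1 M) : L × Gam (Equiv.Perm Ω) Ω L1).1 ∈ NN' π ε :=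
    fun x => hmem0 x x.2
  -- the linear character
  have hkey : ∀ (y : MY π φ π1 M) (x : N0), η (y * x) * η 1 = η y * η x := by
    intro y x
    obtain ⟨n, z, hnz⟩ := WDB.MY_N h h1 (WDB.MY_le (x : MY π φ π1 M).2) (hmem x)
    have h2 : ∀ w : MY π φ π1 M, (∏ o, ((μ1 (z o) : ℂˣ) : ℂ)) * η (w * x) = η w := by
      intro w
      have h3 : (((w * x : MY π φ π1 M) : L × Gam (Equiv.Perm Ω) Ω L1)) =
          (1, gin (fun o => (z o : L1))) *
            ((w : L × Gam (Equiv.Perm Ω) Ω L1) * dY ε ι n) := by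
        rw [WDB.z_comm h1 hm (Subgroup.mul_mem _ w.2 (WDB.dY_mem_MY h h1 hm.le n)) z,
          Subgroup.coe_mul, hnz, mul_assoc]
      rw [hη]
      change _ * ζ ((w * x : MY π φ π1 M) : L × Gam (Equiv.Perm Ω) Ω L1) = ζ w
      rw [h3, hζ.z, hζ.d]
    have h4 := h2 y
    have h5 := h2 1
    rw [one_mul] at h5
    have h6 : (∏ o, ((μ1 (z o) : ℂˣ) : ℂ)) ≠ 0 :=
      Finset.prod_ne_zero_iff.mpr fun o _ => Units.ne_zero _
    have h7 : (∏ o, ((μ1 (z o) : ℂˣ) : ℂ)) * (η (y * x) * η 1) =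
        (∏ o, ((μ1 (z o) : ℂˣ) : ℂ)) * (η y * η x) := by
      rw [← mul_assoc, h4, ← mul_assoc, mul_comm _ (η y), mul_assoc, h5]
    exact mul_left_cancel₀ h6 h7
  have hη10 : η 1 ≠ 0 := by
    rw [hη1]
    exact hζ1
  obtain ⟨κ0, hκ0⟩ : ∃ κ0 : N0 →* ℂ, ∀ x, κ0 x = η x / η 1 :=
    ⟨{ toFun := fun x => η x / η 1
       map_one' := div_self hη10
       map_mul' := fun x y => by
        have h2 := hkey x y
        have h3 : η ((x * y : N0) : MY π φ π1 M) = η x * η y / η 1 := by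
          rw [eq_div_iff hη10]
          exact h2
        rw [h3]
        field_simp }, fun x => rfl⟩
  obtain ⟨κ, hκ⟩ : ∃ κ : N0 →* ℂˣ, ∀ x, ((κ x : ℂˣ) : ℂ) = κ0 x :=
    ⟨MonoidHom.toHomUnits κ0, fun x => MonoidHom.coe_toHomUnits κ0 x⟩
  have hκi : IsIrr (fun k : N0 => ((κ k : ℂˣ) : ℂ)) := YSL.isIrr_lin κ
  have hip : ip (resj N0.subtype η) (fun k : N0 => ((κ k : ℂˣ) : ℂ)) ≠ 0 := by
    have h2 : resj N0.subtype η = fun k : N0 => η 1 * ((κ k : ℂˣ) : ℂ) := by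
      funext k
      rw [hκ, hκ0, mul_div_cancel₀ _ hη10]
      rfl
    have h3 : ip (resj N0.subtype η) (fun k : N0 => ((κ k : ℂˣ) : ℂ)) =
        η 1 * ip (fun k : N0 => ((κ k : ℂˣ) : ℂ)) (fun k : N0 => ((κ k : ℂˣ) : ℂ)) := by
      rw [h2, ip, ip, ← mul_div_assoc, Finset.mul_sum]
      congr 1
      exact Finset.sum_congr rfl fun k _ => mul_assoc _ _ _
    rw [h3, ip_self hκi, mul_one]
    exact hη10
  have hdef := (DGI_thm (MY π φ π1 M) ℓ N0 hcop η (fun k : N0 => ((κ k : ℂˣ) : ℂ)) hηi hκi hip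
    (padicValNat ℓ (Nat.card N0))).mpr ⟨1, by simp, by simp⟩
  obtain ⟨d, hd, hd'⟩ := hdef
  have hi0 : N0.index ≠ 0 := Subgroup.index_ne_zero_of_finite
  have hcard : padicValNat ℓ (Nat.card (MY π φ π1 M)) = padicValNat ℓ (Nat.card N0) := by
    rw [← Subgroup.card_mul_index N0, padicValNat.mul Nat.card_pos.ne' hi0,
      padicValNat.eq_zero_of_not_dvd hcop, add_zero]
  refine ⟨d, ?_, ?_⟩
  · intro hdvd
    have hd0 : d ≠ 0 := by
      rintro rfl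
      exact hη10 (by rw [hd, Nat.cast_zero])
    have h2 : padicValNat ℓ d = 0 := by omega
    have h3 := one_le_padicValNat_of_dvd hd0 hdvd
    omega
  · rw [← hη1, hd]

end

end CMA

open CMA in
theorem CMA_thm (h1 : Stmt_PRF) : Stmt_CMA := by
  classical
  intro L K K1 Q L1 Ω _ _ _ _ _ _ _ _ _ _ _ _ 𝔐 ℓ _ hM hl π μ φ q α ε μQ π1 μ1 ι M M1 h hld hm
    S S' F F' hF hF' hov hov' hsc ζ hζ T T' θ θ' hθ hθ' hTP hTP' u hu
  have hMp : 𝔐.IsPrime := hM.isPrime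
  have hF1 : F 1 ≠ 0 := hF.irr.1.one_ne_zero
  have hF1' : F' 1 ≠ 0 := hF'.irr.1.one_ne_zero
  obtain ⟨d, hd, hζd⟩ := deg_zeta h hld hm hζ
  have hd0 : d ≠ 0 := by
    rintro rfl
    exact hd (dvd_zero ℓ)
  have hζ1 : ζ 1 ≠ 0 := by
    rw [hζd]
    exact_mod_cast hd0
  have hg : ∀ l : L, ∃ g : Gam (Equiv.Perm Ω) Ω L1, (l, g) ∈ YY π φ π1 := fun l =>
    WDB.exists_YY hld l
  choose g hg using hg
  have huN : CIv ((NN' π ε).comap π) u := fun s hs x => hu s (hm.le hs) x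
  have hprf := h1 L K K1 Q L1 Ω 𝔐 ℓ hM hl π μ φ q α ε μQ π1 μ1 ι M M1 h hld hm S S' F F' hF hF'
    hov hov' hsc
  have e1 := scal_psm h hld hm hF1 hζ hζ1 hTP u g hg
  have e2 := scal_psm h hld hm hF1' hζ hζ1 hTP' u g hg
  have i1 : IsIntegral ℤ ((∑ x, ((u x : ℤ) : ℂ) * θ x) / θ 1) :=
    int_scal hθ fun a ha n => hu a (Subgroup.mem_inf.mp (Subgroup.mem_comap.mp ha)).1 n
  have i2 : IsIntegral ℤ ((∑ x, ((u x : ℤ) : ℂ) * θ' x) / θ' 1) :=
    int_scal hθ' fun a ha n => hu a (Subgroup.mem_inf.mp (Subgroup.mem_comap.mp ha)).1 n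
  have r0 : red 𝔐 (∑ c : L ⧸ ε.range, if π c.out ∈ M then
        psm ε ι F u (c.out, g c.out) * ζ (c.out, g c.out) else 0) =
      red 𝔐 (∑ c : L ⧸ ε.range, if π c.out ∈ M then
        psm ε ι F' u (c.out, g c.out) * ζ (c.out, g c.out) else 0) := by
    have hcase : ∀ c : L ⧸ ε.range,
        IsIntegral ℤ (if π c.out ∈ M then
          psm ε ι F u (c.out, g c.out) * ζ (c.out, g c.out) else 0) ∧
        IsIntegral ℤ (if π c.out ∈ M then
          psm ε ι F' u (c.out, g c.out) * ζ (c.out, g c.out) else 0) ∧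
        red 𝔐 (if π c.out ∈ M then
          psm ε ι F u (c.out, g c.out) * ζ (c.out, g c.out) else 0) =
        red 𝔐 (if π c.out ∈ M then
          psm ε ι F' u (c.out, g c.out) * ζ (c.out, g c.out) else 0) := by
      intro c
      split_ifs with hc
      · obtain ⟨p1, p2, p3⟩ := hprf (c.out, g c.out) ⟨hg _, hc⟩ u huN
        refine ⟨p1.mul (int_zeta hζ _), p2.mul (int_zeta hζ _), ?_⟩
        rw [red_mul 𝔐 p1 (int_zeta hζ _), red_mul 𝔐 p2 (int_zeta hζ _), p3]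
      · exact ⟨isIntegral_zero, isIntegral_zero, rfl⟩
    rw [red_sum 𝔐 _ _ fun c _ => (hcase c).1, red_sum 𝔐 _ _ fun c _ => (hcase c).2.1]
    exact Finset.sum_congr rfl fun c _ => (hcase c).2.2
  rw [← e1, ← e2, hζd, red_mul 𝔐 i1 (_root_.isIntegral_natCast d),
    red_mul 𝔐 i2 (_root_.isIntegral_natCast d)]
    at r0
  exact mul_right_cancel₀ (red_card_ne_zero 𝔐 hl hd) r0

end Pool.Agent.DPG
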