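import Mathlib
import Pool.Agent.DPG.StmtsA
import Pool.Agent.DP.GALL
import Pool.Agent.DP.SUMM
import Pool.Agent.DP.COSET
import Pool.Agent.DPW.COVW
import Pool.Agent.DPM.BTC
import Pool.Agent.DPC.FIBI
import Pool.Agent.DPT.BTR

/-!
# RIU: the characters of the block are extensions with the same scalars
-/

set_option autoImplicit false
set_option linter.unusedSectionVars false

namespace Pool.Agent.DPG

open Pool.Agent.DP Pool.Agent.DPC Pool.Agent.DPM Pool.Agent.DPN Pool.Agent.DPF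
  Pool.Agent.Lib_helper13 Representation
open Pool.Agent.Lib_helper13.Dade (pCore DadeHolds dadeSum)

namespace RIU

open Pool.Agent.DPT (wS iS sx)

/-! ### Sums over a subgroup -/

section Gen

variable {L : Type} [Group L] [Fintype L] (𝔐 : Ideal (integralClosure ℤ ℂ))

theorem sum_sub (S : Subgroup L) {f : L → ℂ} (h0 : ∀ x, x ∉ S → f x = 0) :
    ∑ x, f x = ∑ s : S, f s := by
  classical
  rw [← Finset.sum_subtype (Finset.univ.filter (fun x => x ∈ S)) (by intro x; simp) f]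
  refine (Finset.sum_subset (Finset.subset_univ _) ?_).symm
  intro x _ hx
  apply h0
  intro h
  exact hx (Finset.mem_filter.mpr ⟨Finset.mem_univ _, h⟩)

theorem div_eq {S : Subgroup L} {F : L → ℂ} (h0 : ∀ x, x ∉ S → F x = 0) (u : L → ℤ) :
    (∑ x, ((u x : ℤ) : ℂ) * F x) / F 1 = wS S F (fun x => ((u x : ℤ) : ℂ)) := by
  rw [sum_sub S (f := fun x => ((u x : ℤ) : ℂ) * F x) (by
    intro x hx
    rw [h0 x hx, mul_zero])]
  rfl

theorem sc_eq {S : Subgroup L} {F : L → ℂ} (h0 : ∀ x, x ∉ S → F x = 0) (u : L → ℤ) :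
    sc 𝔐 F u = red 𝔐 (wS S F (fun x => ((u x : ℤ) : ℂ))) := by
  unfold sc
  rw [div_eq h0]

theorem int_int (n : ℤ) : IsIntegral ℤ (n : ℂ) := by
  have := isIntegral_algebraMap (R := ℤ) (A := ℂ) (x := n)
  simpa using this

theorem pair_congr {F : L → ℂ} {c c' : L → (integralClosure ℤ ℂ) ⧸ 𝔐}
    (h : ∀ x, F x ≠ 0 → c x = c' x) : pair 𝔐 F c = pair 𝔐 F c' := by
  unfold pair
  refine finsum_congr fun C => ?_
  by_cases hC : F C.out = 0
  · rw [hC, red_zero, zero_mul, zero_mul]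
  · rw [h _ hC]

theorem red_nat_ne {𝔐 : Ideal (integralClosure ℤ ℂ)} [h𝔐 : 𝔐.IsPrime] {ℓ : ℕ} [Fact ℓ.Prime]
    (hℓ : (ℓ : integralClosure ℤ ℂ) ∈ 𝔐) {m : ℕ} (hm : ¬ ℓ ∣ m) : red 𝔐 (m : ℂ) ≠ 0 := by
  have hchar := quot_char 𝔐 hℓ
  have h1 := red_natCast_mul 𝔐 m isIntegral_one
  rw [mul_one, red_one, nsmul_one] at h1
  rw [h1]
  intro h2
  exact hm ((CharP.cast_eq_zero_iff _ ℓ m).mp h2)

end Gen

/-! ### Conjugation -/

section Cj

variable {L K : Type} [Group L] [Fintype L] [Group K] {π : L →* K} {N M S : Subgroup K}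

theorem al_le (hNM : N ≤ M) : AL π N S ≤ AL π M S :=
  Subgroup.comap_mono (inf_le_inf_right _ hNM)

theorem al_nrm [N.Normal] : ∀ s ∈ AL π M S, ∀ a ∈ AL π N S, s * a * s⁻¹ ∈ AL π N S := by
  rintro s ⟨hs1, hs2⟩ a ⟨ha1, ha2⟩
  refine ⟨?_, ?_⟩
  · show π (s * a * s⁻¹) ∈ N
    rw [map_mul, map_mul, map_inv]
    exact (inferInstance : N.Normal).conj_mem _ ha1 _
  · show π (s * a * s⁻¹) ∈ S
    rw [map_mul, map_mul, map_inv]
    exact S.mul_mem (S.mul_mem hs2 ha2) (S.inv_mem hs2)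

/-- The elements above `M` are products of elements of `T` and elements above `N`. -/
theorem exists_mul (hπ : Function.Surjective π) [N.Normal] (hNM : N ≤ M) (hc : M ≤ N ⊔ S) {y : L}
    (hy : π y ∈ M) : ∃ t m, t ∈ AL π M S ∧ π m ∈ N ∧ y = t * m := by
  have h1 : π y ∈ S ⊔ N := by
    rw [sup_comm]
    exact hc hy
  rw [← SetLike.mem_coe, Subgroup.mul_normal] at h1
  obtain ⟨s, hs, n, hn, hsn⟩ := Set.mem_mul.mp h1
  obtain ⟨m, rfl⟩ := hπ n
  refine ⟨y * m⁻¹, m, ?_, hn, by group⟩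
  have h2 : π (y * m⁻¹) = s := by
    rw [map_mul, map_inv, ← hsn, mul_inv_cancel_right]
  refine ⟨?_, ?_⟩
  · show π (y * m⁻¹) ∈ M
    rw [map_mul, map_inv]
    exact M.mul_mem hy (M.inv_mem (hNM hn))
  · show π (y * m⁻¹) ∈ S
    rw [h2]
    exact hs

/-- The sum over an invariant function does not change under conjugation with an element above
`M`. -/
theorem sum_conj (hπ : Function.Surjective π) [N.Normal] (hNM : N ≤ M) (hc : M ≤ N ⊔ S)
    {F : L → ℂ} (hF : IrrOn (AL π M S) F) {u : L → ℤ} (hu : CIv (N.comap π) u) {y : L}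
    (hy : π y ∈ M) :
    ∑ x, ((u (y⁻¹ * x * y) : ℤ) : ℂ) * F x = ∑ x, ((u x : ℤ) : ℂ) * F x := by
  obtain ⟨t, m, ht, hm, rfl⟩ := exists_mul hπ hNM hc hy
  refine Fintype.sum_equiv (MulAut.conj t⁻¹).toEquiv _ _ ?_
  intro x
  have h1 : (MulAut.conj t⁻¹).toEquiv x = t⁻¹ * x * t := by
    show t⁻¹ * x * t⁻¹⁻¹ = t⁻¹ * x * t
    rw [inv_inv]
  rw [h1]
  have h2 : (t * m)⁻¹ * x * (t * m) = m⁻¹ * (t⁻¹ * x * t) * m⁻¹⁻¹ := by group
  have h3 : F (t⁻¹ * x * t) = F x := by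
    have h4 := DPT.BTR.IrrOn_class hF (inv_mem ht) x
    rw [inv_inv] at h4
    exact h4
  rw [h2, hu m⁻¹ ((N.comap π).inv_mem hm), h3]

end Cj

/-! ### Conjugate blocks -/

section Cov

variable {L : Type} [Group L] [Fintype L] (𝔐 : Ideal (integralClosure ℤ ℂ)) {N' M' : Subgroup L}

open Classical in
/-- The indicator of the class of `g` under the conjugation by the elements of `M'`. -/
noncomputable def ug (M' : Subgroup L) (g : L) (x : L) : ℤ :=
  if ∃ m ∈ M', x = m * g * m⁻¹ then 1 else 0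

theorem ug_civ (g : L) : CIv M' (ug M' g) := by
  classical
  intro s hs x
  unfold ug
  refine if_congr ?_ rfl rfl
  constructor
  · rintro ⟨m, hm, h⟩
    refine ⟨s⁻¹ * m, M'.mul_mem (M'.inv_mem hs) hm, ?_⟩
    calc x = s⁻¹ * (s * x * s⁻¹) * s := by group
      _ = s⁻¹ * (m * g * m⁻¹) * s := by rw [h]
      _ = s⁻¹ * m * g * (s⁻¹ * m)⁻¹ := by group
  · rintro ⟨m, hm, h⟩
    refine ⟨s * m, M'.mul_mem hs hm, ?_⟩
    rw [h]
    group

theorem ug_son (hn : ∀ s ∈ M', ∀ m ∈ N', s * m * s⁻¹ ∈ N') {g : L} (hg : g ∈ N') :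
    SOn (N' : Set L) (ug M' g) := by
  classical
  intro x hx
  unfold ug
  rw [if_neg]
  rintro ⟨m, hm, rfl⟩
  exact hx (hn m hm g hg)

theorem ug_eq (g y : M') : conjInd y g = ((ug M' (g : L) (y : L) : ℤ) : ℂ) := by
  classical
  unfold ug conjInd
  by_cases h : IsConj y g
  · rw [if_pos h, if_pos]
    · norm_num
    · obtain ⟨c, hc⟩ := isConj_iff.mp h.symm
      refine ⟨c, c.2, ?_⟩
      rw [← hc]
      rfl
  · rw [if_neg h, if_neg]
    · norm_num
    · rintro ⟨m, hm, h1⟩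
      apply h
      refine (isConj_iff.mpr ⟨⟨m, hm⟩, ?_⟩).symm
      exact Subtype.ext h1.symm

theorem covw {ℓ : ℕ} [Fact ℓ.Prime] (hmax : 𝔐.IsMaximal) (hℓ : (ℓ : integralClosure ℤ ℂ) ∈ 𝔐)
    (hle : N' ≤ M') (hn : ∀ s ∈ M', ∀ m ∈ N', s * m * s⁻¹ ∈ N') {χ χ' : L → ℂ}
    (hχ : IrrOn N' χ) (hχ' : IrrOn N' χ')
    (h : ∀ u : L → ℤ, CIv M' u → SOn (N' : Set L) u → sc 𝔐 χ u = sc 𝔐 χ' u) :
    ∃ y ∈ M', ∀ u : L → ℤ, CIv N' u → sc 𝔐 χ u = sc 𝔐 χ' (fun x => u (y⁻¹ * x * y)) := by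
  classical
  have hN := DPT.BTR.normal hn
  have hcl := DPT.BTR.clG hN
  have hi : IsIrr (fun a : N'.subgroupOf M' => χ ((a : M') : L)) := DPT.BTR.irrA hle hχ
  have hi' : IsIrr (fun a : N'.subgroupOf M' => χ' ((a : M') : L)) := DPT.BTR.irrA hle hχ'
  obtain ⟨y, hy⟩ := DPW.COVW_thm (N'.subgroupOf M') M' (M' ⧸ N'.subgroupOf M') 𝔐 ℓ hmax hℓ
    (N'.subgroupOf M').subtype (MulAut.conjNormal (H := N'.subgroupOf M'))
    (QuotientGroup.mk' (N'.subgroupOf M')) hcl _ _ hi hi' (by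
      intro a ha hai
      have e1 : ∀ θ : N'.subgroupOf M' → ℂ, IsIrr θ → red 𝔐 (wt θ a) =
          pair 𝔐 (ext0 a) (cen 𝔐 (N'.subgroupOf M').subtype θ) := by
        intro θ hθ
        have h1 := red_wt_eq_pair 𝔐 (N'.subgroupOf M').subtype hθ (ext0 a) ?_ ?_
        · rw [← h1]
          congr 2
          funext x
          exact (ext0_of_mem a x.2).symm
        · intro g x
          by_cases hx : x ∈ N'.subgroupOf M'
          · have h2 : g * x * g⁻¹ ∈ N'.subgroupOf M' := hN.conj_mem x hx g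
            rw [ext0_of_mem a hx, ext0_of_mem a h2]
            have h3 := ha g ⟨x, hx⟩
            rw [← h3]
            congr 1
          · have h2 : g * x * g⁻¹ ∉ N'.subgroupOf M' := by
              intro h3
              apply hx
              have h4 := hN.conj_mem _ h3 g⁻¹
              have h5 : g⁻¹ * (g * x * g⁻¹) * g⁻¹⁻¹ = x := by group
              rwa [h5] at h4
            rw [ext0_of_not_mem a hx, ext0_of_not_mem a h2]
        · intro x
          by_cases hx : x ∈ N'.subgroupOf M'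
          · rw [ext0_of_mem a hx]
            exact hai _
          · rw [ext0_of_not_mem a hx]
            exact isIntegral_zero
      rw [e1 _ hi, e1 _ hi']
      apply pair_congr
      intro x hx
      have hx' : x ∈ N'.subgroupOf M' := by
        by_contra hx'
        exact hx (ext0_of_not_mem a hx')
      have e2 : ∀ θ : L → ℂ, IrrOn N' θ → cen 𝔐 (N'.subgroupOf M').subtype
          (fun a : N'.subgroupOf M' => θ ((a : M') : L)) x = sc 𝔐 θ (ug M' (x : L)) := by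
        intro θ hθ
        rw [sc_eq 𝔐 hθ.2, ← DPT.BTR.wtA hle]
        unfold cen
        congr 2
        funext z
        exact ug_eq x (z : M')
      rw [e2 χ hχ, e2 χ' hχ']
      exact h _ (ug_civ _) (ug_son hn (Subgroup.mem_subgroupOf.mp hx')))
  refine ⟨y, y.2, ?_⟩
  intro u hu
  have hcf : ∀ g x : N'.subgroupOf M', ((u (((g * x * g⁻¹ : N'.subgroupOf M') : M') : L) : ℤ) : ℂ) =
      ((u ((x : M') : L) : ℤ) : ℂ) := by
    intro g x
    congr 1
    exact hu _ (Subgroup.mem_subgroupOf.mp g.2) _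
  have e3 : ∀ θ : N'.subgroupOf M' → ℂ, IsIrr θ →
      red 𝔐 (wt θ (fun x => ((u ((x : M') : L) : ℤ) : ℂ))) =
      pair 𝔐 (fun x : N'.subgroupOf M' => ((u ((x : M') : L) : ℤ) : ℂ))
        (cen 𝔐 (MonoidHom.id _) θ) := by
    intro θ hθ
    exact red_wt_eq_pair 𝔐 (MonoidHom.id _) hθ
      (fun x : N'.subgroupOf M' => ((u ((x : M') : L) : ℤ) : ℂ)) hcf (fun x => int_int _)
  have hi2 : IsIrr (fun x : N'.subgroupOf M' =>
      χ' (((MulAut.conjNormal y x : N'.subgroupOf M') : M') : L)) :=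
    hi'.comp_mulEquiv (MulAut.conjNormal y)
  rw [sc_eq 𝔐 hχ.2, sc_eq 𝔐 hχ'.2, ← DPT.BTR.wtA hle, ← DPT.BTR.wtA hle, e3 _ hi, ← hy,
    ← e3 _ hi2]
  rw [← wt_comp_equiv (MulAut.conjNormal y) (fun a : N'.subgroupOf M' => χ' ((a : M') : L))]
  congr 2
  funext x
  have h1 : (((MulAut.conjNormal y x : N'.subgroupOf M') : M') : L) = y * (x : M') * (y : L)⁻¹ := by
    rw [MulAut.conjNormal_apply]
    rfl
  show ((u ((x : M') : L) : ℤ) : ℂ) =
    ((u ((y : L)⁻¹ * (((MulAut.conjNormal y x : N'.subgroupOf M') : M') : L) * y) : ℤ) : ℂ)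
  rw [h1]
  congr 2
  group

end Cov

/-! ### Restriction to the group above `N` -/

section Res

variable {L K : Type} [Group L] [Fintype L] [Group K] {π : L →* K} {N M S : Subgroup K}
  (𝔐 : Ideal (integralClosure ℤ ℂ))

open Classical in
/-- The restriction of `F` to the group above `N`. -/
noncomputable def rs (π : L →* K) (N : Subgroup K) (F : L → ℂ) (x : L) : ℂ :=
  if π x ∈ N then F x else 0

theorem rs_of {F : L → ℂ} {x : L} (h : π x ∈ N) : rs π N F x = F x := if_pos h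

theorem rs_not {F : L → ℂ} {x : L} (h : π x ∉ N) : rs π N F x = 0 := if_neg h

theorem rs_irr {F : L → ℂ} (hF : EF π N M S F) : IrrOn (AL π N S) (rs π N F) := by
  refine ⟨?_, ?_⟩
  · have h1 : (fun s : AL π N S => rs π N F s) = fun s : AL π N S => F s := by
      funext s
      exact rs_of s.2.1
    rw [h1]
    exact hF.res
  · intro x hx
    by_cases h : π x ∈ N
    · rw [rs_of h]
      apply hF.irr.2
      intro h2
      exact hx ⟨h, h2.2⟩
    · exact rs_not h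

theorem rs_sc {F : L → ℂ} {u : L → ℤ} (hu : SOn (N.comap π : Set L) u) :
    sc 𝔐 (rs π N F) u = sc 𝔐 F u := by
  unfold sc
  have h1 : π 1 ∈ N := by
    rw [map_one]
    exact N.one_mem
  rw [rs_of h1]
  congr 2
  refine Finset.sum_congr rfl fun x _ => ?_
  by_cases h : π x ∈ N
  · rw [rs_of h]
  · rw [hu x h, Int.cast_zero, zero_mul, zero_mul]

/-- The linear character under a character. -/
theorem exists_ov (hc : π.ker ≤ Subgroup.center L) {A : Subgroup L} (hA : π.ker ≤ A) {f : L → ℂ}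
    (hf : IrrOn A f) : ∃ μ : π.ker →* ℂˣ, Ov π μ f := by
  have hZ : π.ker.subgroupOf A ≤ Subgroup.center A := by
    intro z hz
    rw [Subgroup.mem_subgroupOf] at hz
    rw [Subgroup.mem_center_iff]
    intro g
    exact Subtype.ext (Subgroup.mem_center_iff.mp (hc hz) g)
  obtain ⟨μ, hμ⟩ := DPM.BTC.exists_cc hZ hf.1
  refine ⟨μ.comp (Subgroup.subgroupOfEquivOfLe hA).symm.toMonoidHom, ?_⟩
  intro z x
  by_cases hx : x ∈ A
  · exact hμ ((Subgroup.subgroupOfEquivOfLe hA).symm z) ⟨x, hx⟩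
  · rw [hf.2 x hx, hf.2, mul_zero]
    intro h
    apply hx
    have h1 := A.mul_mem (A.inv_mem (hA z.2)) h
    rwa [inv_mul_cancel_left] at h1

theorem ker_le : π.ker ≤ AL π N S := by
  intro z hz
  have h1 : π z = 1 := hz
  show π z ∈ N ⊓ S
  rw [h1]
  exact (N ⊓ S).one_mem

end Res

/-! ### The scalars on the group above `N` -/

section Agr

variable {L K : Type} [Group L] [Fintype L] [Group K] [Fintype K] {π : L →* K}
  {N M : Subgroup K} (𝔐 : Ideal (integralClosure ℤ ℂ))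

theorem cj_civ [hN : N.Normal] {u : L → ℤ} (hu : CIv (N.comap π) u) (y : L) :
    CIv (N.comap π) (fun x => u (y⁻¹ * x * y)) := by
  intro s hs x
  have h1 : y⁻¹ * s * y ∈ N.comap π := by
    show π (y⁻¹ * s * y) ∈ N
    have h2 := hN.conj_mem _ (show π s ∈ N from hs) (π y)⁻¹
    rw [map_mul, map_mul, map_inv]
    rwa [inv_inv] at h2
  have h3 := hu _ h1 (y⁻¹ * x * y)
  show u (y⁻¹ * (s * x * s⁻¹) * y) = u (y⁻¹ * x * y)
  rw [← h3]
  congr 1
  group

theorem cj_son [hN : N.Normal] {u : L → ℤ} (hu : SOn (N.comap π : Set L) u) (y : L) :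
    SOn (N.comap π : Set L) (fun x => u (y⁻¹ * x * y)) := by
  intro x hx
  apply hu
  intro h
  apply hx
  have h2 := hN.conj_mem _ (show π (y⁻¹ * x * y) ∈ N from h) (π y)
  have h3 : π y * π (y⁻¹ * x * y) * (π y)⁻¹ = π x := by
    rw [map_mul, map_mul, map_inv]
    group
  rw [h3] at h2
  exact h2

omit [Fintype K] in
theorem nrm_comap [hN : N.Normal] : ∀ s ∈ M.comap π, ∀ m ∈ N.comap π, s * m * s⁻¹ ∈ N.comap π := by
  intro s _ m hm
  show π (s * m * s⁻¹) ∈ N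
  rw [map_mul, map_mul, map_inv]
  exact hN.conj_mem _ hm _

theorem agree (h2 : Stmt_IRC) {ℓ : ℕ} [Fact ℓ.Prime] (hmax : 𝔐.IsMaximal)
    (hℓ : (ℓ : integralClosure ℤ ℂ) ∈ 𝔐) (hπ : Function.Surjective π)
    (hc : π.ker ≤ Subgroup.center L) [N.Normal] [M.Normal] (hNM : N ≤ M)
    {σr : Finset (Subgroup K)} {Fr : L → ℂ} (hσr : ChN ℓ N σr) (hFr : EF π N M (stb σr) Fr)
    {σ : Finset (Subgroup K)} {G : L → ℂ} (hσ : ChN ℓ N σ) (hG : IrrOn (AL π M (stb σ)) G)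
    (H : ∀ u : L → ℤ, CIv (M.comap π) u → SOn (M.comap π : Set L) u → sc 𝔐 G u = sc 𝔐 Fr u)
    {f : L → ℂ} (hf : IrrOn (AL π N (stb σ)) f) (hip : iS (AL π N (stb σ)) G f ≠ 0) :
    ∀ u : L → ℤ, CIv (N.comap π) u → SOn (N.comap π : Set L) u → sc 𝔐 f u = sc 𝔐 Fr u := by
  obtain ⟨μ1, hμ1⟩ := exists_ov hc ker_le hf
  have hfr := rs_irr hFr
  obtain ⟨μ2, hμ2⟩ := exists_ov hc ker_le hfr
  obtain ⟨χ, hχ, _, hχs⟩ := h2 L K 𝔐 ℓ hmax hℓ π hπ hc μ1 N σ hσ f hf hμ1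
  obtain ⟨χ', hχ', _, hχs'⟩ := h2 L K 𝔐 ℓ hmax hℓ π hπ hc μ2 N σr hσr _ hfr hμ2
  obtain ⟨y, hy, hyu⟩ := covw 𝔐 hmax hℓ (Subgroup.comap_mono hNM) nrm_comap hχ hχ' (by
    intro u hu hu0
    have huN : CIv (N.comap π) u := fun s hs x => hu s (hNM hs) x
    rw [hχs u huN hu0, hχs' u huN hu0, rs_sc 𝔐 hu0,
      ← H u hu (fun x hx => hu0 x (fun h => hx (hNM h))), sc_eq 𝔐 hf.2, sc_eq 𝔐 hG.2,
      DPT.BTR.wS_under SUMM_thm (al_le hNM) al_nrm hG hf hip]
    · intro g hg x _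
      congr 1
      exact hu g hg.1 x
    · intro x hx hx'
      have h3 : x ∉ (N.comap π : Set L) := by
        intro h
        exact hx' ⟨h, hx.2⟩
      show ((u x : ℤ) : ℂ) = 0
      rw [hu0 x h3, Int.cast_zero])
  intro u hu hu0
  rw [← hχs u hu hu0, hyu u hu, hχs' _ (cj_civ hu y) (cj_son hu0 y), rs_sc 𝔐 (cj_son hu0 y)]
  unfold sc
  rw [sum_conj hπ hNM hFr.cov hFr.irr hu hy]

end Agr

/-! ### Averages -/

section Av

variable {L K : Type} [Group L] [Fintype L] [Group K] {π : L →* K} {N M S : Subgroup K}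
  (𝔐 : Ideal (integralClosure ℤ ℂ))

open Classical in
/-- The sum of the conjugates of `u` under the elements above `M`. -/
noncomputable def av (N' M' : Subgroup L) (u : L → ℤ) (x : L) : ℤ :=
  ∑ q : M' ⧸ N'.subgroupOf M', u ((q.out : L)⁻¹ * x * q.out)

theorem av_civ {N' M' : Subgroup L} (hn : (N'.subgroupOf M').Normal) {u : L → ℤ}
    (hu : CIv N' u) : CIv M' (av N' M' u) := by
  classical
  intro s hs x
  unfold av
  let s' : M' := ⟨s, hs⟩
  refine Fintype.sum_equiv (Equiv.mulLeft ((s' : M' ⧸ N'.subgroupOf M')⁻¹)) _ _ ?_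
  intro q
  set q' : M' ⧸ N'.subgroupOf M' := (s' : M' ⧸ N'.subgroupOf M')⁻¹ * q with hq'
  show u ((q.out : L)⁻¹ * (s * x * s⁻¹) * q.out) = u ((q'.out : L)⁻¹ * x * q'.out)
  have h1 : (q'.out)⁻¹ * (s'⁻¹ * q.out) ∈ N'.subgroupOf M' := by
    rw [← QuotientGroup.eq, QuotientGroup.mk_mul, QuotientGroup.mk_inv]
    rw [QuotientGroup.out_eq', QuotientGroup.out_eq', hq']
  rw [Subgroup.mem_subgroupOf] at h1
  set n : L := (((q'.out)⁻¹ * (s'⁻¹ * q.out) : M') : L) with hn'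
  have h2 : n = (q'.out : L)⁻¹ * (s⁻¹ * q.out) := rfl
  have h3 := hu n⁻¹ (N'.inv_mem h1) ((q'.out : L)⁻¹ * x * q'.out)
  rw [← h3]
  congr 1
  rw [h2]
  group

theorem av_son [M.Normal] (hNM : N ≤ M) {u : L → ℤ} {t : L} (ht : π t ∈ M)
    (hu : SOn {y | π (t⁻¹ * y) ∈ N} u) :
    SOn (M.comap π : Set L) (av (N.comap π) (M.comap π) u) := by
  classical
  intro x hx
  unfold av
  refine Finset.sum_eq_zero fun q _ => ?_
  apply hu
  intro h
  apply hx
  have h1 : π (t⁻¹ * ((q.out : L)⁻¹ * x * q.out)) ∈ M := hNM h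
  have hq : π (q.out : L) ∈ M := q.out.2
  have h2 : π x = π (q.out : L) * (π t * π (t⁻¹ * ((q.out : L)⁻¹ * x * q.out))) *
      (π (q.out : L))⁻¹ := by
    rw [← map_inv, ← map_mul, ← map_mul, ← map_mul]
    congr 1
    group
  show π x ∈ M
  rw [h2]
  exact M.mul_mem (M.mul_mem hq (M.mul_mem ht h1)) (M.inv_mem hq)

theorem av_sum (hπ : Function.Surjective π) [N.Normal] (hNM : N ≤ M) (hc : M ≤ N ⊔ S)
    {F : L → ℂ} (hF : IrrOn (AL π M S) F) {u : L → ℤ} (hu : CIv (N.comap π) u) :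
    ∑ x, ((av (N.comap π) (M.comap π) u x : ℤ) : ℂ) * F x =
      (Nat.card (↥(M.comap π) ⧸ (N.comap π).subgroupOf (M.comap π)) : ℂ) *
        ∑ x, ((u x : ℤ) : ℂ) * F x := by
  classical
  have h1 : ∀ x, ((av (N.comap π) (M.comap π) u x : ℤ) : ℂ) * F x =
      ∑ q : ↥(M.comap π) ⧸ (N.comap π).subgroupOf (M.comap π),
        ((u ((q.out : L)⁻¹ * x * q.out) : ℤ) : ℂ) * F x := by
    intro x
    unfold av
    rw [Int.cast_sum, Finset.sum_mul]
  rw [Finset.sum_congr rfl fun x _ => h1 x, Finset.sum_comm,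
    Finset.sum_congr rfl fun q _ => sum_conj hπ hNM hc hF hu
      (show π ((q.out : ↥(M.comap π)) : L) ∈ M from q.out.2), Finset.sum_const,
    Finset.card_univ, ← Nat.card_eq_fintype_card, nsmul_eq_mul]

theorem coset_eq (hπ : Function.Surjective π) [hN : N.Normal] (hNM : N ≤ M) (hc : M ≤ N ⊔ S)
    {t : L} (ht : π t ∈ M) : ∃ t' ∈ AL π M S, ∀ y, π (t⁻¹ * y) ∈ N → π (t'⁻¹ * y) ∈ N := by
  obtain ⟨t', m, ht', hm, rfl⟩ := exists_mul hπ hNM hc ht
  refine ⟨t', ht', ?_⟩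
  intro y hy
  have h1 : π (t'⁻¹ * y) = π m * π ((t' * m)⁻¹ * y) := by
    rw [← map_mul]
    congr 1
    group
  rw [h1]
  exact N.mul_mem hm hy

theorem fib_eq {X R : Type} [Group X] [Fintype X] [Group R] (p : X →* R) (E : X → ℂ) (t : ℂ)
    (F : X → ℂ) (h : R) (h0 : ∀ x, p x ≠ h → F x = 0) :
    fib p E t F h = (∑ x, F x * E x) / t := by
  unfold fib
  congr 1
  refine Finset.sum_congr rfl fun x _ => ?_
  split_ifs with hx
  · rfl
  · rw [h0 x hx, zero_mul]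

theorem lam_int (hπ : Function.Surjective π) [N.Normal] (hNM : N ≤ M) {F : L → ℂ}
    (hF : EF π N M S F) {u : L → ℤ} (hu : CIv (N.comap π) u) {t : L} (ht : π t ∈ M)
    (hs : SOn {y | π (t⁻¹ * y) ∈ N} u) :
    IsIntegral ℤ ((∑ x, ((u x : ℤ) : ℂ) * F x) / F 1) := by
  classical
  obtain ⟨t', ht', htt⟩ := coset_eq hπ hNM hF.cov ht
  have hn : ((AL π N S).subgroupOf (AL π M S)).Normal := DPT.BTR.normal al_nrm
  have hcl := DPT.BTR.clG hn
  have hle : AL π N S ≤ AL π M S := al_le hNM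
  have hi : IsIrr (fun a : (AL π N S).subgroupOf (AL π M S) => F ((a : AL π M S) : L)) :=
    hF.res.comp_mulEquiv (Subgroup.subgroupOfEquivOfLe hle)
  have h := (FIBI_thm _ _ _ (⊥ : Ideal (integralClosure ℤ ℂ)) _ _ _ hcl _
    (fun x : AL π M S => F x) hi hF.irr.1.isChr (fun a => rfl)).1
    (fun x : AL π M S => ((u x : ℤ) : ℂ)) ?_ (fun x => int_int _)
    (QuotientGroup.mk' ((AL π N S).subgroupOf (AL π M S)) ⟨t', ht'⟩)
  · rw [fib_eq] at h
    · rw [div_eq hF.irr.2]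
      exact h
    · intro x hx
      have h2 : u x = 0 := by
        apply hs
        intro h3
        apply hx
        refine (QuotientGroup.eq.mpr ?_).symm
        rw [Subgroup.mem_subgroupOf]
        refine ⟨htt _ h3, ?_⟩
        show π (t'⁻¹ * (x : L)) ∈ S
        rw [map_mul, map_inv]
        exact S.mul_mem (S.inv_mem ht'.2) x.2.2
      rw [h2, Int.cast_zero]
  · intro a x
    congr 1
    exact hu _ ((Subgroup.mem_subgroupOf.mp a.2).1) _

/-! ### Indices -/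

theorem idx_top (hπ : Function.Surjective π) :
    Nat.card (↥(M.comap π) ⧸ (N.comap π).subgroupOf (M.comap π)) = N.relIndex M := by
  rw [← Subgroup.index_eq_card]
  show (N.comap π).relIndex (M.comap π) = N.relIndex M
  rw [Subgroup.relIndex_comap, Subgroup.map_comap_eq_self_of_surjective hπ]

theorem idx_dvd (hπ : Function.Surjective π) [hN : N.Normal] :
    Nat.card (↥(AL π M S) ⧸ (AL π N S).subgroupOf (AL π M S)) ∣ N.relIndex M := by
  rw [← Subgroup.index_eq_card]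
  have h1 : ((AL π N S).subgroupOf (AL π M S)).index = (AL π N S).relIndex (AL π M S) := rfl
  have h2 : (N ⊓ S) ⊓ (M ⊓ S) = N ⊓ (M ⊓ S) := by
    apply le_antisymm
    · exact le_inf (inf_le_left.trans inf_le_left) inf_le_right
    · exact le_inf (le_inf inf_le_left (inf_le_right.trans inf_le_right)) inf_le_right
  have h3 : (N.subgroupOf M).Normal := inferInstance
  rw [h1, Subgroup.relIndex_comap, Subgroup.map_comap_eq_self_of_surjective hπ,
    ← Subgroup.inf_relIndex_right, h2, Subgroup.inf_relIndex_right,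
    ← Subgroup.relIndex_subgroupOf (H := N) (inf_le_left : M ⊓ S ≤ M)]
  exact Subgroup.relIndex_dvd_index_of_normal (N.subgroupOf M) ((M ⊓ S).subgroupOf M)

theorem key [h𝔐 : 𝔐.IsPrime] {ℓ : ℕ} [Fact ℓ.Prime] (hℓ : (ℓ : integralClosure ℤ ℂ) ∈ 𝔐)
    (hπ : Function.Surjective π) [N.Normal] [M.Normal] (hNM : N ≤ M)
    (hidx : ¬ ℓ ∣ N.relIndex M) {Sr : Subgroup K} {Fr F G : L → ℂ} (hFr : EF π N M Sr Fr)
    (hSUP : SUP 𝔐 π N M Fr) (hF : EF π N M S F)
    (hFs : ∀ u : L → ℤ, CIv (N.comap π) u → sc 𝔐 F u = sc 𝔐 Fr u)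
    (hG : IrrOn (AL π M S) G)
    (H : ∀ u : L → ℤ, CIv (M.comap π) u → SOn (M.comap π : Set L) u → sc 𝔐 G u = sc 𝔐 Fr u)
    [hn : ((AL π N S).subgroupOf (AL π M S)).Normal]
    {η : ↥(AL π M S) ⧸ (AL π N S).subgroupOf (AL π M S) → ℂ} (hη : IsIrr η)
    (hGη : ∀ t : AL π M S,
      G t = F t * η (QuotientGroup.mk' ((AL π N S).subgroupOf (AL π M S)) t))
    (t : AL π M S) :
    red 𝔐 (η (QuotientGroup.mk' ((AL π N S).subgroupOf (AL π M S)) t)) = red 𝔐 (η 1) := by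
  classical
  have : Fintype (↥(AL π M S) ⧸ (AL π N S).subgroupOf (AL π M S)) := Fintype.ofFinite _
  obtain ⟨u₀, hu, hs, hne⟩ := hSUP t t.2.1
  have hnt : ((N.comap π).subgroupOf (M.comap π)).Normal := DPT.BTR.normal nrm_comap
  have hcv := av_civ hnt hu
  have hGs := H _ hcv (av_son hNM t.2.1 hs)
  have hlr := lam_int hπ hNM hFr hu t.2.1 hs
  have hl := lam_int hπ hNM hF hu t.2.1 hs
  set m : ℕ := Nat.card (↥(M.comap π) ⧸ (N.comap π).subgroupOf (M.comap π)) with hm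
  have hmn : ¬ ℓ ∣ m := by
    rw [hm, idx_top hπ]
    exact hidx
  have e1 : sc 𝔐 Fr (av (N.comap π) (M.comap π) u₀) = m • sc 𝔐 Fr u₀ := by
    unfold sc
    rw [av_sum hπ hNM hFr.cov hFr.irr hu, mul_div_assoc, red_natCast_mul 𝔐 _ hlr]
  set ηt := η (QuotientGroup.mk' ((AL π N S).subgroupOf (AL π M S)) t) with hηt
  have e2 : ∑ x, ((u₀ x : ℤ) : ℂ) * G x = ηt * ∑ x, ((u₀ x : ℤ) : ℂ) * F x := by
    rw [sum_sub (AL π M S) (f := fun x => ((u₀ x : ℤ) : ℂ) * G x) (by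
      intro x hx
      rw [hG.2 x hx, mul_zero]), sum_sub (AL π M S) (f := fun x => ((u₀ x : ℤ) : ℂ) * F x) (by
      intro x hx
      rw [hF.irr.2 x hx, mul_zero]), Finset.mul_sum]
    refine Finset.sum_congr rfl fun x _ => ?_
    by_cases hx : π ((t : L)⁻¹ * x) ∈ N
    · have h1 : QuotientGroup.mk' ((AL π N S).subgroupOf (AL π M S)) t =
          QuotientGroup.mk' ((AL π N S).subgroupOf (AL π M S)) x := by
        refine QuotientGroup.eq.mpr ?_
        rw [Subgroup.mem_subgroupOf]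
        refine ⟨hx, ?_⟩
        show π ((t : L)⁻¹ * (x : L)) ∈ S
        rw [map_mul, map_inv]
        exact S.mul_mem (S.inv_mem t.2.2) x.2.2
      rw [hGη x, hηt, h1]
      ring
    · rw [hs (x : L) hx, Int.cast_zero, zero_mul, zero_mul, mul_zero]
  have hη1 : η 1 ≠ 0 := hη.one_ne_zero
  have hF1 : F 1 ≠ 0 := hF.irr.1.one_ne_zero
  have e3 : G 1 = F 1 * η 1 := by
    have h1 := hGη 1
    rw [map_one] at h1
    exact h1
  have e4 : η 1 * ((∑ x, ((av (N.comap π) (M.comap π) u₀ x : ℤ) : ℂ) * G x) / G 1) =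
      m * (ηt * ((∑ x, ((u₀ x : ℤ) : ℂ) * F x) / F 1)) := by
    rw [av_sum hπ hNM hF.cov hG hu, ← hm, e2, e3]
    field_simp
  have hi1 : IsIntegral ℤ (η 1) := isIntegral_char hη 1
  have hit : IsIntegral ℤ ηt := isIntegral_char hη _
  have hiG : IsIntegral ℤ
      ((∑ x, ((av (N.comap π) (M.comap π) u₀ x : ℤ) : ℂ) * G x) / G 1) := by
    rw [div_eq hG.2]
    refine isIntegral_wt hG.1 _ ?_ (fun x => int_int _)
    intro g x
    exact congrArg (fun n : ℤ => (n : ℂ)) (hcv g g.2.1 x)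
  have e5 := congrArg (red 𝔐) e4
  rw [red_mul 𝔐 hi1 hiG, red_natCast_mul 𝔐 _ (hit.mul hl), red_mul 𝔐 hit hl] at e5
  change red 𝔐 (η 1) * sc 𝔐 G (av (N.comap π) (M.comap π) u₀) =
    m • (red 𝔐 ηt * sc 𝔐 F u₀) at e5
  rw [hGs, e1, hFs u₀ hu, nsmul_eq_mul, nsmul_eq_mul] at e5
  have hm0 : (m : (integralClosure ℤ ℂ) ⧸ 𝔐) ≠ 0 := by
    have h1 := red_nat_ne hℓ hmn
    have h2 := red_natCast_mul 𝔐 m isIntegral_one
    rw [mul_one, red_one, nsmul_one] at h2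
    rwa [h2] at h1
  have e6 : ((m : (integralClosure ℤ ℂ) ⧸ 𝔐) * sc 𝔐 Fr u₀) * red 𝔐 (η 1) =
      ((m : (integralClosure ℤ ℂ) ⧸ 𝔐) * sc 𝔐 Fr u₀) * red 𝔐 ηt := by
    calc ((m : (integralClosure ℤ ℂ) ⧸ 𝔐) * sc 𝔐 Fr u₀) * red 𝔐 (η 1) =
        red 𝔐 (η 1) * ((m : (integralClosure ℤ ℂ) ⧸ 𝔐) * sc 𝔐 Fr u₀) := mul_comm _ _
      _ = (m : (integralClosure ℤ ℂ) ⧸ 𝔐) * (red 𝔐 ηt * sc 𝔐 Fr u₀) := e5
      _ = ((m : (integralClosure ℤ ℂ) ⧸ 𝔐) * sc 𝔐 Fr u₀) * red 𝔐 ηt := by ring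
  exact (mul_left_cancel₀ (mul_ne_zero hm0 hne) e6).symm

/-- The character `η` is trivial. -/
theorem eta_one [h𝔐 : 𝔐.IsPrime] {ℓ : ℕ} [Fact ℓ.Prime] (hℓ : (ℓ : integralClosure ℤ ℂ) ∈ 𝔐)
    {R : Type} [Group R] [Finite R] (hR : ¬ ℓ ∣ Nat.card R) {η : R → ℂ} (hη : IsIrr η)
    (h : ∀ r, red 𝔐 (η r) = red 𝔐 (η 1)) (r : R) : η r = 1 := by
  classical
  have : Fintype R := Fintype.ofFinite _
  have h1 : IsIrr (fun _ : R => (1 : ℂ)) := by
    refine (isChr_one (Y := R)).isIrr ?_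
    simp
  by_cases hne : η = fun _ => 1
  · rw [hne]
  · exfalso
    have h2 := hη.sum_ne h1 hne
    rw [Finset.sum_congr rfl fun x _ => mul_one (η x)] at h2
    have h3 := congrArg (red 𝔐) h2
    rw [red_sum 𝔐 _ _ fun x _ => isIntegral_char hη x, red_zero,
      Finset.sum_congr rfl fun x _ => h x, Finset.sum_const, Finset.card_univ,
      ← Nat.card_eq_fintype_card, ← red_natCast_mul 𝔐 _ (isIntegral_char hη 1)] at h3
    obtain ⟨n, _, hn⟩ := hη.exists_degree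
    rw [hn, ← Nat.cast_mul] at h3
    refine red_nat_ne hℓ ?_ h3
    intro hd
    rcases (Nat.Prime.dvd_mul Fact.out).mp hd with h4 | h4
    · exact hR h4
    · exact hR (h4.trans (hη.degree_dvd hn))

end Av

end RIU

open RIU in
theorem RIU_thm (h1 : Stmt_RIX) (h2 : Stmt_IRC) : Stmt_RIU := by
  classical
  intro L K _ _ _ _ 𝔐 ℓ _ hmax hℓ π hπ hc N M _ _ hNM hidx σr Fr hσr hFr hSUP σ G hσ hG H
  have hprime : 𝔐.IsPrime := hmax.isPrime
  obtain ⟨f, hf, hip⟩ := DPT.BTR.exists_under (al_le hNM) hG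
  have hag := agree 𝔐 h2 hmax hℓ hπ hc hNM hσr hFr hσ hG H hf hip
  obtain ⟨hcov, hinv, F, hF, hFf, hFs⟩ := h1 L K 𝔐 ℓ hmax hℓ π hπ hc N M hNM hidx σr Fr hσr hFr
    hSUP σ f hσ hf hag
  have hn : ((AL π N (stb σ)).subgroupOf (AL π M (stb σ))).Normal := DPT.BTR.normal al_nrm
  have : Fintype (↥(AL π M (stb σ)) ⧸ (AL π N (stb σ)).subgroupOf (AL π M (stb σ))) :=
    Fintype.ofFinite _
  have hle : AL π N (stb σ) ≤ AL π M (stb σ) := al_le hNM
  obtain ⟨η, hη, hGη⟩ := (GALL_thm COSET_thm SUMM_thm _ _ _ _ _ _ (DPT.BTR.clG hn)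
    (QuotientGroup.mk'_surjective _)
    (fun a : (AL π N (stb σ)).subgroupOf (AL π M (stb σ)) => f ((a : AL π M (stb σ)) : L))
    (fun t : AL π M (stb σ) => F t) (DPT.BTR.irrA hle hf) hF.irr.1.isChr (by
      intro a
      exact hFf _ (Subgroup.mem_subgroupOf.mp a.2))).2.2 (fun t : AL π M (stb σ) => G t) hG.1 (by
      have h3 := DPT.BTR.ipA hle G f
      show ip (fun a : (AL π N (stb σ)).subgroupOf (AL π M (stb σ)) =>
        G ((a : AL π M (stb σ)) : L)) _ ≠ 0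
      rw [h3]
      exact hip)
  have hone := eta_one 𝔐 hℓ (R := ↥(AL π M (stb σ)) ⧸
    (AL π N (stb σ)).subgroupOf (AL π M (stb σ))) (fun hd => hidx (hd.trans (idx_dvd hπ))) hη (by
      intro r
      obtain ⟨t, rfl⟩ := QuotientGroup.mk'_surjective _ r
      exact key 𝔐 hℓ hπ hNM hidx hFr hSUP hF hFs hG H hη (fun t => congrFun hGη t) t)
  have hGF : G = F := by
    funext x
    by_cases hx : x ∈ AL π M (stb σ)
    · have h3 := congrFun hGη ⟨x, hx⟩
      rw [hone, mul_one] at h3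
      exact h3
    · rw [hG.2 x hx, hF.irr.2 x hx]
  rw [hGF]
  exact ⟨hF, hFs⟩

end Pool.Agent.DPG
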