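import Mathlib
import Pool.Agent.DPG.StmtsB
import Pool.Agent.DPG.WDB
import Pool.Agent.DPG.RIU
import Pool.Agent.DPF.DGI
import Pool.Agent.DP.EXTAR

/-!
# CMB: the character of the quotient is determined by the central function
-/

set_option autoImplicit false
set_option linter.unusedSectionVars false

namespace Pool.Agent.DPG.CMB

open Pool.Agent.DP Pool.Agent.DPC Pool.Agent.DPM Pool.Agent.DPN Pool.Agent.DPF Pool.Agent.DPG
  Pool.Agent.Lib_helper13 Representation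
open Pool.Agent.DPG.WDB

/-! ### The functions on the cosets of `L1` -/

section Co

variable {K1 Q L1 : Type} [Group K1] [Group Q] [Fintype Q] [Group L1] [Fintype L1]
  {𝔐 : Ideal (integralClosure ℤ ℂ)} {q : Q →* K1} {α : K1 →* MulAut Q} {μQ : q.ker →* ℂˣ}
  {π1 : L1 →* K1} {μ1 : π1.ker →* ℂˣ} {ι : Q →* L1} {M1 : Subgroup K1}

open Classical in
/-- The part of a function on a coset. -/
noncomputable def prt (ι : Q →* L1) (u : L1 → ℤ) (T : L1 ⧸ ι.range) (y : L1) : ℤ :=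
  if (QuotientGroup.mk y : L1 ⧸ ι.range) = T then u y else 0

theorem prt_civ (h1 : LD q α μQ π1 μ1 ι) {u : L1 → ℤ} (hu : CIv (q.range.comap π1) u)
    (T : L1 ⧸ ι.range) : CIv (q.range.comap π1) (prt ι u T) := by
  intro s hs y
  have h2 : (QuotientGroup.mk (s * y * s⁻¹) : L1 ⧸ ι.range) = QuotientGroup.mk y := by
    obtain ⟨z, hz, x, rfl⟩ := (mem_comap_range h1).mp hs
    refine (QuotientGroup.eq.mpr ?_).symm
    have h3 : y⁻¹ * (z * ι x * y * (z * ι x)⁻¹) = (y⁻¹ * ι x * y⁻¹⁻¹) * (ι x)⁻¹ := by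
      have h4 : z * ι x * y * (z * ι x)⁻¹ = z * (ι x * y * (ι x)⁻¹) * z⁻¹ := by group
      rw [h4, kerπ1_comm h1 hz]
      group
    rw [h3, conj_ι h1, ← map_inv, ← map_mul]
    exact ⟨_, rfl⟩
  unfold prt
  rw [h2, hu s hs y]

theorem integral_unit {G : Type} [Group G] [Finite G] (χ : G →* ℂˣ) (z : G) :
    IsIntegral ℤ ((χ z : ℂˣ) : ℂ) := by
  refine IsIntegral.of_pow (Nat.card_pos (α := G)) ?_
  rw [← Units.val_pow_eq_pow_val, ← map_pow, pow_card_eq_one', map_one, Units.val_one]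
  exact isIntegral_one

/-- A twisted invariant function on `Q` with a nonzero scalar. -/
theorem exists_w [𝔐.IsPrime] (hq : q.range.Normal) (h1 : LD q α μQ π1 μ1 ι)
    {S : Subgroup K1} {F : L1 → ℂ} (hle : q.range ≤ M1) (hF : EF π1 q.range M1 S F)
    (oF : Ov π1 μ1 F) (hS : SUP 𝔐 π1 q.range M1 F) {g : L1} (hg : π1 g ∈ M1) :
    ∃ w : Q → ℤ, (∀ a n, w (α (π1 g)⁻¹ a * n * a⁻¹) = w n) ∧
      IsIntegral ℤ (∑ n, ((w n : ℤ) : ℂ) * (F (g * ι n) / F 1)) ∧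
      red 𝔐 (∑ n, ((w n : ℤ) : ℂ) * (F (g * ι n) / F 1)) ≠ 0 := by
  classical
  obtain ⟨u, hu, hs, hne⟩ := hS g hg
  have : Fintype (L1 ⧸ ι.range) := Fintype.ofFinite _
  have hUi : ∀ T, IsIntegral ℤ ((∑ y, ((prt ι u T y : ℤ) : ℂ) * F y) / F 1) := by
    intro T
    refine RIU.lam_int h1.s hle hF (prt_civ h1 hu T) hg ?_
    intro y hy
    unfold prt
    rw [hs y hy, ite_self]
  have hsum : (∑ y, ((u y : ℤ) : ℂ) * F y) / F 1 =
      ∑ T, (∑ y, ((prt ι u T y : ℤ) : ℂ) * F y) / F 1 := by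
    rw [← Finset.sum_div, Finset.sum_comm]
    congr 1
    refine Finset.sum_congr rfl fun y _ => ?_
    rw [← Finset.sum_mul, ← Int.cast_sum]
    congr 2
    unfold prt
    rw [Finset.sum_ite_eq, if_pos (Finset.mem_univ _)]
  unfold sc at hne
  rw [hsum, red_sum _ _ _ (fun T _ => hUi T)] at hne
  obtain ⟨T, -, hT⟩ := Finset.exists_ne_zero_of_sum_ne_zero hne
  obtain ⟨y, hy⟩ : ∃ y, prt ι u T y ≠ 0 := by
    by_contra hcon
    push Not at hcon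
    apply hT
    have h2 : (∑ y, ((prt ι u T y : ℤ) : ℂ) * F y) / F 1 = 0 := by
      rw [Finset.sum_eq_zero, zero_div]
      intro y _
      rw [hcon y, Int.cast_zero, zero_mul]
    rw [h2, red_zero]
  have hyT : QuotientGroup.mk y = T := by
    by_contra hcon
    apply hy
    unfold prt
    rw [if_neg hcon]
  have hyu : u y ≠ 0 := by
    intro hcon
    apply hy
    unfold prt
    rw [hcon, ite_self]
  have hys : π1 (g⁻¹ * y) ∈ q.range := by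
    by_contra hcon
    exact hyu (hs y hcon)
  obtain ⟨z, hz, n0, hzn⟩ := (mem_comap_range h1).mp hys
  have hy0 : y = z * (g * ι n0) := by
    have h2 : y = g * (z * ι n0) := by rw [← hzn, mul_inv_cancel_left]
    rw [h2, ← mul_assoc, ← mul_assoc, kerπ1_comm h1 hz]
  have hsum2 : ∑ n, ((u (z * (g * ι n)) : ℤ) : ℂ) * F (z * (g * ι n)) =
      ∑ y, ((prt ι u T y : ℤ) : ℂ) * F y := by
    refine Fintype.sum_of_injective (fun n => z * (g * ι n)) ?_ _ _ ?_ ?_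
    · intro n n' hn
      exact h1.ιi (mul_left_cancel (mul_left_cancel hn))
    · intro y' hy'
      unfold prt
      rw [if_neg, Int.cast_zero, zero_mul]
      intro hcon
      apply hy'
      rw [← hyT] at hcon
      obtain ⟨x, hx⟩ := QuotientGroup.eq.mp hcon.symm
      refine ⟨n0 * x, ?_⟩
      change z * (g * ι (n0 * x)) = y'
      rw [map_mul, hx, hy0]
      group
    · intro n
      unfold prt
      rw [if_pos]
      rw [← hyT]
      refine (QuotientGroup.eq.mpr ?_).symm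
      refine ⟨n0⁻¹ * n, ?_⟩
      rw [hy0, map_mul, map_inv]
      group
  have hlam : (∑ y, ((prt ι u T y : ℤ) : ℂ) * F y) / F 1 =
      ((μ1 ⟨z, hz⟩ : ℂˣ) : ℂ) *
        ∑ n, ((u (z * (g * ι n)) : ℤ) : ℂ) * (F (g * ι n) / F 1) := by
    rw [← hsum2, Finset.sum_div, Finset.mul_sum]
    refine Finset.sum_congr rfl fun n _ => ?_
    have h2 := oF ⟨z, hz⟩ (g * ι n)
    change F (z * (g * ι n)) = _ at h2
    rw [h2]
    ring
  have hμ := integral_unit μ1 ⟨z, hz⟩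
  have hμ' := integral_unit μ1 (⟨z, hz⟩ : π1.ker)⁻¹
  have hint : IsIntegral ℤ (∑ n, ((u (z * (g * ι n)) : ℤ) : ℂ) * (F (g * ι n) / F 1)) := by
    have h2 := hμ'.mul (hUi T)
    rw [hlam, ← mul_assoc, map_inv, Units.inv_mul, one_mul] at h2
    exact h2
  refine ⟨fun n => u (z * (g * ι n)), ?_, hint, ?_⟩
  · intro a n
    change u (z * (g * ι (α (π1 g)⁻¹ a * n * a⁻¹))) = u (z * (g * ι n))
    have h2 : z * (g * ι (α (π1 g)⁻¹ a * n * a⁻¹)) = ι a * (z * (g * ι n)) * (ι a)⁻¹ := by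
      have h3 := ι_mul h1 g a
      rw [map_mul ι, map_mul ι, map_inv ι]
      calc z * (g * (ι (α (π1 g)⁻¹ a) * ι n * (ι a)⁻¹))
          = z * (g * ι (α (π1 g)⁻¹ a)) * ι n * (ι a)⁻¹ := by group
        _ = z * (ι a * g) * ι n * (ι a)⁻¹ := by rw [← h3]
        _ = (z * ι a) * g * ι n * (ι a)⁻¹ := by group
        _ = (ι a * z) * g * ι n * (ι a)⁻¹ := by rw [kerπ1_comm h1 hz]
        _ = ι a * (z * (g * ι n)) * (ι a)⁻¹ := by group
    rw [h2]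
    refine hu (ι a) ?_ _
    rw [Subgroup.mem_comap, h1.πι]
    exact ⟨a, rfl⟩
  · intro hcon
    apply hT
    rw [hlam, red_mul _ hμ hint, hcon, mul_zero]

end Co

/-! ### The functions on `L` -/

section Fu

variable {L K K1 Q L1 Ω : Type} [Group L] [Fintype L] [Group K] [Group K1] [Group Q] [Fintype Q]
  [Group L1] [Fintype Ω] {π : L →* K} {μ : π.ker →* ℂˣ} {φ : K →* Gam (Equiv.Perm Ω) Ω K1}
  {q : Q →* K1} {α : K1 →* MulAut Q} {ε : (Ω → Q) →* L} {μQ : q.ker →* ℂˣ} {π1 : L1 →* K1}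
  {μ1 : π1.ker →* ℂˣ} {ι : Q →* L1} {M : Subgroup K} {M1 : Subgroup K1}

open Classical in
/-- The sum of the values of `W` at the elements which belong to `z`. -/
noncomputable def u0 (ε : (Ω → Q) →* L) (W : (Ω → Q) → ℤ) (l z : L) : ℤ :=
  ∑ n : Ω → Q, if l * ε n = z then W n else 0

theorem u0_civ (h : WD π μ φ q α ε μQ) {l : L} (hl : (φ (π l)).right = 1)
    {W : (Ω → Q) → ℤ}
    (hW : ∀ a n : Ω → Q, W (fun o => α ((φ (π l)).left o)⁻¹ (a o) * n o * (a o)⁻¹) = W n) :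
    CIv ((NN' π ε).comap π) (u0 ε W l) := by
  classical
  intro s hs z
  obtain ⟨a, rfl⟩ := (mem_comap_NN h).mp hs
  unfold u0
  let b : Ω → Q := fun o => α ((φ (π l)).left o)⁻¹ (a o)
  have hb : ε a * l = l * ε b := by
    rw [← inv_conj_ε h l hl a]
    group
  refine (Fintype.sum_equiv ((Equiv.mulLeft b).trans (Equiv.mulRight a⁻¹)) _ _ ?_).symm
  intro n
  have e1 : ((Equiv.mulLeft b).trans (Equiv.mulRight a⁻¹)) n = b * n * a⁻¹ := rfl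
  rw [e1]
  have e2 : W (b * n * a⁻¹) = W n := hW a n
  rw [e2]
  have e3 : l * ε (b * n * a⁻¹) = ε a * (l * ε n) * (ε a)⁻¹ := by
    rw [map_mul, map_mul, map_inv, ← mul_assoc, ← mul_assoc, ← hb]
    group
  rw [e3]
  refine if_congr ?_ rfl rfl
  constructor
  · intro h2
    rw [h2]
  · intro h2
    exact mul_left_cancel (mul_right_cancel h2)

theorem u0_son (l : L) (W : (Ω → Q) → ℤ) : SOn {y | π (l⁻¹ * y) ∈ NN' π ε} (u0 ε W l) := by
  classical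
  intro y hy
  unfold u0
  refine Finset.sum_eq_zero fun n _ => ?_
  rw [if_neg]
  intro h2
  apply hy
  change π (l⁻¹ * y) ∈ NN' π ε
  rw [← h2, inv_mul_cancel_left]
  exact ⟨ε n, ⟨n, rfl⟩, rfl⟩

open Classical in
theorem sum_u0 (l : L) (W : (Ω → Q) → ℤ) (f : L → ℂ) :
    ∑ z, ((u0 ε W l z : ℤ) : ℂ) * f z = ∑ n : Ω → Q, ((W n : ℤ) : ℂ) * f (l * ε n) := by
  classical
  have h1 : ∀ z, ((u0 ε W l z : ℤ) : ℂ) * f z =
      ∑ n : Ω → Q, if l * ε n = z then ((W n : ℤ) : ℂ) * f (l * ε n) else 0 := by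
    intro z
    unfold u0
    rw [Int.cast_sum, Finset.sum_mul]
    refine Finset.sum_congr rfl fun n _ => ?_
    split_ifs with h2
    · rw [h2]
    · rw [Int.cast_zero, zero_mul]
  rw [Finset.sum_congr rfl fun z _ => h1 z, Finset.sum_comm]
  refine Finset.sum_congr rfl fun n _ => ?_
  rw [Finset.sum_ite_eq, if_pos (Finset.mem_univ _)]

/-- The product of the values at the coordinates does not depend on the preimage. -/
theorem prod_ker (h : WD π μ φ q α ε μQ) (h1 : LD q α μQ π1 μ1 ι) {F : L1 → ℂ}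
    (oF : Ov π1 μ1 F) (g : Ω → L1) (m : Ω → Q) {k : Ω → Q} (hk : ε k = 1) :
    ∏ o, F (g o * ι ((m * k) o)) = ∏ o, F (g o * ι (m o)) := by
  obtain ⟨hn, hp⟩ := (ε_eq_one h).mp hk
  have h2 : ∀ o, F (g o * ι ((m * k) o)) = ((μQ ⟨k o, hn o⟩ : ℂˣ) : ℂ) * F (g o * ι (m o)) := by
    intro o
    have hz : ι (k o) ∈ π1.ker := (ι_ker h1).mpr (hn o)
    have h3 : g o * ι ((m * k) o) = ι (k o) * (g o * ι (m o)) := by
      rw [kerπ1_comm h1 hz, Pi.mul_apply, map_mul, mul_assoc]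
    have h4 := oF ⟨ι (k o), hz⟩ (g o * ι (m o))
    rw [h1.μι ⟨k o, hn o⟩ hz] at h4
    rw [h3]
    exact h4
  rw [Finset.prod_congr rfl fun o _ => h2 o, Finset.prod_mul_distrib, ← Units.coe_prod, hp,
    Units.val_one, one_mul]

open Classical in
theorem psm_u0 [Fintype L1] (h : WD π μ φ q α ε μQ) (h1 : LD q α μQ π1 μ1 ι) {F : L1 → ℂ}
    (oF : Ov π1 μ1 F) (x : L × Gam (Equiv.Perm Ω) Ω L1) (W : (Ω → Q) → ℤ) :
    psm ε ι F (u0 ε W x.1) x =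
      (∑ n : Ω → Q, ((W n : ℤ) : ℂ) * ∏ o, F (x.2.left o * ι (n o))) /
        F 1 ^ Fintype.card Ω := by
  classical
  have hc : (Nat.card ε.ker : ℂ) ≠ 0 := by
    have : Nat.card ε.ker ≠ 0 := Nat.card_pos.ne'
    exact_mod_cast this
  unfold psm
  have h2 : ∀ m : Ω → Q, ∑ n : Ω → Q, (if x.1 * ε m = x.1 * ε n then
      ((W m : ℤ) : ℂ) * ∏ o, F (x.2.left o * ι (n o)) else 0) =
      (Nat.card ε.ker : ℂ) * (((W m : ℤ) : ℂ) * ∏ o, F (x.2.left o * ι (m o))) := by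
    intro m
    have h3 : ∑ n : Ω → Q, (if x.1 * ε m = x.1 * ε n then
        ((W m : ℤ) : ℂ) * ∏ o, F (x.2.left o * ι (n o)) else 0) =
        ∑ k : Ω → Q, if k ∈ ε.ker then
          ((W m : ℤ) : ℂ) * ∏ o, F (x.2.left o * ι (m o)) else 0 := by
      refine (Fintype.sum_equiv (Equiv.mulLeft m) _ _ ?_).symm
      intro k
      have e1 : Equiv.mulLeft m k = m * k := rfl
      rw [e1]
      by_cases hk : k ∈ ε.ker
      · rw [if_pos hk, if_pos, prod_ker h h1 oF _ m (MonoidHom.mem_ker.mp hk)]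
        rw [map_mul, MonoidHom.mem_ker.mp hk, mul_one]
      · rw [if_neg hk, if_neg]
        intro hcon
        apply hk
        rw [map_mul] at hcon
        have h4 := mul_left_cancel hcon
        rw [MonoidHom.mem_ker]
        exact mul_eq_left.mp h4.symm
    rw [h3, ← Finset.sum_filter, Finset.sum_const, nsmul_eq_mul]
    congr 2
    rw [Nat.card_eq_fintype_card, Fintype.card_subtype]
  have h3 : ∑ n : Ω → Q, ((u0 ε W x.1 (x.1 * ε n) : ℤ) : ℂ) * ∏ o, F (x.2.left o * ι (n o)) =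
      (Nat.card ε.ker : ℂ) *
        ∑ n : Ω → Q, ((W n : ℤ) : ℂ) * ∏ o, F (x.2.left o * ι (n o)) := by
    rw [Finset.mul_sum, ← Finset.sum_congr rfl fun m _ => h2 m, Finset.sum_comm]
    refine Finset.sum_congr rfl fun n _ => ?_
    unfold u0
    rw [Int.cast_sum, Finset.sum_mul]
    refine Finset.sum_congr rfl fun m _ => ?_
    split_ifs with h4
    · rfl
    · rw [Int.cast_zero, zero_mul]
  rw [h3, mul_div_mul_left _ _ hc]

open Classical in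
theorem prod_form (w : Ω → Q → ℤ) (F : L1 → ℂ) (g : Ω → L1) :
    (∑ n : Ω → Q, (((∏ o, w o (n o) : ℤ)) : ℂ) * ∏ o, F (g o * ι (n o))) /
        F 1 ^ Fintype.card Ω =
      ∏ o, ∑ n, ((w o n : ℤ) : ℂ) * (F (g o * ι n) / F 1) := by
  classical
  rw [Finset.prod_univ_sum, Fintype.piFinset_univ, Finset.sum_div]
  refine Finset.sum_congr rfl fun n _ => ?_
  rw [Finset.prod_mul_distrib, Finset.prod_div_distrib, Finset.prod_const, Finset.card_univ,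
    Int.cast_prod, mul_div_assoc]

end Fu

/-! ### The scalars of `θ` -/

section Th

variable {L K K1 Q L1 Ω : Type} [Group L] [Fintype L] [Group K] [Group K1] [Group Q] [Fintype Q]
  [Group L1] [Fintype L1] [Fintype Ω] {ℓ : ℕ} {π : L →* K} {μ : π.ker →* ℂˣ}
  {φ : K →* Gam (Equiv.Perm Ω) Ω K1} {q : Q →* K1} {α : K1 →* MulAut Q} {ε : (Ω → Q) →* L}
  {μQ : q.ker →* ℂˣ} {π1 : L1 →* K1} {μ1 : π1.ker →* ℂˣ} {ι : Q →* L1} {M : Subgroup K}
  {M1 : Subgroup K1} {ζ : L × Gam (Equiv.Perm Ω) Ω L1 → ℂ} {S : Subgroup K1} {F : L1 → ℂ}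
  {θ : L → ℂ}

theorem zeta_conj (hζ : ZT π φ π1 μ1 ε ι M ζ) {y : L × Gam (Equiv.Perm Ω) Ω L1}
    (hy : y ∈ MY π φ π1 M) (x : L × Gam (Equiv.Perm Ω) Ω L1) : ζ (y * x * y⁻¹) = ζ x :=
  DPT.BTR.IrrOn_class hζ.irr hy x

/-- Every coset contains an element which stabilizes `θ`. -/
theorem exists_conj (h : WD π μ φ q α ε μQ) (h1 : LD q α μQ π1 μ1 ι)
    (hm : MM ℓ π φ q ε M M1) (hF : EF π1 q.range M1 S F) (hζ : ZT π φ π1 μ1 ε ι M ζ)
    (hθ : TP π φ π1 M F ζ θ) {m : L} (hmM : π m ∈ M) :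
    ∃ n : Ω → Q, ∀ l, θ ((m * ε n) * l * (m * ε n)⁻¹) = θ l := by
  classical
  have hq := normal_range h
  have hM := hm.nm
  have h2 : ∀ o, ∃ a : Q, (φ (π m)).left o * q a ∈ S := by
    intro o
    have h3 : (φ (π m)).left o ∈ S ⊔ q.range := by
      rw [sup_comm]
      exact hF.cov (hm.l _ hmM o)
    rw [← SetLike.mem_coe, Subgroup.mul_normal] at h3
    obtain ⟨s, hs, _, ⟨a, rfl⟩, hsa⟩ := Set.mem_mul.mp h3
    refine ⟨a⁻¹, ?_⟩
    rw [← hsa, map_inv, mul_inv_cancel_right]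
    exact hs
  choose n hn using h2
  refine ⟨n, ?_⟩
  obtain ⟨g, hg⟩ := exists_YY (π := π) (φ := φ) h1 (m * ε n)
  have htM : π (m * ε n) ∈ M := by
    rw [map_mul]
    exact M.mul_mem hmM (hm.le (πε_mem h n))
  have hy : ((m * ε n, g) : L × Gam (Equiv.Perm Ω) Ω L1) ∈ MY π φ π1 M := ⟨hg, htM⟩
  have hgr : g.right = 1 := MY_right hm hy
  have hgS : ∀ o, g.left o ∈ AL π1 M1 S := by
    intro o
    have h3 := MY_left hm hy o
    refine ⟨h3, ?_⟩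
    have h4 : π1 (g.left o) = (φ (π m)).left o * q (n o) := by
      rw [← YY_left hg o]
      change (φ (π (m * ε n))).left o = _
      rw [map_mul, map_mul, mul_left, hm.r _ hmM]
      rw [φε_left h]
      rfl
    change π1 (g.left o) ∈ S
    rw [h4]
    exact hn o
  intro l
  by_cases hl : π l ∈ M
  · obtain ⟨g', hg'⟩ := exists_YY (π := π) (φ := φ) h1 l
    have hx : ((l, g') : L × Gam (Equiv.Perm Ω) Ω L1) ∈ MY π φ π1 M := ⟨hg', hl⟩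
    have hxr : g'.right = 1 := MY_right hm hx
    have e1 := hθ.2 _ hx
    have e2 := hθ.2 _ (MY_normal M hM hg hx)
    rw [zeta_conj hζ hy] at e2
    change θ (m * ε n * l * (m * ε n)⁻¹) = (∏ o, F ((g * g' * g⁻¹).left o)) * ζ (l, g') at e2
    change θ l = (∏ o, F (g'.left o)) * ζ (l, g') at e1
    rw [e1, e2]
    congr 1
    refine Finset.prod_congr rfl fun o _ => ?_
    rw [conj_left _ _ hxr, hgr]
    exact DPT.BTR.IrrOn_class hF.irr (hgS o) _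
  · rw [hθ.1 l hl, hθ.1]
    intro hcon
    apply hl
    have h3 := hM.conj_mem _ hcon (π (m * ε n))⁻¹
    have h4 : (π (m * ε n))⁻¹ * π (m * ε n * l * (m * ε n)⁻¹) * (π (m * ε n))⁻¹⁻¹ = π l := by
      rw [← map_inv, ← map_inv, ← map_mul, ← map_mul]
      congr 1
      group
    rwa [h4] at h3

open Classical in
theorem lam (h : WD π μ φ q α ε μQ) (h1 : LD q α μQ π1 μ1 ι)
    (hm : MM ℓ π φ q ε M M1) (hF : EF π1 q.range M1 S F) (hζ : ZT π φ π1 μ1 ε ι M ζ)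
    (hθ : TP π φ π1 M F ζ θ) {x : L × Gam (Equiv.Perm Ω) Ω L1} (hx : x ∈ MY π φ π1 M)
    {W : (Ω → Q) → ℤ} (hW : CIv ((NN' π ε).comap π) (u0 ε W x.1)) :
    ∑ l, ((RIU.av ((NN' π ε).comap π) (M.comap π) (u0 ε W x.1) l : ℤ) : ℂ) * θ l =
      (Nat.card (↥(M.comap π) ⧸ ((NN' π ε).comap π).subgroupOf (M.comap π)) : ℂ) *
        ((∑ n : Ω → Q, ((W n : ℤ) : ℂ) * ∏ o, F (x.2.left o * ι (n o))) * ζ x) := by
  have e1 : ∀ l, ((RIU.av ((NN' π ε).comap π) (M.comap π) (u0 ε W x.1) l : ℤ) : ℂ) * θ l =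
      ∑ c : ↥(M.comap π) ⧸ ((NN' π ε).comap π).subgroupOf (M.comap π),
        ((u0 ε W x.1 ((c.out : L)⁻¹ * l * c.out) : ℤ) : ℂ) * θ l := by
    intro l
    unfold RIU.av
    rw [Int.cast_sum, Finset.sum_mul]
  have e2 : ∀ m : L, π m ∈ M → ∑ l, ((u0 ε W x.1 (m⁻¹ * l * m) : ℤ) : ℂ) * θ l =
      ∑ l, ((u0 ε W x.1 l : ℤ) : ℂ) * θ l := by
    intro m hmM
    obtain ⟨n, hn⟩ := exists_conj h h1 hm hF hζ hθ hmM
    refine (Fintype.sum_equiv (MulAut.conj (m * ε n)).toEquiv _ _ ?_).symm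
    intro l
    have h3 : (MulAut.conj (m * ε n)).toEquiv l = (m * ε n) * l * (m * ε n)⁻¹ := rfl
    rw [h3, hn l]
    have h4 : m⁻¹ * ((m * ε n) * l * (m * ε n)⁻¹) * m = ε n * l * (ε n)⁻¹ := by group
    rw [h4, hW (ε n) (πε_mem h n)]
  rw [Finset.sum_congr rfl fun l _ => e1 l, Finset.sum_comm,
    Finset.sum_congr rfl fun c _ => e2 _ (show π ((c.out : ↥(M.comap π)) : L) ∈ M from c.out.2),
    Finset.sum_const, Finset.card_univ, ← Nat.card_eq_fintype_card, nsmul_eq_mul, sum_u0,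
    Finset.sum_mul]
  congr 1
  refine Finset.sum_congr rfl fun n _ => ?_
  have hd : x * dY ε ι n ∈ MY π φ π1 M := Subgroup.mul_mem _ hx (dY_mem_MY h h1 hm.le n)
  have h3 := hθ.2 _ hd
  rw [hζ.d] at h3
  change θ (x.1 * ε n) = _ at h3
  rw [h3, ← mul_assoc]
  congr 2
  refine Finset.prod_congr rfl fun o _ => ?_
  rw [mul_dY_left _ (MY_right hm hx)]

theorem theta_one (hθ : TP π φ π1 M F ζ θ) : θ 1 = F 1 ^ Fintype.card Ω * ζ 1 := by
  have h2 := hθ.2 1 (Subgroup.one_mem _)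
  change θ 1 = (∏ _o : Ω, F 1) * ζ 1 at h2
  rw [h2, Finset.prod_const, Finset.card_univ]

/-! ### The group `MY` -/

/-- The projection to `K`. -/
def fE (π : L →* K) (φ : K →* Gam (Equiv.Perm Ω) Ω K1) (π1 : L1 →* K1) (M : Subgroup K) :
    ↥(MY π φ π1 M) →* K :=
  (π.comp (MonoidHom.fst L (Gam (Equiv.Perm Ω) Ω L1))).comp (MY π φ π1 M).subtype

theorem fE_range (h : WD π μ φ q α ε μQ) (h1 : LD q α μQ π1 μ1 ι) :
    (fE π φ π1 M).range = M := by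
  ext m
  constructor
  · rintro ⟨x, rfl⟩
    exact (mem_MY.mp x.2).2
  · intro hm
    obtain ⟨l, rfl⟩ := h.πs m
    obtain ⟨g, hg⟩ := exists_YY (π := π) (φ := φ) h1 l
    exact ⟨⟨(l, g), hg, hm⟩, rfl⟩

theorem index_E (h : WD π μ φ q α ε μQ) (h1 : LD q α μQ π1 μ1 ι) :
    ((NN' π ε).comap (fE π φ π1 M)).index = (NN' π ε).relIndex M := by
  rw [Subgroup.index_comap, fE_range h h1]

/-- The elements above `N` act by the same scalars. -/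
theorem scal (h : WD π μ φ q α ε μQ) (h1 : LD q α μQ π1 μ1 ι) (hm : MM ℓ π φ q ε M M1)
    {e : L × Gam (Equiv.Perm Ω) Ω L1} (he : e ∈ MY π φ π1 M) (hN : π e.1 ∈ NN' π ε) :
    ∃ c : ℂ, ∀ ζ, ZT π φ π1 μ1 ε ι M ζ → ∀ x ∈ MY π φ π1 M, ζ (x * e) = c * ζ x := by
  obtain ⟨n, z, rfl⟩ := MY_N h h1 he.1 hN
  refine ⟨(∏ o, ((μ1 (z o) : ℂˣ) : ℂ))⁻¹, ?_⟩
  intro ζ hζ x hx
  have hd : x * dY ε ι n ∈ MY π φ π1 M := Subgroup.mul_mem _ hx (dY_mem_MY h h1 hm.le n)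
  rw [← mul_assoc, ← z_comm h1 hm hd z]
  have h2 := hζ.z z (x * dY ε ι n)
  rw [hζ.d] at h2
  have h3 : (∏ o, ((μ1 (z o) : ℂˣ) : ℂ)) ≠ 0 :=
    Finset.prod_ne_zero_iff.mpr fun o _ => Units.ne_zero _
  rw [← h2, inv_mul_cancel_left₀ h3]

theorem zeta_one (hζ : ZT π φ π1 μ1 ε ι M ζ) : ζ 1 ≠ 0 :=
  hζ.irr.1.one_ne_zero

theorem pair_coset (h : WD π μ φ q α ε μQ) (h1 : LD q α μQ π1 μ1 ι)
    (hm : MM ℓ π φ q ε M M1) {ζ ζ' : L × Gam (Equiv.Perm Ω) Ω L1 → ℂ}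
    (hζ : ZT π φ π1 μ1 ε ι M ζ) (hζ' : ZT π φ π1 μ1 ε ι M ζ')
    {e x : L × Gam (Equiv.Perm Ω) Ω L1} (he : e ∈ MY π φ π1 M) (hN : π e.1 ∈ NN' π ε)
    (hx : x ∈ MY π φ π1 M) : ζ (x * e) * ζ' (x * e)⁻¹ = ζ x * ζ' x⁻¹ := by
  obtain ⟨c, hc⟩ := scal h h1 hm he hN
  have hN' : π (e⁻¹).1 ∈ NN' π ε := by
    change π (e.1⁻¹) ∈ NN' π ε
    rw [map_inv]
    exact Subgroup.inv_mem _ hN
  obtain ⟨c', hc'⟩ := scal h h1 hm (Subgroup.inv_mem _ he) hN'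
  have h2 : c * c' = 1 := by
    have h3 := hc ζ' hζ' e⁻¹ (Subgroup.inv_mem _ he)
    have h4 := hc' ζ' hζ' 1 (Subgroup.one_mem _)
    rw [inv_mul_cancel] at h3
    rw [one_mul] at h4
    rw [h4, ← mul_assoc] at h3
    exact (mul_eq_right₀ (zeta_one hζ')).mp h3.symm
  have h3 : ζ' (x * e)⁻¹ = c' * ζ' x⁻¹ := by
    rw [← hc' ζ' hζ' x⁻¹ (Subgroup.inv_mem _ hx), ← zeta_conj hζ' he (x * e)⁻¹]
    congr 1
    group
  rw [hc ζ hζ x hx, h3]
  linear_combination (ζ x * ζ' x⁻¹) * h2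

/-- The degree is prime to `ℓ`. -/
theorem deg_prime [Fact ℓ.Prime] (h : WD π μ φ q α ε μQ) (h1 : LD q α μQ π1 μ1 ι)
    (hm : MM ℓ π φ q ε M M1) (hζ : ZT π φ π1 μ1 ε ι M ζ) : ∃ d : ℕ, ζ 1 = d ∧ ¬ ℓ ∣ d := by
  classical
  have hNn := normal_NN h
  let E : Subgroup ↥(MY π φ π1 M) := (NN' π ε).comap (fE π φ π1 M)
  have hEn : E.Normal := Subgroup.normal_comap _
  have hidx : ¬ ℓ ∣ E.index := by
    rw [index_E h h1]
    exact hm.cop
  have hz1 := zeta_one hζ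
  have hsc : ∀ e : E, ∀ x : ↥(MY π φ π1 M), ζ (x * (e : ↥(MY π φ π1 M))) =
      ζ (e : ↥(MY π φ π1 M)) / ζ 1 * ζ x := by
    intro e x
    obtain ⟨c, hc⟩ := scal h h1 hm (e : ↥(MY π φ π1 M)).2 e.2
    have h2 := hc ζ hζ 1 (Subgroup.one_mem _)
    rw [one_mul] at h2
    rw [hc ζ hζ x x.2, h2, mul_div_cancel_right₀ _ hz1]
  let κ0 : E →* ℂ :=
    { toFun := fun e => ζ (e : ↥(MY π φ π1 M)) / ζ 1
      map_one' := div_self hz1
      map_mul' := by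
        intro a b
        have h2 := hsc b a
        change ζ (((a : ↥(MY π φ π1 M)) : L × Gam (Equiv.Perm Ω) Ω L1) *
          (b : ↥(MY π φ π1 M))) / ζ 1 = _
        rw [h2]
        ring }
  let κ : E →* ℂˣ := MonoidHom.toHomUnits κ0
  have hκ : IsIrr (fun e : E => ((κ e : ℂˣ) : ℂ)) := DP.EXTAR.isIrr_lin κ
  have hres : ∀ e : E, resj E.subtype (fun s : ↥(MY π φ π1 M) => ζ s) e =
      ζ 1 * ((κ e : ℂˣ) : ℂ) := by
    intro e
    change ζ (e : ↥(MY π φ π1 M)) = ζ 1 * (ζ (e : ↥(MY π φ π1 M)) / ζ 1)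
    rw [mul_div_cancel₀ _ hz1]
  have hip : ip (resj E.subtype (fun s : ↥(MY π φ π1 M) => ζ s))
      (fun e : E => ((κ e : ℂˣ) : ℂ)) ≠ 0 := by
    have h2 : ip (resj E.subtype (fun s : ↥(MY π φ π1 M) => ζ s))
        (fun e : E => ((κ e : ℂˣ) : ℂ)) = ζ 1 := by
      unfold ip
      rw [Finset.sum_congr rfl fun e _ => by rw [hres e, mul_assoc], ← Finset.mul_sum,
        hκ.sum_self, mul_div_cancel_right₀ _ natCard_ne_zero]
    rw [h2]
    exact hz1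
  have hdgi := DGI_thm ↥(MY π φ π1 M) ℓ E hidx _ _ hζ.irr.1 hκ hip
    (padicValNat ℓ (Nat.card E))
  obtain ⟨n, hn, hn'⟩ := hdgi.mpr ⟨1, by
    change ((κ 1 : ℂˣ) : ℂ) = ((1 : ℕ) : ℂ)
    rw [map_one, Units.val_one, Nat.cast_one], by
    rw [padicValNat_one_right, add_zero]⟩
  refine ⟨n, hn, ?_⟩
  have hn0 : n ≠ 0 := by
    rintro rfl
    apply hz1
    rw [Nat.cast_zero] at hn
    exact hn
  rw [← Subgroup.card_mul_index E, padicValNat.mul Nat.card_pos.ne'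
    Subgroup.index_ne_zero_of_finite, padicValNat.eq_zero_of_not_dvd hidx, add_zero] at hn'
  intro hdvd
  have h3 := one_le_padicValNat_of_dvd hn0 hdvd
  omega

end Th

/-! ### The congruences -/

section Key

variable {L K K1 Q L1 Ω : Type} [Group L] [Fintype L] [Group K] [Fintype K] [Group K1]
  [Fintype K1] [Group Q] [Fintype Q] [Group L1] [Fintype L1] [Fintype Ω]
  {𝔐 : Ideal (integralClosure ℤ ℂ)} {ℓ : ℕ} [Fact ℓ.Prime] {π : L →* K} {μ : π.ker →* ℂˣ}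
  {φ : K →* Gam (Equiv.Perm Ω) Ω K1} {q : Q →* K1} {α : K1 →* MulAut Q} {ε : (Ω → Q) →* L}
  {μQ : q.ker →* ℂˣ} {π1 : L1 →* K1} {μ1 : π1.ker →* ℂˣ} {ι : Q →* L1} {M : Subgroup K}
  {M1 : Subgroup K1}

theorem red_prod (s : Finset Ω) (f : Ω → ℂ) (hf : ∀ o, IsIntegral ℤ (f o)) :
    IsIntegral ℤ (∏ o ∈ s, f o) ∧ red 𝔐 (∏ o ∈ s, f o) = ∏ o ∈ s, red 𝔐 (f o) := by
  classical
  induction s using Finset.induction_on with
  | empty =>
    rw [Finset.prod_empty, Finset.prod_empty, red_one]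
    exact ⟨isIntegral_one, rfl⟩
  | insert a s ha ih =>
    rw [Finset.prod_insert ha, Finset.prod_insert ha]
    exact ⟨(hf a).mul ih.1, by rw [red_mul _ (hf a) ih.1, ih.2]⟩

theorem alg {k A B z y : ℂ} (hB : B ≠ 0) (hz : z ≠ 0) :
    k * (A * y) / (B * z) * z = k * (A / B * y) := by
  field_simp

theorem zeta_int {ζ : L × Gam (Equiv.Perm Ω) Ω L1 → ℂ} (hζ : ZT π φ π1 μ1 ε ι M ζ)
    {x : L × Gam (Equiv.Perm Ω) Ω L1} (hx : x ∈ MY π φ π1 M) : IsIntegral ℤ (ζ x) :=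
  isIntegral_char hζ.irr.1 ⟨x, hx⟩

theorem key (hPRF : Stmt_PRF) (hmax : 𝔐.IsMaximal) (hℓ : (ℓ : integralClosure ℤ ℂ) ∈ 𝔐)
    (h : WD π μ φ q α ε μQ) (h1 : LD q α μQ π1 μ1 ι) (hm : MM ℓ π φ q ε M M1)
    {S S' : Subgroup K1} {F F' : L1 → ℂ} (hF : EF π1 q.range M1 S F)
    (hF' : EF π1 q.range M1 S' F') (oF : Ov π1 μ1 F) (oF' : Ov π1 μ1 F')
    (hS : SUP 𝔐 π1 q.range M1 F)
    (hu : ∀ u : L1 → ℤ, CIv (q.range.comap π1) u → sc 𝔐 F u = sc 𝔐 F' u)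
    {ζ ζ' : L × Gam (Equiv.Perm Ω) Ω L1 → ℂ} (hζ : ZT π φ π1 μ1 ε ι M ζ)
    (hζ' : ZT π φ π1 μ1 ε ι M ζ') {T T' : Subgroup K} {θ θ' : L → ℂ}
    (hi : IrrOn (AL π M T) θ) (hi' : IrrOn (AL π M T') θ') (hθ : TP π φ π1 M F ζ θ)
    (hθ' : TP π φ π1 M F' ζ' θ')
    (hsc : ∀ u : L → ℤ, CIv (M.comap π) u → SOn (M.comap π : Set L) u →
      sc 𝔐 θ u = sc 𝔐 θ' u) {x : L × Gam (Equiv.Perm Ω) Ω L1} (hx : x ∈ MY π φ π1 M) :
    red 𝔐 (ζ x) * red 𝔐 (ζ' 1) = red 𝔐 (ζ' x) * red 𝔐 (ζ 1) := by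
  classical
  have hprime : 𝔐.IsPrime := hmax.isPrime
  have hq := normal_range h
  have hNn := normal_NN h
  have hMn := hm.nm
  have hw := fun o => exists_w hq h1 hm.le1 hF oF hS (MY_left hm hx o)
  choose w hw1 hw2 hw3 using hw
  let W : (Ω → Q) → ℤ := fun n => ∏ o, w o (n o)
  have hW : ∀ a n : Ω → Q,
      W (fun o => α ((φ (π x.1)).left o)⁻¹ (a o) * n o * (a o)⁻¹) = W n := by
    intro a n
    refine Finset.prod_congr rfl fun o _ => ?_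
    change w o (α ((φ (π x.1)).left o)⁻¹ (a o) * n o * (a o)⁻¹) = w o (n o)
    rw [YY_left (MY_le hx)]
    exact hw1 o (a o) (n o)
  have hciv : CIv ((NN' π ε).comap π) (u0 ε W x.1) := u0_civ h (hm.r _ hx.2) hW
  obtain ⟨hi1, hi2, hr⟩ := hPRF L K K1 Q L1 Ω 𝔐 ℓ hmax hℓ π μ φ q α ε μQ π1 μ1 ι M M1 h h1 hm
    S S' F F' hF hF' oF oF' hu x hx (u0 ε W x.1) hciv
  have hne : red 𝔐 (psm ε ι F (u0 ε W x.1) x) ≠ 0 := by
    rw [psm_u0 h h1 oF, prod_form, (red_prod _ _ hw2).2]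
    exact Finset.prod_ne_zero_iff.mpr fun o _ => hw3 o
  set P := psm ε ι F (u0 ε W x.1) x with hP
  set P' := psm ε ι F' (u0 ε W x.1) x with hP'
  set k := Nat.card (↥(M.comap π) ⧸ ((NN' π ε).comap π).subgroupOf (M.comap π)) with hk
  have hk0 : red 𝔐 (k : ℂ) ≠ 0 := by
    refine RIU.red_nat_ne hℓ ?_
    rw [hk, RIU.idx_top h.πs]
    exact hm.cop
  let u : L → ℤ := RIU.av ((NN' π ε).comap π) (M.comap π) (u0 ε W x.1)
  have huc : CIv (M.comap π) u := RIU.av_civ inferInstance hciv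
  have hus : SOn (M.comap π : Set L) u := RIU.av_son hm.le (t := x.1) hx.2 (u0_son x.1 W)
  have gen : ∀ {S0 : Subgroup K1} {F0 : L1 → ℂ} {ζ0 : L × Gam (Equiv.Perm Ω) Ω L1 → ℂ}
      {T0 : Subgroup K} {θ0 : L → ℂ}, EF π1 q.range M1 S0 F0 → Ov π1 μ1 F0 →
      ZT π φ π1 μ1 ε ι M ζ0 → IrrOn (AL π M T0) θ0 → TP π φ π1 M F0 ζ0 θ0 →
      IsIntegral ℤ (psm ε ι F0 (u0 ε W x.1) x) →
      sc 𝔐 θ0 u * red 𝔐 (ζ0 1) =
        red 𝔐 (k : ℂ) * (red 𝔐 (psm ε ι F0 (u0 ε W x.1) x) * red 𝔐 (ζ0 x)) := by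
    intro S0 F0 ζ0 T0 θ0 hF0 oF0 hζ0 hi0 hθ0 hint
    have hr0 : IsIntegral ℤ ((∑ l, ((u l : ℤ) : ℂ) * θ0 l) / θ0 1) := by
      refine RIU.lam_int h.πs le_rfl (N := M) (M := M) (S := T0) ⟨hi0, hi0.1, le_sup_left⟩
        huc (t := 1) (by rw [map_one]; exact M.one_mem) ?_
      intro y hy
      apply hus
      intro hcon
      apply hy
      change π (1⁻¹ * y) ∈ M
      rw [inv_one, one_mul]
      exact hcon
    have hF1 : F0 1 ≠ 0 := hF0.irr.1.one_ne_zero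
    have hF2 : F0 1 ^ Fintype.card Ω ≠ 0 := pow_ne_zero _ hF1
    have hz := zeta_one hζ0
    have hz1 := zeta_int hζ0 (Subgroup.one_mem _)
    have hzx := zeta_int hζ0 hx
    have heq : (∑ l, ((u l : ℤ) : ℂ) * θ0 l) / θ0 1 * ζ0 1 =
        (k : ℂ) * (psm ε ι F0 (u0 ε W x.1) x * ζ0 x) := by
      rw [psm_u0 h h1 oF0, theta_one hθ0]
      change (∑ l, ((RIU.av ((NN' π ε).comap π) (M.comap π) (u0 ε W x.1) l : ℤ) : ℂ) * θ0 l) /
        (F0 1 ^ Fintype.card Ω * ζ0 1) * ζ0 1 = _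
      rw [lam h h1 hm hF0 hζ0 hθ0 hx hciv]
      exact alg hF2 hz
    unfold sc
    rw [← red_mul _ hr0 hz1, heq, red_mul _ (Lib_helper13.isIntegral_natCast k) (hint.mul hzx),
      red_mul _ hint hzx]
  have g1 := gen hF oF hζ hi hθ hi1
  have g2 := gen hF' oF' hζ' hi' hθ' hi2
  have hfin : red 𝔐 (k : ℂ) * (red 𝔐 P * (red 𝔐 (ζ x) * red 𝔐 (ζ' 1))) =
      red 𝔐 (k : ℂ) * (red 𝔐 P * (red 𝔐 (ζ' x) * red 𝔐 (ζ 1))) := by
    have e1 : red 𝔐 (k : ℂ) * (red 𝔐 P * (red 𝔐 (ζ x) * red 𝔐 (ζ' 1))) =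
        sc 𝔐 θ u * red 𝔐 (ζ 1) * red 𝔐 (ζ' 1) := by
      rw [g1]
      ring
    have e2 : red 𝔐 (k : ℂ) * (red 𝔐 P * (red 𝔐 (ζ' x) * red 𝔐 (ζ 1))) =
        sc 𝔐 θ' u * red 𝔐 (ζ' 1) * red 𝔐 (ζ 1) := by
      rw [g2, hr]
      ring
    rw [e1, e2, hsc u huc hus]
    ring
  exact mul_left_cancel₀ hne (mul_left_cancel₀ hk0 hfin)

end Key

end Pool.Agent.DPG.CMB

namespace Pool.Agent.DPG

open Pool.Agent.DP Pool.Agent.DPC Pool.Agent.DPM Pool.Agent.DPN Pool.Agent.DPF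
  Pool.Agent.Lib_helper13 Representation WDB CMB

theorem CMB_thm (h1 : Stmt_PRF) : Stmt_CMB := by
  intro L K K1 Q L1 Ω _ _ _ _ _ _ _ _ _ _ _ _ 𝔐 ℓ _ hmax hℓ π μ φ q α ε μQ π1 μ1 ι M M1 hwd
    hld hm S S' F F' hF hF' oF oF' hS hu ζ ζ' hζ hζ' T T' θ θ' hi hi' hθ hθ' hsc
  classical
  by_contra hne
  have hprime : 𝔐.IsPrime := hmax.isPrime
  have hNn := normal_NN hwd
  have hkey := fun x (hx : x ∈ MY π φ π1 M) => key h1 hmax hℓ hwd hld hm hF hF' oF oF' hS hu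
    hζ hζ' hi hi' hθ hθ' hsc hx
  have hne' : (fun s : ↥(MY π φ π1 M) => ζ s) ≠ (fun s : ↥(MY π φ π1 M) => ζ' s) := by
    intro hcon
    apply hne
    funext x
    by_cases hx : x ∈ MY π φ π1 M
    · exact congrFun hcon ⟨x, hx⟩
    · rw [hζ.irr.2 x hx, hζ'.irr.2 x hx]
  have h0 := hζ.irr.1.sum_ne hζ'.irr.1 hne'
  have h2 := hζ'.irr.1.sum_self
  let E : Subgroup ↥(MY π φ π1 M) := (NN' π ε).comap (fE π φ π1 M)
  have hidx : ¬ ℓ ∣ E.index := by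
    rw [index_E hwd hld]
    exact hm.cop
  have hfq : Fintype (↥(MY π φ π1 M) ⧸ E) := Fintype.ofFinite _
  have hE0 : (Nat.card E : ℂ) ≠ 0 := natCard_ne_zero
  rw [sum_cosets E _ (fun t s hs => pair_coset hwd hld hm hζ hζ' s.2 hs t.2)] at h0
  rw [sum_cosets E _ (fun t s hs => pair_coset hwd hld hm hζ' hζ' s.2 hs t.2)] at h2
  have h3 : ∑ c : ↥(MY π φ π1 M) ⧸ E, ζ c.out * ζ' (c.out)⁻¹ = 0 :=
    (mul_eq_zero.mp h0).resolve_left hE0
  have h4 : ∑ c : ↥(MY π φ π1 M) ⧸ E, ζ' c.out * ζ' (c.out)⁻¹ = (E.index : ℂ) := by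
    rw [← Subgroup.card_mul_index E, Nat.cast_mul] at h2
    exact mul_left_cancel₀ hE0 h2
  have hI : ∀ c : ↥(MY π φ π1 M) ⧸ E, IsIntegral ℤ (ζ (c.out : L × Gam (Equiv.Perm Ω) Ω L1)) :=
    fun c => zeta_int hζ c.out.2
  have hI' : ∀ c : ↥(MY π φ π1 M) ⧸ E,
      IsIntegral ℤ (ζ' (c.out : L × Gam (Equiv.Perm Ω) Ω L1)) :=
    fun c => zeta_int hζ' c.out.2
  have hI2 : ∀ c : ↥(MY π φ π1 M) ⧸ E,
      IsIntegral ℤ (ζ' (c.out : L × Gam (Equiv.Perm Ω) Ω L1)⁻¹) :=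
    fun c => zeta_int hζ' (Subgroup.inv_mem _ c.out.2)
  obtain ⟨d, hd, hd'⟩ := deg_prime hwd hld hm hζ
  have e3 := congrArg (red 𝔐) h3
  have e4 := congrArg (red 𝔐) h4
  rw [red_sum _ _ _ fun c _ => (hI c).mul (hI2 c), red_zero] at e3
  rw [red_sum _ _ _ fun c _ => (hI' c).mul (hI2 c)] at e4
  have e5 : red 𝔐 (ζ 1) * red 𝔐 (E.index : ℂ) = 0 := by
    rw [← e4, Finset.mul_sum]
    have e6 : (∑ c : ↥(MY π φ π1 M) ⧸ E, red 𝔐 (ζ c.out * ζ' (c.out)⁻¹)) *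
        red 𝔐 (ζ' 1) = 0 := by
      rw [e3, zero_mul]
    rw [← e6, Finset.sum_mul]
    refine Finset.sum_congr rfl fun c _ => ?_
    rw [red_mul _ (hI c) (hI2 c), red_mul _ (hI' c) (hI2 c)]
    linear_combination (-red 𝔐 (ζ' (c.out : L × Gam (Equiv.Perm Ω) Ω L1)⁻¹)) *
      hkey c.out c.out.2
  rcases mul_eq_zero.mp e5 with e7 | e7
  · rw [hd] at e7
    exact RIU.red_nat_ne hℓ hd' e7
  · exact RIU.red_nat_ne hℓ hidx e7

end Pool.Agent.DPG
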