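import Mathlib
import Pool.Agent.DPG.StmtsB

/-!
# Dade's conjecture: the factors of a minimal normal subgroup
-/

namespace Pool.Agent.DPG

open scoped commutatorElement

namespace CNA

variable {K : Type} [Group K]

/-- The conjugate of `E` with `k`. -/
def cg (E : Subgroup K) (k : K) : Subgroup K := E.map (MulAut.conj k).toMonoidHom

theorem mem_cg {E : Subgroup K} {k x : K} : x ∈ cg E k ↔ k⁻¹ * x * k ∈ E := by
  unfold cg
  rw [Subgroup.mem_map]
  constructor
  · rintro ⟨y, hy, rfl⟩
    have : k⁻¹ * ((MulAut.conj k).toMonoidHom y) * k = y := by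
      simp [MulAut.conj_apply, mul_assoc]
    rw [this]
    exact hy
  · intro h
    refine ⟨_, h, ?_⟩
    simp [MulAut.conj_apply, mul_assoc]

/-- `E` is a nontrivial subgroup of `N` normalized by `N`. -/
structure IsS (N E : Subgroup K) : Prop where
  le : E ≤ N
  ne : E ≠ ⊥
  nm : ∀ n ∈ N, ∀ x ∈ E, n * x * n⁻¹ ∈ E

theorem isS_cg {N E : Subgroup K} [hN : N.Normal] (h : IsS N E) (k : K) : IsS N (cg E k) := by
  refine ⟨?_, ?_, ?_⟩
  · intro x hx
    have h1 := hN.conj_mem _ (h.le (mem_cg.1 hx)) k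
    have h2 : k * (k⁻¹ * x * k) * k⁻¹ = x := by group
    rwa [h2] at h1
  · intro hb
    apply h.ne
    rw [Subgroup.eq_bot_iff_forall]
    intro x hx
    have h1 : k * x * k⁻¹ ∈ cg E k := by
      rw [mem_cg]
      have h2 : k⁻¹ * (k * x * k⁻¹) * k = x := by group
      rwa [h2]
    rw [hb, Subgroup.mem_bot] at h1
    exact conj_eq_one_iff.1 h1
  · intro n hn x hx
    rw [mem_cg] at hx ⊢
    have h1 : k⁻¹ * n * k ∈ N := by
      have h2 := hN.conj_mem _ hn k⁻¹
      rwa [inv_inv] at h2
    have h3 := h.nm _ h1 _ hx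
    have h4 : k⁻¹ * n * k * (k⁻¹ * x * k) * (k⁻¹ * n * k)⁻¹ = k⁻¹ * (n * x * n⁻¹) * k := by
      group
    rwa [h4] at h3

theorem exists_min [Finite K] {N : Subgroup K} [N.Normal] (hN : N ≠ ⊥) :
    ∃ E : Subgroup K, IsS N E ∧ ∀ F : Subgroup K, IsS N F → F ≤ E → F = E := by
  have hne : {E : Subgroup K | IsS N E}.Nonempty := by
    refine ⟨N, le_rfl, hN, ?_⟩
    intro n hn x hx
    exact N.mul_mem (N.mul_mem hn hx) (N.inv_mem hn)
  obtain ⟨E, hE, hm⟩ := (Set.toFinite {E : Subgroup K | IsS N E}).exists_minimal hne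
  exact ⟨E, hE, fun F hF hFE => le_antisymm hFE (hm hF hFE)⟩

theorem comm_of_disj {N E F : Subgroup K} (hE : IsS N E) (hF : IsS N F)
    (h : F ⊓ E = ⊥) {x y : K} (hx : x ∈ F) (hy : y ∈ E) : x * y = y * x := by
  have h1 : x * y * x⁻¹ * y⁻¹ ∈ F ⊓ E := by
    refine ⟨?_, ?_⟩
    · have h2 : x * y * x⁻¹ * y⁻¹ = x * (y * x⁻¹ * y⁻¹) := by group
      rw [h2]
      exact F.mul_mem hx (hF.nm _ (hE.le hy) _ (F.inv_mem hx))
    · exact E.mul_mem (hE.nm _ (hF.le hx) _ hy) (E.inv_mem hy)
  rw [h, Subgroup.mem_bot] at h1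
  have h3 : x * y * x⁻¹ = y := mul_inv_eq_one.1 h1
  exact mul_inv_eq_iff_eq_mul.1 h3

end CNA

open CNA in
theorem CNA_thm : Stmt_CNA := by
  intro K _ _ N hNn hN hmin hna hns
  obtain ⟨E, hE, hEm⟩ := exists_min hN
  -- the two possibilities for a conjugate
  have key : ∀ k : K, cg E k = E ∨ cg E k ⊓ E = ⊥ := by
    intro k
    by_cases hb : cg E k ⊓ E = ⊥
    · exact Or.inr hb
    · left
      have h1 : IsS N (cg E k ⊓ E) := by
        refine ⟨le_trans inf_le_right hE.le, hb, ?_⟩
        intro n hn x hx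
        exact ⟨(isS_cg hE k).nm n hn x hx.1, hE.nm n hn x hx.2⟩
      have h2 := hEm _ h1 inf_le_right
      have h3 : E ≤ cg E k := by
        have h0 : cg E k ⊓ E ≤ cg E k := inf_le_left
        rwa [h2] at h0
      have h4 : Nat.card (cg E k) = Nat.card E :=
        (Nat.card_congr (E.equivMapOfInjective _ (MulAut.conj k).injective).toEquiv).symm
      exact (Subgroup.eq_of_le_of_card_ge h3 (le_of_eq h4)).symm
  have hcm : ∀ k : K, cg E k = E ∨ ∀ x ∈ cg E k, ∀ y ∈ E, x * y = y * x := by
    intro k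
    rcases key k with h | h
    · exact Or.inl h
    · exact Or.inr fun x hx y hy => comm_of_disj hE (isS_cg hE k) h hx hy
  have hsup : (⨆ k : K, cg E k) = N := by
    have hle : (⨆ k : K, cg E k) ≤ N := iSup_le fun k => (isS_cg hE k).le
    have hn : (⨆ k : K, cg E k).Normal := by
      constructor
      intro x hx g
      have h1 : (⨆ k : K, cg E k) ≤ (⨆ k : K, cg E k).comap (MulAut.conj g).toMonoidHom := by
        refine iSup_le fun k => ?_
        intro y hy
        rw [Subgroup.mem_comap]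
        refine (le_iSup (fun k => cg E k) (g * k)) ?_
        rw [mem_cg] at hy ⊢
        have h2 : (g * k)⁻¹ * ((MulAut.conj g).toMonoidHom y) * (g * k) = k⁻¹ * y * k := by
          change (g * k)⁻¹ * (g * y * g⁻¹) * (g * k) = k⁻¹ * y * k
          group
        rw [h2]
        exact hy
      exact h1 hx
    rcases hmin _ hn hle with h | h
    · exfalso
      apply hE.ne
      rw [eq_bot_iff, ← h]
      intro x hx
      refine (le_iSup (fun k => cg E k) 1) ?_
      rw [mem_cg]
      simpa using hx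
    · exact h
  have hnab : ¬ ∀ x ∈ E, ∀ y ∈ E, x * y = y * x := by
    intro hab
    have h1 : ∀ k l : K, ∀ x ∈ cg E k, ∀ y ∈ cg E l, x * y = y * x := by
      intro k l x hx y hy
      rw [mem_cg] at hx hy
      have hx' : l⁻¹ * x * l ∈ cg E (l⁻¹ * k) := by
        rw [mem_cg]
        have h2 : (l⁻¹ * k)⁻¹ * (l⁻¹ * x * l) * (l⁻¹ * k) = k⁻¹ * x * k := by group
        rwa [h2]
      have h3 : (l⁻¹ * x * l) * (l⁻¹ * y * l) = (l⁻¹ * y * l) * (l⁻¹ * x * l) := by
        rcases hcm (l⁻¹ * k) with h | h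
        · rw [h] at hx'
          exact hab _ hx' _ hy
        · exact h _ hx' _ hy
      have h4 : l⁻¹ * (x * y) * l = l⁻¹ * (y * x) * l := by
        calc l⁻¹ * (x * y) * l = (l⁻¹ * x * l) * (l⁻¹ * y * l) := by group
          _ = (l⁻¹ * y * l) * (l⁻¹ * x * l) := h3
          _ = l⁻¹ * (y * x) * l := by group
      exact mul_left_cancel (mul_right_cancel h4)
    have h2 : (⨆ k : K, cg E k) ≤
        Subgroup.centralizer ((⨆ k : K, cg E k : Subgroup K) : Set K) := by
      refine iSup_le fun k => ?_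
      rw [Subgroup.le_centralizer_iff]
      refine iSup_le fun l => ?_
      intro y hy
      rw [Subgroup.mem_centralizer_iff]
      intro x hx
      exact h1 k l x hx y hy
    obtain ⟨x, hx, y, hy, hxy⟩ := hna
    rw [hsup] at h2
    have h5 := (Subgroup.mem_centralizer_iff.1 (h2 hy)) x hx
    exact hxy h5
  have hperf : ⁅E, E⁆ = E := by
    have h1 : ⁅E, E⁆ ≠ ⊥ := by
      intro hb
      apply hnab
      intro x hx y hy
      have h2 : ⁅x, y⁆ ∈ ⁅E, E⁆ := Subgroup.commutator_mem_commutator hx hy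
      rw [hb, Subgroup.mem_bot, commutatorElement_eq_one_iff_mul_comm] at h2
      exact h2
    have hle : ⁅E, E⁆ ≤ E := Subgroup.commutator_le.2 fun x hx y hy => by
      rw [commutatorElement_def]
      exact E.mul_mem (E.mul_mem (E.mul_mem hx hy) (E.inv_mem hx)) (E.inv_mem hy)
    refine hEm _ ⟨hle.trans hE.le, h1, ?_⟩ hle
    intro n hn x hx
    have h3 : E.map (MulAut.conj n).toMonoidHom ≤ E := by
      rintro _ ⟨y, hy, rfl⟩
      exact hE.nm n hn y hy
    have h4 : ⁅E, E⁆.map (MulAut.conj n).toMonoidHom ≤ ⁅E, E⁆ := by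
      rw [Subgroup.map_commutator]
      exact Subgroup.commutator_mono h3 h3
    exact h4 (Subgroup.mem_map_of_mem _ hx)
  have hcen : ∀ x ∈ E, (∀ y ∈ E, x * y = y * x) → x = 1 := by
    by_contra hcon
    push Not at hcon
    obtain ⟨z, hz, hzc, hz1⟩ := hcon
    have h1 : IsS N (E ⊓ Subgroup.centralizer (E : Set K)) := by
      refine ⟨le_trans inf_le_left hE.le, ?_, ?_⟩
      · intro hb
        apply hz1
        have h2 : z ∈ E ⊓ Subgroup.centralizer (E : Set K) := by
          refine ⟨hz, ?_⟩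
          refine Subgroup.mem_centralizer_iff.2 ?_
          intro y hy
          exact (hzc y hy).symm
        rw [hb, Subgroup.mem_bot] at h2
        exact h2
      · intro n hn x hx
        refine ⟨hE.nm n hn x hx.1, ?_⟩
        refine Subgroup.mem_centralizer_iff.2 ?_
        intro y hy
        have h2 : n⁻¹ * y * n ∈ E := by
          have h3 := hE.nm n⁻¹ (N.inv_mem hn) y hy
          rwa [inv_inv] at h3
        have h4 := (Subgroup.mem_centralizer_iff.1 hx.2) _ h2
        calc y * (n * x * n⁻¹) = n * ((n⁻¹ * y * n) * x) * n⁻¹ := by group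
          _ = n * (x * (n⁻¹ * y * n)) * n⁻¹ := by rw [h4]
          _ = n * x * n⁻¹ * y := by group
    have h5 := hEm _ h1 inf_le_left
    apply hnab
    intro x hx y hy
    have h6 : x ∈ E ⊓ Subgroup.centralizer (E : Set K) := by rw [h5]; exact hx
    exact ((Subgroup.mem_centralizer_iff.1 h6.2) y hy).symm
  have hmov : ∃ k : K, cg E k ≠ E := by
    by_contra hcon
    push Not at hcon
    have hEN : E = N := by
      rw [← hsup]
      apply le_antisymm
      · have h1 := le_iSup (fun k => cg E k) 1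
        simp only [hcon 1] at h1
        exact h1
      · exact iSup_le fun k => le_of_eq (hcon k)
    apply hns
    have hnt : Nontrivial N := by
      rw [Subgroup.nontrivial_iff_ne_bot]
      exact hN
    refine { toNontrivial := hnt, eq_bot_or_eq_top_of_normal := ?_ }
    intro H hH
    by_cases hb : H = ⊥
    · exact Or.inl hb
    · right
      have h1 : IsS N (H.map N.subtype) := by
        refine ⟨Subgroup.map_subtype_le H, ?_, ?_⟩
        · intro h2
          apply hb
          rwa [Subgroup.map_eq_bot_iff_of_injective _ N.subtype_injective] at h2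
        · rintro n hn _ ⟨x, hx, rfl⟩
          exact ⟨⟨n, hn⟩ * x * ⟨n, hn⟩⁻¹, hH.conj_mem x hx ⟨n, hn⟩, rfl⟩
      have h2 : H.map N.subtype ≤ E := by
        rw [hEN]
        exact Subgroup.map_subtype_le H
      have h3 := hEm _ h1 h2
      rw [eq_top_iff]
      intro x _
      have h4 : (x : K) ∈ H.map N.subtype := by
        rw [h3, hEN]
        exact x.2
      obtain ⟨y, hy, hyx⟩ := h4
      have h5 : y = x := Subtype.ext hyx
      rwa [← h5]
  refine ⟨E, hE.le, hE.ne, hperf, hcen, ?_, hsup, hmov⟩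
  intro k
  rcases hcm k with h | h
  · exact Or.inl h
  · right
    intro x hx y hy
    refine h _ ?_ y hy
    rw [mem_cg]
    have h2 : k⁻¹ * (k * x * k⁻¹) * k = x := by group
    rwa [h2]

end Pool.Agent.DPG
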