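import Mathlib
import Pool.Agent.DPG.StmtsB
import Pool.Agent.DPG.WDB
import Pool.Agent.DPW.CPA

/-!
# Dade's conjecture: minimal normal subgroups which are not simple: CNB

The wreath product data of a minimal normal subgroup which is not simple.
-/

set_option linter.unusedSectionVars false

namespace Pool.Agent.DPG.CNB

open Pool.Agent.DP Pool.Agent.DPC Pool.Agent.DPM Pool.Agent.DPN Pool.Agent.DPF Pool.Agent.DPG
  Pool.Agent.DPG.WDB Pool.Agent.Lib_helper13 Representation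
open scoped commutatorElement

/-! ### Central extensions of perfect groups -/

section Perf

variable {L K : Type} [Group L] [Group K] {π : L →* K} {E : Subgroup K}

theorem exists_comm (hπ : Function.Surjective π) (hEE : ⁅E, E⁆ = E) {u : L} (hu : π u ∈ E) :
    ∃ v ∈ ⁅E.comap π, E.comap π⁆, ∃ z ∈ π.ker, u = v * z := by
  have h1 : (⁅E.comap π, E.comap π⁆).map π = E := by
    rw [Subgroup.map_commutator, Subgroup.map_comap_eq_self_of_surjective hπ, hEE]
  have h2 : π u ∈ (⁅E.comap π, E.comap π⁆).map π := by rw [h1]; exact hu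
  obtain ⟨v, hv, hvu⟩ := h2
  refine ⟨v, hv, v⁻¹ * u, ?_, by rw [mul_inv_cancel_left]⟩
  rw [MonoidHom.mem_ker, map_mul, map_inv, hvu, inv_mul_cancel]

/-- An element whose image commutes with `E` commutes with the inverse image of `E`. -/
theorem comm_of (hπ : Function.Surjective π) (hc : π.ker ≤ Subgroup.center L)
    (hEE : ⁅E, E⁆ = E) {a : L} (ha : ∀ y ∈ E, π a * y = y * π a) {u : L} (hu : π u ∈ E) :
    a * u = u * a := by
  have h1 : ∀ u : L, π u ∈ E → ∃ z ∈ π.ker, a * u * a⁻¹ = u * z := by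
    intro u hu
    refine ⟨u⁻¹ * (a * u * a⁻¹), ?_, by rw [mul_inv_cancel_left]⟩
    rw [MonoidHom.mem_ker, map_mul, map_mul, map_mul, map_inv, map_inv, ha _ hu,
      mul_inv_cancel_right, inv_mul_cancel]
  have h2 : ⁅E.comap π, E.comap π⁆ ≤ Subgroup.centralizer {a} := by
    rw [Subgroup.commutator_le]
    intro v hv w hw
    rw [Subgroup.mem_centralizer_singleton_iff]
    obtain ⟨z, hz, hz'⟩ := h1 v hv
    obtain ⟨z2, hz2, hz2'⟩ := h1 w hw
    have hzc := Subgroup.mem_center_iff.mp (hc hz)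
    have hzc2 := Subgroup.mem_center_iff.mp (hc hz2)
    have h3 : a * ⁅v, w⁆ * a⁻¹ = ⁅v, w⁆ := by
      calc a * ⁅v, w⁆ * a⁻¹ = ⁅a * v * a⁻¹, a * w * a⁻¹⁆ := by
            rw [commutatorElement_def, commutatorElement_def]
            group
        _ = (v * z) * (w * z2) * (v * z)⁻¹ * (w * z2)⁻¹ := by
            rw [hz', hz2', commutatorElement_def]
        _ = (v * z) * (w * z2) * (z⁻¹ * v⁻¹) * (z2⁻¹ * w⁻¹) := by
            rw [mul_inv_rev, mul_inv_rev]
        _ = v * (z * (w * (z2 * z⁻¹))) * v⁻¹ * (z2⁻¹ * w⁻¹) := by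
            group
        _ = v * (w * z2) * v⁻¹ * (z2⁻¹ * w⁻¹) := by
            rw [← mul_assoc w z2 z⁻¹, ← mul_assoc z (w * z2) z⁻¹, ← hzc (w * z2),
              mul_inv_cancel_right]
        _ = v * w * (z2 * v⁻¹) * z2⁻¹ * w⁻¹ := by group
        _ = v * w * v⁻¹ * w⁻¹ := by
            rw [← hzc2 v⁻¹]
            group
        _ = ⁅v, w⁆ := by rw [commutatorElement_def]
    rw [mul_inv_eq_iff_eq_mul] at h3
    first
    | exact h3
    | exact h3.symm
  obtain ⟨v, hv, z, hz, rfl⟩ := exists_comm hπ hEE hu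
  have h3 := Subgroup.mem_centralizer_singleton_iff.mp (h2 hv)
  have h4 := Subgroup.mem_center_iff.mp (hc hz) a
  have h3' : a * v = v * a := by
    first
    | exact h3
    | exact h3.symm
  rw [← mul_assoc, h3', mul_assoc, h4, mul_assoc]

theorem cpa_hyp (hπ : Function.Surjective π) (hc : π.ker ≤ Subgroup.center L)
    (hEE : ⁅E, E⁆ = E)
    (hE : ∀ k : K, E.map (MulAut.conj k).toMonoidHom = E ∨
      ∀ x ∈ E, ∀ y ∈ E, (k * x * k⁻¹) * y = y * (k * x * k⁻¹)) (x : L) :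
    (∀ k ∈ E.comap π, x * k * x⁻¹ ∈ E.comap π) ∨
      ∀ k ∈ E.comap π, ∀ k' ∈ E.comap π, (x * k * x⁻¹) * k' = k' * (x * k * x⁻¹) := by
  rcases hE (π x) with h | h
  · left
    intro k hk
    rw [Subgroup.mem_comap, map_mul, map_mul, map_inv]
    rw [← h]
    exact ⟨π k, hk, rfl⟩
  · right
    intro k hk k' hk'
    refine comm_of hπ hc hEE (fun y hy => ?_) hk'
    rw [map_mul, map_mul, map_inv]
    exact h _ hk y hy

end Perf

/-! ### The data of CPA -/

/-- The conclusion of CPA. -/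
structure CD {L Ω' : Type} [Group L] [DecidableEq Ω'] (Q' : Subgroup L) (w₀ : Ω')
    (e : (Ω' → Q') →* L) (c : L →* MulAut (Ω' → Q')) (s : L → Equiv.Perm Ω')
    (ac : L → Ω' → MulAut Q') : Prop where
  e0 : ∀ k : Q', e (Pi.mulSingle w₀ k) = k
  ec : ∀ y n, e (c y n) = y * e n * y⁻¹
  cs : ∀ y n w, c y n w = ac y w (n (s y w))
  an : ∀ y w, ∃ z ∈ Subgroup.normalizer (Q' : Set L), ∀ k : Q', ((ac y w k : Q') : L) =
    z * k * z⁻¹
  ce : ∀ n m, c (e n) m = n * m * n⁻¹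
  cz : ∀ z : L, (∀ n, z * e n = e n * z) → c z = 1

section Data

variable {L Ω' : Type} [Group L] [DecidableEq Ω'] {Q' : Subgroup L} {w₀ : Ω'}
  {e : (Ω' → Q') →* L} {c : L →* MulAut (Ω' → Q')} {s : L → Equiv.Perm Ω'}
  {ac : L → Ω' → MulAut Q'}

theorem s_mul [Nontrivial Q'] (h : CD Q' w₀ e c s ac) (y y' : L) (w : Ω') :
    s (y * y') w = s y' (s y w) := by
  obtain ⟨x, hx⟩ := exists_ne (1 : Q')
  have h1 : ∀ n : Ω' → Q', ac (y * y') w (n (s (y * y') w)) =
      ac y w (ac y' (s y w) (n (s y' (s y w)))) := by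
    intro n
    rw [← h.cs, ← h.cs y', ← h.cs y, map_mul, MulAut.mul_apply]
  by_contra hne
  have h2 := h1 (Pi.mulSingle (s (y * y') w) x)
  rw [Pi.mulSingle_eq_same, Pi.mulSingle_eq_of_ne (Ne.symm hne), map_one, map_one] at h2
  exact hx ((map_eq_one_iff _ (ac (y * y') w).injective).mp h2)

theorem ac_mul [Nontrivial Q'] (h : CD Q' w₀ e c s ac) (y y' : L) (w : Ω') (x : Q') :
    ac (y * y') w x = ac y w (ac y' (s y w) x) := by
  have h1 := h.cs (y * y') (fun _ => x) w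
  rw [map_mul, MulAut.mul_apply, h.cs, h.cs] at h1
  exact h1.symm

theorem s_one [Nontrivial Q'] (h : CD Q' w₀ e c s ac) (w : Ω') : s 1 w = w := by
  have h1 := s_mul h 1 1 w
  rw [mul_one] at h1
  exact ((s 1).injective h1).symm

theorem ac_one [Nontrivial Q'] (h : CD Q' w₀ e c s ac) (w : Ω') (x : Q') : ac 1 w x = x := by
  have h1 := h.cs 1 (fun _ => x) w
  rw [map_one, MulAut.one_apply] at h1
  exact h1.symm

theorem s_inv [Nontrivial Q'] (h : CD Q' w₀ e c s ac) (y : L) (w : Ω') :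
    s y⁻¹ (s y w) = w := by
  rw [← s_mul h, mul_inv_cancel, s_one h]

theorem s_inv' [Nontrivial Q'] (h : CD Q' w₀ e c s ac) (y : L) (w : Ω') :
    s y (s y⁻¹ w) = w := by
  rw [← s_mul h, inv_mul_cancel, s_one h]

theorem ac_inv [Nontrivial Q'] (h : CD Q' w₀ e c s ac) (y : L) (w : Ω') (x : Q') :
    ac y w (ac y⁻¹ (s y w) x) = x := by
  rw [← ac_mul h, mul_inv_cancel, ac_one h]

theorem s_of_eq_one [Nontrivial Q'] (h : CD Q' w₀ e c s ac) {y : L} (hy : c y = 1) (w : Ω') :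
    s y w = w := by
  obtain ⟨x, hx⟩ := exists_ne (1 : Q')
  have h1 : ∀ n : Ω' → Q', n w = ac y w (n (s y w)) := by
    intro n
    rw [← h.cs, hy, MulAut.one_apply]
  by_contra hne
  have h2 := h1 (Pi.mulSingle w x)
  rw [Pi.mulSingle_eq_same, Pi.mulSingle_eq_of_ne hne, map_one] at h2
  exact hx h2

theorem ac_of_eq_one [Nontrivial Q'] (h : CD Q' w₀ e c s ac) {y : L} (hy : c y = 1) (w : Ω')
    (x : Q') : ac y w x = x := by
  have h1 := h.cs y (fun _ => x) w
  rw [hy, MulAut.one_apply] at h1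
  exact h1.symm

theorem s_e [Nontrivial Q'] (h : CD Q' w₀ e c s ac) (n : Ω' → Q') (w : Ω') :
    s (e n) w = w := by
  obtain ⟨x, hx⟩ := exists_ne (1 : Q')
  have h1 : ∀ m : Ω' → Q', n w * m w * (n w)⁻¹ = ac (e n) w (m (s (e n) w)) := by
    intro m
    rw [← h.cs, h.ce]
    rfl
  by_contra hne
  have h2 := h1 (Pi.mulSingle w x)
  rw [Pi.mulSingle_eq_same, Pi.mulSingle_eq_of_ne hne, map_one] at h2
  exact hx (conj_eq_one_iff.mp h2)

theorem ac_e [Nontrivial Q'] (h : CD Q' w₀ e c s ac) (n : Ω' → Q') (w : Ω') (x : Q') :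
    ac (e n) w x = n w * x * (n w)⁻¹ := by
  have h1 := h.cs (e n) (fun _ => x) w
  rw [h.ce] at h1
  exact h1.symm

theorem e_single (h : CD Q' w₀ e c s ac) (y : L) (w : Ω') (x : Q') :
    e (Pi.mulSingle w (ac y w x)) = y * e (Pi.mulSingle (s y w) x) * y⁻¹ := by
  rw [← h.ec]
  congr 1
  funext v
  rw [h.cs]
  by_cases hv : v = w
  · subst hv
    rw [Pi.mulSingle_eq_same, Pi.mulSingle_eq_same]
  · rw [Pi.mulSingle_eq_of_ne hv, Pi.mulSingle_eq_of_ne, map_one]
    exact fun h1 => hv ((s y).injective h1)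

theorem e_single0 (h : CD Q' w₀ e c s ac) {y : L} {w : Ω'} (hw : s y w = w₀) (x : Q') :
    e (Pi.mulSingle w (ac y w x)) = y * x * y⁻¹ := by
  rw [e_single h, hw, h.e0]

theorem e_single_comm {w w' : Ω'} (hw : w ≠ w') (x x' : Q') :
    e (Pi.mulSingle w x) * e (Pi.mulSingle w' x') =
      e (Pi.mulSingle w' x') * e (Pi.mulSingle w x) := by
  rw [← map_mul, ← map_mul]
  exact congrArg e (Pi.mulSingle_commute (f := fun _ => Q') hw x x').eq

end Data

/-! ### The orbit of `w₀` -/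

section Orb

variable {L Ω' : Type} [Group L] [DecidableEq Ω'] {Q' : Subgroup L} {w₀ : Ω'}
  {e : (Ω' → Q') →* L} {c : L →* MulAut (Ω' → Q')} {s : L → Equiv.Perm Ω'}
  {ac : L → Ω' → MulAut Q'}

/-- The orbit of `w₀`. -/
def Ow (s : L → Equiv.Perm Ω') (w₀ : Ω') (w : Ω') : Prop := ∃ y, s y w = w₀

theorem Ow_iff [Nontrivial Q'] (h : CD Q' w₀ e c s ac) (y : L) (w : Ω') :
    Ow s w₀ (s y w) ↔ Ow s w₀ w := by
  constructor
  · rintro ⟨y', hy'⟩
    exact ⟨y * y', by rw [s_mul h, hy']⟩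
  · rintro ⟨y', hy'⟩
    exact ⟨y⁻¹ * y', by rw [s_mul h, s_inv h, hy']⟩

theorem Ow_w0 [Nontrivial Q'] (h : CD Q' w₀ e c s ac) : Ow s w₀ w₀ := ⟨1, s_one h w₀⟩

/-- The orbit of `w₀` as a type. -/
abbrev Om (s : L → Equiv.Perm Ω') (w₀ : Ω') : Type := {w : Ω' // Ow s w₀ w}

/-- The permutation of the orbit. -/
def sO [Nontrivial Q'] (h : CD Q' w₀ e c s ac) (y : L) : Equiv.Perm (Om s w₀) :=
  (s y).subtypePerm (Ow_iff h y)

theorem sO_coe [Nontrivial Q'] (h : CD Q' w₀ e c s ac) (y : L) (w : Om s w₀) :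
    (sO h y w : Ω') = s y w := rfl

open Classical in
/-- The extension by 1. -/
noncomputable def ex (s : L → Equiv.Perm Ω') (w₀ : Ω') (Q : Type) [Group Q] :
    (Om s w₀ → Q) →* (Ω' → Q) where
  toFun n w := if h : Ow s w₀ w then n ⟨w, h⟩ else 1
  map_one' := by
    funext w
    simp
  map_mul' := by
    intro n m
    funext w
    by_cases h : Ow s w₀ w
    · simp [h]
    · simp [h]

theorem ex_of {Q : Type} [Group Q] (n : Om s w₀ → Q) {w : Ω'} (h : Ow s w₀ w) :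
    ex s w₀ Q n w = n ⟨w, h⟩ := dif_pos h

theorem ex_not {Q : Type} [Group Q] (n : Om s w₀ → Q) {w : Ω'} (h : ¬ Ow s w₀ w) :
    ex s w₀ Q n w = 1 := dif_neg h

theorem ex_single {Q : Type} [Group Q] (w : Om s w₀) (x : Q) :
    ex s w₀ Q (Pi.mulSingle w x) = Pi.mulSingle (w : Ω') x := by
  funext v
  by_cases hv : Ow s w₀ v
  · rw [ex_of _ hv]
    by_cases hvw : v = w
    · subst hvw
      rw [Pi.mulSingle_eq_same]
      exact (Pi.mulSingle_eq_same (M := fun _ : Ω' => Q) (w : Ω') x).symm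
    · rw [Pi.mulSingle_eq_of_ne hvw, Pi.mulSingle_eq_of_ne]
      exact fun h1 => hvw (congrArg Subtype.val h1)
  · rw [ex_not _ hv, Pi.mulSingle_eq_of_ne]
    exact fun h1 => hv (by rw [h1]; exact w.2)

/-- The automorphisms of `Q'` which are conjugations with elements of the normalizer. -/
def KN (Q' : Subgroup L) : Subgroup (MulAut Q') where
  carrier := {a | ∃ z ∈ Subgroup.normalizer (Q' : Set L), ∀ k : Q', ((a k : Q') : L) =
    z * k * z⁻¹}
  one_mem' := ⟨1, Subgroup.one_mem _, fun k => by simp⟩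
  mul_mem' := by
    rintro a b ⟨z, hz, hz'⟩ ⟨z2, hz2, hz2'⟩
    refine ⟨z * z2, Subgroup.mul_mem _ hz hz2, fun k => ?_⟩
    rw [MulAut.mul_apply, hz', hz2']
    group
  inv_mem' := by
    rintro a ⟨z, hz, hz'⟩
    refine ⟨z⁻¹, Subgroup.inv_mem _ hz, fun k => ?_⟩
    have h1 := hz' (a⁻¹ k)
    rw [MulAut.apply_inv_self] at h1
    rw [h1]
    group

/-- The homomorphism to the wreath product. -/
def ph1 [Nontrivial Q'] (h : CD Q' w₀ e c s ac) :
    L →* Gam (Equiv.Perm (Om s w₀)) (Om s w₀) (KN Q') where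
  toFun y := ⟨fun w => ⟨ac y w, h.an y w⟩, (sO h y)⁻¹⟩
  map_one' := by
    refine ext' ?_ fun w => ?_
    · change (sO h 1)⁻¹ = 1
      rw [inv_eq_one]
      refine Equiv.ext fun w => Subtype.ext ?_
      rw [sO_coe, s_one h]
      rfl
    · refine Subtype.ext (MulEquiv.ext fun x => ?_)
      exact ac_one h _ x
  map_mul' := by
    intro y y'
    refine ext' ?_ fun w => ?_
    · change (sO h (y * y'))⁻¹ = (sO h y)⁻¹ * (sO h y')⁻¹
      rw [← mul_inv_rev]
      congr 1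
      refine Equiv.ext fun w => Subtype.ext ?_
      rw [sO_coe, s_mul h]
      rfl
    · refine Subtype.ext (MulEquiv.ext fun x => ?_)
      exact ac_mul h y y' _ x

theorem ph1_left [Nontrivial Q'] (h : CD Q' w₀ e c s ac) (y : L) (w : Om s w₀) :
    (((ph1 h y).left w : KN Q') : MulAut Q') = ac y w := rfl

theorem ph1_right [Nontrivial Q'] (h : CD Q' w₀ e c s ac) (y : L) :
    (ph1 h y).right = (sO h y)⁻¹ := rfl

/-- The homomorphism of the power. -/
noncomputable def ep (s : L → Equiv.Perm Ω') (w₀ : Ω') (e : (Ω' → Q') →* L) :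
    (Om s w₀ → Q') →* L :=
  e.comp (ex s w₀ Q')

theorem ep_apply (n : Om s w₀ → Q') : ep s w₀ e n = e (ex s w₀ Q' n) := rfl

/-- Conjugations with elements of `Q'`. -/
def qq (Q' : Subgroup L) : Q' →* KN Q' where
  toFun x := ⟨MulAut.conj x, ⟨x, Subgroup.le_normalizer x.2, fun k => by
    rw [MulAut.conj_apply]
    rfl⟩⟩
  map_one' := Subtype.ext (map_one _)
  map_mul' := fun x y => Subtype.ext (map_mul _ x y)

theorem qq_coe (x : Q') : ((qq Q' x : KN Q') : MulAut Q') = MulAut.conj x := rfl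

theorem ep_conj [Nontrivial Q'] (h : CD Q' w₀ e c s ac) (l : L) (n : Om s w₀ → Q') :
    ep s w₀ e (wB (KN Q').subtype (Om s w₀) (ph1 h l) n) = l * ep s w₀ e n * l⁻¹ := by
  rw [ep_apply, ep_apply, ← h.ec]
  congr 1
  funext w
  rw [h.cs]
  by_cases hw : Ow s w₀ w
  · rw [ex_of _ hw, ex_of _ ((Ow_iff h l w).mpr hw)]
    rfl
  · rw [ex_not _ hw, ex_not _ (fun h1 => hw ((Ow_iff h l w).mp h1)), map_one]

theorem ph1_ep [Nontrivial Q'] (h : CD Q' w₀ e c s ac) (n : Om s w₀ → Q') :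
    ph1 h (ep s w₀ e n) = gin (fun o => qq Q' (n o)) := by
  refine ext' ?_ fun w => ?_
  · rw [ph1_right, gin_right, inv_eq_one]
    refine Equiv.ext fun w => Subtype.ext ?_
    rw [sO_coe, ep_apply, s_e h]
    rfl
  · refine Subtype.ext (MulEquiv.ext fun x => ?_)
    rw [ph1_left, gin_left, qq_coe, MulAut.conj_apply, ep_apply, ac_e h, ex_of _ w.2]

theorem ep_single [Nontrivial Q'] (h : CD Q' w₀ e c s ac) {y : L} {w : Om s w₀}
    (hw : s y w = w₀) (x : Q') :
    ep s w₀ e (Pi.mulSingle w (ac y w x)) = y * x * y⁻¹ := by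
  rw [ep_apply, ex_single, e_single0 h hw]

/-- A central element is trivial in the wreath product. -/
theorem ph1_of_comm [Nontrivial Q'] (h : CD Q' w₀ e c s ac) {y : L}
    (hy : ∀ n, y * e n = e n * y) : ph1 h y = 1 := by
  have h1 := h.cz y hy
  refine ext' ?_ fun w => ?_
  · change (sO h y)⁻¹ = 1
    rw [inv_eq_one]
    refine Equiv.ext fun w => Subtype.ext ?_
    rw [sO_coe, s_of_eq_one h h1]
    rfl
  · refine Subtype.ext (MulEquiv.ext fun x => ?_)
    rw [ph1_left, ac_of_eq_one h h1]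
    rfl

theorem comm_of_ph1 [Nontrivial Q'] (h : CD Q' w₀ e c s ac) {y : L} (hy : ph1 h y = 1)
    (n : Om s w₀ → Q') : y * ep s w₀ e n * y⁻¹ = ep s w₀ e n := by
  rw [← ep_conj h, hy, map_one]
  rfl

end Orb

/-! ### The theorem -/

section Thm

variable {L K : Type} [Group L] [Group K] {π : L →* K} {E N : Subgroup K} {Ω' : Type}
  [DecidableEq Ω'] {w₀ : Ω'} {e : (Ω' → E.comap π) →* L}
  {c : L →* MulAut (Ω' → E.comap π)} {s : L → Equiv.Perm Ω'}
  {ac : L → Ω' → MulAut (E.comap π)}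

theorem exists_lift {G : Type} [Group G] (hπ : Function.Surjective π) (f : L →* G)
    (hf : ∀ l, π l = 1 → f l = 1) : ∃ φ : K →* G, ∀ l, φ (π l) = f l := by
  choose r hr using hπ
  have h1 : ∀ l l', π l = π l' → f l = f l' := by
    intro l l' h
    have h2 : f (l * l'⁻¹) = 1 := hf _ (by rw [map_mul, map_inv, h, mul_inv_cancel])
    rw [map_mul, map_inv, mul_inv_eq_one] at h2
    exact h2
  refine ⟨⟨⟨fun k => f (r k), hf _ (hr 1)⟩, fun k k' => ?_⟩, fun l => h1 _ _ (hr _)⟩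
  change f (r (k * k')) = f (r k) * f (r k')
  rw [← map_mul]
  exact h1 _ _ (by rw [hr, map_mul, hr, hr])

theorem s_symm (s : L → Equiv.Perm Ω') (y : L) (w₀ : Ω') : s y ((s y).symm w₀) = w₀ :=
  (s y).apply_symm_apply w₀

/-- The conjugates of `Q'` lie in the range. -/
theorem conj_mem_range [Nontrivial (E.comap π)] (h : CD (E.comap π) w₀ e c s ac) (y : L)
    (x : E.comap π) : y * x * y⁻¹ ∈ (ep s w₀ e).range :=
  ⟨Pi.mulSingle ⟨(s y).symm w₀, y, s_symm s y w₀⟩ (ac y ((s y).symm w₀) x),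
    ep_single h (w := ⟨(s y).symm w₀, y, s_symm s y w₀⟩) (s_symm s y w₀) x⟩

theorem single_eq [Nontrivial (E.comap π)] (h : CD (E.comap π) w₀ e c s ac) (w : Om s w₀)
    (u : E.comap π) : ∃ y : L, s y w = w₀ ∧
      ep s w₀ e (Pi.mulSingle w u) = y * ((ac y w)⁻¹ u : E.comap π) * y⁻¹ := by
  obtain ⟨y, hy⟩ := w.2
  refine ⟨y, hy, ?_⟩
  have h2 := ep_single h hy ((ac y w)⁻¹ u)
  rw [MulAut.apply_inv_self] at h2
  exact h2

theorem NN_eq [Finite Ω'] [Nontrivial (E.comap π)] (h : CD (E.comap π) w₀ e c s ac)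
    (hπ : Function.Surjective π) (hN : N.Normal) (hEN : E ≤ N)
    (hNE : (⨆ k : K, E.map (MulAut.conj k).toMonoidHom) = N) :
    (ep s w₀ e).range.map π = N := by
  refine le_antisymm ?_ ?_
  · rintro _ ⟨_, ⟨n, rfl⟩, rfl⟩
    have h1 : n ∈ (N.comap π).comap (ep s w₀ e) := by
      refine Subgroup.pi_mem_of_mulSingle_mem n fun w => ?_
      obtain ⟨y, -, hy⟩ := single_eq h w (n w)
      rw [Subgroup.mem_comap, Subgroup.mem_comap, hy, map_mul, map_mul, map_inv]
      exact hN.conj_mem _ (hEN ((ac y w)⁻¹ (n w) : E.comap π).2) _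
    exact h1
  · rw [← hNE]
    refine iSup_le fun k => ?_
    rintro _ ⟨x, hx, rfl⟩
    obtain ⟨y, rfl⟩ := hπ k
    obtain ⟨x', rfl⟩ := hπ x
    refine ⟨y * x' * y⁻¹, conj_mem_range h y ⟨x', hx⟩, ?_⟩
    rw [map_mul, map_mul, map_inv]
    rfl

theorem ph1_eq_one [Finite Ω'] [Nontrivial (E.comap π)] (h : CD (E.comap π) w₀ e c s ac)
    (hπ : Function.Surjective π) (hc : π.ker ≤ Subgroup.center L) (hN : N.Normal)
    (hEN : E ≤ N) (hNE : (⨆ k : K, E.map (MulAut.conj k).toMonoidHom) = N)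
    (hCN : ∀ k : K, (∀ x ∈ N, k * x = x * k) → k = 1) (y : L) :
    ph1 h y = 1 ↔ π y = 1 := by
  constructor
  · intro h1
    refine hCN _ fun x hx => ?_
    rw [← NN_eq h hπ hN hEN hNE] at hx
    obtain ⟨_, ⟨n, rfl⟩, rfl⟩ := hx
    have h2 := comm_of_ph1 h h1 n
    rw [mul_inv_eq_iff_eq_mul] at h2
    rw [← map_mul, ← map_mul, h2]
  · intro h1
    refine ph1_of_comm h fun n => ?_
    exact (Subgroup.mem_center_iff.mp (hc h1) _).symm

theorem ker_qq (hπ : Function.Surjective π)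
    (hZ : ∀ x ∈ E, (∀ y ∈ E, x * y = y * x) → x = 1) {z : E.comap π}
    (hz : z ∈ (qq (E.comap π)).ker) : π z = 1 := by
  refine hZ _ z.2 fun y hy => ?_
  obtain ⟨y', rfl⟩ := hπ y
  have h1 : MulAut.conj z = 1 := congrArg Subtype.val (MonoidHom.mem_ker.mp hz)
  have h2 : MulAut.conj z (⟨y', hy⟩ : E.comap π) = ⟨y', hy⟩ := by
    rw [h1, MulAut.one_apply]
  rw [MulAut.conj_apply, mul_inv_eq_iff_eq_mul] at h2
  have h3 : (z : L) * y' = y' * z := congrArg Subtype.val h2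
  rw [← map_mul, h3, map_mul]

/-- The kernel of the conjugation. -/
def inc (hπ : Function.Surjective π)
    (hZ : ∀ x ∈ E, (∀ y ∈ E, x * y = y * x) → x = 1) : (qq (E.comap π)).ker →* π.ker where
  toFun z := ⟨((z : E.comap π) : L), ker_qq hπ hZ z.2⟩
  map_one' := rfl
  map_mul' := fun _ _ => rfl

theorem mu_prod [Finite Ω'] [Fintype (Om s w₀)] [Nontrivial (E.comap π)]
    (h : CD (E.comap π) w₀ e c s ac)
    (hπ : Function.Surjective π) (hc : π.ker ≤ Subgroup.center L) (hN : N.Normal)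
    (hEN : E ≤ N) (hNE : (⨆ k : K, E.map (MulAut.conj k).toMonoidHom) = N)
    (hCN : ∀ k : K, (∀ x ∈ N, k * x = x * k) → k = 1)
    (hZ : ∀ x ∈ E, (∀ y ∈ E, x * y = y * x) → x = 1) (μ : π.ker →* ℂˣ)
    (n : Om s w₀ → E.comap π) (hn : ∀ o, n o ∈ (qq (E.comap π)).ker)
    (h' : ep s w₀ e n ∈ π.ker) :
    μ ⟨ep s w₀ e n, h'⟩ = ∏ o, (μ.comp (inc hπ hZ)) ⟨n o, hn o⟩ := by
  classical
  have h1 : ∀ z : Om s w₀ → (qq (E.comap π)).ker,
      ep s w₀ e (fun o => (z o : E.comap π)) ∈ π.ker := by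
    intro z
    rw [MonoidHom.mem_ker, ← ph1_eq_one h hπ hc hN hEN hNE hCN, ph1_ep h]
    have h2 : (fun o => qq (E.comap π) ((z o : E.comap π))) = fun _ => 1 := by
      funext o
      exact (z o).2
    rw [h2]
    exact gin_one
  let F : (Om s w₀ → (qq (E.comap π)).ker) →* ℂˣ :=
    { toFun := fun z => μ ⟨ep s w₀ e (fun o => (z o : E.comap π)), h1 z⟩
      map_one' := by
        rw [← map_one μ]
        congr 1
        exact Subtype.ext (map_one (ep s w₀ e))
      map_mul' := by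
        intro z z'
        rw [← map_mul]
        congr 1
        exact Subtype.ext (map_mul (ep s w₀ e) (fun o => (z o : E.comap π))
          (fun o => (z' o : E.comap π))) }
  let G : (Om s w₀ → (qq (E.comap π)).ker) →* ℂˣ :=
    { toFun := fun z => ∏ o, (μ.comp (inc hπ hZ)) (z o)
      map_one' := by
        refine Finset.prod_eq_one fun o _ => ?_
        exact map_one _
      map_mul' := by
        intro z z'
        rw [← Finset.prod_mul_distrib]
        refine Finset.prod_congr rfl fun o _ => ?_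
        exact map_mul _ _ _ }
  have h3 : ∀ z, z ∈ F.eqLocus G := by
    intro z
    refine Subgroup.pi_mem_of_mulSingle_mem z fun w => ?_
    generalize z w = z
    change μ ⟨ep s w₀ e (fun o => ((Pi.mulSingle w z : Om s w₀ → (qq (E.comap π)).ker) o :
      E.comap π)), _⟩ = ∏ o, (μ.comp (inc hπ hZ)) ((Pi.mulSingle w z :
      Om s w₀ → (qq (E.comap π)).ker) o)
    rw [Finset.prod_eq_single w]
    · rw [Pi.mulSingle_eq_same]
      change _ = μ (inc hπ hZ z)
      congr 1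
      refine Subtype.ext ?_
      change ep s w₀ e (fun o => ((Pi.mulSingle w z : Om s w₀ → (qq (E.comap π)).ker) o :
        E.comap π)) = ((z : E.comap π) : L)
      have h4 : (fun o => ((Pi.mulSingle w z : Om s w₀ → (qq (E.comap π)).ker) o :
          E.comap π)) = Pi.mulSingle w (z : E.comap π) := by
        funext o
        by_cases ho : o = w
        · subst ho
          rw [Pi.mulSingle_eq_same, Pi.mulSingle_eq_same]
        · rw [Pi.mulSingle_eq_of_ne ho, Pi.mulSingle_eq_of_ne ho]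
          rfl
      rw [h4]
      obtain ⟨y, hy, -⟩ := single_eq h w (z : E.comap π)
      have h5 : ac y w (z : E.comap π) = z := by
        obtain ⟨u, -, hu⟩ := h.an y w
        refine Subtype.ext ?_
        rw [hu, Subgroup.mem_center_iff.mp (hc (ker_qq hπ hZ z.2)) u, mul_inv_cancel_right]
      have h6 := ep_single h hy (z : E.comap π)
      rw [h5] at h6
      rw [h6, Subgroup.mem_center_iff.mp (hc (ker_qq hπ hZ z.2)) y, mul_inv_cancel_right]
    · intro o _ ho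
      rw [Pi.mulSingle_eq_of_ne ho, map_one]
    · intro h4
      exact absurd (Finset.mem_univ w) h4
  exact h3 (fun o => (⟨n o, hn o⟩ : (qq (E.comap π)).ker))

theorem exists_w0 [Nontrivial (E.comap π)] (h : CD (E.comap π) w₀ e c s ac)
    (hna : ∃ x y : E.comap π, x * y ≠ y * x) (b : KN (E.comap π)) :
    ∃ z : L, s z w₀ = w₀ ∧ ac z w₀ = b := by
  obtain ⟨b, z, hz, hzb⟩ := b
  have h1 : s z w₀ = w₀ := by
    by_contra hne
    have hw' : s z ((s z).symm w₀) = w₀ := s_symm s z w₀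
    have hne' : (s z).symm w₀ ≠ w₀ := by
      intro h2
      rw [h2] at hw'
      exact hne hw'
    obtain ⟨x, y, hxy⟩ := hna
    have h3 := e_single0 h hw' (b⁻¹ x)
    rw [← hzb, MulAut.apply_inv_self] at h3
    have h5 := e_single_comm (e := e) hne' (ac z ((s z).symm w₀) (b⁻¹ x)) y
    rw [h3, h.e0] at h5
    exact hxy (Subtype.ext h5)
  refine ⟨z, h1, MulEquiv.ext fun x => Subtype.ext ?_⟩
  have h2 := e_single0 h h1 x
  rw [h.e0] at h2
  rw [h2, hzb]

theorem exists_o [Nontrivial (E.comap π)] (h : CD (E.comap π) w₀ e c s ac)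
    (hna : ∃ x y : E.comap π, x * y ≠ y * x) (o : Om s w₀) (b : KN (E.comap π)) :
    ∃ l : L, (ph1 h l).right o = o ∧ (ph1 h l).left o = b := by
  obtain ⟨y, hy⟩ := o.2
  have h1 : (ph1 h y).right ⟨w₀, Ow_w0 h⟩ = o := by
    rw [ph1_right, Equiv.Perm.inv_eq_iff_eq]
    exact Subtype.ext hy.symm
  have h1' : (ph1 h y).right⁻¹ o = ⟨w₀, Ow_w0 h⟩ := by
    rw [Equiv.Perm.inv_eq_iff_eq, h1]
  obtain ⟨z, hz, hzb⟩ := exists_w0 h hna (((ph1 h y).left o)⁻¹ * b * (ph1 h y).left o)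
  have h2 : (ph1 h z).right ⟨w₀, Ow_w0 h⟩ = ⟨w₀, Ow_w0 h⟩ := by
    rw [ph1_right, Equiv.Perm.inv_eq_iff_eq]
    exact Subtype.ext hz.symm
  have h2' : (ph1 h z).right⁻¹ ⟨w₀, Ow_w0 h⟩ = ⟨w₀, Ow_w0 h⟩ := by
    rw [Equiv.Perm.inv_eq_iff_eq, h2]
  have h3 : (ph1 h z).left ⟨w₀, Ow_w0 h⟩ = ((ph1 h y).left o)⁻¹ * b * (ph1 h y).left o :=
    Subtype.ext hzb
  refine ⟨y * z * y⁻¹, ?_, ?_⟩
  · rw [map_mul, map_mul, map_inv, mul_right, mul_right, inv_right]
    change (ph1 h y).right ((ph1 h z).right ((ph1 h y).right⁻¹ o)) = o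
    rw [h1', h2, h1]
  · have h4 : ((ph1 h y).right * (ph1 h z).right)⁻¹ o = ⟨w₀, Ow_w0 h⟩ := by
      rw [mul_inv_rev]
      change (ph1 h z).right⁻¹ ((ph1 h y).right⁻¹ o) = _
      rw [h1', h2']
    rw [map_mul, map_mul, map_inv, mul_left, mul_left, inv_left, mul_right, h4, h1, h1', h3]
    group

end Thm

end Pool.Agent.DPG.CNB

namespace Pool.Agent.DPG

open Pool.Agent.DPG.CNB Pool.Agent.DP Pool.Agent.DPG.WDB

/-- CNB: the wreath product data. -/
theorem CNB_thm : Stmt_CNB := by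
  intro L K _ _ _ _ π hπ hc μ hμ N hN hCN E hEN hE1 hEE hZ hEk hNE hEne
  obtain ⟨Ω', _, _, w₀, e, c, s, ac, h1, h2, h3, h4, h5, h6⟩ :=
    Pool.Agent.DPW.CPA_thm L (E.comap π) (cpa_hyp hπ hc hEE hEk)
  have h : CD (E.comap π) w₀ e c s ac := ⟨h1, h2, h3, h4, h5, h6⟩
  have hna : ∃ x y : E.comap π, x * y ≠ y * x := by
    by_contra hcon
    push Not at hcon
    refine hE1 ((Subgroup.eq_bot_iff_forall _).mpr fun x hx => hZ x hx fun y hy => ?_)
    obtain ⟨x', rfl⟩ := hπ x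
    obtain ⟨y', rfl⟩ := hπ y
    have h7 : x' * y' = y' * x' := congrArg Subtype.val (hcon ⟨x', hx⟩ ⟨y', hy⟩)
    rw [← map_mul, h7, map_mul]
  have : Nontrivial (E.comap π) := by
    obtain ⟨x, y, hxy⟩ := hna
    exact ⟨x * y, y * x, hxy⟩
  obtain ⟨φ, hφ⟩ := exists_lift hπ (ph1 h)
    (fun l hl => (ph1_eq_one h hπ hc hN hEN hNE hCN l).mpr hl)
  have : Fintype (Om s w₀) := Fintype.ofFinite _
  have tr : ∀ o o' : Om s w₀, ∃ k, (φ k).right o = o' := by
    intro o o'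
    obtain ⟨y, hy⟩ := o.2
    obtain ⟨y', hy'⟩ := o'.2
    refine ⟨π (y' * y⁻¹), ?_⟩
    rw [hφ, ph1_right, Equiv.Perm.inv_eq_iff_eq]
    refine Subtype.ext ?_
    have h7 := s_inv h y (o : Ω')
    rw [hy] at h7
    rw [sO_coe, s_mul h, hy', h7]
  have sj : ∀ (o : Om s w₀) (b : KN (E.comap π)), ∃ k, (φ k).right o = o ∧ (φ k).left o = b := by
    intro o b
    obtain ⟨l, hl, hl'⟩ := exists_o h hna o b
    exact ⟨π l, by rw [hφ, hl], by rw [hφ, hl']⟩
  have hcard : 1 < Fintype.card (Om s w₀) := by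
    obtain ⟨k, hk⟩ := hEne
    obtain ⟨y, rfl⟩ := hπ k
    rw [Fintype.one_lt_card_iff]
    refine ⟨⟨(s y).symm w₀, y, s_symm s y w₀⟩, ⟨w₀, Ow_w0 h⟩, fun hcon => hk ?_⟩
    have h7 : (s y).symm w₀ = w₀ := congrArg Subtype.val hcon
    have h8 : s y w₀ = w₀ := by
      have h9 := s_symm s y w₀
      rw [h7] at h9
      exact h9
    have h9 : ∀ x : E.comap π, ((ac y w₀ x : E.comap π) : L) = y * x * y⁻¹ := by
      intro x
      rw [← e_single0 h h8 x, h.e0]
    refine le_antisymm ?_ ?_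
    · rintro _ ⟨x, hx, rfl⟩
      obtain ⟨x', rfl⟩ := hπ x
      have h10 := (ac y w₀ ⟨x', hx⟩).2
      rw [Subgroup.mem_comap, h9, map_mul, map_mul, map_inv] at h10
      exact h10
    · intro u hu
      obtain ⟨u', rfl⟩ := hπ u
      have h10 := h9 ((ac y w₀)⁻¹ ⟨u', hu⟩)
      rw [MulAut.apply_inv_self] at h10
      refine ⟨π (((ac y w₀)⁻¹ ⟨u', hu⟩ : E.comap π) : L), ((ac y w₀)⁻¹ ⟨u', hu⟩ : E.comap π).2, ?_⟩
      change π y * π (((ac y w₀)⁻¹ ⟨u', hu⟩ : E.comap π) : L) * (π y)⁻¹ = π u'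
      rw [← map_inv, ← map_mul, ← map_mul, ← h10]
  refine ⟨Om s w₀, KN (E.comap π), E.comap π, inferInstance, inferInstance,
    Fintype.ofFinite _, inferInstance, Fintype.ofFinite _, φ, qq (E.comap π),
    (KN (E.comap π)).subtype, ep s w₀ e, μ.comp (inc hπ hZ), ?_,
    NN_eq h hπ hN hEN hNE, hcard, ?_⟩
  · refine ⟨hπ, hc, hμ, ?_, ?_, ?_, ?_, ?_, ?_, ?_, ?_, ?_, tr, sj⟩
    · rw [injective_iff_map_eq_one]
      intro k hk
      obtain ⟨l, rfl⟩ := hπ k
      rw [hφ] at hk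
      exact (ph1_eq_one h hπ hc hN hEN hNE hCN l).mp hk
    · intro z z' hz
      have h7 := congrArg Subtype.val (hμ hz)
      exact Subtype.ext (Subtype.ext h7)
    · intro x a
      rfl
    · intro k x
      refine Subtype.ext (MulEquiv.ext fun a => ?_)
      change ((k : MulAut (E.comap π)) x) * a * ((k : MulAut (E.comap π)) x)⁻¹ =
        (k : MulAut (E.comap π)) (x * ((k : MulAut (E.comap π))⁻¹ a) * x⁻¹)
      rw [map_mul, map_mul, MulAut.apply_inv_self, map_inv]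
    · intro k z hz
      obtain ⟨k, u, hu, huk⟩ := k
      refine Subtype.ext ?_
      change ((k z : E.comap π) : L) = z
      rw [huk, Subgroup.mem_center_iff.mp (hc (ker_qq hπ hZ hz)) u, mul_inv_cancel_right]
    · intro n
      rw [hφ, ph1_ep h]
    · intro l n
      rw [hφ]
      exact ep_conj h l n
    · intro z hz
      have hzE : π z ∈ E := by
        rw [MonoidHom.mem_ker.mp hz]
        exact E.one_mem
      refine ⟨Pi.mulSingle ⟨w₀, Ow_w0 h⟩ ⟨z, hzE⟩, ?_⟩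
      rw [ep_apply, ex_single, h.e0]
    · intro n hn h'
      exact mu_prod h hπ hc hN hEN hNE hCN hZ μ n hn h'
  · have h7 : Nat.card (KN (E.comap π)) ≤
        Nat.card {k : K // (φ k).right ⟨w₀, Ow_w0 h⟩ = ⟨w₀, Ow_w0 h⟩} := by
      refine Nat.card_le_card_of_surjective (fun k => (φ (k : K)).left ⟨w₀, Ow_w0 h⟩)
        fun b => ?_
      obtain ⟨k, hk, hk'⟩ := sj ⟨w₀, Ow_w0 h⟩ b
      exact ⟨⟨k, hk⟩, hk'⟩
    refine lt_of_le_of_lt h7 ?_
    obtain ⟨o, ho⟩ := Fintype.exists_ne_of_one_lt_card hcard ⟨w₀, Ow_w0 h⟩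
    obtain ⟨k, hk⟩ := tr ⟨w₀, Ow_w0 h⟩ o
    exact Finite.card_subtype_lt (x := k) (fun h8 => ho (by rw [← hk, h8]))

end Pool.Agent.DPG
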