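import Mathlib
import Pool.Agent.DPG.StmtsA

/-!
# Dade's conjecture: counting the elements of orbits
-/

namespace Pool.Agent.DPG

namespace CNO

open Finset

variable {G ι Ω : Type} [Group G] [Fintype G]

open Classical in
/-- The number of elements which map `i` to `i0`. -/
noncomputable def cn (a : G → ι → ι) (i i0 : ι) : ℕ := (univ.filter (fun g => a g i = i0)).card

lemma cn_eq {a : G → ι → ι} (a1 : ∀ i, a 1 i = i) (am : ∀ g h i, a (g * h) i = a g (a h i))
    {i i0 : ι} (h : cn a i i0 ≠ 0) : cn a i i0 = Nat.card {g // a g i = i} := by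
  classical
  obtain ⟨g0, hg0⟩ : (univ.filter (fun g => a g i = i0)).Nonempty := by
    rw [← Finset.card_ne_zero]
    intro h'
    apply h
    unfold cn
    rw [← h']
  have hg0' : a g0 i = i0 := by
    have := (Finset.mem_filter.1 hg0).2
    exact this
  have hi : a g0⁻¹ i0 = i := by
    rw [← hg0', ← am, inv_mul_cancel, a1]
  rw [Nat.card_eq_fintype_card, Fintype.card_subtype]
  unfold cn
  apply Finset.card_bij (fun g _ => g0⁻¹ * g)
  · intro g hg
    have hg' : a g i = i0 := (Finset.mem_filter.1 hg).2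
    rw [Finset.mem_filter]
    refine ⟨Finset.mem_univ _, ?_⟩
    rw [am, hg', hi]
  · intro g _ g' _ h'
    exact mul_left_cancel h'
  · intro g hg
    have hg' : a g i = i := (Finset.mem_filter.1 hg).2
    refine ⟨g0 * g, ?_, by group⟩
    rw [Finset.mem_filter]
    refine ⟨Finset.mem_univ _, ?_⟩
    rw [am, hg', hg0']

lemma sum_cn {a : G → ι → ι} (a1 : ∀ i, a 1 i = i) (am : ∀ g h i, a (g * h) i = a g (a h i))
    {D : Finset ι} (hD : ∀ g, ∀ i ∈ D, a g i ∈ D) {i0 : ι} (hi0 : i0 ∈ D) :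
    ∑ i ∈ D, cn a i i0 = Fintype.card G := by
  classical
  have h1 : ∀ i ∈ D, cn a i i0 = ∑ g : G, if a g i = i0 then 1 else 0 := by
    intro i _
    unfold cn
    rw [Finset.card_filter]
  rw [Finset.sum_congr rfl h1, Finset.sum_comm]
  have h2 : ∀ g : G, ∑ i ∈ D, (if a g i = i0 then 1 else 0) = 1 := by
    intro g
    rw [Finset.sum_eq_single (a g⁻¹ i0)]
    · rw [if_pos]
      rw [← am, mul_inv_cancel, a1]
    · intro i _ hne
      rw [if_neg]
      intro h
      apply hne
      rw [← h, ← am, inv_mul_cancel, a1]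
    · intro h
      exact absurd (hD g⁻¹ i0 hi0) h
  rw [Finset.sum_congr rfl (fun g _ => h2 g)]
  simp

lemma cn_pow {a : G → ι → ι} (a1 : ∀ i, a 1 i = i) (am : ∀ g h i, a (g * h) i = a g (a h i))
    {i i0 : ι} {s k : ℕ} (hs : s = Nat.card {g // a g i = i}) (hk : 1 ≤ k) :
    ((cn a i i0 : ℕ) : ℂ) ^ k / ((s : ℂ) ^ (k - 1)) = cn a i i0 := by
  by_cases h : cn a i i0 = 0
  · rw [h]
    simp [Nat.one_le_iff_ne_zero.1 hk]
  · have h1 := cn_eq a1 am h
    rw [← hs] at h1
    have h2 : (s : ℂ) ≠ 0 := by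
      rw [← h1]
      exact_mod_cast h
    obtain ⟨m, rfl⟩ : ∃ m, k = m + 1 := ⟨k - 1, by omega⟩
    rw [h1, Nat.add_sub_cancel, pow_succ]
    field_simp

omit [Group G] in
lemma sum_n [Fintype Ω] [DecidableEq Ω] {a : G → ι → ι} {i i0 : ι} (w : ℂ)
    (P : (Ω → G) → Prop) [DecidablePred P] (hP : ∀ n, P n ↔ ∀ o, a (n o) i = i0) :
    ∑ n : Ω → G, (if P n then w else 0) = (cn a i i0 : ℂ) ^ Fintype.card Ω * w := by
  classical
  rw [← Finset.sum_filter, Finset.sum_const, nsmul_eq_mul]
  congr 1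
  have h1 : (univ.filter P) = Fintype.piFinset (fun _ : Ω => univ.filter (fun g => a g i = i0)) := by
    ext n
    rw [Finset.mem_filter, Fintype.mem_piFinset]
    simp only [Finset.mem_univ, true_and, Finset.mem_filter]
    exact hP n
  rw [h1, Fintype.card_piFinset, Finset.prod_const, Finset.card_univ]
  unfold cn
  push_cast
  congr

end CNO

open CNO in
theorem CNO_thm : Stmt_CNO := by
  intro G ι γ Ω _ _ _ _ a b a1 am b1 bm D C Ψ hD hC hcov hb F hF s hs
  classical
  have hN1 : 1 ≤ Fintype.card Ω := Fintype.card_pos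
  have hG : (Fintype.card G : ℂ) ≠ 0 := by
    exact_mod_cast Fintype.card_ne_zero
  -- the weights
  have hW : ∀ c ∈ C, ∑ i ∈ D, ∑ n : Ω → G,
      (if b n (Ψ i) = c then (1 / ((Fintype.card G : ℂ) * (s i : ℂ) ^ (Fintype.card Ω - 1)))
        else 0) = 1 := by
    intro c hc
    obtain ⟨i0, hi0, n0, rfl⟩ := hcov c hc
    have h1 : ∀ i ∈ D, ∑ n : Ω → G,
        (if b n (Ψ i) = b n0 (Ψ i0) then
          (1 / ((Fintype.card G : ℂ) * (s i : ℂ) ^ (Fintype.card Ω - 1))) else 0) =
        (cn a i i0 : ℂ) / (Fintype.card G : ℂ) := by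
      intro i hi
      rw [← Equiv.sum_comp (Equiv.mulLeft n0)]
      rw [sum_n (a := a) (i := i) (i0 := i0)
        (1 / ((Fintype.card G : ℂ) * (s i : ℂ) ^ (Fintype.card Ω - 1)))
        (fun n => b (Equiv.mulLeft n0 n) (Ψ i) = b n0 (Ψ i0))]
      · have h2 := cn_pow (i0 := i0) a1 am (hs i hi) hN1
        rw [← h2, mul_one_div]
        rw [h2]
        rw [div_mul_eq_div_div_swap, h2]
      · intro n
        rw [← hb i hi i0 hi0 n, Equiv.coe_mulLeft, bm]
        constructor
        · intro h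
          have h3 := congrArg (b n0⁻¹) h
          rw [← bm, ← bm, ← bm, inv_mul_cancel, one_mul, b1] at h3
          exact h3
        · intro h
          rw [h]
    rw [Finset.sum_congr rfl h1, ← Finset.sum_div]
    have h4 := sum_cn a1 am hD hi0
    have h5 : (∑ i ∈ D, (cn a i i0 : ℂ)) = (Fintype.card G : ℂ) := by
      rw [← h4]
      push_cast
      rfl
    rw [h5, div_self hG]
  have hΨ : ∀ i ∈ D, Ψ i ∈ C := by
    intro i hi
    have h := hC i hi 1
    rwa [b1] at h
  calc ∑ c ∈ C, F c = ∑ c ∈ C, (∑ i ∈ D, ∑ n : Ω → G,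
      (if b n (Ψ i) = c then (1 / ((Fintype.card G : ℂ) * (s i : ℂ) ^ (Fintype.card Ω - 1)))
        else 0)) * F c := by
        apply Finset.sum_congr rfl
        intro c hc
        rw [hW c hc, one_mul]
    _ = ∑ i ∈ D, ∑ n : Ω → G, ∑ c ∈ C,
      (if b n (Ψ i) = c then (1 / ((Fintype.card G : ℂ) * (s i : ℂ) ^ (Fintype.card Ω - 1)))
        else 0) * F c := by
        simp_rw [Finset.sum_mul]
        rw [Finset.sum_comm]
        apply Finset.sum_congr rfl
        intro i _
        rw [Finset.sum_comm]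
    _ = ∑ i ∈ D, ∑ n : Ω → G,
      (1 / ((Fintype.card G : ℂ) * (s i : ℂ) ^ (Fintype.card Ω - 1))) * F (Ψ i) := by
        apply Finset.sum_congr rfl
        intro i hi
        apply Finset.sum_congr rfl
        intro n _
        rw [Finset.sum_eq_single (b n (Ψ i))]
        · rw [if_pos rfl, hF (Ψ i) (hΨ i hi) n]
        · intro c _ hne
          rw [if_neg (Ne.symm hne), zero_mul]
        · intro h
          exact absurd (hC i hi n) h
    _ = ∑ i ∈ D, ((Nat.card G : ℂ) / (s i : ℂ)) ^ (Fintype.card Ω - 1) * F (Ψ i) := by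
        apply Finset.sum_congr rfl
        intro i _
        rw [Finset.sum_const, nsmul_eq_mul, ← mul_assoc]
        congr 1
        rw [Finset.card_univ, Fintype.card_fun, Nat.card_eq_fintype_card]
        push_cast
        obtain ⟨m, hm⟩ : ∃ m, Fintype.card Ω = m + 1 := ⟨Fintype.card Ω - 1, by omega⟩
        rw [hm, Nat.add_sub_cancel, pow_succ, div_pow]
        field_simp

end Pool.Agent.DPG
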