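import Mathlib
import Pool.Agent.DPG.StmtsB
import Pool.Agent.DPG.WDB

/-!
# CST: the chains with constant coordinates
-/

namespace Pool.Agent.DPG

open Pool.Agent.DP Pool.Agent.DPC Pool.Agent.DPM Pool.Agent.DPN Pool.Agent.DPF
  Pool.Agent.DPK Pool.Agent.Lib_helper13 Representation
open Pool.Agent.Lib_helper13.Dade (pCore DadeHolds dadeSum)

namespace CST

open WDB

section

variable {L K K1 Q Ω : Type} [Group L] [Group K] [Group K1] [Group Q] [Fintype Ω]
  {π : L →* K} {μ : π.ker →* ℂˣ} {φ : K →* Gam (Equiv.Perm Ω) Ω K1} {q : Q →* K1}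
  {α : K1 →* MulAut Q} {ε : (Ω → Q) →* L} {μQ : q.ker →* ℂˣ}

theorem mem_cst {N : Subgroup K} {D : Subgroup K1} {k : K} :
    k ∈ cst φ N D ↔ k ∈ N ∧ (φ k).right = 1 ∧ ∀ o, (φ k).left o ∈ D := Iff.rfl

theorem mem_cst' (h : WD π μ φ q α ε μQ) {D : Subgroup K1} (hD : D ≤ q.range) {k : K} :
    k ∈ cst φ (NN' π ε) D ↔ (φ k).right = 1 ∧ ∀ o, (φ k).left o ∈ D := by
  rw [mem_cst, mem_NN h]
  constructor
  · rintro ⟨-, h2⟩
    exact h2
  · rintro ⟨h1, h2⟩
    exact ⟨⟨h1, fun o => hD (h2 o)⟩, h1, h2⟩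

/-- The element of `cst D` all of whose coordinates are `x`. -/
theorem exists_const (h : WD π μ φ q α ε μQ) {D : Subgroup K1} (hD : D ≤ q.range) {x : K1}
    (hx : x ∈ D) : ∃ m ∈ cst φ (NN' π ε) D, ∀ o, (φ m).left o = x := by
  obtain ⟨n, -, h1, h2⟩ := exists_NN h (fun _ => x) fun _ => hD hx
  refine ⟨π (ε n), (mem_cst' h hD).mpr ⟨h1, fun o => ?_⟩, h2⟩
  rw [h2 o]
  exact hx

theorem cst_mono {N : Subgroup K} {D D' : Subgroup K1} (hD : D ≤ D') :
    cst φ N D ≤ cst φ N D' :=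
  fun _ hk => ⟨hk.1, hk.2.1, fun o => hD (hk.2.2 o)⟩

theorem le_of_cst_le [Nonempty Ω] (h : WD π μ φ q α ε μQ) {D D' : Subgroup K1}
    (hD : D ≤ q.range) (hc : cst φ (NN' π ε) D ≤ cst φ (NN' π ε) D') : D ≤ D' := by
  intro x hx
  obtain ⟨m, hm, hmx⟩ := exists_const h hD hx
  have h1 := (hc hm).2.2 (Classical.arbitrary Ω)
  rw [hmx] at h1
  exact h1

theorem cst_inj [Nonempty Ω] (h : WD π μ φ q α ε μQ) {D D' : Subgroup K1}
    (hD : D ≤ q.range) (hD' : D' ≤ q.range)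
    (hc : cst φ (NN' π ε) D = cst φ (NN' π ε) D') : D = D' :=
  le_antisymm (le_of_cst_le h hD hc.le) (le_of_cst_le h hD' hc.ge)

theorem card_cst (h : WD π μ φ q α ε μQ) {D : Subgroup K1} (hD : D ≤ q.range) :
    Nat.card (cst φ (NN' π ε) D) = Nat.card D ^ Fintype.card Ω := by
  have h1 : Nat.card (cst φ (NN' π ε) D) = Nat.card (Ω → D) := by
    refine Nat.card_congr (Equiv.ofBijective (fun k => fun o =>
      ⟨(φ (k : K)).left o, k.2.2.2 o⟩) ⟨?_, ?_⟩)
    · intro k k' hk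
      refine Subtype.ext (eq_of_coords h ?_ fun o => ?_)
      · rw [k.2.2.1, k'.2.2.1]
      · exact congrArg Subtype.val (congrFun hk o)
    · intro s
      obtain ⟨n, -, hn', hn⟩ := exists_NN h (fun o => (s o : K1)) fun o => hD (s o).2
      refine ⟨⟨π (ε n), (mem_cst' h hD).mpr ⟨hn', fun o => ?_⟩⟩, ?_⟩
      · rw [hn]
        exact (s o).2
      · funext o
        exact Subtype.ext (hn o)
  rw [h1, Nat.card_fun, Nat.card_eq_fintype_card (α := Ω)]

theorem isPGroup_cst [Finite K1] {ℓ : ℕ} [Fact ℓ.Prime] (h : WD π μ φ q α ε μQ)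
    {D : Subgroup K1} (hD : D ≤ q.range) (hp : IsPGroup ℓ D) :
    IsPGroup ℓ (cst φ (NN' π ε) D) := by
  obtain ⟨n, hn⟩ := IsPGroup.iff_card.mp hp
  refine IsPGroup.of_card (n := n * Fintype.card Ω) ?_
  rw [card_cst h hD, hn, pow_mul]

/-- The members of a chain are determined by their orders. -/
theorem chain_eq [Finite K1] {σ : Finset (Subgroup K1)}
    (hσ : IsChain (· ≤ ·) (σ : Set (Subgroup K1))) {D D' : Subgroup K1} (hD : D ∈ σ)
    (hD' : D' ∈ σ) (hc : Nat.card D = Nat.card D') : D = D' := by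
  rcases hσ.total (Finset.mem_coe.mpr hD) (Finset.mem_coe.mpr hD') with h1 | h1
  · exact Subgroup.eq_of_le_of_card_ge h1 hc.ge
  · exact (Subgroup.eq_of_le_of_card_ge h1 hc.le).symm

theorem mem_cstC {N : Subgroup K} {σ : Finset (Subgroup K1)} {E : Subgroup K} :
    E ∈ cstC φ N σ ↔ ∃ D ∈ σ, cst φ N D = E := by
  classical
  unfold cstC
  rw [Finset.mem_image]

theorem mem_cjC {G : Type} [Group G] {g : G} {σ : Finset (Subgroup G)} {E : Subgroup G} :
    E ∈ cjC g σ ↔ ∃ D ∈ σ, D.map (MulAut.conj g).toMonoidHom = E := by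
  classical
  unfold cjC
  rw [Finset.mem_image]

theorem mem_conj {G : Type} [Group G] {g x : G} {D : Subgroup G} :
    x ∈ D.map (MulAut.conj g).toMonoidHom ↔ ∃ y ∈ D, g * y * g⁻¹ = x := Iff.rfl

theorem conj_mem_aux (h : WD π μ φ q α ε μQ) {D : Subgroup K1} (hD : D ≤ q.range) {k : K}
    (hk : ∀ m, m ∈ cst φ (NN' π ε) D → k * m * k⁻¹ ∈ cst φ (NN' π ε) D) (o : Ω) {x : K1}
    (hx : x ∈ D) : (φ k).left o * x * ((φ k).left o)⁻¹ ∈ D := by
  obtain ⟨m, hm, hmx⟩ := exists_const h hD hx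
  have h1 := (hk m hm).2.2 o
  rw [map_mul, map_mul, map_inv, conj_left _ _ hm.2.1, hmx] at h1
  exact h1

theorem inv_coord (k : K) (o : Ω) :
    (φ k⁻¹).left ((φ k).right⁻¹ o) = ((φ k).left o)⁻¹ := by
  rw [map_inv, inv_left]
  have h1 : (φ k).right ((φ k).right⁻¹ o) = o := (φ k).right.apply_symm_apply o
  rw [h1]

theorem mem_stb_cst (h : WD π μ φ q α ε μQ) {σ : Finset (Subgroup K1)}
    (hσ : ∀ D ∈ σ, D ≤ q.range) (k : K) :
    k ∈ stb (cstC φ (NN' π ε) σ) ↔ ∀ o, (φ k).left o ∈ stb σ := by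
  constructor
  · intro hk o
    rw [mem_stb']
    intro D hD x
    have h1 := mem_stb'.mp hk _ (mem_cstC.mpr ⟨D, hD, rfl⟩)
    have h2 := mem_stb'.mp (Subgroup.inv_mem _ hk) _ (mem_cstC.mpr ⟨D, hD, rfl⟩)
    constructor
    · intro hx
      exact conj_mem_aux h (hσ D hD) (fun m hm => (h1 m).mp hm) o hx
    · intro hx
      have h3 := conj_mem_aux h (hσ D hD) (fun m hm => (h2 m).mp hm) ((φ k).right⁻¹ o) hx
      rw [inv_coord, inv_inv] at h3
      have h4 : ((φ k).left o)⁻¹ * ((φ k).left o * x * ((φ k).left o)⁻¹) * (φ k).left o = x := by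
        group
      rw [h4] at h3
      exact h3
  · intro hk
    have h0 : ∀ k' : K, (∀ o, (φ k').left o ∈ stb σ) → ∀ D ∈ σ, ∀ m ∈ cst φ (NN' π ε) D,
        k' * m * k'⁻¹ ∈ cst φ (NN' π ε) D := by
      intro k' hk' D hD m hm
      rw [mem_cst' h (hσ D hD), map_mul, map_mul, map_inv]
      refine ⟨conj_right _ _ hm.2.1, fun o => ?_⟩
      rw [conj_left _ _ hm.2.1]
      exact (mem_stb'.mp (hk' o) D hD _).mp (hm.2.2 _)
    have hk2 : ∀ o, (φ k⁻¹).left o ∈ stb σ := by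
      intro o
      rw [map_inv, inv_left]
      exact Subgroup.inv_mem _ (hk _)
    rw [mem_stb']
    intro E hE m
    obtain ⟨D, hD, rfl⟩ := mem_cstC.mp hE
    constructor
    · intro hm
      exact h0 k hk D hD m hm
    · intro hm
      have h1 := h0 k⁻¹ hk2 D hD _ hm
      have h2 : k⁻¹ * (k * m * k⁻¹) * k⁻¹⁻¹ = m := by group
      rw [h2] at h1
      exact h1

theorem inf_stb (h : WD π μ φ q α ε μQ) {σ : Finset (Subgroup K1)}
    (hσ : ∀ D ∈ σ, D ≤ q.range) :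
    NN' π ε ⊓ stb (cstC φ (NN' π ε) σ) = cst φ (NN' π ε) (q.range ⊓ stb σ) := by
  ext k
  rw [Subgroup.mem_inf, mem_stb_cst h hσ, mem_cst]
  constructor
  · rintro ⟨h1, h2⟩
    have h3 := (mem_NN h).mp h1
    exact ⟨h1, h3.1, fun o => ⟨h3.2 o, h2 o⟩⟩
  · rintro ⟨h1, -, h2⟩
    exact ⟨h1, fun o => (h2 o).2⟩

theorem sup_stb (h : WD π μ φ q α ε μQ) {σ : Finset (Subgroup K1)}
    (hσ : ∀ D ∈ σ, D ≤ q.range) (hs : q.range ⊔ stb σ = ⊤) :
    NN' π ε ⊔ stb (cstC φ (NN' π ε) σ) = ⊤ := by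
  have hn : q.range.Normal := normal_range h
  rw [eq_top_iff]
  intro k _
  have h1 : ∀ o, ∃ s ∈ q.range, ∃ t ∈ stb σ, s * t = (φ k).left o := by
    intro o
    rw [← Subgroup.mem_sup_of_normal_left, hs]
    trivial
  choose s hs1 t ht1 hst using h1
  obtain ⟨n, -, h2, h3⟩ := exists_NN h s hs1
  have h4 : (π (ε n))⁻¹ * k ∈ stb (cstC φ (NN' π ε) σ) := by
    rw [mem_stb_cst h hσ]
    intro o
    have h5 : (φ ((π (ε n))⁻¹ * k)).left o = t o := by
      rw [map_mul, map_inv, mul_left, inv_left, inv_right, h2, Equiv.Perm.one_apply, h3,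
        inv_one, inv_one, Equiv.Perm.one_apply, ← hst o, inv_mul_cancel_left]
    rw [h5]
    exact ht1 o
  have h5 : k = π (ε n) * ((π (ε n))⁻¹ * k) := by group
  rw [h5]
  exact Subgroup.mul_mem_sup (πε_mem h n) h4

theorem conj_cst [Nonempty Ω] (h : WD π μ φ q α ε μQ) {D D' : Subgroup K1}
    (hD : D ≤ q.range) (hD' : D' ≤ q.range) (n : Ω → Q) :
    (cst φ (NN' π ε) D).map (MulAut.conj (π (ε n))).toMonoidHom = cst φ (NN' π ε) D' ↔
      ∀ o, D.map (MulAut.conj (q (n o))).toMonoidHom = D' := by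
  have hc : ∀ m, (φ m).right = 1 → ∀ o, (φ (π (ε n) * m * (π (ε n))⁻¹)).left o =
      q (n o) * (φ m).left o * (q (n o))⁻¹ := by
    intro m hm o
    rw [map_mul, map_mul, map_inv, conj_left _ _ hm, φε_left h, φε_right h, inv_one,
      Equiv.Perm.one_apply]
  constructor
  · intro he o
    apply le_antisymm
    · rintro _ ⟨x, hx, rfl⟩
      obtain ⟨m, hm, hmx⟩ := exists_const h hD hx
      have h1 : π (ε n) * m * (π (ε n))⁻¹ ∈ cst φ (NN' π ε) D' := by
        rw [← he]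
        exact ⟨m, hm, rfl⟩
      have h2 := h1.2.2 o
      rw [hc m hm.2.1, hmx] at h2
      exact h2
    · intro y hy
      obtain ⟨m', hm', hmy⟩ := exists_const h hD' hy
      rw [← he] at hm'
      obtain ⟨m, hm, hmm⟩ := mem_conj.mp hm'
      rw [mem_conj]
      refine ⟨(φ m).left o, hm.2.2 o, ?_⟩
      rw [← hc m hm.2.1, hmm, hmy]
  · intro he
    apply le_antisymm
    · rintro _ ⟨m, hm, rfl⟩
      change π (ε n) * m * (π (ε n))⁻¹ ∈ cst φ (NN' π ε) D'
      rw [mem_cst' h hD']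
      refine ⟨?_, fun o => ?_⟩
      · rw [map_mul, map_mul, map_inv]
        exact conj_right _ _ hm.2.1
      · rw [hc m hm.2.1, ← he o]
        exact ⟨_, hm.2.2 o, rfl⟩
    · intro k hk
      rw [mem_conj]
      refine ⟨(π (ε n))⁻¹ * k * π (ε n), ?_, by group⟩
      have hr : (φ ((π (ε n))⁻¹ * k * π (ε n))).right = 1 := by
        rw [map_mul, map_mul, map_inv, mul_right, mul_right, inv_right, φε_right h, hk.2.1,
          inv_one, one_mul, one_mul]
      rw [mem_cst' h hD]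
      refine ⟨hr, fun o => ?_⟩
      have h1 := hc _ hr o
      have h2 : π (ε n) * ((π (ε n))⁻¹ * k * π (ε n)) * (π (ε n))⁻¹ = k := by group
      rw [h2] at h1
      have h3 : (φ k).left o ∈ D.map (MulAut.conj (q (n o))).toMonoidHom := by
        rw [he o]
        exact hk.2.2 o
      obtain ⟨x, hx, hxe⟩ := mem_conj.mp h3
      rw [h1] at hxe
      have h4 : x = (φ ((π (ε n))⁻¹ * k * π (ε n))).left o :=
        mul_left_cancel (mul_right_cancel hxe)
      rw [← h4]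
      exact hx

theorem cjC_iff [Nonempty Ω] [Finite K1] (h : WD π μ φ q α ε μQ) {σ σ' : Finset (Subgroup K1)}
    (hσ : ∀ D ∈ σ, D ≤ q.range) (hσ' : ∀ D ∈ σ', D ≤ q.range)
    (hch : IsChain (· ≤ ·) (σ' : Set (Subgroup K1))) (n : Ω → Q) :
    cjC (π (ε n)) (cstC φ (NN' π ε) σ) = cstC φ (NN' π ε) σ' ↔
      ∀ o, cjC (q (n o)) σ = σ' := by
  constructor
  · intro he o
    ext E
    rw [mem_cjC]
    constructor
    · rintro ⟨D, hD, rfl⟩
      have h1 : (cst φ (NN' π ε) D).map (MulAut.conj (π (ε n))).toMonoidHom ∈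
          cstC φ (NN' π ε) σ' := by
        rw [← he, mem_cjC]
        exact ⟨_, mem_cstC.mpr ⟨D, hD, rfl⟩, rfl⟩
      obtain ⟨D', hD', h2⟩ := mem_cstC.mp h1
      rw [(conj_cst h (hσ D hD) (hσ' D' hD') n).mp h2.symm o]
      exact hD'
    · intro hE
      have h1 : cst φ (NN' π ε) E ∈ cjC (π (ε n)) (cstC φ (NN' π ε) σ) := by
        rw [he, mem_cstC]
        exact ⟨E, hE, rfl⟩
      obtain ⟨E', hE', h2⟩ := mem_cjC.mp h1
      obtain ⟨D, hD, rfl⟩ := mem_cstC.mp hE'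
      exact ⟨D, hD, (conj_cst h (hσ D hD) (hσ' E hE) n).mp h2 o⟩
  · intro he
    have hmem : ∀ D ∈ σ, ∀ o, D.map (MulAut.conj (q (n o))).toMonoidHom ∈ σ' := by
      intro D hD o
      rw [← he o, mem_cjC]
      exact ⟨D, hD, rfl⟩
    have hkey : ∀ D ∈ σ, ∀ o o', D.map (MulAut.conj (q (n o))).toMonoidHom =
        D.map (MulAut.conj (q (n o'))).toMonoidHom := by
      intro D hD o o'
      refine chain_eq hch (hmem D hD o) (hmem D hD o') ?_
      have h1 : ∀ g : K1, Nat.card (D.map (MulAut.conj g).toMonoidHom) = Nat.card D := fun g =>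
        (Nat.card_congr (D.equivMapOfInjective (MulAut.conj g).toMonoidHom
          (MulAut.conj g).injective).toEquiv).symm
      rw [h1, h1]
    ext E
    rw [mem_cjC, mem_cstC]
    constructor
    · rintro ⟨E', hE', rfl⟩
      obtain ⟨D, hD, rfl⟩ := mem_cstC.mp hE'
      have h1 := hmem D hD (Classical.arbitrary Ω)
      refine ⟨_, h1, ?_⟩
      refine ((conj_cst h (hσ D hD) (hσ' _ h1) n).mpr fun o => ?_).symm
      exact hkey D hD o (Classical.arbitrary Ω)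
    · rintro ⟨D', hD', rfl⟩
      have h1 := hD'
      rw [← he (Classical.arbitrary Ω), mem_cjC] at h1
      obtain ⟨D, hD, h2⟩ := h1
      refine ⟨_, mem_cstC.mpr ⟨D, hD, rfl⟩, ?_⟩
      refine (conj_cst h (hσ D hD) (hσ' D' hD') n).mpr fun o => ?_
      rw [← h2]
      exact hkey D hD o (Classical.arbitrary Ω)

end

end CST

theorem CST_thm : Stmt_CST := by
  classical
  intro L K K1 Q Ω _ _ _ _ _ _ _ _ _ _ ℓ _ π μ φ q α ε μQ h
  refine ⟨WDB.normal_NN h, WDB.normal_range h, fun σ hσ => ?_⟩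
  have hle : ∀ D ∈ σ, D ≤ q.range := hσ.2
  refine ⟨⟨⟨?_, ?_⟩, ?_⟩, ?_, ?_, fun k => CST.mem_stb_cst h hle k, ?_, CST.sup_stb h hle, ?_⟩
  · intro E hE
    obtain ⟨D, hD, rfl⟩ := CST.mem_cstC.mp hE
    refine ⟨CST.isPGroup_cst h (hle D hD) (hσ.1.1 D hD).1, ?_⟩
    rw [bot_lt_iff_ne_bot]
    intro h1
    have h2 : D ≤ ⊥ := CST.le_of_cst_le h (hle D hD) (by rw [h1]; exact bot_le)
    exact (hσ.1.1 D hD).2.ne (le_bot_iff.mp h2).symm
  · intro E hE E' hE' _
    obtain ⟨D, hD, rfl⟩ := CST.mem_cstC.mp (Finset.mem_coe.mp hE)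
    obtain ⟨D', hD', rfl⟩ := CST.mem_cstC.mp (Finset.mem_coe.mp hE')
    rcases hσ.1.total hD hD' with h1 | h1
    · exact Or.inl (CST.cst_mono h1)
    · exact Or.inr (CST.cst_mono h1)
  · intro E hE
    obtain ⟨D, hD, rfl⟩ := CST.mem_cstC.mp hE
    exact fun k hk => hk.1
  · intro E hE k hk
    obtain ⟨D, hD, rfl⟩ := CST.mem_cstC.mp hE
    obtain ⟨hkN, hk2⟩ := hk
    refine ⟨hkN, ((WDB.mem_NN h).mp hkN).1, fun o => ?_⟩
    obtain ⟨d, hd, hdo⟩ := hk2 o
    rw [← hdo]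
    exact hd.2.2 o
  · unfold cstC
    rw [Finset.card_image_of_injOn]
    intro D hD D' hD' he
    exact CST.cst_inj h (hle D hD) (hle D' hD') he
  · rw [CST.inf_stb h hle]
    exact CST.card_cst h inf_le_left
  · intro σ' hσ' n
    exact CST.cjC_iff h hle hσ'.2 hσ'.1.2 n

end Pool.Agent.DPG
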