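import Mathlib
import Pool.Agent.DPG.StmtsB
import Pool.Agent.DPF.DGI

/-!
# Module DFT: the orders of the stabilizers and the defects of the product characters
-/

set_option autoImplicit false
set_option linter.unusedSectionVars false

namespace Pool.Agent.DPG.DFT

open Pool.Agent.DP Pool.Agent.DPC Pool.Agent.DPM Pool.Agent.DPN Pool.Agent.DPF
  Pool.Agent.Lib_helper13 Representation

section Grp

/-- The order of an inverse image. -/
theorem card_comap {L K : Type} [Group L] [Finite L] [Group K] [Finite K] (π : L →* K)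
    (hs : Function.Surjective π) (V : Subgroup K) :
    Nat.card ↥(V.comap π) = Nat.card π.ker * Nat.card V := by
  have h1 : (V.comap π).index = V.index := V.index_comap_of_surjective hs
  have h2 : (V.comap π).index * Nat.card ↥(V.comap π) = Nat.card L :=
    (V.comap π).index_mul_card
  have h3 : V.index * Nat.card V = Nat.card K := V.index_mul_card
  have h4 : π.ker.index * Nat.card π.ker = Nat.card L := π.ker.index_mul_card
  have h5 : π.ker.index = Nat.card K := by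
    rw [Subgroup.index_ker, MonoidHom.range_eq_top.mpr hs]
    exact Nat.card_congr Subgroup.topEquiv.toEquiv
  have h6 : 0 < V.index := Nat.pos_of_ne_zero Subgroup.index_ne_zero_of_finite
  have h7 : V.index * Nat.card ↥(V.comap π) = V.index * (Nat.card π.ker * Nat.card V) := by
    rw [h1] at h2
    rw [h2, ← h4, h5, ← h3]
    ring
  exact Nat.eq_of_mul_eq_mul_left h6 h7

theorem isIrr_lin {K : Type} [Group K] [Fintype K] (lam : K →* ℂˣ) :
    IsIrr (fun k => ((lam k : ℂˣ) : ℂ)) := by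
  apply (isChr_lin lam).isIrr
  have h : ∀ g : K, ((lam g : ℂˣ) : ℂ) * ((lam g⁻¹ : ℂˣ) : ℂ) = 1 := by
    intro g
    rw [← Units.val_mul, ← map_mul, mul_inv_cancel, map_one, Units.val_one]
  simp [h]

variable {G : Type} [Group G] [Finite G]

theorem relIndex_mul {N M : Subgroup G} (hNM : N ≤ M) :
    N.relIndex M * Nat.card N = Nat.card M := by
  have h := (N.subgroupOf M).index_mul_card
  rw [Nat.card_congr (Subgroup.subgroupOfEquivOfLe hNM).toEquiv] at h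
  exact h

/-- `|M ⊓ T| |N| = |M| |N ⊓ T|` if `N` is normal, `N ≤ M ≤ N ⊔ T`. -/
theorem card_mul {N M T : Subgroup G} (hN : N.Normal) (hNM : N ≤ M) (hMT : M ≤ N ⊔ T) :
    Nat.card ↥(M ⊓ T) * Nat.card N = Nat.card M * Nat.card ↥(N ⊓ T) ∧
      N.relIndex M * Nat.card ↥(N ⊓ T) = Nat.card ↥(M ⊓ T) := by
  have h1 : (M ⊓ T) ⊔ N = M := by
    apply le_antisymm
    · exact sup_le inf_le_left hNM
    · intro m hm
      have h := hMT hm
      rw [← SetLike.mem_coe, Subgroup.normal_mul] at h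
      obtain ⟨n, hn, t, ht, rfl⟩ := Set.mem_mul.mp h
      have ht' : t ∈ M := by
        have := M.mul_mem (M.inv_mem (hNM hn)) hm
        rwa [inv_mul_cancel_left] at this
      exact Subgroup.mul_mem _ (Subgroup.mem_sup_right hn) (Subgroup.mem_sup_left ⟨ht', ht⟩)
  have h2 : N.relIndex M = N.relIndex (M ⊓ T) := by
    conv_lhs => rw [← h1]
    exact Subgroup.relIndex_sup_right (M ⊓ T) N
  have h3 : N ⊓ (M ⊓ T) = N ⊓ T := by
    rw [← inf_assoc, inf_eq_left.mpr hNM]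
  have h4 : N.relIndex (M ⊓ T) * Nat.card ↥(N ⊓ T) = Nat.card ↥(M ⊓ T) := by
    rw [← Subgroup.inf_relIndex_right N (M ⊓ T), h3]
    exact relIndex_mul (inf_le_inf_right T hNM)
  have h5 := relIndex_mul hNM
  constructor
  · rw [← h4, ← h5, h2]
    ring
  · rw [h2, h4]

theorem val_mul {ℓ : ℕ} [Fact ℓ.Prime] {a b : ℕ} (ha : ¬ ℓ ∣ a) (ha0 : a ≠ 0) (hb : b ≠ 0) :
    padicValNat ℓ (a * b) = padicValNat ℓ b := by
  rw [padicValNat.mul ha0 hb, padicValNat.eq_zero_of_not_dvd ha, zero_add]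

end Grp

section Deg

variable {G : Type} [Group G] [Finite G]

/-- The degree of an irreducible character on which a normal subgroup of index prime to `ℓ` acts by
scalars is prime to `ℓ`. -/
theorem deg_val {ℓ : ℕ} [Fact ℓ.Prime] (C : Subgroup G) [C.Normal] (hC : ¬ ℓ ∣ C.index)
    {χ : G → ℂ} (hχ : IsIrr χ) (hs : ∀ c ∈ C, ∃ a : ℂ, ∀ x, χ (c * x) = a * χ x) :
    ∃ n : ℕ, 0 < n ∧ χ 1 = n ∧ padicValNat ℓ n = 0 := by
  classical
  haveI : Fintype G := Fintype.ofFinite G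
  obtain ⟨n, hn, hn'⟩ := hχ.exists_degree
  refine ⟨n, hn, hn', ?_⟩
  have h1 : χ 1 ≠ 0 := hχ.one_ne_zero
  choose! a ha using hs
  have hval : ∀ c ∈ C, χ c = a c * χ 1 := by
    intro c hc
    have := ha c hc 1
    rwa [mul_one] at this
  have hmul : ∀ c ∈ C, ∀ c' ∈ C, a (c * c') = a c * a c' := by
    intro c hc c' hc'
    have e1 := hval (c * c') (C.mul_mem hc hc')
    rw [ha c hc c', hval c' hc', ← mul_assoc] at e1
    exact (mul_right_cancel₀ h1 e1).symm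
  have hone : a 1 = 1 := by
    have e1 := hval 1 C.one_mem
    have e2 : (1 : ℂ) * χ 1 = a 1 * χ 1 := by rw [one_mul]; exact e1
    exact (mul_right_cancel₀ h1 e2).symm
  let lam : C →* ℂˣ :=
    { toFun := fun c => ⟨a c, a (c : G)⁻¹, by
          rw [← hmul _ c.2 _ (C.inv_mem c.2), mul_inv_cancel, hone], by
          rw [← hmul _ (C.inv_mem c.2) _ c.2, inv_mul_cancel, hone]⟩
      map_one' := by
        apply Units.ext
        exact hone
      map_mul' := by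
        intro c c'
        apply Units.ext
        exact hmul _ c.2 _ c'.2 }
  have hlam : ∀ c : C, ((lam c : ℂˣ) : ℂ) = a c := fun c => rfl
  have hκ : IsIrr (fun c : C => ((lam c : ℂˣ) : ℂ)) := isIrr_lin lam
  have hip : ip (resj C.subtype χ) (fun c : C => ((lam c : ℂˣ) : ℂ)) ≠ 0 := by
    have e1 : ip (resj C.subtype χ) (fun c : C => ((lam c : ℂˣ) : ℂ)) =
        χ 1 * ip (fun c : C => ((lam c : ℂˣ) : ℂ)) (fun c : C => ((lam c : ℂˣ) : ℂ)) := by
      rw [ip, ip, ← mul_div_assoc, Finset.mul_sum]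
      congr 1
      refine Finset.sum_congr rfl fun c _ => ?_
      have e2 : resj C.subtype χ c = ((lam c : ℂˣ) : ℂ) * χ 1 := hval c c.2
      rw [e2]
      ring
    rw [e1, ip_self hκ, mul_one]
    exact h1
  have hd : HasDefect ℓ (fun c : C => ((lam c : ℂˣ) : ℂ)) (padicValNat ℓ (Nat.card C)) := by
    refine ⟨1, ?_, ?_⟩
    · change ((lam 1 : ℂˣ) : ℂ) = _
      rw [map_one]
      simp
    · rw [padicValNat.one, add_zero]
  obtain ⟨m, hm, hm'⟩ := (DGI_thm G ℓ C hC χ _ hχ hκ hip _).mpr hd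
  have hnm : n = m := by
    rw [hn'] at hm
    exact_mod_cast hm
  have hcard : padicValNat ℓ (Nat.card G) = padicValNat ℓ (Nat.card C) := by
    rw [← Subgroup.index_mul_card C]
    exact val_mul hC Subgroup.index_ne_zero_of_finite Nat.card_pos.ne'
  rw [hcard] at hm'
  rw [hnm]
  omega

end Deg

section Fib

variable {L K K1 Q L1 Ω : Type} [Group L] [Group K] [Group K1] [Group Q] [Group L1]
  [Fintype Ω] {π : L →* K} {μ : π.ker →* ℂˣ} {φ : K →* Gam (Equiv.Perm Ω) Ω K1} {q : Q →* K1}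
  {α : K1 →* MulAut Q} {ε : (Ω → Q) →* L} {μQ : q.ker →* ℂˣ} {π1 : L1 →* K1}
  {μ1 : π1.ker →* ℂˣ} {ι : Q →* L1}

theorem mem_MY {M : Subgroup K} {x : L × Gam (Equiv.Perm Ω) Ω L1} :
    x ∈ MY π φ π1 M ↔ φ (π x.1) = gmap Ω π1 x.2 ∧ π x.1 ∈ M := Iff.rfl

theorem gmap_gin (f : L1 →* K1) (n : Ω → L1) : gmap Ω f (gin n) = gin (fun o => f (n o)) := by
  apply SemidirectProduct.ext
  · rfl
  · rfl

theorem dY_mem (hwd : WD π μ φ q α ε μQ) (hld : LD q α μQ π1 μ1 ι) {M : Subgroup K}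
    (hM : NN' π ε ≤ M) (n : Ω → Q) : dY ε ι n ∈ MY π φ π1 M := by
  refine ⟨?_, hM ⟨ε n, ⟨n, rfl⟩, rfl⟩⟩
  change φ (π (ε n)) = gmap Ω π1 (gin (fun o => ι (n o)))
  rw [hwd.φε, gmap_gin]
  congr 1
  ext o
  exact (hld.πι _).symm

theorem gz_mem {M : Subgroup K} (z : Ω → π1.ker) :
    ((1, gin (fun o => (z o : L1))) : L × Gam (Equiv.Perm Ω) Ω L1) ∈ MY π φ π1 M := by
  refine ⟨?_, ?_⟩
  · change φ (π 1) = gmap Ω π1 (gin (fun o => (z o : L1)))
    rw [map_one, map_one, gmap_gin]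
    have : (fun o => π1 (z o : L1)) = fun _ => 1 := by
      ext o
      exact (z o).2
    rw [this]
    rfl
  · change π 1 ∈ M
    rw [map_one]
    exact M.one_mem

theorem gin_mul (a b : Ω → L1) : (gin (fun o => a o * b o) : Gam (Equiv.Perm Ω) Ω L1) =
    gin a * gin b := by
  apply SemidirectProduct.ext
  · ext o
    change a o * b o = a o * b ((1 : Equiv.Perm Ω)⁻¹ • o)
    rw [inv_one, one_smul]
  · change (1 : Equiv.Perm Ω) = 1 * 1
    rw [mul_one]

theorem decomp (hwd : WD π μ φ q α ε μQ) (hld : LD q α μQ π1 μ1 ι) {M : Subgroup K}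
    {x : L × Gam (Equiv.Perm Ω) Ω L1} (hx : x ∈ MY π φ π1 M) (hN : π x.1 ∈ NN' π ε) :
    ∃ (n : Ω → Q) (z : Ω → π1.ker), x = dY ε ι n * (1, gin (fun o => (z o : L1))) := by
  obtain ⟨y, ⟨n0, rfl⟩, hy⟩ := hN
  have h1 : (ε n0)⁻¹ * x.1 ∈ ε.range := by
    apply hwd.kr
    rw [MonoidHom.mem_ker, map_mul, map_inv, ← hy, inv_mul_cancel]
  obtain ⟨n1, hn1⟩ := h1
  have h2 : ε (n0 * n1) = x.1 := by
    rw [map_mul, hn1, mul_inv_cancel_left]
  have h3 : gmap Ω π1 x.2 = gin (fun o => q ((n0 * n1) o)) := by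
    rw [← hx.1, ← hwd.φε, h2]
    rfl
  have hr : x.2.right = 1 := congrArg SemidirectProduct.right h3
  have hl : ∀ o, π1 (x.2.left o) = q ((n0 * n1) o) := by
    intro o
    exact congrFun (congrArg SemidirectProduct.left h3) o
  have hz : ∀ o, (ι ((n0 * n1) o))⁻¹ * x.2.left o ∈ π1.ker := by
    intro o
    rw [MonoidHom.mem_ker, map_mul, map_inv, hl, hld.πι, inv_mul_cancel]
  refine ⟨n0 * n1, fun o => ⟨_, hz o⟩, ?_⟩
  apply Prod.ext
  · change x.1 = ε (n0 * n1) * 1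
    rw [mul_one, h2]
  · change x.2 = gin (fun o => ι ((n0 * n1) o)) *
      gin (fun o => (ι ((n0 * n1) o))⁻¹ * x.2.left o)
    rw [← gin_mul]
    apply SemidirectProduct.ext
    · ext o
      change x.2.left o = ι ((n0 * n1) o) * ((ι ((n0 * n1) o))⁻¹ * x.2.left o)
      rw [mul_inv_cancel_left]
    · exact hr

theorem MY_surj (hwd : WD π μ φ q α ε μQ) (hld : LD q α μQ π1 μ1 ι) {M : Subgroup K} {m : K}
    (hm : m ∈ M) : ∃ x ∈ MY π φ π1 M, π x.1 = m := by
  obtain ⟨l, rfl⟩ := hwd.πs m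
  choose f hf using hld.s
  refine ⟨(l, ⟨fun o => f ((φ (π l)).left o), (φ (π l)).right⟩), ⟨?_, hm⟩, rfl⟩
  change φ (π l) = gmap Ω π1 _
  apply SemidirectProduct.ext
  · ext o
    exact (hf _).symm
  · rfl

/-- The degree of `ζ` is prime to `ℓ`. -/
theorem zeta_deg {ℓ : ℕ} [Fact ℓ.Prime] [Finite L] [Finite L1]
    (hwd : WD π μ φ q α ε μQ)
    (hld : LD q α μQ π1 μ1 ι) {M : Subgroup K} {M1 : Subgroup K1} (hmm : MM ℓ π φ q ε M M1)
    (hNn : (NN' π ε).Normal) {ζ : L × Gam (Equiv.Perm Ω) Ω L1 → ℂ}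
    (hζ : ZT π φ π1 μ1 ε ι M ζ) :
    ∃ n : ℕ, 0 < n ∧ ζ 1 = n ∧ padicValNat ℓ n = 0 := by
  classical
  haveI : Finite (Gam (Equiv.Perm Ω) Ω L1) :=
    Finite.of_equiv _ (SemidirectProduct.equivProd (φ := pAct (Equiv.Perm Ω) Ω L1)).symm
  let f : ↥(MY π φ π1 M) →* M :=
    ((π.comp (MonoidHom.fst L (Gam (Equiv.Perm Ω) Ω L1))).comp
      (MY π φ π1 M).subtype).codRestrict M (fun x => x.2.2)
  have hf : ∀ x, ((f x : M) : K) = π x.1.1 := fun x => rfl
  have hfs : Function.Surjective f := by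
    rintro ⟨m, hm⟩
    obtain ⟨x, hx, hx'⟩ := MY_surj hwd hld hm
    exact ⟨⟨x, hx⟩, Subtype.ext hx'⟩
  let C : Subgroup ↥(MY π φ π1 M) := ((NN' π ε).subgroupOf M).comap f
  haveI : (NN' π ε).Normal := hNn
  haveI : C.Normal := inferInstance
  have hC : ¬ ℓ ∣ C.index := by
    have : C.index = (NN' π ε).relIndex M :=
      Subgroup.index_comap_of_surjective _ hfs
    rw [this]
    exact hmm.cop
  have hirr : IsIrr (fun s : ↥(MY π φ π1 M) => ζ s) := hζ.irr.1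
  obtain ⟨n, hn, hn', hn''⟩ := deg_val C hC hirr (by
    intro c hc
    have hcN : π (c : L × Gam (Equiv.Perm Ω) Ω L1).1 ∈ NN' π ε := hc
    obtain ⟨n, z, hnz⟩ := decomp hwd hld c.2 hcN
    refine ⟨(∏ o, ((μ1 (z o) : ℂˣ) : ℂ))⁻¹, ?_⟩
    intro x
    have hp : (∏ o, ((μ1 (z o) : ℂˣ) : ℂ)) ≠ 0 :=
      Finset.prod_ne_zero_iff.mpr fun o _ => Units.ne_zero _
    have h1 : ζ ((c : L × Gam (Equiv.Perm Ω) Ω L1) * x) =
        ζ ((1, gin (fun o => (z o : L1))) * (x : L × Gam (Equiv.Perm Ω) Ω L1)) := by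
      have h2 := hirr.conj_eq ⟨dY ε ι n, dY_mem hwd hld hmm.le n⟩
        ((⟨(1, gin (fun o => (z o : L1))), gz_mem z⟩ : ↥(MY π φ π1 M)) * x *
          ⟨dY ε ι n, dY_mem hwd hld hmm.le n⟩)
      have h3 := hζ.d n ((1, gin (fun o => (z o : L1))) * (x : L × Gam (Equiv.Perm Ω) Ω L1))
      rw [← h3]
      change ζ (dY ε ι n * ((1, gin (fun o => (z o : L1))) *
        (x : L × Gam (Equiv.Perm Ω) Ω L1) * dY ε ι n) * (dY ε ι n)⁻¹) =
        ζ ((1, gin (fun o => (z o : L1))) *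
        (x : L × Gam (Equiv.Perm Ω) Ω L1) * dY ε ι n) at h2
      rw [← h2, hnz]
      congr 1
      group
    have h4 := hζ.z z (x : L × Gam (Equiv.Perm Ω) Ω L1)
    change ζ ((c : L × Gam (Equiv.Perm Ω) Ω L1) * x) = _ * ζ x
    rw [h1, ← h4, inv_mul_cancel_left₀ hp])
  exact ⟨n, hn, hn', hn''⟩

end Fib

end Pool.Agent.DPG.DFT

namespace Pool.Agent.DPG

open Pool.Agent.DP Pool.Agent.DPC Pool.Agent.DPM Pool.Agent.DPN Pool.Agent.DPF
  Pool.Agent.Lib_helper13 Representation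

theorem DFT_thm (h1 : Stmt_CST) : Stmt_DFT := by
  intro L K K1 Q L1 Ω _ _ _ _ _ _ _ _ _ _ _ _ ℓ _ π μ φ q α ε μQ π1 μ1 ι M M1 hwd hld hmm
    σ F hσ hEF hov ζ hζ θ hθ
  obtain ⟨hNn, hRn, hcst⟩ := h1 L K K1 Q Ω ℓ π μ φ q α ε μQ hwd
  obtain ⟨-, -, -, hstb, hcard, -, -⟩ := hcst σ hσ
  have hempty : ChN ℓ q.range (∅ : Finset (Subgroup K1)) :=
    ⟨isCh_empty ℓ ⊥, fun D hD => absurd hD (Finset.notMem_empty D)⟩
  obtain ⟨-, -, -, -, hcard0, -, -⟩ := hcst ∅ hempty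
  have hc0 : cstC φ (NN' π ε) (∅ : Finset (Subgroup K1)) = ∅ := by
    classical
    rw [cstC]
    exact Finset.image_empty _
  rw [hc0, stb_empty, stb_empty, inf_top_eq, inf_top_eq] at hcard0
  set N := NN' π ε with hN
  set T := stb (cstC φ N σ) with hT
  set R := q.range with hR
  set S := stb σ with hS
  -- `M` is covered by `N` and `T`
  have hMT : M ≤ N ⊔ T := by
    intro m hm
    have h2 : ∀ o, ∃ s : Q, (q s)⁻¹ * (φ m).left o ∈ S := by
      intro o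
      have h3 := hEF.cov (hmm.l m hm o)
      rw [← SetLike.mem_coe, Subgroup.normal_mul] at h3
      obtain ⟨a, ⟨s, rfl⟩, t, ht, hat⟩ := Set.mem_mul.mp h3
      refine ⟨s, ?_⟩
      have h4 : q s * t = (φ m).left o := hat
      rw [← h4, inv_mul_cancel_left]
      exact ht
    choose s hs using h2
    have h5 : (π (ε s))⁻¹ * m ∈ T := by
      rw [hT, hstb]
      intro o
      have h6 : φ ((π (ε s))⁻¹ * m) = (gin (fun o => q (s o)))⁻¹ * φ m := by
        rw [map_mul, map_inv, hwd.φε]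
      rw [h6]
      change ((q (s ((1 : Equiv.Perm Ω)⁻¹⁻¹ • o)))⁻¹) * (φ m).left (((1 : Equiv.Perm Ω)⁻¹)⁻¹ • o) ∈ S
      rw [inv_one, inv_one, one_smul]
      exact hs o
    have h7 : m = π (ε s) * ((π (ε s))⁻¹ * m) := by rw [mul_inv_cancel_left]
    rw [h7]
    exact Subgroup.mul_mem _ (Subgroup.mem_sup_left ⟨ε s, ⟨s, rfl⟩, rfl⟩)
      (Subgroup.mem_sup_right h5)
  have hM := DFT.card_mul hNn hmm.le hMT
  have hM1 := DFT.card_mul hRn hmm.le1 hEF.cov
  have hfirst : Nat.card ↥(M ⊓ T) * Nat.card R ^ Fintype.card Ω =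
      Nat.card M * Nat.card ↥(R ⊓ S) ^ Fintype.card Ω := by
    rw [← hcard0, ← hcard]
    exact hM.1
  refine ⟨hfirst, ?_⟩
  -- valuations
  have hvM : padicValNat ℓ (Nat.card ↥(M ⊓ T)) =
      Fintype.card Ω * padicValNat ℓ (Nat.card ↥(R ⊓ S)) := by
    have h2 : N.relIndex M ≠ 0 := Subgroup.index_ne_zero_of_finite
    rw [← hM.2, DFT.val_mul hmm.cop h2 Nat.card_pos.ne', hcard,
      padicValNat.pow _ _]
  have hvM1 : padicValNat ℓ (Nat.card ↥(M1 ⊓ S)) = padicValNat ℓ (Nat.card ↥(R ⊓ S)) := by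
    have h2 : R.relIndex M1 ≠ 0 := Subgroup.index_ne_zero_of_finite
    rw [← hM1.2, DFT.val_mul hmm.cop1 h2 Nat.card_pos.ne']
  have hA : padicValNat ℓ (Nat.card ↥(AL π M T)) = padicValNat ℓ (Nat.card π.ker) +
      Fintype.card Ω * padicValNat ℓ (Nat.card ↥(R ⊓ S)) := by
    rw [AL, DFT.card_comap π hwd.πs, padicValNat.mul Nat.card_pos.ne' Nat.card_pos.ne', hvM]
  have hA1 : padicValNat ℓ (Nat.card ↥(AL π1 M1 S)) = padicValNat ℓ (Nat.card π1.ker) +
      padicValNat ℓ (Nat.card ↥(R ⊓ S)) := by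
    rw [AL, DFT.card_comap π1 hld.s, padicValNat.mul Nat.card_pos.ne' Nat.card_pos.ne', hvM1]
  -- degrees
  obtain ⟨z, hz, hz', hz''⟩ := DFT.zeta_deg hwd hld hmm hNn hζ
  have hF : IsIrr (fun s : AL π1 M1 S => F s) := hEF.irr.1
  obtain ⟨k, hk, hk'⟩ := hF.exists_degree
  have hk1 : F 1 = k := hk'
  have hθ1 : θ 1 = ((k ^ Fintype.card Ω * z : ℕ) : ℂ) := by
    have h2 := hθ.2 1 (Subgroup.one_mem _)
    change θ 1 = (∏ o : Ω, F 1) * ζ 1 at h2
    rw [h2, hz', hk1, Finset.prod_const, Finset.card_univ]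
    push_cast
    ring
  have hvθ : padicValNat ℓ (k ^ Fintype.card Ω * z) = Fintype.card Ω * padicValNat ℓ k := by
    rw [padicValNat.mul (pow_ne_zero _ hk.ne') hz.ne', padicValNat.pow _ _, hz'', add_zero]
  obtain ⟨d, hd⟩ := hF.exists_defect (ℓ := ℓ)
  have hd' : padicValNat ℓ (Nat.card π1.ker) + padicValNat ℓ (Nat.card ↥(R ⊓ S)) =
      d + padicValNat ℓ k := by
    obtain ⟨k', hk2, hk3⟩ := hd
    have h3 : k = k' := by
      have h4 : F 1 = k' := hk2
      rw [hk1] at h4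
      exact_mod_cast h4
    rw [← hA1, h3]
    exact hk3
  intro n
  constructor
  · rintro ⟨m, hm, hm'⟩
    have h3 : k ^ Fintype.card Ω * z = m := by
      have h4 : θ 1 = m := hm
      rw [hθ1] at h4
      exact_mod_cast h4
    rw [← h3, hvθ, hA] at hm'
    refine ⟨d, hd, ?_⟩
    have h5 : Fintype.card Ω * (padicValNat ℓ (Nat.card π1.ker) +
        padicValNat ℓ (Nat.card ↥(R ⊓ S))) = Fintype.card Ω * (d + padicValNat ℓ k) := by
      rw [hd']
    rw [mul_add, mul_add] at h5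
    omega
  · rintro ⟨n1, hn1, hn⟩
    have hdn : d = n1 := hd.unique hn1
    subst hdn
    refine ⟨k ^ Fintype.card Ω * z, hθ1, ?_⟩
    rw [hvθ, hA]
    have h5 : Fintype.card Ω * (padicValNat ℓ (Nat.card π1.ker) +
        padicValNat ℓ (Nat.card ↥(R ⊓ S))) = Fintype.card Ω * (d + padicValNat ℓ k) := by
      rw [hd']
    rw [mul_add, mul_add] at h5
    omega

end Pool.Agent.DPG
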