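import Mathlib
import Pool.Agent.DPG.StmtsA
import Pool.Agent.DPG.BEM

/-!
# NPT: the restriction to the normal subgroup `N` of a pair
-/

set_option autoImplicit false

namespace Pool.Agent.DPG

open Pool.Agent.DP Pool.Agent.DPC Pool.Agent.DPM Pool.Agent.DPN Pool.Agent.DPF
  Pool.Agent.Lib_helper13 Representation
open Pool.Agent.Lib_helper13.Dade (pCore DadeHolds dadeSum)

namespace NPT

section

variable {L : Type} [Group L] [Fintype L] {𝔐 : Ideal (integralClosure ℤ ℂ)}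

/-- Characters of a normal subgroup with the same central function on the classes of the group
belong to conjugate blocks. -/
theorem agree (ℓ : ℕ) [Fact ℓ.Prime] (hmax : 𝔐.IsMaximal)
    (hℓ : (ℓ : integralClosure ℤ ℂ) ∈ 𝔐) (S : Subgroup L) [hS : S.Normal] {χ χ' : L → ℂ}
    (hχ : IrrOn S χ) (hχ' : IrrOn S χ') (hcg : ∀ g ∈ S, cg 𝔐 χ g = cg 𝔐 χ' g) :
    ∃ y : L, ∀ u : L → ℤ, CIv S u →
      sc 𝔐 χ u = sc 𝔐 χ' (fun x => u (y * x * y⁻¹)) := by
  classical
  haveI hfin : Fintype ↥S := Fintype.ofFinite _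
  have hcc : cen 𝔐 S.subtype (fun s : ↥S => χ s) = cen 𝔐 S.subtype (fun s : ↥S => χ' s) := by
    funext g
    rw [BEM.cen_eq (𝔐 := 𝔐) S hχ.2 (G := χ) (fun _ _ _ => rfl)
      (ω := fun g => cg 𝔐 χ g) (fun g _ => rfl),
      BEM.cen_eq (𝔐 := 𝔐) S hχ'.2 (G := χ') (fun _ _ _ => rfl)
      (ω := fun g => cg 𝔐 χ' g) (fun g _ => rfl)]
    split_ifs with hg
    · exact hcg g hg
    · rfl
  have hcl : ClG S.subtype (MulAut.conjNormal : L →* MulAut ↥S)
      (QuotientGroup.mk' S) := by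
    refine ⟨Subtype.val_injective, fun y a => ?_, fun y => ?_⟩
    · exact MulAut.conjNormal_apply y a
    · rw [Subgroup.range_subtype, QuotientGroup.mk'_apply, QuotientGroup.eq_one_iff]
  obtain ⟨y, hy⟩ := Pool.Agent.DPW.COVW_thm (↥S) L (L ⧸ S) 𝔐 ℓ hmax hℓ
    S.subtype (MulAut.conjNormal : L →* MulAut ↥S)
    (QuotientGroup.mk' S) hcl (fun s => χ s) (fun s => χ' s) hχ.1 hχ'.1 (by
      intro a ha hai
      have hf1 : ∀ g x, (ext0 a : L → ℂ) (g * x * g⁻¹) = ext0 a x := by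
        intro g x
        by_cases hx : x ∈ S
        · have h2 : g * x * g⁻¹ ∈ S := hS.conj_mem x hx g
          rw [ext0_of_mem a hx, ext0_of_mem a h2, ← ha g ⟨x, hx⟩]
          congr 1
        · have h2 : g * x * g⁻¹ ∉ S := by
            intro h3
            apply hx
            have h4 := hS.conj_mem _ h3 g⁻¹
            have h5 : g⁻¹ * (g * x * g⁻¹) * g⁻¹⁻¹ = x := by group
            rwa [h5] at h4
          rw [ext0_of_not_mem a hx, ext0_of_not_mem a h2]
      have hf2 : ∀ x, IsIntegral ℤ ((ext0 a : L → ℂ) x) := by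
        intro x
        by_cases hx : x ∈ S
        · rw [ext0_of_mem a hx]
          exact hai _
        · rw [ext0_of_not_mem a hx]
          exact isIntegral_zero
      have hf3 : (fun s : ↥S => (ext0 a : L → ℂ) (S.subtype s)) = a := by
        funext s
        exact ext0_of_mem a s.2
      have e1 := red_wt_eq_pair 𝔐 S.subtype hχ.1 (ext0 a) hf1 hf2
      have e2 := red_wt_eq_pair 𝔐 S.subtype hχ'.1 (ext0 a) hf1 hf2
      rw [hf3] at e1 e2
      rw [e1, e2, hcc])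
  refine ⟨y⁻¹, fun u hu => ?_⟩
  have hirr : IsIrr (fun x : ↥S => χ' (MulAut.conjNormal y x : ↥S)) :=
    hχ'.1.comp_mulEquiv (MulAut.conjNormal y)
  have hv : red 𝔐 (wt (fun s : ↥S => χ s) (fun s => ((u s : ℤ) : ℂ))) =
      red 𝔐 (wt (fun x : ↥S => χ' (MulAut.conjNormal y x : ↥S))
        (fun s => ((u s : ℤ) : ℂ))) := by
    have e1 := red_wt_eq_pair 𝔐 (MonoidHom.id ↥S) hχ.1
      (fun s => ((u s : ℤ) : ℂ)) (by
        intro g x
        have := hu g g.2 x
        simp only [Subgroup.coe_mul, Subgroup.coe_inv]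
        rw [this]) (fun x => Pool.Agent.Lib_helper13.isIntegral_intCast _)
    have e2 := red_wt_eq_pair 𝔐 (MonoidHom.id ↥S) hirr
      (fun s => ((u s : ℤ) : ℂ)) (by
        intro g x
        have := hu g g.2 x
        simp only [Subgroup.coe_mul, Subgroup.coe_inv]
        rw [this]) (fun x => Pool.Agent.Lib_helper13.isIntegral_intCast _)
    rw [hy] at e2
    exact e1.trans e2.symm
  rw [BEM.sc_sub S hχ.2, BEM.sc_sub S hχ'.2, hv]
  have h3 := wt_comp_equiv (MulAut.conjNormal y : ↥S ≃* ↥S)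
    (fun s : ↥S => χ' s)
    (fun s : ↥S => ((u (y⁻¹ * (s : L) * y⁻¹⁻¹) : ℤ) : ℂ))
  rw [← h3]
  congr 2
  funext s
  congr 2
  rw [MulAut.conjNormal_apply]
  group

/-- The action by conjugation of `T` on `A`. -/
def cj (A T : Subgroup L) (hN : ∀ t ∈ T, ∀ a, a ∈ A ↔ t * a * t⁻¹ ∈ A) : T →* MulAut A where
  toFun t :=
    { toFun := fun a => ⟨t * a * (t : L)⁻¹, (hN t t.2 a).mp a.2⟩
      invFun := fun a => ⟨(t : L)⁻¹ * a * t, by
        rw [hN t t.2]
        have e : (t : L) * ((t : L)⁻¹ * (a : L) * t) * (t : L)⁻¹ = a := by group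
        rw [e]
        exact a.2⟩
      left_inv := fun a => Subtype.ext (by simp only []; group)
      right_inv := fun a => Subtype.ext (by simp only []; group)
      map_mul' := fun a b => Subtype.ext (by simp only [Subgroup.coe_mul]; group) }
  map_one' := by
    ext a
    change (1 : L) * a * (1 : L)⁻¹ = a
    group
  map_mul' := by
    intro s t
    ext a
    change ((s : L) * t) * a * ((s : L) * t)⁻¹ = s * (t * a * (t : L)⁻¹) * (s : L)⁻¹
    group

theorem cj_apply (A T : Subgroup L) (hN : ∀ t ∈ T, ∀ a, a ∈ A ↔ t * a * t⁻¹ ∈ A) (t : T)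
    (a : A) : ((cj A T hN t a : A) : L) = t * a * (t : L)⁻¹ := rfl

theorem normal (A T : Subgroup L) (hN : ∀ t ∈ T, ∀ a, a ∈ A ↔ t * a * t⁻¹ ∈ A) :
    (A.subgroupOf T).Normal := by
  constructor
  intro a ha t
  rw [Subgroup.mem_subgroupOf] at ha ⊢
  exact (hN t t.2 a).mp ha

theorem clg (A T : Subgroup L) (hAT : A ≤ T)
    (hN : ∀ t ∈ T, ∀ a, a ∈ A ↔ t * a * t⁻¹ ∈ A) :
    haveI := normal A T hN
    ClG (Subgroup.inclusion hAT) (cj A T hN) (QuotientGroup.mk' (A.subgroupOf T)) := by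
  haveI := normal A T hN
  refine ⟨Subgroup.inclusion_injective hAT, fun y a => Subtype.ext ?_, fun y => ?_⟩
  · rfl
  · rw [QuotientGroup.mk'_apply, QuotientGroup.eq_one_iff, Subgroup.mem_subgroupOf]
    constructor
    · intro h
      exact ⟨⟨y, h⟩, Subtype.ext rfl⟩
    · rintro ⟨a, rfl⟩
      exact a.2

/-- A constituent of the restriction lies over the same linear character. -/
theorem ov {K : Type} [Group K] {π : L →* K} (hπc : π.ker ≤ Subgroup.center L)
    {μ : π.ker →* ℂˣ} {A T : Subgroup L} (hAT : A ≤ T) (hk : π.ker ≤ A) {θ : L → ℂ}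
    (hθ : Ov π μ θ) {f : A → ℂ} [Fintype A] (hf : IsIrr f)
    (hip : ip (resj (Subgroup.inclusion hAT) (fun t : T => θ t)) f ≠ 0) :
    Ov π μ (ext0 f : L → ℂ) := by
  classical
  intro z x
  have hzc : ∀ g : L, (z : L) * g = g * z := fun g =>
    ((Subgroup.mem_center_iff.mp (hπc z.2)) g).symm
  by_cases hx : x ∈ A
  · have hzx : (z : L) * x ∈ A := A.mul_mem (hk z.2) hx
    rw [ext0_of_mem f hx, ext0_of_mem f hzx]
    obtain ⟨c, hc⟩ := TWN.central hf (z := ⟨z, hk z.2⟩) (by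
      intro g
      exact Subtype.ext (hzc g))
    have h1 : f ⟨(z : L) * x, hzx⟩ = c * f ⟨x, hx⟩ := hc ⟨x, hx⟩
    rw [h1]
    congr 1
    -- the scalars agree
    have hs : ∑ s : A, θ s * f s⁻¹ ≠ 0 := by
      intro h
      apply hip
      rw [ip]
      have e : ∑ g : A, resj (Subgroup.inclusion hAT) (fun t : T => θ t) g * f g⁻¹ =
          ∑ s : A, θ s * f s⁻¹ := rfl
      rw [e, h, zero_div]
    have h2 : c * ∑ s : A, θ s * f s⁻¹ = ((μ z : ℂˣ) : ℂ) * ∑ s : A, θ s * f s⁻¹ := by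
      rw [Finset.mul_sum, Finset.mul_sum]
      symm
      refine Fintype.sum_equiv (Equiv.mulLeft (⟨z, hk z.2⟩ : A)) _ _ fun s => ?_
      have e1 : θ (((⟨z, hk z.2⟩ : A) * s : A) : L) = ((μ z : ℂˣ) : ℂ) * θ s := hθ z s
      have e2 : f s⁻¹ = c * f ((⟨z, hk z.2⟩ : A) * s)⁻¹ := by
        rw [← hc]
        congr 1
        apply Subtype.ext
        change (s : L)⁻¹ = (z : L) * ((z : L) * s)⁻¹
        rw [mul_inv_rev, hzc]
        group
      change ((μ z : ℂˣ) : ℂ) * (θ s * f s⁻¹) =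
        c * (θ (((⟨z, hk z.2⟩ : A) * s : A) : L) * f ((⟨z, hk z.2⟩ : A) * s)⁻¹)
      rw [e1, e2]
      ring
    exact mul_right_cancel₀ hs h2
  · have hzx : (z : L) * x ∉ A := by
      intro h
      apply hx
      have := A.mul_mem (A.inv_mem (hk z.2)) h
      rwa [inv_mul_cancel_left] at this
    rw [ext0_of_not_mem f hx, ext0_of_not_mem f hzx, mul_zero]

/-- Products of invariant functions are invariant. -/
theorem conv_civ {S : Subgroup L} {u v : L → ℤ} (hu : CIv S u) (hv : CIv S v) :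
    CIv S (conv u v) := by
  intro g hg x
  rw [conv, conv]
  symm
  refine Fintype.sum_equiv (MulAut.conj g).toEquiv _ _ ?_
  intro y
  have h1 : (MulAut.conj g).toEquiv y = g * y * g⁻¹ := rfl
  rw [h1, hu g hg]
  have h2 : (g * y * g⁻¹)⁻¹ * (g * x * g⁻¹) = g * (y⁻¹ * x) * g⁻¹ := by group
  rw [h2, hv g hg]

end

end NPT

open NPT in
/-- NPT: the restriction to `N` of a pair. -/
theorem NPT_thm (h1 : Stmt_IRC) (h2 : Stmt_SST) : Stmt_NPT := by
  classical
  intro L K _ _ _ _ 𝔐 ℓ _ hmax hℓ π hπ hπc μ N M _ _ hNM ω hSTB hSPP σ θ hσ hθ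
  haveI hNn : (N.comap π).Normal := inferInstance
  haveI : Fintype ↥(AL π N (stb σ)) := Fintype.ofFinite _
  haveI : Fintype ↥(AL π M (stb σ)) := Fintype.ofFinite _
  have hAT : AL π N (stb σ) ≤ AL π M (stb σ) :=
    Subgroup.comap_mono (inf_le_inf_right _ hNM)
  have hmem : ∀ (N' : Subgroup K) a, a ∈ AL π N' (stb σ) ↔ π a ∈ N' ∧ π a ∈ stb σ := by
    intro N' a
    rw [Subgroup.mem_comap, Subgroup.mem_inf]
  have hN0 : ∀ t, π t ∈ stb σ → ∀ a, a ∈ AL π N (stb σ) ↔ t * a * t⁻¹ ∈ AL π N (stb σ) := by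
    intro t ht a
    rw [hmem, hmem, map_mul, map_mul, map_inv]
    constructor
    · rintro ⟨h1, h2⟩
      exact ⟨Subgroup.Normal.conj_mem inferInstance _ h1 _,
        (stb σ).mul_mem ((stb σ).mul_mem ht h2) ((stb σ).inv_mem ht)⟩
    · rintro ⟨h1, h2⟩
      constructor
      · have := Subgroup.Normal.conj_mem (inferInstance : N.Normal) _ h1 (π t)⁻¹
        have e : (π t)⁻¹ * (π t * π a * (π t)⁻¹) * (π t)⁻¹⁻¹ = π a := by group
        rwa [e] at this
      · have := (stb σ).mul_mem ((stb σ).mul_mem ((stb σ).inv_mem ht) h2) ht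
        have e : (π t)⁻¹ * (π t * π a * (π t)⁻¹) * π t = π a := by group
        rwa [e] at this
  have hN : ∀ t ∈ AL π M (stb σ), ∀ a, a ∈ AL π N (stb σ) ↔
      t * a * t⁻¹ ∈ AL π N (stb σ) := fun t ht => hN0 t ((hmem M t).mp ht).2
  have hker : π.ker ≤ AL π N (stb σ) := by
    intro z hz
    rw [hmem, MonoidHom.mem_ker.mp hz]
    exact ⟨N.one_mem, (stb σ).one_mem⟩
  haveI hnq := normal _ _ hN
  have hcl := clg _ _ hAT hN
  obtain ⟨f', hf', hip⟩ := Cliff.exists_under hθ.irr.1 (Subgroup.inclusion hAT)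
  have hfe : (fun s : ↥(AL π N (stb σ)) => (ext0 f' : L → ℂ) s) = f' := by
    funext s
    exact ext0_of_mem f' s.2
  have hf : IrrOn (AL π N (stb σ)) (ext0 f') :=
    ⟨by rw [hfe]; exact hf', fun x hx => ext0_of_not_mem f' hx⟩
  have hov : Ov π μ (ext0 f' : L → ℂ) := ov hπc hAT hker hθ.ovl hf' hip
  obtain ⟨χ, hχ, hχo, hχs⟩ := h1 L K 𝔐 ℓ hmax hℓ π hπ hπc μ N σ hσ (ext0 f') hf hov
  -- the central function
  have hcg : ∀ g, π g ∈ N → cg 𝔐 χ g = ω g := by
    intro g hg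
    have hgN : g ∈ N.comap π := hg
    have hsu : SOn (N.comap π : Set L) (BEM.cI g) := fun x hx =>
      BEM.cI_not_mem (N.comap π) hgN hx
    rw [BEM.cg_eq, hχs (BEM.cI g) (fun s _ x => BEM.cI_conj g s x) hsu,
      ← hθ.cn g (hNM hg), BEM.cg_eq, BEM.sc_sub (AL π N (stb σ)) hf.2,
      BEM.sc_sub (AL π M (stb σ)) hθ.irr.2, hfe]
    have h3 := (SUMM_thm _ _ _ _ _ _ hcl).2.2.2 f' (fun t : ↥(AL π M (stb σ)) => θ t)
      (fun t => ((BEM.cI g t : ℤ) : ℂ)) hf' hθ.irr.1 hip (by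
        intro s x
        simp only [Subgroup.coe_mul, Subgroup.coe_inv]
        rw [BEM.cI_conj]) (by
        intro t ht
        rw [BEM.cI_not_mem (N.comap π) hgN, Int.cast_zero]
        intro h4
        apply ht
        refine ⟨⟨t, ?_⟩, Subtype.ext rfl⟩
        rw [hmem]
        exact ⟨h4, ((hmem M t).mp t.2).2⟩)
    rw [h3]
    rfl
  have hcvd : Cvd 𝔐 π μ N ω χ := ⟨hχ, hχo, hcg⟩
  -- the elements of the support
  have hsup : ∀ x, π x ∈ M → (∃ t, π t ∈ stb σ ∧ π (x⁻¹ * t) ∈ N) ∧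
      ∀ t, π t ∈ stb σ → π (x⁻¹ * t) ∈ N → ∀ y, (ext0 f' : L → ℂ) (t * y * t⁻¹) = ext0 f' y := by
    intro x hx
    obtain ⟨u, v, hu, hv, hus, hvs, hne⟩ := hSPP χ hcvd x hx
    apply h2 L K 𝔐 ℓ hmax hℓ π hπ hπc N σ hσ (ext0 f') hf x u v hu hv hus hvs
    rw [← hχs]
    · exact hne
    · exact conv_civ hu hv
    · intro y hy
      rw [conv]
      refine Finset.sum_eq_zero fun z _ => ?_
      by_cases hz : π (x⁻¹ * z) ∈ N
      · rw [hvs, mul_zero]
        intro h3
        apply hy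
        have h4 : π (x * (z⁻¹ * y)) ∈ N := h3
        have h5 : π x⁻¹ * (π (x * (z⁻¹ * y))) * (π x⁻¹)⁻¹ ∈ N :=
          Subgroup.Normal.conj_mem inferInstance _ h4 _
        have h6 := N.mul_mem (N.mul_mem hz h5) (N.one_mem)
        have h7 : π (x⁻¹ * z) * (π x⁻¹ * (π (x * (z⁻¹ * y))) * (π x⁻¹)⁻¹) * 1 =
            (π x)⁻¹ * π y * π x := by
          simp only [map_mul, map_inv]
          group
        rw [h7] at h6
        have h8 : π x * ((π x)⁻¹ * π y * π x) * (π x)⁻¹ ∈ N :=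
          Subgroup.Normal.conj_mem inferInstance _ h6 _
        have h9 : π x * ((π x)⁻¹ * π y * π x) * (π x)⁻¹ = π y := by group
        rw [h9] at h8
        exact h8
      · rw [hus z hz, zero_mul]
  have hinv : ∀ t, π t ∈ M → π t ∈ stb σ →
      ∀ y, (ext0 f' : L → ℂ) (t * y * t⁻¹) = ext0 f' y := by
    intro t htM ht
    refine (hsup t htM).2 t ht ?_
    rw [inv_mul_cancel, map_one]
    exact N.one_mem
  have htop : N ⊔ stb σ = ⊤ := by
    rw [eq_top_iff, ← hθ.sj]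
    refine sup_le ?_ le_sup_right
    intro m hm
    obtain ⟨x, rfl⟩ := hπ m
    obtain ⟨t, ht, htN⟩ := (hsup x hm).1
    have e : π x = π t * (π (x⁻¹ * t))⁻¹ := by
      rw [map_mul, map_inv]
      group
    rw [e]
    exact (N ⊔ stb σ).mul_mem (Subgroup.mem_sup_right ht)
      ((N ⊔ stb σ).inv_mem (Subgroup.mem_sup_left htN))
  -- the restriction of `θ`
  obtain ⟨e, he⟩ := (hθ.irr.1.resj (Subgroup.inclusion hAT)).exists_ip hf'.isChr
  have hres : ∀ x ∈ AL π N (stb σ), θ x = e * (ext0 f' : L → ℂ) x := by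
    intro x hx
    have h3 := congrFun (class_fn_expand (resj (Subgroup.inclusion hAT)
      (fun t : ↥(AL π M (stb σ)) => θ t)) (resj_class hθ.irr.1)) ⟨x, hx⟩
    have h4 : θ x = resj (Subgroup.inclusion hAT)
      (fun t : ↥(AL π M (stb σ)) => θ t) ⟨x, hx⟩ := rfl
    rw [h4, h3, Finset.sum_eq_single f']
    · rw [he, ext0_of_mem f' hx]
    · intro f'' hf'' hne
      by_cases h5 : ip (resj (Subgroup.inclusion hAT)
        (fun t : ↥(AL π M (stb σ)) => θ t)) f'' = 0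
      · rw [h5, zero_mul]
      · exfalso
        obtain ⟨y, hy⟩ := (SUMM_thm _ _ _ _ _ _ hcl).2.1 f' f''
          (fun t : ↥(AL π M (stb σ)) => θ t) hf' (mem_irrF.mp hf'') hθ.irr.1 hip h5
        apply hne
        funext a
        rw [← hy a]
        have h6 := hinv y ((hmem M y).mp y.2).1 ((hmem M y).mp y.2).2 a
        rw [ext0_of_mem f' a.2, ext0_of_mem f' ((hN y y.2 a).mp a.2)] at h6
        exact h6
    · intro h5
      exact absurd (mem_irrF.mpr hf') h5
  have he0 : e ≠ 0 := by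
    rintro rfl
    apply hip
    rw [he, Nat.cast_zero]
  refine ⟨ext0 f', e, he0, hf, hov, htop, ?_, hres, ⟨χ, hcvd⟩, ?_⟩
  · intro t ht x
    by_cases hx : x ∈ AL π N (stb σ)
    · have h3 := hθ.iv t ht x
      rw [hres x hx, hres _ ((hN0 t ht x).mp hx)] at h3
      exact mul_left_cancel₀ (Nat.cast_ne_zero.mpr he0) h3
    · rw [ext0_of_not_mem f' hx, ext0_of_not_mem f' (fun h => hx ((hN0 t ht x).mpr h))]
  · intro f0 hf0 u hu hus
    obtain ⟨y, hy⟩ := agree ℓ hmax hℓ (N.comap π) hχ hf0.1 (fun g hg => by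
      rw [hcg g hg, hf0.2.2 g hg])
    rw [← hχs u hu hus, hy u hu]
    exact hSTB f0 hf0 u hu hus y

end Pool.Agent.DPG
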