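import Mathlib
import Pool.Agent.DPG.StmtsB
import Pool.Agent.DPG.NPT
import Pool.Agent.DPM.QINF

/-!
# DWN, first part: transfer of characters between `Q` and `L1`
-/

set_option autoImplicit false

namespace Pool.Agent.DPG

open Pool.Agent.DP Pool.Agent.DPC Pool.Agent.DPM Pool.Agent.DPN Pool.Agent.DPF
  Pool.Agent.DPK Pool.Agent.Lib_helper13 Representation
open Pool.Agent.Lib_helper13.Dade (pCore DadeHolds dadeSum)

namespace DWN

section

variable {K1 Q L1 : Type} [Group K1] [Group Q] [Fintype Q] [Group L1] [Fintype L1]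
  {q : Q →* K1} {α : K1 →* MulAut Q} {μQ : q.ker →* ℂˣ} {π1 : L1 →* K1} {μ1 : π1.ker →* ℂˣ}
  {ι : Q →* L1}

omit [Fintype Q] [Fintype L1] in
theorem mem_range (hld : LD q α μQ π1 μ1 ι) {y : L1} (hy : π1 y ∈ q.range) :
    ∃ (z : π1.ker) (x : Q), y = z * ι x := by
  obtain ⟨x, hx⟩ := hy
  refine ⟨⟨y * (ι x)⁻¹, ?_⟩, x, ?_⟩
  · rw [MonoidHom.mem_ker, map_mul, map_inv, hld.πι, hx, mul_inv_cancel]
  · change y = y * (ι x)⁻¹ * ι x
    group

omit [Fintype Q] [Fintype L1] in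
theorem zcomm (hld : LD q α μQ π1 μ1 ι) (z : π1.ker) (y : L1) : y * z = z * y :=
  Subgroup.mem_center_iff.mp (hld.c z.2) y

/-- The character of `π1.ker × (S.comap q)`. -/
theorem irr_prod (S : Subgroup K1) {f : Q → ℂ} (hf : IrrOn (S.comap q) f) :
    IsIrr (fun x : π1.ker × ↥(S.comap q) => ((μ1 x.1 : ℂˣ) : ℂ) * f x.2) := by
  classical
  haveI : Fintype ↥(S.comap q) := Fintype.ofFinite _
  haveI : Fintype ↥π1.ker := Fintype.ofFinite _
  have h1 : IsChr (fun x : π1.ker × ↥(S.comap q) => ((μ1 x.1 : ℂˣ) : ℂ)) :=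
    (isChr_lin μ1).comp (MonoidHom.fst π1.ker ↥(S.comap q))
  have h2 : IsChr (fun x : π1.ker × ↥(S.comap q) => f x.2) :=
    hf.1.isChr.comp (MonoidHom.snd π1.ker ↥(S.comap q))
  refine (h1.mul h2).isIrr ?_
  have h3 : ∀ x : π1.ker × ↥(S.comap q),
      ((μ1 x.1 : ℂˣ) : ℂ) * f x.2 * (((μ1 x⁻¹.1 : ℂˣ) : ℂ) * f x⁻¹.2) =
        f x.2 * f ((x.2)⁻¹ : ↥(S.comap q)) := by
    intro x
    have h4 : ((μ1 x.1 : ℂˣ) : ℂ) * ((μ1 x⁻¹.1 : ℂˣ) : ℂ) = 1 := by
      rw [← Units.val_mul, ← map_mul, Prod.fst_inv, mul_inv_cancel, map_one, Units.val_one]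
    have h5 : x⁻¹.2 = (x.2)⁻¹ := rfl
    rw [h5]
    linear_combination (f x.2 * f ((x.2)⁻¹ : ↥(S.comap q))) * h4
  rw [Finset.sum_congr rfl fun x _ => h3 x, Fintype.sum_prod_type]
  simp only
  have h6 := hf.1.sum_self
  rw [Finset.sum_congr rfl fun (z : π1.ker) _ => h6, Finset.sum_const, Finset.card_univ,
    Nat.card_prod, nsmul_eq_mul, Nat.card_eq_fintype_card (α := π1.ker)]
  push_cast
  ring

/-- The character of the group generated by `ι(Q)` and the kernel. -/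
theorem transfer (hld : LD q α μQ π1 μ1 ι) (S : Subgroup K1) {f : Q → ℂ}
    (hf : IrrOn (S.comap q) f) (ho : Ov q μQ f) :
    ∃ F : L1 → ℂ, IrrOn (AL π1 q.range S) F ∧ Ov π1 μ1 F ∧ ∀ x, F (ι x) = f x := by
  classical
  haveI : Fintype ↥(S.comap q) := Fintype.ofFinite _
  haveI : Fintype ↥π1.ker := Fintype.ofFinite _
  haveI : Fintype ↥(AL π1 q.range S) := Fintype.ofFinite _
  have hm : ∀ (z : π1.ker) (x : Q), (z : L1) * ι x ∈ AL π1 q.range S ↔ x ∈ S.comap q := by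
    intro z x
    rw [Subgroup.mem_comap, Subgroup.mem_inf, map_mul, MonoidHom.mem_ker.mp z.2, one_mul,
      hld.πι, Subgroup.mem_comap]
    exact ⟨fun h => h.2, fun h => ⟨⟨x, rfl⟩, h⟩⟩
  let Ψ : π1.ker × ↥(S.comap q) →* ↥(AL π1 q.range S) :=
    { toFun := fun x => ⟨(x.1 : L1) * ι x.2, (hm x.1 x.2).mpr x.2.2⟩
      map_one' := Subtype.ext (by simp)
      map_mul' := fun x y => Subtype.ext (by
        change ((x.1 : L1) * y.1) * ι ((x.2 : Q) * y.2) = (x.1 * ι x.2) * (y.1 * ι y.2)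
        have h := zcomm hld y.1 (ι x.2)
        rw [map_mul]
        calc (x.1 : L1) * y.1 * (ι x.2 * ι y.2) = x.1 * (y.1 * ι x.2) * ι y.2 := by group
          _ = x.1 * (ι x.2 * y.1) * ι y.2 := by rw [h]
          _ = _ := by group) }
  have hΨ : ∀ x, ((Ψ x : ↥(AL π1 q.range S)) : L1) = x.1 * ι x.2 := fun x => rfl
  have hs : Function.Surjective Ψ := by
    rintro ⟨y, hy⟩
    have hy' := hy
    rw [Subgroup.mem_comap, Subgroup.mem_inf] at hy'
    obtain ⟨z, x, rfl⟩ := mem_range hld hy'.1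
    exact ⟨(z, ⟨x, (hm z x).mp hy⟩), Subtype.ext rfl⟩
  obtain ⟨η, hη, he⟩ := QINF.exists_inf Ψ hs (irr_prod (μ1 := μ1) S hf) (by
    intro x y hx
    have h1 : (x.1 : L1) * ι x.2 = 1 := congrArg Subtype.val hx
    have h2 : q x.2 = 1 := by
      rw [← hld.πι]
      have h3 := congrArg π1 h1
      rw [map_mul, MonoidHom.mem_ker.mp x.1.2, one_mul, map_one] at h3
      exact h3
    have h4 : (ι x.2 : L1) ∈ π1.ker := by
      rw [MonoidHom.mem_ker, hld.πι, h2]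
    have h5 : x.1 * ⟨ι x.2, h4⟩ = 1 := Subtype.ext h1
    have h6 : ((μ1 x.1 : ℂˣ) : ℂ) * ((μ1 ⟨ι x.2, h4⟩ : ℂˣ) : ℂ) = 1 := by
      rw [← Units.val_mul, ← map_mul, h5, map_one, Units.val_one]
    have h7 := hld.μι ⟨x.2, h2⟩ h4
    have h8 := ho ⟨x.2, h2⟩ y.2
    rw [← h7] at h8
    change ((μ1 (x.1 * y.1) : ℂˣ) : ℂ) * f ((x.2 : Q) * y.2) = ((μ1 y.1 : ℂˣ) : ℂ) * f y.2
    have h9 : f ((x.2 : Q) * y.2) = ((μ1 ⟨ι x.2, h4⟩ : ℂˣ) : ℂ) * f y.2 := h8
    rw [h9, map_mul, Units.val_mul]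
    linear_combination (((μ1 y.1 : ℂˣ) : ℂ) * f y.2) * h6)
  have he' : ∀ (z : π1.ker) (x : Q) (hx : x ∈ S.comap q),
      (ext0 η : L1 → ℂ) (z * ι x) = ((μ1 z : ℂˣ) : ℂ) * f x := by
    intro z x hx
    rw [ext0_of_mem η ((hm z x).mpr hx)]
    exact (congrFun he (z, ⟨x, hx⟩)).symm
  have hz' : ∀ (z : π1.ker) (x : Q), (ext0 η : L1 → ℂ) (z * ι x) = ((μ1 z : ℂˣ) : ℂ) * f x := by
    intro z x
    by_cases hx : x ∈ S.comap q
    · exact he' z x hx
    · rw [ext0_of_not_mem η (fun h => hx ((hm z x).mp h)), hf.2 x hx, mul_zero]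
  refine ⟨ext0 η, ⟨?_, fun x hx => ext0_of_not_mem η hx⟩, ?_, ?_⟩
  · have : (fun s : ↥(AL π1 q.range S) => (ext0 η : L1 → ℂ) s) = η := by
      funext s
      exact ext0_of_mem η s.2
    rw [this]
    exact hη
  · intro z y
    by_cases hy : π1 y ∈ q.range
    · obtain ⟨z', x, rfl⟩ := mem_range hld hy
      have h1 : (z : L1) * (z' * ι x) = ((z * z' : π1.ker) : L1) * ι x := by
        rw [Subgroup.coe_mul, mul_assoc]
      rw [h1, hz', hz', map_mul, Units.val_mul, mul_assoc]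
    · have h1 : ∀ w : L1, π1 w ∉ q.range → (ext0 η : L1 → ℂ) w = 0 := by
        intro w hw
        refine ext0_of_not_mem η (fun h => hw ?_)
        rw [Subgroup.mem_comap, Subgroup.mem_inf] at h
        exact h.1
      rw [h1 y hy, h1, mul_zero]
      rw [map_mul, MonoidHom.mem_ker.mp z.2, one_mul]
      exact hy
  · intro x
    have := hz' 1 x
    rwa [Subgroup.coe_one, one_mul, map_one, Units.val_one, one_mul] at this

/-- The restriction to `ι(Q)` of a character. -/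
theorem restr (hld : LD q α μQ π1 μ1 ι) (S : Subgroup K1) {F : L1 → ℂ}
    (hF : IsIrr (fun a : AL π1 q.range S => F a)) (hF0 : ∀ x, q x ∉ S → F (ι x) = 0)
    (ho : Ov π1 μ1 F) : IrrOn (S.comap q) (fun x => F (ι x)) ∧ Ov q μQ (fun x => F (ι x)) := by
  classical
  haveI : Fintype ↥(S.comap q) := Fintype.ofFinite _
  haveI : Fintype ↥π1.ker := Fintype.ofFinite _
  haveI : Fintype ↥(AL π1 q.range S) := Fintype.ofFinite _
  have hm : ∀ (z : π1.ker) (x : Q), (z : L1) * ι x ∈ AL π1 q.range S ↔ x ∈ S.comap q := by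
    intro z x
    rw [Subgroup.mem_comap, Subgroup.mem_inf, map_mul, MonoidHom.mem_ker.mp z.2, one_mul,
      hld.πι, Subgroup.mem_comap]
    exact ⟨fun h => h.2, fun h => ⟨⟨x, rfl⟩, h⟩⟩
  let Ψ : π1.ker × ↥(S.comap q) →* ↥(AL π1 q.range S) :=
    { toFun := fun x => ⟨(x.1 : L1) * ι x.2, (hm x.1 x.2).mpr x.2.2⟩
      map_one' := Subtype.ext (by simp)
      map_mul' := fun x y => Subtype.ext (by
        change ((x.1 : L1) * y.1) * ι ((x.2 : Q) * y.2) = (x.1 * ι x.2) * (y.1 * ι y.2)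
        have h := zcomm hld y.1 (ι x.2)
        rw [map_mul]
        calc (x.1 : L1) * y.1 * (ι x.2 * ι y.2) = x.1 * (y.1 * ι x.2) * ι y.2 := by group
          _ = x.1 * (ι x.2 * y.1) * ι y.2 := by rw [h]
          _ = _ := by group) }
  have hs : Function.Surjective Ψ := by
    rintro ⟨y, hy⟩
    have hy' := hy
    rw [Subgroup.mem_comap, Subgroup.mem_inf] at hy'
    obtain ⟨z, x, rfl⟩ := mem_range hld hy'.1
    exact ⟨(z, ⟨x, (hm z x).mp hy⟩), Subtype.ext rfl⟩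
  have h1 := QINF.irr_inf Ψ hs hF
  have h2 : IsChr (fun x : ↥(S.comap q) => F (ι x)) := by
    have h3 := h1.isChr.comp (MonoidHom.inr π1.ker ↥(S.comap q))
    have h4 : (fun x : ↥(S.comap q) => F (ι x)) = fun x : ↥(S.comap q) =>
        (fun a => (fun a : AL π1 q.range S => F a) (Ψ a))
          ((MonoidHom.inr π1.ker ↥(S.comap q)) x) := by
      funext x
      change F (ι x) = F (((1 : π1.ker) : L1) * ι x)
      rw [Subgroup.coe_one, one_mul]
    rw [h4]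
    exact h3
  refine ⟨⟨h2.isIrr ?_, fun x hx => hF0 x hx⟩, ?_⟩
  · have h5 := h1.sum_self
    have h6 : ∀ x : π1.ker × ↥(S.comap q), (fun a : AL π1 q.range S => F a) (Ψ x) *
        (fun a : AL π1 q.range S => F a) (Ψ x⁻¹) =
          F (ι x.2) * F (ι ((x.2)⁻¹ : ↥(S.comap q))) := by
      intro x
      have h7 : (fun a : AL π1 q.range S => F a) (Ψ x) = ((μ1 x.1 : ℂˣ) : ℂ) * F (ι x.2) :=
        ho x.1 (ι x.2)
      have h8 : (fun a : AL π1 q.range S => F a) (Ψ x⁻¹) =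
          ((μ1 (x.1)⁻¹ : ℂˣ) : ℂ) * F (ι ((x.2)⁻¹ : ↥(S.comap q))) :=
        ho (x.1)⁻¹ (ι ((x.2)⁻¹ : ↥(S.comap q)))
      rw [h7, h8]
      have h4 : ((μ1 x.1 : ℂˣ) : ℂ) * ((μ1 (x.1)⁻¹ : ℂˣ) : ℂ) = 1 := by
        rw [← Units.val_mul, ← map_mul, mul_inv_cancel, map_one, Units.val_one]
      linear_combination (F (ι x.2) * F (ι ((x.2)⁻¹ : ↥(S.comap q)))) * h4
    rw [Finset.sum_congr rfl fun x _ => h6 x, Fintype.sum_prod_type] at h5
    simp only at h5
    rw [Finset.sum_const, Finset.card_univ, Nat.card_prod, nsmul_eq_mul,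
      Nat.card_eq_fintype_card (α := π1.ker), Nat.cast_mul] at h5
    exact mul_left_cancel₀ (Nat.cast_ne_zero.mpr Fintype.card_ne_zero) h5
  · intro z x
    have h3 : (ι z : L1) ∈ π1.ker := by
      rw [MonoidHom.mem_ker, hld.πι]
      exact z.2
    have h4 := ho ⟨ι z, h3⟩ (ι x)
    change F (ι (z * x)) = ((μQ z : ℂˣ) : ℂ) * F (ι x)
    rw [map_mul, ← hld.μι z h3]
    exact h4

/-- Comparison of scalars. -/
theorem sc_eq {𝔐 : Ideal (integralClosure ℤ ℂ)} (hmax : 𝔐.IsMaximal)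
    (hld : LD q α μQ π1 μ1 ι) {S S' : Subgroup K1} {F F' : L1 → ℂ}
    (hF : IrrOn (S.comap q) (fun x => F (ι x))) (ho : Ov π1 μ1 F)
    (hF' : IrrOn (S'.comap q) (fun x => F' (ι x))) (ho' : Ov π1 μ1 F')
    (h : ∀ w : Q → ℤ, CIv ⊤ w → sc 𝔐 (fun x => F (ι x)) w = sc 𝔐 (fun x => F' (ι x)) w)
    (u : L1 → ℤ) (hu : CIv (q.range.comap π1) u)
    (hus : SOn (q.range.comap π1 : Set L1) u) : sc 𝔐 F u = sc 𝔐 F' u := by
  classical
  haveI : 𝔐.IsPrime := hmax.isPrime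
  haveI : Fintype (L1 ⧸ ι.range) := Fintype.ofFinite _
  -- the integrality of the scalars
  have hint : ∀ (T : Subgroup K1) (G : L1 → ℂ), IrrOn (T.comap q) (fun x => G (ι x)) →
      ∀ w : Q → ℤ, CIv ⊤ w → IsIntegral ℤ ((∑ x, ((w x : ℤ) : ℂ) * G (ι x)) / G 1) := by
    intro T G hG w hw
    haveI : Fintype ↥(T.comap q) := Fintype.ofFinite _
    have h1 : (∑ x, ((w x : ℤ) : ℂ) * G (ι x)) / G 1 =
        wt (fun s : ↥(T.comap q) => G (ι s)) (fun s => ((w s : ℤ) : ℂ)) := by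
      rw [wt]
      have h2 : ∑ x, ((w x : ℤ) : ℂ) * G (ι x) =
          ∑ s : ↥(T.comap q), ((w s : ℤ) : ℂ) * G (ι s) := by
        rw [← Finset.sum_filter_of_ne (p := fun x => x ∈ T.comap q)]
        · exact Finset.sum_subtype _ (by simp) _
        · intro x _ hx
          by_contra h
          have h0 : G (ι x) = 0 := hG.2 x h
          exact hx (by rw [h0, mul_zero])
      rw [h2]
      congr 1
      change G 1 = G (ι 1)
      rw [map_one]
    rw [h1]
    refine isIntegral_wt hG.1 (fun s : ↥(T.comap q) => ((w s : ℤ) : ℂ)) (fun g x => ?_)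
      (fun x => Pool.Agent.Lib_helper13.isIntegral_intCast _)
    have := hw g (Subgroup.mem_top _) x
    simp only [Subgroup.coe_mul, Subgroup.coe_inv]
    rw [this]
  -- the decomposition into cosets
  have hdec : ∀ G : L1 → ℂ, (∑ y, ((u y : ℤ) : ℂ) * G y) / G 1 =
      ∑ c : L1 ⧸ ι.range, (∑ x : Q, ((u (c.out * ι x) : ℤ) : ℂ) * G (c.out * ι x)) / G 1 := by
    intro G
    rw [← Finset.sum_div]
    congr 1
    rw [← Fintype.sum_prod_type' (f := fun (c : L1 ⧸ ι.range) (x : Q) =>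
      ((u (c.out * ι x) : ℤ) : ℂ) * G (c.out * ι x))]
    symm
    refine Fintype.sum_bijective (fun x : (L1 ⧸ ι.range) × Q => x.1.out * ι x.2) ⟨?_, ?_⟩ _ _
      (fun x => rfl)
    · rintro ⟨c, x⟩ ⟨c', x'⟩ hxx
      have h1 : c.out * ι x = c'.out * ι x' := hxx
      have h2 : c = c' := by
        have h3 : (QuotientGroup.mk (c.out * ι x) : L1 ⧸ ι.range) = c := by
          rw [QuotientGroup.mk_mul_of_mem _ (show ι x ∈ ι.range from ⟨x, rfl⟩)]
          exact Quotient.out_eq' c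
        have h4 : (QuotientGroup.mk (c'.out * ι x') : L1 ⧸ ι.range) = c' := by
          rw [QuotientGroup.mk_mul_of_mem _ (show ι x' ∈ ι.range from ⟨x', rfl⟩)]
          exact Quotient.out_eq' c'
        rw [← h3, ← h4, h1]
      subst h2
      have h3 := mul_left_cancel h1
      rw [hld.ιi h3]
    · intro y
      have h1 : (QuotientGroup.mk ((QuotientGroup.mk y : L1 ⧸ ι.range).out) : L1 ⧸ ι.range) =
          QuotientGroup.mk y := Quotient.out_eq' _
      obtain ⟨x, hx⟩ := QuotientGroup.eq.mp h1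
      refine ⟨(QuotientGroup.mk y, x), ?_⟩
      change (QuotientGroup.mk y : L1 ⧸ ι.range).out * ι x = y
      rw [hx]
      group
  -- the terms
  have hterm : ∀ (T : Subgroup K1) (G : L1 → ℂ), IrrOn (T.comap q) (fun x => G (ι x)) →
      Ov π1 μ1 G → ∀ (z : π1.ker) (x0 : Q),
      (∑ x : Q, ((u (z * ι x0 * ι x) : ℤ) : ℂ) * G (z * ι x0 * ι x)) / G 1 =
        ((μ1 z : ℂˣ) : ℂ) * ((∑ x, ((u (z * ι x) : ℤ) : ℂ) * G (ι x)) / G 1) := by
    intro T G hG hoG z x0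
    rw [← mul_div_assoc, Finset.mul_sum]
    congr 1
    refine Fintype.sum_equiv (Equiv.mulLeft x0) _ _ fun x => ?_
    have h1 : (z : L1) * ι x0 * ι x = z * ι (x0 * x) := by rw [map_mul, mul_assoc]
    change _ = ((μ1 z : ℂˣ) : ℂ) * (((u (z * ι (x0 * x)) : ℤ) : ℂ) * G (ι (x0 * x)))
    rw [h1, hoG z (ι (x0 * x))]
    ring
  have hw : ∀ z : π1.ker, CIv ⊤ (fun x : Q => u (z * ι x)) := by
    intro z a _ x
    change u (z * ι (a * x * a⁻¹)) = u (z * ι x)
    have h1 : (z : L1) * ι (a * x * a⁻¹) = ι a * (z * ι x) * (ι a)⁻¹ := by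
      rw [map_mul, map_mul, map_inv]
      have h := zcomm hld z (ι a)
      calc (z : L1) * (ι a * ι x * (ι a)⁻¹) = (z * ι a) * ι x * (ι a)⁻¹ := by group
        _ = (ι a * z) * ι x * (ι a)⁻¹ := by rw [h]
        _ = _ := by group
    rw [h1, hu (ι a)]
    rw [Subgroup.mem_comap, hld.πι]
    exact ⟨a, rfl⟩
  have hμ : ∀ z : π1.ker, IsIntegral ℤ ((μ1 z : ℂˣ) : ℂ) := by
    intro z
    have h1 : ((μ1 z : ℂˣ) : ℂ) ^ Nat.card π1.ker = 1 := by
      rw [← Units.val_pow_eq_pow_val, ← map_pow, pow_card_eq_one', map_one, Units.val_one]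
    refine IsIntegral.of_pow (n := Nat.card π1.ker) Nat.card_pos ?_
    rw [h1]
    exact isIntegral_one
  have hcase : ∀ c : L1 ⧸ ι.range,
      (∃ (z : π1.ker) (x0 : Q), c.out = z * ι x0) ∨ ∀ x : Q, u (c.out * ι x) = 0 := by
    intro c
    by_cases hc : π1 c.out ∈ q.range
    · left
      exact mem_range hld hc
    · right
      intro x
      apply hus
      intro h1
      apply hc
      have h2 : π1 (c.out * ι x) ∈ q.range := h1
      rw [map_mul, hld.πι] at h2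
      have h3 := q.range.mul_mem h2 (q.range.inv_mem ⟨x, rfl⟩)
      rwa [mul_inv_cancel_right] at h3
  have hI : ∀ (T : Subgroup K1) (G : L1 → ℂ), IrrOn (T.comap q) (fun x => G (ι x)) →
      Ov π1 μ1 G → ∀ c : L1 ⧸ ι.range,
      IsIntegral ℤ ((∑ x : Q, ((u (c.out * ι x) : ℤ) : ℂ) * G (c.out * ι x)) / G 1) := by
    intro T G hG hoG c
    rcases hcase c with ⟨z, x0, hc⟩ | hc
    · rw [hc, hterm T G hG hoG]
      exact (hμ z).mul (hint T G hG _ (hw z))
    · have : (∑ x : Q, ((u (c.out * ι x) : ℤ) : ℂ) * G (c.out * ι x)) / G 1 = 0 := by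
        rw [Finset.sum_eq_zero, zero_div]
        intro x _
        rw [hc x, Int.cast_zero, zero_mul]
      rw [this]
      exact isIntegral_zero
  rw [sc, sc, hdec F, hdec F', red_sum 𝔐 _ _ (fun c _ => hI S F hF ho c),
    red_sum 𝔐 _ _ (fun c _ => hI S' F' hF' ho' c)]
  refine Finset.sum_congr rfl fun c _ => ?_
  rcases hcase c with ⟨z, x0, hc⟩ | hc
  · rw [hc, hterm S F hF ho, hterm S' F' hF' ho',
      red_mul 𝔐 (hμ z) (hint S F hF _ (hw z)), red_mul 𝔐 (hμ z) (hint S' F' hF' _ (hw z))]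
    congr 1
    have h1 := h _ (hw z)
    rw [sc, sc] at h1
    simp only [map_one] at h1
    exact h1
  · have h0 : ∀ G : L1 → ℂ,
        (∑ x : Q, ((u (c.out * ι x) : ℤ) : ℂ) * G (c.out * ι x)) / G 1 = 0 := by
      intro G
      rw [Finset.sum_eq_zero, zero_div]
      intro x _
      rw [hc x, Int.cast_zero, zero_mul]
    rw [h0, h0]

end

end DWN

end Pool.Agent.DPG
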