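import Mathlib
import Pool.Agent.DPG.StmtsB
import Pool.Agent.DPG.NPT
import Pool.Agent.DPG.WDB
import Pool.Agent.DPG.DWNA

/-!
# DWN: every pair of `L` of a closed chain is conjugate to a pair which belongs to a pair of `L1`
-/

set_option autoImplicit false

namespace Pool.Agent.DPG

open Pool.Agent.DP Pool.Agent.DPC Pool.Agent.DPM Pool.Agent.DPN Pool.Agent.DPF
  Pool.Agent.DPK Pool.Agent.Lib_helper13 Representation
open Pool.Agent.Lib_helper13.Dade (pCore DadeHolds dadeSum)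

namespace DWN

section

variable {L K : Type} [Group L] [Fintype L] [Group K] {π : L →* K}

theorem mem_AL {N S : Subgroup K} {x : L} : x ∈ AL π N S ↔ π x ∈ N ∧ π x ∈ S := by
  rw [Subgroup.mem_comap, Subgroup.mem_inf]

/-- An extension lies over the same linear character. -/
theorem ov_ext (hπc : π.ker ≤ Subgroup.center L) {μ : π.ker →* ℂˣ} {N M S : Subgroup K}
    {F f : L → ℂ} (hF : EF π N M S F) (hf : ∀ x ∈ AL π N S, F x = f x) (ho : Ov π μ f) :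
    Ov π μ F := by
  classical
  haveI : Fintype ↥(AL π M S) := Fintype.ofFinite _
  intro z x
  have hzc : ∀ g : L, (z : L) * g = g * z := fun g =>
    ((Subgroup.mem_center_iff.mp (hπc z.2)) g).symm
  have hz : ∀ N' : Subgroup K, (z : L) ∈ AL π N' S := by
    intro N'
    rw [mem_AL, MonoidHom.mem_ker.mp z.2]
    exact ⟨N'.one_mem, S.one_mem⟩
  have h1 : ∀ N' : Subgroup K, (1 : L) ∈ AL π N' S := fun N' => (AL π N' S).one_mem
  obtain ⟨c, hc⟩ := TWN.central hF.irr.1 (z := ⟨z, hz M⟩) (fun g => Subtype.ext (hzc g))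
  have h2 : F z = c * F 1 := by
    have h3 := hc 1
    change F ((z : L) * 1) = c * F 1 at h3
    rwa [mul_one] at h3
  have h4 : F z = ((μ z : ℂˣ) : ℂ) * F 1 := by
    rw [hf _ (hz N), hf _ (h1 N)]
    have h5 := ho z 1
    rwa [mul_one] at h5
  have h6 : F 1 ≠ 0 := hF.irr.1.one_ne_zero
  have h7 : c = ((μ z : ℂˣ) : ℂ) := mul_right_cancel₀ h6 (h2.symm.trans h4)
  by_cases hx : x ∈ AL π M S
  · rw [← h7]
    exact hc ⟨x, hx⟩
  · rw [hF.irr.2 x hx, hF.irr.2, mul_zero]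
    intro h8
    apply hx
    have h9 := (AL π M S).mul_mem ((AL π M S).inv_mem (hz M)) h8
    rwa [inv_mul_cancel_left] at h9

/-- Conjugation of an extension. -/
theorem ef_conj {N M S : Subgroup K} [hNn : N.Normal] [hMn : M.Normal] {F : L → ℂ}
    (hF : EF π N M S F) (t : L) (ht : π t ∈ S) : EF π N M S (fun x => F (t * x * t⁻¹)) := by
  have hN0 : ∀ (N' : Subgroup K), N'.Normal → ∀ t ∈ S.comap π, ∀ a,
      a ∈ AL π N' S ↔ t * a * t⁻¹ ∈ AL π N' S := by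
    intro N' hN' t ht a
    rw [Subgroup.mem_comap] at ht
    rw [mem_AL, mem_AL, map_mul, map_mul, map_inv]
    constructor
    · rintro ⟨h1, h2⟩
      exact ⟨hN'.conj_mem _ h1 _, S.mul_mem (S.mul_mem ht h2) (S.inv_mem ht)⟩
    · rintro ⟨h1, h2⟩
      constructor
      · have := hN'.conj_mem _ h1 (π t)⁻¹
        have e : (π t)⁻¹ * (π t * π a * (π t)⁻¹) * (π t)⁻¹⁻¹ = π a := by group
        rwa [e] at this
      · have := S.mul_mem (S.mul_mem (S.inv_mem ht) h2) ht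
        have e : (π t)⁻¹ * (π t * π a * (π t)⁻¹) * π t = π a := by group
        rwa [e] at this
  refine ⟨⟨?_, ?_⟩, ?_, hF.cov⟩
  · exact hF.irr.1.comp_mulEquiv
      (NPT.cj (AL π M S) (S.comap π) (hN0 M hMn) ⟨t, ht⟩)
  · intro x hx
    exact hF.irr.2 _ fun h => hx ((hN0 M hMn t ht x).mpr h)
  · exact hF.res.comp_mulEquiv
      (NPT.cj (AL π N S) (S.comap π) (hN0 N hNn) ⟨t, ht⟩)

/-- The scalars of a multiple. -/
theorem sc_smul (𝔐 : Ideal (integralClosure ℤ ℂ)) {F G : L → ℂ} {c : ℂ} (hc : c ≠ 0)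
    (h : ∀ x, F x = c * G x) (u : L → ℤ) : sc 𝔐 F u = sc 𝔐 G u := by
  rw [sc, sc]
  congr 1
  have h1 : ∑ x, ((u x : ℤ) : ℂ) * F x = c * ∑ x, ((u x : ℤ) : ℂ) * G x := by
    rw [Finset.mul_sum]
    refine Finset.sum_congr rfl fun x _ => ?_
    rw [h x]
    ring
  rw [h1, h 1, mul_div_mul_left _ _ hc]

/-- The scalars of a conjugate. -/
theorem sc_cj (𝔐 : Ideal (integralClosure ℤ ℂ)) {F : L → ℂ} (t : L) (u : L → ℤ) :
    sc 𝔐 (fun x => F (t * x * t⁻¹)) u = sc 𝔐 F (fun x => u (t⁻¹ * x * t)) := by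
  rw [sc, sc]
  have h0 : F (t * 1 * t⁻¹) = F 1 := by
    rw [mul_one, mul_inv_cancel]
  rw [h0]
  congr 2
  refine Fintype.sum_equiv (MulAut.conj t).toEquiv _ _ fun x => ?_
  have h3 : (MulAut.conj t).toEquiv x = t * x * t⁻¹ := rfl
  rw [h3]
  have h4 : t⁻¹ * (t * x * t⁻¹) * t = x := by group
  rw [h4]

/-- Conjugation of an invariant function. -/
theorem civ_conj {S : Subgroup L} (hS : S.Normal) {u : L → ℤ} (hu : CIv S u) (t : L) :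
    CIv S (fun x => u (t⁻¹ * x * t)) := by
  intro s hs x
  have h1 := hu (t⁻¹ * s * t⁻¹⁻¹) (hS.conj_mem s hs t⁻¹) (t⁻¹ * x * t)
  change u (t⁻¹ * (s * x * s⁻¹) * t) = u (t⁻¹ * x * t)
  rw [← h1]
  congr 1
  group

end

end DWN

open DWN in
/-- DWN: every pair of `L` of a closed chain is conjugate to a pair which belongs to a pair
of `L1`. -/
theorem DWN_thm (h1 : Stmt_NPT) (h2 : Stmt_CLS) (h3 : Stmt_CJN) (h4 : Stmt_CJS)
    (h5 : Stmt_CST) (h6 : Stmt_LMT) (h7 : Stmt_TNA) (h8 : Stmt_RIX) (h9 : Stmt_RIY)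
    (h10 : Stmt_ZEX) (h11 : Stmt_BEM) (h12 : Stmt_CMB) : Stmt_DWN := by
  classical
  intro L K K1 Q L1 Ω _ _ _ _ _ _ _ _ _ _ _ _ 𝔐 ℓ _ hmax hℓ π μ φ q α ε μQ π1 μ1 ι M M1 σr Fr ζ
    R ω θr hTPr hθr hSTB hSPP σ θ hσ hClo hθ
  haveI hNn : (NN' π ε).Normal := WDB.normal_NN R.wd
  haveI hqn : q.range.Normal := WDB.normal_range R.wd
  haveI hMn : M.Normal := R.mm.nm
  haveI hM1n : M1.Normal := R.mm.nm1
  obtain ⟨-, -, hCST⟩ := h5 L K K1 Q Ω ℓ π μ φ q α ε μQ R.wd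
  -- the restriction to `N`
  obtain ⟨f, e, he, hf, hfo, hsj, hfi, hθf, ⟨f0, hf0⟩, hsc⟩ :=
    h1 L K 𝔐 ℓ hmax hℓ π R.wd.πs R.wd.πc μ (NN' π ε) M R.mm.le ω hSTB hSPP σ θ hσ hθ
  obtain ⟨n, σ1, f1, hσ1, hσe, hf1, hf1o, hsj1, hf1i, hTF⟩ :=
    h2 L K K1 Q Ω ℓ π μ φ q α ε μQ R.wd σ f hσ hClo hf hfo hsj hfi
  obtain ⟨hC1, -⟩ := hCST σ1 hσ1
  obtain ⟨hCr, -⟩ := hCST σr R.ch
  -- the conjugate
  have hstb : (stb σ).map (MulAut.conj (π (ε n)⁻¹)).toMonoidHom =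
      stb (cstC φ (NN' π ε) σ1) := by
    obtain ⟨e1, e2, -⟩ := h4 K ℓ M (π (ε n))⁻¹ (π (ε n)) (cstC φ (NN' π ε) σ1)
    obtain ⟨-, -, -, e4, -⟩ := h4 K ℓ M (π (ε n)⁻¹) 1 σ
    rw [← e4, hσe, map_inv, ← e2, inv_mul_cancel, e1]
  have hθ1 : BPs 𝔐 π μ M ω (stb (cstC φ (NN' π ε) σ1)) (cjF (ε n)⁻¹ θ) := by
    rw [← hstb]
    exact (h3 L K 𝔐 π R.wd.πs R.wd.πc μ M (ε n)⁻¹ (stb σ) θ).1 ω hθ
  -- values on `N`
  have hval : ∀ (σ' : Finset (Subgroup K)) (θ' f' : L → ℂ) (e' : ℕ),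
      IrrOn (AL π M (stb σ')) θ' → IrrOn (AL π (NN' π ε) (stb σ')) f' →
      (∀ x ∈ AL π (NN' π ε) (stb σ'), θ' x = e' * f' x) →
      ∀ x, π x ∈ NN' π ε → θ' x = e' * f' x := by
    intro σ' θ' f' e' hθ' hf' h x hx
    by_cases hxs : π x ∈ stb σ'
    · exact h x (mem_AL.mpr ⟨hx, hxs⟩)
    · rw [hθ'.2 x fun h => hxs (mem_AL.mp h).2, hf'.2 x fun h => hxs (mem_AL.mp h).2, mul_zero]
  have hθ1v : ∀ m : Ω → Q, cjF (ε n)⁻¹ θ (ε m) = e * ∏ o, f1 (m o) := by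
    intro m
    rw [← hTF.1 m]
    refine hval σ θ f e hθ.irr hf hθf _ ?_
    rw [inv_inv, ← map_inv, ← map_mul, ← map_mul]
    exact WDB.πε_mem R.wd _
  -- the reference pair
  obtain ⟨f', e', he', hf', hfo', hsj', hfi', hθf', -, hsc'⟩ :=
    h1 L K 𝔐 ℓ hmax hℓ π R.wd.πs R.wd.πc μ (NN' π ε) M R.mm.le ω hSTB hSPP
      (cstC φ (NN' π ε) σr) θr hCr hθr
  have hFr0 : ∀ x, q x ∉ stb σr → Fr (ι x) = 0 := by
    intro x hx
    refine R.ef.irr.2 _ fun h => hx ?_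
    rw [← R.ld.πι]
    exact (mem_AL.mp h).2
  obtain ⟨hFrι, hFrιo⟩ := restr R.ld (stb σr) R.ef.res hFr0 R.ov
  obtain ⟨F'', hF'', -, hTF''⟩ := (h7 L K K1 Q Ω π μ φ q α ε μQ R.wd (fun _ => stb σr)).1
    (fun _ x => Fr (ι x)) (fun _ => ⟨hFrι, hFrιo⟩)
  have hθrv : ∀ m : Ω → Q, (e' : ℂ) * f' (ε m) = ζ 1 * ∏ o, Fr (ι (m o)) := by
    intro m
    rw [← hval _ θr f' e' hθr.irr hf' hθf' _ (WDB.πε_mem R.wd m)]
    have h13 := hTPr.2 (dY ε ι m) (WDB.dY_mem_MY R.wd R.ld R.mm.le m)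
    have h14 := R.zt.d m 1
    rw [one_mul] at h14
    rw [h14] at h13
    rw [mul_comm]
    exact h13
  have hec : (e' : ℂ) ≠ 0 := Nat.cast_ne_zero.mpr he'
  have hζ1 : ζ 1 ≠ 0 := by
    intro h0
    have h13 := hθrv 1
    rw [h0, zero_mul, map_one] at h13
    rcases mul_eq_zero.mp h13 with h14 | h14
    · exact hec h14
    · exact hf'.1.one_ne_zero h14
  have hf'F : ∀ x, f' x = (ζ 1 / e') * F'' x := by
    intro x
    by_cases hx : x ∈ ε.range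
    · obtain ⟨m, rfl⟩ := hx
      rw [hTF''.1 m, div_mul_eq_mul_div, eq_div_iff hec, ← hθrv m]
      ring
    · rw [hTF''.2 x hx, mul_zero]
      refine hf'.2 x fun h => hx ?_
      obtain ⟨m, hm⟩ := (WDB.mem_comap_NN R.wd).mp (mem_AL.mp h).1
      exact ⟨m, hm⟩
  have hsc2 : ∀ u : L → ℤ, CIv ((NN' π ε).comap π) u → SOn ((NN' π ε).comap π : Set L) u →
      sc 𝔐 (cjF (ε n)⁻¹ f) u = sc 𝔐 F'' u := by
    intro u hu hus
    have e1 : sc 𝔐 (cjF (ε n)⁻¹ f) u = sc 𝔐 f u := by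
      have h13 := sc_cj 𝔐 (F := f) (ε n) u
      have h14 : (fun x => f (ε n * x * (ε n)⁻¹)) = cjF (ε n)⁻¹ f := by
        funext x
        rw [cjF, inv_inv]
      have h15 : (fun x => u ((ε n)⁻¹ * x * ε n)) = u := by
        funext x
        have h16 := hu (ε n)⁻¹ (Subgroup.inv_mem _ (WDB.πε_mem R.wd n)) x
        rwa [inv_inv] at h16
      rw [h14, h15] at h13
      exact h13
    rw [e1, hsc f0 hf0 u hu hus, ← hsc' f0 hf0 u hu hus,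
      sc_smul 𝔐 (div_ne_zero hζ1 hec) hf'F u]
  have hscQ := (h6 L K K1 Q Ω 𝔐 ℓ hmax hℓ π μ φ q α ε μQ R.wd (fun _ => stb σ1)
    (fun _ => stb σr) (fun _ => f1) (fun _ x => Fr (ι x)) (cjF (ε n)⁻¹ f) F''
    (fun _ => ⟨hf1, hf1o⟩) (fun _ => ⟨hFrι, hFrιo⟩) hTF hTF'').mpr hsc2
  -- transfer to `L1`
  obtain ⟨fh, hfh, hfho, hfhι⟩ := transfer R.ld (stb σ1) hf1 hf1o
  have hfhf : (fun x => fh (ι x)) = f1 := funext hfhι
  have hsc3 : ∀ u : L1 → ℤ, CIv (q.range.comap π1) u → SOn (q.range.comap π1 : Set L1) u →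
      sc 𝔐 fh u = sc 𝔐 Fr u := by
    intro u hu hus
    refine sc_eq hmax R.ld (S := stb σ1) (S' := stb σr) (by rw [hfhf]; exact hf1) hfho hFrι
      R.ov (fun w hw => ?_) u hu hus
    rw [hfhf]
    exact hscQ (Classical.arbitrary Ω) w hw
  obtain ⟨-, -, F1, hEF1, hF1f, hF1s⟩ := h8 L1 K1 𝔐 ℓ hmax hℓ π1 R.ld.s R.ld.c q.range M1
    R.mm.le1 R.mm.cop1 σr Fr R.ch R.ef R.sup σ1 fh hσ1 hfh hsc3
  have hF1o : Ov π1 μ1 F1 := ov_ext R.ld.c hEF1 hF1f hfho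
  have hF1ι : ∀ x, F1 (ι x) = f1 x := by
    intro x
    by_cases hx : q x ∈ stb σ1
    · rw [hF1f _ (mem_AL.mpr ⟨by rw [R.ld.πι]; exact ⟨x, rfl⟩, by rw [R.ld.πι]; exact hx⟩),
        hfhι]
    · rw [hf1.2 x hx, hEF1.irr.2]
      intro h
      apply hx
      rw [← R.ld.πι]
      exact (mem_AL.mp h).2
  have hF1v : ∀ (z : π1.ker) (x : Q), F1 (z * ι x) = ((μ1 z : ℂˣ) : ℂ) * f1 x := by
    intro z x
    rw [hF1o z (ι x), hF1ι]
  -- the invariance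
  have hqc : (q.range.comap π1).Normal := inferInstance
  have hSUP1 : SUP 𝔐 π1 q.range M1 F1 := by
    intro x hx
    obtain ⟨u, hu, hus, hne⟩ := R.sup x hx
    refine ⟨u, hu, hus, ?_⟩
    rw [hF1s u hu]
    exact hne
  have hF1i : ∀ t, π1 t ∈ stb σ1 → ∀ x, F1 (t * x * t⁻¹) = F1 x := by
    intro t ht x
    have hEFt := ef_conj hEF1 t ht
    have h13 := h9 L1 K1 𝔐 ℓ hmax hℓ π1 R.ld.s R.ld.c q.range M1 R.mm.le1 R.mm.cop1 (stb σ1)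
      F1 (fun x => F1 (t * x * t⁻¹)) hEF1 hEFt (by
        intro y hy
        obtain ⟨z, w, rfl⟩ := mem_range R.ld (mem_AL.mp hy).1
        have h14 : t * (z * ι w) * t⁻¹ = z * ι (α (π1 t) w) := by
          rw [R.ld.ια]
          have h15 := zcomm R.ld z t
          calc t * (z * ι w) * t⁻¹ = (t * z) * ι w * t⁻¹ := by group
            _ = (z * t) * ι w * t⁻¹ := by rw [h15]
            _ = _ := by group
        change F1 (z * ι w) = F1 (t * (z * ι w) * t⁻¹)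
        rw [h14, hF1v, hF1v, hf1i (π1 t) ht w]) hSUP1 (by
        intro u hu
        rw [sc_cj 𝔐 t u, hF1s u hu, hF1s _ (civ_conj hqc hu t)]
        have h14 := BEM.sc_conj (𝔐 := 𝔐) R.ld.s R.sj R.iv hu t⁻¹
        rw [inv_inv] at h14
        exact h14.symm)
    exact (congrFun h13 x).symm
  have hBPs1 : BPs 𝔐 π1 μ1 M1 (cg 𝔐 Fr) (stb σ1) F1 := by
    refine ⟨hEF1.irr, hF1o, fun g _ => ?_, ?_, hF1i⟩
    · rw [BEM.cg_eq, BEM.cg_eq, hF1s]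
      intro s _ x
      exact BEM.cI_conj g s x
    · rw [eq_top_iff, ← hsj1]
      exact sup_le_sup_right R.mm.le1 _
  -- the quotient
  obtain ⟨ζ1, hZ1, hTP1⟩ := h10 L K K1 Q L1 Ω ℓ π μ φ q α ε μQ π1 μ1 ι M M1 R.wd R.ld R.mm
    σ1 F1 hσ1 hEF1 hF1o (cjF (ε n)⁻¹ θ) e hθ1.irr hθ1.ovl (by
      intro m
      rw [hθ1v m]
      congr 1
      exact Finset.prod_congr rfl fun o _ => (hF1ι (m o)).symm)
  have hBEM := h11 L K 𝔐 ℓ hmax hℓ π R.wd.πs R.wd.πc μ M ω (cstC φ (NN' π ε) σr)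
    (cstC φ (NN' π ε) σ1) θr (cjF (ε n)⁻¹ θ) ⟨hCr.1, fun D hD => (hCr.2 D hD).trans R.mm.le⟩
    ⟨hC1.1, fun D hD => (hC1.2 D hD).trans R.mm.le⟩ hθr hθ1
  have hζζ : ζ = ζ1 := h12 L K K1 Q L1 Ω 𝔐 ℓ hmax hℓ π μ φ q α ε μQ π1 μ1 ι M M1 R.wd R.ld
    R.mm (stb σr) (stb σ1) Fr F1 R.ef hEF1 R.ov hF1o R.sup (fun u hu => (hF1s u hu).symm)
    ζ ζ1 R.zt hZ1 (stb (cstC φ (NN' π ε) σr)) (stb (cstC φ (NN' π ε) σ1)) θr
    (cjF (ε n)⁻¹ θ) hθr.irr hθ1.irr hTPr hTP1 hBEM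
  refine ⟨n, σ1, F1, ⟨hσ1.1, fun D hD => (hσ1.2 D hD).trans R.mm.le1⟩, hBPs1, hσe, ?_⟩
  rw [hζζ]
  exact hTP1

end Pool.Agent.DPG
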