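import Mathlib
import Pool.Agent.DPG.StmtsB
import Pool.Agent.DPG.WDB
import Pool.Agent.DPM.TWF
import Pool.Agent.DPN.RDA

/-!
# EDK: the extensions of the products: the character of the fibre product
-/

namespace Pool.Agent.DPG

open Pool.Agent.DP Pool.Agent.DPC Pool.Agent.DPM Pool.Agent.DPN Pool.Agent.DPF
  Pool.Agent.Lib_helper13 Representation

namespace EDK

/-! ### Characters -/

/-- A character which is constant on the cosets of a normal subgroup is a character of the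
quotient. -/
theorem deflate {B G : Type} [Group B] [Finite B] [Group G] (f : B →* G)
    (hf : Function.Surjective f) (X : B → ℂ) (hX : IsChr X)
    (h : ∀ k x, f k = 1 → X (k * x) = X x) : ∃ Y : G → ℂ, IsChr Y ∧ ∀ b, Y (f b) = X b := by
  classical
  obtain ⟨n, ρ, hρ⟩ := hX
  have hX1 : ∀ k, f k = 1 → X k = (n : ℂ) := by
    intro k hk
    rw [← mul_one k, h k 1 hk, ← hρ, char_one]
    simp
  let _ : Fintype f.ker := Fintype.ofFinite _
  let σ : Representation ℂ f.ker (Fin n → ℂ) := ρ.comp f.ker.subtype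
  have h1 : (Module.finrank ℂ σ.invariants : ℂ) = (n : ℂ) := by
    rw [← card_inv_mul_sum_char_eq_finrank σ]
    have h2 : ∀ g : f.ker, σ.character g = (n : ℂ) := by
      intro g
      rw [← hX1 (g : B) (MonoidHom.mem_ker.mp g.2), ← hρ]
      rfl
    rw [Finset.sum_congr rfl fun g _ => h2 g, Finset.sum_const, nsmul_eq_mul, Finset.card_univ,
      ← Nat.card_eq_fintype_card, ← mul_assoc, inv_mul_cancel₀ natCard_ne_zero, one_mul]
  have h2 : σ.invariants = ⊤ := by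
    apply Submodule.eq_top_of_finrank_eq
    rw [Module.finrank_fin_fun]
    exact_mod_cast h1
  have h3 : ∀ k, f k = 1 → ρ k = 1 := by
    intro k hk
    refine LinearMap.ext fun v => ?_
    have h4 : v ∈ σ.invariants := by
      rw [h2]
      exact Submodule.mem_top
    exact h4 ⟨k, MonoidHom.mem_ker.mpr hk⟩
  have h4 : ∀ b b', f b = f b' → ρ b = ρ b' := by
    intro b b' hb
    have h5 : ρ (b * b'⁻¹) = 1 := h3 _ (by rw [map_mul, map_inv, hb, mul_inv_cancel])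
    have h6 : b = b * b'⁻¹ * b' := by rw [inv_mul_cancel_right]
    rw [h6, map_mul, h5, one_mul]
  choose s hs using hf
  let τ : Representation ℂ G (Fin n → ℂ) :=
    { toFun := fun g => ρ (s g)
      map_one' := h3 _ (hs 1)
      map_mul' := fun g g' => by
        rw [← map_mul]
        exact h4 _ _ (by rw [map_mul, hs, hs, hs]) }
  refine ⟨τ.character, ⟨n, τ, rfl⟩, fun b => ?_⟩
  rw [← hρ]
  change LinearMap.trace ℂ (Fin n → ℂ) (ρ (s (f b))) = LinearMap.trace ℂ (Fin n → ℂ) (ρ b)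
  rw [h4 _ _ (hs (f b))]

/-- A central element of a group on which the character is irreducible acts as a scalar. -/
theorem scal {A Γ : Type} [Group A] [Finite A] [Group Γ] (e : A →* Γ) {θ : A → ℂ} {E : Γ → ℂ}
    (hθ : IsIrr θ) (hE : IsChr E) (hr : ∀ a, E (e a) = θ a) (x : A)
    (hx : ∀ a, x * a = a * x) {c : ℂ} (hc : c * θ x = θ 1) (γ : Γ) :
    c * E (e x * γ) = E γ := by
  classical
  let _ : Fintype A := Fintype.ofFinite _
  obtain ⟨n, ρ, hρ⟩ := hE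
  have hσc : (RDA.res e ρ).character = θ := by
    funext a
    rw [← hr, ← hρ]
    rfl
  have hσ : (RDA.res e ρ).IsIrreducible := by
    apply irreducible_of_sum
    rw [hσc]
    exact hθ.sum_self
  obtain ⟨s, hs⟩ := exists_scalar (RDA.res e ρ) hσ (ρ (e x)) (by
    intro a v
    change (ρ (e x) * ρ (e a)) v = (ρ (e a) * ρ (e x)) v
    rw [← map_mul, ← map_mul, ← map_mul, ← map_mul, hx])
  have htr : LinearMap.trace ℂ (Fin n → ℂ) (LinearMap.id : (Fin n → ℂ) →ₗ[ℂ] (Fin n → ℂ)) =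
      (n : ℂ) := by
    rw [LinearMap.trace_id]
    simp
  have hθ1 : θ 1 = (n : ℂ) := by
    rw [← hσc, char_one]
    simp
  have h1 : θ x = s * n := by
    rw [← hr, ← hρ]
    change LinearMap.trace ℂ (Fin n → ℂ) (ρ (e x)) = _
    rw [hs, map_smul, htr, smul_eq_mul]
  have hn : (n : ℂ) ≠ 0 := by
    rw [← hθ1]
    exact hθ.one_ne_zero
  have h2 : c * s = 1 := by
    rw [h1, hθ1, ← mul_assoc] at hc
    exact mul_right_cancel₀ hn (by rw [hc, one_mul])
  rw [← hρ]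
  change c * LinearMap.trace ℂ (Fin n → ℂ) (ρ (e x * γ)) = _
  rw [map_mul, hs, smul_mul_assoc, map_smul, smul_eq_mul, ← mul_assoc, h2, one_mul]
  rfl

/-! ### The groups -/

set_option linter.unusedSectionVars false

section Grp

variable {L K H K1 H1 Q L1 W1 Ω : Type} [Group L] [Group K] [Group H] [Group K1] [Group H1]
  [Group Q] [Group L1] [Group W1] [Fintype Ω]

/-- The projection of the fibre product to `H`. -/
def pY (π : L →* K) (φ : K →* Gam (Equiv.Perm Ω) Ω K1) (π1 : L1 →* K1) (p : K →* H) :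
    YY π φ π1 →* H :=
  (p.comp π).comp (ffst (φ.comp π) (gmap Ω π1))

theorem pY_apply (π : L →* K) (φ : K →* Gam (Equiv.Perm Ω) Ω K1) (π1 : L1 →* K1) (p : K →* H)
    (y : YY π φ π1) : pY π φ π1 p y = p (π (y : L × Gam (Equiv.Perm Ω) Ω L1).1) := rfl

theorem clg {T : Type} [Group T] (p : T →* H) : ClG p.ker.subtype
    (MulAut.conjNormal : T →* MulAut p.ker) p where
  inj := Subtype.val_injective
  act := fun _ _ => rfl
  ker := by
    intro y
    constructor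
    · intro h
      exact ⟨⟨y, MonoidHom.mem_ker.mpr h⟩, rfl⟩
    · rintro ⟨a, rfl⟩
      exact MonoidHom.mem_ker.mp a.2

/-- The homomorphism induced by `φ` on the quotients. -/
theorem exists_bar {ℓ : ℕ} {π : L →* K} {φ : K →* Gam (Equiv.Perm Ω) Ω K1} {q : Q →* K1}
    {ε : (Ω → Q) →* L} {M : Subgroup K} {M1 : Subgroup K1} (hm : MM ℓ π φ q ε M M1)
    {p : K →* H} (hp : Function.Surjective p) (hpM : ∀ k, p k = 1 ↔ k ∈ M) {p1 : K1 →* H1}
    (hpM1 : ∀ k, p1 k = 1 ↔ k ∈ M1) :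
    ∃ φb : H →* Gam (Equiv.Perm Ω) Ω H1, ∀ k, φb (p k) = gmap Ω p1 (φ k) := by
  have h1 : ∀ k, p k = 1 → gmap Ω p1 (φ k) = 1 := by
    intro k hk
    have hk' := (hpM k).mp hk
    refine WDB.ext' (hm.r k hk') fun o => ?_
    exact (hpM1 _).mpr (hm.l k hk' o)
  have h2 : ∀ k k', p k = p k' → gmap Ω p1 (φ k) = gmap Ω p1 (φ k') := by
    intro k k' hk
    have h3 := h1 (k * k'⁻¹) (by rw [map_mul, map_inv, hk, mul_inv_cancel])
    rw [map_mul, map_mul, map_inv, map_inv] at h3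
    exact mul_inv_eq_one.mp h3
  choose s hs using hp
  let φb : H →* Gam (Equiv.Perm Ω) Ω H1 :=
    { toFun := fun h => gmap Ω p1 (φ (s h))
      map_one' := h1 _ (hs 1)
      map_mul' := fun h h' => by
        rw [← map_mul, ← map_mul]
        exact h2 _ _ (by rw [hs, map_mul, hs, hs]) }
  exact ⟨φb, fun k => h2 _ _ (hs _)⟩

/-- The element of the kernel which belongs to an element of `MY`. -/
def toA {π : L →* K} {φ : K →* Gam (Equiv.Perm Ω) Ω K1} {π1 : L1 →* K1} {p : K →* H}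
    {M : Subgroup K} (hpM : ∀ k, p k = 1 ↔ k ∈ M) (x : L × Gam (Equiv.Perm Ω) Ω L1)
    (hx : x ∈ MY π φ π1 M) : (pY π φ π1 p).ker :=
  ⟨⟨x, hx.1⟩, MonoidHom.mem_ker.mpr ((hpM _).mpr hx.2)⟩

theorem mem_of_ker {π : L →* K} {φ : K →* Gam (Equiv.Perm Ω) Ω K1} {π1 : L1 →* K1} {p : K →* H}
    {M : Subgroup K} (hpM : ∀ k, p k = 1 ↔ k ∈ M) (a : (pY π φ π1 p).ker) :
    ((a : YY π φ π1) : L × Gam (Equiv.Perm Ω) Ω L1) ∈ MY π φ π1 M :=
  ⟨a.1.2, (hpM _).mp (MonoidHom.mem_ker.mp a.2)⟩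

/-- The restriction of `ζ` to the kernel. -/
theorem irr_ker {π : L →* K} {φ : K →* Gam (Equiv.Perm Ω) Ω K1} {π1 : L1 →* K1} {p : K →* H}
    {M : Subgroup K} [Finite L] [Finite L1] (hpM : ∀ k, p k = 1 ↔ k ∈ M)
    {ζ : L × Gam (Equiv.Perm Ω) Ω L1 → ℂ} (hζ : IrrOn (MY π φ π1 M) ζ) :
    IsIrr (fun a : (pY π φ π1 p).ker => ζ ((a : YY π φ π1) : L × Gam (Equiv.Perm Ω) Ω L1)) := by
  classical
  let _ : Fintype (MY π φ π1 M) := Fintype.ofFinite _
  let eq : (pY π φ π1 p).ker ≃* MY π φ π1 M :=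
    { toFun := fun a => ⟨_, mem_of_ker hpM a⟩
      invFun := fun x => toA hpM x.1 x.2
      left_inv := fun a => rfl
      right_inv := fun x => rfl
      map_mul' := fun a b => rfl }
  exact hζ.1.comp_mulEquiv eq

end Grp

/-! ### The character -/

section Edb

variable {L K H K1 H1 Q L1 W1 Ω : Type} [Group L] [Group K] [Group H] [Group K1] [Group H1]
  [Group Q] [Group L1] [Group W1] [Fintype Ω]

/-- The extension of the product. -/
theorem edb {Γ L0 W : Type} [Group Γ] [Finite Γ] [Group L0] [Group W] [Finite W]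
    [Finite L] [Finite L1] {ℓ : ℕ} {π : L →* K} {φ : K →* Gam (Equiv.Perm Ω) Ω K1} {q : Q →* K1}
    {ε : (Ω → Q) →* L} {α : K1 →* MulAut Q} {μQ : q.ker →* ℂˣ} {ι : Q →* L1}
    {M : Subgroup K} {M1 : Subgroup K1} (hm : MM ℓ π φ q ε M M1) {π1 : L1 →* K1}
    {μ1 : π1.ker →* ℂˣ} (h1 : LD q α μQ π1 μ1 ι)
    {p : K →* H} (hpM : ∀ k, p k = 1 ↔ k ∈ M) {p1 : K1 →* H1} {πW1 : W1 →* H1}
    {ζ : L × Gam (Equiv.Perm Ω) Ω L1 → ℂ} (hζ : ZT π φ π1 μ1 ε ι M ζ)
    {e : (pY π φ π1 p).ker →* Γ} {q0 : Γ →* L0} {r0 : Γ →* YY π φ π1} {E0 : Γ → ℂ}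
    {U0 : Subgroup L0} {μ' : U0 →* ℂˣ} {π0 : L0 →* H}
    (tw : TWD (pY π φ π1 p).ker.subtype (pY π φ π1 p)
      (fun a : (pY π φ π1 p).ker => ζ ((a : YY π φ π1) : L × Gam (Equiv.Perm Ω) Ω L1))
      e q0 r0 E0 U0 μ' π0)
    {fW : W →* L0} {πW : W →* H} {ψ : W →* Gam (Equiv.Perm Ω) Ω W1}
    (hW1 : ∀ w, π0 (fW w) = πW w)
    (hW2 : ∀ w k, πW w = p k → gmap Ω πW1 (ψ w) = gmap Ω p1 (φ k))
    {S : Subgroup K} {S1 : Subgroup K1} (hS : ∀ k ∈ S, ∀ o, (φ k).left o ∈ S1)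
    {F : L1 → ℂ} {ν1 : πW1.ker →* ℂˣ} {θ : L → ℂ} (hθ : TP π φ π1 M F ζ θ)
    {E : Gam (Equiv.Perm Ω) Ω L1 × Gam (Equiv.Perm Ω) Ω W1 → ℂ}
    (hE1 : ∀ (B : Type) [Group B] [Finite B]
        (h : B →* Gam (Equiv.Perm Ω) Ω L1 × Gam (Equiv.Perm Ω) Ω W1),
        (∀ b, gmap Ω (p1.comp π1) (h b).1 = gmap Ω πW1 (h b).2 ∧
          ∀ o, π1 ((h b).1.left o) ∈ S1) → IsChr (fun b => E (h b)))
    (hE2 : ∀ g : Gam (Equiv.Perm Ω) Ω L1, g.right = 1 → (∀ o, π1 (g.left o) ∈ M1 ⊓ S1) →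
        E (g, 1) = ∏ o, F (g.left o))
    (hE3 : ∀ (z : Ω → π1.ker) (a : Ω → πW1.ker) (g : Gam (Equiv.Perm Ω) Ω L1)
        (w : Gam (Equiv.Perm Ω) Ω W1), gmap Ω (p1.comp π1) g = gmap Ω πW1 w →
        (∀ o, π1 (g.left o) ∈ S1) →
        (∏ o, ((ν1 (a o) : ℂˣ) : ℂ)) *
          E (gin (fun o => (z o : L1)) * g, gin (fun o => (a o : W1)) * w) =
        (∏ o, ((μ1 (z o) : ℂˣ) : ℂ)) * E (g, w))
    {ν : πW.ker →* ℂˣ}
    (hν : ∀ (a : πW.ker) (h0 : fW (a : W) ∈ U0) (h : ∀ o, (ψ (a : W)).left o ∈ πW1.ker),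
      ν a = μ' ⟨fW (a : W), h0⟩ * ∏ o, ν1 ⟨(ψ (a : W)).left o, h o⟩) :
    EDb π p M πW S θ ν := by
  classical
  have hC := clg (pY π φ π1 p)
  -- the group
  let B : Subgroup (Γ × W) := fpr q0 fW ⊓
    ((S.comap (π.comp (ffst (φ.comp π) (gmap Ω π1)))).comap r0).comap (MonoidHom.fst Γ W)
  have hB1 : ∀ b : B, q0 (b : Γ × W).1 = fW (b : Γ × W).2 := fun b => b.2.1
  have hB2 : ∀ b : B, π (r0 (b : Γ × W).1 : L × Gam (Equiv.Perm Ω) Ω L1).1 ∈ S :=
    fun b => b.2.2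
  have hB3 : ∀ b : B, p (π (r0 (b : Γ × W).1 : L × Gam (Equiv.Perm Ω) Ω L1).1) =
      πW (b : Γ × W).2 := by
    intro b
    rw [← pY_apply, ← tw.πq, hB1, hW1]
  have hB4 : ∀ b : B, gmap Ω (p1.comp π1) (r0 (b : Γ × W).1 : L × Gam (Equiv.Perm Ω) Ω L1).2 =
      gmap Ω πW1 (ψ (b : Γ × W).2) := by
    intro b
    rw [hW2 _ _ (hB3 b).symm, WDB.mem_YY.mp (r0 (b : Γ × W).1).2]
    rfl
  have hB5 : ∀ (b : B) o,
      π1 ((r0 (b : Γ × W).1 : L × Gam (Equiv.Perm Ω) Ω L1).2.left o) ∈ S1 := by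
    intro b o
    rw [← WDB.YY_left (r0 (b : Γ × W).1).2]
    exact hS _ (hB2 b) o
  -- the homomorphisms
  let f : B →* GS π p πW S :=
    { toFun := fun b => ⟨((r0 (b : Γ × W).1 : L × Gam (Equiv.Perm Ω) Ω L1).1, (b : Γ × W).2),
        hB2 b, hB3 b⟩
      map_one' := by
        refine Subtype.ext (Prod.ext ?_ rfl)
        change (r0 1 : L × Gam (Equiv.Perm Ω) Ω L1).1 = 1
        rw [map_one]
        rfl
      map_mul' := by
        intro a b
        refine Subtype.ext (Prod.ext ?_ rfl)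
        change (r0 ((a : Γ × W).1 * (b : Γ × W).1) : L × Gam (Equiv.Perm Ω) Ω L1).1 = _
        rw [map_mul]
        rfl }
  let g : B →* Gam (Equiv.Perm Ω) Ω L1 × Gam (Equiv.Perm Ω) Ω W1 :=
    { toFun := fun b => ((r0 (b : Γ × W).1 : L × Gam (Equiv.Perm Ω) Ω L1).2, ψ (b : Γ × W).2)
      map_one' := by
        refine Prod.ext ?_ ?_
        · change (r0 1 : L × Gam (Equiv.Perm Ω) Ω L1).2 = 1
          rw [map_one]
          rfl
        · exact map_one ψ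
      map_mul' := by
        intro a b
        refine Prod.ext ?_ ?_
        · change (r0 ((a : Γ × W).1 * (b : Γ × W).1) : L × Gam (Equiv.Perm Ω) Ω L1).2 = _
          rw [map_mul]
          rfl
        · exact map_mul ψ _ _ }
  have hf : Function.Surjective f := by
    rintro ⟨⟨t, w⟩, ht, htw⟩
    obtain ⟨y, hy⟩ := WDB.exists_YY (φ := φ) (π := π) h1 t
    obtain ⟨γ, hγ, hγ'⟩ := RDA.exists_g hC tw (t := ⟨(t, y), hy⟩) (l := fW w) (by
      rw [pY_apply, hW1]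
      exact htw)
    refine ⟨⟨(γ, w), hγ', ?_⟩, ?_⟩
    · change π (r0 γ : L × Gam (Equiv.Perm Ω) Ω L1).1 ∈ S
      rw [hγ]
      exact ht
    · refine Subtype.ext (Prod.ext ?_ rfl)
      change (r0 γ : L × Gam (Equiv.Perm Ω) Ω L1).1 = t
      rw [hγ]
  -- the character
  have hX : IsChr (fun b : B => E (g b) * E0 (b : Γ × W).1) :=
    (hE1 B g fun b => ⟨hB4 b, hB5 b⟩).mul
      (tw.Ec.comp ((MonoidHom.fst Γ W).comp B.subtype))
  have hinv : ∀ k x : B, f k = 1 →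
      E (g (k * x)) * E0 ((k * x : B) : Γ × W).1 = E (g x) * E0 (x : Γ × W).1 := by
    intro k x hk
    have hk1 : (r0 (k : Γ × W).1 : L × Gam (Equiv.Perm Ω) Ω L1).1 = 1 :=
      congrArg (fun y : GS π p πW S => (y : L × W).1) hk
    have hk2 : (k : Γ × W).2 = 1 := congrArg (fun y : GS π p πW S => (y : L × W).2) hk
    obtain ⟨a, ha⟩ := (tw.qk (k : Γ × W).1).mp (by rw [hB1, hk2, map_one])
    have ha1 : r0 (k : Γ × W).1 = (a : YY π φ π1) := by
      rw [← ha]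
      exact tw.re a
    rw [ha1] at hk1
    obtain ⟨z, hz⟩ := WDB.fst_eq_one (a : YY π φ π1).2 hk1
    have h2 : E (g (k * x)) = E (gin (fun o => (z o : L1)) *
        (r0 (x : Γ × W).1 : L × Gam (Equiv.Perm Ω) Ω L1).2,
        gin (fun _ => ((1 : πW1.ker) : W1)) * ψ (x : Γ × W).2) := by
      rw [map_mul g k x]
      change E (((r0 (k : Γ × W).1 : L × Gam (Equiv.Perm Ω) Ω L1).2) *
        (r0 (x : Γ × W).1 : L × Gam (Equiv.Perm Ω) Ω L1).2, ψ (k : Γ × W).2 * ψ (x : Γ × W).2) = _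
      rw [ha1, hz, hk2, map_one]
      rfl
    have h3 := hE3 z (fun _ => 1) _ _ (hB4 x) (hB5 x)
    rw [← h2] at h3
    have h4 : ∏ o : Ω, ((ν1 ((fun _ => 1 : Ω → πW1.ker) o) : ℂˣ) : ℂ) = 1 :=
      Finset.prod_eq_one fun o _ => by
        change ((ν1 1 : ℂˣ) : ℂ) = 1
        rw [map_one, Units.val_one]
    rw [h4, one_mul] at h3
    have h5 := scal e (irr_ker hpM hζ.irr) tw.Ec tw.Ee a (by
      intro a'
      refine Subtype.ext (Subtype.ext ?_)
      change ((a : YY π φ π1) : L × Gam (Equiv.Perm Ω) Ω L1) *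
        ((a' : YY π φ π1) : L × Gam (Equiv.Perm Ω) Ω L1) =
        ((a' : YY π φ π1) : L × Gam (Equiv.Perm Ω) Ω L1) *
        ((a : YY π φ π1) : L × Gam (Equiv.Perm Ω) Ω L1)
      rw [hz]
      exact WDB.z_comm h1 hm (mem_of_ker hpM a') z) (c := ∏ o, ((μ1 (z o) : ℂˣ) : ℂ)) (by
      have h6 := hζ.z z 1
      rw [mul_one, ← hz] at h6
      exact h6) (x : Γ × W).1
    rw [ha] at h5
    have h6 : ((k * x : B) : Γ × W).1 = (k : Γ × W).1 * (x : Γ × W).1 := rfl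
    rw [h6, h3, mul_assoc, mul_left_comm, h5]
    rfl
  obtain ⟨Y, hY, hYf⟩ := deflate f hf _ hX hinv
  refine ⟨fun x => if h : x ∈ GS π p πW S then Y ⟨x, h⟩ else 0, ?_, ?_, ?_, ?_⟩
  · have h2 : (fun x : GS π p πW S =>
        if h : (x : L × W) ∈ GS π p πW S then Y ⟨(x : L × W), h⟩ else 0) = Y :=
      funext fun x => dif_pos x.2
    rw [h2]
    exact hY
  · intro x hx
    exact dif_neg hx
  · intro a haM haS
    obtain ⟨y, hy⟩ := WDB.exists_YY (φ := φ) (π := π) h1 a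
    have hx : (a, y) ∈ MY π φ π1 M := ⟨hy, haM⟩
    let a' : (pY π φ π1 p).ker := toA hpM (a, y) hx
    have hr : r0 (e a') = ⟨(a, y), hy⟩ := tw.re a'
    have hq : q0 (e a') = fW 1 := by
      rw [map_one]
      exact (tw.qk _).mpr ⟨a', rfl⟩
    let b : B := ⟨(e a', 1), hq, by
      change π (r0 (e a') : L × Gam (Equiv.Perm Ω) Ω L1).1 ∈ S
      rw [hr]
      exact haS⟩
    have hmem : (a, (1 : W)) ∈ GS π p πW S :=
      ⟨haS, by
        change p (π a) = πW 1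
        rw [map_one]
        exact (hpM _).mpr haM⟩
    have hb : f b = ⟨(a, 1), hmem⟩ := by
      refine Subtype.ext (Prod.ext ?_ rfl)
      change (r0 (e a') : L × Gam (Equiv.Perm Ω) Ω L1).1 = a
      rw [hr]
    have h2 : (fun x => if h : x ∈ GS π p πW S then Y ⟨x, h⟩ else 0) (a, (1 : W)) =
        Y ⟨(a, 1), hmem⟩ := dif_pos hmem
    rw [h2, ← hb, hYf]
    have h3 : g b = (y, 1) := by
      refine Prod.ext ?_ (map_one ψ)
      change (r0 (e a') : L × Gam (Equiv.Perm Ω) Ω L1).2 = y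
      rw [hr]
    have h4 : E0 (b : Γ × W).1 = ζ (a, y) := tw.Ee a'
    rw [h3, h4, hE2 y (WDB.MY_right hm hx), hθ.2 _ hx]
    intro o
    refine ⟨WDB.MY_left hm hx o, ?_⟩
    rw [← WDB.YY_left hy]
    exact hS _ haS o
  · intro z t w
    have hz := MonoidHom.mem_ker.mp z.2
    have hiff : (t, (z : W) * w) ∈ GS π p πW S ↔ (t, w) ∈ GS π p πW S := by
      change (π t ∈ S ∧ p (π t) = πW (z * w)) ↔ (π t ∈ S ∧ p (π t) = πW w)
      rw [map_mul, hz, one_mul]
    by_cases h : (t, w) ∈ GS π p πW S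
    · have h' := hiff.mpr h
      obtain ⟨b, hb⟩ := hf ⟨(t, w), h⟩
      have h2 : (fun x => if h : x ∈ GS π p πW S then Y ⟨x, h⟩ else 0) (t, w) =
          Y ⟨(t, w), h⟩ := dif_pos h
      have h2' : (fun x => if h : x ∈ GS π p πW S then Y ⟨x, h⟩ else 0) (t, (z : W) * w) =
          Y ⟨(t, (z : W) * w), h'⟩ := dif_pos h'
      have hU : fW (z : W) ∈ U0 := by
        rw [← tw.πk, hW1, hz]
      obtain ⟨γ1, hγ1, hγ1'⟩ := TWF.exists_z hC tw hU
      have hr : r0 (γ1 * (b : Γ × W).1) = r0 (b : Γ × W).1 := by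
        rw [map_mul, hγ1, one_mul]
      let b' : B := ⟨(γ1 * (b : Γ × W).1, (z : W) * (b : Γ × W).2), by
        change q0 (γ1 * (b : Γ × W).1) = fW ((z : W) * (b : Γ × W).2)
        rw [map_mul, map_mul, hγ1', hB1], by
        change π (r0 (γ1 * (b : Γ × W).1) : L × Gam (Equiv.Perm Ω) Ω L1).1 ∈ S
        rw [hr]
        exact hB2 b⟩
      have hb1 : (r0 (b : Γ × W).1 : L × Gam (Equiv.Perm Ω) Ω L1).1 = t :=
        congrArg (fun y : GS π p πW S => (y : L × W).1) hb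
      have hb2 : (b : Γ × W).2 = w := congrArg (fun y : GS π p πW S => (y : L × W).2) hb
      have hb' : f b' = ⟨(t, (z : W) * w), h'⟩ := by
        refine Subtype.ext (Prod.ext ?_ ?_)
        · change (r0 (γ1 * (b : Γ × W).1) : L × Gam (Equiv.Perm Ω) Ω L1).1 = t
          rw [hr, hb1]
        · change (z : W) * (b : Γ × W).2 = z * w
          rw [hb2]
      rw [h2, h2', ← hb, ← hb', hYf, hYf]
      have h3 : gmap Ω πW1 (ψ (z : W)) = 1 := by
        rw [hW2 _ 1 (by rw [hz, map_one]), map_one, map_one]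
      have h4 : (ψ (z : W)).right = 1 := by
        rw [← WDB.gmap_right πW1, h3]
        rfl
      have h5 : ∀ o, (ψ (z : W)).left o ∈ πW1.ker := by
        intro o
        rw [MonoidHom.mem_ker, ← WDB.gmap_left, h3]
        rfl
      have h6 : g b' = (gin (fun _ => ((1 : π1.ker) : L1)) * (g b).1,
          gin (fun o => (((⟨(ψ (z : W)).left o, h5 o⟩ : πW1.ker)) : W1)) * (g b).2) := by
        refine Prod.ext ?_ ?_
        · change (r0 (γ1 * (b : Γ × W).1) : L × Gam (Equiv.Perm Ω) Ω L1).2 =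
            1 * (r0 (b : Γ × W).1 : L × Gam (Equiv.Perm Ω) Ω L1).2
          rw [hr, one_mul]
        · change ψ ((z : W) * (b : Γ × W).2) = gin (ψ (z : W)).left * ψ (b : Γ × W).2
          rw [map_mul, ← WDB.eq_gin h4]
      have h7 := hE3 (fun _ => 1) (fun o => ⟨(ψ (z : W)).left o, h5 o⟩) _ _ (hB4 b) (hB5 b)
      have h8 : ∏ o : Ω, ((μ1 ((fun _ => 1 : Ω → π1.ker) o) : ℂˣ) : ℂ) = 1 :=
        Finset.prod_eq_one fun o _ => by
          change ((μ1 1 : ℂˣ) : ℂ) = 1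
          rw [map_one, Units.val_one]
      rw [h8, one_mul] at h7
      have h9 : (∏ o, ((ν1 ⟨(ψ (z : W)).left o, h5 o⟩ : ℂˣ) : ℂ)) * E (g b') = E (g b) := by
        rw [h6]
        exact h7
      have h10 := tw.El γ1 (b : Γ × W).1 (by rw [hγ1']; exact hU) hγ1
      have h11 : (⟨q0 γ1, by rw [hγ1']; exact hU⟩ : U0) = ⟨fW (z : W), hU⟩ :=
        Subtype.ext hγ1'
      rw [h11] at h10
      rw [hν z hU h5, ← h9, ← h10, Units.val_mul, Units.coe_prod]
      change _ * _ * (E (g b') * E0 (γ1 * (b : Γ × W).1)) = _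
      ring
    · have h' := fun h0 => h (hiff.mp h0)
      have h2 : (fun x => if h : x ∈ GS π p πW S then Y ⟨x, h⟩ else 0) (t, w) = 0 := dif_neg h
      have h2' : (fun x => if h : x ∈ GS π p πW S then Y ⟨x, h⟩ else 0) (t, (z : W) * w) = 0 :=
        dif_neg h'
      rw [h2, h2', mul_zero]

end Edb

end EDK

end Pool.Agent.DPG
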