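import Mathlib
import Pool.Agent.DPG.EDKA
import Pool.Agent.DPM.TWC

/-!
# EDK: the extensions of the products
-/

namespace Pool.Agent.DPG

open Pool.Agent.DP Pool.Agent.DPC Pool.Agent.DPM Pool.Agent.DPN Pool.Agent.DPF
  Pool.Agent.Lib_helper13 Representation

open EDK in
/-- **EDK** -/
theorem EDK_thm (hTIE : Stmt_TIE) (hCST : Stmt_CST) : Stmt_EDK := by
  classical
  intro L K H K1 H1 Q L1 W1 Ω _ _ _ _ _ _ _ _ _ _ _ _ _ _ _ _ _ _ 𝔐 ℓ _ h𝔐 hℓ π μ φ q α ε μQ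
    π1 μ1 ι M M1 σr Fr ζ hR p hp hpM p1 hp1 hpM1 πW1 hπW1 hcW1
  obtain ⟨φb, hφb⟩ := exists_bar hR.mm hp hpM hpM1
  -- the twisted group
  let _ : Fintype (YY π φ π1) := Fintype.ofFinite _
  let _ : Fintype (pY π φ π1 p).ker := Fintype.ofFinite _
  have hC := clg (pY π φ π1 p)
  have hpY : Function.Surjective (pY π φ π1 p) := by
    intro h
    obtain ⟨k, rfl⟩ := hp h
    obtain ⟨l, rfl⟩ := hR.wd.πs k
    obtain ⟨y, hy⟩ := WDB.exists_YY (φ := φ) (π := π) hR.ld l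
    exact ⟨⟨(l, y), hy⟩, rfl⟩
  obtain ⟨Γ, L0, iΓ, fΓ, iL0, fL0, e, q0, r0, E0, U0, μ', π0, tw⟩ :=
    TWC_thm (pY π φ π1 p).ker (YY π φ π1) H (pY π φ π1 p).ker.subtype
      (MulAut.conjNormal : YY π φ π1 →* MulAut (pY π φ π1 p).ker) (pY π φ π1 p) hC hpY
      (fun a : (pY π φ π1 p).ker => ζ ((a : YY π φ π1) : L × Gam (Equiv.Perm Ω) Ω L1))
      (irr_ker hpM hR.zt.irr) (fun t a => hR.zi _ t.2 _)
  let _ : Group Γ := iΓ
  let _ : Fintype Γ := fΓ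
  let _ : Group L0 := iL0
  let _ : Fintype L0 := fL0
  -- the group
  let W : Subgroup (L0 × Gam (Equiv.Perm Ω) Ω W1) := fpr (φb.comp π0) (gmap Ω πW1)
  let _ : Fintype W := Fintype.ofFinite _
  let fW : W →* L0 := ffst (φb.comp π0) (gmap Ω πW1)
  let πW : W →* H := π0.comp fW
  let ψ : W →* Gam (Equiv.Perm Ω) Ω W1 := fsnd (φb.comp π0) (gmap Ω πW1)
  have hU : ∀ a : πW.ker, fW (a : W) ∈ U0 := by
    intro a
    rw [← tw.πk]
    exact MonoidHom.mem_ker.mp a.2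
  let μ0 : πW.ker →* ℂˣ :=
    { toFun := fun a => μ' ⟨fW (a : W), hU a⟩
      map_one' := by
        rw [← map_one μ']
        congr 1
      map_mul' := by
        intro a b
        rw [← map_mul μ']
        congr 1 }
  have hP2 : ∀ w k, πW w = p k → gmap Ω πW1 (ψ w) = gmap Ω p1 (φ k) := by
    intro w k hw
    rw [← hφb, ← hw]
    exact (mem_fpr.mp w.2).symm
  have hP3 : ∀ g k, gmap Ω πW1 g = gmap Ω p1 (φ k) → ∃ w, πW w = p k ∧ ψ w = g := by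
    intro g k hg
    obtain ⟨l0, hl0⟩ := tw.πs (p k)
    refine ⟨⟨(l0, g), ?_⟩, hl0, rfl⟩
    change φb (π0 l0) = gmap Ω πW1 g
    rw [hl0, hφb, hg]
  refine ⟨W, inferInstance, inferInstance, πW, ψ, μ0, ?_, hP2, hP3, ?_⟩
  · intro h
    obtain ⟨k, rfl⟩ := hp h
    obtain ⟨g, hg⟩ := WDB.gmap_surj (Ω := Ω) hπW1 (gmap Ω p1 (φ k))
    obtain ⟨w, hw, _⟩ := hP3 g k hg
    exact ⟨w, hw⟩
  intro σ F ν1 θ hσ hF hov hEDb hTP
  obtain ⟨E, hE1, hE2, hE3⟩ := hTIE L K H K1 H1 Q L1 W1 Ω ℓ π μ φ q α ε μQ π1 μ1 ι M M1 hR.wd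
    hR.ld hR.mm p1 hp1 hpM1 πW1 hπW1 hcW1 (stb σ) F ν1 hF.irr hov hEDb
  obtain ⟨_, _, hC3⟩ := hCST L K K1 Q Ω ℓ π μ φ q α ε μQ hR.wd
  obtain ⟨_, _, _, hS, _⟩ := hC3 σ hσ
  -- the linear character
  have hk : ∀ (a : πW.ker), gmap Ω πW1 (ψ (a : W)) = 1 := by
    intro a
    rw [hP2 _ 1 (by rw [map_one]; exact MonoidHom.mem_ker.mp a.2), map_one, map_one]
  have hkl : ∀ (a : πW.ker) o, (ψ (a : W)).left o ∈ πW1.ker := by
    intro a o
    rw [MonoidHom.mem_ker, ← WDB.gmap_left, hk a]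
    rfl
  have hkr : ∀ (a : πW.ker), (ψ (a : W)).right = 1 := by
    intro a
    rw [← WDB.gmap_right πW1, hk a]
    rfl
  let ν' : πW.ker →* ℂˣ :=
    { toFun := fun a => ∏ o, ν1 ⟨(ψ (a : W)).left o, hkl a o⟩
      map_one' := by
        refine Finset.prod_eq_one fun o _ => ?_
        rw [← map_one ν1]
        congr 1
      map_mul' := by
        intro a b
        rw [← Finset.prod_mul_distrib]
        refine Finset.prod_congr rfl fun o _ => ?_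
        rw [← map_mul ν1]
        congr 1
        refine Subtype.ext ?_
        change (ψ ((a : W) * (b : W))).left o = (ψ (a : W)).left o * (ψ (b : W)).left o
        rw [map_mul, WDB.mul_left, hkr a]
        rfl }
  refine ⟨μ0 * ν', fun a h => rfl, ?_⟩
  exact edb hR.mm hR.ld hpM (p1 := p1) (πW1 := πW1) hR.zt tw (fW := fW) (πW := πW) (ψ := ψ)
    (fun w => rfl) hP2 (S1 := stb σ) (fun k hk => (hS k).mp hk) hTP hE1 hE2 hE3
    (fun a h0 h => rfl)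

end Pool.Agent.DPG
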