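import Mathlib
import Pool.Agent.DPG.StmtsA
import Pool.Agent.DPN.Base

/-!
# IRC: characters of the normal subgroup in the block of a character of the stabilizer of a chain
-/

set_option autoImplicit false

namespace Pool.Agent.DPG

open Pool.Agent.DP Pool.Agent.DPC Pool.Agent.DPM Pool.Agent.DPN Pool.Agent.DPF
  Pool.Agent.Lib_helper13 Representation
open Pool.Agent.Lib_helper13.Dade (pCore DadeHolds dadeSum)

namespace IRC

section

variable {L : Type} [Group L] [Fintype L] {𝔐 : Ideal (integralClosure ℤ ℂ)}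

/-- The scalar of a function supported on a subgroup. -/
theorem sc_sub (S : Subgroup L) [Fintype S] {F : L → ℂ} (hF : ∀ x, x ∉ S → F x = 0)
    (u : L → ℤ) :
    sc 𝔐 F u = red 𝔐 (wt (fun s : S => F s) (fun s : S => ((u s : ℤ) : ℂ))) := by
  classical
  have h1 : ∑ x, ((u x : ℤ) : ℂ) * F x = ∑ s : S, ((u s : ℤ) : ℂ) * F s := by
    rw [← Finset.sum_filter_of_ne (p := fun x => x ∈ S)]
    · exact Finset.sum_subtype _ (by simp) _
    · intro x _ hx
      by_contra h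
      exact hx (by rw [hF x h, mul_zero])
  rw [sc, wt, h1]
  rfl

end

section

variable {Y X : Type} [Group Y] [Fintype Y] [Group X] {𝔐 : Ideal (integralClosure ℤ ℂ)}

/-- The central function at a central element. -/
theorem cen_central (i : Y →* X) (hi : Function.Injective i) (ψ : Y → ℂ) (z : Y)
    (hz : i z ∈ Subgroup.center X) : cen 𝔐 i ψ (i z) = red 𝔐 (ψ z / ψ 1) := by
  classical
  rw [cen, wt]
  congr 2
  rw [Finset.sum_eq_single z]
  · rw [conjInd_of (IsConj.refl _), one_mul]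
  · intro y _ hy
    rw [conjInd_of_not, zero_mul]
    intro hc
    obtain ⟨c, hc⟩ := isConj_iff.mp hc
    apply hy
    apply hi
    have h1 : c * i y = i z * c := by
      rw [← hc]
      group
    have h2 : c * i z = i z * c := Subgroup.mem_center_iff.mp hz c
    exact mul_left_cancel (h1.trans h2.symm)
  · intro h
    exact absurd (Finset.mem_univ _) h

end

/-- The elements of `ℓ`-power order of a central subgroup. -/
def tor {G : Type} [Group G] (ℓ : ℕ) (U : Subgroup G) (hU : U ≤ Subgroup.center G) :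
    Subgroup G where
  carrier := {g | g ∈ U ∧ ∃ k : ℕ, g ^ ℓ ^ k = 1}
  one_mem' := ⟨U.one_mem, 0, one_pow _⟩
  mul_mem' := by
    rintro a b ⟨ha, j, hj⟩ ⟨hb, k, hk⟩
    refine ⟨U.mul_mem ha hb, j + k, ?_⟩
    have hc : Commute a b := (Subgroup.mem_center_iff.mp (hU ha) b).symm
    rw [hc.mul_pow, pow_add, pow_mul, hj, one_pow, mul_comm (ℓ ^ j), pow_mul, hk, one_pow,
      one_mul]
  inv_mem' := by
    rintro a ⟨ha, j, hj⟩
    refine ⟨U.inv_mem ha, j, ?_⟩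
    rw [inv_pow, hj, inv_one]

theorem isPGroup_tor {G : Type} [Group G] (ℓ : ℕ) (U : Subgroup G)
    (hU : U ≤ Subgroup.center G) : IsPGroup ℓ (tor ℓ U hU) := by
  rintro ⟨g, hg, k, hk⟩
  exact ⟨k, Subtype.ext hk⟩

/-- Some power of exponent prime to `ℓ` is an `ℓ`-element. -/
theorem exists_pow {G : Type} [Group G] [Finite G] {ℓ : ℕ} [hp : Fact ℓ.Prime] (g : G) :
    ∃ m : ℕ, ¬ ℓ ∣ m ∧ ∃ k : ℕ, (g ^ m) ^ ℓ ^ k = 1 := by
  have h0 : orderOf g ≠ 0 := (orderOf_pos g).ne'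
  refine ⟨orderOf g / ℓ ^ (orderOf g).factorization ℓ, ?_, (orderOf g).factorization ℓ, ?_⟩
  · exact Nat.not_dvd_ordCompl hp.out h0
  · rw [← pow_mul, mul_comm, Nat.ordProj_mul_ordCompl_eq_self, pow_orderOf_eq_one]

end IRC

open IRC in
/-- IRC: characters of the normal subgroup in the block of a character of the stabilizer of a
chain. -/
theorem IRC_thm (h1 : Stmt_CHT) : Stmt_IRC := by
  classical
  intro L K _ _ _ _ 𝔐 ℓ _ hmax hℓ π hπ hπc μ M _ σ hσ G hG hGo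
  have := hmax.isPrime
  obtain ⟨Z, τ, -, -, hτ, -, hst⟩ := h1 L K ℓ π hπ hπc M σ hσ
  rw [mem_Ch] at hτ
  -- the two forms of the stabilizer
  let e : ↥(stb τ) ≃* ↥(AL π M (stb σ)) :=
    { toFun := fun s => ⟨((s : ↥(M.comap π)) : L), by
        rw [Subgroup.mem_comap, Subgroup.mem_inf]
        exact ⟨(s : ↥(M.comap π)).2, (hst s).mp s.2⟩⟩
      invFun := fun t => ⟨⟨(t : L), (Subgroup.mem_inf.mp (Subgroup.mem_comap.mp t.2)).1⟩,
        (hst _).mpr (Subgroup.mem_inf.mp (Subgroup.mem_comap.mp t.2)).2⟩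
      left_inv := fun s => rfl
      right_inv := fun t => rfl
      map_mul' := fun s t => rfl }
  have hψ : IsIrr (fun s : ↥(stb τ) => G ((s : ↥(M.comap π)) : L)) :=
    hG.1.comp_mulEquiv e
  have hm := exists_irr_of_chain 𝔐 hℓ hτ hψ
  obtain ⟨χ', hχ', hcχ'⟩ := exists_irr_of_mult 𝔐 hψ hm
  -- the kernel in the subgroup
  obtain ⟨U, hUdef⟩ : ∃ U : Subgroup ↥(M.comap π), U = π.ker.subgroupOf (M.comap π) :=
    ⟨_, rfl⟩
  have hUm : ∀ z : ↥(M.comap π), z ∈ U ↔ (z : L) ∈ π.ker := by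
    intro z
    rw [hUdef, Subgroup.mem_subgroupOf]
  have hU : U ≤ Subgroup.center ↥(M.comap π) := by
    intro z hz
    rw [Subgroup.mem_center_iff]
    intro g
    exact Subtype.ext (Subgroup.mem_center_iff.mp (hπc ((hUm z).mp hz)) g)
  let μU : U →* ℂˣ := μ.comp
    { toFun := fun z => ⟨((z : ↥(M.comap π)) : L), (hUm _).mp z.2⟩
      map_one' := rfl
      map_mul' := fun a b => rfl }
  have hμU : ∀ (z : U) (h : ((z : ↥(M.comap π)) : L) ∈ π.ker),
      μU z = μ ⟨((z : ↥(M.comap π)) : L), h⟩ := fun _ _ => rfl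
  -- the character over the restriction to the elements of `ℓ`-power order
  have hZc : tor ℓ U hU ≤ Subgroup.center ↥(M.comap π) := fun z hz => hU hz.1
  obtain ⟨χ, hχ, hχZ, hcχ⟩ := BTC_thm ↥(M.comap π) 𝔐 ℓ hmax hℓ (tor ℓ U hU) hZc
    (isPGroup_tor ℓ U hU) (μU.comp (Subgroup.inclusion (fun z hz => hz.1))) χ' hχ'
  have hcc : cen 𝔐 (MonoidHom.id ↥(M.comap π)) χ =
      cen 𝔐 (stb τ).subtype (fun s : ↥(stb τ) => G ((s : ↥(M.comap π)) : L)) :=
    hcχ.trans hcχ'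
  obtain ⟨ν, hν⟩ := BTC.exists_cc hU hχ
  have hχ1 : χ 1 ≠ 0 := hχ.one_ne_zero
  have hG1 : G 1 ≠ 0 := hψ.one_ne_zero
  have hsts : ∀ z ∈ U, z ∈ stb τ := by
    intro z hz
    rw [hst, MonoidHom.mem_ker.mp ((hUm z).mp hz)]
    exact Subgroup.one_mem _
  have hfo : ∀ (φ : U →* ℂˣ) (z : U), ∃ n : ℕ, 0 < n ∧ ((φ z : ℂˣ) : ℂ) ^ n = 1 := by
    intro φ z
    refine ⟨orderOf z, orderOf_pos z, ?_⟩
    rw [← Units.val_pow_eq_pow_val, ← map_pow, pow_orderOf_eq_one, map_one, Units.val_one]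
  have hint : ∀ (φ : U →* ℂˣ) (z : U), IsIntegral ℤ ((φ z : ℂˣ) : ℂ) := by
    intro φ z
    obtain ⟨n, hn, h⟩ := hfo φ z
    refine IsIntegral.of_pow hn ?_
    rw [h]
    exact isIntegral_one
  have hred : ∀ z : U, red 𝔐 ((ν z : ℂˣ) : ℂ) = red 𝔐 ((μU z : ℂˣ) : ℂ) := by
    intro z
    have e1 := congrFun hcc (z : ↥(M.comap π))
    have e2 := cen_central (𝔐 := 𝔐) (MonoidHom.id ↥(M.comap π)) (fun _ _ h => h) χ
      (z : ↥(M.comap π)) (hU z.2)
    have e3 := cen_central (𝔐 := 𝔐) (stb τ).subtype Subtype.val_injective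
      (fun s : ↥(stb τ) => G ((s : ↥(M.comap π)) : L)) ⟨z, hsts z z.2⟩ (hU z.2)
    have e4 : χ z / χ 1 = ((ν z : ℂˣ) : ℂ) := by
      have := hν z 1
      rw [mul_one] at this
      rw [this, mul_div_assoc, div_self hχ1, mul_one]
    have e5 : G ((z : ↥(M.comap π)) : L) / G 1 = ((μU z : ℂˣ) : ℂ) := by
      have := hGo ⟨((z : ↥(M.comap π)) : L), (hUm _).mp z.2⟩ 1
      rw [mul_one] at this
      rw [this, mul_div_assoc, div_self hG1, mul_one]
      rfl
    rw [e4] at e2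
    have e6 : cen 𝔐 (stb τ).subtype (fun s : ↥(stb τ) => G ((s : ↥(M.comap π)) : L))
        (z : ↥(M.comap π)) = red 𝔐 (G ((z : ↥(M.comap π)) : L) / G 1) := e3
    rw [e5] at e6
    exact e2.symm.trans (e1.trans e6)
  have hνμ : ∀ z : U, ν z = μU z := by
    intro z
    obtain ⟨m, hm, k, hk⟩ := exists_pow (ℓ := ℓ) (z : ↥(M.comap π))
    obtain ⟨κ, hκ⟩ : ∃ κ : U →* ℂˣ, κ = ν / μU := ⟨_, rfl⟩
    have hκ1 : κ z ^ m = 1 := by
      have hz : (z : ↥(M.comap π)) ^ m ∈ tor ℓ U hU := ⟨U.pow_mem z.2 m, k, hk⟩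
      have h2 := hχZ ⟨_, hz⟩ 1
      have h3 := hν (z ^ m) 1
      have h4 : ((ν (z ^ m) : ℂˣ) : ℂ) = ((μU (z ^ m) : ℂˣ) : ℂ) := by
        have h5 : ((ν (z ^ m) : ℂˣ) : ℂ) * χ 1 = ((μU (z ^ m) : ℂˣ) : ℂ) * χ 1 :=
          h3.symm.trans h2
        exact mul_right_cancel₀ hχ1 h5
      rw [← map_pow, hκ, MonoidHom.div_apply, Units.ext h4, div_self']
    have hκr : red 𝔐 ((κ z : ℂˣ) : ℂ) = 1 := by
      have h2 : ((κ z : ℂˣ) : ℂ) * ((μU z : ℂˣ) : ℂ) = ((ν z : ℂˣ) : ℂ) := by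
        rw [← Units.val_mul, hκ, MonoidHom.div_apply, div_mul_cancel]
      have h3 : red 𝔐 ((κ z : ℂˣ) : ℂ) * red 𝔐 ((μU z : ℂˣ) : ℂ) =
          red 𝔐 ((μU z : ℂˣ) : ℂ) := by
        rw [← red_mul 𝔐 (hint κ z) (hint μU z), h2, hred]
      have h4 : red 𝔐 ((μU z : ℂˣ) : ℂ) * red 𝔐 ((μU z⁻¹ : ℂˣ) : ℂ) = 1 := by
        rw [← red_mul 𝔐 (hint μU z) (hint μU z⁻¹), ← Units.val_mul, ← map_mul,
          mul_inv_cancel, map_one, Units.val_one, red_one]
      have h5 := congrArg (fun t => t * red 𝔐 ((μU z⁻¹ : ℂˣ) : ℂ)) h3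
      simp only [mul_assoc, h4, mul_one] at h5
      exact h5
    have h6 : ((κ z : ℂˣ) : ℂ) = 1 := by
      refine GALX.root_eq 𝔐 hℓ hm ?_ (one_pow m) ?_
      · rw [← Units.val_pow_eq_pow_val, hκ1, Units.val_one]
      · rw [hκr, red_one]
    have h7 : κ z = 1 := Units.ext h6
    rw [hκ, MonoidHom.div_apply, div_eq_one] at h7
    exact h7
  refine ⟨ext0 χ, ⟨?_, fun x hx => ext0_of_not_mem χ hx⟩, ?_, ?_⟩
  · have h2 : (fun s : ↥(M.comap π) => ext0 χ (s : L)) = χ := by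
      funext s
      exact ext0_of_mem χ s.2
    rw [h2]
    exact hχ
  · intro z x
    have hz : (z : L) ∈ M.comap π := by
      rw [Subgroup.mem_comap, MonoidHom.mem_ker.mp z.2]
      exact Subgroup.one_mem _
    by_cases hx : x ∈ M.comap π
    · rw [ext0_of_mem χ hx, ext0_of_mem χ ((M.comap π).mul_mem hz hx)]
      have h2 := hν ⟨⟨(z : L), hz⟩, (hUm _).mpr z.2⟩ ⟨x, hx⟩
      rw [hνμ] at h2
      exact h2
    · rw [ext0_of_not_mem χ hx, ext0_of_not_mem χ, mul_zero]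
      intro h
      exact hx (((M.comap π).mul_mem_cancel_left hz).mp h)
  · intro u hu _
    have h2 : (fun s : ↥(M.comap π) => ext0 χ (s : L)) = χ := by
      funext s
      exact ext0_of_mem χ s.2
    have hui : ∀ g x : ↥(M.comap π), ((u ((g * x * g⁻¹ : ↥(M.comap π)) : L) : ℤ) : ℂ) =
        ((u (x : L) : ℤ) : ℂ) := by
      intro g x
      have := hu g g.2 x
      simp only [Subgroup.coe_mul, Subgroup.coe_inv]
      rw [this]
    have e1 := red_wt_eq_pair 𝔐 (MonoidHom.id ↥(M.comap π)) hχ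
      (fun s => ((u (s : L) : ℤ) : ℂ)) hui
      (fun x => Pool.Agent.Lib_helper13.isIntegral_intCast _)
    have e2 := red_wt_eq_pair 𝔐 (stb τ).subtype hψ
      (fun s => ((u (s : L) : ℤ) : ℂ)) hui
      (fun x => Pool.Agent.Lib_helper13.isIntegral_intCast _)
    rw [sc_sub (M.comap π) (fun x hx => ext0_of_not_mem χ hx), h2,
      sc_sub (AL π M (stb σ)) hG.2]
    have e3 := wt_comp_equiv e (fun t : ↥(AL π M (stb σ)) => G t)
      (fun t : ↥(AL π M (stb σ)) => ((u (t : L) : ℤ) : ℂ))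
    rw [← e3]
    rw [hcc] at e1
    exact e1.trans e2.symm

end Pool.Agent.DPG
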