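import Mathlib
import Pool.Agent.DPG.StmtsB
import Pool.Agent.DPK.Stmts
import Pool.Agent.DPF.AllF

/-!
# LVT: the relations for the smaller group
-/

namespace Pool.Agent.DPG

open Pool.Agent.DP Pool.Agent.DPC Pool.Agent.DPM Pool.Agent.DPN Pool.Agent.DPF
  Pool.Agent.DPK Pool.Agent.Lib_helper13 Representation
open Pool.Agent.Lib_helper13.Dade (pCore DadeHolds dadeSum)

namespace LVT

open Classical in
/-- A choice of an element of a set of linear characters. -/
noncomputable def pick {X : Type} [Inhabited X] (S : Set X) : X :=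
  if h : S.Nonempty then h.choose else default

theorem pick_mem {X : Type} [Inhabited X] (S : Set X) (h : S.Nonempty) : pick S ∈ S := by
  unfold pick
  rw [dif_pos h]
  exact h.choose_spec

theorem map_conj_inv {K : Type} [Group K] (k : K) (S : Subgroup K) :
    (S.map (MulAut.conj k).toMonoidHom).map (MulAut.conj k⁻¹).toMonoidHom = S := by
  rw [Subgroup.map_map]
  have h : ((MulAut.conj k⁻¹).toMonoidHom).comp (MulAut.conj k).toMonoidHom =
      MonoidHom.id K := by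
    ext x
    simp [mul_assoc]
  rw [h, Subgroup.map_id]

theorem cjF_inv {L : Type} [Group L] (l : L) (f : L → ℂ) : cjF l⁻¹ (cjF l f) = f := by
  funext x
  unfold cjF
  congr 1
  group

theorem exists_chain {K : Type} [Group K] (M : Subgroup K) (σ : Finset (Subgroup K))
    (h : ∀ D ∈ σ, D ≤ M) : ∃ τ : Finset (Subgroup M), mapCh M.subtype τ = σ := by
  classical
  refine ⟨σ.image (fun D => D.subgroupOf M), ?_⟩
  ext E
  rw [mem_mapCh]
  constructor
  · rintro ⟨D, hD, rfl⟩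
    obtain ⟨D', hD', rfl⟩ := Finset.mem_image.mp hD
    rw [Subgroup.map_subgroupOf_eq_of_le (h D' hD')]
    exact hD'
  · intro hE
    exact ⟨E.subgroupOf M, Finset.mem_image_of_mem _ hE,
      Subgroup.map_subgroupOf_eq_of_le (h E hE)⟩

/-- The set of the linear characters over which a pair extends is invariant. -/
theorem set_inv (h4 : Stmt_CJN) {L K H W : Type} [Group L] [Fintype L] [Group K] [Fintype K]
    [Group H] [Group W] (𝔐 : Ideal (integralClosure ℤ ℂ)) (π : L →* K)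
    (hπ : Function.Surjective π) (hc : π.ker ≤ Subgroup.center L) (μ : π.ker →* ℂˣ)
    (M : Subgroup K) [M.Normal] (p : K →* H) (πW : W →* H) (l : L) (hl : p (π l) = 1)
    (S : Subgroup K) (f : L → ℂ) :
    {ν | EDb π p M πW (S.map (MulAut.conj (π l)).toMonoidHom) (cjF l f) ν} =
      {ν | EDb π p M πW S f ν} := by
  ext ν
  constructor
  · intro h
    have h1 := (h4 L K 𝔐 π hπ hc μ M l⁻¹ (S.map (MulAut.conj (π l)).toMonoidHom)
      (cjF l f)).2.2 H W p πW ν (by rw [map_inv, map_inv, hl, inv_one]) h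
    rw [map_inv, map_conj_inv, cjF_inv] at h1
    exact h1
  · intro h
    exact (h4 L K 𝔐 π hπ hc μ M l S f).2.2 H W p πW ν hl h

end LVT

theorem LVT_thm (Cl : ∀ (Y : Type) [Group Y], Prop) (h1 : Stmt_T2Ar Cl) (h2 : Stmt_BGA)
    (h3 : Stmt_BGB) (h4 : Stmt_CJN) : Stmt_LVT Cl := by
  classical
  intro L K H _ _ _ _ _ _ 𝔐 ℓ hℓ h𝔐 hℓ𝔐 π hπ hc μ M hM p hp hpM P hP hCl hHR ω hPos
  obtain ⟨W, gW, fW, πW, ν0, hs, hcW, hν0⟩ := all_COV L K H 𝔐 π hπ μ M p hp hpM ω
  have inh : Inhabited (πW.ker →* ℂˣ) := ⟨1⟩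
  let ν : Subgroup K → (L → ℂ) → (πW.ker →* ℂˣ) := fun S f =>
    LVT.pick {ν | EDb π p M πW S f ν}
  have hν : ∀ S f, (∃ ν', EDb π p M πW S f ν') → EDb π p M πW S f (ν S f) := by
    intro S f h
    exact LVT.pick_mem {ν | EDb π p M πW S f ν} h
  have hB := fun τ θ => h2 L K H W 𝔐 π hπ μ M p hp hpM ω τ θ
  have hPr : ∀ τ θ, PrU 𝔐 π μ p M ω τ θ →
      EDb π p M πW (stb (mapCh M.subtype τ)) (ext0 θ)
        (ν (stb (mapCh M.subtype τ)) (ext0 θ)) := by
    intro τ θ h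
    apply hν
    exact ⟨ν0 τ θ, ((hB τ θ).2 πW hs (ν0 τ θ) h).mp (hν0 τ θ h)⟩
  refine ⟨W, gW, fW, πW, ν, hs, hcW, ?_, ?_, ?_⟩
  · intro σ f hσ hf
    obtain ⟨τ, hτ⟩ := LVT.exists_chain M σ (fun D hD => hσ.2 D hD)
    subst hτ
    have h5 : (ext0 (fun s : ↥(SL π M τ M) => f s) : L → ℂ) = f := by
      funext x
      by_cases hx : x ∈ SL π M τ M
      · rw [ext0_of_mem _ hx]
      · rw [ext0_of_not_mem _ hx]
        exact (hf.irr.2 x hx).symm
    have h6 : PrU 𝔐 π μ p M ω τ (fun s : ↥(SL π M τ M) => f s) := by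
      apply (hB τ _).1.mpr
      rw [h5]
      exact hf
    have h7 := hPr τ _ h6
    rw [h5] at h7
    exact h7
  · intro l hl S f
    change LVT.pick _ = LVT.pick _
    rw [LVT.set_inv h4 𝔐 π hπ hc μ M p πW l ((hpM _).mpr hl) S f]
  · have h5 := (h3 L K H W 𝔐 ℓ π hπ μ M p hp hpM ω πW P ν).mp
      (h1 L K H W 𝔐 ℓ h𝔐 hℓ𝔐 π hπ hc μ M p hp hpM P hP hCl hHR ω hPos πW hs hcW _
        (fun τ θ h => ((hB τ θ).2 πW hs _ h).mpr (hPr τ θ h)))
    exact h5

end Pool.Agent.DPG
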