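import Mathlib
import Pool.Agent.DPG.StmtsB

/-!
# The group of the coordinates of the elements of a normal subgroup (module MMC)
-/

set_option linter.unusedSectionVars false

namespace Pool.Agent.DPG

open Pool.Agent.DP Pool.Agent.DPC Pool.Agent.DPM Pool.Agent.DPN Pool.Agent.DPF
  Pool.Agent.DPK Pool.Agent.Lib_helper13 Representation
open Pool.Agent.Lib_helper13.Dade (pCore DadeHolds dadeSum)

namespace MMC

variable {B Ω : Type} [Group B]

theorem mul_left' (a b : Gam (Equiv.Perm Ω) Ω B) (o : Ω) :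
    (a * b).left o = a.left o * b.left (a.right⁻¹ o) := rfl

theorem mul_right' (a b : Gam (Equiv.Perm Ω) Ω B) : (a * b).right = a.right * b.right := rfl

theorem conj_left (g m : Gam (Equiv.Perm Ω) Ω B) (hm : m.right = 1) (o o' : Ω)
    (h : g.right o' = o) :
    (g * m * g⁻¹).left o = g.left o * m.left o' * (g.left o)⁻¹ := by
  have h1 : g.right⁻¹ o = o' := by
    rw [← h]
    exact Equiv.symm_apply_apply g.right o'
  have h2 : (g * g⁻¹).left o = 1 := by
    rw [mul_inv_cancel]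
    rfl
  rw [mul_left', h1] at h2
  have h3 : (g⁻¹).left o' = (g.left o)⁻¹ := (inv_eq_of_mul_eq_one_right h2).symm
  rw [mul_left', mul_left', mul_right', hm, mul_one, h1, h3]

variable {K : Type} [Group K]

/-- The coordinates at `o` of the elements of `M`. -/
def cd (φ : K →* Gam (Equiv.Perm Ω) Ω B) (M : Subgroup K) (hr : ∀ m ∈ M, (φ m).right = 1)
    (o : Ω) : M →* B where
  toFun m := (φ m).left o
  map_one' := by simp
  map_mul' := by
    intro a b
    change (φ ((a : K) * b)).left o = _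
    rw [map_mul, mul_left', hr a a.2]
    rfl

end MMC

theorem MMC_thm : Stmt_MMC := by
  intro L K K1 Q Ω _ _ _ _ _ _ _ _ _ _ ℓ _ π μ φ q α ε μQ hW M hMn hN hcop hr
  obtain ⟨o0⟩ := (inferInstance : Nonempty Ω)
  have hcj : ∀ (k m : K) (_ : m ∈ M) (o o' : Ω), (φ k).right o' = o →
      (φ (k * m * k⁻¹)).left o = (φ k).left o * (φ m).left o' * ((φ k).left o)⁻¹ := by
    intro k m hm o o' h
    rw [map_mul, map_mul, map_inv]
    exact MMC.conj_left (φ k) (φ m) (hr m hm) o o' h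
  set f := MMC.cd φ M hr o0 with hf
  have hmem : ∀ b, b ∈ f.range ↔ ∃ m ∈ M, (φ m).left o0 = b := by
    intro b
    constructor
    · rintro ⟨m, rfl⟩
      exact ⟨m, m.2, rfl⟩
    · rintro ⟨m, hm, rfl⟩
      exact ⟨⟨m, hm⟩, rfl⟩
  have hnorm : f.range.Normal := by
    constructor
    intro b hb x
    rw [hmem] at hb ⊢
    obtain ⟨m, hm, rfl⟩ := hb
    obtain ⟨k, hk1, hk2⟩ := hW.sj o0 x
    refine ⟨k * m * k⁻¹, hMn.conj_mem m hm k, ?_⟩
    rw [hcj k m hm o0 o0 hk1, hk2]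
  have hε : ∀ (n : Ω → Q) (o : Ω), (φ (π (ε n))).left o = q (n o) := by
    intro n o
    rw [hW.φε]
    rfl
  refine ⟨f.range, ⟨hMn, hnorm, hr, ?_, ?_, hN, hcop, ?_, ?_⟩⟩
  · intro m hm o
    obtain ⟨k, hk⟩ := hW.tr o0 o
    have h1 : k⁻¹ * m * k ∈ M := by
      have := hMn.conj_mem m hm k⁻¹
      rwa [inv_inv] at this
    have h2 : m = k * (k⁻¹ * m * k) * k⁻¹ := by group
    have h3 := hcj k (k⁻¹ * m * k) h1 o o0 hk
    rw [← h2] at h3
    rw [h3]
    exact hnorm.conj_mem _ ((hmem _).mpr ⟨_, h1, rfl⟩) _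
  · intro o b hb
    obtain ⟨k, hk⟩ := hW.tr o0 o
    have h1 := hnorm.conj_mem b hb ((φ k).left o)⁻¹
    rw [inv_inv, hmem] at h1
    obtain ⟨m, hm, hm'⟩ := h1
    refine ⟨k * m * k⁻¹, hMn.conj_mem m hm k, ?_⟩
    rw [hcj k m hm o o0 hk, hm']
    group
  · rintro _ ⟨a, rfl⟩
    rw [hmem]
    refine ⟨π (ε fun _ => a), hN ⟨ε fun _ => a, ⟨_, rfl⟩, rfl⟩, ?_⟩
    rw [hε]
  · intro hd
    apply hcop
    refine hd.trans ?_
    have h1 : ((q.range.subgroupOf f.range).comap f.rangeRestrict).index =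
        (q.range.subgroupOf f.range).index :=
      Subgroup.index_comap_of_surjective _ f.rangeRestrict_surjective
    change (q.range.subgroupOf f.range).index ∣ ((NN' π ε).subgroupOf M).index
    rw [← h1]
    apply Subgroup.index_dvd_of_le
    intro m hm
    rw [Subgroup.mem_subgroupOf] at hm
    obtain ⟨_, ⟨n, rfl⟩, hn⟩ := hm
    rw [Subgroup.mem_comap, Subgroup.mem_subgroupOf]
    change (φ (m : K)).left o0 ∈ q.range
    rw [← hn, hε]
    exact ⟨_, rfl⟩

end Pool.Agent.DPG
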