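import Mathlib
import Pool.Agent.DPG.StmtsA

/-!
# Extensions over a larger extension
-/

namespace Pool.Agent.DPG

open Pool.Agent.DP Pool.Agent.DPC Pool.Agent.DPM Pool.Agent.DPN Pool.Agent.DPF
  Pool.Agent.Lib_helper13 Representation

namespace PLE

/-- The map between the fibre products induced by `h`. -/
def hGS {L K H W W' : Type} [Group L] [Group K] [Group H] [Group W] [Group W'] (π : L →* K)
    (p : K →* H) (πW : W →* H) (h : W' →* W) (S : Subgroup K) :
    GS π p (πW.comp h) S →* GS π p πW S where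
  toFun y := ⟨(y.1.1, h y.1.2), y.2.1, y.2.2⟩
  map_one' := by
    apply Subtype.ext
    apply Prod.ext
    · rfl
    · exact map_one h
  map_mul' y z := by
    apply Subtype.ext
    apply Prod.ext
    · rfl
    · exact map_mul h _ _

end PLE

open PLE

theorem PLE_thm : Stmt_PLE := by
  intro L K H W W' _ _ _ _ _ _ _ _ π p M πW h S f ν hE ν' hν
  obtain ⟨E, hE1, hE2, hE3, hE4⟩ := hE
  refine ⟨fun y => E (y.1, h y.2), ?_, ?_, ?_, ?_⟩
  · exact IsChr.comp hE1 (hGS π p πW h S)
  · intro x hx
    apply hE2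
    intro hx'
    exact hx ⟨hx'.1, hx'.2⟩
  · intro a ha ha'
    change E (a, h 1) = f a
    rw [map_one]
    exact hE3 a ha ha'
  · intro z t w
    have hz : h z ∈ πW.ker := z.2
    rw [hν z hz]
    change _ * E (t, h (z * w)) = E (t, h w)
    rw [map_mul]
    exact hE4 ⟨h z, hz⟩ t (h w)

end Pool.Agent.DPG
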