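import Mathlib
import Pool.Agent.DPG.StmtsB
import Pool.Agent.DPG.WDB
import Pool.Agent.DPG.NPT

/-!
# POL: no character of `L1` in the block of the reference pair has minimal defect
-/

set_option autoImplicit false

namespace Pool.Agent.DPG

open Pool.Agent.DP Pool.Agent.DPC Pool.Agent.DPM Pool.Agent.DPN Pool.Agent.DPF
  Pool.Agent.DPK Pool.Agent.Lib_helper13 Representation
open Pool.Agent.Lib_helper13.Dade (pCore DadeHolds dadeSum)

namespace POL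

section Lin

variable {K1 Q L1 : Type} [Group K1] [Group Q] [Group L1] {q : Q →* K1} {α : K1 →* MulAut Q}
  {μQ : q.ker →* ℂˣ} {π1 : L1 →* K1} {μ1 : π1.ker →* ℂˣ} {ι : Q →* L1}

/-- The map `(z, b) ↦ z * ι b`. -/
def zi (h : LD q α μQ π1 μ1 ι) (S : Subgroup K1) :
    π1.ker × ↥(S.comap q) →* ↥(AL π1 q.range S) where
  toFun x := ⟨(x.1 : L1) * ι x.2, by
    rw [Subgroup.mem_comap, map_mul, MonoidHom.mem_ker.mp x.1.2, one_mul, h.πι]
    exact ⟨⟨_, rfl⟩, x.2.2⟩⟩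
  map_one' := by
    apply Subtype.ext
    simp
  map_mul' := by
    intro x y
    apply Subtype.ext
    have h1 := WDB.kerπ1_comm h y.1.2 (ι x.2)
    change ((x.1 : L1) * y.1) * ι (x.2 * y.2) = (x.1 : L1) * ι x.2 * (y.1 * ι y.2)
    rw [map_mul]
    calc ((x.1 : L1) * y.1) * (ι x.2 * ι y.2) = x.1 * (y.1 * ι x.2) * ι y.2 := by group
      _ = x.1 * (ι x.2 * y.1) * ι y.2 := by rw [h1]
      _ = (x.1 : L1) * ι x.2 * (y.1 * ι y.2) := by group

theorem zi_surj (h : LD q α μQ π1 μ1 ι) (S : Subgroup K1) :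
    Function.Surjective (zi h S) := by
  rintro ⟨a, ha⟩
  have ha1 : π1 a ∈ q.range := (Subgroup.mem_comap.mp ha).1
  have ha2 : π1 a ∈ S := (Subgroup.mem_comap.mp ha).2
  obtain ⟨z, hz, x, rfl⟩ := (WDB.mem_comap_range h).mp ha1
  have hx : x ∈ S.comap q := by
    rw [Subgroup.mem_comap]
    rwa [map_mul, MonoidHom.mem_ker.mp hz, one_mul, h.πι] at ha2
  exact ⟨(⟨z, hz⟩, ⟨x, hx⟩), rfl⟩

/-- The restriction to `Q` is irreducible. -/
theorem irr_ι [Fintype L1] [Fintype Q] (h : LD q α μQ π1 μ1 ι) (S : Subgroup K1) {F : L1 → ℂ}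
    (hF : IsIrr (fun a : AL π1 q.range S => F a)) (ho : Ov π1 μ1 F) :
    IsIrr (fun b : ↥(S.comap q) => F (ι b)) := by
  classical
  have : Fintype π1.ker := Fintype.ofFinite _
  have : Fintype ↥(S.comap q) := Fintype.ofFinite _
  have : Fintype ↥(AL π1 q.range S) := Fintype.ofFinite _
  have h1 : IsChr (fun b : ↥(S.comap q) => F (ι b)) := by
    have h2 := hF.isChr.comp ((zi h S).comp (MonoidHom.inr π1.ker ↥(S.comap q)))
    have e : (fun b : ↥(S.comap q) => F (ι b)) = fun x => (fun a : AL π1 q.range S => F a)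
        (((zi h S).comp (MonoidHom.inr π1.ker ↥(S.comap q))) x) := by
      funext b
      change F (ι b) = F ((1 : L1) * ι b)
      rw [one_mul]
    rw [e]
    exact h2
  refine h1.isIrr ?_
  have h2 := TWF.sum_comp_surj (zi h S) (zi_surj h S)
    (fun a : AL π1 q.range S => F a * F (a⁻¹ : AL π1 q.range S))
  rw [hF.sum_self] at h2
  have h3 : Nat.card (π1.ker × ↥(S.comap q)) =
      Nat.card (zi h S).ker * Nat.card ↥(AL π1 q.range S) := by
    have h4 := Subgroup.card_mul_index (zi h S).ker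
    rw [← h4, Subgroup.index_ker, MonoidHom.range_eq_top.mpr (zi_surj h S)]
    congr 1
    exact Nat.card_congr Subgroup.topEquiv.toEquiv
  have h4 : ∀ x : π1.ker × ↥(S.comap q),
      F ((zi h S x : AL π1 q.range S) : L1) *
        F (((zi h S x)⁻¹ : AL π1 q.range S) : L1) = F (ι x.2) * F (ι (x.2⁻¹ : ↥(S.comap q))) := by
    intro x
    have e1 : ((zi h S x : AL π1 q.range S) : L1) = (x.1 : L1) * ι x.2 := rfl
    have e2 : (((zi h S x)⁻¹ : AL π1 q.range S) : L1) =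
        ((x.1⁻¹ : π1.ker) : L1) * ι (x.2⁻¹ : ↥(S.comap q)) := by
      rw [← map_inv]
      rfl
    rw [e1, e2, ho, ho, map_inv]
    have e3 : ((μ1 x.1 : ℂˣ) : ℂ) * (((μ1 x.1)⁻¹ : ℂˣ) : ℂ) = 1 := (μ1 x.1).mul_inv
    calc ((μ1 x.1 : ℂˣ) : ℂ) * F (ι x.2) * ((((μ1 x.1)⁻¹ : ℂˣ) : ℂ) *
          F (ι (x.2⁻¹ : ↥(S.comap q))))
        = (((μ1 x.1 : ℂˣ) : ℂ) * (((μ1 x.1)⁻¹ : ℂˣ) : ℂ)) *
          (F (ι x.2) * F (ι (x.2⁻¹ : ↥(S.comap q)))) := by ring
      _ = _ := by rw [e3, one_mul]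
  have h5 : ∑ x : π1.ker × ↥(S.comap q), F (ι x.2) * F (ι (x.2⁻¹ : ↥(S.comap q))) =
      (Nat.card (zi h S).ker : ℂ) * Nat.card ↥(AL π1 q.range S) := by
    rw [← h2]
    exact Finset.sum_congr rfl fun x _ => (h4 x).symm
  rw [Fintype.sum_prod_type] at h5
  simp only [Finset.sum_const, Finset.card_univ, nsmul_eq_mul] at h5
  have h6 : (Nat.card (zi h S).ker : ℂ) * Nat.card ↥(AL π1 q.range S) =
      (Fintype.card π1.ker : ℂ) * Nat.card ↥(S.comap q) := by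
    rw [← Nat.cast_mul, ← h3, Nat.card_prod, Nat.cast_mul, Nat.card_eq_fintype_card]
  rw [h6] at h5
  have h7 : (Fintype.card π1.ker : ℂ) ≠ 0 := by
    exact_mod_cast Fintype.card_ne_zero
  exact mul_left_cancel₀ h7 h5

/-- The restriction to `Q`. -/
theorem irrOn_ι [Fintype L1] [Fintype Q] (h : LD q α μQ π1 μ1 ι) {M1 : Subgroup K1}
    (S : Subgroup K1) {F : L1 → ℂ} (hF : EF π1 q.range M1 S F) (ho : Ov π1 μ1 F) :
    IrrOn (S.comap q) (fun x => F (ι x)) ∧ Ov q μQ (fun x => F (ι x)) := by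
  refine ⟨⟨irr_ι h S hF.res ho, fun x hx => ?_⟩, fun z x => ?_⟩
  · apply hF.irr.2
    intro h1
    apply hx
    have h2 : π1 (ι x) ∈ M1 ⊓ S := h1
    rw [h.πι] at h2
    exact h2.2
  · have h1 : ι z ∈ π1.ker := (WDB.ι_ker h).mpr z.2
    change F (ι ((z : Q) * x)) = _
    rw [map_mul]
    have h2 := ho ⟨ι z, h1⟩ (ι x)
    rw [h.μι] at h2
    exact h2

open Classical in
/-- The function on `L1` which belongs to a function on `Q`. -/
noncomputable def WW [Fintype Q] (ι : Q →* L1) (w : Q → ℤ) (y : L1) : ℤ :=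
  ∑ x : Q, if ι x = y then w x else 0

open Classical in
theorem WW_sum [Fintype L1] [Fintype Q] (F : L1 → ℂ) (w : Q → ℤ) :
    ∑ y, ((WW ι w y : ℤ) : ℂ) * F y = ∑ x, ((w x : ℤ) : ℂ) * F (ι x) := by
  have h1 : ∀ y, ((WW ι w y : ℤ) : ℂ) * F y =
      ∑ x : Q, if ι x = y then ((w x : ℤ) : ℂ) * F y else 0 := by
    intro y
    rw [WW, Int.cast_sum, Finset.sum_mul]
    refine Finset.sum_congr rfl fun x _ => ?_
    split_ifs
    · rfl
    · rw [Int.cast_zero, zero_mul]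
  rw [Finset.sum_congr rfl fun y _ => h1 y, Finset.sum_comm]
  refine Finset.sum_congr rfl fun x _ => ?_
  rw [Finset.sum_ite_eq, if_pos (Finset.mem_univ _)]

theorem sc_WW [Fintype L1] [Fintype Q] {𝔐 : Ideal (integralClosure ℤ ℂ)} (F : L1 → ℂ)
    (w : Q → ℤ) : sc 𝔐 F (WW ι w) = sc 𝔐 (fun x => F (ι x)) w := by
  rw [sc, sc, WW_sum, map_one]

open Classical in
theorem WW_civ [Fintype Q] (h : LD q α μQ π1 μ1 ι) {w : Q → ℤ} (hw : CIv ⊤ w) :
    CIv (q.range.comap π1) (WW ι w) := by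
  intro s hs y
  obtain ⟨z, hz, a, rfl⟩ := (WDB.mem_comap_range h).mp hs
  rw [WW, WW]
  symm
  refine Fintype.sum_equiv (MulAut.conj a).toEquiv _ _ fun x => ?_
  have h1 : (MulAut.conj a).toEquiv x = a * x * a⁻¹ := rfl
  have h2 : z * ι a * y * (z * ι a)⁻¹ = ι a * y * (ι a)⁻¹ := by
    have h3 := WDB.kerπ1_comm h hz (ι a * y * (ι a)⁻¹)
    calc z * ι a * y * (z * ι a)⁻¹ = z * (ι a * y * (ι a)⁻¹) * z⁻¹ := by group
      _ = ι a * y * (ι a)⁻¹ * z * z⁻¹ := by rw [h3]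
      _ = ι a * y * (ι a)⁻¹ := by group
  have h3 : ι (a * x * a⁻¹) = ι a * y * (ι a)⁻¹ ↔ ι x = y := by
    rw [map_mul, map_mul, map_inv]
    constructor
    · intro h
      exact mul_left_cancel (mul_right_cancel h)
    · intro h
      rw [h]
  rw [h1, hw a trivial, h2]
  by_cases hx : ι x = y
  · rw [if_pos hx, if_pos (h3.mpr hx)]
  · rw [if_neg hx, if_neg fun h => hx (h3.mp h)]

end Lin

section Data

variable {L K K1 Q Ω : Type} [Group L] [Group K] [Group K1] [Group Q] [Fintype Ω]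
  {π : L →* K} {μ : π.ker →* ℂˣ} {φ : K →* Gam (Equiv.Perm Ω) Ω K1} {q : Q →* K1}
  {α : K1 →* MulAut Q} {ε : (Ω → Q) →* L} {μQ : q.ker →* ℂˣ}

omit [Fintype Ω] in
theorem pow_coords {k : K} (hk : (φ k).right = 1) (m : ℕ) :
    (φ (k ^ m)).right = 1 ∧ ∀ o, (φ (k ^ m)).left o = ((φ k).left o) ^ m := by
  induction m with
  | zero =>
    rw [pow_zero, map_one]
    exact ⟨rfl, fun o => by rw [pow_zero]; rfl⟩
  | succ m ih =>
    rw [pow_succ, map_mul]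
    refine ⟨by rw [WDB.mul_right, ih.1, hk, mul_one], fun o => ?_⟩
    rw [WDB.mul_left, ih.1, ih.2, pow_succ]
    rfl

open Classical in
/-- The chain with constant coordinates is a chain of `N`. -/
theorem chN_cst [Nonempty Ω] [Finite K1] (h : WD π μ φ q α ε μQ) (ℓ : ℕ) [Fact ℓ.Prime]
    {σ : Finset (Subgroup K1)} (hσ : ChN ℓ q.range σ) :
    ChN ℓ (NN' π ε) (cstC φ (NN' π ε) σ) := by
  have hle : ∀ D : Subgroup K1, cst φ (NN' π ε) D ≤ NN' π ε := fun D k hk => hk.1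
  refine ⟨⟨?_, ?_⟩, ?_⟩
  · intro E hE
    rw [cstC, Finset.mem_image] at hE
    obtain ⟨D, hD, rfl⟩ := hE
    obtain ⟨hp, hlt⟩ := hσ.1.1 D hD
    refine ⟨?_, ?_⟩
    · obtain ⟨n, hn⟩ := IsPGroup.iff_card.mp hp
      rintro ⟨k, hk, hk1, hk2⟩
      refine ⟨n, Subtype.ext ?_⟩
      change k ^ ℓ ^ n = 1
      obtain ⟨e1, e2⟩ := pow_coords (φ := φ) hk1 (ℓ ^ n)
      refine WDB.eq_of_coords h ?_ fun o => ?_
      · rw [e1, map_one]
        rfl
      · rw [e2, map_one, ← hn]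
        exact congrArg Subtype.val (pow_card_eq_one' (x := (⟨_, hk2 o⟩ : D)))
    · rw [bot_lt_iff_ne_bot] at hlt ⊢
      intro hb
      apply hlt
      rw [Subgroup.eq_bot_iff_forall] at hb ⊢
      intro d hd
      obtain ⟨n, -, hn1, hn2⟩ := WDB.exists_NN h (fun _ => d) (fun _ => hσ.2 D hD hd)
      have h1 : π (ε n) ∈ cst φ (NN' π ε) D :=
        ⟨WDB.πε_mem h n, hn1, fun o => by rw [hn2]; exact hd⟩
      have h2 := hb _ h1
      obtain ⟨o⟩ := ‹Nonempty Ω›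
      rw [← hn2 o, h2, map_one]
      rfl
  · rw [cstC, Finset.coe_image]
    rintro _ ⟨D, hD, rfl⟩ _ ⟨D', hD', rfl⟩ -
    have hmono : ∀ D D' : Subgroup K1, D ≤ D' → cst φ (NN' π ε) D ≤ cst φ (NN' π ε) D' :=
      fun D D' hDD k hk => ⟨hk.1, hk.2.1, fun o => hDD (hk.2.2 o)⟩
    rcases hσ.1.total (Finset.mem_coe.mp hD) (Finset.mem_coe.mp hD') with h1 | h1
    · exact Or.inl (hmono _ _ h1)
    · exact Or.inr (hmono _ _ h1)
  · intro E hE
    rw [cstC, Finset.mem_image] at hE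
    obtain ⟨D, hD, rfl⟩ := hE
    exact hle D

/-- `N` acts trivially. -/
theorem AL_top (h : WD π μ φ q α ε μQ) :
    AL π (NN' π ε) (PS φ (fun _ => ⊤)) = (NN' π ε).comap π := by
  have h1 : NN' π ε ⊓ PS φ (fun _ => ⊤) = NN' π ε := by
    rw [inf_eq_left]
    intro k hk
    exact ⟨((WDB.mem_NN h).mp hk).1, fun _ => trivial⟩
  rw [AL, h1]

end Data

/-- Proportional functions have the same scalars. -/
theorem sc_prop {L : Type} [Group L] [Fintype L] {𝔐 : Ideal (integralClosure ℤ ℂ)}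
    {f F : L → ℂ} {c : ℂ} (hc : c ≠ 0) (hf : ∀ x, f x = c * F x) (u : L → ℤ) :
    sc 𝔐 f u = sc 𝔐 F u := by
  have h1 : ∑ x, ((u x : ℤ) : ℂ) * f x = c * ∑ x, ((u x : ℤ) : ℂ) * F x := by
    rw [Finset.mul_sum]
    refine Finset.sum_congr rfl fun x _ => ?_
    rw [hf x]
    ring
  rw [sc, sc, h1, hf 1, mul_div_mul_left _ _ hc]

end POL

open POL in
/-- POL: no character of `L1` in the block of the reference pair has minimal defect. -/
theorem POL_thm (h1 : Stmt_PSN) (h2 : Stmt_NPT) (h3 : Stmt_RIU) (h4 : Stmt_IRC)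
    (h5 : Stmt_LMT) (h6 : Stmt_TNA) : Stmt_POL := by
  classical
  intro L K K1 Q L1 Ω _ _ _ _ _ _ _ _ _ _ _ _ 𝔐 ℓ _ hmax hℓ π μ φ q α ε μQ π1 μ1 ι M M1 σr
    Fr ζ hR ω θr hTP hB hSTB hSPP hPos θ hθ hθo hθd hcen
  have hNn : (NN' π ε).Normal := WDB.normal_NN hR.wd
  have hqn : q.range.Normal := WDB.normal_range hR.wd
  have hMn : M.Normal := hR.mm.nm
  have hM1n : M1.Normal := hR.mm.nm1
  have hM1n' : (M1.comap π1).Normal := inferInstance
  -- the character of the inverse image of `M1`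
  have hGe : (fun s : ↥(M1.comap π1) => (ext0 θ : L1 → ℂ) s) = θ :=
    funext fun s => ext0_of_mem θ s.2
  have hG : IrrOn (M1.comap π1) (ext0 θ : L1 → ℂ) :=
    ⟨by rw [hGe]; exact hθ, fun x hx => ext0_of_not_mem θ hx⟩
  have hkM : ∀ z : π1.ker, (z : L1) ∈ M1.comap π1 := by
    intro z
    rw [Subgroup.mem_comap, MonoidHom.mem_ker.mp z.2]
    exact M1.one_mem
  have hGo : Ov π1 μ1 (ext0 θ : L1 → ℂ) := by
    intro z x
    by_cases hx : x ∈ M1.comap π1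
    · have hzx : (z : L1) * x ∈ M1.comap π1 := Subgroup.mul_mem _ (hkM z) hx
      rw [ext0_of_mem θ hx, ext0_of_mem θ hzx]
      exact hθo ⟨z, hkM z⟩ ⟨x, hx⟩ z.2
    · have hzx : (z : L1) * x ∉ M1.comap π1 := by
        intro h
        apply hx
        have := Subgroup.mul_mem _ (Subgroup.inv_mem _ (hkM z)) h
        rwa [inv_mul_cancel_left] at this
      rw [ext0_of_not_mem θ hx, ext0_of_not_mem θ hzx, mul_zero]
  -- a character of the inverse image of `M1` in the block of the reference pair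
  obtain ⟨χ, hχ, hχo, hχs⟩ := h4 L1 K1 𝔐 ℓ hmax hℓ π1 hR.ld.s hR.ld.c μ1 M1 σr
    ⟨hR.ch.1, fun D hD => (hR.ch.2 D hD).trans hR.mm.le1⟩ Fr hR.ef.irr hR.ov
  have hcg : ∀ g ∈ M1.comap π1, cg 𝔐 (ext0 θ : L1 → ℂ) g = cg 𝔐 χ g := by
    intro g hg
    have hsu : SOn (M1.comap π1 : Set L1) (BEM.cI g) := fun x hx =>
      BEM.cI_not_mem (M1.comap π1) hg hx
    rw [BEM.cg_eq χ, hχs (BEM.cI g) (fun s _ x => BEM.cI_conj g s x) hsu, ← BEM.cg_eq,
      ← hcen g hg, BEM.cg_eq, BEM.sc_sub (M1.comap π1) hG.2, hGe, cen]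
    congr 2
    funext s
    exact BEM.cI_cast g (s : L1)
  obtain ⟨y, hy⟩ := NPT.agree ℓ hmax hℓ (M1.comap π1) hG hχ hcg
  have hMt : M1 ⊔ stb σr = ⊤ := by
    rw [eq_top_iff, ← hR.sj]
    exact sup_le_sup_right hR.mm.le1 _
  have hs1 : ∀ u : L1 → ℤ, CIv (M1.comap π1) u → SOn (M1.comap π1 : Set L1) u →
      sc 𝔐 (ext0 θ : L1 → ℂ) u = sc 𝔐 Fr u := by
    intro u hu hus
    rw [hy u hu, hχs (fun x => u (y * x * y⁻¹)), BEM.sc_conj hR.ld.s hMt hR.iv hu]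
    · intro s hs x
      have h7 := hu (y * s * y⁻¹) (hM1n'.conj_mem s hs y) (y * x * y⁻¹)
      change u (y * (s * x * s⁻¹) * y⁻¹) = u (y * x * y⁻¹)
      rw [← h7]
      congr 1
      group
    · intro x hx
      apply hus
      intro h7
      apply hx
      have h8 := hM1n'.conj_mem _ h7 y⁻¹
      have h9 : y⁻¹ * (y * x * y⁻¹) * y⁻¹⁻¹ = x := by group
      rwa [h9] at h8
  -- it extends a character of the inverse image of `q.range`
  obtain ⟨hEF, hs2⟩ := h3 L1 K1 𝔐 ℓ hmax hℓ π1 hR.ld.s hR.ld.c q.range M1 hR.mm.le1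
    hR.mm.cop1 σr Fr hR.ch hR.ef hR.sup ∅ (ext0 θ : L1 → ℂ)
    ⟨isCh_empty ℓ ⊥, fun D hD => absurd hD (Finset.notMem_empty D)⟩ (by
      rw [AL, stb_empty, inf_top_eq]
      exact hG) hs1
  rw [stb_empty] at hEF
  obtain ⟨hg, hgo⟩ := irrOn_ι hR.ld ⊤ hEF hGo
  obtain ⟨hr, hro⟩ := irrOn_ι hR.ld (stb σr) hR.ef hR.ov
  have hsg : ∀ w : Q → ℤ, CIv ⊤ w →
      sc 𝔐 (fun x => (ext0 θ : L1 → ℂ) (ι x)) w = sc 𝔐 (fun x => Fr (ι x)) w := by
    intro w hw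
    rw [← sc_WW, ← sc_WW, hs2 _ (WW_civ hR.ld hw)]
  -- the products
  obtain ⟨Fg, hFg, hFgo, hFgT⟩ := (h6 L K K1 Q Ω π μ φ q α ε μQ hR.wd (fun _ => ⊤)).1
    (fun _ x => (ext0 θ : L1 → ℂ) (ι x)) (fun _ => ⟨hg, hgo⟩)
  obtain ⟨Fq, -, -, hFqT⟩ := (h6 L K K1 Q Ω π μ φ q α ε μQ hR.wd (fun _ => stb σr)).1
    (fun _ x => Fr (ι x)) (fun _ => ⟨hr, hro⟩)
  have hsF := (h5 L K K1 Q Ω 𝔐 ℓ hmax hℓ π μ φ q α ε μQ hR.wd (fun _ => ⊤)
    (fun _ => stb σr) (fun _ x => (ext0 θ : L1 → ℂ) (ι x)) (fun _ x => Fr (ι x)) Fg Fq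
    (fun _ => ⟨hg, hgo⟩) (fun _ => ⟨hr, hro⟩) hFgT hFqT).mp (fun _ => hsg)
  rw [AL_top hR.wd] at hFg
  -- the restriction of the pair to `N`
  have hch := chN_cst hR.wd ℓ hR.ch
  obtain ⟨f, e, he, hf, hfo, htop, hfi, hfe, ⟨f0, hf0⟩, hff⟩ := h2 L K 𝔐 ℓ hmax hℓ π
    hR.wd.πs hR.wd.πc μ (NN' π ε) M hR.mm.le ω hSTB hSPP (cstC φ (NN' π ε) σr) θr hch hB
  have hθε : ∀ n : Ω → Q, θr (ε n) = ζ 1 * Fq (ε n) := by
    intro n
    have h7 := hTP.2 (dY ε ι n) (WDB.dY_mem_MY hR.wd hR.ld hR.mm.le n)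
    have h8 := hR.zt.d n 1
    rw [one_mul] at h8
    rw [h8] at h7
    rw [hFqT.1 n, mul_comm]
    exact h7
  have hk : ∀ l, (e : ℂ) * f l = ζ 1 * Fq l := by
    intro l
    by_cases hl : l ∈ ε.range
    · obtain ⟨n, rfl⟩ := hl
      by_cases hl2 : ε n ∈ AL π (NN' π ε) (stb (cstC φ (NN' π ε) σr))
      · rw [← hfe _ hl2, hθε]
      · rw [hf.2 _ hl2, mul_zero, ← hθε, hB.irr.2]
        intro h7
        exact hl2 ⟨WDB.πε_mem hR.wd n, h7.2⟩
    · rw [hFqT.2 l hl, mul_zero, hf.2, mul_zero]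
      intro h7
      exact hl ((WDB.mem_comap_NN hR.wd).mp h7.1)
  have he' : (e : ℂ) ≠ 0 := Nat.cast_ne_zero.mpr he
  have hfc : ∀ l, f l = ζ 1 / e * Fq l := by
    intro l
    rw [div_mul_eq_mul_div, ← hk l, mul_div_cancel_left₀ _ he']
  have hc : ζ 1 / e ≠ 0 := by
    intro h7
    have h8 : f 1 = 0 := by rw [hfc 1, h7, zero_mul]
    exact hf.1.one_ne_zero h8
  refine h1 L K 𝔐 ℓ hmax hℓ π hR.wd.πs hR.wd.πc μ (NN' π ε) M hR.mm.le hR.mm.cop ω hPos hSTB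
    (cstC φ (NN' π ε) σr) θr ⟨hch.1, fun D hD => (hch.2 D hD).trans hR.mm.le⟩ hB f0 hf0 Fg
    hFg hFgo (fun u hu hus => by
      rw [hsF u hu hus, ← sc_prop hc hfc u, hff f0 hf0 u hu hus]) ?_
  -- the defect
  obtain ⟨n, hn1, hn2⟩ := hθd
  have hn0 : n ≠ 0 := by
    rintro rfl
    exact hθ.one_ne_zero (by rw [hn1, Nat.cast_zero])
  refine ⟨n ^ Fintype.card Ω, ?_, ?_⟩
  · have h7 := hFgT.1 1
    rw [map_one] at h7
    have h8 : (fun s : ↥((NN' π ε).comap π) => Fg s) 1 = Fg 1 := rfl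
    rw [h8, h7]
    have h9 : ∀ o : Ω, (ext0 θ : L1 → ℂ) (ι ((1 : Ω → Q) o)) = n := by
      intro o
      rw [Pi.one_apply, map_one, ← hn1]
      exact ext0_of_mem θ (Subgroup.one_mem _)
    rw [Finset.prod_congr rfl fun o _ => h9 o, Finset.prod_const, Finset.card_univ,
      Nat.cast_pow]
  · have c1 := TWN.card_comap π1 hR.ld.s M1
    have c2 := TWN.card_comap π hR.wd.πs (NN' π ε)
    have c3 := WDB.card_NN hR.wd
    have c4 := Subgroup.relIndex_mul_relIndex ⊥ q.range M1 bot_le hR.mm.le1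
    rw [Subgroup.relIndex_bot_left, Subgroup.relIndex_bot_left] at c4
    have c5 : q.range.relIndex M1 ≠ 0 := by
      intro h7
      rw [h7, mul_zero] at c4
      exact Nat.card_pos.ne c4
    rw [c1, padicValNat.mul Nat.card_pos.ne' Nat.card_pos.ne', ← c4,
      padicValNat.mul Nat.card_pos.ne' c5, padicValNat.eq_zero_of_not_dvd hR.mm.cop1,
      add_zero] at hn2
    rw [c2, padicValNat.mul Nat.card_pos.ne' Nat.card_pos.ne', c3,
      padicValNat.pow, padicValNat.pow, Nat.add_left_cancel hn2]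

end Pool.Agent.DPG
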