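import Mathlib
import Pool.Agent.DPG.StmtsB
import Pool.Agent.Lib_helper13.ProdChar

/-!
# PRC: products of scalars
-/

set_option autoImplicit false

namespace Pool.Agent.DPG

open Pool.Agent.DP Pool.Agent.DPC Pool.Agent.DPM Pool.Agent.DPN Pool.Agent.DPF
  Pool.Agent.DPK Pool.Agent.Lib_helper13 Representation
open Pool.Agent.Lib_helper13.Dade (pCore DadeHolds dadeSum)

namespace PRC

/-- The sum of an invariant function which vanishes at the points with a nontrivial stabilizer. -/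
theorem sum_orbits {V Y : Type} [Group V] [Fintype V] [Fintype Y] [MulAction V Y]
    [Fintype (MulAction.orbitRel.Quotient V Y)] (F : Y → ℂ)
    (h1 : ∀ (v : V) y, F (v • y) = F y) (h2 : ∀ (v : V) y, v • y = y → v ≠ 1 → F y = 0) :
    ∑ y, F y = (Nat.card V : ℂ) * ∑ w : MulAction.orbitRel.Quotient V Y, F w.out := by
  classical
  have key : ∀ y : Y, ∑ x : MulAction.orbit V y, F x = (Nat.card V : ℂ) * F y := by
    intro y
    by_cases hy : F y = 0
    · rw [hy, mul_zero]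
      refine Finset.sum_eq_zero fun x _ => ?_
      obtain ⟨v, hv⟩ := x.2
      change F (x : Y) = 0
      rw [← hv]
      change F (v • y) = 0
      rw [h1, hy]
    · have hb : Function.Bijective (fun v : V => (⟨v • y, MulAction.mem_orbit y v⟩ :
          MulAction.orbit V y)) := by
        constructor
        · intro v w hvw
          have h3 : v • y = w • y := congrArg Subtype.val hvw
          by_contra hne
          apply hy
          refine h2 (w⁻¹ * v) y ?_ ?_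
          · rw [mul_smul, h3, ← mul_smul, inv_mul_cancel, one_smul]
          · intro h4
            exact hne (inv_mul_eq_one.mp h4).symm
        · rintro ⟨_, v, rfl⟩
          exact ⟨v, rfl⟩
      rw [← Fintype.sum_bijective _ hb (fun v : V => F y) (fun x => F x)
        (fun v => (h1 v y).symm), Finset.sum_const, Finset.card_univ, nsmul_eq_mul,
        Nat.card_eq_fintype_card]
  rw [Finset.mul_sum, Fintype.sum_equiv (MulAction.selfEquivSigmaOrbits V Y) F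
    (fun p => F p.2) ?_, Fintype.sum_sigma]
  · exact Finset.sum_congr rfl fun w _ => key _
  · intro y
    rfl

variable {Q Ω : Type} [Group Q] [Fintype Q] [Fintype Ω]

open Classical in
/-- The twisted class of `m`. -/
noncomputable def C (β : MulAut Q) (m : Q) : Finset Q :=
  Finset.univ.filter (fun n => ∃ a, n = β a * m * a⁻¹)

theorem mem_C {β : MulAut Q} {m n : Q} : n ∈ C β m ↔ ∃ a, n = β a * m * a⁻¹ := by
  classical
  unfold C
  rw [Finset.mem_filter]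
  exact and_iff_right (Finset.mem_univ _)

theorem C_refl (β : MulAut Q) (m : Q) : m ∈ C β m := mem_C.mpr ⟨1, by simp⟩

theorem C_symm {β : MulAut Q} {m n : Q} (h : n ∈ C β m) : m ∈ C β n := by
  obtain ⟨a, rfl⟩ := mem_C.mp h
  refine mem_C.mpr ⟨a⁻¹, ?_⟩
  rw [map_inv]
  group

theorem C_trans {β : MulAut Q} {m n k : Q} (h : n ∈ C β m) (h' : k ∈ C β n) : k ∈ C β m := by
  obtain ⟨a, rfl⟩ := mem_C.mp h
  obtain ⟨b, rfl⟩ := mem_C.mp h'
  refine mem_C.mpr ⟨b * a, ?_⟩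
  rw [map_mul]
  group

theorem C_eq {β : MulAut Q} {m n : Q} (h : n ∈ C β m) : C β n = C β m := by
  ext k
  exact ⟨fun h' => C_trans h h', fun h' => C_trans (C_symm h) h'⟩

theorem C_mul {β : MulAut Q} {z : Q} (hz : ∀ x, z * x = x * z) {m n : Q} (h : n ∈ C β m)
     : z * n ∈ C β (z * m) := by
  obtain ⟨a, rfl⟩ := mem_C.mp h
  refine mem_C.mpr ⟨a, ?_⟩
  rw [← mul_assoc (β a) z m, ← hz (β a), ← mul_assoc, ← mul_assoc]

theorem sum_C_mul {β : MulAut Q} {z : Q} (hz : ∀ x, z * x = x * z) (m : Q) (Φ : Q → ℂ) :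
    ∑ n ∈ C β (z * m), Φ n = ∑ n ∈ C β m, Φ (z * n) := by
  have hz' : ∀ x, z⁻¹ * x = x * z⁻¹ := by
    intro x
    rw [inv_mul_eq_iff_eq_mul, ← mul_assoc, hz x, mul_inv_cancel_right]
  symm
  refine Finset.sum_bij' (fun n _ => z * n) (fun n _ => z⁻¹ * n) ?_ ?_ ?_ ?_ ?_
  · intro n hn
    exact C_mul hz hn
  · intro n hn
    have h := C_mul hz' hn
    rw [inv_mul_cancel_left] at h
    exact h
  · intro n _
    exact inv_mul_cancel_left _ _
  · intro n _
    exact mul_inv_cancel_left _ _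
  · intro n _
    rfl

/-- The product of the sums over the twisted classes. -/
noncomputable def T (β : Ω → MulAut Q) (Φ : Ω → Q → ℂ) (m : Ω → Q) : ℂ :=
  ∏ o, ∑ n ∈ C (β o) (m o), Φ o n

/-- The orbits of the twisted conjugation. -/
def St (β : Ω → MulAut Q) : Setoid (Ω → Q) where
  r n m := ∀ o, n o ∈ C (β o) (m o)
  iseqv := ⟨fun n o => C_refl _ _, fun h o => C_symm (h o), fun h h' o => C_trans (h' o) (h o)⟩

theorem T_congr {β : Ω → MulAut Q} (Φ : Ω → Q → ℂ) {n m : Ω → Q} (h : ∀ o, n o ∈ C (β o) (m o)) :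
    T β Φ n = T β Φ m := by
  unfold T
  exact Finset.prod_congr rfl fun o _ => by rw [C_eq (h o)]

section

variable {Z : Subgroup Q} (μ : Z →* ℂˣ)

/-- The product of the values of `μ` at the coordinates. -/
def pr : (Ω → Z) →* ℂˣ where
  toFun z := ∏ o, μ (z o)
  map_one' := by simp
  map_mul' a b := by
    simp only [Pi.mul_apply, map_mul]
    exact Finset.prod_mul_distrib

theorem mem_pr {z : Ω → Z} : z ∈ (pr (Ω := Ω) μ).ker ↔ ∏ o, μ (z o) = 1 := Iff.rfl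

theorem ctr (hZ : Z ≤ Subgroup.center Q) (z : Z) (x : Q) : (z : Q) * x = x * z :=
  (Subgroup.mem_center_iff.mp (hZ z.2) x).symm

/-- The action of the central elements on the orbits. -/
def mact (hZ : Z ≤ Subgroup.center Q) (β : Ω → MulAut Q) :
    MulAction (pr (Ω := Ω) μ).ker (Quotient (St β)) where
  smul v := Quotient.map (fun n o => (((v : Ω → Z) o : Z) : Q) * n o)
    (fun _ _ h o => C_mul (ctr hZ _) (h o))
  one_smul := by
    intro y
    induction y using Quotient.ind with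
    | _ n =>
      change Quotient.mk (St β) _ = Quotient.mk (St β) _
      congr 1
      funext o
      exact one_mul _
  mul_smul := by
    intro a b y
    induction y using Quotient.ind with
    | _ n =>
      change Quotient.mk (St β) _ = Quotient.mk (St β) _
      congr 1
      funext o
      exact mul_assoc _ _ _

theorem T_mul (hZ : Z ≤ Subgroup.center Q) (β : Ω → MulAut Q) (Φ : Ω → Q → ℂ)
    (hΦ : ∀ o (z : Z) n, Φ o (z * n) = ((μ z : ℂˣ) : ℂ) * Φ o n) (z : Ω → Z)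
    (hz : ∏ o, μ (z o) = 1) (n : Ω → Q) : T β Φ (fun o => z o * n o) = T β Φ n := by
  unfold T
  have h1 : ∀ o, ∑ k ∈ C (β o) ((z o : Q) * n o), Φ o k =
      ((μ (z o) : ℂˣ) : ℂ) * ∑ k ∈ C (β o) (n o), Φ o k := by
    intro o
    rw [sum_C_mul (ctr hZ _), Finset.mul_sum]
    exact Finset.sum_congr rfl fun k _ => hΦ o _ _
  rw [Finset.prod_congr rfl fun o _ => h1 o, Finset.prod_mul_distrib]
  have h2 : ∏ o, ((μ (z o) : ℂˣ) : ℂ) = 1 := by
    rw [← Units.coe_prod, hz, Units.val_one]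
  rw [h2, one_mul]

theorem T_zero (hZ : Z ≤ Subgroup.center Q) (hμ : Function.Injective μ) (β : Ω → MulAut Q)
    (Φ : Ω → Q → ℂ) (hΦ : ∀ o (z : Z) n, Φ o (z * n) = ((μ z : ℂˣ) : ℂ) * Φ o n) (z : Ω → Z)
    (hz : z ≠ 1) (n : Ω → Q) (h : ∀ o, (z o : Q) * n o ∈ C (β o) (n o)) : T β Φ n = 0 := by
  obtain ⟨o, ho⟩ : ∃ o, z o ≠ 1 := by
    by_contra hcon
    push Not at hcon
    exact hz (funext hcon)
  unfold T
  refine Finset.prod_eq_zero (Finset.mem_univ o) ?_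
  have h1 := sum_C_mul (β := β o) (ctr hZ (z o)) (n o) (Φ o)
  rw [C_eq (h o), Finset.sum_congr rfl fun k _ => hΦ o (z o) k, ← Finset.mul_sum] at h1
  have h2 : ((μ (z o) : ℂˣ) : ℂ) ≠ 1 := by
    intro h3
    apply ho
    apply hμ
    rw [map_one]
    exact Units.val_eq_one.mp h3
  by_contra h4
  apply h2
  have h5 : (1 : ℂ) * ∑ k ∈ C (β o) (n o), Φ o k =
      ((μ (z o) : ℂˣ) : ℂ) * ∑ k ∈ C (β o) (n o), Φ o k := by
    rw [one_mul]
    exact h1
  exact (mul_right_cancel₀ h4 h5).symm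

end

/-- The function on the orbits. -/
noncomputable def FY (β : Ω → MulAut Q) (Φ : Ω → Q → ℂ) (u : (Ω → Q) → ℤ)
    (hu : ∀ n m : Ω → Q, (∀ o, n o ∈ C (β o) (m o)) → u n = u m) : Quotient (St β) → ℂ :=
  Quotient.lift (fun n => ((u n : ℤ) : ℂ) * T β Φ n) (by
    intro n m h
    have h' : ∀ o, n o ∈ C (β o) (m o) := h
    change ((u n : ℤ) : ℂ) * T β Φ n = ((u m : ℤ) : ℂ) * T β Φ m
    rw [hu n m h', T_congr Φ h'])

open Classical in
theorem sum_FY (β : Ω → MulAut Q) (Φ : Ω → Q → ℂ) (u : (Ω → Q) → ℤ)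
    (hu : ∀ n m : Ω → Q, (∀ o, n o ∈ C (β o) (m o)) → u n = u m)
    [Fintype (Quotient (St β))] :
    ∑ n : Ω → Q, ((u n : ℤ) : ℂ) * ∏ o, Φ o (n o) = ∑ y, FY β Φ u hu y := by
  rw [← Finset.sum_fiberwise Finset.univ (fun n : Ω → Q => Quotient.mk (St β) n)
    (fun n => ((u n : ℤ) : ℂ) * ∏ o, Φ o (n o))]
  refine Finset.sum_congr rfl fun y _ => ?_
  induction y using Quotient.ind with
  | _ m =>
    have h1 : Finset.univ.filter (fun n : Ω → Q => Quotient.mk (St β) n = Quotient.mk (St β) m) =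
        Fintype.piFinset (fun o => C (β o) (m o)) := by
      ext n
      rw [Finset.mem_filter, Fintype.mem_piFinset]
      constructor
      · intro h
        exact Quotient.exact h.2
      · intro h
        exact ⟨Finset.mem_univ _, Quotient.sound (s := St β) h⟩
    rw [h1]
    change _ = ((u m : ℤ) : ℂ) * T β Φ m
    rw [T, Finset.prod_univ_sum, Finset.mul_sum]
    refine Finset.sum_congr rfl fun n hn => ?_
    rw [hu n m (Fintype.mem_piFinset.mp hn)]

open Classical in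
theorem T_red (𝔐 : Ideal (integralClosure ℤ ℂ)) (β : Ω → MulAut Q) (Φ Φ' : Ω → Q → ℂ)
    (h : ∀ o (w : Q → ℤ), (∀ a n, w (β o a * n * a⁻¹) = w n) →
      IsIntegral ℤ (∑ n, ((w n : ℤ) : ℂ) * Φ o n) ∧
      IsIntegral ℤ (∑ n, ((w n : ℤ) : ℂ) * Φ' o n) ∧
      red 𝔐 (∑ n, ((w n : ℤ) : ℂ) * Φ o n) = red 𝔐 (∑ n, ((w n : ℤ) : ℂ) * Φ' o n))
    (m : Ω → Q) : IsIntegral ℤ (T β Φ m) ∧ IsIntegral ℤ (T β Φ' m) ∧
      red 𝔐 (T β Φ m) = red 𝔐 (T β Φ' m) := by
  have h1 : ∀ (o : Ω) (Ψ : Q → ℂ), ∑ n, (((if n ∈ C (β o) (m o) then (1 : ℤ) else 0) : ℤ) : ℂ) *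
      Ψ n = ∑ n ∈ C (β o) (m o), Ψ n := by
    intro o Ψ
    rw [← Finset.sum_filter_add_sum_filter_not Finset.univ (fun n => n ∈ C (β o) (m o))]
    rw [Finset.sum_eq_zero (s := Finset.univ.filter (fun n => n ∉ C (β o) (m o))), add_zero]
    · refine Finset.sum_congr ?_ ?_
      · ext n
        simp
      · intro n hn
        rw [if_pos hn, Int.cast_one, one_mul]
    · intro n hn
      rw [Finset.mem_filter] at hn
      rw [if_neg hn.2, Int.cast_zero, zero_mul]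
  have h2 : ∀ o, IsIntegral ℤ (∑ n ∈ C (β o) (m o), Φ o n) ∧
      IsIntegral ℤ (∑ n ∈ C (β o) (m o), Φ' o n) ∧
      red 𝔐 (∑ n ∈ C (β o) (m o), Φ o n) = red 𝔐 (∑ n ∈ C (β o) (m o), Φ' o n) := by
    intro o
    have h3 := h o (fun n => if n ∈ C (β o) (m o) then (1 : ℤ) else 0) (by
      intro a n
      have h4 : β o a * n * a⁻¹ ∈ C (β o) n := mem_C.mpr ⟨a, rfl⟩
      by_cases hn : n ∈ C (β o) (m o)
      · rw [if_pos hn, if_pos (C_trans hn h4)]
      · rw [if_neg hn, if_neg]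
        intro h5
        exact hn (C_trans h5 (C_symm h4)))
    rw [h1 o (Φ o), h1 o (Φ' o)] at h3
    exact h3
  refine ⟨?_, ?_, ?_⟩
  · exact IsIntegral.prod _ fun o _ => (h2 o).1
  · exact IsIntegral.prod _ fun o _ => (h2 o).2.1
  · unfold T
    rw [red_prod 𝔐 _ _ fun o _ => (h2 o).1, red_prod 𝔐 _ _ fun o _ => (h2 o).2.1]
    exact Finset.prod_congr rfl fun o _ => (h2 o).2.2

theorem isIntegral_intCast (k : ℤ) : IsIntegral ℤ (k : ℂ) := by
  have h := isIntegral_algebraMap (R := ℤ) (A := ℂ) (x := k)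
  rw [eq_intCast] at h
  exact h

open Classical in
/-- The sum is `|V|` times a sum over the orbits of orbits. -/
theorem sum_eq {Z : Subgroup Q} (μ : Z →* ℂˣ) (hZ : Z ≤ Subgroup.center Q)
    (hμ : Function.Injective μ) (β : Ω → MulAut Q) (Φ Φ' : Ω → Q → ℂ)
    (hΦ : ∀ o (z : Z) n, Φ o (z * n) = ((μ z : ℂˣ) : ℂ) * Φ o n)
    (hΦ' : ∀ o (z : Z) n, Φ' o (z * n) = ((μ z : ℂˣ) : ℂ) * Φ' o n) (u : (Ω → Q) → ℤ)
    (hu : ∀ n m : Ω → Q, (∀ o, n o ∈ C (β o) (m o)) → u n = u m)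
    (hu' : ∀ (z : Ω → Z) (n : Ω → Q), (∏ o, μ (z o)) = 1 → u (fun o => z o * n o) = u n) :
    ∃ (ι : Type) (_ : Fintype ι) (r : ι → (Ω → Q)),
      ∑ n : Ω → Q, ((u n : ℤ) : ℂ) * ∏ o, Φ o (n o) =
        (Nat.card (pr (Ω := Ω) μ).ker : ℂ) * ∑ i, ((u (r i) : ℤ) : ℂ) * T β Φ (r i) ∧
      ∑ n : Ω → Q, ((u n : ℤ) : ℂ) * ∏ o, Φ' o (n o) =
        (Nat.card (pr (Ω := Ω) μ).ker : ℂ) * ∑ i, ((u (r i) : ℤ) : ℂ) * T β Φ' (r i) := by
  classical
  let _ : MulAction (pr (Ω := Ω) μ).ker (Quotient (St β)) := mact μ hZ β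
  let _ : Fintype (Quotient (St β)) := Fintype.ofFinite _
  let _ : Fintype (MulAction.orbitRel.Quotient (pr (Ω := Ω) μ).ker (Quotient (St β))) :=
    Fintype.ofFinite _
  have key : ∀ Ψ : Ω → Q → ℂ, (∀ o (z : Z) n, Ψ o (z * n) = ((μ z : ℂˣ) : ℂ) * Ψ o n) →
      ∑ n : Ω → Q, ((u n : ℤ) : ℂ) * ∏ o, Ψ o (n o) =
        (Nat.card (pr (Ω := Ω) μ).ker : ℂ) *
          ∑ w : MulAction.orbitRel.Quotient (pr (Ω := Ω) μ).ker (Quotient (St β)),
            ((u (Quotient.out (Quotient.out w)) : ℤ) : ℂ) *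
              T β Ψ (Quotient.out (Quotient.out w)) := by
    intro Ψ hΨ
    rw [sum_FY β Ψ u hu, sum_orbits (V := (pr (Ω := Ω) μ).ker) (FY β Ψ u hu)]
    · congr 1
      refine Finset.sum_congr rfl fun w _ => ?_
      exact congrArg (FY β Ψ u hu) (Quotient.out_eq (Quotient.out w)).symm
    · intro v y
      induction y using Quotient.ind with
      | _ n =>
        change ((u (fun o => (((v : Ω → Z) o : Z) : Q) * n o) : ℤ) : ℂ) *
          T β Ψ (fun o => (((v : Ω → Z) o : Z) : Q) * n o) = ((u n : ℤ) : ℂ) * T β Ψ n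
        rw [hu' _ _ v.2, T_mul μ hZ β Ψ hΨ _ v.2]
    · intro v y hv hne
      induction y using Quotient.ind with
      | _ n =>
        have h1 : ∀ o, (((v : Ω → Z) o : Z) : Q) * n o ∈ C (β o) (n o) := Quotient.exact hv
        change ((u n : ℤ) : ℂ) * T β Ψ n = 0
        rw [T_zero μ hZ hμ β Ψ hΨ (v : Ω → Z) (fun h => hne (Subtype.ext h)) n h1, mul_zero]
  exact ⟨_, inferInstance, fun w => Quotient.out (Quotient.out w), key Φ hΦ, key Φ' hΦ'⟩

end PRC

theorem PRC_thm : Stmt_PRC := by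
  classical
  intro Q Ω _ _ _ 𝔐 ℓ _ h𝔐 hℓ Z μ hZ hμ β hβ Φ Φ' hΦ hΦ' hw u hu hu'
  have hu1 : ∀ n m : Ω → Q, (∀ o, n o ∈ PRC.C (β o) (m o)) → u n = u m := by
    intro n m h
    have h1 : ∀ o, ∃ a, n o = β o a * m o * a⁻¹ := fun o => PRC.mem_C.mp (h o)
    choose a ha using h1
    rw [← hu a m]
    congr 1
    funext o
    exact ha o
  obtain ⟨ι, _, r, h1, h2⟩ := PRC.sum_eq μ hZ hμ β Φ Φ' hΦ hΦ' u hu1 hu'
  have hcard : Nat.card {z : Ω → Z // ∏ o, μ (z o) = 1} = Nat.card (PRC.pr (Ω := Ω) μ).ker := rfl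
  have hne : (Nat.card (PRC.pr (Ω := Ω) μ).ker : ℂ) ≠ 0 := by
    exact_mod_cast Nat.card_pos.ne'
  rw [h1, h2, hcard, mul_div_cancel_left₀ _ hne, mul_div_cancel_left₀ _ hne]
  have h3 := fun i => PRC.T_red 𝔐 β Φ Φ' hw (r i)
  have h4 : ∀ i, IsIntegral ℤ (((u (r i) : ℤ) : ℂ) * PRC.T β Φ (r i)) := fun i =>
    (PRC.isIntegral_intCast _).mul (h3 i).1
  have h5 : ∀ i, IsIntegral ℤ (((u (r i) : ℤ) : ℂ) * PRC.T β Φ' (r i)) := fun i =>
    (PRC.isIntegral_intCast _).mul (h3 i).2.1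
  refine ⟨isIntegral_sum _ _ fun i _ => h4 i, ?_⟩
  rw [red_sum 𝔐 _ _ fun i _ => h4 i, red_sum 𝔐 _ _ fun i _ => h5 i]
  refine Finset.sum_congr rfl fun i _ => ?_
  rw [red_mul 𝔐 (PRC.isIntegral_intCast _) (h3 i).1,
    red_mul 𝔐 (PRC.isIntegral_intCast _) (h3 i).2.1, (h3 i).2.2]

end Pool.Agent.DPG
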