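import Mathlib
import Pool.Agent.DPG.StmtsB
import Pool.Agent.DP.INTH

/-!
# PRF: products of the scalars on cosets
-/

namespace Pool.Agent.DPG

open Pool.Agent.DP Pool.Agent.DPC Pool.Agent.DPM Pool.Agent.DPN Pool.Agent.DPF
  Pool.Agent.DPK Pool.Agent.Lib_helper13 Representation
open Pool.Agent.Lib_helper13.Dade (pCore DadeHolds dadeSum)

namespace PRF

theorem clG_normal' {H : Type} [Group H] (N : Subgroup H) [N.Normal] :
    ClG N.subtype (MulAut.conjNormal (H := N)) (QuotientGroup.mk' N) where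
  inj := N.subtype_injective
  act := by
    intro y a
    exact MulAut.conjNormal_apply y a
  ker := by
    intro y
    rw [N.range_subtype]
    exact QuotientGroup.eq_one_iff y

/-- The scalars are integral. -/
theorem int_sc {L K : Type} [Group L] [Fintype L] [Group K] (π : L →* K) (N M S : Subgroup K)
    [N.Normal] (hNM : N ≤ M) (F : L → ℂ) (hF : EF π N M S F) (U : L → ℤ)
    (hU : CIv (N.comap π) U) : IsIntegral ℤ ((∑ x, ((U x : ℤ) : ℂ) * F x) / F 1) := by
  classical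
  refine INTH_thm (N.comap π) L (L ⧸ N.comap π) (N.comap π).subtype
    (MulAut.conjNormal (H := N.comap π)) (QuotientGroup.mk' (N.comap π))
    (clG_normal' (N.comap π)) (AL π M S) F hF.irr ?_ (fun x => ((U x : ℤ) : ℂ)) ?_ ?_
  · refine ⟨?_, ?_⟩
    · let e : ↥((AL π M S).comap (N.comap π).subtype) ≃* ↥(AL π N S) :=
        { toFun := fun s => ⟨((s : ↥(N.comap π)) : L), ⟨s.1.2, s.2.2⟩⟩
          invFun := fun s => ⟨⟨(s : L), s.2.1⟩, ⟨hNM s.2.1, s.2.2⟩⟩
          left_inv := fun s => rfl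
          right_inv := fun s => rfl
          map_mul' := fun s t => rfl }
      exact IsIrr.comp_mulEquiv (χ := fun a : AL π N S => F a) hF.res e
    · intro x hx
      exact hF.irr.2 _ (fun h => hx h)
  · intro x
    exact isIntegral_algebraMap (R := ℤ) (A := ℂ) (x := U x)
  · intro h x
    have := hU (h : L) h.2 x
    change (((U (h * x * (h : L)⁻¹) : ℤ)) : ℂ) = _
    rw [this]

section Coset

variable {K1 Q L1 : Type} [Group K1] [Group Q] [Fintype Q] [Group L1]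

open Classical in
/-- The function on the coset. -/
noncomputable def UU (ι : Q →* L1) (g : L1) (w : Q → ℤ) (y : L1) : ℤ :=
  ∑ n, if g * ι n = y then w n else 0

theorem sum_UU [Fintype L1] (ι : Q →* L1) (g : L1) (w : Q → ℤ) (F : L1 → ℂ) :
    ∑ y, ((UU ι g w y : ℤ) : ℂ) * F y = ∑ n, ((w n : ℤ) : ℂ) * F (g * ι n) := by
  classical
  have h1 : ∀ y, ((UU ι g w y : ℤ) : ℂ) * F y =
      ∑ n, if g * ι n = y then ((w n : ℤ) : ℂ) * F y else 0 := by
    intro y
    rw [UU, Int.cast_sum, Finset.sum_mul]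
    refine Finset.sum_congr rfl fun n _ => ?_
    split_ifs
    · rfl
    · simp
  simp only [h1]
  rw [Finset.sum_comm]
  refine Finset.sum_congr rfl fun n _ => ?_
  rw [Finset.sum_ite_eq]
  simp

theorem UU_inv {q : Q →* K1} {α : K1 →* MulAut Q} {π1 : L1 →* K1} {ι : Q →* L1}
    (hc : π1.ker ≤ Subgroup.center L1) (hπι : ∀ x, π1 (ι x) = q x)
    (hια : ∀ y x, ι (α (π1 y) x) = y * ι x * y⁻¹) (g : L1) (w : Q → ℤ)
    (hw : ∀ a n, w (α (π1 g)⁻¹ a * n * a⁻¹) = w n) :
    CIv (q.range.comap π1) (UU ι g w) := by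
  classical
  intro s hs x
  obtain ⟨a, ha⟩ := hs
  -- the conjugation by `s` is the conjugation by `ι a`
  have hc' : s * (ι a)⁻¹ ∈ Subgroup.center L1 := by
    apply hc
    rw [MonoidHom.mem_ker, map_mul, map_inv, hπι, ha, mul_inv_cancel]
  have h1 : s * x * s⁻¹ = ι a * x * (ι a)⁻¹ := by
    have h2 := Subgroup.mem_center_iff.mp hc' (ι a * x * (ι a)⁻¹)
    have h3 : s = (s * (ι a)⁻¹) * ι a := by group
    calc s * x * s⁻¹ = (s * (ι a)⁻¹) * (ι a * x * (ι a)⁻¹) * (s * (ι a)⁻¹)⁻¹ := by group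
      _ = _ := by rw [← h2]; group
  rw [h1, UU, UU]
  let e : Q ≃ Q :=
    { toFun := fun n => α (π1 g)⁻¹ a * n * a⁻¹
      invFun := fun n => (α (π1 g)⁻¹ a)⁻¹ * n * a
      left_inv := fun n => by group
      right_inv := fun n => by group }
  rw [← Equiv.sum_comp e]
  refine Finset.sum_congr rfl fun n _ => ?_
  have h4 : g * ι (e n) = ι a * (g * ι n) * (ι a)⁻¹ := by
    change g * ι (α (π1 g)⁻¹ a * n * a⁻¹) = _
    rw [← map_inv, map_mul, map_mul, hια, map_inv]
    group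
  have h5 : w (e n) = w n := hw a n
  rw [h4, h5]
  by_cases h6 : g * ι n = x
  · rw [if_pos h6, if_pos (by rw [h6])]
  · rw [if_neg h6, if_neg]
    intro h7
    apply h6
    have h8 : ι a * (g * ι n) = ι a * x := mul_right_cancel h7
    exact mul_left_cancel h8

end Coset

end PRF

theorem PRF_thm (h1 : Stmt_PRC) : Stmt_PRF := by
  classical
  intro L K K1 Q L1 Ω _ _ _ _ _ _ _ _ _ _ _ 𝔐 ℓ _ h𝔐 hℓ π μ φ q α ε μQ π1 μ1 ι M M1 wd ld mm
    S S' F F' hF hF' hO hO' hsc x hx u hu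
  have hN1 : q.range.Normal := by
    refine ⟨?_⟩
    rintro _ ⟨a, rfl⟩ k
    exact ⟨α k a, wd.qe k a⟩
  -- the coordinates of `x`
  have hx1 : (φ (π x.1)) = gmap Ω π1 x.2 := hx.1
  have hxM : π x.1 ∈ M := hx.2
  have hr : (φ (π x.1)).right = 1 := mm.r _ hxM
  have hl : ∀ o, (φ (π x.1)).left o = π1 (x.2.left o) := by
    intro o
    rw [hx1]
    rfl
  -- integrality and reduction on one coordinate
  have key : ∀ o (w : Q → ℤ),
      (∀ a n, w ((α (π1 (x.2.left o))⁻¹) a * n * a⁻¹) = w n) →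
      IsIntegral ℤ (∑ n, ((w n : ℤ) : ℂ) * (F (x.2.left o * ι n) / F 1)) ∧
      IsIntegral ℤ (∑ n, ((w n : ℤ) : ℂ) * (F' (x.2.left o * ι n) / F' 1)) ∧
      red 𝔐 (∑ n, ((w n : ℤ) : ℂ) * (F (x.2.left o * ι n) / F 1)) =
        red 𝔐 (∑ n, ((w n : ℤ) : ℂ) * (F' (x.2.left o * ι n) / F' 1)) := by
    intro o w hw
    have hU := PRF.UU_inv (q := q) (α := α) ld.c ld.πι ld.ια (x.2.left o) w hw
    have e1 : ∀ G : L1 → ℂ, ∑ n, ((w n : ℤ) : ℂ) * (G (x.2.left o * ι n) / G 1) =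
        (∑ y, ((PRF.UU ι (x.2.left o) w y : ℤ) : ℂ) * G y) / G 1 := by
      intro G
      rw [PRF.sum_UU, Finset.sum_div]
      refine Finset.sum_congr rfl fun n _ => ?_
      rw [mul_div_assoc]
    rw [e1 F, e1 F']
    exact ⟨PRF.int_sc π1 q.range M1 S mm.le1 F hF _ hU,
      PRF.int_sc π1 q.range M1 S' mm.le1 F' hF' _ hU, hsc _ hU⟩
  have hZc : q.ker ≤ Subgroup.center Q := by
    intro z hz
    rw [Subgroup.mem_center_iff]
    intro g
    have h2 := wd.qα z g
    rw [(MonoidHom.mem_ker).mp hz, map_one, MulAut.one_apply] at h2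
    calc g * z = (z * g * z⁻¹) * z := by rw [← h2]
      _ = z * g := by group
  have hΦ : ∀ (G : L1 → ℂ), Ov π1 μ1 G → ∀ o (z : q.ker) n,
      G (x.2.left o * ι (z * n)) / G 1 =
        ((μQ z : ℂˣ) : ℂ) * (G (x.2.left o * ι n) / G 1) := by
    intro G hG o z n
    have h2 : ι (z : Q) ∈ π1.ker := by
      rw [MonoidHom.mem_ker, ld.πι]
      exact z.2
    have h3 := Subgroup.mem_center_iff.mp (ld.c h2) (x.2.left o)
    have h4 : x.2.left o * ι ((z : Q) * n) = (⟨ι (z : Q), h2⟩ : π1.ker) * (x.2.left o * ι n) := by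
      change _ = ι (z : Q) * (x.2.left o * ι n)
      rw [map_mul, ← mul_assoc, h3, mul_assoc]
    rw [h4, hG, ld.μι z h2, mul_div_assoc]
  -- the function on `Ω → Q`
  have hact : ∀ a n : Ω → Q,
      u (x.1 * ε (fun o => α (π1 (x.2.left o))⁻¹ (a o) * n o * (a o)⁻¹)) = u (x.1 * ε n) := by
    intro a n
    have h2 : (fun o => α (π1 (x.2.left o))⁻¹ (a o) * n o * (a o)⁻¹) =
        wB α Ω (φ (π x.1⁻¹)) a * n * a⁻¹ := by
      funext o
      have h3 : wB α Ω (φ (π x.1⁻¹)) a o = α (π1 (x.2.left o))⁻¹ (a o) := by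
        rw [wB_apply, map_inv, map_inv, SemidirectProduct.inv_right, hr, inv_one, inv_one,
          one_smul, SemidirectProduct.inv_left, hr, ← hl]
        simp
      change _ = wB α Ω (φ (π x.1⁻¹)) a o * n o * (a o)⁻¹
      rw [h3]
    rw [h2, map_mul, map_mul, wd.cj, map_inv, inv_inv]
    have h4 : x.1 * (x.1⁻¹ * ε a * x.1 * ε n * (ε a)⁻¹) = ε a * (x.1 * ε n) * (ε a)⁻¹ := by
      group
    rw [h4]
    exact hu (ε a) ⟨ε a, ⟨a, rfl⟩, rfl⟩ _
  have hker : ∀ n : Ω → Q, ε n = 1 ↔ ∃ h : ∀ o, n o ∈ q.ker, ∏ o, μQ ⟨n o, h o⟩ = 1 := by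
    intro n
    constructor
    · intro hn
      have h2 : ∀ o, n o ∈ q.ker := by
        intro o
        have h3 := wd.φε n
        rw [hn, map_one, map_one] at h3
        have h4 := congrArg (fun t : Gam (Equiv.Perm Ω) Ω K1 => t.left o) h3
        exact h4.symm
      refine ⟨h2, ?_⟩
      have h5 : ε n ∈ π.ker := by
        rw [hn]
        exact π.ker.one_mem
      rw [← wd.με n h2 h5]
      have h6 : (⟨ε n, h5⟩ : π.ker) = 1 := Subtype.ext hn
      rw [h6, map_one]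
    · rintro ⟨h2, h3⟩
      have h5 : ε n ∈ π.ker := by
        rw [MonoidHom.mem_ker]
        apply wd.φi
        rw [wd.φε, map_one]
        have h6 : (fun o => q (n o)) = 1 := by
          funext o
          exact h2 o
        rw [h6]
        rfl
      have h7 := wd.με n h2 h5
      rw [h3] at h7
      have h8 : (⟨ε n, h5⟩ : π.ker) = 1 := wd.μi (h7.trans (map_one μ).symm)
      exact congrArg Subtype.val h8
  have hV : ∀ (z : Ω → q.ker) (n : Ω → Q), (∏ o, μQ (z o)) = 1 →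
      u (x.1 * ε (fun o => z o * n o)) = u (x.1 * ε n) := by
    intro z n hz
    have h2 : (fun o => (z o : Q) * n o) = (fun o => (z o : Q)) * n := rfl
    have h3 : ε (fun o => (z o : Q)) = 1 := (hker _).mpr ⟨fun o => (z o).2, hz⟩
    rw [h2, map_mul, h3, one_mul]
  have hcard : Nat.card ε.ker = Nat.card {z : Ω → q.ker // ∏ o, μQ (z o) = 1} := by
    refine Nat.card_congr ?_
    refine
      { toFun := fun n => ⟨fun o => ⟨n.1 o, ((hker n.1).mp n.2).1 o⟩, ((hker n.1).mp n.2).2⟩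
        invFun := fun z => ⟨fun o => (z.1 o : Q), (hker _).mpr ⟨fun o => (z.1 o).2, z.2⟩⟩
        left_inv := fun n => rfl
        right_inv := fun z => rfl }
  have hpsm : ∀ G : L1 → ℂ, psm ε ι G u x =
      (∑ n : Ω → Q, (((fun n => u (x.1 * ε n)) n : ℤ) : ℂ) *
        ∏ o, (fun o n => G (x.2.left o * ι n) / G 1) o (n o)) /
      Nat.card {z : Ω → q.ker // ∏ o, μQ (z o) = 1} := by
    intro G
    rw [psm, hcard]
    have h2 : ∀ n : Ω → Q, (((fun n => u (x.1 * ε n)) n : ℤ) : ℂ) *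
        ∏ o, (fun o n => G (x.2.left o * ι n) / G 1) o (n o) =
        (((u (x.1 * ε n) : ℤ) : ℂ) * ∏ o, G (x.2.left o * ι (n o))) /
          G 1 ^ Fintype.card Ω := by
      intro n
      change ((u (x.1 * ε n) : ℤ) : ℂ) * ∏ o, (G (x.2.left o * ι (n o)) / G 1) = _
      rw [Finset.prod_div_distrib, Finset.prod_const, Finset.card_univ, mul_div_assoc]
    rw [Finset.sum_congr rfl fun n _ => h2 n, ← Finset.sum_div, div_div]
    congr 1
    exact mul_comm _ _
  rw [hpsm F, hpsm F']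
  have h9 := h1 Q Ω 𝔐 ℓ h𝔐 hℓ q.ker μQ hZc wd.μQi (fun o => α (π1 (x.2.left o))⁻¹)
    (fun o z hz => wd.αz _ z hz)
    (fun o n => F (x.2.left o * ι n) / F 1) (fun o n => F' (x.2.left o * ι n) / F' 1)
    (fun o z n => hΦ F hO o z n) (fun o z n => hΦ F' hO' o z n) key
    (fun n => u (x.1 * ε n)) hact hV
  have h9' := h1 Q Ω 𝔐 ℓ h𝔐 hℓ q.ker μQ hZc wd.μQi (fun o => α (π1 (x.2.left o))⁻¹)
    (fun o z hz => wd.αz _ z hz)
    (fun o n => F' (x.2.left o * ι n) / F' 1) (fun o n => F (x.2.left o * ι n) / F 1)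
    (fun o z n => hΦ F' hO' o z n) (fun o z n => hΦ F hO o z n)
    (fun o w hw => ⟨(key o w hw).2.1, (key o w hw).1, (key o w hw).2.2.symm⟩)
    (fun n => u (x.1 * ε n)) hact hV
  exact ⟨h9.1, h9'.1, h9.2⟩

end Pool.Agent.DPG
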