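import Mathlib
import Pool.Agent.DPG.StmtsA
import Pool.Agent.DPG.NPT
import Pool.Agent.DPN.MINX
import Pool.Agent.DPF.DGI

/-!
# PSN: no character of the inverse image of `N` covered by `ω` has minimal defect
-/

set_option autoImplicit false

namespace Pool.Agent.DPG

open Pool.Agent.DP Pool.Agent.DPC Pool.Agent.DPM Pool.Agent.DPN Pool.Agent.DPF
  Pool.Agent.Lib_helper13 Representation
open Pool.Agent.Lib_helper13.Dade (pCore DadeHolds dadeSum)

namespace PSN

section

variable {L : Type} [Group L] [Fintype L] {𝔐 : Ideal (integralClosure ℤ ℂ)}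

/-- Characters with the same scalars of the invariant functions belong to the same block. -/
theorem cen_id (S : Subgroup L) [Fintype S] {F G : L → ℂ} (hF : ∀ x, x ∉ S → F x = 0)
    (hG : ∀ x, x ∉ S → G x = 0)
    (h : ∀ u : L → ℤ, CIv S u → SOn (S : Set L) u → sc 𝔐 F u = sc 𝔐 G u) :
    cen 𝔐 (MonoidHom.id S) (fun s : S => F s) = cen 𝔐 (MonoidHom.id S) (fun s : S => G s) := by
  classical
  funext g
  obtain ⟨u, hu1, hu2⟩ : ∃ u : L → ℤ, (∀ s : S, u s = if IsConj s g then 1 else 0) ∧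
      ∀ x, x ∉ S → u x = 0 := by
    refine ⟨fun x => if h : x ∈ S then (if IsConj (⟨x, h⟩ : S) g then 1 else 0) else 0, ?_, ?_⟩
    · intro s
      simp only [s.2, dif_pos]
    · intro x hx
      simp only [hx, dif_neg, not_false_eq_true]
  have hu : CIv S u := by
    intro s hs x
    by_cases hx : x ∈ S
    · have h1 := hu1 (⟨s, hs⟩ * ⟨x, hx⟩ * ⟨s, hs⟩⁻¹)
      have h2 := hu1 ⟨x, hx⟩
      have h3 : IsConj ((⟨s, hs⟩ * ⟨x, hx⟩ * ⟨s, hs⟩⁻¹ : S)) g ↔ IsConj (⟨x, hx⟩ : S) g := by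
        have h4 : IsConj (⟨x, hx⟩ : S) (⟨s, hs⟩ * ⟨x, hx⟩ * ⟨s, hs⟩⁻¹) :=
          isConj_iff.mpr ⟨⟨s, hs⟩, rfl⟩
        exact ⟨fun h => h4.trans h, fun h => h4.symm.trans h⟩
      simp only [h3] at h1
      exact h1.trans h2.symm
    · have h1 : s * x * s⁻¹ ∉ S := by
        intro h2
        apply hx
        have h3 := S.mul_mem (S.mul_mem (S.inv_mem hs) h2) hs
        have h4 : s⁻¹ * (s * x * s⁻¹) * s = x := by group
        rwa [h4] at h3
      rw [hu2 _ h1, hu2 _ hx]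
  have h1 : (fun y : S => conjInd ((MonoidHom.id S) y) g) = fun s : S => ((u s : ℤ) : ℂ) := by
    funext s
    rw [hu1, conjInd]
    simp only [MonoidHom.id_apply]
    split_ifs
    · simp
    · simp
  rw [cen, cen, h1, ← BEM.sc_sub S hF, ← BEM.sc_sub S hG, h u hu hu2]

end

/-- Two characters of a block over the same linear character of a central subgroup `C` are equal
if one of them has the defect of `C`. -/
theorem min_eq {N : Type} [Group N] [Fintype N] {𝔐 : Ideal (integralClosure ℤ ℂ)} {ℓ : ℕ}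
    [Fact ℓ.Prime] (hmax : 𝔐.IsMaximal) (hℓ : (ℓ : integralClosure ℤ ℂ) ∈ 𝔐) (C : Subgroup N)
    (hC : C ≤ Subgroup.center N) (lam : C →* ℂˣ) {ψ χ : N → ℂ} (hψ : IsIrr ψ) (hχ : IsIrr χ)
    (hd : HasDefect ℓ ψ (padicValNat ℓ (Nat.card C)))
    (hc : cen 𝔐 (MonoidHom.id N) χ = cen 𝔐 (MonoidHom.id N) ψ)
    (hψl : ∀ (z : C) (x : N), ψ (z * x) = ((lam z : ℂˣ) : ℂ) * ψ x)
    (hχl : ∀ (z : C) (x : N), χ (z * x) = ((lam z : ℂˣ) : ℂ) * χ x) : χ = ψ := by
  classical
  obtain ⟨P⟩ : Nonempty (Sylow ℓ C) := inferInstance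
  have hcard : Nat.card ↥((P : Subgroup C).map C.subtype) = Nat.card P :=
    Nat.card_congr ((P : Subgroup C).equivMapOfInjective C.subtype
      C.subtype_injective).toEquiv.symm
  have hv : padicValNat ℓ (Nat.card ↥((P : Subgroup C).map C.subtype)) =
      padicValNat ℓ (Nat.card C) := by
    rw [hcard, Sylow.card_eq_multiplicity, padicValNat.prime_pow, Nat.factorization_def _
      (Fact.out : ℓ.Prime)]
  have hle : (P : Subgroup C).map C.subtype ≤ C := by
    rintro _ ⟨x, -, rfl⟩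
    exact x.2
  refine (MINX_thm N 𝔐 ℓ hmax hℓ ((P : Subgroup C).map C.subtype) (hle.trans hC)
    (P.2.map C.subtype) ψ hψ (by rw [hv]; exact hd)).2
    (lam.comp (Subgroup.inclusion hle)) χ ψ hχ hψ hc rfl ?_ ?_
  · intro z x
    exact hχl (Subgroup.inclusion hle z) x
  · intro z x
    exact hψl (Subgroup.inclusion hle z) x

/-- The defects of a character and of a constituent of its restriction to a normal subgroup of
index prime to `ℓ`. -/
theorem defect {A Y K : Type} [Group A] [Fintype A] [Group Y] [Fintype Y] [Group K]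
    {j : A →* Y} {c : Y →* MulAut A} {p : Y →* K} (hc : ClG j c p) {ℓ : ℕ} [Fact ℓ.Prime]
    (hcard : padicValNat ℓ (Nat.card Y) = padicValNat ℓ (Nat.card A)) {η : Y → ℂ} {κ : A → ℂ}
    (hη : IsIrr η) (hκ : IsIrr κ) (h0 : ip (resj j η) κ ≠ 0) {a : ℕ} (ha : HasDefect ℓ κ a) :
    HasDefect ℓ η a := by
  obtain ⟨d, hd⟩ := hη.exists_defect (ℓ := ℓ)
  have h1 : a ≤ d := all_DEFA A Y K ℓ j c p hc η κ hη hκ h0 d a hd ha
  have hd' := hd
  obtain ⟨m, hm⟩ := DGI.degree_mul hc hη hκ h0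
  obtain ⟨n, hn, hn'⟩ := hd
  obtain ⟨k, hk, hk'⟩ := ha
  have hn0 : n ≠ 0 := by
    rintro rfl
    exact hη.one_ne_zero (by rw [hn]; simp)
  have h2 : n = m * k := by
    have : (n : ℂ) = m * k := by rw [← hn, hm, hk]
    exact_mod_cast this
  have hm0 : m ≠ 0 := by
    rintro rfl
    exact hn0 (by rw [h2, zero_mul])
  have hk0 : k ≠ 0 := by
    rintro rfl
    exact hn0 (by rw [h2, mul_zero])
  have h3 : padicValNat ℓ n = padicValNat ℓ m + padicValNat ℓ k := by
    rw [h2, padicValNat.mul hm0 hk0]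
  have h4 : d = a := by omega
  rw [← h4]
  exact hd'

end PSN

open PSN in
/-- PSN: no character of the inverse image of `N` covered by `ω` has minimal defect. -/
theorem PSN_thm (h1 : Stmt_IRC) : Stmt_PSN := by
  classical
  intro L K _ _ _ _ 𝔐 ℓ _ hmax hℓ π hπ hπc μ N M _ _ hNM hidx ω hpos hSTB σ θ hσ hθ f0 hf0 f hf
    hfo hfs hdef
  haveI hNn : (N.comap π).Normal := inferInstance
  haveI hMn : (M.comap π).Normal := inferInstance
  haveI : Fintype ↥(N.comap π) := Fintype.ofFinite _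
  haveI : Fintype ↥(M.comap π) := Fintype.ofFinite _
  have hle : N.comap π ≤ M.comap π := Subgroup.comap_mono hNM
  have hk : π.ker ≤ N.comap π := by
    intro z hz
    rw [Subgroup.mem_comap, MonoidHom.mem_ker.mp hz]
    exact N.one_mem
  obtain ⟨χ, hχ, hχo, hχs⟩ := h1 L K 𝔐 ℓ hmax hℓ π hπ hπc μ M σ hσ θ hθ.irr hθ.ovl
  have hcen := BEM.cen_eq (𝔐 := 𝔐) (M.comap π) hχ.2 hχs (ω := ω) (fun g hg => hθ.cn g hg)
  have hcgχ : ∀ g, π g ∈ M → cg 𝔐 χ g = ω g := by
    intro g hg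
    have hgM : g ∈ M.comap π := hg
    rw [BEM.cg_eq, hχs (BEM.cI g) (fun s _ x => BEM.cI_conj g s x)
      (fun x hx => BEM.cI_not_mem (M.comap π) hgM hx), ← BEM.cg_eq, hθ.cn g hg]
  -- a constituent of the restriction
  have hN : ∀ t ∈ M.comap π, ∀ a, a ∈ N.comap π ↔ t * a * t⁻¹ ∈ N.comap π := by
    intro t _ a
    constructor
    · intro ha
      exact hNn.conj_mem a ha t
    · intro ha
      have h2 := hNn.conj_mem _ ha t⁻¹
      have e : t⁻¹ * (t * a * t⁻¹) * t⁻¹⁻¹ = a := by group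
      rwa [e] at h2
  haveI hnq := NPT.normal _ _ hN
  have hcl := NPT.clg _ _ hle hN
  obtain ⟨f', hf', hip⟩ := Cliff.exists_under hχ.1 (Subgroup.inclusion hle)
  have hfe : (fun s : ↥(N.comap π) => (ext0 f' : L → ℂ) s) = f' := by
    funext s
    exact ext0_of_mem f' s.2
  have hfI : IrrOn (N.comap π) (ext0 f') :=
    ⟨by rw [hfe]; exact hf', fun x hx => ext0_of_not_mem f' hx⟩
  have hov : Ov π μ (ext0 f' : L → ℂ) := NPT.ov hπc hle hk hχo hf' hip
  have hcg : ∀ g, π g ∈ N → cg 𝔐 (ext0 f' : L → ℂ) g = ω g := by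
    intro g hg
    have hgN : g ∈ N.comap π := hg
    rw [← hcgχ g (hNM hg), BEM.cg_eq, BEM.cg_eq, BEM.sc_sub (N.comap π) hfI.2,
      BEM.sc_sub (M.comap π) hχ.2, hfe]
    have h3 := (SUMM_thm _ _ _ _ _ _ hcl).2.2.2 f' (fun t : ↥(M.comap π) => χ t)
      (fun t => ((BEM.cI g t : ℤ) : ℂ)) hf' hχ.1 hip (by
        intro s x
        simp only [Subgroup.coe_mul, Subgroup.coe_inv]
        rw [BEM.cI_conj]) (by
        intro t ht
        rw [BEM.cI_not_mem (N.comap π) hgN, Int.cast_zero]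
        intro h4
        apply ht
        exact ⟨⟨t, h4⟩, Subtype.ext rfl⟩)
    rw [h3]
    rfl
  -- the constituent belongs to the block of `f`
  have hsc : ∀ u : L → ℤ, CIv (N.comap π) u → SOn (N.comap π : Set L) u →
      sc 𝔐 (ext0 f' : L → ℂ) u = sc 𝔐 f u := by
    intro u hu hus
    obtain ⟨y, hy⟩ := NPT.agree ℓ hmax hℓ (N.comap π) hfI hf0.1 (fun g hg => by
      rw [hcg g hg, hf0.2.2 g hg])
    rw [hy u hu, hfs u hu hus]
    exact hSTB f0 hf0 u hu hus y
  have hblk := cen_id (N.comap π) hfI.2 hf.2 hsc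
  -- the two characters are equal
  have hC : (π.ker.subgroupOf (N.comap π)) ≤ Subgroup.center ↥(N.comap π) := by
    intro z hz
    rw [Subgroup.mem_subgroupOf] at hz
    rw [Subgroup.mem_center_iff]
    intro g
    exact Subtype.ext (Subgroup.mem_center_iff.mp (hπc hz) g)
  have hcC : Nat.card ↥(π.ker.subgroupOf (N.comap π)) = Nat.card π.ker :=
    Nat.card_congr (Subgroup.subgroupOfEquivOfLe hk).toEquiv
  have heq : (fun s : ↥(N.comap π) => (ext0 f' : L → ℂ) s) = fun s : ↥(N.comap π) => f s := by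
    refine min_eq hmax hℓ (π.ker.subgroupOf (N.comap π)) hC
      (μ.comp (Subgroup.subgroupOfEquivOfLe hk).toMonoidHom) hf.1 hfI.1 ?_ hblk ?_ ?_
    · rw [hcC]
      exact hdef
    · intro z x
      exact hfo ⟨((z : ↥(N.comap π)) : L), z.2⟩ x
    · intro z x
      exact hov ⟨((z : ↥(N.comap π)) : L), z.2⟩ x
  have hdf' : HasDefect ℓ f' (padicValNat ℓ (Nat.card π.ker)) := by
    rw [← hfe, heq]
    exact hdef
  -- the defect of `χ`
  have hri : (N.comap π).relIndex (M.comap π) = N.relIndex M := by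
    rw [Subgroup.relIndex_comap, Subgroup.map_comap_eq_self_of_surjective hπ]
  have hcard : padicValNat ℓ (Nat.card ↥(M.comap π)) = padicValNat ℓ (Nat.card ↥(N.comap π)) := by
    have h2 := Subgroup.card_mul_index ((N.comap π).subgroupOf (M.comap π))
    have h3 : Nat.card ↥((N.comap π).subgroupOf (M.comap π)) = Nat.card ↥(N.comap π) :=
      Nat.card_congr (Subgroup.subgroupOfEquivOfLe hle).toEquiv
    have h4 : ((N.comap π).subgroupOf (M.comap π)).index = N.relIndex M := hri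
    rw [h3, h4] at h2
    have h5 : N.relIndex M ≠ 0 := by
      intro h6
      rw [h6] at hidx
      exact hidx (dvd_zero ℓ)
    rw [← h2, padicValNat.mul Nat.card_pos.ne' h5, padicValNat.eq_zero_of_not_dvd hidx, add_zero]
  have hdχ := defect hcl hcard hχ.1 hf' hip hdf'
  refine hpos (fun s : ↥(M.comap π) => χ s) hχ.1 ?_ hdχ ?_
  · intro s t hs
    exact hχo ⟨(s : L), hs⟩ t
  · intro g hg
    have h6 := hcen g
    rw [if_pos hg] at h6
    rw [← h6]
    congr 1
    exact Subsingleton.elim _ _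

end Pool.Agent.DPG
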