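import Mathlib
import Pool.Agent.DPG.StmtsA

/-!
# PST: passage to the orbits of a Sylow subgroup
-/

namespace Pool.Agent.DPG

open Pool.Agent.DP Pool.Agent.DPC Pool.Agent.DPM Pool.Agent.DPN Pool.Agent.DPF
  Pool.Agent.Lib_helper13 Representation
open Pool.Agent.Lib_helper13.Dade (pCore DadeHolds dadeSum)

namespace PST

/-! ### Cocycles -/

theorem inv_app {G Ω : Type} [Group G] (a : G →* Equiv.Perm Ω) (g : G) (o : Ω) :
    a g⁻¹ (a g o) = o := by
  rw [← Equiv.Perm.mul_apply, ← map_mul, inv_mul_cancel, map_one, Equiv.Perm.one_apply]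

theorem app_inv {G Ω : Type} [Group G] (a : G →* Equiv.Perm Ω) (g : G) (o : Ω) :
    a g (a g⁻¹ o) = o := by
  rw [← Equiv.Perm.mul_apply, ← map_mul, mul_inv_cancel, map_one, Equiv.Perm.one_apply]

/-- A cocycle which is constant on the classes of an invariant equivalence relation gives a
homomorphism to the wreath product. -/
theorem descent {G Ω B : Type} [Group G] [Group B] (a : G →* Equiv.Perm Ω) (c : G → Ω → B)
    (hc : ∀ g h o, c (g * h) o = c g (a h o) * c h o) (r : Setoid Ω)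
    (hr : ∀ g o o', r o o' → r (a g o) (a g o')) (hcr : ∀ g o o', r o o' → c g o = c g o') :
    ∃ ψ' : G →* Gam (Equiv.Perm (Quotient r)) (Quotient r) B,
      (∀ g o, (ψ' g).right (Quotient.mk r o) = Quotient.mk r (a g o)) ∧
      ∀ g o, (ψ' g).left (Quotient.mk r (a g o)) = c g o := by
  have h1 : ∀ o, c 1 o = 1 := by
    intro o
    have h := hc 1 1 o
    rw [mul_one, map_one] at h
    simpa using h
  let p : G → Equiv.Perm (Quotient r) := fun g =>
    { toFun := Quotient.map (a g) (fun o o' h => hr g o o' h)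
      invFun := Quotient.map (a g⁻¹) (fun o o' h => hr g⁻¹ o o' h)
      left_inv := by
        intro q
        induction q using Quotient.inductionOn with
        | h o =>
          rw [Quotient.map_mk, Quotient.map_mk, inv_app]
      right_inv := by
        intro q
        induction q using Quotient.inductionOn with
        | h o =>
          rw [Quotient.map_mk, Quotient.map_mk, app_inv] }
  have hp : ∀ g o, p g (Quotient.mk r o) = Quotient.mk r (a g o) := fun g o => rfl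
  have hp' : ∀ g o, (p g)⁻¹ (Quotient.mk r o) = Quotient.mk r (a g⁻¹ o) := fun g o => rfl
  let le : G → Quotient r → B := fun g =>
    Quotient.lift (fun o => c g (a g⁻¹ o)) (fun o o' h => hcr g _ _ (hr g⁻¹ o o' h))
  have hl : ∀ g o, le g (Quotient.mk r o) = c g (a g⁻¹ o) := fun g o => rfl
  refine ⟨{ toFun := fun g => ⟨le g, p g⟩, map_one' := ?_, map_mul' := ?_ }, ?_, ?_⟩
  · apply SemidirectProduct.ext
    · funext q
      induction q using Quotient.inductionOn with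
      | h o => exact h1 _
    · ext q
      induction q using Quotient.inductionOn with
      | h o =>
        change p 1 (Quotient.mk r o) = _
        rw [hp, map_one]
        rfl
  · intro g h
    apply SemidirectProduct.ext
    · funext q
      induction q using Quotient.inductionOn with
      | h o =>
        change le (g * h) (Quotient.mk r o) =
          le g (Quotient.mk r o) * le h ((p g)⁻¹ (Quotient.mk r o))
        rw [hp', hl, hl, hl, hc, mul_inv_rev, map_mul, Equiv.Perm.mul_apply, app_inv]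
    · ext q
      induction q using Quotient.inductionOn with
      | h o =>
        change p (g * h) (Quotient.mk r o) = p g (p h (Quotient.mk r o))
        rw [hp, hp, hp, map_mul, Equiv.Perm.mul_apply]
  · intro g o
    exact hp g o
  · intro g o
    change le g (Quotient.mk r (a g o)) = _
    rw [hl, inv_app]

/-- Values of a cocycle at elements of order prime to the order of the group of values. -/
theorem triv {W Ω B : Type} [Group W] [Group B] [Finite B] (ℓ : ℕ) [hℓ : Fact ℓ.Prime]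
    (hB : ¬ ℓ ∣ Nat.card B) (a : W →* Equiv.Perm Ω) (c : W → Ω → B)
    (hc : ∀ g h o, c (g * h) o = c g (a h o) * c h o) (s : W) (o : Ω) (hs : a s o = o)
    (k : ℕ) (hk : s ^ ℓ ^ k = 1) : c s o = 1 := by
  have h1 : ∀ o, c 1 o = 1 := by
    intro o
    have h := hc 1 1 o
    rw [mul_one, map_one] at h
    simpa using h
  have h2 : ∀ n : ℕ, c (s ^ n) o = c s o ^ n := by
    intro n
    induction n with
    | zero => rw [pow_zero, pow_zero, h1]
    | succ n ih => rw [pow_succ, hc, hs, ih, pow_succ]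
  have h3 : c s o ^ ℓ ^ k = 1 := by rw [← h2, hk, h1]
  have h4 : orderOf (c s o) ∣ ℓ ^ k := orderOf_dvd_of_pow_eq_one h3
  have h5 : orderOf (c s o) ∣ Nat.card B := orderOf_dvd_natCard _
  have h6 : Nat.Coprime (ℓ ^ k) (Nat.card B) :=
    Nat.Coprime.pow_left k ((Nat.Prime.coprime_iff_not_dvd hℓ.out).mpr hB)
  have h7 : orderOf (c s o) ∣ 1 := by
    rw [← h6.gcd_eq_one]
    exact Nat.dvd_gcd h4 h5
  rw [← orderOf_eq_one_iff]
  exact Nat.dvd_one.mp h7

/-- A cocycle of `Q` which is trivial on the stabilizers is a coboundary. -/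
theorem cobd {W Ω B : Type} [Group W] [Group B] (Q : Subgroup W) (a : W →* Equiv.Perm Ω)
    (c : W → Ω → B) (hc : ∀ g h o, c (g * h) o = c g (a h o) * c h o)
    (ht : ∀ s ∈ Q, ∀ o, a s o = o → c s o = 1) (r : Setoid Ω)
    (hr : ∀ o o', r o o' ↔ ∃ s ∈ Q, a s o = o') (o0 : Ω) :
    ∃ z : Ω → B, z o0 = 1 ∧ ∀ s ∈ Q, ∀ o, c s o = z (a s o) * (z o)⁻¹ := by
  have h0 : ∀ o, ∃ s ∈ Q, a s (Quotient.mk r o).out = o := by
    intro o
    rw [← hr]
    exact Quotient.exact (Quotient.out_eq (Quotient.mk r o))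
  choose s hs1 hs2 using h0
  let z : Ω → B := fun o => c (s o) (Quotient.mk r o).out
  have hz : ∀ t ∈ Q, ∀ o, a t (Quotient.mk r o).out = o → c t (Quotient.mk r o).out = z o := by
    intro t htQ o hto
    have h1 : a ((s o)⁻¹ * t) (Quotient.mk r o).out = (Quotient.mk r o).out := by
      rw [map_mul, Equiv.Perm.mul_apply, hto, map_inv, Equiv.Perm.inv_eq_iff_eq, hs2]
    have h2 := ht _ (mul_mem (inv_mem (hs1 o)) htQ) _ h1
    have h3 := hc (s o) ((s o)⁻¹ * t) (Quotient.mk r o).out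
    rw [mul_inv_cancel_left, h1, h2, mul_one] at h3
    exact h3
  refine ⟨fun o => z o * (z o0)⁻¹, by simp, ?_⟩
  intro t htQ o
  have h1 : Quotient.mk r (a t o) = Quotient.mk r o := by
    apply Quotient.sound
    apply r.symm
    exact (hr _ _).mpr ⟨t, htQ, rfl⟩
  have h2 := hz (t * s o) (mul_mem htQ (hs1 o)) (a t o) (by
    rw [h1, map_mul, Equiv.Perm.mul_apply, hs2])
  rw [h1, hc, hs2] at h2
  change c t o = z (a t o) * (z o0)⁻¹ * (z o * (z o0)⁻¹)⁻¹
  rw [← h2]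
  change c t o = c t o * z o * (z o0)⁻¹ * (z o * (z o0)⁻¹)⁻¹
  group

/-- A product over the classes of an equivalence relation with classes of the same size. -/
theorem prod_cls {Ω M : Type} [CommMonoid M] [Fintype Ω] (r : Setoid Ω) [Fintype (Quotient r)]
    (n : ℕ) (hn : ∀ q : Quotient r, Nat.card {o // Quotient.mk r o = q} = n)
    (f : Quotient r → M) : ∏ o, f (Quotient.mk r o) = (∏ q, f q) ^ n := by
  classical
  rw [← Finset.prod_fiberwise Finset.univ (fun o => Quotient.mk r o), ← Finset.prod_pow]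
  apply Finset.prod_congr rfl
  intro q _
  rw [Finset.prod_congr rfl (g := fun _ => f q)]
  · rw [Finset.prod_const]
    congr 1
    rw [← hn q, Nat.card_eq_fintype_card, Fintype.card_subtype]
  · intro o ho
    rw [(Finset.mem_filter.mp ho).2]

/-- The commutator of a power. -/
theorem comm_pow {B : Type} [Group B] (U V ζ : B) (hζ : ζ ∈ Subgroup.center B)
    (h : U * V * U⁻¹ * V⁻¹ = ζ) (n : ℕ) : U ^ n * V * (U ^ n)⁻¹ * V⁻¹ = ζ ^ n := by
  have h1 : U * V * U⁻¹ = ζ * V := by rw [← h]; group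
  have h2 : ∀ n : ℕ, U ^ n * V * (U ^ n)⁻¹ = ζ ^ n * V := by
    intro n
    induction n with
    | zero => simp
    | succ n ih =>
      have h3 : U ^ (n + 1) * V * (U ^ (n + 1))⁻¹ = U * (U ^ n * V * (U ^ n)⁻¹) * U⁻¹ := by
        rw [pow_succ' U n]
        group
      have h4 : U * ζ ^ n = ζ ^ n * U := ((Subgroup.mem_center_iff.mp (pow_mem hζ n)) U)
      rw [h3, ih, ← mul_assoc, h4, mul_assoc, mul_assoc, ← mul_assoc U V, h1, pow_succ]
      group
  rw [h2]
  group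

/-! ### The Sylow subgroup -/

theorem sylow_aux {W : Type} [Group W] [Finite W] (ℓ : ℕ) [hℓ : Fact ℓ.Prime]
    (T P : Subgroup W) (hTn : T.Normal) (_hPn : P.Normal)
    (hP : ∀ x ∈ P, ∃ k : ℕ, x ^ ℓ ^ k ∈ T) :
    ∃ Q : Subgroup W, Q ≤ P ∧ IsPGroup ℓ Q ∧ P ≤ T ⊔ Q ∧
      Subgroup.normalizer (Q : Set W) ⊔ T = ⊤ := by
  classical
  obtain ⟨S⟩ : Nonempty (Sylow ℓ P) := inferInstance
  have hQP : (S : Subgroup P).map P.subtype ≤ P := by
    rintro _ ⟨x, _, rfl⟩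
    exact x.2
  have h1 : T.subgroupOf P ⊔ (S : Subgroup P) = ⊤ := by
    have hpg : IsPGroup ℓ (P ⧸ T.subgroupOf P) := by
      intro q
      induction q using QuotientGroup.induction_on with
      | H x =>
        obtain ⟨k, hk⟩ := hP x x.2
        refine ⟨k, ?_⟩
        rw [← QuotientGroup.mk_pow, QuotientGroup.eq_one_iff, Subgroup.mem_subgroupOf]
        exact hk
    obtain ⟨n, hn⟩ := IsPGroup.iff_card.mp hpg
    have h2 : (T.subgroupOf P ⊔ (S : Subgroup P)).index ∣ ℓ ^ n := by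
      rw [← hn]
      exact Subgroup.index_dvd_of_le le_sup_left
    have h3 : (T.subgroupOf P ⊔ (S : Subgroup P)).index ∣ (S : Subgroup P).index :=
      Subgroup.index_dvd_of_le le_sup_right
    have h4 : ¬ ℓ ∣ (S : Subgroup P).index := S.not_dvd_index
    have h5 : Nat.Coprime (ℓ ^ n) (S : Subgroup P).index :=
      Nat.Coprime.pow_left n ((Nat.Prime.coprime_iff_not_dvd hℓ.out).mpr h4)
    have h6 : (T.subgroupOf P ⊔ (S : Subgroup P)).index ∣ 1 := by
      rw [← h5.gcd_eq_one]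
      exact Nat.dvd_gcd h2 h3
    exact Subgroup.index_eq_one.mp (Nat.dvd_one.mp h6)
  have h2 : P ≤ T ⊔ (S : Subgroup P).map P.subtype := by
    have h3 : (T.subgroupOf P ⊔ (S : Subgroup P)).map P.subtype = P := by
      rw [h1, ← MonoidHom.range_eq_map, Subgroup.range_subtype]
    rw [Subgroup.map_sup] at h3
    nth_rewrite 1 [← h3]
    refine sup_le_sup_right ?_ _
    rintro _ ⟨x, hx, rfl⟩
    exact hx
  refine ⟨(S : Subgroup P).map P.subtype, hQP, S.isPGroup'.map _, h2, ?_⟩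
  have h3 := Sylow.normalizer_sup_eq_top S
  rw [eq_top_iff, ← h3]
  refine sup_le le_sup_left (h2.trans (sup_le le_sup_right ?_))
  exact Subgroup.le_normalizer.trans le_sup_left

/-- The product of the values of a linear character is trivial on the commutators. -/
theorem nrm {W B Ω : Type} [Group W] [Group B] [Fintype Ω]
    (ψ : W →* Gam (Equiv.Perm Ω) Ω B) (T : Subgroup W) (hTn : T.Normal) (C0 : Subgroup B)
    (hC : C0 ≤ Subgroup.center B) (hr : ∀ t ∈ T, (ψ t).right = 1)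
    (hT : ∀ t ∈ T, ∀ o, (ψ t).left o ∈ C0) (χ : C0 →* ℂˣ) :
    ∃ N : T →* ℂˣ, (∀ t (ht : t ∈ T), N ⟨t, ht⟩ = ∏ o, χ ⟨(ψ t).left o, hT t ht o⟩) ∧
      ∀ t (ht : t ∈ T), t ∈ ⁅T, (⊤ : Subgroup W)⁆ → N ⟨t, ht⟩ = 1 := by
  let N : T →* ℂˣ :=
    { toFun := fun t => ∏ o, χ ⟨(ψ t).left o, hT t t.2 o⟩
      map_one' := by
        apply Finset.prod_eq_one
        intro o _
        have h : (⟨(ψ ((1 : T) : W)).left o, hT _ (1 : T).2 o⟩ : C0) = 1 := by
          apply Subtype.ext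
          simp
        rw [h, map_one]
      map_mul' := by
        intro s t
        rw [← Finset.prod_mul_distrib]
        apply Finset.prod_congr rfl
        intro o _
        rw [← map_mul]
        congr 1
        apply Subtype.ext
        change (ψ ((s : W) * (t : W))).left o = (ψ s).left o * (ψ t).left o
        rw [map_mul]
        change (ψ s).left o * (ψ t).left ((ψ s).right⁻¹ o) = _
        rw [hr s s.2]
        simp }
  have hN : ∀ t (ht : t ∈ T), N ⟨t, ht⟩ = ∏ o, χ ⟨(ψ t).left o, hT t ht o⟩ :=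
    fun t ht => rfl
  have hcj : ∀ t (ht : t ∈ T) (w : W), N ⟨w * t * w⁻¹, hTn.conj_mem t ht w⟩ = N ⟨t, ht⟩ := by
    intro t ht w
    rw [hN, hN]
    refine Fintype.prod_equiv (ψ w).right⁻¹ _ _ ?_
    intro o
    congr 1
    apply Subtype.ext
    change (ψ (w * t * w⁻¹)).left o = (ψ t).left ((ψ w).right⁻¹ o)
    have h1 : (ψ t).left ((ψ w).right⁻¹ o) ∈ Subgroup.center B := hC (hT t ht _)
    rw [map_mul, map_mul, map_inv]
    change (ψ w).left o * (ψ t).left ((ψ w).right⁻¹ o) *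
      ((ψ w).left ((ψ w).right⁻¹⁻¹ (((ψ w).right * (ψ t).right)⁻¹ o)))⁻¹ = _
    rw [hr t ht, mul_one, Subgroup.mem_center_iff.mp h1, inv_inv, ← Equiv.Perm.mul_apply,
      mul_inv_cancel, Equiv.Perm.one_apply, mul_inv_cancel_right]
  refine ⟨N, hN, ?_⟩
  have h1 : ⁅T, (⊤ : Subgroup W)⁆ ≤ N.ker.map T.subtype := by
    rw [Subgroup.commutator_le]
    intro t ht w _
    refine ⟨⟨t, ht⟩ * ⟨w * t⁻¹ * w⁻¹, hTn.conj_mem _ (inv_mem ht) w⟩, ?_, ?_⟩
    · change N _ = 1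
      rw [map_mul, hcj t⁻¹ (inv_mem ht) w, ← map_mul]
      have h2 : (⟨t, ht⟩ * ⟨t⁻¹, inv_mem ht⟩ : T) = 1 := by
        apply Subtype.ext
        exact mul_inv_cancel t
      rw [h2, map_one]
    · rw [commutatorElement_def]
      change t * (w * t⁻¹ * w⁻¹) = t * w * t⁻¹ * w⁻¹
      group
  intro t ht hm
  obtain ⟨⟨s, hs⟩, hs1, hs2⟩ := h1 hm
  have hs3 : s = t := hs2
  subst hs3
  exact hs1

/-- Commutators modulo the commutators with `T`. -/
theorem comm_mod {W : Type} [Group W] (T : Subgroup W) (hTn : T.Normal) (x y s t : W)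
    (hs : s ∈ T) (ht : t ∈ T) :
    (x * y * x⁻¹ * y⁻¹)⁻¹ * ((x * s) * (y * t) * (x * s)⁻¹ * (y * t)⁻¹) ∈
      ⁅T, (⊤ : Subgroup W)⁆ := by
  have hn : (⁅T, (⊤ : Subgroup W)⁆).Normal := Subgroup.commutator_normal T ⊤
  have hz : ∀ s ∈ T, ∀ w : W, (s : W ⧸ ⁅T, (⊤ : Subgroup W)⁆) * w = w * s := by
    intro s hs w
    rw [← QuotientGroup.mk_mul, ← QuotientGroup.mk_mul]
    apply Eq.symm
    rw [QuotientGroup.eq]
    have h := Subgroup.commutator_mem_commutator (inv_mem hs) (Subgroup.mem_top w⁻¹)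
    rw [commutatorElement_def] at h
    have h2 : (w * s)⁻¹ * (s * w) = s⁻¹ * w⁻¹ * s⁻¹⁻¹ * w⁻¹⁻¹ := by group
    rw [h2]
    exact h
  rw [← QuotientGroup.eq]
  simp only [QuotientGroup.mk_mul, QuotientGroup.mk_inv, mul_inv_rev]
  have h1 := hz s hs
  have h2 := hz t ht
  set X : W ⧸ ⁅T, (⊤ : Subgroup W)⁆ := (x : W ⧸ ⁅T, (⊤ : Subgroup W)⁆)
  set Y : W ⧸ ⁅T, (⊤ : Subgroup W)⁆ := (y : W ⧸ ⁅T, (⊤ : Subgroup W)⁆)
  set S' : W ⧸ ⁅T, (⊤ : Subgroup W)⁆ := (s : W ⧸ ⁅T, (⊤ : Subgroup W)⁆)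
  set T' : W ⧸ ⁅T, (⊤ : Subgroup W)⁆ := (t : W ⧸ ⁅T, (⊤ : Subgroup W)⁆)
  have hx : S' * X = X * S' := h1 x
  have hy : S' * Y = Y * S' := h1 y
  have hx' : T' * X = X * T' := h2 x
  have hs' : T' * S' = S' * T' := h2 s
  have hxi : T' * X⁻¹ = X⁻¹ * T' := by
    have := h2 x⁻¹
    simpa using this
  have hsi : T' * S'⁻¹ = S'⁻¹ * T' := by
    have := h2 s⁻¹
    simpa using this
  calc X * Y * X⁻¹ * Y⁻¹ = X * (Y * S') * S'⁻¹ * X⁻¹ * Y⁻¹ := by group
    _ = X * (S' * Y) * S'⁻¹ * X⁻¹ * Y⁻¹ := by rw [hy]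
    _ = X * S' * Y * (S'⁻¹ * X⁻¹) * T' * T'⁻¹ * Y⁻¹ := by group
    _ = X * S' * Y * (S'⁻¹ * (X⁻¹ * T')) * T'⁻¹ * Y⁻¹ := by group
    _ = X * S' * Y * (S'⁻¹ * (T' * X⁻¹)) * T'⁻¹ * Y⁻¹ := by rw [hxi]
    _ = X * S' * Y * ((S'⁻¹ * T') * X⁻¹) * T'⁻¹ * Y⁻¹ := by group
    _ = X * S' * Y * ((T' * S'⁻¹) * X⁻¹) * T'⁻¹ * Y⁻¹ := by rw [hsi]
    _ = X * S' * (Y * T') * (S'⁻¹ * X⁻¹) * (T'⁻¹ * Y⁻¹) := by group

end PST

theorem PST_thm (h1 : Stmt_STK) : Stmt_PST := by
  intro W B Ω _ _ _ _ _ ℓ hℓ hB ψ T P hTn hPn hTP hP C0 hC hr hT htr x y e hxy he ht o0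
  classical
  obtain ⟨Q, hQP, hQ, hPQ, hNT⟩ := PST.sylow_aux ℓ T P hTn hPn hP
  have hTcn : (⁅T, (⊤ : Subgroup W)⁆).Normal := Subgroup.commutator_normal T ⊤
  have hTT : ⁅T, (⊤ : Subgroup W)⁆ ≤ T := Subgroup.commutator_le_left T ⊤
  -- the cocycle
  let a : W →* Equiv.Perm Ω := SemidirectProduct.rightHom.comp ψ
  have ha : ∀ w, a w = (ψ w).right := fun w => rfl
  let c : W → Ω → B := fun w o => (ψ w).left (a w o)
  have hcd : ∀ w o, c w o = (ψ w).left (a w o) := fun w o => rfl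
  have hc : ∀ g h o, c (g * h) o = c g (a h o) * c h o := by
    intro g h o
    rw [hcd, hcd, hcd, map_mul a, Equiv.Perm.mul_apply, map_mul ψ]
    change (ψ g).left (a g (a h o)) * (ψ h).left ((a g)⁻¹ (a g (a h o))) = _
    rw [← map_inv, PST.inv_app]
  have haT : ∀ t ∈ T, ∀ o, a t o = o := by
    intro t ht o
    rw [ha, hr t ht, Equiv.Perm.one_apply]
  have hcT : ∀ t ∈ T, ∀ o, c t o = (ψ t).left o := by
    intro t ht o
    rw [hcd, haT t ht]
  have hcTC : ∀ t ∈ T, ∀ o, c t o ∈ Subgroup.center B := by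
    intro t ht o
    rw [hcT t ht]
    exact hC (hT t ht o)
  -- decompositions
  have hdec : ∀ w : W, ∃ g ∈ Subgroup.normalizer (Q : Set W), ∃ t ∈ T, g * t = w := by
    intro w
    have h2 : w ∈ Subgroup.normalizer (Q : Set W) ⊔ T := by
      rw [hNT]
      exact Subgroup.mem_top w
    rw [← SetLike.mem_coe, Subgroup.mul_normal, Set.mem_mul] at h2
    obtain ⟨g, hg, t, ht, h3⟩ := h2
    exact ⟨g, hg, t, ht, h3⟩
  have hdecP : ∀ p ∈ P, ∃ t ∈ T, ∃ s ∈ Q, t * s = p := by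
    intro p hp
    have h2 := hPQ hp
    rw [← SetLike.mem_coe, Subgroup.normal_mul, Set.mem_mul] at h2
    obtain ⟨t, ht, s, hs, h3⟩ := h2
    exact ⟨t, ht, s, hs, h3⟩
  obtain ⟨x', hx', t1, ht1, hxe⟩ := hdec x
  obtain ⟨y', hy', t2, ht2, hye⟩ := hdec y
  have he' : ∃ e' ∈ ⁅Q, Q⁆, e'⁻¹ * e ∈ ⁅T, (⊤ : Subgroup W)⁆ := by
    have h2 : ⁅P, P⁆ ≤ ⁅Q, Q⁆ ⊔ ⁅T, (⊤ : Subgroup W)⁆ := by
      rw [Subgroup.commutator_le]
      intro p1 hp1 p2 hp2
      obtain ⟨s1, hs1, q1, hq1, rfl⟩ := hdecP p1 hp1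
      obtain ⟨s2, hs2, q2, hq2, rfl⟩ := hdecP p2 hp2
      have h3 := PST.comm_mod T hTn q1 q2 (q1⁻¹ * s1 * q1) (q2⁻¹ * s2 * q2)
        (by simpa using hTn.conj_mem s1 hs1 q1⁻¹) (by simpa using hTn.conj_mem s2 hs2 q2⁻¹)
      have h4 : q1 * q2 * q1⁻¹ * q2⁻¹ ∈ ⁅Q, Q⁆ := Subgroup.commutator_mem_commutator hq1 hq2
      have h5 := mul_mem (Subgroup.mem_sup_left (T := ⁅T, (⊤ : Subgroup W)⁆) h4)
        (Subgroup.mem_sup_right (S := ⁅Q, Q⁆) h3)
      rw [mul_inv_cancel_left] at h5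
      have h6 : q1 * (q1⁻¹ * s1 * q1) = s1 * q1 := by group
      have h7 : q2 * (q2⁻¹ * s2 * q2) = s2 * q2 := by group
      rw [h6, h7] at h5
      exact h5
    have h3 := h2 he
    rw [← SetLike.mem_coe, Subgroup.mul_normal, Set.mem_mul] at h3
    obtain ⟨e', he', s, hs, h4⟩ := h3
    refine ⟨e', he', ?_⟩
    rw [← h4, inv_mul_cancel_left]
    exact hs
  obtain ⟨e', heQ, hee⟩ := he'
  have heQ' : e' ∈ Q := by
    have h2 : ⁅Q, Q⁆ ≤ Q := by
      rw [Subgroup.commutator_le]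
      intro q1 hq1 q2 hq2
      exact mul_mem (mul_mem (mul_mem hq1 hq2) (inv_mem hq1)) (inv_mem hq2)
    exact h2 heQ
  -- the element `t'`
  have htt : (x' * y' * x'⁻¹ * y'⁻¹ * e')⁻¹ * (x * y * x⁻¹ * y⁻¹ * e) ∈
      ⁅T, (⊤ : Subgroup W)⁆ := by
    have h2 := PST.comm_mod T hTn x' y' t1 t2 ht1 ht2
    rw [hxe, hye] at h2
    have h3 := mul_mem (hTcn.conj_mem _ h2 e'⁻¹) hee
    have h4 : (x' * y' * x'⁻¹ * y'⁻¹ * e')⁻¹ * (x * y * x⁻¹ * y⁻¹ * e) =
      e'⁻¹ * ((x' * y' * x'⁻¹ * y'⁻¹)⁻¹ * (x * y * x⁻¹ * y⁻¹)) * e'⁻¹⁻¹ * (e'⁻¹ * e) := by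
      group
    rw [h4]
    exact h3
  have ht' : x' * y' * x'⁻¹ * y'⁻¹ * e' ∈ T := by
    have h2 := mul_mem ht (inv_mem (hTT htt))
    have h3 : x * y * x⁻¹ * y⁻¹ * e *
      ((x' * y' * x'⁻¹ * y'⁻¹ * e')⁻¹ * (x * y * x⁻¹ * y⁻¹ * e))⁻¹ =
      x' * y' * x'⁻¹ * y'⁻¹ * e' := by group
    rw [h3] at h2
    exact h2
  have hprod : ∀ χ : C0 →* ℂˣ,
      ∏ o, χ ⟨(ψ (x * y * x⁻¹ * y⁻¹ * e)).left o, hT _ ht o⟩ =
      ∏ o, χ ⟨(ψ (x' * y' * x'⁻¹ * y'⁻¹ * e')).left o, hT _ ht' o⟩ := by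
    intro χ
    obtain ⟨N, hN1, hN2⟩ := PST.nrm ψ T hTn C0 hC hr hT χ
    rw [← hN1 _ ht, ← hN1 _ ht']
    have h2 := hN2 _ (hTT htt) htt
    have h3 : (⟨x * y * x⁻¹ * y⁻¹ * e, ht⟩ : T) = ⟨x' * y' * x'⁻¹ * y'⁻¹ * e', ht'⟩ *
        ⟨(x' * y' * x'⁻¹ * y'⁻¹ * e')⁻¹ * (x * y * x⁻¹ * y⁻¹ * e), hTT htt⟩ := by
      apply Subtype.ext
      exact (mul_inv_cancel_left _ _).symm
    rw [h3, map_mul, h2, mul_one]
  -- the cocycle on `Q`
  have htrv : ∀ s ∈ Q, ∀ o, a s o = o → c s o = 1 := by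
    intro s hs o hso
    obtain ⟨k, hk⟩ := hQ ⟨s, hs⟩
    exact PST.triv ℓ hB a c hc s o hso k (congrArg Subtype.val hk)
  let r : Setoid Ω :=
    { r := fun o o' => ∃ s ∈ Q, a s o = o'
      iseqv := by
        refine ⟨?_, ?_, ?_⟩
        · intro o
          exact ⟨1, one_mem Q, by rw [map_one, Equiv.Perm.one_apply]⟩
        · rintro o _ ⟨s, hs, rfl⟩
          exact ⟨s⁻¹, inv_mem hs, PST.inv_app a s o⟩
        · rintro o _ _ ⟨s, hs, rfl⟩ ⟨t, ht, rfl⟩
          exact ⟨t * s, mul_mem ht hs, by rw [map_mul, Equiv.Perm.mul_apply]⟩ }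
  have hrd : ∀ o o', r o o' ↔ ∃ s ∈ Q, a s o = o' := fun o o' => Iff.rfl
  obtain ⟨z, hz0, hz⟩ := PST.cobd Q a c hc htrv r hrd o0
  let c' : W → Ω → B := fun w o => (z (a w o))⁻¹ * c w o * z o
  have hcd' : ∀ w o, c' w o = (z (a w o))⁻¹ * c w o * z o := fun w o => rfl
  have hc' : ∀ g h o, c' (g * h) o = c' g (a h o) * c' h o := by
    intro g h o
    rw [hcd', hcd', hcd', hc, map_mul, Equiv.Perm.mul_apply]
    group
  have hcQ : ∀ s ∈ Q, ∀ o, c' s o = 1 := by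
    intro s hs o
    rw [hcd', hz s hs o]
    group
  have hcT' : ∀ t ∈ T, ∀ o, c' t o = (ψ t).left o := by
    intro t ht o
    rw [hcd', haT t ht, ← hcT t ht, mul_assoc, ← Subgroup.mem_center_iff.mp (hcTC t ht o),
      inv_mul_cancel_left]
  have hcinv : ∀ g ∈ Subgroup.normalizer (Q : Set W), ∀ s ∈ Q, ∀ o,
      c' g (a s o) = c' g o := by
    intro g hg s hs o
    have h2 : g * s * g⁻¹ ∈ Q := (Subgroup.mem_normalizer_iff.mp hg s).mp hs
    have h3 : c' (g * s) o = c' (g * s * g⁻¹ * g) o := by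
      congr 1
      group
    rw [hc', hc', hcQ s hs, hcQ _ h2, mul_one, one_mul] at h3
    exact h3
  have hrinv : ∀ g ∈ Subgroup.normalizer (Q : Set W), ∀ o o', r o o' → r (a g o) (a g o') := by
    rintro g hg o _ ⟨s, hs, rfl⟩
    refine ⟨g * s * g⁻¹, (Subgroup.mem_normalizer_iff.mp hg s).mp hs, ?_⟩
    rw [← Equiv.Perm.mul_apply, ← map_mul, ← Equiv.Perm.mul_apply, ← map_mul]
    congr 2
    group
  obtain ⟨ψ', hψr, hψl⟩ := PST.descent (a.comp (Subgroup.normalizer (Q : Set W)).subtype)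
    (fun g o => c' (g : W) o) (fun g h o => hc' g h o) r (fun g o o' h => hrinv g g.2 o o' h)
    (by
      rintro g o _ ⟨s, hs, rfl⟩
      exact (hcinv g g.2 s hs o).symm)
  have hψr' : ∀ (g : W) (hg : g ∈ Subgroup.normalizer (Q : Set W)) (o : Ω),
      (ψ' ⟨g, hg⟩).right (Quotient.mk r o) = Quotient.mk r (a g o) := fun g hg o => hψr ⟨g, hg⟩ o
  have hψl' : ∀ (g : W) (hg : g ∈ Subgroup.normalizer (Q : Set W)) (o : Ω),
      (ψ' ⟨g, hg⟩).left (Quotient.mk r (a g o)) = c' g o := fun g hg o => hψl ⟨g, hg⟩ o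
  have hQN : Q ≤ Subgroup.normalizer (Q : Set W) := Subgroup.le_normalizer
  -- the subgroup generated by `x'` and `y'`
  let xg : Subgroup.normalizer (Q : Set W) := ⟨x', hx'⟩
  let yg : Subgroup.normalizer (Q : Set W) := ⟨y', hy'⟩
  have hxm : x' ∈ (Subgroup.closure {xg, yg}).map (Subgroup.normalizer (Q : Set W)).subtype :=
    ⟨xg, Subgroup.subset_closure (by simp), rfl⟩
  have hym : y' ∈ (Subgroup.closure {xg, yg}).map (Subgroup.normalizer (Q : Set W)).subtype :=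
    ⟨yg, Subgroup.subset_closure (by simp), rfl⟩
  have hgen : (Subgroup.closure {xg, yg}).map (Subgroup.normalizer (Q : Set W)).subtype ⊔ P =
      ⊤ := by
    rw [eq_top_iff, ← hxy]
    refine sup_le ?_ le_sup_right
    rw [Subgroup.closure_le]
    intro w hw
    rcases hw with rfl | hw
    · rw [← hxe]
      exact mul_mem (Subgroup.mem_sup_left hxm) (Subgroup.mem_sup_right (hTP ht1))
    · rw [Set.mem_singleton_iff] at hw
      rw [hw, ← hye]
      exact mul_mem (Subgroup.mem_sup_left hym) (Subgroup.mem_sup_right (hTP ht2))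
  have hdecg : ∀ w : W, ∃ g ∈ Subgroup.closure {xg, yg}, ∃ t ∈ T, ∃ s ∈ Q,
      (g : W) * t * s = w := by
    intro w
    have h2 : w ∈ (Subgroup.closure {xg, yg}).map (Subgroup.normalizer (Q : Set W)).subtype ⊔
        P := by
      rw [hgen]
      exact Subgroup.mem_top w
    rw [← SetLike.mem_coe, Subgroup.mul_normal, Set.mem_mul] at h2
    obtain ⟨_, ⟨g, hg, rfl⟩, p, hp, h3⟩ := h2
    obtain ⟨t, ht, s, hs, h4⟩ := hdecP p hp
    refine ⟨g, hg, t, ht, s, hs, ?_⟩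
    rw [← h3, ← h4, mul_assoc]
    rfl
  -- the commutator
  have hcomm : xg * yg * xg⁻¹ * yg⁻¹ =
      ⟨x' * y' * x'⁻¹ * y'⁻¹, mul_mem (mul_mem (mul_mem hx' hy') (inv_mem hx')) (inv_mem hy')⟩ :=
    rfl
  have hright : (ψ' (xg * yg * xg⁻¹ * yg⁻¹)).right = 1 := by
    ext q
    induction q using Quotient.inductionOn with
    | h o =>
      rw [hcomm, hψr', Equiv.Perm.one_apply]
      apply Quotient.sound
      change r _ _
      refine ⟨e', heQ', ?_⟩
      have h2 := hTn.conj_mem _ ht' e'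
      have h3 : e' * (x' * y' * x'⁻¹ * y'⁻¹ * e') * e'⁻¹ = e' * (x' * y' * x'⁻¹ * y'⁻¹) := by
        group
      rw [h3] at h2
      rw [← Equiv.Perm.mul_apply, ← map_mul, haT _ h2]
  have hleft : ∀ o, (ψ' (xg * yg * xg⁻¹ * yg⁻¹)).left (Quotient.mk r o) =
      (ψ (x' * y' * x'⁻¹ * y'⁻¹ * e')).left o := by
    intro o
    rw [hcomm]
    have h2 : o = a (x' * y' * x'⁻¹ * y'⁻¹) (a e' o) := by
      rw [← Equiv.Perm.mul_apply, ← map_mul, haT _ ht']
    have h3 := hψl' (x' * y' * x'⁻¹ * y'⁻¹)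
      (mul_mem (mul_mem (mul_mem hx' hy') (inv_mem hx')) (inv_mem hy')) (a e' o)
    rw [← h2] at h3
    rw [h3, ← hcT' _ ht', hc' (x' * y' * x'⁻¹ * y'⁻¹) e' o, hcQ e' heQ', mul_one]
  -- the classes
  have hcls : ∃ k : ℕ, ∀ q : Quotient r, Nat.card {o // Quotient.mk r o = q} = ℓ ^ k := by
    let _ : MulAction Q Ω := MulAction.compHom Ω (a.comp Q.subtype)
    have hsm : ∀ (s : Q) (o : Ω), s • o = a s o := fun s o => rfl
    obtain ⟨k, hk⟩ := hQ.card_orbit o0
    refine ⟨k, ?_⟩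
    intro q
    induction q using Quotient.inductionOn with
    | h o =>
      rw [← hk]
      obtain ⟨w, hw⟩ := htr o o0
      obtain ⟨g, hg, t, ht, rfl⟩ := hdec w
      have hgo : a g o = o0 := by
        rw [← hw, ← ha, map_mul, Equiv.Perm.mul_apply, haT t ht]
      apply Nat.card_congr
      refine Equiv.subtypeEquiv (a g) ?_
      intro o1
      rw [MulAction.mem_orbit_iff]
      constructor
      · intro h
        have h2 : r o o1 := Quotient.exact h.symm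
        obtain ⟨s, hs, h3⟩ := hrinv g hg o o1 h2
        refine ⟨⟨s, hs⟩, ?_⟩
        rw [hsm, ← hgo]
        exact h3
      · rintro ⟨s, hs⟩
        rw [hsm, ← hgo] at hs
        apply Quotient.sound
        apply r.symm
        have h2 : r (a g o) (a g o1) := ⟨s, s.2, hs⟩
        have h3 := hrinv g⁻¹ (inv_mem hg) _ _ h2
        rw [PST.inv_app, PST.inv_app] at h3
        exact h3
  obtain ⟨k, hk⟩ := hcls
  -- transitivity
  have htr' : ∀ δ δ' : Quotient r, ∃ g ∈ Subgroup.closure {xg, yg}, (ψ' g).right δ = δ' := by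
    intro q q'
    induction q using Quotient.inductionOn with
    | h o =>
      induction q' using Quotient.inductionOn with
      | h o' =>
        obtain ⟨w, hw⟩ := htr o o'
        obtain ⟨g, hg, t, ht, s, hs, rfl⟩ := hdecg w
        refine ⟨g, hg, ?_⟩
        have h2 : Quotient.mk r o = Quotient.mk r (a s o) :=
          Quotient.sound ⟨s, hs, rfl⟩
        rw [h2, hψr' g g.2, ← hw, ← ha, map_mul, map_mul, Equiv.Perm.mul_apply,
          Equiv.Perm.mul_apply, haT t ht]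
  have hcm : ∀ δ, (ψ' (xg * yg * xg⁻¹ * yg⁻¹)).left δ ∈ C0 := by
    intro q
    induction q using Quotient.inductionOn with
    | h o =>
      rw [hleft]
      exact hT _ ht' o
  obtain ⟨U0, V, ⟨hUV, hχ⟩, hg0⟩ := h1 (Subgroup.normalizer (Q : Set W)) B (Quotient r) ψ' xg yg
    C0 hC htr' hright hcm (Quotient.mk r o0)
  have hpow := PST.comm_pow U0 V _ (hC hUV) rfl (ℓ ^ k)
  refine ⟨U0 ^ ℓ ^ k, V, ⟨?_, ?_⟩, ?_⟩
  · rw [hpow]
    exact pow_mem hUV _
  · intro χ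
    rw [hprod χ]
    have hUV' : U0 ^ ℓ ^ k * V * (U0 ^ ℓ ^ k)⁻¹ * V⁻¹ ∈ C0 := by
      rw [hpow]
      exact pow_mem hUV _
    have h2 : (⟨U0 ^ ℓ ^ k * V * (U0 ^ ℓ ^ k)⁻¹ * V⁻¹, hUV'⟩ : C0) =
        ⟨U0 * V * U0⁻¹ * V⁻¹, hUV⟩ ^ ℓ ^ k := by
      apply Subtype.ext
      exact hpow
    rw [h2, map_pow, hχ χ, ← PST.prod_cls r (ℓ ^ k) hk]
    apply Finset.prod_congr rfl
    intro o _
    congr 1
    apply Subtype.ext
    exact hleft o
  · intro w hw
    have hU0 : U0 ∈ Subgroup.closure {U0 ^ ℓ ^ k, V} := by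
      have h2 : Nat.Coprime (ℓ ^ k) (orderOf U0) := by
        refine Nat.Coprime.coprime_dvd_right (orderOf_dvd_natCard U0) ?_
        exact Nat.Coprime.pow_left k ((Nat.Prime.coprime_iff_not_dvd hℓ.out).mpr hB)
      obtain ⟨m, hm⟩ := exists_pow_eq_self_of_coprime h2
      have h3 : (U0 ^ ℓ ^ k) ^ m ∈ Subgroup.closure {U0 ^ ℓ ^ k, V} :=
        pow_mem (Subgroup.subset_closure (by simp)) m
      rw [hm] at h3
      exact h3
    have hle : Subgroup.closure {U0, V} ⊔ C0 ≤ Subgroup.closure {U0 ^ ℓ ^ k, V} ⊔ C0 := by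
      refine sup_le_sup_right ?_ _
      rw [Subgroup.closure_le]
      intro u hu
      rcases hu with rfl | hu
      · exact hU0
      · rw [Set.mem_singleton_iff] at hu
        rw [hu]
        apply Subgroup.subset_closure
        simp
    obtain ⟨g, hg, t, ht, s, hs, rfl⟩ := hdecg w
    have hgs : a g (a s o0) = o0 := by
      have h2 : a (g * t * s) o0 = o0 := hw
      rw [map_mul, map_mul, Equiv.Perm.mul_apply, Equiv.Perm.mul_apply, haT t ht] at h2
      exact h2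
    have h2 : (ψ ((g : W) * t * s)).left o0 = c (g * t * s) o0 := by
      rw [hcd]
      change _ = (ψ ((g : W) * t * s)).left ((ψ ((g : W) * t * s)).right o0)
      rw [hw]
    have h3 : c (g : W) (a s o0) = c' g (a s o0) * (z (a s o0))⁻¹ := by
      rw [hcd', hgs, hz0]
      group
    have h4 : c s o0 = z (a s o0) := by
      rw [hz s hs, hz0]
      group
    have h5 : c' (g : W) (a s o0) = (ψ' g).left (Quotient.mk r o0) := by
      have h6 := hψl' g g.2 (a s o0)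
      rw [hgs] at h6
      exact h6.symm
    have h6 : (ψ' g).right (Quotient.mk r o0) = Quotient.mk r o0 := by
      have h7 : Quotient.mk r o0 = Quotient.mk r (a s o0) :=
        Quotient.sound ⟨s, hs, rfl⟩
      have h8 := hψr' g g.2 (a s o0)
      rw [hgs, ← h7] at h8
      exact h8
    have h7 := hle (hg0 g hg h6)
    rw [h2, hc, hc, haT t ht, h3, h4, h5, mul_assoc _ (z (a s o0))⁻¹ (c t (a s o0)),
      Subgroup.mem_center_iff.mp (hcTC t ht (a s o0)), ← mul_assoc, mul_assoc,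
      inv_mul_cancel, mul_one]
    refine mul_mem h7 (Subgroup.mem_sup_right ?_)
    rw [hcT t ht]
    exact hT t ht _

end Pool.Agent.DPG
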