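import Pool.Agent.DPG.StmtsB
import Pool.Agent.DPC.W0

/-!
# Module RFE: existence of reference data
-/

set_option autoImplicit false

namespace Pool.Agent.DPG

open Pool.Agent.DP Pool.Agent.DPC Pool.Agent.DPM Pool.Agent.DPN Pool.Agent.DPF
  Pool.Agent.DPK Pool.Agent.Lib_helper13 Representation
open Pool.Agent.Lib_helper13.Dade (pCore DadeHolds dadeSum)

namespace RFE

section

variable {L : Type} [Group L] [Fintype L]

/-- Products of invariant functions are invariant. -/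
theorem conv_civ {S : Subgroup L} {u v : L → ℤ} (hu : CIv S u) (hv : CIv S v) :
    CIv S (conv u v) := by
  intro g hg x
  rw [conv, conv]
  symm
  refine Fintype.sum_equiv (MulAut.conj g).toEquiv _ _ ?_
  intro y
  have h1 : (MulAut.conj g).toEquiv y = g * y * g⁻¹ := rfl
  rw [h1, hu g hg]
  have h2 : (g * y * g⁻¹)⁻¹ * (g * x * g⁻¹) = g * (y⁻¹ * x) * g⁻¹ := by group
  rw [h2, hv g hg]

/-- The support of a product. -/
theorem conv_son {K : Type} [Group K] (π : L →* K) (N : Subgroup K) [hN : N.Normal] {x : L}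
    {u v : L → ℤ} (hu : SOn {y | π (x⁻¹ * y) ∈ N} u) (hv : SOn {y | π (x * y) ∈ N} v) :
    SOn (N.comap π : Set L) (conv u v) := by
  intro z hz
  rw [conv]
  refine Finset.sum_eq_zero fun y _ => ?_
  by_cases h1 : π (x⁻¹ * y) ∈ N
  · by_cases h2 : π (x * (y⁻¹ * z)) ∈ N
    · exfalso
      apply hz
      have h3 : z = y * x⁻¹ * (x * (y⁻¹ * z)) := by group
      have h4 : π (y * x⁻¹) ∈ N := by
        have h5 : y * x⁻¹ = x * (x⁻¹ * y) * x⁻¹ := by group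
        rw [h5, map_mul, map_mul, map_inv]
        exact hN.conj_mem _ h1 _
      change π z ∈ N
      rw [h3, map_mul]
      exact N.mul_mem h4 h2
    · rw [hv _ h2, mul_zero]
  · rw [hu _ h1, zero_mul]

/-- The scalars of a conjugate. -/
theorem sc_cjF (𝔐 : Ideal (integralClosure ℤ ℂ)) {S : Subgroup L} {u : L → ℤ} (hu : CIv S u)
    {l : L} (hl : l ∈ S) (f : L → ℂ) : sc 𝔐 (cjF l f) u = sc 𝔐 f u := by
  have h1 : ∑ x, ((u x : ℤ) : ℂ) * cjF l f x = ∑ x, ((u x : ℤ) : ℂ) * f x := by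
    symm
    refine Fintype.sum_equiv (MulAut.conj l).toEquiv _ _ ?_
    intro x
    have h2 : (MulAut.conj l).toEquiv x = l * x * l⁻¹ := rfl
    rw [h2, hu l hl, cjF]
    congr 2
    group
  have h2 : cjF l f 1 = f 1 := by
    rw [cjF]
    congr 1
    group
  rw [sc, sc, h1, h2]

end

end RFE

open RFE in
/-- RFE: existence of reference data. -/
theorem RFE_thm (h1 : Stmt_NPT) (h2 : Stmt_CLS) (h3 : Stmt_CJN) (h4 : Stmt_CJS)
    (h5 : Stmt_CST) (h6 : Stmt_AMA) (h7 : Stmt_AMB) (h8 : Stmt_SUL) (h9 : Stmt_ZEX)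
    (h10 : Stmt_ZIN) : Stmt_RFE := by
  classical
  intro L K K1 Q Ω _ _ _ _ _ _ _ _ _ _ 𝔐 ℓ _ hmax hℓ π μ φ q α ε μQ hWD M M1 hMM ω hSTB hSPP
    σ θ hch hclo hB
  obtain ⟨hNn, hqn, hcst⟩ := h5 L K K1 Q Ω ℓ π μ φ q α ε μQ hWD
  have hMn := hMM.nm
  have hM1n := hMM.nm1
  obtain ⟨f, e, he, hfi, hfo, hfs, hfv, hfe, ⟨f0, hf0⟩, hff⟩ :=
    h1 L K 𝔐 ℓ hmax hℓ π hWD.πs hWD.πc μ (NN' π ε) M hMM.le ω hSTB hSPP σ θ hch hB
  obtain ⟨n, σr, fr, hchr, hσ, hfri, hfro, hqs, hfrv, hTF⟩ :=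
    h2 L K K1 Q Ω ℓ π μ φ q α ε μQ hWD σ f hch hclo hfi hfo hfs hfv
  -- the conjugate
  have hstb : stb (cstC φ (NN' π ε) σr) =
      (stb σ).map (MulAut.conj (π (ε n)⁻¹)).toMonoidHom := by
    have e1 := h4 K ℓ M (π (ε n))⁻¹ (π (ε n)) (cstC φ (NN' π ε) σr)
    have e2 := h4 K ℓ M (π (ε n))⁻¹ (π (ε n)) σ
    have e3 : cjC (π (ε n))⁻¹ σ = cstC φ (NN' π ε) σr := by
      rw [hσ, ← e1.2.1, inv_mul_cancel, e1.1]
    rw [map_inv, ← e2.2.2.2.1, e3]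
  have hBr : BPs 𝔐 π μ M ω (stb (cstC φ (NN' π ε) σr)) (cjF (ε n)⁻¹ θ) := by
    rw [hstb]
    exact (h3 L K 𝔐 π hWD.πs hWD.πc μ M (ε n)⁻¹ (stb σ) θ).1 ω hB
  have hfr' : IrrOn (AL π (NN' π ε) (stb (cstC φ (NN' π ε) σr))) (cjF (ε n)⁻¹ f) := by
    have e1 : BPs 𝔐 π μ (NN' π ε) (cg 𝔐 f) (stb σ) f :=
      ⟨hfi, hfo, fun _ _ => rfl, hfs, hfv⟩
    have e2 := (h3 L K 𝔐 π hWD.πs hWD.πc μ (NN' π ε) (ε n)⁻¹ (stb σ) f).1 (cg 𝔐 f) e1
    rw [hstb]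
    exact e2.irr
  -- the amalgam
  obtain ⟨Λ, _, _, π2, μ2, j, E, a1, a2, a3, a4, a5, a6, a7, a8, a9, a10⟩ :=
    h6 Q K1 q α μQ hWD.qα hWD.qe hWD.αz hWD.μQi (stb σr) fr hfri hfro hfrv
  obtain ⟨L1, _, _, π1, μ1, ι, F, hLD, hFi, hFι, hFo⟩ :=
    h7 Q K1 Λ q α μQ hWD.qα hWD.qe hWD.αz (stb σr) fr hfri hqs π2 μ2 j E a1 a2 a3 a4 a5 a6 a7
      a8 a9 a10
  -- the reference character
  obtain ⟨Fr, hFr⟩ : ∃ Fr : L1 → ℂ, Fr = fun x => if x ∈ AL π1 M1 (stb σr) then F x else 0 :=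
    ⟨_, rfl⟩
  have hFr1 : ∀ x ∈ AL π1 M1 (stb σr), Fr x = F x := by
    intro x hx
    rw [hFr]
    exact if_pos hx
  have hFr0 : ∀ x, x ∉ AL π1 M1 (stb σr) → Fr x = 0 := by
    intro x hx
    rw [hFr]
    exact if_neg hx
  have hFrι : ∀ x, Fr (ι x) = fr x := by
    intro x
    by_cases hx : q x ∈ stb σr
    · rw [hFr1, hFι x hx]
      change π1 (ι x) ∈ M1 ⊓ stb σr
      rw [hLD.πι]
      exact ⟨hMM.le1 ⟨x, rfl⟩, hx⟩
    · rw [hFr0, hfri.2 x hx]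
      intro h
      have h' : π1 (ι x) ∈ M1 ⊓ stb σr := h
      rw [hLD.πι] at h'
      exact hx h'.2
  have hc : IsChr (fun s : ↥((stb σr).comap π1) => F s) := hFi.1.isChr
  have hres : ∀ R : Subgroup K1, q.range ≤ R → R ≤ M1 → IsIrr (fun s : AL π1 R (stb σr) => Fr s) := by
    intro R hR1 hR2
    have hle : AL π1 R (stb σr) ≤ (stb σr).comap π1 := fun x hx => hx.2
    have hle' : AL π1 R (stb σr) ≤ AL π1 M1 (stb σr) := fun x hx => ⟨hR2 hx.1, hx.2⟩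
    have hc1 : IsChr (fun s : AL π1 R (stb σr) => Fr s) := by
      have e1 := hc.comp (Subgroup.inclusion hle)
      have e2 : (fun s : AL π1 R (stb σr) => Fr s) = fun s => F (Subgroup.inclusion hle s) := by
        funext s
        exact hFr1 _ (hle' s.2)
      rw [e2]
      exact e1
    let i0 : ↥((stb σr).comap q) →* ↥(AL π1 R (stb σr)) :=
      (ι.comp ((stb σr).comap q).subtype).codRestrict (AL π1 R (stb σr)) (by
        intro a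
        change π1 (ι a) ∈ R ⊓ stb σr
        rw [hLD.πι]
        exact ⟨hR1 ⟨a, rfl⟩, a.2⟩)
    refine W0.isIrr_of_res i0 hc1 ?_
    have e2 : (fun a : ↥((stb σr).comap q) => Fr (i0 a)) = fun a : ↥((stb σr).comap q) => fr a := by
      funext a
      exact hFrι a
    exact e2 ▸ hfri.1
  have hEF : EF π1 q.range M1 (stb σr) Fr :=
    ⟨⟨hres M1 hMM.le1 le_rfl, hFr0⟩, hres q.range le_rfl hMM.le1, by rw [hqs]; exact le_top⟩
  have hOv : Ov π1 μ1 Fr := by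
    intro z x
    have e1 : (z : L1) * x ∈ AL π1 M1 (stb σr) ↔ x ∈ AL π1 M1 (stb σr) := by
      have e2 : π1 (z : L1) = 1 := z.2
      rw [Subgroup.mem_comap, Subgroup.mem_comap, map_mul, e2, one_mul]
    by_cases hx : x ∈ AL π1 M1 (stb σr)
    · rw [hFr1 _ hx, hFr1 _ (e1.2 hx), hFo]
    · rw [hFr0 _ hx, hFr0 _ (fun h => hx (e1.1 h)), mul_zero]
  have hiv : ∀ t, π1 t ∈ stb σr → ∀ x, Fr (t * x * t⁻¹) = Fr x := by
    intro t ht x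
    have e1 : t * x * t⁻¹ ∈ AL π1 M1 (stb σr) ↔ x ∈ AL π1 M1 (stb σr) := by
      have e2 : π1 (t * x * t⁻¹) = π1 t * π1 x * (π1 t)⁻¹ := by
        rw [map_mul, map_mul, map_inv]
      rw [Subgroup.mem_comap, Subgroup.mem_comap, e2, Subgroup.mem_inf, Subgroup.mem_inf]
      constructor
      · rintro ⟨e3, e4⟩
        refine ⟨?_, ?_⟩
        · have e5 := hM1n.conj_mem _ e3 (π1 t)⁻¹
          have e6 : (π1 t)⁻¹ * (π1 t * π1 x * (π1 t)⁻¹) * (π1 t)⁻¹⁻¹ = π1 x := by group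
          rwa [e6] at e5
        · have e5 := (stb σr).mul_mem ((stb σr).mul_mem ((stb σr).inv_mem ht) e4) ht
          have e6 : (π1 t)⁻¹ * (π1 t * π1 x * (π1 t)⁻¹) * π1 t = π1 x := by group
          rwa [e6] at e5
      · rintro ⟨e3, e4⟩
        exact ⟨hM1n.conj_mem _ e3 _,
          (stb σr).mul_mem ((stb σr).mul_mem ht e4) ((stb σr).inv_mem ht)⟩
    by_cases hx : x ∈ AL π1 M1 (stb σr)
    · rw [hFr1 _ hx, hFr1 _ (e1.2 hx)]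
      exact hFi.1.conj_eq ⟨t, ht⟩ ⟨x, hx.2⟩
    · rw [hFr0 _ hx, hFr0 _ (fun h => hx (e1.1 h))]
  -- the values at the elements of the base group
  have hval : ∀ m : Ω → Q, cjF (ε n)⁻¹ f (ε m) = ∏ o, Fr (ι (m o)) := by
    intro m
    rw [hTF.1 m]
    exact Finset.prod_congr rfl fun o _ => (hFrι (m o)).symm
  have hεN : ∀ m : Ω → Q, π (ε m) ∈ NN' π ε := fun m => ⟨ε m, ⟨m, rfl⟩, rfl⟩
  have hSUP : SUP 𝔐 π1 q.range M1 Fr := by
    refine h8 L K K1 Q L1 Ω 𝔐 ℓ hmax hℓ π μ φ q α ε μQ π1 μ1 ι M M1 hWD hLD hMM σr Fr hchr hEF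
      hOv (cjF (ε n)⁻¹ f) hfr' hval ?_
    intro x hx
    obtain ⟨u, v, hu, hv, hus, hvs, hne⟩ := hSPP f0 hf0 x hx
    refine ⟨u, v, hu, hv, hus, hvs, ?_⟩
    have e1 := conv_civ hu hv
    have e2 := conv_son π (NN' π ε) hus hvs
    have hl : (ε n)⁻¹ ∈ (NN' π ε).comap π := Subgroup.inv_mem _ (hεN n)
    rw [sc_cjF 𝔐 e1 hl, hff f0 hf0 _ e1 e2]
    exact hne
  have hθr : ∀ m : Ω → Q, cjF (ε n)⁻¹ θ (ε m) = e * ∏ o, Fr (ι (m o)) := by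
    intro m
    rw [← hval m, cjF, cjF]
    have e0 : π ((ε n)⁻¹⁻¹ * ε m * (ε n)⁻¹) ∈ NN' π ε := by
      rw [inv_inv, map_mul, map_mul, map_inv]
      exact hNn.conj_mem _ (hεN m) _
    by_cases hy : π ((ε n)⁻¹⁻¹ * ε m * (ε n)⁻¹) ∈ stb σ
    · exact hfe _ ⟨e0, hy⟩
    · rw [hB.irr.2 _ (fun h => hy h.2), hfi.2 _ (fun h => hy h.2), mul_zero]
  obtain ⟨ζ, hZ, hTP⟩ := h9 L K K1 Q L1 Ω ℓ π μ φ q α ε μQ π1 μ1 ι M M1 hWD hLD hMM σr Fr hchr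
    hEF hOv (cjF (ε n)⁻¹ θ) e hBr.irr hBr.ovl hθr
  have hzi := (h10 L K K1 Q L1 Ω ℓ π μ φ q α ε μQ π1 μ1 ι M M1 hWD hLD hMM σr Fr hchr
    hEF hOv hqs hiv ζ hZ (cjF (ε n)⁻¹ θ) hTP).1 hBr.iv
  exact ⟨L1, inferInstance, inferInstance, π1, μ1, ι, σr, Fr, ζ, cjF (ε n)⁻¹ θ,
    ⟨hWD, hLD, hMM, hchr, hEF, hOv, hqs, hiv, hSUP, hZ, hzi⟩, hBr, hTP⟩

end Pool.Agent.DPG
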