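import Mathlib
import Pool.Agent.DPG.StmtsA
import Pool.Agent.DPN.RDA
import Pool.Agent.DPN.CHM
import Pool.Agent.DPN.KEYN
import Pool.Agent.DPN.NUX
import Pool.Agent.DPM.QINF

/-!
# Auxiliary facts for RIX
-/

set_option autoImplicit false

namespace Pool.Agent.DPG.RIX

open Pool.Agent.DP Pool.Agent.DPC Pool.Agent.DPM Pool.Agent.DPN Pool.Agent.DPF
  Pool.Agent.Lib_helper13 Representation

/-! ### Products of invariant functions -/

section ListT

variable {A T : Type} [Group A] [Group T] [Fintype T]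

/-- The scalar of a function. -/
noncomputable def lmT (E : T → ℂ) (u : T → ℤ) : ℂ := (∑ t, ((u t : ℤ) : ℂ) * E t) / E 1

theorem lmT_conv [Fintype A] (e : A →* T) {θ : A → ℂ} {E : T → ℂ} (hθ : IsIrr θ)
    (hE : IsChr E) (hr : ∀ a, E (e a) = θ a) (u v : T → ℤ) (hu : AIv e u) (hv : AIv e v) :
    lmT E (conv u v) = lmT E u * lmT E v := by
  have h1 : E 1 = θ 1 := by rw [← hr 1, map_one]
  have h2 := RDA.prod_wt hθ hE hr (fun t => ((u t : ℤ) : ℂ)) (fun t => ((v t : ℤ) : ℂ))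
    (fun a γ => by
      show ((u (e a * γ * (e a)⁻¹) : ℤ) : ℂ) = _
      rw [hu a γ])
    (fun a γ => by
      show ((v (e a * γ * (e a)⁻¹) : ℤ) : ℂ) = _
      rw [hv a γ])
  unfold lmT conv
  rw [h1]
  push_cast
  exact h2

theorem lmT_nil {E : T → ℂ} (h1 : E 1 ≠ 0) : lmT E (pl ([] : List (T → ℤ))) = 1 := by
  classical
  unfold lmT
  rw [Finset.sum_eq_single (1 : T)]
  · rw [KEYN.pl_nil, if_pos rfl]
    push_cast
    rw [one_mul, div_self h1]
  · intro t _ ht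
    rw [KEYN.pl_nil, if_neg ht]
    push_cast
    rw [zero_mul]
  · intro h
    exact absurd (Finset.mem_univ _) h

theorem lmT_pl [Fintype A] (e : A →* T) {θ : A → ℂ} {E : T → ℂ} (hθ : IsIrr θ)
    (hE : IsChr E) (hr : ∀ a, E (e a) = θ a) (l : List (T → ℤ)) (hl : ∀ u ∈ l, AIv e u) :
    lmT E (pl l) = (l.map (lmT E)).prod := by
  induction l with
  | nil =>
    rw [List.map_nil, List.prod_nil]
    apply lmT_nil
    rw [← map_one e, hr]
    exact hθ.one_ne_zero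
  | cons u l ih =>
    have hl' : ∀ v ∈ l, AIv e v := fun v hv => hl v (List.mem_cons_of_mem _ hv)
    rw [KEYN.pl_cons, lmT_conv e hθ hE hr u (pl l) (hl u List.mem_cons_self)
      (KEYN.aiv_pl e l hl'), ih hl', List.map_cons, List.prod_cons]

theorem lmT_int [Fintype A] {K : Type} [Group K] {j : A →* T} {c : T →* MulAut A} {p : T →* K}
    (hC : ClG j c p) {θ : A → ℂ} {E : T → ℂ} (hθ : IsIrr θ) (hE : IsChr E)
    (hr : ∀ a, E (j a) = θ a) (u : T → ℤ) (hu : AIv j u) : IsIntegral ℤ (lmT E u) := by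
  have h1 : E 1 = θ 1 := by rw [← hr 1, map_one]
  have h2 := FIBI.int_all hC hθ hE hr (fun t => ((u t : ℤ) : ℂ))
    (fun a γ => by
      show ((u (j a * γ * (j a)⁻¹) : ℤ) : ℂ) = _
      rw [hu a γ]) (fun x => _root_.isIntegral_intCast _)
  unfold lmT
  rw [h1]
  exact h2

theorem red_list_prod (𝔐 : Ideal (integralClosure ℤ ℂ)) (l : List ℂ)
    (hl : ∀ x ∈ l, IsIntegral ℤ x) : IsIntegral ℤ l.prod ∧
      red 𝔐 l.prod = (l.map (red 𝔐)).prod := by
  induction l with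
  | nil =>
    rw [List.prod_nil, List.map_nil, List.prod_nil]
    exact ⟨isIntegral_one, red_one 𝔐⟩
  | cons x l ih =>
    obtain ⟨h1, h2⟩ := ih fun y hy => hl y (List.mem_cons_of_mem _ hy)
    have h3 := hl x List.mem_cons_self
    rw [List.prod_cons, List.map_cons, List.prod_cons, red_mul 𝔐 h3 h1, h2]
    exact ⟨h3.mul h1, rfl⟩

theorem red_lmT_pl (𝔐 : Ideal (integralClosure ℤ ℂ)) [Fintype A] {K : Type} [Group K]
    {j : A →* T} {c : T →* MulAut A} {p : T →* K}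
    (hC : ClG j c p) {θ : A → ℂ} {E : T → ℂ} (hθ : IsIrr θ) (hE : IsChr E)
    (hr : ∀ a, E (j a) = θ a) (l : List (T → ℤ)) (hl : ∀ u ∈ l, AIv j u) :
    red 𝔐 (lmT E (pl l)) = (l.map (fun u => red 𝔐 (lmT E u))).prod := by
  rw [lmT_pl j hθ hE hr l hl, (red_list_prod 𝔐 _ _).2, List.map_map]
  · rfl
  · intro x hx
    obtain ⟨u, hu, rfl⟩ := List.mem_map.mp hx
    exact lmT_int hC hθ hE hr u (hl u hu)

end ListT

/-! ### Scalars in the large group -/

section Big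

variable {L : Type} [Group L] [Fintype L]

theorem sc_eq (𝔐 : Ideal (integralClosure ℤ ℂ)) (T : Subgroup L) [Fintype T] {F : L → ℂ}
    (hF : ∀ x, x ∉ T → F x = 0) (u : L → ℤ) :
    sc 𝔐 F u = red 𝔐 (lmT (fun t : T => F t) (fun t => u t)) := by
  classical
  unfold sc lmT
  congr 1
  congr 1
  rw [← Finset.sum_subset (Finset.subset_univ (Finset.univ.filter (fun k : L => k ∈ T)))]
  · rw [← Finset.sum_subtype_eq_sum_filter, Finset.subtype_univ]
  · intro y _ hy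
    rw [hF y (fun h => hy (Finset.mem_filter.mpr ⟨Finset.mem_univ _, h⟩)), mul_zero]

theorem sc_congr (𝔐 : Ideal (integralClosure ℤ ℂ)) (F : L → ℂ) {u v : L → ℤ}
    (h : ∀ x, F x ≠ 0 → u x = v x) : sc 𝔐 F u = sc 𝔐 F v := by
  unfold sc
  congr 2
  refine Finset.sum_congr rfl fun x _ => ?_
  by_cases hx : F x = 0
  · rw [hx, mul_zero, mul_zero]
  · rw [h x hx]

theorem sc_congr' (𝔐 : Ideal (integralClosure ℤ ℂ)) {F G : L → ℂ} {u : L → ℤ}
    (h1 : F 1 = G 1) (h : ∀ x, u x ≠ 0 → F x = G x) : sc 𝔐 F u = sc 𝔐 G u := by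
  unfold sc
  rw [h1]
  congr 2
  refine Finset.sum_congr rfl fun x _ => ?_
  by_cases hx : u x = 0
  · rw [hx, Int.cast_zero, zero_mul, zero_mul]
  · rw [h x hx]

end Big

/-! ### Lifting and extending linear characters -/

section Lift

theorem ext_hom {Λ : Type} [Group Λ] [Finite Λ] (U : Subgroup Λ) (hU : U ≤ Subgroup.center Λ)
    {ℓ : ℕ} [hp : Fact ℓ.Prime] (hidx : ¬ ℓ ∣ U.index) (κ : U →* ℂˣ) (a : ℕ)
    (hκ : ∀ z, κ z ^ ℓ ^ a = 1) :
    ∃ κ' : Λ →* ℂˣ, (∀ z : U, κ' z = κ z) ∧ ∀ g, κ' g ^ ℓ ^ a = 1 := by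
  classical
  have key : ∀ (g : Λ) (k : ℕ) (g₀ : Λ), g₀⁻¹ * g ^ k * g₀ ∈ U → g₀⁻¹ * g ^ k * g₀ = g ^ k := by
    intro g k g₀ h
    have h1 := Subgroup.mem_center_iff.mp (hU h) g₀
    have h2 : g₀ * (g₀⁻¹ * g ^ k * g₀) = g ^ k * g₀ := by group
    rw [h2] at h1
    exact (mul_right_cancel h1).symm
  have htr : ∀ g, MonoidHom.transfer κ g = κ ⟨g ^ U.index, MonoidHom.transfer_eq_pow_aux g (key g)⟩ :=
    fun g => MonoidHom.transfer_eq_pow κ g (key g)
  have hcop : Nat.Coprime U.index (ℓ ^ a) :=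
    (Nat.Coprime.pow_left a ((Nat.Prime.coprime_iff_not_dvd hp.out).2 hidx)).symm
  obtain ⟨m, hm⟩ : ∃ m : ℕ, U.index * m ≡ 1 [MOD ℓ ^ a] := by
    by_cases ha : a = 0
    · subst ha
      refine ⟨0, ?_⟩
      rw [pow_zero]
      exact Nat.modEq_one
    · have h1 : 1 < ℓ ^ a := Nat.one_lt_pow ha hp.out.one_lt
      obtain ⟨m, -, hm⟩ := Nat.exists_mul_mod_eq_one_of_coprime hcop h1
      exact ⟨m, by rw [Nat.ModEq, hm, Nat.mod_eq_of_lt h1]⟩
  refine ⟨(MonoidHom.transfer κ) ^ m, ?_, ?_⟩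
  · intro z
    rw [MonoidHom.pow_apply, htr]
    have h1 : (⟨(z : Λ) ^ U.index, MonoidHom.transfer_eq_pow_aux (z : Λ) (key z)⟩ : U) =
        z ^ U.index := Subtype.ext (by rw [Subgroup.coe_pow])
    rw [h1, map_pow, ← pow_mul]
    have h2 : orderOf (κ z) ∣ ℓ ^ a := orderOf_dvd_of_pow_eq_one (hκ z)
    have h3 := (pow_eq_pow_iff_modEq (x := κ z)).mpr (hm.of_dvd h2)
    rw [h3, pow_one]
  · intro g
    rw [MonoidHom.pow_apply, htr, ← pow_mul, mul_comm, pow_mul, hκ, one_pow]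

theorem lift_lin (𝔐 : Ideal (integralClosure ℤ ℂ)) (hmax : 𝔐.IsMaximal) {ℓ : ℕ}
    [hp : Fact ℓ.Prime] (hℓ : (ℓ : integralClosure ℤ ℂ) ∈ 𝔐) {Λ : Type} [Group Λ] [Finite Λ]
    (U : Subgroup Λ) (hU : U ≤ Subgroup.center Λ) (hidx : ¬ ℓ ∣ U.index) (μ : U →* ℂˣ)
    (ρ : Λ → (integralClosure ℤ ℂ) ⧸ 𝔐) (h1 : ρ 1 = 1) (hmul : ∀ r s, ρ (r * s) = ρ r * ρ s)
    (hμ : ∀ z : U, ρ z = red 𝔐 ((μ z : ℂˣ) : ℂ)) :
    ∃ ν : Λ →* ℂˣ, (∀ z : U, ν z = μ z) ∧ ∀ g, red 𝔐 ((ν g : ℂˣ) : ℂ) = ρ g := by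
  classical
  have hprime : 𝔐.IsPrime := hmax.isPrime
  obtain ⟨ν0, ⟨n, hn, hn'⟩, hν0⟩ := NUX.lift_hom 𝔐 hmax hℓ ρ h1 hmul
  have hn0 : 0 < n := Nat.pos_of_ne_zero (by rintro rfl; exact hn (dvd_zero ℓ))
  obtain ⟨a, N, hN, hcard⟩ := Nat.exists_eq_pow_mul_and_not_dvd
    (Nat.card_pos (α := U)).ne' ℓ hp.out.ne_one
  have hN0 : 0 < N := Nat.pos_of_ne_zero (by rintro rfl; exact hN (dvd_zero ℓ))
  let κ : U →* ℂˣ := μ * (ν0.comp U.subtype)⁻¹
  have hκv : ∀ z, κ z = μ z * (ν0 z)⁻¹ := fun z => rfl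
  have hμc : ∀ z : U, (μ z) ^ (ℓ ^ a * N) = 1 := by
    intro z
    rw [← hcard, ← map_pow, pow_card_eq_one', map_one]
  have hμi : ∀ z : U, IsIntegral ℤ ((μ z : ℂˣ) : ℂ) := RDA.isIntegral_unit U μ
  have hνi : ∀ g, IsIntegral ℤ (((ν0 g)⁻¹ : ℂˣ) : ℂ) := by
    intro g
    refine IsIntegral.of_pow hn0 ?_
    rw [← Units.val_pow_eq_pow_val, inv_pow, hn', inv_one, Units.val_one]
    exact isIntegral_one
  have hνi' : ∀ g, IsIntegral ℤ ((ν0 g : ℂˣ) : ℂ) := by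
    intro g
    refine IsIntegral.of_pow hn0 ?_
    rw [← Units.val_pow_eq_pow_val, hn', Units.val_one]
    exact isIntegral_one
  have hκi : ∀ z, IsIntegral ℤ ((κ z : ℂˣ) : ℂ) := by
    intro z
    rw [hκv, Units.val_mul]
    exact (hμi z).mul (hνi _)
  have hκr : ∀ z, red 𝔐 ((κ z : ℂˣ) : ℂ) = 1 := by
    intro z
    rw [hκv, Units.val_mul, red_mul 𝔐 (hμi z) (hνi _), ← hμ, ← hν0,
      ← red_mul 𝔐 (hνi' _) (hνi _), ← Units.val_mul, mul_inv_cancel, Units.val_one, red_one]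
  obtain ⟨c, hc⟩ : ∃ c, c = ℓ ^ a := ⟨_, rfl⟩
  have hκc : ∀ z, κ z ^ ℓ ^ a = 1 := by
    intro z
    apply Units.ext
    rw [Units.val_pow_eq_pow_val, Units.val_one]
    refine GALX.root_eq 𝔐 hℓ (m := N * n) ?_ ?_ (one_pow _) ?_
    · intro h
      rcases (Nat.Prime.dvd_mul hp.out).1 h with h | h
      · exact hN h
      · exact hn h
    · rw [← Units.val_pow_eq_pow_val, ← Units.val_pow_eq_pow_val, ← Units.val_one]
      congr 1
      rw [← pow_mul, hκv, mul_pow, ← mul_assoc, pow_mul (μ z), hμc, one_pow, one_mul, mul_comm,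
        pow_mul, inv_pow, hn', inv_one, one_pow]
    · rw [red_pow 𝔐 (hκi z), hκr, one_pow, red_one]
  obtain ⟨κ', hκ1, hκ2⟩ := ext_hom U hU hidx κ a hκc
  refine ⟨ν0 * κ', ?_, ?_⟩
  · intro z
    rw [MonoidHom.mul_apply, hκ1, hκv, mul_comm, inv_mul_cancel_right]
  · intro g
    have h5 : (((κ' g : ℂˣ) : ℂ)) ^ ℓ ^ a = 1 := by
      rw [← Units.val_pow_eq_pow_val, hκ2, Units.val_one]
    obtain ⟨h6, h7⟩ := red_eq_one_of_pow 𝔐 hℓ h5
    rw [MonoidHom.mul_apply, Units.val_mul, red_mul 𝔐 (hνi' g) h6, h7, mul_one, hν0]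

end Lift

/-! ### Chains -/

section CHL

variable {L K : Type} [Group L] [Fintype L] [Group K] [Fintype K]

omit [Fintype L] in
theorem clG_sub (S : Subgroup L) [S.Normal] :
    ClG S.subtype (MulAut.conjNormal : L →* MulAut S) (QuotientGroup.mk' S) where
  inj := Subtype.val_injective
  act := fun y a => MulAut.conjNormal_apply y a
  ker := fun y => by
    rw [← MonoidHom.mem_ker, QuotientGroup.ker_mk', Subgroup.range_subtype]

/-- The stabilizer of the chain in the normal subgroup. -/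
def eqA {π : L →* K} {N S : Subgroup K} {X : Subgroup ↥(N.comap π)}
    (h : ∀ s : ↥(N.comap π), s ∈ X ↔ π s ∈ S) : X ≃* AL π N S where
  toFun a := ⟨((a : ↥(N.comap π)) : L), ⟨(a : ↥(N.comap π)).2, (h _).mp a.2⟩⟩
  invFun x := ⟨⟨(x : L), x.2.1⟩, (h _).mpr x.2.2⟩
  left_inv _ := rfl
  right_inv _ := rfl
  map_mul' _ _ := rfl

/-- The product of a list of invariant functions and the stabilizer of a chain. -/
theorem chl (h3 : Stmt_CHT) (𝔐 : Ideal (integralClosure ℤ ℂ)) (ℓ : ℕ) [Fact ℓ.Prime]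
    (hM : 𝔐.IsMaximal) (hℓ : (ℓ : integralClosure ℤ ℂ) ∈ 𝔐) (π : L →* K)
    (hπ : Function.Surjective π) (hc : π.ker ≤ Subgroup.center L) (N : Subgroup K) [N.Normal]
    (σ : Finset (Subgroup K)) (hσ : ChN ℓ N σ) (f : L → ℂ) (hf : IrrOn (AL π N (stb σ)) f)
    (l : List (L → ℤ)) (hl : ∀ u ∈ l, CIv (N.comap π) u) :
    sc 𝔐 f (pl (l.map (CHM.tr ((stb σ).comap π)))) = sc 𝔐 f (pl l) := by
  classical
  obtain ⟨Z, τ, -, -, hτ, h4, h5⟩ := h3 L K ℓ π hπ hc N σ hσ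
  have hC := clG_sub (N.comap π)
  have hθ : IsIrr (fun a : stb τ => f ((a : ↥(N.comap π)) : L)) :=
    hf.1.comp_mulEquiv (eqA h5)
  have h6 := CHM_thm _ L _ 𝔐 ℓ hM hℓ (N.comap π).subtype MulAut.conjNormal
    (QuotientGroup.mk' _) hC Z τ hτ _ hθ l (fun u hu a x => hl u hu a a.2 x)
  have hb : ∀ w : L → ℤ, sc 𝔐 f w =
      red 𝔐 (wt (fun a : stb τ => f ((a : ↥(N.comap π)) : L))
        (fun a => ((w ((a : ↥(N.comap π)) : L) : ℤ) : ℂ))) := by
    intro w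
    rw [sc_eq 𝔐 (AL π N (stb σ)) hf.2 w]
    unfold lmT wt
    congr 2
    exact (Fintype.sum_equiv (eqA h5).toEquiv _ _ (fun a => rfl)).symm
  rw [hb, hb]
  refine Eq.trans ?_ h6
  congr 2
  funext a
  rw [CHM.pl_restrict, ← h4]
  rfl

end CHL

/-! ### Cosets -/

section Cos

variable {L K : Type} [Group L] [Fintype L] [Group K]

/-- `u` vanishes outside the fibre of `g`. -/
def Sp {X H : Type} [Group X] [Group H] (P : X →* H) (g : H) (u : X → ℤ) : Prop :=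
  ∀ y, P y ≠ g → u y = 0

theorem sp_pl {X H : Type} [Group X] [Fintype X] [Group H] (P : X →* H)
    (l : List ((X → ℤ) × H)) (hl : ∀ x ∈ l, Sp P x.2 x.1) :
    Sp P (l.map Prod.snd).prod (pl (l.map Prod.fst)) := by
  classical
  induction l with
  | nil =>
    intro y hy
    rw [List.map_nil, KEYN.pl_nil, if_neg]
    rintro rfl
    exact hy (by rw [map_one]; rfl)
  | cons x l ih =>
    rw [List.map_cons, List.map_cons, List.prod_cons, KEYN.pl_cons]
    exact KEYN.supp_conv P (hl x List.mem_cons_self)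
      (ih fun y hy => hl y (List.mem_cons_of_mem _ hy))

theorem sp_tr {H : Type} [Group H] (P : L →* H) (T : Subgroup L) {g : H} {u : L → ℤ}
    (hu : Sp P g u) : Sp P g (CHM.tr T u) := by
  intro y hy
  by_cases h : y ∈ T
  · rw [CHM.tr_mem T u h, hu y hy]
  · exact CHM.tr_supp T u h

omit [Fintype L] in
/-- The projection to the quotient. -/
def PN (π : L →* K) (N : Subgroup K) [N.Normal] : L →* K ⧸ N := (QuotientGroup.mk' N).comp π

omit [Fintype L] in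
theorem PN_eq {π : L →* K} {N : Subgroup K} [N.Normal] {x y : L} :
    PN π N y = PN π N x ↔ π (x⁻¹ * y) ∈ N := by
  rw [eq_comm]
  show ((π x : K) : K ⧸ N) = ((π y : K) : K ⧸ N) ↔ _
  rw [QuotientGroup.eq, map_mul, map_inv]

omit [Fintype L] in
theorem PN_one {π : L →* K} {N : Subgroup K} [N.Normal] {y : L} :
    PN π N y = 1 ↔ π y ∈ N := by
  have h := PN_eq (π := π) (N := N) (x := 1) (y := y)
  rw [map_one, inv_one, one_mul] at h
  exact h

omit [Fintype L] in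
theorem sp_iff {π : L →* K} {N : Subgroup K} [N.Normal] {x : L} {u : L → ℤ} :
    Sp (PN π N) (PN π N x) u ↔ SOn {y | π (x⁻¹ * y) ∈ N} u := by
  constructor
  · intro h y hy
    exact h y (fun h' => hy (PN_eq.mp h'))
  · intro h y hy
    exact h y (fun h' => hy (PN_eq.mpr h'))

theorem civ_pl {S : Subgroup L} (l : List (L → ℤ)) (hl : ∀ u ∈ l, CIv S u) :
    CIv S (pl l) := by
  intro s hs x
  exact CHM.pl_iv l (fun u hu y => hl u hu s hs y) x

end Cos

/-! ### Pairs -/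

section Pair

variable {L K : Type} [Group L] [Fintype L] [Group K] (π : L →* K) (N M S : Subgroup K)

omit [Fintype L] in
/-- The normal subgroup of `AL π M S`. -/
abbrev AA : Subgroup ↥(AL π M S) := (AL π N S).subgroupOf (AL π M S)

omit [Fintype L] in
theorem mem_AA {a : ↥(AL π M S)} : a ∈ AA π N M S ↔ π (a : L) ∈ N := by
  rw [Subgroup.mem_subgroupOf]
  constructor
  · intro h
    exact h.1
  · intro h
    exact ⟨h, a.2.2⟩

omit [Fintype L] in
theorem AA_normal [N.Normal] : (AA π N M S).Normal := by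
  refine ⟨fun a ha g => ?_⟩
  rw [mem_AA] at ha ⊢
  have h1 : π ((g * a * g⁻¹ : ↥(AL π M S)) : L) = π (g : L) * π (a : L) * (π (g : L))⁻¹ := by
    rw [Subgroup.coe_mul, Subgroup.coe_mul, Subgroup.coe_inv, map_mul, map_mul, map_inv]
  rw [h1]
  exact Subgroup.Normal.conj_mem inferInstance _ ha _

variable {π N M S}

omit [Fintype L] in
theorem AL_le (hNM : N ≤ M) : AL π N S ≤ AL π M S := fun _ hx => ⟨hNM hx.1, hx.2⟩

theorem irr_AA (hNM : N ≤ M) {f : L → ℂ} (hf : IsIrr (fun a : AL π N S => f a)) :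
    IsIrr (fun a : AA π N M S => f ((a : ↥(AL π M S)) : L)) := by
  classical
  exact hf.comp_mulEquiv (Subgroup.subgroupOfEquivOfLe (AL_le hNM))

omit [Fintype L] in
theorem aiv_AA {u : L → ℤ} (hu : CIv (N.comap π) u) :
    AIv (AA π N M S).subtype (fun t : ↥(AL π M S) => u t) := by
  intro a x
  exact hu ((a : ↥(AL π M S)) : L) ((mem_AA π N M S).mp a.2) (x : L)

/-- The product of the scalars of invariant functions. -/
theorem prd (𝔐 : Ideal (integralClosure ℤ ℂ)) [N.Normal] (hNM : N ≤ M) {F : L → ℂ}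
    (hF : EF π N M S F) (l : List (L → ℤ)) (hl : ∀ u ∈ l, CIv (N.comap π) u) :
    sc 𝔐 F (pl (l.map (CHM.tr (AL π M S)))) = (l.map (sc 𝔐 F)).prod := by
  classical
  have hn := AA_normal π N M S
  have hC := clG_sub (AA π N M S)
  rw [sc_eq 𝔐 (AL π M S) hF.irr.2]
  have h1 : (fun t : ↥(AL π M S) => pl (l.map (CHM.tr (AL π M S))) (t : L)) =
      pl (l.map (fun (u : L → ℤ) (t : ↥(AL π M S)) => u t)) := by
    funext t
    rw [CHM.pl_restrict]
  rw [h1, red_lmT_pl 𝔐 hC (irr_AA hNM hF.res) hF.irr.1.isChr (fun a => rfl), List.map_map]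
  · congr 1
    refine List.map_congr_left fun u _ => ?_
    exact (sc_eq 𝔐 (AL π M S) hF.irr.2 u).symm
  · intro v hv
    obtain ⟨u, hu, rfl⟩ := List.mem_map.mp hv
    exact aiv_AA (hl u hu)

theorem frl (h3 : Stmt_CHT) [Fintype K] (𝔐 : Ideal (integralClosure ℤ ℂ)) (ℓ : ℕ)
    [Fact ℓ.Prime] (hM : 𝔐.IsMaximal) (hℓ : (ℓ : integralClosure ℤ ℂ) ∈ 𝔐)
    (hπ : Function.Surjective π) (hc : π.ker ≤ Subgroup.center L) [N.Normal] (hNM : N ≤ M)
    {σ : Finset (Subgroup K)} (hσ : ChN ℓ N σ) {F : L → ℂ} (hF : EF π N M (stb σ) F)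
    (l : List ((L → ℤ) × (K ⧸ N))) (hl : ∀ x ∈ l, CIv (N.comap π) x.1)
    (hs : ∀ x ∈ l, Sp (PN π N) x.2 x.1) (hm : ∀ x ∈ l, ∀ y, x.1 y ≠ 0 → π y ∈ M)
    (h1 : (l.map Prod.snd).prod = 1) :
    sc 𝔐 F (pl (l.map Prod.fst)) = (l.map (fun x => sc 𝔐 F x.1)).prod := by
  classical
  have e0 : ∀ w : L → ℤ, Sp (PN π N) 1 w →
      sc 𝔐 F w = sc 𝔐 (fun x => if x ∈ AL π N (stb σ) then F x else 0) w := by
    intro w hw
    refine sc_congr' 𝔐 ?_ ?_
    · exact (if_pos (one_mem (AL π N (stb σ)))).symm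
    · intro x hx
      by_cases h : x ∈ AL π N (stb σ)
      · rw [if_pos h]
      · rw [if_neg h]
        apply hF.irr.2
        intro h'
        refine h ⟨?_, h'.2⟩
        by_contra h''
        exact hx (hw x fun h4 => h'' (PN_one.mp h4))
  have hf : IrrOn (AL π N (stb σ)) (fun x => if x ∈ AL π N (stb σ) then F x else 0) := by
    refine ⟨?_, fun x hx => if_neg hx⟩
    have h2 : (fun s : AL π N (stb σ) => (fun x => if x ∈ AL π N (stb σ) then F x else 0) (s : L))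
        = fun s : AL π N (stb σ) => F s := by
      funext s
      exact if_pos s.2
    rw [h2]
    exact hF.res
  have hs1 : Sp (PN π N) 1 (pl (l.map Prod.fst)) := by
    rw [← h1]
    exact sp_pl _ l hs
  have hs2 : Sp (PN π N) 1 (pl ((l.map Prod.fst).map (CHM.tr ((stb σ).comap π)))) := by
    have h4 := sp_pl (PN π N) (l.map fun x => (CHM.tr ((stb σ).comap π) x.1, x.2)) (by
      intro y hy
      obtain ⟨x, hx, rfl⟩ := List.mem_map.mp hy
      exact sp_tr _ _ (hs x hx))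
    rw [List.map_map, List.map_map] at h4
    have h5 : (l.map (Prod.snd ∘ fun x : (L → ℤ) × (K ⧸ N) =>
        (CHM.tr ((stb σ).comap π) x.1, x.2))) = l.map Prod.snd := rfl
    rw [h5, h1] at h4
    rw [List.map_map]
    exact h4
  have hl' : ∀ u ∈ l.map Prod.fst, CIv (N.comap π) u := by
    intro u hu
    obtain ⟨x, hx, rfl⟩ := List.mem_map.mp hu
    exact hl x hx
  have h6 := chl h3 𝔐 ℓ hM hℓ π hπ hc N σ hσ _ hf (l.map Prod.fst) hl'
  rw [e0 _ hs1, ← h6, ← e0 _ hs2]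
  have h7 : (l.map Prod.fst).map (CHM.tr ((stb σ).comap π)) =
      (l.map Prod.fst).map (CHM.tr (AL π M (stb σ))) := by
    refine List.map_congr_left fun u hu => ?_
    obtain ⟨x, hx, rfl⟩ := List.mem_map.mp hu
    funext y
    by_cases h8 : x.1 y = 0
    · have h9 : ∀ T : Subgroup L, CHM.tr T x.1 y = 0 := by
        intro T
        by_cases h : y ∈ T
        · rw [CHM.tr_mem T _ h, h8]
        · exact CHM.tr_supp T _ h
      rw [h9, h9]
    · have h9 := hm x hx y h8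
      by_cases h : π y ∈ stb σ
      · rw [CHM.tr_mem _ _ (show y ∈ (stb σ).comap π from h),
          CHM.tr_mem _ _ (show y ∈ AL π M (stb σ) from ⟨h9, h⟩)]
      · rw [CHM.tr_supp _ _ (show y ∉ (stb σ).comap π from h),
          CHM.tr_supp _ _ (show y ∉ AL π M (stb σ) from fun h' => h h'.2)]
  rw [h7, prd 𝔐 hNM hF _ hl', List.map_map]
  rfl

/-! ### Twisted groups -/

omit [Fintype L] in
/-- The embedding of the quotient of `AL π M S` in `K / N`. -/
def JJ (π : L →* K) (N M S : Subgroup K) [N.Normal] [(AA π N M S).Normal] :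
    ↥(AL π M S) ⧸ AA π N M S →* K ⧸ N :=
  QuotientGroup.lift (AA π N M S) ((PN π N).comp (AL π M S).subtype)
    (fun a ha => PN_one.mpr ((mem_AA π N M S).mp ha))

omit [Fintype L] in
theorem JJ_mk [N.Normal] [(AA π N M S).Normal] (t : ↥(AL π M S)) :
    JJ π N M S (QuotientGroup.mk' (AA π N M S) t) = PN π N t := rfl

omit [Fintype L] in
theorem JJ_inj [N.Normal] [(AA π N M S).Normal] : Function.Injective (JJ π N M S) := by
  rw [injective_iff_map_eq_one]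
  intro c hc
  obtain ⟨t, rfl⟩ := QuotientGroup.mk'_surjective _ c
  rw [JJ_mk, PN_one] at hc
  rw [QuotientGroup.mk'_apply, QuotientGroup.eq_one_iff, mem_AA]
  exact hc

variable {Γ Λ : Type} [Group Γ] [Fintype Γ] [Group Λ] [Fintype Λ]

omit [Fintype L] in
theorem sp_T [N.Normal] [(AA π N M S).Normal] {c : ↥(AL π M S) ⧸ AA π N M S} {u : L → ℤ}
    (hu : Sp (PN π N) (JJ π N M S c) u) :
    ∀ t : ↥(AL π M S), QuotientGroup.mk' (AA π N M S) t ≠ c → u t = 0 := by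
  intro t ht
  apply hu
  intro h'
  exact ht (JJ_inj h')

/-- The reduced scalars of the twisted group are multiplicative. -/
theorem tl (𝔐 : Ideal (integralClosure ℤ ℂ)) (ℓ : ℕ) [Fact ℓ.Prime] (hM : 𝔐.IsMaximal)
    (hℓ : (ℓ : integralClosure ℤ ℂ) ∈ 𝔐) [N.Normal] {f : L → ℂ} [(AA π N M S).Normal]
    (hθ : IsIrr (fun a : AA π N M S => f ((a : ↥(AL π M S)) : L)))
    (hinv : ∀ (t : ↥(AL π M S)) (x : L), f (t * x * (t : L)⁻¹) = f x)
    {e : AA π N M S →* Γ} {q : Γ →* Λ} {r : Γ →* ↥(AL π M S)} {E : Γ → ℂ} {U : Subgroup Λ}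
    {μ : U →* ℂˣ} {ϖ : Λ →* ↥(AL π M S) ⧸ AA π N M S}
    (h : TWD (AA π N M S).subtype (QuotientGroup.mk' (AA π N M S))
      (fun a => f ((a : ↥(AL π M S)) : L)) e q r E U μ ϖ)
    (l : List ((L → ℤ) × Λ)) (hl : ∀ x ∈ l, CIv (N.comap π) x.1 ∧
      Sp (PN π N) (JJ π N M S (ϖ x.2)) x.1) :
    (∀ t, QuotientGroup.mk' (AA π N M S) t ≠ ϖ (l.map Prod.snd).prod →
      pl ((l.map Prod.fst).map (fun (u : L → ℤ) (t : ↥(AL π M S)) => u t)) t = 0) ∧
    LmL 𝔐 (fun a : AA π N M S => f ((a : ↥(AL π M S)) : L)) q r E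
      (pl ((l.map Prod.fst).map (fun (u : L → ℤ) (t : ↥(AL π M S)) => u t)))
      (l.map Prod.snd).prod =
    (l.map (fun x => LmL 𝔐 (fun a : AA π N M S => f ((a : ↥(AL π M S)) : L)) q r E
      (fun t : ↥(AL π M S) => x.1 t) x.2)).prod := by
  classical
  have hC := clG_sub (AA π N M S)
  obtain ⟨-, -, r3, -, r5, -⟩ := RDA_thm (AA π N M S) (↥(AL π M S)) _ Γ Λ 𝔐 ℓ hM hℓ
    (AA π N M S).subtype MulAut.conjNormal (QuotientGroup.mk' (AA π N M S)) hC
    (QuotientGroup.mk'_surjective _) _ hθ (fun t a => by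
      show f (((MulAut.conjNormal t a : AA π N M S) : ↥(AL π M S)) : L) = _
      rw [MulAut.conjNormal_apply]
      exact hinv t _) e q r E U μ ϖ h
  induction l with
  | nil =>
    constructor
    · intro t ht
      rw [List.map_nil, List.map_nil, KEYN.pl_nil, if_neg]
      rintro rfl
      apply ht
      rw [List.map_nil, List.prod_nil, map_one, map_one]
    · simp only [List.map_nil, List.prod_nil]
      rw [r5 _ (KEYN.aiv_nil _)]
      have h1 : (fun b : AA π N M S => ((pl ([] : List (↥(AL π M S) → ℤ))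
          ((AA π N M S).subtype b) : ℤ) : ℂ)) = fun b => if b = 1 then (1 : ℂ) else 0 := by
        ext b
        rw [KEYN.pl_nil]
        by_cases hb : b = 1
        · rw [hb, map_one, if_pos rfl, if_pos rfl]
          norm_num
        · rw [if_neg hb, if_neg]
          · norm_num
          · intro h
            exact hb (Subtype.ext h)
      rw [h1]
      have h2 : wt (fun a : AA π N M S => f ((a : ↥(AL π M S)) : L))
          (fun b => if b = 1 then 1 else 0) = 1 := by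
        rw [wt]
        simp only [ite_mul, one_mul, zero_mul, Finset.sum_ite_eq', Finset.mem_univ, if_true]
        exact div_self hθ.one_ne_zero
      rw [h2, red_one]
  | cons x l ih =>
    obtain ⟨hs, hm⟩ := ih fun y hy => hl y (List.mem_cons_of_mem _ hy)
    obtain ⟨hx1, hx2⟩ := hl x List.mem_cons_self
    have ha : AIv (AA π N M S).subtype
        (pl ((l.map Prod.fst).map (fun (u : L → ℤ) (t : ↥(AL π M S)) => u t))) := by
      refine KEYN.aiv_pl _ _ fun u hu => ?_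
      obtain ⟨v, hv, rfl⟩ := List.mem_map.mp hu
      obtain ⟨y, hy, rfl⟩ := List.mem_map.mp hv
      exact aiv_AA (hl y (List.mem_cons_of_mem _ hy)).1
    simp only [List.map_cons, List.prod_cons, KEYN.pl_cons]
    constructor
    · rw [map_mul]
      exact KEYN.supp_conv _ (sp_T hx2) hs
    · rw [r3 _ _ (aiv_AA hx1) ha _ _ (sp_T hx2) hs, hm]

omit [Group K] [Fintype Γ] [Fintype Λ] [Group Γ] [Group Λ] in
theorem wt_sc [Group K] (𝔐 : Ideal (integralClosure ℤ ℂ)) {π : L →* K} {N M S : Subgroup K}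
    (hNM : N ≤ M) {f : L → ℂ}
    (hf : ∀ x, x ∉ AL π N S → f x = 0) [Fintype (AA π N M S)] (w : L → ℤ) :
    sc 𝔐 f w = red 𝔐 (wt (fun a : AA π N M S => f ((a : ↥(AL π M S)) : L))
      (fun a => ((w ((a : ↥(AL π M S)) : L) : ℤ) : ℂ))) := by
  classical
  rw [sc_eq 𝔐 (AL π N S) hf w]
  unfold lmT wt
  congr 2
  exact (Fintype.sum_equiv (Subgroup.subgroupOfEquivOfLe (AL_le hNM)).toEquiv _ _
    (fun a => rfl)).symm

omit [Fintype Γ] [Fintype Λ] [Group Γ] [Group Λ] in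
theorem map_tr {l : List (L → ℤ)} (hm : ∀ u ∈ l, ∀ y, u y ≠ 0 → π y ∈ M) :
    l.map (CHM.tr (S.comap π)) = l.map (CHM.tr (AL π M S)) := by
  classical
  refine List.map_congr_left fun u hu => ?_
  funext y
  by_cases h8 : u y = 0
  · have h9 : ∀ T : Subgroup L, CHM.tr T u y = 0 := by
      intro T
      by_cases h : y ∈ T
      · rw [CHM.tr_mem T _ h, h8]
      · exact CHM.tr_supp T _ h
    rw [h9, h9]
  · have h9 := hm u hu y h8
    by_cases h : π y ∈ S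
    · rw [CHM.tr_mem _ _ (show y ∈ S.comap π from h),
        CHM.tr_mem _ _ (show y ∈ AL π M S from ⟨h9, h⟩)]
    · rw [CHM.tr_supp _ _ (show y ∉ S.comap π from h),
        CHM.tr_supp _ _ (show y ∉ AL π M S from fun h' => h h'.2)]

/-- The product of the reduced scalars. -/
theorem tm (h3 : Stmt_CHT) [Fintype K] (𝔐 : Ideal (integralClosure ℤ ℂ)) (ℓ : ℕ)
    [Fact ℓ.Prime] (hM : 𝔐.IsMaximal)
    (hℓ : (ℓ : integralClosure ℤ ℂ) ∈ 𝔐) (hπ : Function.Surjective π)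
    (hc : π.ker ≤ Subgroup.center L) [N.Normal] (hNM : N ≤ M) {σ : Finset (Subgroup K)}
    (hσ : ChN ℓ N σ) {f : L → ℂ} (hf : IrrOn (AL π N (stb σ)) f)
    [(AA π N M (stb σ)).Normal]
    (hinv : ∀ (t : ↥(AL π M (stb σ))) (x : L), f (t * x * (t : L)⁻¹) = f x)
    {e : AA π N M (stb σ) →* Γ} {q : Γ →* Λ} {r : Γ →* ↥(AL π M (stb σ))} {E : Γ → ℂ}
    {U : Subgroup Λ} {μ : U →* ℂˣ} {ϖ : Λ →* ↥(AL π M (stb σ)) ⧸ AA π N M (stb σ)}
    (h : TWD (AA π N M (stb σ)).subtype (QuotientGroup.mk' (AA π N M (stb σ)))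
      (fun a => f ((a : ↥(AL π M (stb σ))) : L)) e q r E U μ ϖ)
    (l : List ((L → ℤ) × Λ)) (hl : ∀ x ∈ l, CIv (N.comap π) x.1 ∧
      Sp (PN π N) (JJ π N M (stb σ) (ϖ x.2)) x.1)
    (hm : ∀ x ∈ l, ∀ y, x.1 y ≠ 0 → π y ∈ M) (h1 : (l.map Prod.snd).prod = 1) :
    (l.map (fun x => LmL 𝔐 (fun a : AA π N M (stb σ) => f ((a : ↥(AL π M (stb σ))) : L)) q r E
      (fun t : ↥(AL π M (stb σ)) => x.1 t) x.2)).prod = sc 𝔐 f (pl (l.map Prod.fst)) := by
  classical
  have hC := clG_sub (AA π N M (stb σ))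
  have hθ := irr_AA (π := π) (S := stb σ) hNM hf.1
  obtain ⟨-, -, -, -, r5, -⟩ := RDA_thm (AA π N M (stb σ)) (↥(AL π M (stb σ))) _ Γ Λ 𝔐 ℓ hM hℓ
    (AA π N M (stb σ)).subtype MulAut.conjNormal (QuotientGroup.mk' (AA π N M (stb σ))) hC
    (QuotientGroup.mk'_surjective _) _ hθ (fun t a => by
      show f (((MulAut.conjNormal t a : AA π N M (stb σ)) : ↥(AL π M (stb σ))) : L) = _
      rw [MulAut.conjNormal_apply]
      exact hinv t _) e q r E U μ ϖ h
  have hl' : ∀ u ∈ l.map Prod.fst, CIv (N.comap π) u := by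
    intro u hu
    obtain ⟨x, hx, rfl⟩ := List.mem_map.mp hu
    exact (hl x hx).1
  have ha : AIv (AA π N M (stb σ)).subtype
      (pl ((l.map Prod.fst).map (fun (u : L → ℤ) (t : ↥(AL π M (stb σ))) => u t))) := by
    refine KEYN.aiv_pl _ _ fun u hu => ?_
    obtain ⟨v, hv, rfl⟩ := List.mem_map.mp hu
    exact aiv_AA (hl' v hv)
  rw [← (tl 𝔐 ℓ hM hℓ hθ hinv h l hl).2, h1, r5 _ ha,
    ← chl h3 𝔐 ℓ hM hℓ π hπ hc N σ hσ f hf _ hl', map_tr, wt_sc (M := M) 𝔐 hNM hf.2]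
  · congr 2
    funext a
    rw [CHM.pl_restrict]
    rfl
  · intro u hu y hy
    obtain ⟨x, hx, rfl⟩ := List.mem_map.mp hu
    exact hm x hx y hy

end Pair

/-! ### Ratios -/

theorem ratio {k X Λ : Type} [Field k] [Group Λ] (W : X → Λ → Prop) (m : X → Λ → k) (s : X → k)
    (h : ∀ l : List (X × Λ), (∀ x ∈ l, W x.1 x.2) → (l.map Prod.snd).prod = 1 →
      (l.map (fun x => m x.1 x.2)).prod = (l.map (fun x => s x.1)).prod)
    (hs : ∀ γ, ∃ u, W u γ ∧ s u ≠ 0) :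
    ∃ ρ : Λ → k, ρ 1 = 1 ∧ (∀ a b, ρ (a * b) = ρ a * ρ b) ∧ (∀ a, ρ a ≠ 0) ∧
      ∀ u γ, W u γ → s u = ρ γ * m u γ := by
  choose v hvW hvs using hs
  have h2 : ∀ u γ, W u γ → m u γ * m (v γ⁻¹) γ⁻¹ = s u * s (v γ⁻¹) := by
    intro u γ hu
    have h3 := h [(u, γ), (v γ⁻¹, γ⁻¹)] (by
      intro x hx
      simp only [List.mem_cons, List.not_mem_nil, or_false] at hx
      rcases hx with rfl | rfl
      · exact hu
      · exact hvW _) (by simp)
    simpa using h3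
  obtain ⟨ρ, hρ⟩ : ∃ ρ : Λ → k, ρ = fun γ => m (v γ⁻¹) γ⁻¹ / s (v γ⁻¹) := ⟨_, rfl⟩
  have h4 : ∀ u γ, W u γ → s u = ρ γ * m u γ := by
    intro u γ hu
    have h5 := h2 u γ hu
    rw [hρ]
    have h6 := hvs γ⁻¹
    field_simp
    linear_combination -h5
  have h5 : ∀ γ, ρ γ ≠ 0 ∧ m (v γ) γ ≠ 0 := by
    intro γ
    have h6 := hvs γ
    rw [h4 _ γ (hvW γ)] at h6
    exact ⟨left_ne_zero_of_mul h6, right_ne_zero_of_mul h6⟩
  have h6 : ∀ a b, ρ (a * b) = ρ a * ρ b := by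
    intro a b
    have h7 := h [(v a, a), (v b, b), (v (a * b)⁻¹, (a * b)⁻¹)] (by
      intro x hx
      simp only [List.mem_cons, List.not_mem_nil, or_false] at hx
      rcases hx with rfl | rfl | rfl
      · exact hvW _
      · exact hvW _
      · exact hvW _) (by
        simp only [List.map_cons, List.map_nil, List.prod_cons, List.prod_nil]
        group)
    simp only [List.map_cons, List.map_nil, List.prod_cons, List.prod_nil, mul_one] at h7
    have h8 := h2 (v (a * b)) (a * b) (hvW _)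
    rw [h4 _ a (hvW a), h4 _ b (hvW b), h4 _ (a * b)⁻¹ (hvW _)] at h7
    rw [h4 _ (a * b) (hvW _), h4 _ (a * b)⁻¹ (hvW _)] at h8
    obtain ⟨-, ma⟩ := h5 a
    obtain ⟨-, mb⟩ := h5 b
    obtain ⟨-, mab⟩ := h5 (a * b)
    obtain ⟨ri, mi⟩ := h5 (a * b)⁻¹
    have h9 : ρ a * ρ b * ρ (a * b)⁻¹ = 1 := by
      have : (m (v a) a * m (v b) b * m (v (a * b)⁻¹) (a * b)⁻¹) *
          (ρ a * ρ b * ρ (a * b)⁻¹) = (m (v a) a * m (v b) b * m (v (a * b)⁻¹) (a * b)⁻¹) * 1 := by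
        linear_combination -h7
      exact mul_left_cancel₀ (mul_ne_zero (mul_ne_zero ma mb) mi) this
    have h10 : ρ (a * b) * ρ (a * b)⁻¹ = 1 := by
      have : (m (v (a * b)) (a * b) * m (v (a * b)⁻¹) (a * b)⁻¹) *
          (ρ (a * b) * ρ (a * b)⁻¹) = (m (v (a * b)) (a * b) * m (v (a * b)⁻¹) (a * b)⁻¹) * 1 := by
        linear_combination -h8
      exact mul_left_cancel₀ (mul_ne_zero mab mi) this
    exact mul_right_cancel₀ ri (h10.trans h9.symm)
  refine ⟨ρ, ?_, h6, fun a => (h5 a).1, h4⟩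
  have h7 := h6 1 1
  rw [mul_one] at h7
  exact (mul_left_cancel₀ (h5 1).1 (by rw [← h7, mul_one]))

end Pool.Agent.DPG.RIX
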