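import Mathlib
import Pool.Agent.DPG.RIXA
import Pool.Agent.DPM.TWC

/-!
# RIX: existence of an extension with prescribed scalars
-/

set_option autoImplicit false

namespace Pool.Agent.DPG

open Pool.Agent.DP Pool.Agent.DPC Pool.Agent.DPM Pool.Agent.DPN Pool.Agent.DPF
  Pool.Agent.Lib_helper13 Representation

namespace RIX

section Aux

variable {L K : Type} [Group L] [Fintype L] [Group K] {π : L →* K} {N M S : Subgroup K}

theorem pl_two (u v : L → ℤ) : pl [u, v] = conv u v := by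
  classical
  rw [KEYN.pl_cons, KEYN.pl_cons]
  congr 1
  funext x
  rw [conv, Finset.sum_eq_single x]
  · rw [inv_mul_cancel, KEYN.pl_nil, if_pos rfl, mul_one]
  · intro y _ hy
    rw [KEYN.pl_nil, if_neg, mul_zero]
    intro h
    exact hy (inv_mul_eq_one.mp h)
  · intro h
    exact absurd (Finset.mem_univ _) h

omit [Fintype L] in
theorem idx [Finite L] (hπ : Function.Surjective π) [N.Normal] :
    (AA π N M S).index ∣ N.relIndex M := by
  have h1 : AA π N M S = N.comap (π.comp (AL π M S).subtype) := by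
    ext a
    rw [mem_AA]
    rfl
  have h2 : (π.comp (AL π M S).subtype).range = M ⊓ S := by
    ext k
    constructor
    · rintro ⟨t, rfl⟩
      exact t.2
    · intro hk
      obtain ⟨x, rfl⟩ := hπ k
      exact ⟨⟨x, hk⟩, rfl⟩
  rw [h1, Subgroup.index_comap, h2]
  have h3 : (N.subgroupOf M).relIndex ((M ⊓ S).subgroupOf M) = N.relIndex (M ⊓ S) :=
    Subgroup.relIndex_subgroupOf inf_le_left
  rw [← h3]
  exact Subgroup.relIndex_dvd_index_of_normal _ _

/-- The part of `u` on the coset `c`. -/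
noncomputable def cut [N.Normal] [(AA π N M S).Normal] (c : ↥(AL π M S) ⧸ AA π N M S)
    (u : L → ℤ) (x : L) : ℤ := open Classical in if PN π N x = JJ π N M S c then u x else 0

omit [Fintype L] in
theorem cut_civ [N.Normal] [(AA π N M S).Normal] (c : ↥(AL π M S) ⧸ AA π N M S)
    {u : L → ℤ} (hu : CIv (N.comap π) u) : CIv (N.comap π) (cut c u) := by
  intro s hs x
  have h1 : PN π N (s * x * s⁻¹) = PN π N x := by
    rw [map_mul, map_mul, map_inv, PN_one.mpr hs, one_mul, inv_one, mul_one]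
  unfold cut
  rw [h1, hu s hs x]

omit [Fintype L] in
theorem cut_sp [N.Normal] [(AA π N M S).Normal] (c : ↥(AL π M S) ⧸ AA π N M S)
    (u : L → ℤ) : Sp (PN π N) (JJ π N M S c) (cut c u) := fun _ hy => if_neg hy

omit [Fintype L] in
theorem cut_sum [N.Normal] [(AA π N M S).Normal] [Fintype (↥(AL π M S) ⧸ AA π N M S)]
    (hπ : Function.Surjective π) (hNM : N ≤ M) (hcov : M ≤ N ⊔ S) (u : L → ℤ) (x : L)
    (hx : π x ∈ M) : u x = ∑ c : ↥(AL π M S) ⧸ AA π N M S, cut c u x := by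
  classical
  obtain ⟨n, hn, s, hs, hns⟩ := Subgroup.mem_sup_of_normal_left.mp (hcov hx)
  obtain ⟨t, rfl⟩ := hπ s
  have ht : π t ∈ M := by
    have h1 : π t = n⁻¹ * π x := by rw [← hns, inv_mul_cancel_left]
    rw [h1]
    exact mul_mem (inv_mem (hNM hn)) hx
  have h2 : PN π N x = PN π N t := by
    rw [PN_eq, map_mul, map_inv, ← hns]
    have h3 : (π t)⁻¹ * (n * π t) = (π t)⁻¹ * n * ((π t)⁻¹)⁻¹ := by group
    rw [h3]
    exact Subgroup.Normal.conj_mem inferInstance _ hn _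
  rw [Finset.sum_eq_single (QuotientGroup.mk' (AA π N M S) ⟨t, ⟨ht, hs⟩⟩)]
  · unfold cut
    rw [JJ_mk, if_pos h2]
  · intro c _ hc
    unfold cut
    rw [if_neg]
    intro h4
    apply hc
    apply JJ_inj
    rw [JJ_mk, ← h4, h2]
  · intro h
    exact absurd (Finset.mem_univ _) h

theorem sc_sum (𝔐 : Ideal (integralClosure ℤ ℂ)) [N.Normal] (hNM : N ≤ M) {G : L → ℂ}
    (hG : EF π N M S G) {ι : Type} [Fintype ι] (w : ι → L → ℤ)
    (hw : ∀ i, CIv (N.comap π) (w i)) :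
    sc 𝔐 G (fun x => ∑ i, w i x) = ∑ i, sc 𝔐 G (w i) := by
  classical
  have hn := AA_normal π N M S
  have hC := clG_sub (AA π N M S)
  rw [sc_eq 𝔐 (AL π M S) hG.irr.2]
  have h1 : ∀ i, sc 𝔐 G (w i) = red 𝔐 (lmT (fun t : ↥(AL π M S) => G t) (fun t => w i t)) :=
    fun i => sc_eq 𝔐 (AL π M S) hG.irr.2 (w i)
  rw [Finset.sum_congr rfl fun i _ => h1 i, ← red_sum]
  · congr 1
    unfold lmT
    rw [← Finset.sum_div, Finset.sum_comm]
    congr 1
    refine Finset.sum_congr rfl fun t _ => ?_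
    push_cast
    rw [Finset.sum_mul]
  · intro i _
    exact lmT_int hC (irr_AA hNM hG.res) hG.irr.1.isChr (fun a => rfl) _ (aiv_AA (hw i))

end Aux

theorem main (h2 : Stmt_SST) (h3 : Stmt_CHT) : Stmt_RIX := by
  classical
  intro L K _ _ _ _ 𝔐 ℓ _ hM hℓ π hπ hc N M _ _ hNM hidx σr Fr hσr hFr hSUP σ f hσ hf hff
  let _ : Field ((integralClosure ℤ ℂ) ⧸ 𝔐) := Ideal.Quotient.field 𝔐
  have hprime : 𝔐.IsPrime := hM.isPrime
  have hsup : ∀ x : L, π x ∈ M → ∃ u : L → ℤ, CIv (N.comap π) u ∧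
      Sp (PN π N) (PN π N x) u ∧ sc 𝔐 Fr u ≠ 0 := by
    intro x hx
    obtain ⟨u, h4, h5, h6⟩ := hSUP x hx
    exact ⟨u, h4, sp_iff.mpr h5, h6⟩
  have hspM : ∀ (x : L) (u : L → ℤ), π x ∈ M → Sp (PN π N) (PN π N x) u →
      ∀ y, u y ≠ 0 → π y ∈ M := by
    intro x u hx hu y hy
    have h4 : PN π N y = PN π N x := by
      by_contra h5
      exact hy (hu y h5)
    rw [PN_eq, map_mul, map_inv] at h4
    have h5 := M.mul_mem hx (hNM h4)
    rwa [mul_inv_cancel_left] at h5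
  have hlist : ∀ l : List ((L → ℤ) × (K ⧸ N)), (∀ x ∈ l, CIv (N.comap π) x.1) →
      (∀ x ∈ l, Sp (PN π N) x.2 x.1) → (∀ x ∈ l, ∀ y, x.1 y ≠ 0 → π y ∈ M) →
      (l.map Prod.snd).prod = 1 →
      sc 𝔐 f (pl (l.map Prod.fst)) = (l.map (fun x => sc 𝔐 Fr x.1)).prod := by
    intro l hl hs hm h1
    rw [← frl h3 𝔐 ℓ hM hℓ hπ hc hNM hσr hFr l hl hs hm h1]
    apply hff
    · refine civ_pl _ fun u hu => ?_
      obtain ⟨x, hx, rfl⟩ := List.mem_map.mp hu
      exact hl x hx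
    · intro x hx
      have h4 := sp_pl (PN π N) l hs
      rw [h1] at h4
      exact h4 x (fun h => hx (PN_one.mp h))
  have hst : ∀ x : L, π x ∈ M → (∃ t, π t ∈ stb σ ∧ π (x⁻¹ * t) ∈ N) ∧
      ∀ t, π t ∈ stb σ → π (x⁻¹ * t) ∈ N → ∀ y, f (t * y * t⁻¹) = f y := by
    intro x hx
    have hx' : π x⁻¹ ∈ M := by rw [map_inv]; exact inv_mem hx
    obtain ⟨u, hu1, hu2, hu3⟩ := hsup x hx
    obtain ⟨v, hv1, hv2, hv3⟩ := hsup x⁻¹ hx'
    have h4 := hlist [(u, PN π N x), (v, PN π N x⁻¹)]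
      (by
        intro y hy
        simp only [List.mem_cons, List.not_mem_nil, or_false] at hy
        rcases hy with rfl | rfl
        · exact hu1
        · exact hv1)
      (by
        intro y hy
        simp only [List.mem_cons, List.not_mem_nil, or_false] at hy
        rcases hy with rfl | rfl
        · exact hu2
        · exact hv2)
      (by
        intro y hy
        simp only [List.mem_cons, List.not_mem_nil, or_false] at hy
        rcases hy with rfl | rfl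
        · exact hspM x u hx hu2
        · exact hspM x⁻¹ v hx' hv2)
      (by
        simp only [List.map_cons, List.map_nil, List.prod_cons, List.prod_nil, mul_one]
        rw [← map_mul, mul_inv_cancel, map_one])
    simp only [List.map_cons, List.map_nil, List.prod_cons, List.prod_nil, mul_one] at h4
    rw [pl_two] at h4
    refine h2 L K 𝔐 ℓ hM hℓ π hπ hc N σ hσ f hf x u v hu1 hv1 (sp_iff.mp hu2) ?_ ?_
    · have h5 := sp_iff.mp hv2
      rw [inv_inv] at h5
      exact h5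
    · rw [h4]
      exact mul_ne_zero hu3 hv3
  have hcov : M ≤ N ⊔ stb σ := by
    intro m hm
    obtain ⟨x, rfl⟩ := hπ m
    obtain ⟨⟨t, ht1, ht2⟩, -⟩ := hst x hm
    rw [map_mul, map_inv] at ht2
    have h4 : π x = π t * ((π x)⁻¹ * π t)⁻¹ := by group
    rw [h4]
    exact mul_mem (Subgroup.mem_sup_right ht1) (inv_mem (Subgroup.mem_sup_left ht2))
  have hinv0 : ∀ t, π t ∈ M → π t ∈ stb σ → ∀ x, f (t * x * t⁻¹) = f x :=
    fun t h4 h5 => (hst t h4).2 t h5 (by rw [inv_mul_cancel, map_one]; exact N.one_mem)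
  refine ⟨hcov, hinv0, ?_⟩
  have hn := AA_normal π N M (stb σ)
  have hC := clG_sub (AA π N M (stb σ))
  have hθ := irr_AA (π := π) (S := stb σ) hNM hf.1
  have hinv : ∀ (t : ↥(AL π M (stb σ))) (x : L), f (t * x * (t : L)⁻¹) = f x :=
    fun t => hinv0 t t.2.1 t.2.2
  obtain ⟨Γ, Λ, _, _, _, _, e, q, r, E, U, μ, ϖ, h⟩ := TWC_thm _ _ _
    (AA π N M (stb σ)).subtype MulAut.conjNormal (QuotientGroup.mk' (AA π N M (stb σ))) hC
    (QuotientGroup.mk'_surjective _) _ hθ (fun t a => by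
      show f (((MulAut.conjNormal t a : AA π N M (stb σ)) : ↥(AL π M (stb σ))) : L) = _
      rw [MulAut.conjNormal_apply]
      exact hinv t _)
  have hCE : ClG e (MulAut.conjNormal.comp r) q := TWF.clg hC h
  obtain ⟨-, -, -, -, -, r6⟩ := RDA_thm (AA π N M (stb σ)) (↥(AL π M (stb σ))) _ Γ Λ 𝔐 ℓ hM hℓ
    (AA π N M (stb σ)).subtype MulAut.conjNormal (QuotientGroup.mk' (AA π N M (stb σ))) hC
    (QuotientGroup.mk'_surjective _) _ hθ (fun t a => by
      show f (((MulAut.conjNormal t a : AA π N M (stb σ)) : ↥(AL π M (stb σ))) : L) = _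
      rw [MulAut.conjNormal_apply]
      exact hinv t _) e q r E U μ ϖ h
  have hcM : ∀ (c : ↥(AL π M (stb σ)) ⧸ AA π N M (stb σ)) (u : L → ℤ),
      Sp (PN π N) (JJ π N M (stb σ) c) u → ∀ y, u y ≠ 0 → π y ∈ M := by
    intro c u hu
    obtain ⟨t, rfl⟩ := QuotientGroup.mk'_surjective _ c
    rw [JJ_mk] at hu
    exact hspM t u t.2.1 hu
  obtain ⟨ρ, ρ1, ρm, ρ0, ρs⟩ := ratio (k := (integralClosure ℤ ℂ) ⧸ 𝔐) (Λ := Λ)
    (fun (u : L → ℤ) (l : Λ) => CIv (N.comap π) u ∧ Sp (PN π N) (JJ π N M (stb σ) (ϖ l)) u)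
    (fun u l => LmL 𝔐 (fun a : AA π N M (stb σ) => f ((a : ↥(AL π M (stb σ))) : L)) q r E
      (fun t : ↥(AL π M (stb σ)) => u t) l)
    (fun u => sc 𝔐 Fr u)
    (by
      intro l hl h1
      have hm : ∀ x ∈ l, ∀ y, x.1 y ≠ 0 → π y ∈ M := fun x hx => hcM _ _ (hl x hx).2
      have h4 := tm h3 𝔐 ℓ hM hℓ hπ hc hNM hσ hf hinv h l hl hm h1
      have h5 := hlist (l.map fun x => (x.1, JJ π N M (stb σ) (ϖ x.2)))
        (by
          intro y hy
          obtain ⟨x, hx, rfl⟩ := List.mem_map.mp hy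
          exact (hl x hx).1)
        (by
          intro y hy
          obtain ⟨x, hx, rfl⟩ := List.mem_map.mp hy
          exact (hl x hx).2)
        (by
          intro y hy
          obtain ⟨x, hx, rfl⟩ := List.mem_map.mp hy
          exact hm x hx)
        (by
          have h6 : ((l.map fun x => (x.1, JJ π N M (stb σ) (ϖ x.2))).map Prod.snd) =
              (l.map Prod.snd).map ((JJ π N M (stb σ)).comp ϖ) := by
            rw [List.map_map, List.map_map]
            rfl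
          rw [h6, ← map_list_prod, h1, map_one])
      have h7 : ((l.map fun x => (x.1, JJ π N M (stb σ) (ϖ x.2))).map Prod.fst) =
          l.map Prod.fst := by
        rw [List.map_map]
        rfl
      have h8 : ((l.map fun x => (x.1, JJ π N M (stb σ) (ϖ x.2))).map
          (fun x => sc 𝔐 Fr x.1)) = l.map (fun x => sc 𝔐 Fr x.1) := by
        rw [List.map_map]
        rfl
      rw [h7, h8] at h5
      exact h4.trans h5)
    (by
      intro l
      obtain ⟨t, ht⟩ := QuotientGroup.mk'_surjective _ (ϖ l)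
      obtain ⟨u, hu1, hu2, hu3⟩ := hsup t t.2.1
      refine ⟨u, ⟨hu1, ?_⟩, hu3⟩
      rw [← ht, JJ_mk]
      exact hu2)
  have hρU : ∀ z : U, ρ z = red 𝔐 ((μ z : ℂˣ) : ℂ) := by
    intro z
    have hz : ϖ z = 1 := (h.πk _).mpr z.2
    obtain ⟨u, hu1, hu2, hu3⟩ := hsup 1 (by rw [map_one]; exact one_mem M)
    rw [map_one] at hu2
    have h4 := ρs u z ⟨hu1, by rw [hz, map_one]; exact hu2⟩
    have h5 := ρs u 1 ⟨hu1, by rw [map_one, map_one]; exact hu2⟩
    have h6 := r6 (fun t : ↥(AL π M (stb σ)) => u t) (aiv_AA hu1) z 1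
    rw [mul_one] at h6
    simp only [ρ1, one_mul] at h5
    rw [h5, ← h6] at h4
    have h7 : LmL 𝔐 (fun a : AA π N M (stb σ) => f ((a : ↥(AL π M (stb σ))) : L)) q r E
      (fun t : ↥(AL π M (stb σ)) => u t) (z : Λ) ≠ 0 := by
      intro h8
      apply hu3
      rw [h5, ← h6, h8, mul_zero]
    exact (mul_right_cancel₀ h7 h4).symm
  have hUidx : ¬ ℓ ∣ U.index := by
    have h4 : U = ϖ.ker := by
      ext l
      rw [MonoidHom.mem_ker, h.πk]
    rw [h4, Subgroup.index_ker, MonoidHom.range_eq_top.mpr h.πs]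
    intro h5
    apply hidx
    have h6 : Nat.card (⊤ : Subgroup (↥(AL π M (stb σ)) ⧸ AA π N M (stb σ))) =
        (AA π N M (stb σ)).index := by
      rw [Subgroup.card_top]
      rfl
    rw [h6] at h5
    exact h5.trans (idx hπ)
  obtain ⟨ν, hνU, hνr⟩ := lift_lin 𝔐 hM hℓ U h.Uc hUidx μ ρ ρ1 ρm hρU
  -- the extension
  have hE' : IsChr (fun γ => E γ * ((ν (q γ) : ℂˣ) : ℂ)) :=
    h.Ec.mul (isChr_lin (ν.comp q))
  have hEe : ∀ a, (fun γ => E γ * ((ν (q γ) : ℂˣ) : ℂ)) (e a) =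
      (fun a : AA π N M (stb σ) => f ((a : ↥(AL π M (stb σ))) : L)) a := by
    intro a
    show E (e a) * ((ν (q (e a)) : ℂˣ) : ℂ) = _
    rw [(h.qk _).mpr ⟨a, rfl⟩, map_one, Units.val_one, mul_one, h.Ee]
  have hirr : IsIrr (fun γ => E γ * ((ν (q γ) : ℂˣ) : ℂ)) := FIBI.irrE hθ hE' hEe
  obtain ⟨F', hF', hF'e⟩ := QINF.exists_inf r h.rs hirr (by
    intro z γ hz
    have hU : q z ∈ U := by
      rw [← h.πk, h.πq, hz, map_one]
    show E (z * γ) * ((ν (q (z * γ)) : ℂˣ) : ℂ) = E γ * ((ν (q γ) : ℂˣ) : ℂ)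
    rw [map_mul, map_mul, Units.val_mul, ← h.El z γ hU hz]
    have h4 := hνU ⟨q z, hU⟩
    rw [← h4]
    ring)
  have hF'f : ∀ a : AA π N M (stb σ), F' (a : ↥(AL π M (stb σ))) =
      f ((a : ↥(AL π M (stb σ))) : L) := by
    intro a
    have h4 : F' (r (e a)) = f ((a : ↥(AL π M (stb σ))) : L) :=
      (congrFun hF'e (e a)).symm.trans (hEe a)
    rw [h.re] at h4
    exact h4
  have hFx : ∀ x ∈ AL π N (stb σ), ext0 F' x = f x := by
    intro x hx
    have hx' : x ∈ AL π M (stb σ) := AL_le hNM hx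
    rw [ext0_of_mem F' hx']
    exact hF'f ⟨⟨x, hx'⟩, (mem_AA π N M (stb σ)).mpr hx.1⟩
  have hEF : EF π N M (stb σ) (ext0 F') := by
    refine ⟨⟨?_, fun x hx => ext0_of_not_mem F' hx⟩, ?_, hcov⟩
    · have h4 : (fun s : ↥(AL π M (stb σ)) => ext0 F' (s : L)) = F' := by
        funext s
        exact ext0_of_mem F' s.2
      rw [h4]
      exact hF'
    · have h4 : (fun a : AL π N (stb σ) => ext0 F' (a : L)) =
          fun a : AL π N (stb σ) => f (a : L) := by
        funext a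
        exact hFx a a.2
      rw [h4]
      exact hf.1
  refine ⟨ext0 F', hEF, hFx, ?_⟩
  -- the scalars
  have key : ∀ (l : Λ) (w : L → ℤ), CIv (N.comap π) w →
      Sp (PN π N) (JJ π N M (stb σ) (ϖ l)) w → sc 𝔐 (ext0 F') w = sc 𝔐 Fr w := by
    intro l w hw hs
    rw [ρs w l ⟨hw, hs⟩, ← hνr, sc_eq 𝔐 (AL π M (stb σ)) hEF.irr.2]
    unfold LmL
    have hνi : IsIntegral ℤ ((ν l : ℂˣ) : ℂ) := by
      refine IsIntegral.of_pow (Nat.card_pos (α := Λ)) ?_
      rw [← Units.val_pow_eq_pow_val, ← map_pow, pow_card_eq_one', map_one, Units.val_one]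
      exact isIntegral_one
    rw [← red_mul 𝔐 hνi]
    · congr 1
      have h4 : (fun t : ↥(AL π M (stb σ)) => ext0 F' (t : L)) = F' := by
        funext s
        exact ext0_of_mem F' s.2
      have h5 : F' 1 = f ((((1 : AA π N M (stb σ))) : ↥(AL π M (stb σ))) : L) := hF'f 1
      rw [h4]
      unfold lmT fib
      rw [h5, ← mul_div_assoc, Finset.mul_sum]
      congr 1
      have h6 : ∀ γ : Γ, ((ν l : ℂˣ) : ℂ) *
          (if q γ = l then ((w (r γ : L) : ℤ) : ℂ) * E γ else 0) =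
          if q γ = l then ((w (r γ : L) : ℤ) : ℂ) * F' (r γ) else 0 := by
        intro γ
        by_cases hγ : q γ = l
        · rw [if_pos hγ, if_pos hγ]
          have h7 : E γ * ((ν (q γ) : ℂˣ) : ℂ) = F' (r γ) := congrFun hF'e γ
          rw [← h7, hγ]
          ring
        · rw [if_neg hγ, if_neg hγ, mul_zero]
      rw [Finset.sum_congr rfl fun γ _ => h6 γ, ← Finset.sum_filter]
      have h7 : ∑ t : ↥(AL π M (stb σ)), ((w (t : L) : ℤ) : ℂ) * F' t =
          ∑ t ∈ Finset.univ.filter (fun t : ↥(AL π M (stb σ)) =>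
            QuotientGroup.mk' (AA π N M (stb σ)) t = ϖ l), ((w (t : L) : ℤ) : ℂ) * F' t := by
        rw [Finset.sum_filter]
        refine Finset.sum_congr rfl fun t _ => ?_
        by_cases ht : QuotientGroup.mk' (AA π N M (stb σ)) t = ϖ l
        · rw [if_pos ht]
        · rw [if_neg ht, sp_T hs t ht, Int.cast_zero, zero_mul]
      rw [h7]
      symm
      refine Finset.sum_bij (fun γ _ => r γ) ?_ ?_ ?_ ?_
      · intro γ hγ
        rw [Finset.mem_filter] at hγ ⊢
        exact ⟨Finset.mem_univ _, by rw [← h.πq, hγ.2]⟩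
      · intro γ hγ γ' hγ' hrr
        rw [Finset.mem_filter] at hγ hγ'
        exact RDA.inj_g hC h hrr (hγ.2.trans hγ'.2.symm)
      · intro t ht
        rw [Finset.mem_filter] at ht
        obtain ⟨g, hg, hgl⟩ := RDA.exists_g hC h ht.2
        exact ⟨g, by rw [Finset.mem_filter]; exact ⟨Finset.mem_univ _, hgl⟩, hg⟩
      · intro γ _
        rfl
    · exact FIBI.int_fib hCE hθ h.Ec h.Ee _
        (fun a γ => RDA.AIv_r h (aiv_AA hw) a γ) (fun γ => _root_.isIntegral_intCast _) l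
  intro u hu
  have hfin : Fintype (↥(AL π M (stb σ)) ⧸ AA π N M (stb σ)) := Fintype.ofFinite _
  have h4 : ∀ (S : Subgroup K) (G : L → ℂ), EF π N M S G → sc 𝔐 G u =
      ∑ c : ↥(AL π M (stb σ)) ⧸ AA π N M (stb σ), sc 𝔐 G (cut c u) := by
    intro S G hG
    rw [← sc_sum 𝔐 hNM hG (fun c : ↥(AL π M (stb σ)) ⧸ AA π N M (stb σ) => cut c u)
      (fun c => cut_civ c hu)]
    refine sc_congr 𝔐 G fun x hx => ?_
    refine cut_sum hπ hNM hcov u x ?_
    by_contra h5
    exact hx (hG.irr.2 x fun h6 => h5 h6.1)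
  rw [h4 _ _ hEF, h4 _ _ hFr]
  refine Finset.sum_congr rfl fun c _ => ?_
  obtain ⟨l, rfl⟩ := h.πs c
  exact key l _ (cut_civ _ hu) (cut_sp _ _)

end RIX

theorem RIX_thm (h1 : Stmt_CHT) (h2 : Stmt_SST) : Stmt_RIX := RIX.main h2 h1

end Pool.Agent.DPG
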