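import Pool.Agent.DPG.StmtsA
import Pool.Agent.DPN.Base
import Pool.Agent.DPM.PSDB

/-!
# RIY: uniqueness of the extension with prescribed scalars
-/

namespace Pool.Agent.DPG

open Pool.Agent.DP Pool.Agent.DPC Pool.Agent.DPM Pool.Agent.DPN Pool.Agent.DPF
  Pool.Agent.Lib_helper13 Representation

namespace RIY

theorem trace_mul_one_dim (f g : (Fin 1 → ℂ) →ₗ[ℂ] (Fin 1 → ℂ)) :
    LinearMap.trace ℂ _ (f * g) = LinearMap.trace ℂ _ f * LinearMap.trace ℂ _ g := by
  rw [LinearMap.trace_eq_matrix_trace ℂ (Pi.basisFun ℂ (Fin 1)),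
    LinearMap.trace_eq_matrix_trace ℂ (Pi.basisFun ℂ (Fin 1)),
    LinearMap.trace_eq_matrix_trace ℂ (Pi.basisFun ℂ (Fin 1)), LinearMap.toMatrix_mul]
  simp [Matrix.trace, Matrix.mul_apply]

/-- A character of degree one is multiplicative. -/
theorem lin_mul {K : Type} [Group K] {η : K → ℂ} (h : IsIrr η) (h1 : η 1 = 1) (a b : K) :
    η (a * b) = η a * η b := by
  obtain ⟨n, ρ, _, rfl⟩ := h
  have hn : n = 1 := by
    rw [char_one] at h1
    simpa using h1
  subst hn
  change LinearMap.trace ℂ _ (ρ (a * b)) = LinearMap.trace ℂ _ (ρ a) * LinearMap.trace ℂ _ (ρ b)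
  rw [map_mul]
  exact trace_mul_one_dim _ _

/-- A character of degree one: the values are roots of unity. -/
theorem lin_pow {K : Type} [Group K] [Finite K] {η : K → ℂ} (h : IsIrr η) (h1 : η 1 = 1)
    (a : K) : η a ^ Nat.card K = 1 := by
  let lam : K →* ℂ := { toFun := η, map_one' := h1, map_mul' := lin_mul h h1 }
  change lam a ^ Nat.card K = 1
  rw [← map_pow, pow_card_eq_one', map_one]

/-- A nonzero reduction is the reduction of an integral number. -/
theorem integral_of_red {𝔐 : Ideal (integralClosure ℤ ℂ)} {a : ℂ} (h : red 𝔐 a ≠ 0) :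
    IsIntegral ℤ a := by
  classical
  by_contra hn
  apply h
  unfold red
  rw [dif_neg hn]

/-- The index. -/
theorem relIndex_eq {K : Type} [Group K] (N M S : Subgroup K) [N.Normal] (hNM : N ≤ M)
    (hc : M ≤ N ⊔ S) : (N ⊓ S).relIndex (M ⊓ S) = N.relIndex M := by
  have h1 : N ⊓ S = N ⊓ (M ⊓ S) := by
    rw [← inf_assoc, inf_eq_left.2 hNM]
  have h2 : (M ⊓ S) ⊔ N = M := by
    apply le_antisymm
    · exact sup_le inf_le_left hNM
    · intro x hx
      obtain ⟨n, hn, s, hs, rfl⟩ := Subgroup.mem_sup_of_normal_left.1 (hc hx)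
      have hs' : s ∈ M := (M.mul_mem_cancel_left (hNM hn)).1 hx
      exact (M ⊓ S ⊔ N).mul_mem (Subgroup.mem_sup_right hn)
        (Subgroup.mem_sup_left (Subgroup.mem_inf.2 ⟨hs', hs⟩))
  rw [h1, Subgroup.inf_relIndex_right, ← Subgroup.relIndex_sup_right (H := M ⊓ S) (K := N), h2]

theorem clG_normal {G : Type} [Group G] (N : Subgroup G) [N.Normal] :
    ClG N.subtype (MulAut.conjNormal : G →* MulAut N) (QuotientGroup.mk' N) where
  inj := N.subtype_injective
  act := fun y a => MulAut.conjNormal_apply y a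
  ker := fun y => by
    rw [Subgroup.range_subtype, QuotientGroup.mk'_apply, QuotientGroup.eq_one_iff]

end RIY

open RIY in
theorem RIY_thm : Stmt_RIY := by
  classical
  intro L K _ _ _ _ 𝔐 ℓ _ h𝔐 hℓ π hπ hU N M _ _ hNM hi S F F' hF hF' hA hSUP hsc
  have hpr : 𝔐.IsPrime := h𝔐.isPrime
  set T : Subgroup L := AL π M S with hT
  set A : Subgroup L := AL π N S with hAd
  have hAT : A ≤ T := Subgroup.comap_mono (inf_le_inf_right S hNM)
  have hAn : (A.subgroupOf T).Normal := by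
    refine ⟨fun a ha t => ?_⟩
    have ha' : π (a : L) ∈ N ⊓ S := Subgroup.mem_subgroupOf.1 ha
    have ht' : π (t : L) ∈ M ⊓ S := t.2
    rw [Subgroup.mem_subgroupOf]
    change π (((t * a * t⁻¹ : T) : L)) ∈ N ⊓ S
    have h1 : π (((t * a * t⁻¹ : T) : L)) = π (t : L) * π (a : L) * (π (t : L))⁻¹ := by
      simp only [Subgroup.coe_mul, Subgroup.coe_inv, map_mul, map_inv]
    rw [h1]
    refine Subgroup.mem_inf.2 ⟨?_, ?_⟩
    · exact Subgroup.Normal.conj_mem inferInstance _ (Subgroup.mem_inf.1 ha').1 _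
    · exact S.mul_mem (S.mul_mem (Subgroup.mem_inf.1 ht').2 (Subgroup.mem_inf.1 ha').2)
        (S.inv_mem (Subgroup.mem_inf.1 ht').2)
  have hc := clG_normal (A.subgroupOf T)
  let eA : ↥(A.subgroupOf T) ≃* A := Subgroup.subgroupOfEquivOfLe hAT
  have hθ : IsIrr (fun a : ↥(A.subgroupOf T) => F ((a : T) : L)) :=
    hF.res.comp_mulEquiv eA
  have hE : IsIrr (fun t : T => F t) := hF.irr.1
  have hψ : IsIrr (fun t : T => F' t) := hF'.irr.1
  have hres : resj (A.subgroupOf T).subtype (fun t : T => F' t) =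
      fun a : ↥(A.subgroupOf T) => F ((a : T) : L) := by
    funext a
    exact (hA _ (Subgroup.mem_subgroupOf.1 a.2)).symm
  have : Fintype (↥T ⧸ A.subgroupOf T) := Fintype.ofFinite _
  obtain ⟨η, hη, hηe⟩ := (b_GALL ↥(A.subgroupOf T) ↥T (↥T ⧸ A.subgroupOf T)
    (A.subgroupOf T).subtype _ (QuotientGroup.mk' (A.subgroupOf T)) hc
    (QuotientGroup.mk'_surjective _) _ (fun t : T => F t) hθ hE.isChr (fun a => rfl)).2.2
    (fun t : T => F' t) hψ (by
      rw [hres, ip_self hθ]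
      exact one_ne_zero)
  -- the degree
  have h11 : F' 1 = F 1 := (hA 1 A.one_mem).symm
  have hF1 : F 1 ≠ 0 := hE.one_ne_zero
  have hη1 : η 1 = 1 := by
    have h1 := congrFun hηe 1
    change F' 1 = F 1 * η (QuotientGroup.mk' (A.subgroupOf T) 1) at h1
    rw [map_one, h11] at h1
    exact (mul_left_cancel₀ hF1 (h1.symm.trans (mul_one (F 1)).symm))
  have hcard : ¬ ℓ ∣ Nat.card (↥T ⧸ A.subgroupOf T) := by
    have h1 : Nat.card (↥T ⧸ A.subgroupOf T) = N.relIndex M := by
      have h2 : Nat.card (↥T ⧸ A.subgroupOf T) = A.relIndex T := rfl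
      rw [h2, hAd, hT, Subgroup.relIndex_comap, Subgroup.map_comap_eq_self_of_surjective hπ,
        relIndex_eq N M S hNM hF.cov]
    rw [h1]
    exact hi
  -- the values
  have hval : ∀ t : T, η (QuotientGroup.mk' (A.subgroupOf T) t) = 1 := by
    intro t
    obtain ⟨u, hu, hus, hu0⟩ := hSUP t (Subgroup.mem_inf.1 t.2).1
    have h1 : ∑ x, ((u x : ℤ) : ℂ) * F' x =
        η (QuotientGroup.mk' (A.subgroupOf T) t) * ∑ x, ((u x : ℤ) : ℂ) * F x := by
      rw [Finset.mul_sum]
      refine Finset.sum_congr rfl fun x _ => ?_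
      by_cases hx : π ((t : L)⁻¹ * x) ∈ N
      · by_cases hxT : x ∈ T
        · have h2 : F' x = F x * η (QuotientGroup.mk' (A.subgroupOf T) ⟨x, hxT⟩) :=
            congrFun hηe ⟨x, hxT⟩
          have h3 : QuotientGroup.mk' (A.subgroupOf T) ⟨x, hxT⟩ =
              QuotientGroup.mk' (A.subgroupOf T) t := by
            rw [QuotientGroup.mk'_apply, QuotientGroup.mk'_apply, eq_comm, QuotientGroup.eq,
              Subgroup.mem_subgroupOf]
            change π ((t : L)⁻¹ * x) ∈ N ⊓ S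
            refine Subgroup.mem_inf.2 ⟨hx, ?_⟩
            rw [map_mul, map_inv]
            exact S.mul_mem (S.inv_mem (Subgroup.mem_inf.1 t.2).2) (Subgroup.mem_inf.1 hxT).2
          rw [h2, h3]
          ring
        · rw [hF.irr.2 x hxT, hF'.irr.2 x hxT, mul_zero, mul_zero]
      · rw [hus x hx]
        simp
    have h2 : sc 𝔐 F' u = red 𝔐 (η (QuotientGroup.mk' (A.subgroupOf T) t)) * sc 𝔐 F u := by
      have h3 : IsIntegral ℤ ((∑ x, ((u x : ℤ) : ℂ) * F x) / F 1) := integral_of_red hu0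
      have h4 : IsIntegral ℤ (η (QuotientGroup.mk' (A.subgroupOf T) t)) :=
        PSDB.isIntegral_of_pow_eq Nat.card_pos (lin_pow hη hη1 _)
      unfold sc
      rw [← red_mul 𝔐 h4 h3, h1, h11, mul_div_assoc]
    rw [← hsc u hu] at h2
    have h5 : red 𝔐 (η (QuotientGroup.mk' (A.subgroupOf T) t)) = 1 := by
      have h6 : red 𝔐 (η (QuotientGroup.mk' (A.subgroupOf T) t)) * sc 𝔐 F u = 1 * sc 𝔐 F u := by
        rw [one_mul]
        exact h2.symm
      exact mul_right_cancel₀ hu0 h6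
    exact PSDB.eq_one_of_red 𝔐 hℓ hcard (lin_pow hη hη1 _) h5
  funext x
  by_cases hx : x ∈ T
  · have h1 : F' x = F x * η (QuotientGroup.mk' (A.subgroupOf T) ⟨x, hx⟩) := congrFun hηe ⟨x, hx⟩
    rw [h1, hval, mul_one]
  · rw [hF.irr.2 x hx, hF'.irr.2 x hx]

end Pool.Agent.DPG
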