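import Mathlib
import Pool.Agent.DPG.StmtsB
import Pool.Agent.DPG.WDB

/-!
# RSC: the pairs of `L1` in the block of the reference pair
-/

set_option autoImplicit false

namespace Pool.Agent.DPG

open Pool.Agent.DP Pool.Agent.DPC Pool.Agent.DPM Pool.Agent.DPN Pool.Agent.DPF
  Pool.Agent.DPK Pool.Agent.Lib_helper13 Representation
open Pool.Agent.Lib_helper13.Dade (pCore DadeHolds dadeSum)

namespace RSC

/-- An `ℓ`-subgroup of `M` is contained in a normal subgroup `N` such that the index of `N` in `M`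
is prime to `ℓ`. -/
theorem le_of_pgroup {G : Type} [Group G] {ℓ : ℕ} (hℓ : ℓ.Prime) {N M D : Subgroup G}
    (hN : N.Normal) (hD : IsPGroup ℓ D) (hDM : D ≤ M) (hc : ¬ ℓ ∣ N.relIndex M) : D ≤ N := by
  intro x hx
  obtain ⟨k, hk⟩ := hD ⟨x, hx⟩
  have hk' : x ^ ℓ ^ k = 1 := by
    have := congrArg (Subtype.val) hk
    simpa using this
  have hcop : Nat.Coprime (ℓ ^ k) (N.relIndex M) :=
    Nat.Coprime.pow_left k ((Nat.Prime.coprime_iff_not_dvd hℓ).mpr hc)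
  have : (N.subgroupOf M).Normal := Subgroup.normal_subgroupOf
  have h1 : (⟨x, hDM hx⟩ : M) ^ (N.subgroupOf M).index ∈ N.subgroupOf M :=
    Subgroup.pow_index_mem (N.subgroupOf M) _
  have h2 : x ^ N.relIndex M ∈ N := by
    have := Subgroup.mem_subgroupOf.mp h1
    simpa [Subgroup.relIndex] using this
  have := hN
  have h3 : ((x : G) : G ⧸ N) ^ (N.relIndex M) = 1 := by
    rw [← QuotientGroup.mk_pow]
    exact (QuotientGroup.eq_one_iff _).mpr h2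
  have h4 : ((x : G) : G ⧸ N) ^ (ℓ ^ k) = 1 := by
    rw [← QuotientGroup.mk_pow, hk']
    rfl
  have h5 : orderOf ((x : G) : G ⧸ N) ∣ 1 := by
    rw [← hcop.gcd_eq_one]
    exact Nat.dvd_gcd (orderOf_dvd_of_pow_eq_one h4) (orderOf_dvd_of_pow_eq_one h3)
  have h6 : ((x : G) : G ⧸ N) = 1 := orderOf_eq_one_iff.mp (Nat.dvd_one.mp h5)
  exact (QuotientGroup.eq_one_iff _).mp h6

end RSC

theorem RSC_thm (h1 : Stmt_BEM) (h2 : Stmt_RIU) : Stmt_RSC := by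
  intro L K K1 Q L1 Ω _ _ _ _ _ _ _ _ _ _ _ _ 𝔐 ℓ _ hM hℓM π μ φ q α ε μQ π1 μ1 ι M M1 σr Fr ζ
    hRF
  have hN : q.range.Normal := WDB.normal_range hRF.wd
  have := hN
  have := hRF.mm.nm1
  have hle : q.range ≤ M1 := hRF.mm.le1
  have hsj : M1 ⊔ stb σr = ⊤ := by
    rw [eq_top_iff, ← hRF.sj]
    exact sup_le_sup_right hle _
  have hB : BPs 𝔐 π1 μ1 M1 (cg 𝔐 Fr) (stb σr) Fr :=
    ⟨hRF.ef.irr, hRF.ov, fun _ _ => rfl, hsj, hRF.iv⟩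
  refine ⟨hB, ?_⟩
  intro σ F hσ hF
  have hσ' : ChN ℓ q.range σ := by
    refine ⟨hσ.1, fun D hD => ?_⟩
    exact RSC.le_of_pgroup (Fact.out) hN (hσ.1.1 D hD).1 (hσ.2 D hD) hRF.mm.cop1
  have hσr : ChN ℓ M1 σr := ⟨hRF.ch.1, fun D hD => (hRF.ch.2 D hD).trans hle⟩
  have h3 := h1 L1 K1 𝔐 ℓ hM hℓM π1 hRF.ld.s hRF.ld.c μ1 M1 (cg 𝔐 Fr) σ σr F Fr hσ hσr hF hB
  obtain ⟨h4, h5⟩ := h2 L1 K1 𝔐 ℓ hM hℓM π1 hRF.ld.s hRF.ld.c q.range M1 hle hRF.mm.cop1 σr Fr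
    hRF.ch hRF.ef hRF.sup σ F hσ' hF.irr h3
  refine ⟨hσ', h4, ?_, h5⟩
  rw [eq_top_iff, ← hF.sj]
  exact sup_le h4.cov le_sup_right

end Pool.Agent.DPG
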