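import Mathlib
import Pool.Agent.DPG.StmtsA

/-!
# The elements of the support stabilize the characters
-/

namespace Pool.Agent.DPG

open Pool.Agent.DP Pool.Agent.DPC Pool.Agent.DPM Pool.Agent.DPN Pool.Agent.DPF
  Pool.Agent.Lib_helper13 Representation
open Pool.Agent.Lib_helper13.Dade (pCore DadeHolds dadeSum)

namespace SST

/-- A twisted invariant function acts as zero on a character that is moved by the twist. -/
theorem core {A : Type} [Group A] [Fintype A] {χ : A → ℂ} (h : IsIrr χ) (c : A ≃* A)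
    (hne : (fun a => χ (c.symm a)) ≠ χ) (w : A → ℂ)
    (hw : ∀ n a, w (c.symm n * a * n⁻¹) = w a) (b : A) :
    ∑ a, w a * χ (a * b) = 0 := by
  have h' : IsIrr (χ ∘ c.symm) := h.comp_mulEquiv c.symm
  obtain ⟨n, ρ, hρ, rfl⟩ := h
  let ρ' : Representation ℂ A (Fin n → ℂ) := ρ.comp c.symm.toMonoidHom
  have hch : ρ'.character = ρ.character ∘ c.symm := rfl
  have hρ' : ρ'.IsIrreducible := by
    rw [irreducible_iff_sum, hch]
    exact h'.sum_self
  have hE : IsEmpty (Representation.Equiv ρ ρ') := by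
    constructor
    intro e
    apply hne
    have := char_iso e
    rw [hch] at this
    exact this.symm
  have hS : Subsingleton (IntertwiningMap ρ ρ') := inferInstance
  let W : (Fin n → ℂ) →ₗ[ℂ] (Fin n → ℂ) := ∑ a, w a • ρ a
  have hW : ∀ g, W ∘ₗ ρ g = ρ' g ∘ₗ W := by
    intro g
    change (∑ a, w a • ρ a) * ρ g = ρ (c.symm g) * (∑ a, w a • ρ a)
    rw [Finset.sum_mul, Finset.mul_sum]
    symm
    refine Fintype.sum_equiv ((Equiv.mulLeft (c.symm g)).trans (Equiv.mulRight g⁻¹)) _ _ ?_
    intro a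
    simp only [Equiv.trans_apply, Equiv.coe_mulLeft, Equiv.coe_mulRight]
    rw [hw, smul_mul_assoc, mul_smul_comm, ← map_mul, ← map_mul]
    congr 2
    group
  have hW0 : W = 0 := by
    have h1 : (⟨W, hW⟩ : IntertwiningMap ρ ρ') = 0 := Subsingleton.elim _ _
    have h2 := congrArg (fun F : IntertwiningMap ρ ρ' => F.toLinearMap) h1
    simpa using h2
  have h3 : LinearMap.trace ℂ _ (W * ρ b) = 0 := by
    rw [hW0, zero_mul, map_zero]
  change LinearMap.trace ℂ _ ((∑ a, w a • ρ a) * ρ b) = 0 at h3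
  rw [Finset.sum_mul, map_sum] at h3
  rw [← h3]
  refine Finset.sum_congr rfl fun a _ => ?_
  rw [smul_mul_assoc, map_smul, ← map_mul]
  rfl

theorem sum_sub {L : Type} [Group L] [Fintype L] (A : Subgroup L) [Fintype A] (F : L → ℂ)
    (h : ∀ x, x ∉ A → F x = 0) : ∑ x, F x = ∑ a : A, F a := by
  classical
  have h1 := Fintype.sum_subtype_add_sum_subtype (fun x => x ∈ A) F
  rw [← h1]
  have h2 : ∑ i : {x // ¬ x ∈ A}, F i = 0 := Finset.sum_eq_zero fun i _ => h i i.2
  rw [h2, add_zero]
  refine Finset.sum_congr ?_ fun _ _ => rfl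
  ext x
  simp

end SST

theorem SST_thm (h1 : Stmt_CHB) : Stmt_SST := by
  intro L K _ _ _ _ 𝔐 ℓ _ hM hℓ π hπ hz N _ σ hσ f hf x0 u v hu hv hsu hsv hne
  classical
  have hC := h1 L K 𝔐 ℓ hM hℓ π hπ hz N σ hσ f hf u v hu hv
  rw [hC] at hne
  have hex : ∃ t, π t ∈ stb σ ∧ π (x0⁻¹ * t) ∈ N := by
    by_contra hcon
    push Not at hcon
    apply hne
    have h0 : ∀ x y : L, (if π y ∈ stb σ then u y * v (y⁻¹ * x) else 0) = 0 := by
      intro x y
      split_ifs with hy
      · rw [hsu y (hcon y hy), zero_mul]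
      · rfl
    unfold sc
    simp only [h0, Finset.sum_const_zero, Int.cast_zero, zero_mul, zero_div]
    exact red_zero 𝔐
  refine ⟨hex, ?_⟩
  intro t ht htN
  by_contra hcon
  push Not at hcon
  obtain ⟨x1, hx1⟩ := hcon
  apply hne
  set A : Subgroup L := AL π N (stb σ) with hA
  have hmem : ∀ a, a ∈ A ↔ π a ∈ N ∧ π a ∈ stb σ := by
    intro a
    rw [hA, Subgroup.mem_comap, Subgroup.mem_inf]
  have hcj : ∀ a, a ∈ A ↔ t * a * t⁻¹ ∈ A := by
    intro a
    rw [hmem, hmem, map_mul, map_mul, map_inv]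
    constructor
    · rintro ⟨h1, h2⟩
      exact ⟨Subgroup.Normal.conj_mem inferInstance _ h1 _,
        (stb σ).mul_mem ((stb σ).mul_mem ht h2) ((stb σ).inv_mem ht)⟩
    · rintro ⟨h1, h2⟩
      constructor
      · have := Subgroup.Normal.conj_mem (inferInstance : N.Normal) _ h1 (π t)⁻¹
        have e : (π t)⁻¹ * (π t * π a * (π t)⁻¹) * (π t)⁻¹⁻¹ = π a := by group
        rwa [e] at this
      · have := (stb σ).mul_mem ((stb σ).mul_mem ((stb σ).inv_mem ht) h2) ht
        have e : (π t)⁻¹ * (π t * π a * (π t)⁻¹) * π t = π a := by group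
        rwa [e] at this
  let c : A ≃* A :=
    { toFun := fun a => ⟨t * a * t⁻¹, (hcj a).mp a.2⟩
      invFun := fun a => ⟨t⁻¹ * a * t, by
        rw [hcj]
        have e : t * (t⁻¹ * (a : L) * t) * t⁻¹ = a := by group
        rw [e]
        exact a.2⟩
      left_inv := fun a => Subtype.ext (by simp only []; group)
      right_inv := fun a => Subtype.ext (by simp only []; group)
      map_mul' := fun a b => Subtype.ext (by simp only [Subgroup.coe_mul]; group) }
  have hc : ∀ a : A, ((c a : A) : L) = t * a * t⁻¹ := fun a => rfl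
  have hcs : ∀ a : A, ((c.symm a : A) : L) = t⁻¹ * a * t := fun a => rfl
  let χ : A → ℂ := fun a => f (t * a * t⁻¹)
  have hχ : IsIrr χ := by
    have := hf.1.comp_mulEquiv c
    exact this
  have hχc : (fun a => χ (c.symm a)) = fun a : A => f a := by
    funext a
    change f (t * ((c.symm a : A) : L) * t⁻¹) = f a
    rw [hcs]
    congr 1
    group
  have hneχ : (fun a => χ (c.symm a)) ≠ χ := by
    rw [hχc]
    intro he
    apply hx1
    by_cases hx : x1 ∈ A
    · exact (congrFun he ⟨x1, hx⟩).symm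
    · rw [hf.2 x1 hx, hf.2 _ (fun h => hx ((hcj x1).mpr h))]
  let w : A → ℂ := fun a => ((u (t * a) : ℤ) : ℂ)
  have hw : ∀ n a : A, w (c.symm n * a * n⁻¹) = w a := by
    intro n a
    change ((u (t * ((c.symm n * a * n⁻¹ : A) : L)) : ℤ) : ℂ) = ((u (t * a) : ℤ) : ℂ)
    have e : t * ((c.symm n * a * n⁻¹ : A) : L) = (n : L) * (t * a) * (n : L)⁻¹ := by
      rw [Subgroup.coe_mul, Subgroup.coe_mul, hcs, Subgroup.coe_inv]
      group
    rw [e, hu n ?_ (t * a)]
    rw [Subgroup.mem_comap]
    exact ((hmem n).mp n.2).1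
  have hcore := SST.core hχ c hneχ w hw
  have hsum : ∑ x, (((if True then ∑ y : L, (if π y ∈ stb σ then u y * v (y⁻¹ * x) else 0)
      else 0 : ℤ) : ℤ) : ℂ) * f x = 0 := by
    simp only [if_true]
    have hA1 : ∀ x, ((∑ y : L, (if π y ∈ stb σ then u y * v (y⁻¹ * x) else 0) : ℤ) : ℂ) * f x =
        ∑ y : L, (((if π y ∈ stb σ then u y * v (y⁻¹ * x) else 0 : ℤ) : ℤ) : ℂ) * f x := by
      intro x
      rw [Int.cast_sum, Finset.sum_mul]
    simp only [hA1]
    rw [Finset.sum_comm]
    have hA2 : ∀ G : L → L → ℂ, ∑ y, ∑ x, G x y = ∑ a, ∑ b, G (t * a * b * t⁻¹) (t * a) := by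
      intro G
      symm
      refine Fintype.sum_equiv (Equiv.mulLeft t) _ _ ?_
      intro a
      refine Fintype.sum_equiv ((Equiv.mulLeft (t * a)).trans (Equiv.mulRight t⁻¹)) _ _ ?_
      intro b
      simp only [Equiv.trans_apply, Equiv.coe_mulLeft, Equiv.coe_mulRight]
    rw [hA2]
    rw [SST.sum_sub A _ ?_]
    · have hA3 : ∀ a : A, ∑ b : L, (((if π (t * a) ∈ stb σ then
          u (t * a) * v ((t * a)⁻¹ * (t * a * b * t⁻¹)) else 0 : ℤ) : ℤ) : ℂ) *
            f (t * a * b * t⁻¹) =
          ∑ b : A, ((v (b * t⁻¹) : ℤ) : ℂ) * (w a * χ (a * b)) := by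
        intro a
        rw [SST.sum_sub A _ ?_]
        · refine Finset.sum_congr rfl fun b _ => ?_
          have e1 : π (t * (a : L)) ∈ stb σ := by
            rw [map_mul]
            exact (stb σ).mul_mem ht ((hmem a).mp a.2).2
          have e2 : (t * (a : L))⁻¹ * (t * a * b * t⁻¹) = b * t⁻¹ := by group
          rw [if_pos e1, e2]
          change _ = ((v (b * t⁻¹) : ℤ) : ℂ) * (((u (t * a) : ℤ) : ℂ) *
            f (t * ((a * b : A) : L) * t⁻¹))
          have e3 : t * (a : L) * b * t⁻¹ = t * ((a * b : A) : L) * t⁻¹ := by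
            rw [Subgroup.coe_mul]
            group
          rw [e3]
          push_cast
          ring
        · intro b hb
          rw [hf.2, mul_zero]
          intro hcon
          apply hb
          have e3 : t * (a : L) * b * t⁻¹ = t * ((a : L) * b) * t⁻¹ := by group
          rw [e3] at hcon
          have h4 := (hcj _).mpr hcon
          have h5 := A.mul_mem (A.inv_mem a.2) h4
          have e4 : (a : L)⁻¹ * (a * b) = b := by group
          rwa [e4] at h5
      simp only [hA3]
      rw [Finset.sum_comm]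
      apply Finset.sum_eq_zero
      intro b _
      rw [← Finset.mul_sum, hcore b, mul_zero]
    · intro a ha
      apply Finset.sum_eq_zero
      intro b _
      by_cases h4 : π (t * a) ∈ stb σ
      · rw [if_pos h4, hsu (t * a) ?_, zero_mul, Int.cast_zero, zero_mul]
        intro h5
        apply ha
        rw [hmem]
        constructor
        · have h6 := N.mul_mem (N.inv_mem htN) h5
          have e : (π (x0⁻¹ * t))⁻¹ * π (x0⁻¹ * (t * a)) = π a := by
            rw [← map_inv, ← map_mul]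
            congr 1
            group
          rwa [e] at h6
        · have h6 := (stb σ).mul_mem ((stb σ).inv_mem ht) h4
          have e : (π t)⁻¹ * π (t * a) = π a := by
            rw [← map_inv, ← map_mul]
            congr 1
            group
          rwa [e] at h6
      · rw [if_neg h4, Int.cast_zero, zero_mul]
  simp only [if_true] at hsum
  unfold sc
  have e : (∑ x, ((∑ y : L, (if π y ∈ stb σ then u y * v (y⁻¹ * x) else 0) : ℤ) : ℂ) * f x) /
      f 1 = 0 := by
    rw [hsum, zero_div]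
  rw [e]
  exact red_zero 𝔐

end Pool.Agent.DPG
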