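import Mathlib
import Pool.Agent.DPG.StmtsA
import Pool.Agent.DPC.WA

/-!
# STK: the product of the coordinates of a commutator
-/

namespace Pool.Agent.DPG

open Pool.Agent.DP Pool.Agent.DPC Pool.Agent.DPM Pool.Agent.DPN Pool.Agent.DPF
  Pool.Agent.Lib_helper13 Representation
open Pool.Agent.Lib_helper13.Dade (pCore DadeHolds dadeSum)
open Pool.Agent.DPC.WA (cc cc_mul)

namespace STK

section Coc

variable {G B C Δ : Type} [Group G] [Group B] [CommGroup C]

/-- A cocycle. -/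
def Coc (a : G →* Equiv.Perm Δ) (c : G → Δ → B) : Prop :=
  ∀ g h d, c (g * h) d = c g (a h d) * c h d

variable {a : G →* Equiv.Perm Δ} {c : G → Δ → B} (hc : Coc a c)

include hc

theorem c_one (d : Δ) : c 1 d = 1 := by
  have h := hc 1 1 d
  rw [mul_one, map_one, Equiv.Perm.one_apply] at h
  exact (mul_eq_left.1 h.symm)

theorem c_inv (g : G) (d : Δ) : c g⁻¹ (a g d) = (c g d)⁻¹ := by
  have h := hc g⁻¹ g d
  rw [inv_mul_cancel, c_one hc] at h
  exact eq_inv_of_mul_eq_one_left h.symm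

variable {ι : C →* B} (hι : ∀ z b, ι z * b = b * ι z) {z : Δ → C} {x y : G}
  (hz : ∀ d, c (x * y * x⁻¹ * y⁻¹) d = ι (z d)) (ha : a (x * y * x⁻¹ * y⁻¹) = 1)

include hι hz ha

theorem L1 (k : ℕ) (e : Δ) :
    a ((x * y * x⁻¹ * y⁻¹ * y) ^ k) = a y ^ k ∧
    c ((x * y * x⁻¹ * y⁻¹ * y) ^ k) e =
      ι (∏ j ∈ Finset.range k, z ((a y ^ (j + 1)) e)) * c (y ^ k) e := by
  induction k with
  | zero => simp [c_one hc]
  | succ k ih =>
    obtain ⟨ih1, ih2⟩ := ih
    refine ⟨?_, ?_⟩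
    · rw [pow_succ', map_mul, ih1, map_mul, ha, one_mul, ← pow_succ']
    · rw [pow_succ', hc, ih1, ih2, hc, hz, Finset.prod_range_succ, map_mul, pow_succ' y,
        hc y (y ^ k), map_pow]
      have h : a y ((a y ^ k) e) = (a y ^ (k + 1)) e := by
        rw [pow_succ', Equiv.Perm.mul_apply]
      rw [h]
      rw [mul_assoc, ← mul_assoc (c y _), ← hι _ (c y _)]
      rw [← mul_assoc, ← mul_assoc, ← mul_assoc, ← map_mul, ← map_mul, mul_comm (z _)]

theorem L2 {γ : ℕ} (hγ : a y ^ γ = 1) (d : Δ) :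
    c x d * c (y ^ γ) d * (c x d)⁻¹ =
      ι (∏ j ∈ Finset.range γ, z ((a y ^ (j + 1)) (a x d))) * c (y ^ γ) (a x d) := by
  rw [← (L1 hc hι hz ha γ (a x d)).2]
  have h1 : x * y * x⁻¹ * y⁻¹ * y = x * y * x⁻¹ := by group
  rw [h1, conj_pow, hc, c_inv hc, hc]
  have h2 : a x⁻¹ (a x d) = d := by
    rw [← Equiv.Perm.mul_apply, ← map_mul, inv_mul_cancel, map_one, Equiv.Perm.one_apply]
  rw [h2, map_pow, hγ, Equiv.Perm.one_apply]

theorem L3 {γ : ℕ} (hγ : a y ^ γ = 1) (d : Δ) (k : ℕ) :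
    c (x ^ k) d * c (y ^ γ) d * (c (x ^ k) d)⁻¹ =
      ι (∏ i ∈ Finset.range k, ∏ j ∈ Finset.range γ, z ((a y ^ (j + 1)) ((a x ^ (i + 1)) d))) *
        c (y ^ γ) ((a x ^ k) d) := by
  induction k with
  | zero => simp [c_one hc]
  | succ k ih =>
    rw [pow_succ', hc, map_pow]
    have h1 : c x ((a x ^ k) d) * c (x ^ k) d * c (y ^ γ) d * (c x ((a x ^ k) d) * c (x ^ k) d)⁻¹ =
        c x ((a x ^ k) d) * (c (x ^ k) d * c (y ^ γ) d * (c (x ^ k) d)⁻¹) *
          (c x ((a x ^ k) d))⁻¹ := by group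
    rw [h1, ih, Finset.prod_range_succ, map_mul]
    have h2 := L2 hc hι hz ha hγ ((a x ^ k) d)
    have h3 : a x ((a x ^ k) d) = (a x ^ (k + 1)) d := by
      rw [pow_succ', Equiv.Perm.mul_apply]
    rw [h3] at h2
    rw [← mul_assoc (c x _), ← hι _ (c x _), mul_assoc (ι _) (c x _), mul_assoc (ι _), h2,
      ← mul_assoc]

end Coc

section Comb

variable {Δ C : Type} [Fintype Δ] [CommGroup C]

/-- The points `Y ^ (j + 1) X ^ (i + 1) δ₀` are all the points. -/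
theorem comb (X Y : Equiv.Perm Δ) (hXY : X * Y = Y * X) (d0 : Δ)
    (htr : ∀ d, ∃ i j : ℤ, (X ^ i * Y ^ j) d0 = d) :
    ∃ α β γ : ℕ, Y ^ γ = 1 ∧ (Y ^ β * X ^ α) d0 = d0 ∧
      (∀ i j : ℤ, (X ^ i * Y ^ j) d0 = d0 → ∃ k m : ℤ, i = α * k ∧ j = β * k + γ * m) ∧
      ∀ z : Δ → C, ∏ i ∈ Finset.range α, ∏ j ∈ Finset.range γ,
        z ((Y ^ (j + 1)) ((X ^ (i + 1)) d0)) = ∏ d, z d := by
  classical
  have hcom : ∀ i j : ℤ, X ^ i * Y ^ j = Y ^ j * X ^ i := fun i j =>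
    ((show Commute X Y from hXY).zpow_zpow i j).eq
  -- the period of Y
  obtain ⟨γ, hγ0, hγi⟩ : ∃ γ : ℕ, 0 < γ ∧ ∀ j : ℤ, (Y ^ j) d0 = d0 ↔ (γ : ℤ) ∣ j := by
    refine ⟨Function.minimalPeriod (Y • ·) d0, ?_, fun j => ?_⟩
    · exact Nat.pos_of_ne_zero (MulAction.minimalPeriod_pos Y d0).out
    · change Y ^ j • d0 = d0 ↔ _
      exact MulAction.zpow_smul_eq_iff_minimalPeriod_dvd
  have hYfix : ∀ j : ℤ, (Y ^ j) d0 = d0 → Y ^ j = 1 := by
    intro j hj
    ext d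
    obtain ⟨i, k, rfl⟩ := htr d
    rw [Equiv.Perm.one_apply, ← Equiv.Perm.mul_apply, ← mul_assoc, ← hcom i j, mul_assoc,
      ← zpow_add, add_comm, zpow_add, Equiv.Perm.mul_apply, Equiv.Perm.mul_apply, hj,
      ← Equiv.Perm.mul_apply]
  have hYγ : Y ^ γ = 1 := by
    have h := hYfix γ ((hγi γ).2 dvd_rfl)
    rwa [zpow_natCast] at h
  have hsp : ∀ i j i' j' : ℤ, X ^ (i + i') * Y ^ (j + j') = (X ^ i * Y ^ j) * (X ^ i' * Y ^ j') := by
    intro i j i' j'
    rw [zpow_add, zpow_add, mul_assoc, ← mul_assoc (X ^ i'), hcom i' j, mul_assoc (Y ^ j),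
      ← mul_assoc (X ^ i)]
  have hadd : ∀ i j i' j' : ℤ, (X ^ i * Y ^ j) d0 = d0 → (X ^ i' * Y ^ j') d0 = d0 →
      (X ^ (i + i') * Y ^ (j + j')) d0 = d0 := by
    intro i j i' j' h h'
    rw [hsp, Equiv.Perm.mul_apply, h', h]
  have hmul : ∀ i j k : ℤ, (X ^ i * Y ^ j) d0 = d0 → (X ^ (i * k) * Y ^ (j * k)) d0 = d0 := by
    intro i j k h
    have e : X ^ (i * k) * Y ^ (j * k) = (X ^ i * Y ^ j) ^ k := by
      rw [(show Commute (X ^ i) (Y ^ j) from hcom i j).mul_zpow, ← zpow_mul, ← zpow_mul]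
    rw [e]
    exact Equiv.Perm.zpow_apply_eq_self_of_apply_eq_self h k
  -- the period of X modulo Y
  have hex : ∃ n : ℕ, 0 < n ∧ ∃ j : ℤ, (X ^ (n : ℤ) * Y ^ j) d0 = d0 :=
    ⟨orderOf X, orderOf_pos X, 0, by
      rw [zpow_natCast, pow_orderOf_eq_one, zpow_zero, mul_one, Equiv.Perm.one_apply]⟩
  obtain ⟨hα0, j1, hj1⟩ := Nat.find_spec hex
  have hmin : ∀ m : ℕ, m < Nat.find hex → ∀ j : ℤ, (X ^ (m : ℤ) * Y ^ j) d0 = d0 → m = 0 := by
    intro m hm j hj
    by_contra h0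
    exact Nat.find_min hex hm ⟨Nat.pos_of_ne_zero h0, j, hj⟩
  generalize Nat.find hex = α at hα0 hj1 hmin
  obtain ⟨β, hβ⟩ : ∃ β : ℕ, (γ : ℤ) ∣ (β : ℤ) - j1 := by
    refine ⟨(j1 % γ).toNat, ?_⟩
    have h0 : 0 ≤ j1 % γ := Int.emod_nonneg _ (by exact_mod_cast hγ0.ne')
    rw [Int.toNat_of_nonneg h0]
    exact ⟨-(j1 / γ), by have := Int.emod_add_mul_ediv j1 γ; linarith⟩
  have hβ1 : (X ^ (α : ℤ) * Y ^ (β : ℤ)) d0 = d0 := by
    have h := hadd α j1 0 (β - j1) hj1 (by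
      rw [zpow_zero, one_mul]
      exact (hγi _).2 hβ)
    rwa [add_zero, add_sub_cancel] at h
  have hdiv : ∀ i j : ℤ, (X ^ i * Y ^ j) d0 = d0 → ∃ k m : ℤ, i = α * k ∧ j = β * k + γ * m := by
    intro i j h
    have hα1 : (α : ℤ) ≠ 0 := by exact_mod_cast hα0.ne'
    have h1 := hadd i j (α * (-(i / α))) (β * (-(i / α))) h (hmul _ _ _ hβ1)
    have h2 : i + α * (-(i / α)) = i % α := by
      have := Int.emod_add_mul_ediv i α
      linarith
    have h3 : i % α = ((i % α).toNat : ℤ) := (Int.toNat_of_nonneg (Int.emod_nonneg _ hα1)).symm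
    rw [h2, h3] at h1
    have h4 : (i % α).toNat < α := by
      have := Int.emod_lt_of_pos i (by exact_mod_cast hα0 : (0 : ℤ) < α)
      omega
    have h5 := hmin _ h4 _ h1
    rw [h5, Nat.cast_zero, zpow_zero, one_mul] at h1
    obtain ⟨m, hm⟩ := (hγi _).1 h1
    refine ⟨i / α, m, ?_, ?_⟩
    · have h6 : i % α = 0 := by
        rw [h3, h5, Nat.cast_zero]
      rw [h6] at h2
      linarith
    · linarith
  refine ⟨α, β, γ, hYγ, ?_, hdiv, ?_⟩
  · rw [← (show Commute X Y from hXY).pow_pow α β]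
    rwa [zpow_natCast, zpow_natCast] at hβ1
  · intro z
    rw [← Finset.prod_product']
    refine Finset.prod_nbij (fun p => (Y ^ (p.2 + 1)) ((X ^ (p.1 + 1)) d0))
      (fun _ _ => Finset.mem_univ _) ?_ ?_ (fun _ _ => rfl)
    · rintro ⟨i, j⟩ h ⟨i', j'⟩ h' he
      simp only [Finset.coe_product, Finset.coe_range, Set.mem_prod, Set.mem_Iio] at h h'
      have h1 : (X ^ ((i : ℤ) - i') * Y ^ ((j : ℤ) - j')) d0 = d0 := by
        apply (X ^ ((i' : ℤ) + 1) * Y ^ ((j' : ℤ) + 1)).injective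
        rw [← Equiv.Perm.mul_apply, ← hsp]
        have e1 : (i' : ℤ) + 1 + (i - i') = ((i + 1 : ℕ) : ℤ) := by push_cast; ring
        have e2 : (j' : ℤ) + 1 + (j - j') = ((j + 1 : ℕ) : ℤ) := by push_cast; ring
        have e3 : (i' : ℤ) + 1 = ((i' + 1 : ℕ) : ℤ) := by push_cast; ring
        have e4 : (j' : ℤ) + 1 = ((j' + 1 : ℕ) : ℤ) := by push_cast; ring
        rw [e1, e2, e3, e4, hcom, hcom, zpow_natCast, zpow_natCast, zpow_natCast, zpow_natCast]
        exact he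
      obtain ⟨k, m, hk, hm⟩ := hdiv _ _ h1
      have hk0 : k = 0 := by
        by_contra hk0
        have : (α : ℤ) ≤ |(i : ℤ) - i'| := by
          rw [hk, abs_mul, Nat.abs_cast]
          exact le_mul_of_one_le_right (by positivity) (Int.one_le_abs hk0)
        have h7 : |(i : ℤ) - i'| < α := by
          rw [abs_lt]
          constructor <;> omega
        omega
      have hm0 : m = 0 := by
        rw [hk0, mul_zero, zero_add] at hm
        by_contra hm0
        have : (γ : ℤ) ≤ |(j : ℤ) - j'| := by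
          rw [hm, abs_mul, Nat.abs_cast]
          exact le_mul_of_one_le_right (by positivity) (Int.one_le_abs hm0)
        have h7 : |(j : ℤ) - j'| < γ := by
          rw [abs_lt]
          constructor <;> omega
        omega
      subst hk0 hm0
      simp only [Prod.mk.injEq]
      constructor <;> omega
    · intro d _
      obtain ⟨i, j, rfl⟩ := htr d
      have hα1 : (α : ℤ) ≠ 0 := by exact_mod_cast hα0.ne'
      have hγ1 : (γ : ℤ) ≠ 0 := by exact_mod_cast hγ0.ne'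
      have hp := Int.emod_add_mul_ediv (i - 1) α
      have hp0 := Int.emod_nonneg (i - 1) hα1
      have hp1 := Int.emod_lt_of_pos (i - 1) (by exact_mod_cast hα0 : (0 : ℤ) < α)
      have hq := Int.emod_add_mul_ediv (j - β * ((i - 1) / α) - 1) γ
      have hq0 := Int.emod_nonneg (j - β * ((i - 1) / α) - 1) hγ1
      have hq1 := Int.emod_lt_of_pos (j - β * ((i - 1) / α) - 1)
        (by exact_mod_cast hγ0 : (0 : ℤ) < γ)
      generalize (i - 1) / α = k at *
      generalize (j - β * k - 1) / γ = m at *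
      generalize (i - 1) % α = p0 at *
      generalize (j - β * k - 1) % γ = q0 at *
      lift p0 to ℕ using hp0
      lift q0 to ℕ using hq0
      refine ⟨(p0, q0), ?_, ?_⟩
      · simp only [Finset.coe_product, Finset.coe_range, Set.mem_prod, Set.mem_Iio]
        omega
      · simp only []
        have e1 : i = ((p0 + 1 : ℕ) : ℤ) + α * k := by push_cast; linarith
        have e2 : j = ((q0 + 1 : ℕ) : ℤ) + (β * k + γ * m) := by push_cast; linarith
        have e3 : (X ^ ((α : ℤ) * k) * Y ^ ((β : ℤ) * k + γ * m)) d0 = d0 := by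
          have h := hadd (α * k) (β * k) 0 (γ * m) (hmul _ _ _ hβ1) (by
            rw [zpow_zero, one_mul]
            exact (hγi _).2 ⟨m, rfl⟩)
          rwa [add_zero] at h
        rw [e1, e2, hsp, Equiv.Perm.mul_apply (X ^ _ * Y ^ _), e3, hcom, zpow_natCast,
          zpow_natCast]
        rfl

end Comb

end STK

theorem STK_thm : Stmt_STK := by
  classical
  intro G B Δ _ _ _ ψ x y C0 hC0 htr hr hc δ0
  -- the commutative group C0
  have hcomm : ∀ u v : C0, u * v = v * u := fun u v =>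
    Subtype.ext ((Subgroup.mem_center_iff.1 (hC0 u.2) v).symm)
  let : CommGroup C0 := { (inferInstance : Group C0) with mul_comm := hcomm }
  let a : G →* Equiv.Perm Δ := SemidirectProduct.rightHom.comp ψ
  have haψ : ∀ g, a g = (ψ g).right := fun g => rfl
  have hcoc : STK.Coc a (cc ψ) := fun g h d => cc_mul ψ g h d
  let z : Δ → C0 := fun d => ⟨(ψ (x * y * x⁻¹ * y⁻¹)).left d, hc d⟩
  have hι : ∀ (w : C0) (b : B), C0.subtype w * b = b * C0.subtype w := fun w b =>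
    (Subgroup.mem_center_iff.1 (hC0 w.2) b).symm
  have hz : ∀ d, cc ψ (x * y * x⁻¹ * y⁻¹) d = C0.subtype (z d) := by
    intro d
    unfold cc
    rw [hr, one_smul]
    rfl
  have ha : a (x * y * x⁻¹ * y⁻¹) = 1 := hr
  have hXY : a x * a y = a y * a x := by
    rw [map_mul, map_mul, map_mul, map_inv, map_inv, mul_inv_eq_one, mul_inv_eq_iff_eq_mul] at ha
    exact ha
  -- the elements which act trivially with coordinates in C0
  let K0 : Subgroup G :=
    { carrier := {g | a g = 1 ∧ ∀ d, cc ψ g d ∈ C0}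
      one_mem' := ⟨map_one a, fun d => by rw [STK.c_one hcoc]; exact C0.one_mem⟩
      mul_mem' := by
        rintro g h ⟨h1, h2⟩ ⟨h3, h4⟩
        exact ⟨by rw [map_mul, h1, h3, one_mul], fun d => by
          rw [hcoc]
          exact C0.mul_mem (h2 _) (h4 _)⟩
      inv_mem' := by
        rintro g ⟨h1, h2⟩
        refine ⟨by rw [map_inv, h1, inv_one], fun d => ?_⟩
        have h := STK.c_inv hcoc g d
        rw [h1, Equiv.Perm.one_apply] at h
        rw [h]
        exact C0.inv_mem (h2 d) }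
  have hK0 : K0.Normal := by
    refine ⟨?_⟩
    rintro n ⟨h1, h2⟩ g
    refine ⟨by rw [map_mul, map_mul, h1, mul_one, map_inv, mul_inv_cancel], fun d => ?_⟩
    obtain ⟨d, rfl⟩ := (a g).surjective d
    rw [hcoc, STK.c_inv hcoc, hcoc]
    have h3 : a g⁻¹ (a g d) = d := by
      rw [← Equiv.Perm.mul_apply, ← map_mul, inv_mul_cancel, map_one, Equiv.Perm.one_apply]
    rw [h3, h1, Equiv.Perm.one_apply]
    have h4 := hι ⟨_, h2 d⟩ (cc ψ g d)
    simp only [Subgroup.subtype_apply] at h4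
    rw [← h4, mul_inv_cancel_right]
    exact h2 d
  have hgen : ∀ g ∈ Subgroup.closure {x, y}, ∃ i j : ℤ, (x ^ i * y ^ j)⁻¹ * g ∈ K0 := by
    have hq : Commute (QuotientGroup.mk' K0 x) (QuotientGroup.mk' K0 y) := by
      have h : QuotientGroup.mk' K0 (x * y * x⁻¹ * y⁻¹) = 1 :=
        (QuotientGroup.eq_one_iff _).2 ⟨ha, fun d => by rw [hz]; exact (z d).2⟩
      rw [map_mul, map_mul, map_mul, map_inv, map_inv, mul_inv_eq_one,
        mul_inv_eq_iff_eq_mul] at h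
      exact h
    have key : ∀ g ∈ Subgroup.closure {x, y}, ∃ i j : ℤ,
        QuotientGroup.mk' K0 g = QuotientGroup.mk' K0 x ^ i * QuotientGroup.mk' K0 y ^ j := by
      intro g hg
      induction hg using Subgroup.closure_induction with
      | mem g hg =>
        rcases hg with rfl | hg
        · exact ⟨1, 0, by rw [zpow_one, zpow_zero, mul_one]⟩
        · rw [Set.mem_singleton_iff] at hg
          subst hg
          exact ⟨0, 1, by rw [zpow_one, zpow_zero, one_mul]⟩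
      | one => exact ⟨0, 0, by rw [zpow_zero, zpow_zero, mul_one, map_one]⟩
      | mul g h _ _ ih1 ih2 =>
        obtain ⟨i, j, e1⟩ := ih1
        obtain ⟨k, l, e2⟩ := ih2
        refine ⟨i + k, j + l, ?_⟩
        rw [map_mul, e1, e2, zpow_add, zpow_add, mul_assoc, mul_assoc,
          ← mul_assoc (QuotientGroup.mk' K0 y ^ j), ← mul_assoc (QuotientGroup.mk' K0 x ^ k),
          (hq.zpow_zpow k j).eq]
      | inv g _ ih =>
        obtain ⟨i, j, e1⟩ := ih
        refine ⟨-i, -j, ?_⟩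
        rw [map_inv, e1, mul_inv_rev, ← zpow_neg, ← zpow_neg, (hq.zpow_zpow (-i) (-j)).eq]
    intro g hg
    obtain ⟨i, j, e⟩ := key g hg
    refine ⟨i, j, ?_⟩
    rw [← QuotientGroup.eq_one_iff]
    change QuotientGroup.mk' K0 _ = 1
    rw [map_mul, map_inv, map_mul, map_zpow, map_zpow, e, inv_mul_cancel]
  have htr' : ∀ d, ∃ i j : ℤ, (a x ^ i * a y ^ j) δ0 = d := by
    intro d
    obtain ⟨g, hg, hgd⟩ := htr δ0 d
    obtain ⟨i, j, h1, _⟩ := hgen g hg
    refine ⟨i, j, ?_⟩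
    rw [map_mul, map_inv, map_mul, map_zpow, map_zpow, inv_mul_eq_one] at h1
    rw [h1]
    exact hgd
  obtain ⟨α, β, γ, hγ, hu, hdiv, hprod⟩ := STK.comb (C := C0) (a x) (a y) hXY δ0 htr'
  have h3 := STK.L3 hcoc hι hz ha hγ δ0 α
  rw [hprod z] at h3
  set e := (a x ^ α) δ0 with he
  have hβe : (a y ^ β) e = δ0 := by
    rw [he, ← Equiv.Perm.mul_apply]
    exact hu
  have hγe : ∀ d, (a y ^ γ) d = d := fun d => by rw [hγ, Equiv.Perm.one_apply]
  have hau : a (y ^ β * x ^ α) δ0 = δ0 := by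
    rw [map_mul, map_pow, map_pow]
    exact hu
  have hav : a (y ^ γ) δ0 = δ0 := by
    rw [map_pow, hγe]
  have h4 : cc ψ (y ^ β) e * cc ψ (y ^ γ) e * (cc ψ (y ^ β) e)⁻¹ = cc ψ (y ^ γ) δ0 := by
    rw [mul_inv_eq_iff_eq_mul]
    have h5 := hcoc (y ^ β) (y ^ γ) e
    have h6 := hcoc (y ^ γ) (y ^ β) e
    rw [map_pow, hγe] at h5
    rw [map_pow, hβe] at h6
    rw [← h5, ← h6, ← pow_add, ← pow_add, add_comm]
  have hU : cc ψ (y ^ β * x ^ α) δ0 = cc ψ (y ^ β) e * cc ψ (x ^ α) δ0 := by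
    rw [hcoc, map_pow]
  have hcomU : cc ψ (y ^ β * x ^ α) δ0 * cc ψ (y ^ γ) δ0 * (cc ψ (y ^ β * x ^ α) δ0)⁻¹ =
      C0.subtype (∏ d, z d) * cc ψ (y ^ γ) δ0 := by
    rw [hU]
    have h7 : cc ψ (y ^ β) e * cc ψ (x ^ α) δ0 * cc ψ (y ^ γ) δ0 *
        (cc ψ (y ^ β) e * cc ψ (x ^ α) δ0)⁻¹ =
        cc ψ (y ^ β) e * (cc ψ (x ^ α) δ0 * cc ψ (y ^ γ) δ0 * (cc ψ (x ^ α) δ0)⁻¹) *
          (cc ψ (y ^ β) e)⁻¹ := by group
    rw [h7, h3, ← mul_assoc (cc ψ (y ^ β) e), ← hι _ (cc ψ (y ^ β) e), mul_assoc (C0.subtype _),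
      mul_assoc (C0.subtype _), h4]
  have hcomU' : cc ψ (y ^ β * x ^ α) δ0 * cc ψ (y ^ γ) δ0 * (cc ψ (y ^ β * x ^ α) δ0)⁻¹ *
      (cc ψ (y ^ γ) δ0)⁻¹ = C0.subtype (∏ d, z d) := by
    rw [hcomU, mul_inv_cancel_right]
  refine ⟨cc ψ (y ^ β * x ^ α) δ0, cc ψ (y ^ γ) δ0, ⟨?_, ?_⟩, ?_⟩
  · rw [hcomU']
    exact (∏ d, z d).2
  · intro χ
    have h8 : (⟨cc ψ (y ^ β * x ^ α) δ0 * cc ψ (y ^ γ) δ0 * (cc ψ (y ^ β * x ^ α) δ0)⁻¹ *
      (cc ψ (y ^ γ) δ0)⁻¹, by rw [hcomU']; exact (∏ d, z d).2⟩ : C0) = ∏ d, z d :=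
      Subtype.ext hcomU'
    rw [h8]
    exact map_prod χ z Finset.univ
  · -- the stabilizer
    let S0 : Subgroup G :=
      { carrier := {g | a g δ0 = δ0 ∧ cc ψ g δ0 ∈
          Subgroup.closure {cc ψ (y ^ β * x ^ α) δ0, cc ψ (y ^ γ) δ0} ⊔ C0}
        one_mem' := ⟨by rw [map_one]; rfl, by rw [STK.c_one hcoc]; exact Subgroup.one_mem _⟩
        mul_mem' := by
          rintro g h ⟨h1, h2⟩ ⟨h3, h4⟩
          refine ⟨by rw [map_mul, Equiv.Perm.mul_apply, h3, h1], ?_⟩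
          have h5 := hcoc g h δ0
          rw [h3] at h5
          rw [h5]
          exact Subgroup.mul_mem _ h2 h4
        inv_mem' := by
          rintro g ⟨h1, h2⟩
          have h5 : a g⁻¹ δ0 = δ0 := by
            have h6 : a g⁻¹ (a g δ0) = δ0 := by
              rw [← Equiv.Perm.mul_apply, ← map_mul, inv_mul_cancel, map_one,
                Equiv.Perm.one_apply]
            rwa [h1] at h6
          refine ⟨h5, ?_⟩
          have h := STK.c_inv hcoc g δ0
          rw [h1] at h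
          rw [h]
          exact Subgroup.inv_mem _ h2 }
    have hle : ∀ g, g ∈ K0 → g ∈ S0 := by
      rintro g ⟨h1, h2⟩
      exact ⟨by rw [h1]; rfl, Subgroup.mem_sup_right (h2 δ0)⟩
    have huS : y ^ β * x ^ α ∈ S0 := ⟨hau, Subgroup.mem_sup_left (Subgroup.subset_closure
      (Set.mem_insert _ _))⟩
    have hvS : y ^ γ ∈ S0 := ⟨hav, Subgroup.mem_sup_left (Subgroup.subset_closure
      (Set.mem_insert_of_mem _ rfl))⟩
    intro g hg hgδ
    obtain ⟨i, j, hij⟩ := hgen g hg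
    have hfix : (a x ^ i * a y ^ j) δ0 = δ0 := by
      have h1 := hij.1
      rw [map_mul, map_inv, map_mul, map_zpow, map_zpow, inv_mul_eq_one] at h1
      rw [h1]
      exact hgδ
    obtain ⟨k, m, rfl, rfl⟩ := hdiv i j hfix
    have hmem : ((y ^ β * x ^ α) ^ k * (y ^ γ) ^ m)⁻¹ * g ∈ K0 := by
      have hq : Commute (QuotientGroup.mk' K0 x) (QuotientGroup.mk' K0 y) := by
        have h : QuotientGroup.mk' K0 (x * y * x⁻¹ * y⁻¹) = 1 :=
          (QuotientGroup.eq_one_iff _).2 ⟨ha, fun d => by rw [hz]; exact (z d).2⟩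
        rw [map_mul, map_mul, map_mul, map_inv, map_inv, mul_inv_eq_one,
          mul_inv_eq_iff_eq_mul] at h
        exact h
      rw [← QuotientGroup.eq_one_iff] at hij ⊢
      change QuotientGroup.mk' K0 _ = 1 at hij
      change QuotientGroup.mk' K0 _ = 1
      rw [map_mul, map_inv, inv_mul_eq_one] at hij ⊢
      rw [← hij]
      simp only [map_mul, map_zpow, map_pow]
      rw [((hq.symm.pow_pow β α)).mul_zpow, ← zpow_natCast, ← zpow_natCast, ← zpow_natCast,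
        ← zpow_mul, ← zpow_mul, ← zpow_mul, (hq.symm.zpow_zpow _ _).eq, mul_assoc, ← zpow_add]
    have hgS : g ∈ S0 := by
      have h1 : g = ((y ^ β * x ^ α) ^ k * (y ^ γ) ^ m) *
          (((y ^ β * x ^ α) ^ k * (y ^ γ) ^ m)⁻¹ * g) := by group
      rw [h1]
      exact S0.mul_mem (S0.mul_mem (S0.zpow_mem huS k) (S0.zpow_mem hvS m)) (hle _ hmem)
    have h9 := hgS.2
    have h10 : cc ψ g δ0 = (ψ g).left δ0 := by
      unfold cc
      rw [show (ψ g).right • δ0 = δ0 from hgδ]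
    rw [h10] at h9
    exact h9

end Pool.Agent.DPG
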