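import Pool.Agent.DPG.StmtsA

/-!
# STO: the product of the coordinates of a commutator is a commutator
-/

namespace Pool.Agent.DPG

open Pool.Agent.DP Pool.Agent.DPC Pool.Agent.DPM Pool.Agent.DPN Pool.Agent.DPF
  Pool.Agent.Lib_helper13 Representation

namespace STO

/-- The Sylow subgroup of a central extension. -/
theorem exists_Q {W1 H1 : Type} [Group W1] [Finite W1] [Group H1] [Finite H1] (ℓ : ℕ)
    [Fact ℓ.Prime] (π1 : W1 →* H1) (hs : Function.Surjective π1)
    (hc : π1.ker ≤ Subgroup.center W1) (P1 : Subgroup H1) (hP : SylAb ℓ P1) :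
    ∃ Q : Subgroup W1, Q.Normal ∧ IsPGroup ℓ Q ∧ ¬ ℓ ∣ Q.index ∧ Q ≤ P1.comap π1 := by
  have := hP.nrm
  have hN : (P1.comap π1).Normal := inferInstance
  let f : ↥(P1.comap π1) →* ↥P1 := π1.subgroupComap P1
  have hf : f.ker ≤ Subgroup.center ↥(P1.comap π1) := by
    intro x hx
    have h1 : π1 (x : W1) = 1 := congrArg Subtype.val (MonoidHom.mem_ker.mp hx)
    have h2 : (x : W1) ∈ Subgroup.center W1 := hc (MonoidHom.mem_ker.mpr h1)
    rw [Subgroup.mem_center_iff] at h2 ⊢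
    intro y
    exact Subtype.ext (h2 y)
  have hnil : Group.IsNilpotent ↥P1 := hP.pgr.isNilpotent
  have hnil2 : Group.IsNilpotent ↥(P1.comap π1) := Subgroup.isNilpotent_of_ker_le_center f hf
  obtain ⟨S⟩ : Nonempty (Sylow ℓ ↥(P1.comap π1)) := inferInstance
  have ht := (Group.isNilpotent_of_finite_tfae (G := ↥(P1.comap π1))).out 0 3
  have hSn : (S : Subgroup ↥(P1.comap π1)).Normal := ht.mp hnil2 ℓ inferInstance S
  have hSc : (S : Subgroup ↥(P1.comap π1)).Characteristic := S.characteristic_of_normal hSn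
  refine ⟨(S : Subgroup ↥(P1.comap π1)).map (P1.comap π1).subtype,
    ConjAct.normal_of_characteristic_of_normal, S.isPGroup'.map _, ?_, ?_⟩
  · rw [Subgroup.index_map_subtype, Subgroup.index_comap_of_surjective P1 hs]
    intro hd
    rcases (Nat.Prime.dvd_mul (Fact.out : ℓ.Prime)).mp hd with h | h
    · exact S.not_dvd_index h
    · exact hP.idx h
  · rintro x ⟨y, _, rfl⟩
    exact y.2

/-- Characters separate the elements of a central subgroup. -/
theorem sep {B : Type} [Group B] [Finite B] (C : Subgroup B) (hC : C ≤ Subgroup.center B)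
    (a b : C) (h : ∀ χ : C →* ℂˣ, χ a = χ b) : a = b := by
  let _ : CommGroup C :=
    { (inferInstance : Group C) with
      mul_comm := fun x y => Subtype.ext (Subgroup.mem_center_iff.mp (hC y.2) x) }
  by_contra hne
  have h1 : a * b⁻¹ ≠ 1 := fun h0 => hne (mul_inv_eq_one.mp h0)
  obtain ⟨χ, hχ⟩ := CommGroup.exists_apply_ne_one_of_hasEnoughRootsOfUnity C ℂ h1
  apply hχ
  have h2 := h χ
  rw [map_mul, map_inv]
  exact mul_inv_eq_one.mpr h2

variable {W W1 Ω : Type} [Group W] [Group W1] [Fintype Ω]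

/-- The product of the values of a linear character at the coordinates. -/
def ph (ψ : W →* Gam (Equiv.Perm Ω) Ω W1) (κ : W1 →* ℂˣ) : W →* ℂˣ where
  toFun w := ∏ o, κ ((ψ w).left o)
  map_one' := by
    rw [map_one]
    exact Finset.prod_eq_one fun o _ => map_one κ
  map_mul' := by
    intro x y
    have h1 : ∀ o, κ ((ψ (x * y)).left o) =
        κ ((ψ x).left o) * κ ((ψ y).left ((ψ x).right⁻¹ • o)) := by
      intro o
      rw [map_mul ψ, ← map_mul κ]
      rfl
    simp only [h1]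
    rw [Finset.prod_mul_distrib]
    congr 1
    exact Equiv.prod_comp (ψ x).right⁻¹ (fun o => κ ((ψ y).left o))

/-- A linear character vanishes on a commutator times an element of the commutator subgroup. -/
theorem hom_comm {G : Type} [Group G] (κ : G →* ℂˣ) (P : Subgroup G) {x y e : G}
    (he : e ∈ ⁅P, P⁆) : κ (x * y * x⁻¹ * y⁻¹ * e) = 1 := by
  have h1 : κ e = 1 := by
    have h2 : ⁅P, P⁆ ≤ κ.ker := by
      rw [Subgroup.commutator_le]
      intro a _ b _
      rw [MonoidHom.mem_ker, map_commutatorElement, commutatorElement_eq_one_iff_mul_comm]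
      exact mul_comm _ _
    exact MonoidHom.mem_ker.mp (h2 he)
  rw [map_mul, map_mul, map_mul, map_mul, map_inv, map_inv, h1, mul_one]
  rw [mul_comm (κ x) (κ y), mul_assoc (κ y), mul_inv_cancel, mul_one, mul_inv_cancel]

/-- The transfer of a linear character at a central element. -/
theorem trans_central [Finite W1] (Q : Subgroup W1) [Q.Normal] (lam : Q →* ℂˣ) {a s j : W1}
    (hs : s ∈ Q) (ha : a ∈ Subgroup.center W1) (haj : a = j * s) (hj : j ^ Q.index = 1) :
    ∃ κ : W1 →* ℂˣ, κ a = lam ⟨s, hs⟩ ^ Q.index := by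
  refine ⟨lam.transfer, ?_⟩
  have hc : ∀ (k : ℕ) (g : W1), g⁻¹ * a ^ k * g = a ^ k := by
    intro k g
    have h1 := Subgroup.mem_center_iff.mp (Subgroup.pow_mem _ ha k) g
    rw [mul_assoc, ← h1, inv_mul_cancel_left]
  have h2 := MonoidHom.transfer_eq_pow lam a (fun k g _ => hc k g)
  rw [h2, ← map_pow]
  congr 1
  apply Subtype.ext
  change a ^ Q.index = s ^ Q.index
  have h3 : Commute j s := by
    have h4 := Subgroup.mem_center_iff.mp ha j
    have h5 : j * (j * s) = (j * s) * j := by rw [← haj]; exact h4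
    rw [mul_assoc] at h5
    exact mul_left_cancel h5
  rw [haj, h3.mul_pow, hj, one_mul]

end STO

open STO in
theorem STO_thm (h1 : Stmt_PST) : Stmt_STO := by
  intro W H W1 H1 Ω _ _ _ _ _ _ _ _ _ _ ℓ _ π hπ P hP π1 hπ1 hc1 P1 hP1 ψ htr hco hker hk a hIn
  obtain ⟨x, y, e, hgen, he, hae⟩ := hIn
  obtain ⟨Q, hQn, hQp, hQi, hQle⟩ := exists_Q ℓ π1 hπ1 hc1 P1 hP1
  have hPn := hP.nrm
  -- the complement
  have hcop : (Nat.card Q).Coprime Q.index := by
    obtain ⟨n, hn⟩ := IsPGroup.iff_card.mp hQp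
    rw [hn]
    exact ((Nat.Prime.coprime_iff_not_dvd (Fact.out : ℓ.Prime)).mpr hQi).pow_left n
  obtain ⟨J, hJ⟩ := Subgroup.exists_right_complement'_of_coprime hcop
  let pr : W1 →* W1 ⧸ Q := QuotientGroup.mk' Q
  have hprs : Function.Surjective pr := QuotientGroup.mk'_surjective Q
  have hprk : ∀ g, pr g = 1 ↔ g ∈ Q := fun g => QuotientGroup.eq_one_iff g
  have hB : ¬ ℓ ∣ Nat.card (W1 ⧸ Q) := hQi
  obtain ⟨o0⟩ : Nonempty Ω := inferInstance
  -- the product of the coordinates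
  let instK : CommGroup π1.ker :=
    { (inferInstance : Group π1.ker) with
      mul_comm := fun x y => Subtype.ext (Subgroup.mem_center_iff.mp (hc1 y.2) x) }
  let a1 : π1.ker := ∏ o, (⟨(ψ (a : W)).left o, hk _ a.2 o⟩ : π1.ker)
  have ha1 : ∀ χ : π1.ker →* ℂˣ, χ a1 = ∏ o, χ ⟨(ψ (a : W)).left o, hk _ a.2 o⟩ := by
    intro χ
    exact map_prod χ _ _
  -- passage to the quotient
  let C0 : Subgroup (W1 ⧸ Q) := π1.ker.map pr
  have hC0 : C0 ≤ Subgroup.center (W1 ⧸ Q) := by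
    rintro _ ⟨t, ht, rfl⟩
    rw [Subgroup.mem_center_iff]
    intro g
    obtain ⟨g', rfl⟩ := hprs g
    rw [← map_mul, ← map_mul, Subgroup.mem_center_iff.mp (hc1 ht) g']
  have hPpow : ∀ w ∈ P.comap π, ∃ k : ℕ, w ^ ℓ ^ k ∈ π.ker := by
    intro w hw
    obtain ⟨k, hk'⟩ := hP.pgr ⟨π w, hw⟩
    refine ⟨k, ?_⟩
    rw [MonoidHom.mem_ker, map_pow]
    exact congrArg Subtype.val hk'
  have haw : x * y * x⁻¹ * y⁻¹ * e ∈ π.ker := hae ▸ a.2
  have hT : ∀ t ∈ π.ker, ∀ o, (((gmap Ω pr).comp ψ) t).left o ∈ C0 := by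
    intro t ht o
    exact ⟨_, hk t ht o, rfl⟩
  obtain ⟨U, V, ⟨hUV, hUVχ⟩, hgB⟩ := h1 W (W1 ⧸ Q) Ω ℓ hB ((gmap Ω pr).comp ψ) π.ker
    (P.comap π) inferInstance inferInstance
    (fun t ht => by
      rw [Subgroup.mem_comap, MonoidHom.mem_ker.mp ht]; exact P.one_mem)
    hPpow C0 hC0 (fun t ht => hker t ht) hT htr x y e hgen he haw o0
  -- the image of `a1` is the commutator of `U` and `V`
  have hprC : pr (a1 : W1) ∈ C0 := ⟨_, a1.2, rfl⟩
  have hpra : pr (a1 : W1) = U * V * U⁻¹ * V⁻¹ := by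
    have key : (⟨pr (a1 : W1), hprC⟩ : C0) = ⟨U * V * U⁻¹ * V⁻¹, hUV⟩ := by
      apply sep C0 hC0
      intro χ
      rw [hUVχ χ]
      let χ' : π1.ker →* ℂˣ := χ.comp ((pr.comp π1.ker.subtype).codRestrict C0
        (fun t => ⟨_, t.2, rfl⟩))
      have h2 := ha1 χ'
      have h3 : χ' a1 = χ ⟨pr (a1 : W1), hprC⟩ := rfl
      rw [← h3, h2]
      apply Finset.prod_congr rfl
      intro o _
      change χ ⟨_, _⟩ = χ ⟨_, _⟩
      congr 1
      apply Subtype.ext
      change pr ((ψ (a : W)).left o) = pr ((ψ (x * y * x⁻¹ * y⁻¹ * e)).left o)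
      rw [hae]
    exact congrArg Subtype.val key
  -- lifts in the complement
  have hlift : ∀ b : W1 ⧸ Q, ∃ z ∈ J, pr z = b := by
    intro b
    obtain ⟨g, rfl⟩ := hprs b
    obtain ⟨⟨q, j⟩, hqj⟩ := hJ.2 g
    refine ⟨j, j.2, ?_⟩
    have : pr g = pr (q : W1) * pr (j : W1) := by rw [← map_mul]; exact congrArg pr hqj.symm
    rw [this, (hprk _).mpr q.2, one_mul]
  obtain ⟨x1, hx1, hx1U⟩ := hlift U
  obtain ⟨y1, hy1, hy1V⟩ := hlift V
  -- the decomposition of `a1`
  set j : W1 := x1 * y1 * x1⁻¹ * y1⁻¹ with hj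
  have hjJ : j ∈ J := J.mul_mem (J.mul_mem (J.mul_mem hx1 hy1) (J.inv_mem hx1)) (J.inv_mem hy1)
  set s : W1 := j⁻¹ * (a1 : W1) with hs
  have hprj : pr j = U * V * U⁻¹ * V⁻¹ := by
    rw [hj, map_mul, map_mul, map_mul, map_inv, map_inv, hx1U, hy1V]
  have hsQ : s ∈ Q := by
    rw [← hprk, hs, map_mul, map_inv, hprj, hpra, inv_mul_cancel]
  have haj : (a1 : W1) = j * s := by rw [hs, mul_inv_cancel_left]
  have hcard : Nat.card J = Q.index := by
    have e1 := hJ.card_mul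
    have e2 := Q.card_mul_index
    have e3 : 0 < Nat.card Q := Nat.card_pos
    exact Nat.eq_of_mul_eq_mul_left e3 (e1.trans e2.symm)
  have hjn : j ^ Q.index = 1 := by
    rw [← hcard]
    have := pow_card_eq_one' (x := (⟨j, hjJ⟩ : J))
    exact congrArg Subtype.val this
  refine ⟨a1, ⟨x1, y1, s, ?_, ?_, haj⟩, ha1⟩
  · -- generation
    rw [eq_top_iff]
    intro b _
    obtain ⟨w, hw1, hw2⟩ := hco o0 b
    have h2 := hgB w hw1
    have h3 : (((gmap Ω pr).comp ψ) w).left o0 = pr b := congrArg pr hw2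
    rw [h3] at h2
    have h4 : Subgroup.closure {U, V} ⊔ C0 = (Subgroup.closure {x1, y1} ⊔ π1.ker).map pr := by
      rw [Subgroup.map_sup, MonoidHom.map_closure, Set.image_pair, hx1U, hy1V]
    rw [h4] at h2
    obtain ⟨b', hb', hb''⟩ := h2
    have h5 : b'⁻¹ * b ∈ Q := by
      rw [← hprk, map_mul, map_inv, hb'', inv_mul_cancel]
    have h6 : b = b' * (b'⁻¹ * b) := by rw [mul_inv_cancel_left]
    rw [h6]
    apply Subgroup.mul_mem
    · refine (sup_le_sup_left ?_ (Subgroup.closure {x1, y1})) hb'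
      intro t ht
      rw [Subgroup.mem_comap, MonoidHom.mem_ker.mp ht]
      exact P1.one_mem
    · exact (le_sup_right : P1.comap π1 ≤ _) (hQle h5)
  · -- the `ℓ`-part is a product of commutators
    have hQQ : ⁅Q, Q⁆ ≤ ⁅P1.comap π1, P1.comap π1⁆ := Subgroup.commutator_mono hQle hQle
    apply hQQ
    by_contra hns
    have hns' : (⟨s, hsQ⟩ : Q) ∉ commutator Q := by
      intro h0
      apply hns
      have h2 : (commutator Q).map Q.subtype = ⁅Q, Q⁆ := by
        rw [commutator_def, Subgroup.map_commutator, ← MonoidHom.range_eq_map, Subgroup.range_subtype]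
      rw [← h2]
      exact ⟨_, h0, rfl⟩
    have hab : (Abelianization.of (⟨s, hsQ⟩ : Q)) ≠ 1 := by
      intro h0
      exact hns' ((QuotientGroup.eq_one_iff _).mp h0)
    have : Finite (Abelianization Q) := inferInstanceAs (Finite (Q ⧸ commutator Q))
    obtain ⟨χ, hχ⟩ := CommGroup.exists_apply_ne_one_of_hasEnoughRootsOfUnity (Abelianization Q) ℂ hab
    let lam : Q →* ℂˣ := χ.comp Abelianization.of
    have hlam : lam ⟨s, hsQ⟩ ≠ 1 := hχ
    obtain ⟨κ, hκ⟩ := trans_central Q lam hsQ (hc1 a1.2) haj hjn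
    have h2 : ph ψ κ (a : W) = 1 := by
      rw [hae]
      exact hom_comm (ph ψ κ) (P.comap π) he
    have h3 : ph ψ κ (a : W) = κ (a1 : W1) := (ha1 (κ.comp π1.ker.subtype)).symm
    rw [h3, hκ] at h2
    obtain ⟨k, hk'⟩ := hQp ⟨s, hsQ⟩
    have h4 : lam ⟨s, hsQ⟩ ^ ℓ ^ k = 1 := by rw [← map_pow, hk', map_one]
    have h5 : (ℓ ^ k).Coprime Q.index :=
      ((Nat.Prime.coprime_iff_not_dvd (Fact.out : ℓ.Prime)).mpr hQi).pow_left k
    apply hlam
    rw [← orderOf_eq_one_iff]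
    exact Nat.eq_one_of_dvd_coprimes h5 (orderOf_dvd_of_pow_eq_one h4)
      (orderOf_dvd_of_pow_eq_one h2)

end Pool.Agent.DPG
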