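import Mathlib
import Pool.Agent.DPG.StmtsB
import Pool.Agent.DPG.RIU
import Pool.Agent.DP.IRRPI

/-!
# SUL: the support of the characters of the coordinates
-/

set_option autoImplicit false

namespace Pool.Agent.DPG

open Pool.Agent.DP Pool.Agent.DPC Pool.Agent.DPM Pool.Agent.DPN Pool.Agent.DPF
  Pool.Agent.DPK Pool.Agent.Lib_helper13 Representation

namespace SUL

/-! ### Scalars of sums which are invariant under a subgroup -/

theorem schurA {G : Type} [Group G] [Fintype G] (A T : Subgroup G) (hAT : A ≤ T) (f : G → ℂ)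
    (hT : IsIrr (fun t : T => f t)) (hf : ∀ x, x ∉ T → f x = 0)
    (hA : IsIrr (fun a : A => f a)) (w : G → ℂ) (hw : ∀ a ∈ A, ∀ x, w (a * x * a⁻¹) = w x)
    (g : G) (hg : g ∈ T) :
    ∑ t, w t * f (t * g) = ((∑ t, w t * f t) / f 1) * f g := by
  classical
  obtain ⟨n, R, hR, hRf⟩ := hT
  obtain ⟨n', R', hR', hRf'⟩ := hA
  let j : A →* T := Subgroup.inclusion hAT
  let σ : Representation ℂ A (Fin n → ℂ) := R.comp j
  have hσc : σ.character = R'.character := by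
    rw [hRf']
    funext h
    have h1 : σ.character h = R.character (j h) := rfl
    rw [h1, hRf]
    rfl
  have hσ : σ.IsIrreducible := by
    apply irreducible_of_sum
    rw [hσc]
    exact sum_char_self R'
  let Op : (Fin n → ℂ) →ₗ[ℂ] (Fin n → ℂ) :=
    ∑ s : T, w s • (R s : (Fin n → ℂ) →ₗ[ℂ] (Fin n → ℂ))
  have hOp : ∀ x, Op x = ∑ s : T, w s • R s x := by
    intro x
    simp [Op, LinearMap.sum_apply]
  have hcomm : ∀ g x, Op (σ g x) = σ g (Op x) := by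
    intro g x
    rw [hOp, hOp, map_sum]
    have h1 : ∀ s : T, σ g (w s • R s x) = w s • R (j g * s) x := by
      intro s
      rw [map_smul, map_mul]
      rfl
    have h2 : ∀ s : T, w s • R s (σ g x) = w s • R (s * j g) x := by
      intro s
      rw [map_mul]
      rfl
    simp only [h1, h2]
    rw [← Equiv.sum_comp (MulAut.conj (j g)).toEquiv]
    refine Finset.sum_congr rfl fun s _ => ?_
    have h3 : ((MulAut.conj (j g)).toEquiv s : T) = j g * s * (j g)⁻¹ := rfl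
    rw [h3]
    have h4 : w ((j g * s * (j g)⁻¹ : T) : G) = w s := hw (g : G) g.2 (s : G)
    rw [h4, inv_mul_cancel_right]
  obtain ⟨c, hc⟩ := exists_scalar σ hσ Op hcomm
  have key : ∀ g : T, ∑ t, w t * f (t * g) = c * f g := by
    intro g
    have h1 : ∑ t, w t * f (t * g) = ∑ s : T, w s * f (s * g) :=
      RIU.sum_sub T (f := fun t => w t * f (t * g)) (fun x hx => by
        rw [hf _ (fun h => hx (by
          have := T.mul_mem h (T.inv_mem g.2)
          rwa [mul_inv_cancel_right] at this)), mul_zero])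
    rw [h1]
    have h2 : (Op * R g : (Fin n → ℂ) →ₗ[ℂ] (Fin n → ℂ)) = c • R g := by
      rw [hc]
      ext x
      simp
    have h3 : (Op * R g : (Fin n → ℂ) →ₗ[ℂ] (Fin n → ℂ)) = ∑ s : T, w s • R (s * g) := by
      simp only [Op]
      rw [Finset.sum_mul]
      refine Finset.sum_congr rfl fun s _ => ?_
      rw [smul_mul_assoc, map_mul]
    rw [h3] at h2
    have h4 := congrArg (LinearMap.trace ℂ (Fin n → ℂ)) h2
    rw [map_sum, map_smul, smul_eq_mul] at h4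
    have h5 : LinearMap.trace ℂ (Fin n → ℂ) (R g) = f g := congrFun hRf g
    have h6 : ∀ s : T, LinearMap.trace ℂ (Fin n → ℂ) (w s • R (s * g)) = w s * f (s * g) := by
      intro s
      rw [map_smul, smul_eq_mul]
      congr 1
      exact congrFun hRf (s * g)
    rw [h5] at h4
    rw [← h4]
    exact Finset.sum_congr rfl fun s _ => (h6 s).symm
  have hf1 : f 1 ≠ 0 := by
    have h1 : IsIrr (fun t : T => f t) := ⟨n, R, hR, hRf⟩
    exact h1.one_ne_zero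
  have h1 := key 1
  simp only [Subgroup.coe_one, mul_one] at h1
  rw [h1, mul_div_cancel_right₀ _ hf1]
  exact key ⟨g, hg⟩

/-! ### Functions on a coset -/

section Lf

variable {G H : Type} [Group G] [Group H] [Fintype H]

open Classical in
/-- The function on the coset of `y` which belongs to `w`. -/
noncomputable def lf (ι : H →* G) (y : G) (w : H → ℤ) (x : G) : ℤ :=
  ∑ n, if x = y * ι n then w n else 0

theorem lf_conj (ι : H →* G) (y : G) (w : H → ℤ) (b c : H) (hb : ι b = y⁻¹ * ι c * y)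
    (hw : ∀ n, w (b * n * c⁻¹) = w n) (x : G) :
    lf ι y w (ι c * x * (ι c)⁻¹) = lf ι y w x := by
  classical
  unfold lf
  rw [← Equiv.sum_comp ((Equiv.mulLeft b).trans (Equiv.mulRight c⁻¹))]
  refine Finset.sum_congr rfl fun n _ => ?_
  have h1 : ((Equiv.mulLeft b).trans (Equiv.mulRight c⁻¹)) n = b * n * c⁻¹ := rfl
  rw [h1, hw, map_mul, map_mul, map_inv, hb]
  have h2 : y * (y⁻¹ * ι c * y * ι n * (ι c)⁻¹) = ι c * (y * ι n) * (ι c)⁻¹ := by group
  rw [h2]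
  have h3 : (ι c * x * (ι c)⁻¹ = ι c * (y * ι n) * (ι c)⁻¹) ↔ x = y * ι n := by
    constructor
    · intro h
      exact mul_left_cancel (mul_right_cancel h)
    · intro h
      rw [h]
  simp only [h3]

theorem lf_sum [Fintype G] (ι : H →* G) (y : G) (w : H → ℤ) (F : G → ℂ) :
    ∑ x, ((lf ι y w x : ℤ) : ℂ) * F x = ∑ n, ((w n : ℤ) : ℂ) * F (y * ι n) := by
  classical
  unfold lf
  simp only [Int.cast_sum, Finset.sum_mul]
  rw [Finset.sum_comm]
  refine Finset.sum_congr rfl fun n _ => ?_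
  rw [Finset.sum_eq_single (y * ι n)]
  · rw [if_pos rfl]
  · intro x _ hx
    rw [if_neg hx, Int.cast_zero, zero_mul]
  · intro h
    exact absurd (Finset.mem_univ _) h

theorem lf_ne {ι : H →* G} {y : G} {w : H → ℤ} {x : G} (h : ∀ n, x ≠ y * ι n) :
    lf ι y w x = 0 := by
  classical
  unfold lf
  exact Finset.sum_eq_zero fun n _ => if_neg (h n)

/-- The sum over a coset. -/
theorem cos_sum [Fintype G] (ε : H →* G) (l : G) (E : G → ℂ)
    (hE : ∀ y, l⁻¹ * y ∉ ε.range → E y = 0) :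
    ∑ n, E (l * ε n) = (Nat.card ε.ker : ℂ) * ∑ y, E y := by
  classical
  rw [Finset.mul_sum, ← Finset.sum_fiberwise' Finset.univ (fun n => l * ε n) E]
  refine Finset.sum_congr rfl fun y _ => ?_
  by_cases hy : l⁻¹ * y ∈ ε.range
  · obtain ⟨n0, hn0⟩ := hy
    rw [Finset.sum_const, nsmul_eq_mul]
    congr 2
    have h1 : (Finset.univ.filter (fun i => l * ε i = y)).card =
        Nat.card {i // l * ε i = y} := by
      rw [Nat.card_eq_fintype_card, Fintype.card_subtype]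
    rw [h1]
    refine Nat.card_congr
      { toFun := fun i => ⟨n0⁻¹ * i.1, ?_⟩
        invFun := fun k => ⟨n0 * k.1, ?_⟩
        left_inv := fun i => Subtype.ext (mul_inv_cancel_left _ _)
        right_inv := fun k => Subtype.ext (inv_mul_cancel_left _ _) }
    · have h2 : ε i.1 = l⁻¹ * y := eq_inv_mul_of_mul_eq i.2
      rw [MonoidHom.mem_ker, map_mul, map_inv, hn0, h2, inv_mul_cancel]
    · have h2 : ε k.1 = 1 := k.2
      rw [map_mul, h2, hn0, mul_one, mul_inv_cancel_left]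
  · rw [hE y hy]
    simp

end Lf

/-! ### Twists -/

section Tw

variable {L K K1 Q L1 Ω : Type} [Group L] [Group K] [Group K1] [Group Q] [Group L1]
  [Fintype Ω] {π : L →* K} {μ : π.ker →* ℂˣ} {φ : K →* Gam (Equiv.Perm Ω) Ω K1} {q : Q →* K1}
  {α : K1 →* MulAut Q} {ε : (Ω → Q) →* L} {μQ : q.ker →* ℂˣ} {π1 : L1 →* K1}
  {μ1 : π1.ker →* ℂˣ} {ι : Q →* L1}

/-- Elements with the same image act in the same way. -/
theorem cj_eq (hc : π1.ker ≤ Subgroup.center L1) {a b : L1} (h : π1 a = π1 b) (x : L1) :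
    a * x * a⁻¹ = b * x * b⁻¹ := by
  have h1 : b⁻¹ * a ∈ π1.ker := by
    rw [MonoidHom.mem_ker, map_mul, map_inv, h, inv_mul_cancel]
  have h2 : b⁻¹ * a * x = x * (b⁻¹ * a) := (Subgroup.mem_center_iff.mp (hc h1) x).symm
  calc a * x * a⁻¹ = b * (b⁻¹ * a * x) * a⁻¹ := by group
    _ = b * x * b⁻¹ := by
      rw [h2]
      group

theorem iota_tw (ld : LD q α μQ π1 μ1 ι) (y : L1) (c : Q) :
    ι (α (π1 y)⁻¹ c) = y⁻¹ * ι c * y := by
  have h := ld.ια y⁻¹ c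
  rw [map_inv, inv_inv] at h
  exact h

theorem eps_tw (wd : WD π μ φ q α ε μQ) {l : L} (hr : (φ (π l)).right = 1) {y : Ω → L1}
    (hy : ∀ o, π1 (y o) = (φ (π l)).left o) (c : Ω → Q) :
    ε (fun o => α (π1 (y o))⁻¹ (c o)) = l⁻¹ * ε c * l := by
  have h1 := wd.cj l (fun o => α (π1 (y o))⁻¹ (c o))
  have h2 : wB α Ω (φ (π l)) (fun o => α (π1 (y o))⁻¹ (c o)) = c := by
    funext o
    rw [wB_apply, hr, inv_one, one_smul, ← hy o, ← MulAut.mul_apply, ← map_mul,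
      mul_inv_cancel, map_one, MulAut.one_apply]
  rw [h2] at h1
  rw [h1]
  group

theorem u_tw (wd : WD π μ φ q α ε μQ) {l : L} (hr : (φ (π l)).right = 1) {y : Ω → L1}
    (hy : ∀ o, π1 (y o) = (φ (π l)).left o) {u : L → ℤ} (hu : CIv ((NN' π ε).comap π) u)
    (c n : Ω → Q) :
    u (l * ε (fun o => α (π1 (y o))⁻¹ (c o) * n o * (c o)⁻¹)) = u (l * ε n) := by
  have h1 : (fun o => α (π1 (y o))⁻¹ (c o) * n o * (c o)⁻¹) =
    (fun o => α (π1 (y o))⁻¹ (c o)) * n * c⁻¹ := rfl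
  rw [h1, map_mul, map_mul, map_inv, eps_tw wd hr hy c]
  have h2 : l * (l⁻¹ * ε c * l * ε n * (ε c)⁻¹) = ε c * (l * ε n) * (ε c)⁻¹ := by group
  rw [h2]
  exact hu _ (Subgroup.mem_map_of_mem π ⟨c, rfl⟩) _

theorem eps_ker (wd : WD π μ φ q α ε μQ) (z : Ω → q.ker) :
    ε (fun o => (z o : Q)) = 1 ↔ ∏ o, μQ (z o) = 1 := by
  have h1 : π (ε (fun o => (z o : Q))) = 1 := by
    apply wd.φi
    rw [wd.φε, map_one]
    have h2 : (fun o => q (z o : Q)) = 1 := by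
      funext o
      exact (z o).2
    rw [h2]
    exact map_one _
  have h3 : μ ⟨ε (fun o => (z o : Q)), h1⟩ = ∏ o, μQ (z o) := wd.με _ (fun o => (z o).2) h1
  rw [← h3]
  constructor
  · intro h
    have h4 : (⟨ε (fun o => (z o : Q)), h1⟩ : π.ker) = 1 := Subtype.ext h
    rw [h4, map_one]
  · intro h
    have h4 : (⟨ε (fun o => (z o : Q)), h1⟩ : π.ker) = 1 := wd.μi (by rw [h, map_one])
    exact congrArg Subtype.val h4

theorem ker_q (wd : WD π μ φ q α ε μQ) {n : Ω → Q} (hn : ε n = 1) (o : Ω) : n o ∈ q.ker := by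
  have h1 := wd.φε n
  rw [hn, map_one, map_one] at h1
  have h2 := congrFun (congrArg SemidirectProduct.left h1) o
  exact h2.symm

theorem card_ker (wd : WD π μ φ q α ε μQ) :
    Nat.card {z : Ω → q.ker // ∏ o, μQ (z o) = 1} = Nat.card ε.ker := by
  refine Nat.card_congr
    { toFun := fun z => ⟨fun o => (z.1 o : Q), (eps_ker wd z.1).mpr z.2⟩
      invFun := fun n => ⟨fun o => ⟨n.1 o, ker_q wd n.2 o⟩, (eps_ker wd _).mp n.2⟩
      left_inv := fun z => rfl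
      right_inv := fun n => rfl }

/-- The function on the coset of `y` is invariant. -/
theorem lf_civ [Fintype Q] (ld : LD q α μQ π1 μ1 ι) (y : L1) (w : Q → ℤ)
    (hw : ∀ a n, w (α (π1 y)⁻¹ a * n * a⁻¹) = w n) : CIv (q.range.comap π1) (lf ι y w) := by
  intro s hs x
  obtain ⟨c, hc⟩ := hs
  have h1 : π1 s = π1 (ι c) := by rw [ld.πι, hc]
  rw [cj_eq ld.c h1]
  exact lf_conj ι y w (α (π1 y)⁻¹ c) c (iota_tw ld y c) (fun n => hw c n) x

theorem lf_son [Fintype Q] (ld : LD q α μQ π1 μ1 ι) (y : L1) (w : Q → ℤ) :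
    SOn {t | π1 (y⁻¹ * t) ∈ q.range} (lf ι y w) := by
  intro x hx
  apply lf_ne
  intro n hn
  apply hx
  refine ⟨n, ?_⟩
  rw [hn, inv_mul_cancel_left, ld.πι]

theorem lf_val [Fintype Q] [Fintype L1] (y : L1) (w : Q → ℤ) (F : L1 → ℂ) :
    (∑ n, ((w n : ℤ) : ℂ) * (F (y * ι n) / F 1)) =
      (∑ x, ((lf ι y w x : ℤ) : ℂ) * F x) / F 1 := by
  rw [lf_sum, Finset.sum_div]
  refine Finset.sum_congr rfl fun n _ => ?_
  rw [mul_div_assoc]

theorem Phi_z (ld : LD q α μQ π1 μ1 ι) {F : L1 → ℂ} (hov : Ov π1 μ1 F) (y : L1) (z : q.ker)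
    (n : Q) : F (y * ι (z * n)) = ((μQ z : ℂˣ) : ℂ) * F (y * ι n) := by
  have h1 : ι (z : Q) ∈ π1.ker := by
    rw [MonoidHom.mem_ker, ld.πι]
    exact z.2
  have h2 : y * ι (z : Q) = ι (z : Q) * y := Subgroup.mem_center_iff.mp (ld.c h1) y
  rw [map_mul, ← mul_assoc, h2, mul_assoc, ← ld.μι z h1]
  exact hov ⟨ι (z : Q), h1⟩ _

theorem lam [Fintype Q] [Fintype L1] (h2 : Stmt_PRC) {𝔐 : Ideal (integralClosure ℤ ℂ)} {ℓ : ℕ}
    [Fact ℓ.Prime] (hmax : 𝔐.IsMaximal) (hℓ : (ℓ : integralClosure ℤ ℂ) ∈ 𝔐)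
    (wd : WD π μ φ q α ε μQ) (ld : LD q α μQ π1 μ1 ι) {M1 S : Subgroup K1}
    (hqM : q.range ≤ M1) (hqn : q.range.Normal) {F : L1 → ℂ} (hF : EF π1 q.range M1 S F)
    (hov : Ov π1 μ1 F) {l : L} (hr : (φ (π l)).right = 1) {y : Ω → L1}
    (hy : ∀ o, π1 (y o) = (φ (π l)).left o) (hyM : ∀ o, π1 (y o) ∈ M1) {u : L → ℤ}
    (hu : CIv ((NN' π ε).comap π) u) :
    IsIntegral ℤ (psm ε ι F u (l, gin y)) ∧ ∀ o0, (∀ U : L1 → ℤ, CIv (q.range.comap π1) U →
      SOn {t | π1 ((y o0)⁻¹ * t) ∈ q.range} U → sc 𝔐 F U = 0) →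
      red 𝔐 (psm ε ι F u (l, gin y)) = 0 := by
  classical
  have hcard := card_ker wd
  -- the functions
  have hQ : q.ker ≤ Subgroup.center Q := by
    intro x hx
    rw [Subgroup.mem_center_iff]
    intro a
    have h3 := wd.qα x a
    rw [MonoidHom.mem_ker.mp hx, map_one, MulAut.one_apply] at h3
    exact (eq_mul_inv_iff_mul_eq.mp h3)
  have hβ : ∀ o, ∀ z ∈ q.ker, (α (π1 (y o))⁻¹) z = z := fun o z hz => wd.αz _ z hz
  have hΦ : ∀ o (z : q.ker) n, F (y o * ι (z * n)) / F 1 =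
      ((μQ z : ℂˣ) : ℂ) * (F (y o * ι n) / F 1) := by
    intro o z n
    rw [Phi_z ld hov, mul_div_assoc]
  have hint : ∀ o (w : Q → ℤ), (∀ a n, w (α (π1 (y o))⁻¹ a * n * a⁻¹) = w n) →
      IsIntegral ℤ (∑ n, ((w n : ℤ) : ℂ) * (F (y o * ι n) / F 1)) := by
    intro o w hw
    rw [lf_val]
    exact RIU.lam_int ld.s hqM hF (lf_civ ld (y o) w hw) (hyM o) (lf_son ld (y o) w)
  have hval : ∀ (u : L → ℤ), (∑ n : Ω → Q, ((u (l * ε n) : ℤ) : ℂ) *
      ∏ o, (F (y o * ι (n o)) / F 1)) / Nat.card {z : Ω → q.ker // ∏ o, μQ (z o) = 1} =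
      psm ε ι F u (l, gin y) := by
    intro u
    rw [hcard]
    unfold psm
    have h3 : ∀ n : Ω → Q, ∏ o, (F (y o * ι (n o)) / F 1) =
        (∏ o, F (y o * ι (n o))) / F 1 ^ Fintype.card Ω := by
      intro n
      rw [Finset.prod_div_distrib, Finset.prod_const, Finset.card_univ]
    simp only [h3]
    have h4 : ∀ n : Ω → Q, ((u (l * ε n) : ℤ) : ℂ) *
        ((∏ o, F (y o * ι (n o))) / F 1 ^ Fintype.card Ω) =
        (((u (l * ε n) : ℤ) : ℂ) * ∏ o, F (y o * ι (n o))) / F 1 ^ Fintype.card Ω := by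
      intro n
      rw [mul_div_assoc]
    simp only [h4]
    rw [← Finset.sum_div, div_div, mul_comm (F 1 ^ Fintype.card Ω)]
    rfl
  constructor
  · rw [← hval]
    exact (h2 Q Ω 𝔐 ℓ hmax hℓ q.ker μQ hQ wd.μQi (fun o => α (π1 (y o))⁻¹) hβ
      (fun o n => F (y o * ι n) / F 1) (fun o n => F (y o * ι n) / F 1) hΦ hΦ
      (fun o w hw => ⟨hint o w hw, hint o w hw, rfl⟩) (fun n => u (l * ε n))
      (fun c n => u_tw wd hr hy hu c n) (fun z n hz => by
        have h3 : (fun o => (z o : Q) * n o) = (fun o => (z o : Q)) * n := rfl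
        show u (l * ε (fun o => (z o : Q) * n o)) = u (l * ε n)
        rw [h3, map_mul, (eps_ker wd z).mpr hz, one_mul])).1
  · intro o0 h0
    rw [← hval]
    have h5 := (h2 Q Ω 𝔐 ℓ hmax hℓ q.ker μQ hQ wd.μQi (fun o => α (π1 (y o))⁻¹) hβ
      (fun o n => F (y o * ι n) / F 1)
      (fun o n => if o = o0 then 0 else F (y o * ι n) / F 1) hΦ
      (fun o z n => by
        by_cases ho : o = o0
        · simp [ho]
        · simp only [ho, if_false]
          exact hΦ o z n)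
      (fun o w hw => by
        by_cases ho : o = o0
        · subst ho
          simp only [if_true, mul_zero, Finset.sum_const_zero]
          refine ⟨hint o w hw, isIntegral_zero, ?_⟩
          rw [red_zero, lf_val]
          exact h0 _ (lf_civ ld (y o) w hw) (lf_son ld (y o) w)
        · simp only [ho, if_false]
          exact ⟨hint o w hw, hint o w hw, trivial⟩) (fun n => u (l * ε n))
      (fun c n => u_tw wd hr hy hu c n) (fun z n hz => by
        have h3 : (fun o => (z o : Q) * n o) = (fun o => (z o : Q)) * n := rfl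
        show u (l * ε (fun o => (z o : Q) * n o)) = u (l * ε n)
        rw [h3, map_mul, (eps_ker wd z).mpr hz, one_mul])).2
    rw [h5]
    have h6 : ∀ n : Ω → Q, (∏ o, (fun o n => if o = o0 then (0 : ℂ) else
        F (y o * ι n) / F 1) o (n o)) = 0 := by
      intro n
      apply Finset.prod_eq_zero (Finset.mem_univ o0)
      simp
    simp only [h6, mul_zero, Finset.sum_const_zero, zero_div]
    exact red_zero 𝔐

theorem mem_eps (wd : WD π μ φ q α ε μQ) {x : L} : π x ∈ NN' π ε ↔ x ∈ ε.range := by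
  constructor
  · rintro ⟨t, ht, htx⟩
    have h1 : t⁻¹ * x ∈ π.ker := by
      rw [MonoidHom.mem_ker, map_mul, map_inv, htx, inv_mul_cancel]
    have h2 := ε.range.mul_mem ht (wd.kr h1)
    rwa [mul_inv_cancel_left] at h2
  · intro h
    exact Subgroup.mem_map_of_mem π h

theorem left_mul (wd : WD π μ φ q α ε μQ) {l : L} (hr : (φ (π l)).right = 1) (n : Ω → Q)
    (o : Ω) : (φ (π (l * ε n))).left o = (φ (π l)).left o * q (n o) := by
  rw [map_mul, map_mul, wd.φε]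
  change (φ (π l)).left o * q (n ((φ (π l)).right⁻¹ • o)) = _
  rw [hr, inv_one, one_smul]

omit [Fintype Ω] in
theorem left_inv' {k : K} (hr : (φ k).right = 1) (o : Ω) :
    (φ k⁻¹).left o = ((φ k).left o)⁻¹ := by
  rw [map_inv]
  change ((φ k).left ((φ k).right⁻¹⁻¹ • o))⁻¹ = _
  rw [hr, inv_one, inv_one, one_smul]

/-- The product over the coordinates. -/
noncomputable def Ft (Ω : Type) [Fintype Ω] (F : L1 → ℂ) (x : Ω → L1) : ℂ := ∏ o, F (x o)

theorem f_val (wd : WD π μ φ q α ε μQ) (ld : LD q α μQ π1 μ1 ι) {F : L1 → ℂ} {f : L → ℂ}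
    (hfε : ∀ n : Ω → Q, f (ε n) = ∏ o, F (ι (n o))) {l : L} (hr : (φ (π l)).right = 1)
    {y : Ω → L1} (hy : ∀ o, π1 (y o) = (φ (π l)).left o) (n n' : Ω → Q) :
    f (l * ε n * (l⁻¹ * ε n')) = Ft Ω F (y * ι.compLeft Ω n * (y⁻¹ * ι.compLeft Ω n')) := by
  have h1 : l * ε n * (l⁻¹ * ε n') = ε (wB α Ω (φ (π l)) n * n') := by
    rw [map_mul, wd.cj]
    group
  rw [h1, hfε]
  unfold Ft
  refine Finset.prod_congr rfl fun o _ => ?_
  congr 1
  have h2 : (wB α Ω (φ (π l)) n * n') o = α (π1 (y o)) (n o) * n' o := by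
    rw [Pi.mul_apply, wB_apply, hr, inv_one, one_smul, hy]
  rw [h2, map_mul, ld.ια]
  change y o * ι (n o) * (y o)⁻¹ * ι (n' o) = y o * ι (n o) * ((y o)⁻¹ * ι (n' o))
  group

theorem mem_iff (wd : WD π μ φ q α ε μQ) (ld : LD q α μQ π1 μ1 ι) {M1 S : Subgroup K1}
    (hqM : q.range ≤ M1) {T : Subgroup K} (hT : ∀ k, k ∈ T ↔ ∀ o, (φ k).left o ∈ S) {l : L}
    (hr : (φ (π l)).right = 1) {y : Ω → L1} (hy : ∀ o, π1 (y o) = (φ (π l)).left o)
    (hyM : ∀ o, π1 (y o) ∈ M1) (n : Ω → Q) :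
    π (l * ε n) ∈ T ↔ y * ι.compLeft Ω n ∈ pK (fun _ : Ω => AL π1 M1 S) := by
  rw [hT, mem_pK]
  refine forall_congr' fun o => ?_
  rw [left_mul wd hr]
  have h1 : π1 ((y * ι.compLeft Ω n) o) = (φ (π l)).left o * q (n o) := by
    change π1 (y o * ι (n o)) = _
    rw [map_mul, hy, ld.πι]
  rw [← h1]
  constructor
  · intro h
    refine ⟨?_, h⟩
    change π1 (y o * ι (n o)) ∈ M1
    rw [map_mul, ld.πι]
    exact M1.mul_mem (hyM o) (hqM ⟨_, rfl⟩)
  · intro h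
    exact h.2

theorem Ft_not {T : Ω → Subgroup L1} {F : L1 → ℂ} (hF : ∀ o x, x ∉ T o → F x = 0) {x : Ω → L1}
    (hx : x ∉ pK T) : Ft Ω F x = 0 := by
  rw [mem_pK, not_forall] at hx
  obtain ⟨o, ho⟩ := hx
  exact Finset.prod_eq_zero (Finset.mem_univ o) (hF o _ ho)

open Classical in
theorem schurF [Fintype Q] [Fintype L1] (wd : WD π μ φ q α ε μQ) (ld : LD q α μQ π1 μ1 ι)
    {M1 S : Subgroup K1} (hqM : q.range ≤ M1) {F : L1 → ℂ} (hF : EF π1 q.range M1 S F)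
    {l : L} (hr : (φ (π l)).right = 1) {y : Ω → L1} (hy : ∀ o, π1 (y o) = (φ (π l)).left o)
    {u : L → ℤ} (hu : CIv ((NN' π ε).comap π) u) {g : Ω → L1}
    (hg : g ∈ pK (fun _ : Ω => AL π1 M1 S)) :
    ∑ n : Ω → Q, ((u (l * ε n) : ℤ) : ℂ) * Ft Ω F (y * ι.compLeft Ω n * g) =
      ((∑ n : Ω → Q, ((u (l * ε n) : ℤ) : ℂ) * Ft Ω F (y * ι.compLeft Ω n)) / Ft Ω F 1) *
        Ft Ω F g := by
  classical
  have hle : AL π1 q.range S ≤ AL π1 M1 S := RIU.al_le hqM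
  have h1 := schurA (pK (fun _ : Ω => AL π1 q.range S)) (pK (fun _ : Ω => AL π1 M1 S))
    (fun x hx => mem_pK.mpr fun o => hle (mem_pK.mp hx o)) (Ft Ω F)
    (IRRPI.one_part (fun _ : Ω => AL π1 M1 S) (fun _ => F) (fun _ => hF.irr))
    (fun x hx => Ft_not (fun _ => hF.irr.2) hx)
    ((isIrr_prodFn (fun _ : Ω => hF.res)).comp_mulEquiv
      (pKEquiv (fun _ : Ω => AL π1 q.range S)).symm)
    (fun x => ((lf (ι.compLeft Ω) y (fun n => u (l * ε n)) x : ℤ) : ℂ)) ?_ g hg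
  · rw [lf_sum (F := fun t => Ft Ω F (t * g)), lf_sum] at h1
    exact h1
  · intro a ha x
    rw [mem_pK] at ha
    have h2 : ∀ o, ∃ c, q c = π1 (a o) := fun o => (ha o).1
    choose c hc using h2
    have h3 : a * x * a⁻¹ = ι.compLeft Ω c * x * (ι.compLeft Ω c)⁻¹ := by
      funext o
      apply cj_eq ld.c
      rw [← hc o]
      exact (ld.πι _).symm
    rw [h3, lf_conj (ι.compLeft Ω) y _ (fun o => α (π1 (y o))⁻¹ (c o)) c]
    · funext o
      exact iota_tw ld (y o) (c o)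
    · intro n
      exact u_tw wd hr hy hu c n

open Classical in
theorem cut [Fintype Q] [Fintype L1] (wd : WD π μ φ q α ε μQ) (ld : LD q α μQ π1 μ1 ι)
    {M1 S : Subgroup K1} (hqM : q.range ≤ M1) {F : L1 → ℂ} (hF : EF π1 q.range M1 S F)
    {T : Subgroup K} (hT : ∀ k, k ∈ T ↔ ∀ o, (φ k).left o ∈ S)
    {l : L} (hr : (φ (π l)).right = 1) {y : Ω → L1} (hy : ∀ o, π1 (y o) = (φ (π l)).left o)
    (hyM : ∀ o, π1 (y o) ∈ M1) {u : L → ℤ} (hu : CIv ((NN' π ε).comap π) u) (g : Ω → L1) :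
    (∑ n : Ω → Q, (if π (l * ε n) ∈ T then ((u (l * ε n) : ℤ) : ℂ) else 0) *
      Ft Ω F (y * ι.compLeft Ω n * g)) =
      ((∑ n : Ω → Q, ((u (l * ε n) : ℤ) : ℂ) * Ft Ω F (y * ι.compLeft Ω n)) / Ft Ω F 1) *
        Ft Ω F g := by
  classical
  have h0 : ∀ x : Ω → L1, x ∉ pK (fun _ : Ω => AL π1 M1 S) → Ft Ω F x = 0 :=
    fun x hx => Ft_not (fun _ => hF.irr.2) hx
  by_cases hg : g ∈ pK (fun _ : Ω => AL π1 M1 S)
  · rw [← schurF wd ld hqM hF hr hy hu hg]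
    refine Finset.sum_congr rfl fun n _ => ?_
    split_ifs with h
    · rfl
    · rw [mem_iff wd ld hqM hT hr hy hyM] at h
      rw [h0 (y * ι.compLeft Ω n * g), mul_zero, mul_zero]
      intro h2
      apply h
      have h3 := (pK (fun _ : Ω => AL π1 M1 S)).mul_mem h2
        ((pK (fun _ : Ω => AL π1 M1 S)).inv_mem hg)
      rwa [mul_inv_cancel_right] at h3
  · rw [h0 g hg, mul_zero]
    refine Finset.sum_eq_zero fun n _ => ?_
    split_ifs with h
    · rw [mem_iff wd ld hqM hT hr hy hyM] at h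
      rw [h0 (y * ι.compLeft Ω n * g), mul_zero]
      intro h2
      apply hg
      have h3 := (pK (fun _ : Ω => AL π1 M1 S)).mul_mem
        ((pK (fun _ : Ω => AL π1 M1 S)).inv_mem h) h2
      rwa [inv_mul_cancel_left] at h3
    · rw [zero_mul]

theorem num [Fintype Q] [Fintype L] [Fintype L1] (wd : WD π μ φ q α ε μQ)
    (ld : LD q α μQ π1 μ1 ι) {M1 S : Subgroup K1} (hqM : q.range ≤ M1) {F : L1 → ℂ}
    (hF : EF π1 q.range M1 S F) {T : Subgroup K} (hT : ∀ k, k ∈ T ↔ ∀ o, (φ k).left o ∈ S)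
    {f : L → ℂ} (hfε : ∀ n : Ω → Q, f (ε n) = ∏ o, F (ι (n o))) {l : L}
    (hr : (φ (π l)).right = 1) {y : Ω → L1} (hy : ∀ o, π1 (y o) = (φ (π l)).left o)
    (hyM : ∀ o, π1 (y o) ∈ M1) {u v : L → ℤ} (hu : CIv ((NN' π ε).comap π) u)
    (hu' : SOn {x | π (l⁻¹ * x) ∈ NN' π ε} u) (hv' : SOn {x | π (l * x) ∈ NN' π ε} v) :
    (∑ x, (((∑ z : L, open Classical in if π z ∈ T then u z * v (z⁻¹ * x) else 0) : ℤ) : ℂ) *
      f x) / f 1 = psm ε ι F u (l, gin y) * psm ε ι F v (l⁻¹, gin (fun o => (y o)⁻¹)) := by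
  classical
  have hf1 : f 1 = Ft Ω F 1 := by
    have h1 := hfε 1
    rw [map_one] at h1
    rw [h1]
    unfold Ft
    refine Finset.prod_congr rfl fun o _ => ?_
    rw [Pi.one_apply, map_one]
    rfl
  have hFt1 : Ft Ω F 1 = F 1 ^ Fintype.card Ω := by
    unfold Ft
    simp
  have hF1 : F 1 ≠ 0 := hF.irr.1.one_ne_zero
  have hκ : (Nat.card ε.ker : ℂ) ≠ 0 := by
    have := Nat.card_pos (α := ε.ker)
    exact_mod_cast this.ne'
  -- the double sum
  have h1 : ∑ x, (((∑ z : L, if π z ∈ T then u z * v (z⁻¹ * x) else 0) : ℤ) : ℂ) * f x =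
      ∑ z, (if π z ∈ T then ((u z : ℤ) : ℂ) else 0) *
        ∑ x, ((v x : ℤ) : ℂ) * f (z * x) := by
    simp only [Int.cast_sum, Finset.sum_mul]
    rw [Finset.sum_comm]
    refine Finset.sum_congr rfl fun z _ => ?_
    rw [Finset.mul_sum, ← Equiv.sum_comp (Equiv.mulLeft z)]
    refine Finset.sum_congr rfl fun x _ => ?_
    rw [Equiv.coe_mulLeft, inv_mul_cancel_left]
    split_ifs
    · push_cast
      ring
    · simp
  have h2 : (Nat.card ε.ker : ℂ) * ∑ z, (if π z ∈ T then ((u z : ℤ) : ℂ) else 0) *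
        ∑ x, ((v x : ℤ) : ℂ) * f (z * x) =
      ∑ n : Ω → Q, (if π (l * ε n) ∈ T then ((u (l * ε n) : ℤ) : ℂ) else 0) *
        ∑ x, ((v x : ℤ) : ℂ) * f (l * ε n * x) := by
    rw [← cos_sum ε l (fun z => (if π z ∈ T then ((u z : ℤ) : ℂ) else 0) *
        ∑ x, ((v x : ℤ) : ℂ) * f (z * x))]
    intro x hx
    have h3 : u x = 0 := hu' x (fun h => hx ((mem_eps wd).mp h))
    rw [h3]
    simp
  have h3 : ∀ n : Ω → Q, (Nat.card ε.ker : ℂ) * ∑ x, ((v x : ℤ) : ℂ) * f (l * ε n * x) =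
      ∑ n' : Ω → Q, ((v (l⁻¹ * ε n') : ℤ) : ℂ) *
        Ft Ω F (y * ι.compLeft Ω n * (y⁻¹ * ι.compLeft Ω n')) := by
    intro n
    rw [← cos_sum ε l⁻¹ (fun x => ((v x : ℤ) : ℂ) * f (l * ε n * x))]
    · refine Finset.sum_congr rfl fun n' _ => ?_
      rw [f_val wd ld hfε hr hy]
    · intro x hx
      rw [inv_inv] at hx
      have h4 : v x = 0 := hv' x (fun h => hx ((mem_eps wd).mp h))
      rw [h4]
      simp
  have h4 : (Nat.card ε.ker : ℂ) * ((Nat.card ε.ker : ℂ) *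
      ∑ x, (((∑ z : L, if π z ∈ T then u z * v (z⁻¹ * x) else 0) : ℤ) : ℂ) * f x) =
      ((∑ n : Ω → Q, ((u (l * ε n) : ℤ) : ℂ) * Ft Ω F (y * ι.compLeft Ω n)) / Ft Ω F 1) *
        ∑ n' : Ω → Q, ((v (l⁻¹ * ε n') : ℤ) : ℂ) * Ft Ω F (y⁻¹ * ι.compLeft Ω n') := by
    rw [h1, h2, Finset.mul_sum]
    have h5 : ∀ n : Ω → Q, (Nat.card ε.ker : ℂ) *
        ((if π (l * ε n) ∈ T then ((u (l * ε n) : ℤ) : ℂ) else 0) *
          ∑ x, ((v x : ℤ) : ℂ) * f (l * ε n * x)) =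
        ∑ n' : Ω → Q, ((v (l⁻¹ * ε n') : ℤ) : ℂ) *
          ((if π (l * ε n) ∈ T then ((u (l * ε n) : ℤ) : ℂ) else 0) *
            Ft Ω F (y * ι.compLeft Ω n * (y⁻¹ * ι.compLeft Ω n'))) := by
      intro n
      rw [mul_left_comm, h3, Finset.mul_sum]
      refine Finset.sum_congr rfl fun n' _ => ?_
      ring
    rw [Finset.sum_congr rfl fun n _ => h5 n, Finset.sum_comm, Finset.mul_sum]
    refine Finset.sum_congr rfl fun n' _ => ?_
    rw [← Finset.mul_sum, cut wd ld hqM hF hT hr hy hyM hu]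
    ring
  have h5 : psm ε ι F u (l, gin y) = (∑ n : Ω → Q, ((u (l * ε n) : ℤ) : ℂ) *
      Ft Ω F (y * ι.compLeft Ω n)) / (Nat.card ε.ker * F 1 ^ Fintype.card Ω) := rfl
  have h6 : psm ε ι F v (l⁻¹, gin (fun o => (y o)⁻¹)) = (∑ n' : Ω → Q,
      ((v (l⁻¹ * ε n') : ℤ) : ℂ) * Ft Ω F (y⁻¹ * ι.compLeft Ω n')) /
      (Nat.card ε.ker * F 1 ^ Fintype.card Ω) := rfl
  have hD : F 1 ^ Fintype.card Ω ≠ 0 := pow_ne_zero _ hF1
  rw [h5, h6, hf1]
  rw [hFt1] at h4 ⊢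
  field_simp
  field_simp at h4
  linear_combination h4

end Tw

end SUL

theorem SUL_thm (h1 : Stmt_CHB) (h2 : Stmt_PRC) (h3 : Stmt_CST) : Stmt_SUL := by
  classical
  intro L K K1 Q L1 Ω _ _ _ _ _ _ _ _ _ _ _ _ 𝔐 ℓ _ hmax hℓ π μ φ q α ε μQ π1 μ1 ι M M1 wd
    ld mm σr Fr hσ hF hov f hf hfε hsp x0 hx0
  by_contra hno
  obtain ⟨hN, hqn, hC⟩ := h3 L K K1 Q Ω ℓ π μ φ q α ε μQ wd
  obtain ⟨hch, -, -, hst, -⟩ := hC σr hσ
  -- the elements
  have o0 : Ω := Classical.arbitrary Ω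
  obtain ⟨m, hm, hmo⟩ := mm.s o0 (π1 x0) hx0
  obtain ⟨l, rfl⟩ := wd.πs m
  have hr : (φ (π l)).right = 1 := mm.r _ hm
  have h4 : ∀ o, ∃ y : L1, π1 y = (φ (π l)).left o := fun o => ld.s _
  choose y' hy' using h4
  have hex : ∃ y : Ω → L1, (∀ o, π1 (y o) = (φ (π l)).left o) ∧ y o0 = x0 := by
    refine ⟨Function.update y' o0 x0, ?_, Function.update_self _ _ _⟩
    intro o
    by_cases ho : o = o0
    · subst ho
      rw [Function.update_self, hmo]
    · rw [Function.update_of_ne ho]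
      exact hy' o
  obtain ⟨y, hy, hy0⟩ := hex
  have hyM : ∀ o, π1 (y o) ∈ M1 := by
    intro o
    rw [hy]
    exact mm.l _ hm o
  obtain ⟨u, v, hu, hv, hus, hvs, hne⟩ := hsp l hm
  apply hne
  -- the inverse
  have hr' : (φ (π l⁻¹)).right = 1 := by
    rw [map_inv, map_inv, SemidirectProduct.inv_right, hr, inv_one]
  have hy'' : ∀ o, π1 ((fun o => (y o)⁻¹) o) = (φ (π l⁻¹)).left o := by
    intro o
    rw [map_inv π, SUL.left_inv' hr, ← hy o]
    exact map_inv _ _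
  have hyM' : ∀ o, π1 ((fun o => (y o)⁻¹) o) ∈ M1 := by
    intro o
    have h5 : π1 ((y o)⁻¹) = (π1 (y o))⁻¹ := map_inv _ _
    show π1 ((y o)⁻¹) ∈ M1
    rw [h5]
    exact M1.inv_mem (hyM o)
  have hL := SUL.lam h2 hmax hℓ wd ld mm.le1 hqn hF hov hr hy hyM hu
  have hL' := SUL.lam h2 hmax hℓ wd ld mm.le1 hqn hF hov hr' hy'' hyM' hv
  have hL0 := hL.2 o0 (fun U hU hU' => by
    by_contra hU0
    apply hno
    rw [hy0] at hU'
    exact ⟨U, hU, hU', hU0⟩)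
  rw [h1 L K 𝔐 ℓ hmax hℓ π wd.πs wd.πc (NN' π ε) (cstC φ (NN' π ε) σr) hch f hf u v hu hv]
  have hnum := SUL.num wd ld mm.le1 hF hst hfε hr hy hyM hu (by
    intro x hx
    exact hus x hx) (by
    intro x hx
    exact hvs x hx)
  unfold sc
  rw [hnum, red_mul 𝔐 hL.1 hL'.1, hL0, zero_mul]

end Pool.Agent.DPG
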