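import Pool.Agent.DPG.StmtsA

/-!
# SYT: the quotient of the vertex group
-/

namespace Pool.Agent.DPG

open Pool.Agent.DP Pool.Agent.DPC Pool.Agent.DPM Pool.Agent.DPN Pool.Agent.DPF
  Pool.Agent.Lib_helper13 Representation

namespace SYT

variable {K K1 Ω : Type} [Group K] [Group K1]

/-- The stabilizer of `o`. -/
def st (φ : K →* Gam (Equiv.Perm Ω) Ω K1) (o : Ω) : Subgroup K where
  carrier := {k | (φ k).right o = o}
  one_mem' := by
    change (φ 1).right o = o
    rw [map_one]
    rfl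
  mul_mem' := by
    intro a b ha hb
    change (φ (a * b)).right o = o
    rw [map_mul]
    change (φ a).right ((φ b).right o) = o
    rw [show (φ b).right o = o from hb]
    exact ha
  inv_mem' := by
    intro a ha
    change (φ a⁻¹).right o = o
    rw [map_inv]
    change (φ a).right⁻¹ o = o
    rw [Equiv.Perm.inv_eq_iff_eq]
    exact (show (φ a).right o = o from ha).symm

/-- The coordinate of the elements of the stabilizer. -/
def cf (φ : K →* Gam (Equiv.Perm Ω) Ω K1) (o : Ω) : st φ o →* K1 where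
  toFun a := (φ a).left o
  map_one' := by
    change (φ 1).left o = 1
    rw [map_one]
    rfl
  map_mul' := by
    intro a b
    change (φ ((a : K) * b)).left o = (φ a).left o * (φ b).left o
    rw [map_mul]
    change (φ a).left o * (φ b).left ((φ a).right⁻¹ • o) = (φ a).left o * (φ b).left o
    have h : (φ (a : K)).right⁻¹ • o = o := by
      change (φ (a : K)).right⁻¹ o = o
      rw [Equiv.Perm.inv_eq_iff_eq]
      exact (show (φ (a : K)).right o = o from a.2).symm
    rw [h]

end SYT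

open SYT in
theorem SYT_thm : Stmt_SYT := by
  intro K K1 H Ω _ _ _ _ _ _ _ ℓ _ φ hφ M M1 _ hM hM1 p hp hpk P hP
  obtain ⟨o⟩ := ‹Nonempty Ω›
  let f : st φ o →* K1 ⧸ M1 := (QuotientGroup.mk' M1).comp (cf φ o)
  have hf : Function.Surjective f := by
    intro x
    obtain ⟨b, rfl⟩ := QuotientGroup.mk'_surjective M1 x
    obtain ⟨k, hk, hb⟩ := hφ o b
    exact ⟨⟨k, hk⟩, congrArg (QuotientGroup.mk' M1) hb⟩
  have hfM : ∀ a : st φ o, (a : K) ∈ M → f a = 1 := by
    intro a ha
    exact (QuotientGroup.eq_one_iff _).2 (hM1 a ha o)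
  haveI := hP.nrm
  haveI hn : (P.comap p).Normal := inferInstance
  let R : Subgroup (st φ o) := (P.comap p).subgroupOf (st φ o)
  haveI hR : R.Normal := inferInstance
  have hRm : ∀ a : st φ o, a ∈ R ↔ p a ∈ P := fun a => Iff.rfl
  refine ⟨R.map f, hR.map f hf, ?_, ?_, ?_⟩
  · rintro ⟨x, hx⟩
    obtain ⟨a, ha, rfl⟩ := hx
    obtain ⟨n, hn'⟩ := hP.pgr ⟨p a, (hRm a).1 ha⟩
    refine ⟨n, Subtype.ext ?_⟩
    change (f a) ^ ℓ ^ n = 1
    rw [← map_pow]
    apply hfM
    rw [← hpk]
    have h1 := congrArg Subtype.val hn'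
    change (p a) ^ ℓ ^ n = 1 at h1
    change p ((a : K) ^ ℓ ^ n) = 1
    rw [map_pow, h1]
  · intro h
    apply hP.idx
    have h1 : (R.map f).index ∣ R.index := Subgroup.index_map_dvd R hf
    have h2 : R.index ∣ (P.comap p).index := Subgroup.relIndex_dvd_index_of_normal _ _
    rw [Subgroup.index_comap_of_surjective P hp] at h2
    exact h.trans (h1.trans h2)
  · intro x y
    obtain ⟨a, rfl⟩ := hf x
    obtain ⟨b, rfl⟩ := hf y
    refine ⟨a * b * a⁻¹ * b⁻¹, ?_, ?_⟩
    · change p ((a : K) * b * (a : K)⁻¹ * (b : K)⁻¹) ∈ P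
      rw [map_mul, map_mul, map_mul, map_inv, map_inv]
      exact hP.abl _ _
    · rw [map_mul, map_mul, map_mul, map_inv, map_inv]

end Pool.Agent.DPG
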