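import Pool.Agent.DPG.StmtsB
import Pool.Agent.DPK.Stmts
import Pool.Agent.DPF.COV
import Pool.Agent.DPF.COVG
import Pool.Agent.DPF.NUG
import Pool.Agent.DPF.NUM
import Pool.Agent.DPF.NUW

/-!
# TEN: minimal normal subgroups which are not simple: the theorem
-/

set_option autoImplicit false

namespace Pool.Agent.DPG

open Pool.Agent.DP Pool.Agent.DPC Pool.Agent.DPM Pool.Agent.DPN Pool.Agent.DPF
  Pool.Agent.DPK Pool.Agent.Lib_helper13 Representation
open Pool.Agent.Lib_helper13.Dade (pCore DadeHolds dadeSum)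

namespace TEN

section Ple

variable {L K H W W' : Type} [Group L] [Group K] [Group H] [Group W] [Group W']

/-- The homomorphism between the fibre products. -/
def gsMap (π : L →* K) (p : K →* H) (πW : W →* H) (πW' : W' →* H) (h : W' →* W)
    (hh : ∀ w, πW (h w) = πW' w) (S : Subgroup K) :
    ↥(GS π p πW' S) →* ↥(GS π p πW S) where
  toFun x := ⟨((x : L × W').1, h (x : L × W').2), x.2.1, x.2.2.trans (hh _).symm⟩
  map_one' := by
    apply Subtype.ext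
    simp
  map_mul' := by
    intro a b
    apply Subtype.ext
    simp

/-- Extensions over a larger extension. -/
theorem ple (π : L →* K) (p : K →* H) (M : Subgroup K) (πW : W →* H) (πW' : W' →* H)
    (h : W' →* W) (hh : ∀ w, πW (h w) = πW' w) (S : Subgroup K) (f : L → ℂ)
    (ν : πW.ker →* ℂˣ) (ν' : πW'.ker →* ℂˣ)
    (hν : ∀ (z : πW'.ker) (hz : h z ∈ πW.ker), ν' z = ν ⟨h z, hz⟩)
    (hE : EDb π p M πW S f ν) : EDb π p M πW' S f ν' := by
  obtain ⟨E, h1, h2, h3, h4⟩ := hE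
  refine ⟨fun x => E (x.1, h x.2), ?_, ?_, ?_, ?_⟩
  · exact h1.comp (gsMap π p πW πW' h hh S)
  · intro x hx
    apply h2
    intro h5
    apply hx
    exact ⟨h5.1, h5.2.trans (hh _)⟩
  · intro a ha ha'
    change E (a, h 1) = f a
    rw [map_one]
    exact h3 a ha ha'
  · intro z t w
    have hz : h z ∈ πW.ker := by
      rw [MonoidHom.mem_ker, hh]
      exact z.2
    change ((ν' z : ℂˣ) : ℂ) * E (t, h (z * w)) = E (t, h w)
    rw [hν z hz, map_mul]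
    exact h4 ⟨h z, hz⟩ t (h w)

/-- The map between the kernels. -/
def kmap (πW : W →* H) (πW' : W' →* H) (h : W' →* W) (hh : ∀ w, πW (h w) = πW' w) :
    πW'.ker →* πW.ker where
  toFun z := ⟨h z, by
    rw [MonoidHom.mem_ker, hh]
    exact z.2⟩
  map_one' := by
    apply Subtype.ext
    simp
  map_mul' := by
    intro a b
    apply Subtype.ext
    simp

/-- The elements `InS` are mapped to such elements. -/
theorem inS_map (πW : W →* H) (πW' : W' →* H) (h : W' →* W) (hh : ∀ w, πW (h w) = πW' w)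
    (hs : Function.Surjective h) (P : Subgroup H) {a : W'} (ha : InS πW' P a) :
    InS πW P (h a) := by
  obtain ⟨x, y, e, h1, h2, h3⟩ := ha
  have hle : (P.comap πW').map h ≤ P.comap πW := by
    rintro _ ⟨w, hw, rfl⟩
    rw [Subgroup.mem_comap, hh]
    exact hw
  refine ⟨h x, h y, h e, ?_, ?_, ?_⟩
  · rw [eq_top_iff]
    have h4 : (Subgroup.closure {x, y} ⊔ P.comap πW').map h = ⊤ := by
      rw [h1]
      exact Subgroup.map_top_of_surjective h hs
    rw [← h4, Subgroup.map_sup]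
    refine sup_le_sup ?_ hle
    rw [MonoidHom.map_closure]
    apply Subgroup.closure_mono
    rw [Set.image_pair]
  · have h5 : h e ∈ (⁅P.comap πW', P.comap πW'⁆).map h := ⟨e, h2, rfl⟩
    rw [Subgroup.map_commutator] at h5
    exact Subgroup.commutator_mono hle hle h5
  · rw [h3]
    simp

end Ple

/-- The `ℓ`-subgroups of `M` are contained in `N`. -/
theorem le_of_pgr {K : Type} [Group K] [Finite K] {ℓ : ℕ} [Fact ℓ.Prime] {N M D : Subgroup K}
    [N.Normal] (hc : ¬ ℓ ∣ N.relIndex M) (hD : IsPGroup ℓ D) (hDM : D ≤ M) :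
    D ≤ N := by
  intro x hx
  obtain ⟨k, hk⟩ := hD ⟨x, hx⟩
  have hk' : x ^ ℓ ^ k = 1 := congrArg Subtype.val hk
  have h1 : (⟨x, hDM hx⟩ : M) ^ (N.subgroupOf M).index ∈ N.subgroupOf M :=
    Subgroup.pow_index_mem _ _
  have h2 : x ^ N.relIndex M ∈ N := by
    have h3 := Subgroup.mem_subgroupOf.1 h1
    rw [Subgroup.coe_pow] at h3
    exact h3
  have hcop : Nat.Coprime (ℓ ^ k) (N.relIndex M) :=
    Nat.Coprime.pow_left k ((Nat.Prime.coprime_iff_not_dvd Fact.out).2 hc)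
  have h4 := Nat.gcd_eq_gcd_ab (ℓ ^ k) (N.relIndex M)
  rw [hcop] at h4
  have h5 : x = (x ^ (ℓ ^ k)) ^ (Nat.gcdA (ℓ ^ k) (N.relIndex M)) *
      (x ^ (N.relIndex M)) ^ (Nat.gcdB (ℓ ^ k) (N.relIndex M)) := by
    rw [← zpow_natCast, ← zpow_natCast, ← zpow_mul, ← zpow_mul, ← zpow_add, ← h4]
    simp
  rw [h5, hk', one_zpow, one_mul]
  exact N.zpow_mem h2 _

theorem chN_iff {K : Type} [Group K] [Finite K] {ℓ : ℕ} [Fact ℓ.Prime] {N M : Subgroup K}
    [N.Normal] (hNM : N ≤ M) (hc : ¬ ℓ ∣ N.relIndex M) (σ : Finset (Subgroup K)) :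
    ChN ℓ M σ ↔ ChN ℓ N σ := by
  constructor
  · rintro ⟨h1, h2⟩
    exact ⟨h1, fun D hD => le_of_pgr hc (h1.1 D hD).1 (h2 D hD)⟩
  · rintro ⟨h1, h2⟩
    exact ⟨h1, fun D hD => (h2 D hD).trans hNM⟩

theorem chN_mapCh {K : Type} [Group K] {ℓ : ℕ} {M : Subgroup K} {τ : Finset (Subgroup M)}
    (h : IsCh ℓ ⊥ τ) : ChN ℓ M (mapCh M.subtype τ) := by
  constructor
  · have h1 := (isCh_mapCh_iff (i := M.subtype) M.subtype_injective).2 h
    rwa [Subgroup.map_bot] at h1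
  · intro D hD
    obtain ⟨D', -, rfl⟩ := mem_mapCh.1 hD
    exact Subgroup.map_subtype_le D'

theorem exists_mapCh' {K : Type} [Group K] {ℓ : ℕ} {M : Subgroup K} {σ : Finset (Subgroup K)}
    (h : ChN ℓ M σ) : ∃ τ : Finset (Subgroup M), mapCh M.subtype τ = σ := by
  apply exists_mapCh
  intro D hD
  rw [Subgroup.range_subtype]
  exact h.2 D hD

theorem mem_filter' {A : Type*} (s : Finset A) (P : A → Prop) (i : DecidablePred P) (a : A) :
    a ∈ @Finset.filter A P i s ↔ a ∈ s ∧ P a := Finset.mem_filter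

theorem ext0_coe {G : Type} [Group G] {S : Subgroup G} (θ : S → ℂ) :
    (fun s : S => ext0 θ (s : G)) = θ := by
  funext s
  rw [ext0_of_mem θ s.2]

theorem ext0_res {G : Type} [Group G] {S : Subgroup G} {f : G → ℂ} (hf : ∀ x, x ∉ S → f x = 0) :
    ext0 (fun s : S => f s) = f := by
  funext x
  by_cases hx : x ∈ S
  · rw [ext0_of_mem _ hx]
  · rw [ext0_of_not_mem _ hx, hf x hx]

end TEN

open TEN in
/-- TEN: the theorem. -/
theorem TEN_thm (Cl : ∀ (Y : Type) [Group Y], Prop) (h1 : Stmt_T2Br Cl) (h2 : Stmt_CNA)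
    (h3 : Stmt_CNB) (h4 : Stmt_VCL Cl) (h5 : Stmt_TRO Cl) (h6 : Stmt_MMC) (h7 : Stmt_TQA Cl)
    (h8 : Stmt_TOG) (h9 : Stmt_BGA) (h10 : Stmt_BGB) : Stmt_TEN Cl := by
  classical
  intro L K H _ _ _ _ _ _ 𝔐 ℓ _ hmax hℓ π hπ hc μ hμ hcore hGC hClK hHR M _ p hp hpM P hP ω hPos
    N _ hNM hcop hNne hmin hncomm hcent hns hSTB hSPP d
  -- the wreath product data
  obtain ⟨E, hE1, hE2, hE3, hE4, hE5, hE6, hE7⟩ := h2 K N hNne hmin hncomm hns
  obtain ⟨Ω, K1, Q, _, _, _, _, _, φ, q, α, ε, μQ, wd, hNN, hΩ, hcard⟩ :=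
    h3 L K π hπ hc μ hμ N hcent E hE1 hE2 hE3 hE4 hE5 hE6 hE7
  have hΩn : Nonempty Ω := Fintype.card_pos_iff.1 (by omega)
  obtain ⟨hClK1, hClq⟩ := h4 hGC K K1 Q Ω φ q wd.sj hClK
  have hcq : Nat.card q.range < Nat.card K :=
    lt_of_le_of_lt (Subgroup.card_le_card_group q.range) hcard
  subst hNN
  -- the extension for the group `M`
  have hA : ∃ (W : Type) (_ : Group W) (_ : Fintype W) (πW : W →* H)
      (ν : Subgroup K → (L → ℂ) → (πW.ker →* ℂˣ)), Function.Surjective πW ∧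
      (∀ σ f, ChN ℓ M σ → BPs 𝔐 π μ M ω (stb σ) f →
        EDb π p M πW (stb σ) f (ν (stb σ) f)) ∧
      T2X 𝔐 ℓ π μ M ω πW P (fun σ => ChN ℓ (NN' π ε) σ ∧ Clo φ (NN' π ε) σ) ν := by
    by_cases hex : ∃ (σ : Finset (Subgroup K)) (θ : L → ℂ), ChN ℓ (NN' π ε) σ ∧
        Clo φ (NN' π ε) σ ∧ BPs 𝔐 π μ M ω (stb σ) θ
    · obtain ⟨σ, θ, hσ, -, hθ⟩ := hex
      have hr := h5 L K K1 Q Ω 𝔐 ℓ hmax hℓ π μ φ q α ε μQ wd hClq (hHR _ hcq) M hNM hcop ω hPos
        hSTB hSPP σ θ hσ hθ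
      obtain ⟨M1, hMM⟩ := h6 L K K1 Q Ω ℓ π μ φ q α ε μQ wd M hNM hcop hr
      exact h7 L K H K1 Q Ω 𝔐 ℓ hmax hℓ π μ φ q α ε μQ wd M M1 hMM hClK1 (hHR _ hcard) p hp hpM P
        hP ω hPos hSTB hSPP
    · obtain ⟨W, _, _, πW, ν0, hW1, -, hW3⟩ := (COV_thm COVG_thm) L K H 𝔐 π hπ μ M p hp hpM ω
      refine ⟨W, inferInstance, inferInstance, πW, fun S f =>
        if h : ∃ ν' : πW.ker →* ℂˣ, EDb π p M πW S f ν' then h.choose else 1, hW1, ?_, ?_⟩
      · intro σ f hσ hf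
        obtain ⟨τ, rfl⟩ := exists_mapCh' hσ
        have h11 := h9 L K H W 𝔐 π hπ μ M p hp hpM ω τ
          (fun s : ↥(SL π M τ M) => f s)
        have h12 : ext0 (fun s : ↥(SL π M τ M) => f s) = f := ext0_res hf.irr.2
        rw [h12] at h11
        have h13 := h11.1.2 hf
        have h14 := (h11.2 πW hW1 _ h13).1 (hW3 τ _ h13)
        have h15 : ∃ ν' : πW.ker →* ℂˣ, EDb π p M πW (stb (mapCh M.subtype τ)) f ν' := ⟨_, h14⟩
        beta_reduce
        rw [dif_pos h15]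
        exact h15.choose_spec
      · intro a _ n
        apply Finset.sum_eq_zero
        intro σ hσ
        have h11 := ((mem_filter' _ _ _ _).1 hσ).2
        rw [Finset.sum_eq_zero, mul_zero]
        intro f hf
        exact absurd ⟨σ, f, h11.1, h11.2, ((mem_filter' _ _ _ _).1 hf).2.1⟩ hex
  obtain ⟨W1, _, _, π1, ν1, hs1, hB1, hT1⟩ := hA
  obtain ⟨W0, _, _, π0, ν0, hs0, -, hB0⟩ := (COV_thm COVG_thm) L K H 𝔐 π hπ μ M p hp hpM ω
  -- the fibre product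
  let W : Subgroup (W0 × W1) := fpr π0 π1
  let f0 : ↥W →* W0 := (MonoidHom.fst W0 W1).comp W.subtype
  let f1 : ↥W →* W1 := (MonoidHom.snd W0 W1).comp W.subtype
  let πW : ↥W →* H := π1.comp f1
  have hh1 : ∀ w, π1 (f1 w) = πW w := fun _ => rfl
  have hh0 : ∀ w, π0 (f0 w) = πW w := fun w => w.2
  have hf1 : Function.Surjective f1 := by
    intro w
    obtain ⟨w0, hw0⟩ := hs0 (π1 w)
    exact ⟨⟨(w0, w), hw0⟩, rfl⟩
  have hsW : Function.Surjective πW := hs1.comp hf1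
  let ν : Subgroup K → (L → ℂ) → (πW.ker →* ℂˣ) := fun S f =>
    (ν1 S f).comp (kmap π1 πW f1 hh1)
  let ν' : ∀ τ : Finset (Subgroup M), (↥(SL π M τ M) → ℂ) → (πW.ker →* ℂˣ) := fun τ θ =>
    if IsCh ℓ ⊥ τ then ν (stb (mapCh M.subtype τ)) (ext0 θ)
    else (ν0 τ θ).comp (kmap π0 πW f0 hh0)
  -- the relations for all chains
  have hT : T2 𝔐 ℓ π μ p M ω πW P
      (fun τ θ => ν (stb (mapCh M.subtype τ)) (ext0 θ)) := by
    rw [h10 L K H W 𝔐 ℓ π hπ μ M p hp hpM ω πW P ν]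
    intro a ha n
    have hN : (Ch ℓ (⊥ : Subgroup K)).filter (fun σ => ChN ℓ M σ) =
        (Ch ℓ (⊥ : Subgroup K)).filter (fun σ => ChN ℓ (NN' π ε) σ) :=
      Finset.filter_congr fun σ _ => chN_iff hNM hcop σ
    rw [hN]
    have h11 := h8 L K K1 Q Ω ℓ π μ φ q α ε μQ wd (fun S =>
      ∑ f ∈ irrOn (AL π M S) with BPs 𝔐 π μ M ω S f ∧
          HasDefect ℓ (fun s : AL π M S => f s) n,
        (Nat.card ↥(M ⊓ S) : ℂ) * ((ν1 S f (kmap π1 πW f1 hh1 a) : ℂˣ) : ℂ))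
    have h12 := hT1 (kmap π1 πW f1 hh1 a) (inS_map π1 πW f1 hh1 hf1 P ha) n
    refine Eq.trans ?_ (h11.trans (Eq.trans ?_ h12))
    · rfl
    · refine Finset.sum_congr ?_ fun _ _ => rfl
      ext σ
      constructor
      · intro hm
        have hm' := (mem_filter' _ _ _ _).1 hm
        exact (mem_filter' _ _ _ _).2 hm'
      · intro hm
        have hm' := (mem_filter' _ _ _ _).1 hm
        exact (mem_filter' _ _ _ _).2 hm'
  have hT' : T2 𝔐 ℓ π μ p M ω πW P ν' := by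
    intro a ha n
    rw [← hT a ha n]
    refine Finset.sum_congr rfl fun τ hτ => ?_
    have h11 : ∀ θ, ν' τ θ = ν (stb (mapCh M.subtype τ)) (ext0 θ) := by
      intro θ
      change (if IsCh ℓ ⊥ τ then _ else _) = _
      rw [if_pos (mem_Ch.1 hτ)]
    congr 1
    refine Finset.sum_congr rfl fun θ _ => ?_
    rw [h11]
  -- the numbers of characters
  have hNum : ∀ τ θ, PrU 𝔐 π μ p M ω τ θ → NumW ℓ π p M πW τ θ (ν' τ θ) := by
    intro τ θ hθ
    have h11 := h9 L K H W 𝔐 π hπ μ M p hp hpM ω τ θ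
    apply (NUW_thm (NUM_thm NUG_thm)) L K H W 𝔐 ℓ π hπ μ M p hpM ω πW hsW τ θ _ hθ
    rw [h11.2 πW hsW _ hθ]
    by_cases hτ : IsCh ℓ ⊥ τ
    · have h12 : ν' τ θ = ν (stb (mapCh M.subtype τ)) (ext0 θ) := by
        change (if IsCh ℓ ⊥ τ then _ else _) = _
        rw [if_pos hτ]
      rw [h12]
      exact ple π p M π1 πW f1 hh1 _ _ _ _ (fun _ _ => rfl)
        (hB1 _ _ (chN_mapCh hτ) (h11.1.1 hθ))
    · have h12 : ν' τ θ = (ν0 τ θ).comp (kmap π0 πW f0 hh0) := by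
        change (if IsCh ℓ ⊥ τ then _ else _) = _
        rw [if_neg hτ]
      rw [h12]
      have h13 := h9 L K H W0 𝔐 π hπ μ M p hp hpM ω τ θ
      exact ple π p M π0 πW f0 hh0 _ _ _ _ (fun _ _ => rfl)
        ((h13.2 π0 hs0 _ hθ).1 (hB0 τ θ hθ))
  exact h1 L K H W 𝔐 ℓ hmax hℓ π hπ hc μ M p hp hpM P hP hcore hClK hHR ω hPos πW hsW ν' hNum
    hT' d

end Pool.Agent.DPG
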