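import Mathlib
import Pool.Agent.DPG.StmtsB
import Pool.Agent.DPG.WDB
import Pool.Agent.DPC.TIG
import Pool.Agent.DPC.CYC

/-!
# TIE: the tensor induced character
-/

namespace Pool.Agent.DPG

open Pool.Agent.DP Pool.Agent.DPC Pool.Agent.DPM Pool.Agent.DPN Pool.Agent.DPF
  Pool.Agent.Lib_helper13 Representation

namespace TIE

/-- If the values of a character at the image of `j` are the multiples of the degree by the
linear character `lam`, then the image of `j` acts by the scalars `lam`. -/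
theorem scal {C B : Type} [Group C] [Finite C] [Group B] (j : C →* B) (lam : C →* ℂˣ)
    (X : B → ℂ) (hX : IsChr X) (h : ∀ c, X (j c) = ((lam c : ℂˣ) : ℂ) * X 1) (c : C) (x : B) :
    X (j c * x) = ((lam c : ℂˣ) : ℂ) * X x := by
  classical
  obtain ⟨n, ρ, hρ⟩ := hX
  let _ : Fintype C := Fintype.ofFinite _
  have hX1 : X 1 = (n : ℂ) := by
    rw [← hρ, char_one]
    simp
  let σ : Representation ℂ C (Fin n → ℂ) :=
    { toFun := fun c => (((lam c)⁻¹ : ℂˣ) : ℂ) • ρ (j c)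
      map_one' := by
        rw [map_one, map_one, map_one, inv_one, Units.val_one, one_smul]
      map_mul' := by
        intro a b
        rw [map_mul, map_mul, map_mul, mul_inv, Units.val_mul, smul_mul_smul_comm] }
  have hσ : ∀ c, σ c = (((lam c)⁻¹ : ℂˣ) : ℂ) • ρ (j c) := fun _ => rfl
  have h0 : ∀ g : C, σ.character g = (n : ℂ) := by
    intro g
    have h1 : σ.character g = (((lam g)⁻¹ : ℂˣ) : ℂ) * ρ.character (j g) := by
      rw [Representation.character, Representation.character, hσ, map_smul, smul_eq_mul]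
    rw [h1, hρ, h, hX1, ← mul_assoc, Units.inv_mul, one_mul]
  have h1 : (Module.finrank ℂ σ.invariants : ℂ) = (n : ℂ) := by
    rw [← card_inv_mul_sum_char_eq_finrank σ]
    rw [Finset.sum_congr rfl fun g _ => h0 g, Finset.sum_const, nsmul_eq_mul, Finset.card_univ,
      ← Nat.card_eq_fintype_card, ← mul_assoc, inv_mul_cancel₀ natCard_ne_zero, one_mul]
  have h2 : σ.invariants = ⊤ := by
    apply Submodule.eq_top_of_finrank_eq
    rw [Module.finrank_fin_fun]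
    exact_mod_cast h1
  have h3 : ρ (j c) = ((lam c : ℂˣ) : ℂ) • (1 : (Fin n → ℂ) →ₗ[ℂ] (Fin n → ℂ)) := by
    refine LinearMap.ext fun v => ?_
    have h4 : v ∈ σ.invariants := by
      rw [h2]
      exact Submodule.mem_top
    have h5 := h4 c
    rw [hσ, LinearMap.smul_apply] at h5
    rw [LinearMap.smul_apply, Module.End.one_apply]
    conv_rhs => rw [← h5]
    rw [smul_smul, Units.mul_inv, one_smul]
  rw [← hρ]
  rw [Representation.character, Representation.character, map_mul, h3, smul_mul_assoc, one_mul,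
    map_smul, smul_eq_mul]

section

variable {L1 K1 H1 W1 Ω : Type} [Group L1] [Group K1] [Group H1] [Group W1]

/-- The fibre product of the wreath products. -/
def BB (Ω : Type) (π1 : L1 →* K1) (p1 : K1 →* H1) (πW1 : W1 →* H1) (S1 : Subgroup K1) :
    Subgroup (Gam (Equiv.Perm Ω) Ω L1 × Gam (Equiv.Perm Ω) Ω W1) where
  carrier := {x | gmap Ω (p1.comp π1) x.1 = gmap Ω πW1 x.2 ∧ ∀ o, π1 (x.1.left o) ∈ S1}
  one_mem' := by
    constructor
    · rw [Prod.fst_one, Prod.snd_one, map_one, map_one]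
    · intro o
      rw [Prod.fst_one, WDB.one_left, map_one]
      exact S1.one_mem
  mul_mem' := by
    rintro a b ⟨ha1, ha2⟩ ⟨hb1, hb2⟩
    constructor
    · rw [Prod.fst_mul, Prod.snd_mul, map_mul, map_mul, ha1, hb1]
    · intro o
      rw [Prod.fst_mul, WDB.mul_left, map_mul]
      exact S1.mul_mem (ha2 _) (hb2 _)
  inv_mem' := by
    rintro a ⟨ha1, ha2⟩
    constructor
    · rw [Prod.fst_inv, Prod.snd_inv, map_inv, map_inv, ha1]
    · intro o
      rw [Prod.fst_inv, WDB.inv_left, map_inv]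
      exact S1.inv_mem (ha2 _)

variable {π1 : L1 →* K1} {p1 : K1 →* H1} {πW1 : W1 →* H1} {S1 : Subgroup K1}

theorem mem_BB {x : Gam (Equiv.Perm Ω) Ω L1 × Gam (Equiv.Perm Ω) Ω W1} :
    x ∈ BB Ω π1 p1 πW1 S1 ↔
      gmap Ω (p1.comp π1) x.1 = gmap Ω πW1 x.2 ∧ ∀ o, π1 (x.1.left o) ∈ S1 := Iff.rfl

theorem right_eq {x : Gam (Equiv.Perm Ω) Ω L1 × Gam (Equiv.Perm Ω) Ω W1}
    (hx : x ∈ BB Ω π1 p1 πW1 S1) : x.1.right = x.2.right := by
  have h := congrArg SemidirectProduct.right hx.1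
  rw [WDB.gmap_right, WDB.gmap_right] at h
  exact h

theorem coord_mem {x : Gam (Equiv.Perm Ω) Ω L1 × Gam (Equiv.Perm Ω) Ω W1}
    (hx : x ∈ BB Ω π1 p1 πW1 S1) (o : Ω) : (x.1.left o, x.2.left o) ∈ GS π1 p1 πW1 S1 := by
  refine ⟨hx.2 o, ?_⟩
  have h : (gmap Ω (p1.comp π1) x.1).left o = (gmap Ω πW1 x.2).left o := by rw [hx.1]
  exact h

/-- The action on `Ω`. -/
def aa (Ω : Type) (π1 : L1 →* K1) (p1 : K1 →* H1) (πW1 : W1 →* H1) (S1 : Subgroup K1) :
    ↥(BB Ω π1 p1 πW1 S1) →* Equiv.Perm Ω where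
  toFun x := (x : Gam (Equiv.Perm Ω) Ω L1 × Gam (Equiv.Perm Ω) Ω W1).1.right
  map_one' := rfl
  map_mul' _ _ := rfl

/-- The coordinate at `o` of the elements which fix `o`. -/
def co (o : Ω) : ↥(St (aa Ω π1 p1 πW1 S1) o) →* ↥(GS π1 p1 πW1 S1) where
  toFun x := ⟨(((x : ↥(BB Ω π1 p1 πW1 S1)) :
      Gam (Equiv.Perm Ω) Ω L1 × Gam (Equiv.Perm Ω) Ω W1).1.left o,
    ((x : ↥(BB Ω π1 p1 πW1 S1)) :
      Gam (Equiv.Perm Ω) Ω L1 × Gam (Equiv.Perm Ω) Ω W1).2.left o),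
    coord_mem (x : ↥(BB Ω π1 p1 πW1 S1)).2 o⟩
  map_one' := rfl
  map_mul' := by
    intro x y
    have hx : (((x : ↥(BB Ω π1 p1 πW1 S1)) :
      Gam (Equiv.Perm Ω) Ω L1 × Gam (Equiv.Perm Ω) Ω W1).1.right)⁻¹ o = o := by
      rw [Equiv.Perm.inv_eq_iff_eq]
      exact (mem_St.1 x.2).symm
    apply Subtype.ext
    apply Prod.ext
    · change (((x : ↥(BB Ω π1 p1 πW1 S1)) :
        Gam (Equiv.Perm Ω) Ω L1 × Gam (Equiv.Perm Ω) Ω W1).1 *
        ((y : ↥(BB Ω π1 p1 πW1 S1)) :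
        Gam (Equiv.Perm Ω) Ω L1 × Gam (Equiv.Perm Ω) Ω W1).1).left o = _
      rw [WDB.mul_left, hx]
      rfl
    · change (((x : ↥(BB Ω π1 p1 πW1 S1)) :
        Gam (Equiv.Perm Ω) Ω L1 × Gam (Equiv.Perm Ω) Ω W1).2 *
        ((y : ↥(BB Ω π1 p1 πW1 S1)) :
        Gam (Equiv.Perm Ω) Ω L1 × Gam (Equiv.Perm Ω) Ω W1).2).left o = _
      rw [WDB.mul_left, ← right_eq (x : ↥(BB Ω π1 p1 πW1 S1)).2, hx]
      rfl

theorem conj_coord {B : Type} [Group B] (g m : Gam (Equiv.Perm Ω) Ω B) (o : Ω)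
    (hm : m.right o = o) : (g * m * g⁻¹).left (g.right o) =
      g.left (g.right o) * m.left o * (g.left (g.right o))⁻¹ := by
  rw [WDB.mul_left, WDB.mul_left, WDB.mul_right, WDB.inv_left]
  have h1 : g.right⁻¹ (g.right o) = o := g.right.symm_apply_apply o
  have h2 : (g.right * m.right)⁻¹ (g.right o) = o := by
    rw [Equiv.Perm.inv_eq_iff_eq, Equiv.Perm.mul_apply, hm]
  rw [h1, h2]

end

end TIE

open TIE in
/-- TIE: the tensor induced character. -/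
theorem TIE_thm : Stmt_TIE := by
  classical
  intro L K H K1 H1 Q L1 W1 Ω _ _ _ _ _ _ _ _ _ _ _ _ _ _ _ ℓ π μ φ q α ε μQ π1 μ1 ι M M1 hwd
    hld hmm p1 hp1 hp1k πW1 hπW1 hπc S1 F ν1 hF hov hE
  obtain ⟨E1, hE1c, hE1z, hE1F, hE1ν⟩ := hE
  have i1 : Finite (Gam (Equiv.Perm Ω) Ω L1) :=
    Finite.of_equiv _ (SemidirectProduct.equivProd).symm
  have i2 : Finite (Gam (Equiv.Perm Ω) Ω W1) :=
    Finite.of_equiv _ (SemidirectProduct.equivProd).symm
  -- the family of functions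
  let a := aa Ω π1 p1 πW1 S1
  let f : Ω → ↥(BB Ω π1 p1 πW1 S1) → ℂ := fun o x =>
    E1 ((x : Gam (Equiv.Perm Ω) Ω L1 × Gam (Equiv.Perm Ω) Ω W1).1.left o,
      (x : Gam (Equiv.Perm Ω) Ω L1 × Gam (Equiv.Perm Ω) Ω W1).2.left o)
  obtain ⟨hT, hT1⟩ := TIG_thm CYC_thm Ω ↥(BB Ω π1 p1 πW1 S1) a f
    (fun o => hE1c.comp (co (π1 := π1) (p1 := p1) (πW1 := πW1) (S1 := S1) o))
    (by
      intro y o z hz
      have hz2 : (z : Gam (Equiv.Perm Ω) Ω L1 × Gam (Equiv.Perm Ω) Ω W1).2.right o = o := by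
        rw [← right_eq z.2]
        exact hz
      have hy2 : a y = (y : Gam (Equiv.Perm Ω) Ω L1 × Gam (Equiv.Perm Ω) Ω W1).2.right :=
        right_eq y.2
      have h1 := conj_coord (y : Gam (Equiv.Perm Ω) Ω L1 × Gam (Equiv.Perm Ω) Ω W1).1
        (z : Gam (Equiv.Perm Ω) Ω L1 × Gam (Equiv.Perm Ω) Ω W1).1 o hz
      have h2 := conj_coord (y : Gam (Equiv.Perm Ω) Ω L1 × Gam (Equiv.Perm Ω) Ω W1).2
        (z : Gam (Equiv.Perm Ω) Ω L1 × Gam (Equiv.Perm Ω) Ω W1).2 o hz2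
      change E1 (((y : Gam (Equiv.Perm Ω) Ω L1 × Gam (Equiv.Perm Ω) Ω W1).1 *
        (z : Gam (Equiv.Perm Ω) Ω L1 × Gam (Equiv.Perm Ω) Ω W1).1 *
        (y : Gam (Equiv.Perm Ω) Ω L1 × Gam (Equiv.Perm Ω) Ω W1).1⁻¹).left (a y o),
        ((y : Gam (Equiv.Perm Ω) Ω L1 × Gam (Equiv.Perm Ω) Ω W1).2 *
        (z : Gam (Equiv.Perm Ω) Ω L1 × Gam (Equiv.Perm Ω) Ω W1).2 *
        (y : Gam (Equiv.Perm Ω) Ω L1 × Gam (Equiv.Perm Ω) Ω W1).2⁻¹).left (a y o)) = _
      rw [← hy2] at h2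
      rw [h2]
      have h1' : ((y : Gam (Equiv.Perm Ω) Ω L1 × Gam (Equiv.Perm Ω) Ω W1).1 *
        (z : Gam (Equiv.Perm Ω) Ω L1 × Gam (Equiv.Perm Ω) Ω W1).1 *
        (y : Gam (Equiv.Perm Ω) Ω L1 × Gam (Equiv.Perm Ω) Ω W1).1⁻¹).left (a y o) =
        (y : Gam (Equiv.Perm Ω) Ω L1 × Gam (Equiv.Perm Ω) Ω W1).1.left (a y o) *
        (z : Gam (Equiv.Perm Ω) Ω L1 × Gam (Equiv.Perm Ω) Ω W1).1.left o *
        ((y : Gam (Equiv.Perm Ω) Ω L1 × Gam (Equiv.Perm Ω) Ω W1).1.left (a y o))⁻¹ := h1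
      rw [h1']
      exact hE1c.conj_eq ⟨_, coord_mem y.2 (a y o)⟩ ⟨_, coord_mem z.2 o⟩)
  -- the extension by zero
  let E : Gam (Equiv.Perm Ω) Ω L1 × Gam (Equiv.Perm Ω) Ω W1 → ℂ := fun x =>
    if hx : x ∈ BB Ω π1 p1 πW1 S1 then TI a f ⟨x, hx⟩ else 0
  have hEB : ∀ x (hx : x ∈ BB Ω π1 p1 πW1 S1), E x = TI a f ⟨x, hx⟩ := fun x hx =>
    dif_pos hx
  have hE0 : ∀ x (hx : x ∈ BB Ω π1 p1 πW1 S1), x.1.right = 1 →
      E x = ∏ o, E1 (x.1.left o, x.2.left o) := by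
    intro x hx h1
    rw [hEB x hx]
    exact hT1 ⟨x, hx⟩ h1
  refine ⟨E, ?_, ?_, ?_⟩
  · intro B _ _ h hh
    have h1 := hT.comp (h.codRestrict (BB Ω π1 p1 πW1 S1) fun b => hh b)
    have h2 : (fun b => E (h b)) = fun b => TI a f
        (h.codRestrict (BB Ω π1 p1 πW1 S1) (fun b => hh b) b) := by
      funext b
      exact hEB (h b) (hh b)
    rw [h2]
    exact h1
  · intro g hg hgo
    have hx : ((g, 1) : Gam (Equiv.Perm Ω) Ω L1 × Gam (Equiv.Perm Ω) Ω W1) ∈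
        BB Ω π1 p1 πW1 S1 := by
      refine ⟨?_, fun o => (hgo o).2⟩
      change gmap Ω (p1.comp π1) g = gmap Ω πW1 1
      rw [map_one]
      refine WDB.ext' hg fun o => ?_
      rw [WDB.gmap_left, WDB.one_left, MonoidHom.comp_apply, hp1k]
      exact (hgo o).1
    rw [hE0 _ hx hg]
    refine Finset.prod_congr rfl fun o _ => ?_
    change E1 (g.left o, 1) = _
    exact hE1F _ (hgo o).1 (hgo o).2
  · intro z b g w hgw hgS
    have hgw' : ((g, w) : Gam (Equiv.Perm Ω) Ω L1 × Gam (Equiv.Perm Ω) Ω W1) ∈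
        BB Ω π1 p1 πW1 S1 := ⟨hgw, hgS⟩
    -- the homomorphism from the central elements
    let jj : (Ω → π1.ker) × (Ω → πW1.ker) →*
        Gam (Equiv.Perm Ω) Ω L1 × Gam (Equiv.Perm Ω) Ω W1 :=
      { toFun := fun c => (gin (fun o => ((c.1 o : π1.ker) : L1)),
          gin (fun o => ((c.2 o : πW1.ker) : W1)))
        map_one' := rfl
        map_mul' := fun c c' => Prod.ext (WDB.gin_mul _ _) (WDB.gin_mul _ _) }
    have hj : ∀ c, jj c ∈ BB Ω π1 p1 πW1 S1 := by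
      intro c
      refine ⟨?_, ?_⟩
      · refine WDB.ext' rfl fun o => ?_
        change p1 (π1 (c.1 o : L1)) = πW1 (c.2 o : W1)
        rw [MonoidHom.mem_ker.mp (c.1 o).2, map_one, MonoidHom.mem_ker.mp (c.2 o).2]
      · intro o
        change π1 (c.1 o : L1) ∈ S1
        rw [MonoidHom.mem_ker.mp (c.1 o).2]
        exact S1.one_mem
    let lam : (Ω → π1.ker) × (Ω → πW1.ker) →* ℂˣ :=
      { toFun := fun c => (∏ o, μ1 (c.1 o)) * (∏ o, ν1 (c.2 o))⁻¹
        map_one' := by simp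
        map_mul' := by
          intro c c'
          simp only [Prod.fst_mul, Prod.snd_mul, Pi.mul_apply, map_mul, Finset.prod_mul_distrib,
            mul_inv]
          exact mul_mul_mul_comm _ _ _ _ }
    have hval : ∀ c : (Ω → π1.ker) × (Ω → πW1.ker), TI a f ⟨jj c, hj c⟩ =
        ((lam c : ℂˣ) : ℂ) * F 1 ^ Fintype.card Ω := by
      intro c
      rw [← hEB (jj c) (hj c), hE0 _ (hj c) rfl]
      have h1 : ∀ o, E1 ((jj c).1.left o, (jj c).2.left o) =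
          ((μ1 (c.1 o) : ℂˣ) : ℂ) * (((ν1 (c.2 o))⁻¹ : ℂˣ) : ℂ) * F 1 := by
        intro o
        change E1 (((c.1 o : π1.ker) : L1), ((c.2 o : πW1.ker) : W1)) = _
        have h2 := hE1ν (c.2 o) ((c.1 o : π1.ker) : L1) 1
        rw [mul_one, hE1F _ (by rw [MonoidHom.mem_ker.mp (c.1 o).2]; exact M1.one_mem)
          (by rw [MonoidHom.mem_ker.mp (c.1 o).2]; exact S1.one_mem)] at h2
        have h3 := hov (c.1 o) 1
        rw [mul_one] at h3
        rw [h3] at h2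
        rw [mul_right_comm, ← h2, mul_comm, ← mul_assoc, Units.inv_mul, one_mul]
      rw [Finset.prod_congr rfl fun o _ => h1 o, Finset.prod_mul_distrib, Finset.prod_mul_distrib,
        Finset.prod_const, Finset.card_univ]
      congr 1
      change _ = (((∏ o, μ1 (c.1 o)) * (∏ o, ν1 (c.2 o))⁻¹ : ℂˣ) : ℂ)
      rw [Units.val_mul, Units.coe_prod, ← Finset.prod_inv_distrib, Units.coe_prod]
    have hval1 : TI a f 1 = F 1 ^ Fintype.card Ω := by
      have h1 := hval 1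
      have h2 : lam 1 = 1 := map_one lam
      rw [h2, Units.val_one, one_mul] at h1
      exact h1
    have h := scal (jj.codRestrict (BB Ω π1 p1 πW1 S1) hj) lam (TI a f) hT
      (fun c => by rw [hval1]; exact hval c) (z, b) ⟨(g, w), hgw'⟩
    have h' : E (gin (fun o => (z o : L1)) * g, gin (fun o => (b o : W1)) * w) =
        ((lam (z, b) : ℂˣ) : ℂ) * E (g, w) := by
      rw [hEB (g, w) hgw']
      rw [← h]
      exact hEB _ _
    rw [h']
    change _ * ((((∏ o, μ1 (z o)) * (∏ o, ν1 (b o))⁻¹ : ℂˣ) : ℂ) * _) = _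
    rw [← mul_assoc, Units.val_mul, ← Units.coe_prod, ← Units.coe_prod, mul_comm
      (((∏ o, μ1 (z o) : ℂˣ)) : ℂ), ← mul_assoc, Units.mul_inv, one_mul]

end Pool.Agent.DPG
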