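import Mathlib
import Pool.Agent.DPG.StmtsA

/-!
# Conjugation of pairs
-/

namespace Pool.Agent.DPG

open Pool.Agent.DP Pool.Agent.DPC Pool.Agent.DPM Pool.Agent.DPN Pool.Agent.DPF
  Pool.Agent.Lib_helper13 Representation

namespace CJN

variable {L K : Type} [Group L] [Group K]

theorem mem_mapc {G : Type} [Group G] (g x : G) (S : Subgroup G) :
    x ∈ S.map (MulAut.conj g).toMonoidHom ↔ g⁻¹ * x * g ∈ S := by
  constructor
  · rintro ⟨y, hy, rfl⟩
    have h : g⁻¹ * ((MulAut.conj g).toMonoidHom y) * g = y := by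
      change g⁻¹ * (g * y * g⁻¹) * g = y
      group
    rw [h]
    exact hy
  · intro h
    refine ⟨g⁻¹ * x * g, h, ?_⟩
    change g * (g⁻¹ * x * g) * g⁻¹ = x
    group

theorem pi_conj (π : L →* K) (l y : L) : π (l⁻¹ * y * l) = (π l)⁻¹ * π y * π l := by
  rw [map_mul, map_mul, map_inv]

theorem mem_nm (M : Subgroup K) [hM : M.Normal] (g x : K) : g⁻¹ * x * g ∈ M ↔ x ∈ M := by
  constructor
  · intro h
    have h1 := hM.conj_mem _ h g
    have h2 : g * (g⁻¹ * x * g) * g⁻¹ = x := by group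
    rw [h2] at h1
    exact h1
  · intro h
    have h1 := hM.conj_mem _ h g⁻¹
    rw [inv_inv] at h1
    exact h1

theorem mem_AL (π : L →* K) (M : Subgroup K) [M.Normal] (l : L) (S : Subgroup K) (y : L) :
    y ∈ AL π M (S.map (MulAut.conj (π l)).toMonoidHom) ↔ l⁻¹ * y * l ∈ AL π M S := by
  rw [Subgroup.mem_comap, Subgroup.mem_inf, Subgroup.mem_comap, Subgroup.mem_inf, mem_mapc,
    pi_conj, mem_nm M (π l) (π y)]

/-- Conjugation between the inverse images. -/
def eAL (π : L →* K) (M : Subgroup K) [M.Normal] (l : L) (S : Subgroup K) :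
    AL π M (S.map (MulAut.conj (π l)).toMonoidHom) ≃* AL π M S where
  toFun y := ⟨l⁻¹ * y * l, (mem_AL π M l S y).mp y.2⟩
  invFun y := ⟨l * y * l⁻¹, (mem_AL π M l S _).mpr (by
    have h : l⁻¹ * (l * (y : L) * l⁻¹) * l = y := by group
    rw [h]
    exact y.2)⟩
  left_inv y := by
    apply Subtype.ext
    change l * (l⁻¹ * (y : L) * l) * l⁻¹ = y
    group
  right_inv y := by
    apply Subtype.ext
    change l⁻¹ * (l * (y : L) * l⁻¹) * l = y
    group
  map_mul' y z := by
    apply Subtype.ext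
    change l⁻¹ * ((y : L) * z) * l = (l⁻¹ * y * l) * (l⁻¹ * z * l)
    group

theorem mem_GS {H W : Type} [Group H] [Group W] (π : L →* K) (p : K →* H) (πW : W →* H)
    (l : L) (hl : p (π l) = 1) (S : Subgroup K) (y : L × W) :
    y ∈ GS π p πW (S.map (MulAut.conj (π l)).toMonoidHom) ↔
      (l⁻¹ * y.1 * l, y.2) ∈ GS π p πW S := by
  change (π y.1 ∈ S.map (MulAut.conj (π l)).toMonoidHom ∧ p (π y.1) = πW y.2) ↔
    (π (l⁻¹ * y.1 * l) ∈ S ∧ p (π (l⁻¹ * y.1 * l)) = πW y.2)
  rw [mem_mapc, pi_conj]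
  have h : p ((π l)⁻¹ * π y.1 * π l) = p (π y.1) := by
    rw [map_mul, map_mul, map_inv, hl]
    simp
  rw [h]

/-- Conjugation between the fibre products. -/
def eGS {H W : Type} [Group H] [Group W] (π : L →* K) (p : K →* H) (πW : W →* H)
    (l : L) (hl : p (π l) = 1) (S : Subgroup K) :
    GS π p πW (S.map (MulAut.conj (π l)).toMonoidHom) →* GS π p πW S where
  toFun y := ⟨(l⁻¹ * y.1.1 * l, y.1.2), (mem_GS π p πW l hl S y).mp y.2⟩
  map_one' := by
    apply Subtype.ext
    apply Prod.ext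
    · change l⁻¹ * 1 * l = 1
      group
    · rfl
  map_mul' y z := by
    apply Subtype.ext
    apply Prod.ext
    · change l⁻¹ * ((y : L × W).1 * (z : L × W).1) * l =
        (l⁻¹ * (y : L × W).1 * l) * (l⁻¹ * (z : L × W).1 * l)
      group
    · rfl

end CJN

open CJN

theorem CJN_thm : Stmt_CJN := by
  intro L K _ _ _ _ 𝔐 π hπ hc μ M _ l S f
  refine ⟨?_, ?_, ?_⟩
  · intro ω h
    refine ⟨⟨?_, ?_⟩, ?_, ?_, ?_, ?_⟩
    · exact h.irr.1.comp_mulEquiv (eAL π M l S)
    · intro x hx
      apply h.irr.2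
      intro hx'
      exact hx ((mem_AL π M l S x).mpr hx')
    · intro z x
      change f (l⁻¹ * (z * x) * l) = _ * f (l⁻¹ * x * l)
      have hz := Subgroup.mem_center_iff.mp (hc z.2) l⁻¹
      have h1 : l⁻¹ * ((z : L) * x) * l = (z : L) * (l⁻¹ * x * l) := by
        rw [← mul_assoc, ← mul_assoc, hz, mul_assoc, mul_assoc, ← mul_assoc]
        group
      rw [h1]
      exact h.ovl z _
    · intro g hg
      rw [← h.cn g hg]
      unfold cg
      have h1 : cjF l f 1 = f 1 := by
        change f (l⁻¹ * 1 * l) = f 1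
        rw [mul_one, inv_mul_cancel]
      rw [h1]
      have h2 : (∑ x, conjInd x g * cjF l f x) = ∑ x, conjInd x g * f x := by
        refine Fintype.sum_equiv (MulAut.conj l⁻¹).toEquiv _ _ ?_
        intro x
        have h3 : (MulAut.conj l⁻¹).toEquiv x = l⁻¹ * x * l := by
          change l⁻¹ * x * l⁻¹⁻¹ = _
          rw [inv_inv]
        rw [h3]
        have h4 : conjInd (l⁻¹ * x * l) g = conjInd x g := by
          have h5 := conjInd_conj l⁻¹ x g
          rw [inv_inv] at h5
          exact h5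
        rw [h4]
        rfl
      rw [h2]
    · rw [eq_top_iff]
      intro x _
      have h1 : (π l)⁻¹ * x * π l ∈ M ⊔ S := by
        rw [h.sj]
        exact Subgroup.mem_top _
      rw [Subgroup.mem_sup_of_normal_left] at h1
      obtain ⟨m, hm, s, hs, hms⟩ := h1
      have h2 : x = (π l * m * (π l)⁻¹) * (π l * s * (π l)⁻¹) := by
        have h3 : x = π l * ((π l)⁻¹ * x * π l) * (π l)⁻¹ := by group
        rw [h3, ← hms]
        group
      rw [h2]
      refine Subgroup.mul_mem_sup ?_ ?_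
      · exact Subgroup.Normal.conj_mem inferInstance _ hm _
      · rw [mem_mapc]
        have h3 : (π l)⁻¹ * (π l * s * (π l)⁻¹) * π l = s := by group
        rw [h3]
        exact hs
    · intro t ht x
      rw [mem_mapc, ← pi_conj] at ht
      have h1 := h.iv _ ht (l⁻¹ * x * l)
      change f (l⁻¹ * (t * x * t⁻¹) * l) = f (l⁻¹ * x * l)
      rw [← h1]
      congr 1
      group
  · intro ℓ n h
    exact (hasDefect_comp_equiv (eAL π M l S) (ψ := fun s : AL π M S => f s)).mpr h
  · intro H W _ _ p πW ν hl h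
    obtain ⟨E, hE1, hE2, hE3, hE4⟩ := h
    refine ⟨fun y => E (l⁻¹ * y.1 * l, y.2), ?_, ?_, ?_, ?_⟩
    · exact IsChr.comp hE1 (eGS π p πW l hl S)
    · intro x hx
      apply hE2
      intro hx'
      exact hx ((mem_GS π p πW l hl S x).mpr hx')
    · intro a ha ha'
      change E (l⁻¹ * a * l, 1) = f (l⁻¹ * a * l)
      apply hE3
      · rw [pi_conj, mem_nm M (π l) (π a)]
        exact ha
      · rw [pi_conj, ← mem_mapc]
        exact ha'
    · intro z t w
      exact hE4 z _ w

end Pool.Agent.DPG
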