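import Pool.Agent.DPG.StmtsB
import Pool.Agent.DPG.WDB
import Pool.Agent.DPG.CJN
import Pool.Agent.Lib_helper13.Toggle

/-!
# TOG: the chains which are not closed cancel
-/

namespace Pool.Agent.DPG

open Pool.Agent.DP Pool.Agent.DPC Pool.Agent.DPM Pool.Agent.DPN Pool.Agent.DPF
  Pool.Agent.DPK Pool.Agent.Lib_helper13 Representation
open Pool.Agent.Lib_helper13.Dade (pCore DadeHolds dadeSum)

namespace TOG

theorem sum_toggle' {α : Type*} [DecidableEq α] (C : Finset (Finset α))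
    (E : Finset α → α) (F : Finset α → ℂ)
    (h1 : ∀ σ ∈ C, E σ ∉ σ →
      insert (E σ) σ ∈ C ∧ E (insert (E σ) σ) = E σ ∧ F (insert (E σ) σ) = F σ)
    (h2 : ∀ σ ∈ C, E σ ∈ σ → σ.erase (E σ) ∈ C ∧ E (σ.erase (E σ)) = E σ) :
    ∑ σ ∈ C, (-1 : ℂ) ^ σ.card * F σ = 0 := by
  have h3 : ∀ σ ∈ C, E σ ∈ σ → F (σ.erase (E σ)) = F σ := by
    intro σ hσ h
    obtain ⟨h4, h5⟩ := h2 σ hσ h
    have h6 := (h1 _ h4 (by rw [h5]; exact Finset.notMem_erase _ _)).2.2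
    rw [h5, Finset.insert_erase h] at h6
    exact h6.symm
  apply Finset.sum_involution (fun σ _ => if E σ ∈ σ then σ.erase (E σ) else insert (E σ) σ)
  · intro σ hσ
    split_ifs with h
    · rw [h3 σ hσ h, Finset.card_erase_of_mem h]
      have h4 : 0 < σ.card := Finset.card_pos.mpr ⟨_, h⟩
      obtain ⟨n, hn⟩ : ∃ n, σ.card = n + 1 := ⟨σ.card - 1, by omega⟩
      rw [hn, Nat.add_sub_cancel, pow_succ]
      ring
    · rw [(h1 σ hσ h).2.2, Finset.card_insert_of_notMem h, pow_succ]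
      ring
  · intro σ hσ _
    split_ifs with h
    · intro h4
      have h5 := Finset.notMem_erase (E σ) σ
      rw [h4] at h5
      exact h5 h
    · intro h4
      apply h
      have h5 := Finset.mem_insert_self (E σ) σ
      rw [h4] at h5
      exact h5
  · intro σ hσ
    split_ifs with h
    · exact (h2 σ hσ h).1
    · exact (h1 σ hσ h).1
  · intro σ hσ
    by_cases h : E σ ∈ σ
    · simp only [h, if_true]
      rw [(h2 σ hσ h).2, if_neg (Finset.notMem_erase _ _), Finset.insert_erase h]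
    · simp only [h, if_false]
      rw [(h1 σ hσ h).2.1, if_pos (Finset.mem_insert_self _ _), Finset.erase_insert h]

/-- Cancellation for a closure operator on the subgroups of `N`. -/
theorem sum_cl {G : Type} [Group G] [Fintype G] [DecidableEq (Subgroup G)] (ℓ : ℕ)
    (N : Subgroup G) (c : Subgroup G → Subgroup G)
    (c1 : ∀ D ≤ N, D ≤ c D) (c2 : ∀ D, c D ≤ N) (c3 : ∀ D, c (c D) = c D)
    (c4 : ∀ D E, D ≤ E → c D ≤ c E) (c5 : ∀ D ≤ N, IsPGroup ℓ D → IsPGroup ℓ (c D))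
    (F : Finset (Subgroup G) → ℂ)
    (hF : ∀ σ, ChN ℓ N σ → ∀ D ∈ σ, F (insert (c D) σ) = F σ)
    (C0 C1 : Finset (Finset (Subgroup G))) (hC0 : ∀ σ, σ ∈ C0 ↔ ChN ℓ N σ)
    (hC1 : ∀ σ, σ ∈ C1 ↔ ChN ℓ N σ ∧ ∀ D ∈ σ, c D = D) :
    ∑ σ ∈ C0, (-1 : ℂ) ^ σ.card * F σ = ∑ σ ∈ C1, (-1 : ℂ) ^ σ.card * F σ := by
  classical
  have hCl : C1 = C0.filter (fun σ => ∀ D ∈ σ, c D = D) := by
    ext σ
    rw [hC1, Finset.mem_filter, hC0]
  rw [hCl, ← Finset.sum_filter_add_sum_filter_not C0 (fun σ => ∀ D ∈ σ, c D = D)]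
  rw [add_eq_left]
  obtain ⟨C, hC⟩ : ∃ C : Finset (Finset (Subgroup G)),
      C = C0.filter (fun σ => ¬ ∀ D ∈ σ, c D = D) := ⟨_, rfl⟩
  obtain ⟨T, hT⟩ : ∃ T : Finset (Subgroup G) → Subgroup G,
      ∀ σ, T σ = (σ.filter (fun D => c D ≠ D)).sup id := ⟨_, fun _ => rfl⟩
  rw [← hC]
  have hmem : ∀ σ ∈ C, T σ ∈ σ ∧ c (T σ) ≠ T σ := by
    intro σ hσ
    rw [hC, Finset.mem_filter, hC0] at hσ
    obtain ⟨h1, h2⟩ := hσ
    push Not at h2
    obtain ⟨D, hD, hD'⟩ := h2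
    have h3 : T σ ∈ σ.filter (fun D => c D ≠ D) := by
      rw [hT]
      apply sup_mem_of_chain
      · intro A hA B hB
        exact h1.1.total (Finset.mem_filter.mp hA).1 (Finset.mem_filter.mp hB).1
      · exact ⟨D, Finset.mem_filter.mpr ⟨hD, hD'⟩⟩
    rw [Finset.mem_filter] at h3
    exact h3
  have hins : ∀ σ, T (insert (c (T σ)) σ) = T σ := by
    intro σ
    rw [hT (insert (c (T σ)) σ), Finset.filter_insert, if_neg, ← hT]
    rw [not_not]
    exact c3 _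
  have hers : ∀ σ, T (σ.erase (c (T σ))) = T σ := by
    intro σ
    rw [hT (σ.erase (c (T σ))), Finset.filter_erase, Finset.erase_eq_of_notMem, ← hT]
    intro h
    exact (Finset.mem_filter.mp h).2 (c3 _)
  apply sum_toggle' C (fun σ => c (T σ)) F
  · intro σ hσ hn
    obtain ⟨h1, h2⟩ := hmem σ hσ
    have hσ' := hσ
    rw [hC, Finset.mem_filter, hC0] at hσ'
    have hTN : T σ ≤ N := hσ'.1.2 _ h1
    refine ⟨?_, by rw [hins], hF σ hσ'.1 _ h1⟩
    rw [hC, Finset.mem_filter, hC0]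
    refine ⟨⟨hσ'.1.1.insert ?_ ?_ ?_, ?_⟩, ?_⟩
    · exact c5 _ hTN (hσ'.1.1.1 _ h1).1
    · exact lt_of_lt_of_le (hσ'.1.1.1 _ h1).2 (c1 _ hTN)
    · intro D hD
      by_cases hDT : D ≤ T σ
      · left
        exact hDT.trans (c1 _ hTN)
      · right
        have h3 : T σ ≤ D := (hσ'.1.1.total hD h1).resolve_left hDT
        have h4 : c D = D := by
          by_contra h5
          apply hDT
          rw [hT]
          exact Finset.le_sup (f := id) (Finset.mem_filter.mpr ⟨hD, h5⟩)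
        rw [← h4]
        exact c4 _ _ h3
    · intro D hD
      rcases Finset.mem_insert.mp hD with rfl | hD
      · exact c2 _
      · exact hσ'.1.2 _ hD
    · intro h3
      exact h2 (h3 _ (Finset.mem_insert_of_mem h1))
  · intro σ hσ hm
    obtain ⟨h1, h2⟩ := hmem σ hσ
    have hσ' := hσ
    rw [hC, Finset.mem_filter, hC0] at hσ'
    refine ⟨?_, by rw [hers]⟩
    rw [hC, Finset.mem_filter, hC0]
    refine ⟨⟨hσ'.1.1.subset (Finset.erase_subset _ _), fun D hD =>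
      hσ'.1.2 _ (Finset.mem_of_mem_erase hD)⟩, ?_⟩
    intro h3
    exact h2 (h3 _ (Finset.mem_erase.mpr ⟨fun h4 => h2 h4.symm, h1⟩))

section Dat

variable {L K K1 Q Ω : Type} [Group L] [Group K] [Group K1] [Group Q] [Fintype Ω]
  {π : L →* K} {μ : π.ker →* ℂˣ} {φ : K →* Gam (Equiv.Perm Ω) Ω K1} {q : Q →* K1}
  {α : K1 →* MulAut Q} {ε : (Ω → Q) →* L} {μQ : q.ker →* ℂˣ}

theorem left_mul {a : K} (ha : (φ a).right = 1) (b : K) (o : Ω) :
    (φ (a * b)).left o = (φ a).left o * (φ b).left o := by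
  rw [map_mul, WDB.mul_left, ha]
  rfl

theorem left_inv {a : K} (ha : (φ a).right = 1) (o : Ω) :
    (φ a⁻¹).left o = ((φ a).left o)⁻¹ := by
  rw [map_inv, WDB.inv_left, ha]
  rfl

theorem right_mul {a b : K} (ha : (φ a).right = 1) (hb : (φ b).right = 1) :
    (φ (a * b)).right = 1 := by
  rw [map_mul, WDB.mul_right, ha, hb, one_mul]

theorem right_inv {a : K} (ha : (φ a).right = 1) : (φ a⁻¹).right = 1 := by
  rw [map_inv, WDB.inv_right, ha, inv_one]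

/-- The closure of a subgroup of `N`. -/
def cs (φ : K →* Gam (Equiv.Perm Ω) Ω K1) (N D : Subgroup K) : Subgroup K where
  carrier := {k | k ∈ N ∧ (φ k).right = 1 ∧
    ∀ o, ∃ d ∈ D, (φ d).right = 1 ∧ (φ d).left o = (φ k).left o}
  one_mem' := by
    refine ⟨N.one_mem, by rw [map_one]; rfl, fun o => ⟨1, D.one_mem, by rw [map_one]; rfl, rfl⟩⟩
  mul_mem' := by
    rintro a b ⟨ha1, ha2, ha3⟩ ⟨hb1, hb2, hb3⟩
    refine ⟨N.mul_mem ha1 hb1, right_mul ha2 hb2, fun o => ?_⟩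
    obtain ⟨d, hd, hd1, hd2⟩ := ha3 o
    obtain ⟨e, he, he1, he2⟩ := hb3 o
    exact ⟨d * e, D.mul_mem hd he, right_mul hd1 he1, by
      rw [left_mul hd1, left_mul ha2, hd2, he2]⟩
  inv_mem' := by
    rintro a ⟨ha1, ha2, ha3⟩
    refine ⟨N.inv_mem ha1, right_inv ha2, fun o => ?_⟩
    obtain ⟨d, hd, hd1, hd2⟩ := ha3 o
    exact ⟨d⁻¹, D.inv_mem hd, right_inv hd1, by rw [left_inv hd1, left_inv ha2, hd2]⟩

theorem mem_cs {N D : Subgroup K} {k : K} : k ∈ cs φ N D ↔ k ∈ N ∧ (φ k).right = 1 ∧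
    ∀ o, ∃ d ∈ D, (φ d).right = 1 ∧ (φ d).left o = (φ k).left o := Iff.rfl

theorem right_one (h : WD π μ φ q α ε μQ) {k : K} (hk : k ∈ NN' π ε) : (φ k).right = 1 :=
  ((WDB.mem_NN h).mp hk).1

theorem cs_le {N D : Subgroup K} : cs φ N D ≤ N := fun _ hk => hk.1

theorem le_cs (h : WD π μ φ q α ε μQ) {D : Subgroup K} (hD : D ≤ NN' π ε) :
    D ≤ cs φ (NN' π ε) D := fun d hd =>
  mem_cs.mpr ⟨hD hd, right_one h (hD hd), fun o => ⟨d, hd, right_one h (hD hd), rfl⟩⟩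

theorem cs_mono {N D E : Subgroup K} (hD : D ≤ E) : cs φ N D ≤ cs φ N E := by
  rintro k ⟨hk1, hk2, hk3⟩
  refine ⟨hk1, hk2, fun o => ?_⟩
  obtain ⟨d, hd, hd1, hd2⟩ := hk3 o
  exact ⟨d, hD hd, hd1, hd2⟩

theorem cs_cs {N D : Subgroup K} : cs φ N (cs φ N D) = cs φ N D := by
  apply le_antisymm
  · rintro k ⟨hk1, hk2, hk3⟩
    refine ⟨hk1, hk2, fun o => ?_⟩
    obtain ⟨d, hd, hd1, hd2⟩ := hk3 o
    obtain ⟨e, he, he1, he2⟩ := hd.2.2 o
    exact ⟨e, he, he1, he2.trans hd2⟩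
  · intro d hd
    exact ⟨hd.1, hd.2.1, fun o => ⟨d, hd, hd.2.1, rfl⟩⟩

theorem cs_conj {N D : Subgroup K} [hN : N.Normal] {k : K}
    (hk : ∀ x ∈ D, k * x * k⁻¹ ∈ D) {m : K} (hm : m ∈ cs φ N D) : k * m * k⁻¹ ∈ cs φ N D := by
  obtain ⟨hm1, hm2, hm3⟩ := hm
  have e1 : ∀ x : K, (φ x).right = 1 → (φ (k * x * k⁻¹)).right = 1 := by
    intro x hx
    rw [map_mul, map_mul, map_inv]
    exact WDB.conj_right _ _ hx
  have e2 : ∀ x : K, (φ x).right = 1 → ∀ o, (φ (k * x * k⁻¹)).left o =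
      (φ k).left o * (φ x).left ((φ k).right⁻¹ o) * ((φ k).left o)⁻¹ := by
    intro x hx o
    rw [map_mul, map_mul, map_inv]
    exact WDB.conj_left _ _ hx o
  refine ⟨hN.conj_mem _ hm1 _, e1 m hm2, fun o => ?_⟩
  obtain ⟨d, hd, hd1, hd2⟩ := hm3 ((φ k).right⁻¹ o)
  exact ⟨k * d * k⁻¹, hk d hd, e1 d hd1, by rw [e2 d hd1, e2 m hm2, hd2]⟩

theorem stb_insert {N : Subgroup K} [N.Normal] [DecidableEq (Subgroup K)]
    {σ : Finset (Subgroup K)} {D : Subgroup K} (hD : D ∈ σ) :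
    stb (insert (cs φ N D) σ) = stb σ := by
  ext k
  rw [mem_stb', mem_stb']
  constructor
  · intro h E hE
    exact h E (Finset.mem_insert_of_mem hE)
  · intro h E hE
    rcases Finset.mem_insert.mp hE with rfl | hE
    · intro x
      have h1 := h D hD
      constructor
      · intro hx
        exact cs_conj (fun y hy => (h1 y).mp hy) hx
      · intro hx
        have h2 : ∀ y ∈ D, k⁻¹ * y * k⁻¹⁻¹ ∈ D := by
          intro y hy
          rw [h1]
          have : k * (k⁻¹ * y * k⁻¹⁻¹) * k⁻¹ = y := by group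
          rw [this]
          exact hy
        have h3 := cs_conj (φ := φ) (N := N) (k := k⁻¹) h2 hx
        have h4 : k⁻¹ * (k * x * k⁻¹) * k⁻¹⁻¹ = x := by group
        rw [h4] at h3
        exact h3
    · exact h E hE

theorem right_pow {k : K} (hk : (φ k).right = 1) (n : ℕ) : (φ (k ^ n)).right = 1 := by
  induction n with
  | zero => rw [pow_zero, map_one]; rfl
  | succ n ih => rw [pow_succ]; exact right_mul ih hk

theorem left_pow {k : K} (hk : (φ k).right = 1) (n : ℕ) (o : Ω) :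
    (φ (k ^ n)).left o = ((φ k).left o) ^ n := by
  induction n with
  | zero => rw [pow_zero, pow_zero, map_one]; rfl
  | succ n ih => rw [pow_succ, pow_succ, left_mul (right_pow hk n), ih]

theorem isPGroup_cs (h : WD π μ φ q α ε μQ) {ℓ : ℕ} {N D : Subgroup K} (hD : IsPGroup ℓ D) :
    IsPGroup ℓ (cs φ N D) := by
  rintro ⟨k, hk1, hk2, hk3⟩
  have h1 : ∀ o, ∃ n : ℕ, ((φ k).left o) ^ ℓ ^ n = 1 := by
    intro o
    obtain ⟨d, hd, hd1, hd2⟩ := hk3 o
    obtain ⟨n, hn⟩ := hD ⟨d, hd⟩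
    have h2 : d ^ ℓ ^ n = 1 := congrArg Subtype.val hn
    refine ⟨n, ?_⟩
    rw [← hd2, ← left_pow hd1, h2, map_one]
    rfl
  choose n hn using h1
  refine ⟨∑ o, n o, Subtype.ext ?_⟩
  change k ^ ℓ ^ (∑ o, n o) = 1
  refine h.φi ?_
  rw [map_one]
  refine WDB.ext' (right_pow hk2 _) fun o => ?_
  rw [left_pow hk2]
  obtain ⟨m, hm⟩ := pow_dvd_pow ℓ (Finset.single_le_sum (f := n) (fun _ _ => Nat.zero_le _)
    (Finset.mem_univ o))
  rw [hm, pow_mul, hn o, one_pow]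
  rfl

theorem clo_iff (h : WD π μ φ q α ε μQ) {D : Subgroup K} (hD : D ≤ NN' π ε) :
    clN φ (NN' π ε) D ⊆ (D : Set K) ↔ cs φ (NN' π ε) D = D := by
  constructor
  · intro h1
    refine le_antisymm ?_ (le_cs h hD)
    intro k hk
    refine h1 ⟨hk.1, fun o => ?_⟩
    obtain ⟨d, hd, -, hd2⟩ := hk.2.2 o
    exact ⟨d, hd, hd2⟩
  · rintro h1 k ⟨hk1, hk2⟩
    have : k ∈ cs φ (NN' π ε) D := by
      refine ⟨hk1, right_one h hk1, fun o => ?_⟩
      obtain ⟨d, hd, hd2⟩ := hk2 o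
      exact ⟨d, hd, right_one h (hD hd), hd2⟩
    rw [h1] at this
    exact this

end Dat

end TOG

open TOG in
/-- TOG: the chains which are not closed cancel. -/
theorem TOG_thm : Stmt_TOG := by
  classical
  intro L K K1 Q Ω _ _ _ _ _ _ _ _ _ ℓ _ π μ φ q α ε μQ h G
  have hN := WDB.normal_NN h
  refine sum_cl ℓ (NN' π ε) (cs φ (NN' π ε)) (fun D hD => le_cs h hD) (fun D => cs_le)
    (fun D => cs_cs) (fun D E hDE => cs_mono hDE) (fun D _ hD => isPGroup_cs h hD)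
    (fun σ => G (stb σ)) (fun σ _ D hD => by rw [stb_insert hD]) _ _ ?_ ?_
  · intro σ
    rw [Finset.mem_filter, mem_Ch]
    exact ⟨fun h1 => h1.2, fun h1 => ⟨h1.1, h1⟩⟩
  · intro σ
    rw [Finset.mem_filter, mem_Ch]
    constructor
    · rintro ⟨-, h1, h2⟩
      exact ⟨h1, fun D hD => (clo_iff h (h1.2 D hD)).mp (h2 D hD)⟩
    · rintro ⟨h1, h2⟩
      exact ⟨h1.1, h1, fun D hD => (clo_iff h (h1.2 D hD)).mpr (h2 D hD)⟩

end Pool.Agent.DPG
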