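import Pool.Agent.DPG.StmtsB
import Pool.Agent.DPF.COV
import Pool.Agent.DPF.COVG

/-!
# TQA: the relations for the larger group
-/

set_option autoImplicit false

namespace Pool.Agent.DPG

open Pool.Agent.DP Pool.Agent.DPC Pool.Agent.DPM Pool.Agent.DPN Pool.Agent.DPF
  Pool.Agent.DPK Pool.Agent.Lib_helper13 Representation
open Pool.Agent.Lib_helper13.Dade (pCore DadeHolds dadeSum)

namespace TQA

/-- A function which vanishes outside `S` is the extension by zero of its restriction. -/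
theorem ext0_restrict {G : Type} [Group G] (S : Subgroup G) (f : G → ℂ)
    (hf : ∀ x, x ∉ S → f x = 0) : ext0 (fun x : S => f x) = f := by
  funext x
  by_cases hx : x ∈ S
  · rw [ext0_of_mem _ hx]
  · rw [ext0_of_not_mem _ hx, hf x hx]

/-- The extension `W` for the pairs of the chains of `M`. -/
theorem exists_cov (hBGA : Stmt_BGA) {L K H : Type} [Group L] [Fintype L] [Group K] [Fintype K]
    [Group H] [Fintype H] (𝔐 : Ideal (integralClosure ℤ ℂ)) (ℓ : ℕ) (π : L →* K)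
    (hπ : Function.Surjective π) (μ : π.ker →* ℂˣ) (M : Subgroup K) [M.Normal] (p : K →* H)
    (hp : Function.Surjective p) (hpM : ∀ k, p k = 1 ↔ k ∈ M)
    (ω : L → (integralClosure ℤ ℂ) ⧸ 𝔐) :
    ∃ (W : Type) (_ : Group W) (_ : Fintype W) (πW : W →* H)
      (ν : Subgroup K → (L → ℂ) → (πW.ker →* ℂˣ)), Function.Surjective πW ∧
      πW.ker ≤ Subgroup.center W ∧
      ∀ σ f, ChN ℓ M σ → BPs 𝔐 π μ M ω (stb σ) f →
        EDb π p M πW (stb σ) f (ν (stb σ) f) := by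
  classical
  obtain ⟨W, _, _, πW, ν, hs, hc, hE⟩ := (COV_thm COVG_thm) L K H 𝔐 π hπ μ M p hp hpM ω
  have key : ∀ (S : Subgroup K) (f : L → ℂ), ∃ ν' : πW.ker →* ℂˣ, ∀ σ, ChN ℓ M σ → stb σ = S →
      BPs 𝔐 π μ M ω S f → EDb π p M πW S f ν' := by
    intro S f
    by_cases h : ∃ σ, ChN ℓ M σ ∧ stb σ = S ∧ BPs 𝔐 π μ M ω S f
    · obtain ⟨σ, hσ, rfl, hf⟩ := h
      obtain ⟨τ, rfl⟩ : ∃ τ, mapCh M.subtype τ = σ := by
        apply exists_mapCh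
        intro D hD
        rw [Subgroup.range_subtype]
        exact hσ.2 D hD
      let θ : ↥(SL π M τ M) → ℂ := fun x => f x
      have hθ : ext0 θ = f := ext0_restrict _ f (fun x hx => hf.irr.2 x hx)
      have h1 := hBGA L K H W 𝔐 π hπ μ M p hp hpM ω τ θ
      have h2 : PrU 𝔐 π μ p M ω τ θ := by
        rw [h1.1, hθ]
        exact hf
      refine ⟨ν τ θ, fun _ _ _ _ => ?_⟩
      have h3 := (h1.2 πW hs (ν τ θ) h2).mp (hE τ θ h2)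
      rw [hθ] at h3
      exact h3
    · refine ⟨1, fun σ hσ hS hf => ?_⟩
      exact absurd ⟨σ, hσ, hS, hf⟩ h
  choose ν' hν' using key
  exact ⟨W, inferInstance, inferInstance, πW, ν', hs, hc,
    fun σ f hσ hf => hν' (stb σ) f σ hσ rfl hf⟩

/-- Extensions over a larger extension. -/
theorem ple (hPLE : Stmt_PLE) {L K H W W' : Type} [Group L] [Finite L] [Group K] [Group H]
    [Group W] [Finite W] [Group W'] [Finite W'] (π : L →* K) (p : K →* H) (M : Subgroup K)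
    (πW : W →* H) (h : W' →* W) (πW' : W' →* H) (hh : ∀ w, πW (h w) = πW' w) (S : Subgroup K)
    (f : L → ℂ) (ν : πW.ker →* ℂˣ) (hE : EDb π p M πW S f ν) (ν' : πW'.ker →* ℂˣ)
    (hν : ∀ (z : πW'.ker) (hz : h z ∈ πW.ker), ν' z = ν ⟨h z, hz⟩) :
    EDb π p M πW' S f ν' := by
  obtain rfl : πW.comp h = πW' := MonoidHom.ext hh
  exact hPLE L K H W W' π p M πW h S f ν hE ν' hν

/-- The product of the values at the coordinates. -/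
theorem exists_xi {V W1 H1 Ω : Type} [Group V] [Group W1] [Group H1] [Fintype Ω]
    (πW1 : W1 →* H1) (ψ : V →* Gam (Equiv.Perm Ω) Ω W1) (μ0 : V →* ℂˣ)
    (hr : ∀ v, (ψ v).right = 1) (hl : ∀ v o, (ψ v).left o ∈ πW1.ker) (ν1 : πW1.ker →* ℂˣ) :
    ∃ ξ : V →* ℂˣ, ∀ v, ξ v = μ0 v * ∏ o, ν1 ⟨(ψ v).left o, hl v o⟩ := by
  have hmul : ∀ (v v' : V) (o : Ω), (⟨(ψ (v * v')).left o, hl (v * v') o⟩ : πW1.ker) =
      ⟨(ψ v).left o, hl v o⟩ * ⟨(ψ v').left o, hl v' o⟩ := by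
    intro v v' o
    apply Subtype.ext
    change (ψ (v * v')).left o = (ψ v).left o * (ψ v').left o
    rw [map_mul]
    change (ψ v).left o * (ψ v').left ((ψ v).right⁻¹ • o) = _
    rw [hr v, inv_one, one_smul]
  refine ⟨μ0 * MonoidHom.mk' (fun v => ∏ o, ν1 ⟨(ψ v).left o, hl v o⟩) ?_, fun v => rfl⟩
  intro v v'
  rw [← Finset.prod_mul_distrib]
  refine Finset.prod_congr rfl fun o _ => ?_
  rw [hmul, map_mul]

/-- The elements above `1`. -/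
theorem psi_ker {K K1 H H1 W W1 Ω : Type} [Group K] [Group K1] [Group H] [Group H1] [Group W]
    [Group W1] (φ : K →* Gam (Equiv.Perm Ω) Ω K1) (p : K →* H) (p1 : K1 →* H1) (πW : W →* H)
    (πW1 : W1 →* H1) (ψ : W →* Gam (Equiv.Perm Ω) Ω W1)
    (h : ∀ w k, πW w = p k → gmap Ω πW1 (ψ w) = gmap Ω p1 (φ k)) (w : W) (hw : πW w = 1) :
    (ψ w).right = 1 ∧ ∀ o, (ψ w).left o ∈ πW1.ker := by
  have h1 := h w 1 (by rw [hw, map_one])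
  rw [map_one, map_one] at h1
  constructor
  · exact congrArg SemidirectProduct.right h1
  · intro o
    have h2 := congrArg SemidirectProduct.left h1
    exact congrFun h2 o

end TQA

open TQA in
/-- TQA: the relations for the larger group. -/
theorem TQA_thm (Cl : ∀ (Y : Type) [Group Y], Prop) (hRFE : Stmt_RFE) (hPOL : Stmt_POL)
    (hSYT : Stmt_SYT) (hLVT : Stmt_LVT Cl) (hEDK : Stmt_EDK) (hTQC : Stmt_TQC)
    (hTQB : Stmt_TQB) (hPLE : Stmt_PLE) (hCJN : Stmt_CJN) (hRSC : Stmt_RSC)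
    (hBGA : Stmt_BGA) : Stmt_TQA Cl := by
  classical
  intro L K H K1 Q Ω _ _ _ _ _ _ _ _ _ _ _ _ 𝔐 ℓ _ hmax hℓ π μ φ q α ε μQ wd M M1 mm hClK1
    hHR p hp hpM P hP ω hpos hstb hspp
  have := mm.nm
  have := mm.nm1
  obtain ⟨W0, _, _, πW0, ν0, hs0, hc0, hE0⟩ :=
    exists_cov hBGA 𝔐 ℓ π wd.πs μ M p hp hpM ω
  by_cases hex : ∃ (σ : Finset (Subgroup K)) (θ : L → ℂ), ChN ℓ (NN' π ε) σ ∧
      Clo φ (NN' π ε) σ ∧ BPs 𝔐 π μ M ω (stb σ) θ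
  swap
  · refine ⟨W0, inferInstance, inferInstance, πW0, ν0, hs0, hE0, ?_⟩
    intro a _ n
    refine Finset.sum_eq_zero fun σ hσ => ?_
    simp only [Finset.mem_filter] at hσ
    rw [Finset.sum_eq_zero, mul_zero]
    intro f hf
    simp only [Finset.mem_filter] at hf
    exact absurd ⟨σ, f, hσ.2.1, hσ.2.2, hf.2.1⟩ hex
  obtain ⟨σ0, θ0, hσ0, hσ0', hθ0⟩ := hex
  obtain ⟨L1, _, _, π1, μ1, ι, σr, Fr, ζ, θr, rf, hθr, hTP⟩ :=
    hRFE L K K1 Q Ω 𝔐 ℓ hmax hℓ π μ φ q α ε μQ wd M M1 mm ω hstb hspp σ0 θ0 hσ0 hσ0' hθ0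
  have : Fintype (K1 ⧸ M1) := Fintype.ofFinite _
  have hp1 : Function.Surjective (QuotientGroup.mk' M1) := QuotientGroup.mk'_surjective M1
  have hpM1 : ∀ k, QuotientGroup.mk' M1 k = 1 ↔ k ∈ M1 := fun k =>
    QuotientGroup.eq_one_iff k
  obtain ⟨P1, hP1⟩ := hSYT K K1 H Ω ℓ φ wd.sj M M1 mm.r mm.l p hp hpM P hP
  have hpos1 : Pos 𝔐 ℓ π1 μ1 M1 (cg 𝔐 Fr) :=
    hPOL L K K1 Q L1 Ω 𝔐 ℓ hmax hℓ π μ φ q α ε μQ π1 μ1 ι M M1 σr Fr ζ rf ω θr hTP hθr hstb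
      hspp hpos
  obtain ⟨W1, _, _, πW1, ν1, hs1, hc1, hE1, hinv1, hT1⟩ :=
    hLVT L1 K1 (K1 ⧸ M1) 𝔐 ℓ hmax hℓ π1 rf.ld.s rf.ld.c μ1 M1 (QuotientGroup.mk' M1) hp1 hpM1
      P1 hP1 hClK1 hHR (cg 𝔐 Fr) hpos1
  obtain ⟨W2, _, _, πW2, ψ2, μ02, hs2, ha2, hb2, hc2⟩ :=
    hEDK L K H K1 (K1 ⧸ M1) Q L1 W1 Ω 𝔐 ℓ hmax hℓ π μ φ q α ε μQ π1 μ1 ι M M1 σr Fr ζ rf p hp
      hpM (QuotientGroup.mk' M1) hp1 hpM1 πW1 hs1 hc1
  have hrsc := hRSC L K K1 Q L1 Ω 𝔐 ℓ hmax hℓ π μ φ q α ε μQ π1 μ1 ι M M1 σr Fr ζ rf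
  -- the extension
  have : Fintype ↥(fpr πW0 πW2) := Fintype.ofFinite _
  let h0 : ↥(fpr πW0 πW2) →* W0 := (MonoidHom.fst W0 W2).comp (fpr πW0 πW2).subtype
  let h2 : ↥(fpr πW0 πW2) →* W2 := (MonoidHom.snd W0 W2).comp (fpr πW0 πW2).subtype
  let πW : ↥(fpr πW0 πW2) →* H := πW0.comp h0
  have hh0 : ∀ w, πW0 (h0 w) = πW w := fun w => rfl
  have hh2 : ∀ w, πW2 (h2 w) = πW w := fun w => (mem_fpr.mp w.2).symm
  have hsW : Function.Surjective πW := by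
    intro y
    obtain ⟨w0, hw0⟩ := hs0 y
    obtain ⟨w2, hw2⟩ := hs2 y
    exact ⟨⟨(w0, w2), mem_fpr.mpr (hw0.trans hw2.symm)⟩, hw0⟩
  have hk0 : ∀ a : πW.ker, h0 (a : ↥(fpr πW0 πW2)) ∈ πW0.ker := by
    intro a
    rw [MonoidHom.mem_ker, hh0]
    exact MonoidHom.mem_ker.mp a.2
  have hk2 : ∀ a : πW.ker, h2 (a : ↥(fpr πW0 πW2)) ∈ πW2.ker := by
    intro a
    rw [MonoidHom.mem_ker, hh2]
    exact MonoidHom.mem_ker.mp a.2
  let j0 : πW.ker →* πW0.ker := (h0.comp πW.ker.subtype).codRestrict πW0.ker hk0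
  let j2 : πW.ker →* πW2.ker := (h2.comp πW.ker.subtype).codRestrict πW2.ker hk2
  let ψk : πW.ker →* Gam (Equiv.Perm Ω) Ω W1 := (ψ2.comp h2).comp πW.ker.subtype
  have hψk : ∀ a : πW.ker, (ψk a).right = 1 ∧ ∀ o, (ψk a).left o ∈ πW1.ker := by
    intro a
    exact psi_ker φ p (QuotientGroup.mk' M1) πW2 πW1 ψ2 ha2 (h2 a)
      (MonoidHom.mem_ker.mp (hk2 a))
  have hxi := exists_xi πW1 ψk (μ02.comp j2) (fun a => (hψk a).1) (fun a => (hψk a).2)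
  choose ξh hξh using hxi
  obtain ⟨ν, hν1, hν2⟩ := hTQC L K K1 Q L1 Ω 𝔐 ℓ hmax hℓ π μ φ q α ε μQ π1 μ1 ι M M1 σr Fr ζ rf
    (πW.ker →* ℂˣ) (fun S f => ξh (ν1 S f)) (fun S f => (ν0 S f).comp j0)
    (fun l hl S f => by rw [hinv1 l hl S f])
  refine ⟨↥(fpr πW0 πW2), inferInstance, inferInstance, πW, ν, hsW, ?_, ?_⟩
  · intro σ f hσ hf
    rcases hν2 (stb σ) f with ⟨σ', F, θ', n, hσ', hF, hTP', hS, hf'⟩ | h
    · rw [hS, hf', hν1 σ' F θ' n hσ' hF hTP']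
      obtain ⟨hch, hef, -, -⟩ := hrsc.2 σ' F hσ' hF
      obtain ⟨ν', hν'1, hν'2⟩ := hc2 σ' F (ν1 (stb σ') F) θ' hch hef hF.ovl
        (hE1 σ' F hσ' hF) hTP'
      have h3 : EDb π p M πW (stb (cstC φ (NN' π ε) σ')) θ' (ξh (ν1 (stb σ') F)) := by
        refine ple hPLE π p M πW2 h2 πW hh2 _ θ' ν' hν'2 _ ?_
        intro z hz
        rw [hξh, hν'1 ⟨h2 z, hz⟩ (hψk z).2]
        rfl
      refine (hCJN L K 𝔐 π wd.πs wd.πc μ M (ε n) _ θ').2.2 H _ p πW _ ?_ h3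
      rw [hpM]
      exact mm.le ⟨ε n, ⟨n, rfl⟩, rfl⟩
    · rw [h]
      refine ple hPLE π p M πW0 h0 πW hh0 _ f (ν0 (stb σ) f) (hE0 σ f hσ hf) _ ?_
      intro z hz
      rfl
  · refine hTQB L K H K1 (K1 ⧸ M1) Q L1 ↥(fpr πW0 πW2) W1 Ω 𝔐 ℓ hmax hℓ π μ φ q α ε μQ π1 μ1 ι
      M M1 σr Fr ζ rf ω θr hTP hθr hstb hspp p hp hpM P hP (QuotientGroup.mk' M1) hp1 hpM1 P1
      hP1 πW1 hs1 hc1 ν1 hT1 πW (ψ2.comp h2) (μ02.comp j2) hsW ?_ ?_ ν ?_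
    · intro w k hw
      exact ha2 (h2 w) k ((hh2 w).trans hw)
    · intro g k hg
      obtain ⟨w2, hw2, hw2'⟩ := hb2 g k hg
      obtain ⟨w0, hw0⟩ := hs0 (p k)
      exact ⟨⟨(w0, w2), mem_fpr.mpr (hw0.trans hw2.symm)⟩, hw0, hw2'⟩
    · intro σ F θ n hσ hF hTP' a h
      rw [hν1 σ F θ n hσ hF hTP']
      exact hξh (ν1 (stb σ) F) a

end Pool.Agent.DPG
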