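import Pool.Agent.DPG.TQBA
import Pool.Agent.DP.CLIFF

/-!
# The relations for the pairs of the closed chains
-/

namespace Pool.Agent.DPG

open Pool.Agent.DP Pool.Agent.DPC Pool.Agent.DPM Pool.Agent.DPN Pool.Agent.DPF
  Pool.Agent.Lib_helper13 Representation
open Pool.Agent.Lib_helper13.Dade (pCore DadeHolds dadeSum)

namespace TQB

/-- Pairs of a chain and a function. -/
abbrev IT (G L : Type) [Group G] : Type := (_ : Finset (Subgroup G)) × (L → ℂ)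

/-- Conjugation of pairs. -/
noncomputable def act {G L X : Type} [Group G] [Group L] (q : X → G) (ι : X → L) (x : X)
    (i : IT G L) : IT G L :=
  ⟨cjC (q x) i.1, cjF (ι x) i.2⟩

section PFs

variable {L K : Type} [Group L] [Fintype L] [Group K] [Fintype K]

open Classical in
/-- The finite set of the invariant pairs. -/
noncomputable def PF (𝔐 : Ideal (integralClosure ℤ ℂ)) (ℓ : ℕ) (π : L →* K)
    (μ : π.ker →* ℂˣ) (M : Subgroup K) (ω : L → (integralClosure ℤ ℂ) ⧸ 𝔐)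
    (C : Finset (Subgroup K) → Prop) : Finset (IT K L) :=
  ((Ch ℓ (⊥ : Subgroup K)).filter C).sigma
    (fun σ => (irrOn (AL π M (stb σ))).filter (fun θ => BPs 𝔐 π μ M ω (stb σ) θ))

theorem mem_PF {𝔐 : Ideal (integralClosure ℤ ℂ)} {ℓ : ℕ} {π : L →* K}
    {μ : π.ker →* ℂˣ} {M : Subgroup K} {ω : L → (integralClosure ℤ ℂ) ⧸ 𝔐}
    {C : Finset (Subgroup K) → Prop} (hC : ∀ σ, C σ → IsCh ℓ ⊥ σ) {c : IT K L} :
    c ∈ PF 𝔐 ℓ π μ M ω C ↔ C c.1 ∧ BPs 𝔐 π μ M ω (stb c.1) c.2 := by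
  classical
  rw [PF, Finset.mem_sigma, Finset.mem_filter, Finset.mem_filter, mem_Ch, CLIFF.mem_irrOn]
  constructor
  · rintro ⟨⟨_, h1⟩, _, h2⟩
    exact ⟨h1, h2⟩
  · rintro ⟨h1, h2⟩
    exact ⟨⟨hC _ h1, h1⟩, h2.irr, h2⟩

open Classical in
/-- The summand of a pair. -/
noncomputable def GG (ℓ : ℕ) (π : L →* K) (M : Subgroup K) (v : Subgroup K → (L → ℂ) → ℂ)
    (n : ℕ) (k : ℕ) (S : Subgroup K) (θ : L → ℂ) : ℂ :=
  (-1 : ℂ) ^ k * (if HasDefect ℓ (fun s : AL π M S => θ s) n then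
    (Nat.card ↥(M ⊓ S) : ℂ) * v S θ else 0)

theorem T2X_iff {H W : Type} [Group H] [Group W] (𝔐 : Ideal (integralClosure ℤ ℂ)) (ℓ : ℕ)
    (π : L →* K) (μ : π.ker →* ℂˣ) (M : Subgroup K) (ω : L → (integralClosure ℤ ℂ) ⧸ 𝔐)
    (πW : W →* H) (P : Subgroup H) (C : Finset (Subgroup K) → Prop)
    (ν : Subgroup K → (L → ℂ) → (πW.ker →* ℂˣ)) :
    T2X 𝔐 ℓ π μ M ω πW P C ν ↔ ∀ a : πW.ker, InS πW P (a : W) → ∀ n : ℕ,
      ∑ c ∈ PF 𝔐 ℓ π μ M ω C, GG ℓ π M (fun S f => ((ν S f a : ℂˣ) : ℂ)) n c.1.card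
        (stb c.1) c.2 = 0 := by
  classical
  unfold T2X
  refine forall_congr' fun a => imp_congr_right fun _ => forall_congr' fun n => ?_
  rw [PF, Finset.sum_sigma]
  refine Eq.congr_left (Finset.sum_congr rfl fun σ _ => ?_)
  have h : ∀ f : L → ℂ, GG ℓ π M (fun S f => ((ν S f a : ℂˣ) : ℂ)) n σ.card (stb σ) f =
      (-1 : ℂ) ^ σ.card * (if HasDefect ℓ (fun s : AL π M (stb σ) => f s) n then
        (Nat.card ↥(M ⊓ stb σ) : ℂ) * ((ν (stb σ) f a : ℂˣ) : ℂ) else 0) := fun f => rfl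
  simp only [h]
  rw [← Finset.filter_filter, Finset.sum_filter, Finset.mul_sum]

end PFs

section PsiDef

variable {L K L1 K1 : Type} [Group L] [Group K] [Group L1] [Group K1]

open Classical in
/-- The pair of `L` which belongs to a pair of `L1`. -/
noncomputable def Psi (R : IT K1 L1 → (L → ℂ) → Prop)
    (Φ : Finset (Subgroup K1) → Finset (Subgroup K)) (i : IT K1 L1) : IT K L :=
  ⟨Φ i.1, if h : ∃ θ, R i θ then h.choose else 0⟩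

theorem Psi_spec (R : IT K1 L1 → (L → ℂ) → Prop)
    (Φ : Finset (Subgroup K1) → Finset (Subgroup K)) {i : IT K1 L1} (h : ∃ θ, R i θ) :
    R i (Psi R Φ i).2 := by
  classical
  change R i (if h : ∃ θ, R i θ then h.choose else 0)
  rw [dif_pos h]
  exact h.choose_spec

end PsiDef

section Conj

variable {L K : Type} [Group L] [Group K]

theorem map_map_conj (S : Subgroup K) (g h : K) :
    (S.map (MulAut.conj h).toMonoidHom).map (MulAut.conj g).toMonoidHom =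
      S.map (MulAut.conj (g * h)).toMonoidHom := by
  ext x
  rw [CJN.mem_mapc, CJN.mem_mapc, CJN.mem_mapc]
  have h1 : h⁻¹ * (g⁻¹ * x * g) * h = (g * h)⁻¹ * x * (g * h) := by group
  rw [h1]

theorem defect_iff {π : L →* K} {M : Subgroup K} {ℓ n : ℕ}
    (hc : ∀ (l : L) (S : Subgroup K) (f : L → ℂ),
      HasDefect ℓ (fun s : AL π M S => f s) n →
      HasDefect ℓ (fun s : AL π M (S.map (MulAut.conj (π l)).toMonoidHom) => cjF l f s) n)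
    (l : L) (S : Subgroup K) (f : L → ℂ) :
    HasDefect ℓ (fun s : AL π M (S.map (MulAut.conj (π l)).toMonoidHom) => cjF l f s) n ↔
      HasDefect ℓ (fun s : AL π M S => f s) n := by
  constructor
  · intro h
    have h1 := hc l⁻¹ _ _ h
    rw [map_map_conj, ← cjF_mul, ← map_mul, inv_mul_cancel, map_one, map_conj_one,
      cjF_one] at h1
    exact h1
  · exact hc l S f

theorem GG_conj {π : L →* K} {M : Subgroup K} [M.Normal] {ℓ n : ℕ}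
    (hc : ∀ (l : L) (S : Subgroup K) (f : L → ℂ),
      HasDefect ℓ (fun s : AL π M S => f s) n →
      HasDefect ℓ (fun s : AL π M (S.map (MulAut.conj (π l)).toMonoidHom) => cjF l f s) n)
    (v : Subgroup K → (L → ℂ) → ℂ) (k : ℕ) (l : L) (S : Subgroup K) (f : L → ℂ)
    (hv : v (S.map (MulAut.conj (π l)).toMonoidHom) (cjF l f) = v S f) :
    GG ℓ π M v n k (S.map (MulAut.conj (π l)).toMonoidHom) (cjF l f) = GG ℓ π M v n k S f := by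
  classical
  unfold GG
  rw [hv, card_conj]
  by_cases h : HasDefect ℓ (fun s : AL π M S => f s) n
  · rw [if_pos h, if_pos ((defect_iff hc l S f).mpr h)]
  · rw [if_neg h, if_neg (fun h' => h ((defect_iff hc l S f).mp h'))]

end Conj

end TQB

theorem TQB_thm (h1 : Stmt_UPP) (h2 : Stmt_DWN) (h3 : Stmt_RSC) (h4 : Stmt_PSI)
    (h5 : Stmt_CJN) (h6 : Stmt_CJS) (h7 : Stmt_CNO) (h8 : Stmt_DFT) (h9 : Stmt_STO)
    (h10 : Stmt_CST) : Stmt_TQB := by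
  classical
  intro L K H K1 H1 Q L1 W W1 Ω _ _ _ _ _ _ _ _ _ _ _ _ _ _ _ _ _ _ _ _ 𝔐 ℓ _ h𝔐 hℓ𝔐 π μ
    φ q α ε μQ π1 μ1 ι M M1 σr Fr ζ hRF ω θr hTPr hBr hSTB hSPP p hp hpk P hP p1 hp1 hp1k
    P1 hP1 πW1 hW1 hcW1 ν1 hT2X πW ψ μ0 hW hψ1 hψ2 ν hν
  have := hRF.mm.nm
  have := hRF.mm.nm1
  obtain ⟨hNn, hqn, hCST⟩ := h10 L K K1 Q Ω ℓ π μ φ q α ε μQ hRF.wd
  have := hNn
  have := hqn
  have hNr : ∀ k ∈ NN' π ε, (φ k).right = 1 := by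
    rintro _ ⟨_, ⟨n, rfl⟩, rfl⟩
    rw [hRF.wd.φε]
    rfl
  have hεN : ∀ n : Ω → Q, π (ε n) ∈ NN' π ε := fun n => ⟨ε n, ⟨n, rfl⟩, rfl⟩
  rw [TQB.T2X_iff] at hT2X ⊢
  intro a ha n0
  have hkψ : ∀ z ∈ πW.ker, ∀ o, (ψ z).left o ∈ πW1.ker :=
    fun z hz o => TQB.psi_left hψ1 hz o
  obtain ⟨a1, ha1, hχ⟩ := h9 W H W1 H1 Ω ℓ πW hW P hP πW1 hW1 hcW1 P1 hP1 ψ
    (TQB.psi_tr hW hψ1 hRF.wd.tr) (TQB.psi_sj hp1 hW1 hψ2 hRF.wd.sj)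
    (fun z hz => TQB.psi_right hψ1 hz) hkψ a ha
  obtain ⟨_, hrsc⟩ := h3 L K K1 Q L1 Ω 𝔐 ℓ h𝔐 hℓ𝔐 π μ φ q α ε μQ π1 μ1 ι M M1 σr Fr ζ hRF
  have hCJ1 := fun (l : L1) (S : Subgroup K1) (f : L1 → ℂ) =>
    h5 L1 K1 𝔐 π1 hRF.ld.s hRF.ld.c μ1 M1 l S f
  have hCJ := fun (l : L) (S : Subgroup K) (f : L → ℂ) =>
    h5 L K 𝔐 π hRF.wd.πs hRF.wd.πc μ M l S f
  have hCS1 := fun (g h : K1) (σ : Finset (Subgroup K1)) => h6 K1 ℓ M1 g h σ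
  have hCS := fun (g h : K) (σ : Finset (Subgroup K)) => h6 K ℓ (NN' π ε) g h σ
  -- the finite sets
  have hmD : ∀ i : TQB.IT K1 L1, i ∈ TQB.PF 𝔐 ℓ π1 μ1 M1 (cg 𝔐 Fr) (ChN ℓ M1) ↔
      ChN ℓ M1 i.1 ∧ BPs 𝔐 π1 μ1 M1 (cg 𝔐 Fr) (stb i.1) i.2 :=
    fun i => TQB.mem_PF (fun σ h => h.1)
  have hmC : ∀ c : TQB.IT K L, c ∈ TQB.PF 𝔐 ℓ π μ M ω
      (fun σ => ChN ℓ (NN' π ε) σ ∧ Clo φ (NN' π ε) σ) ↔
      (ChN ℓ (NN' π ε) c.1 ∧ Clo φ (NN' π ε) c.1) ∧ BPs 𝔐 π μ M ω (stb c.1) c.2 :=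
    fun c => TQB.mem_PF (fun σ h => h.1.1)
  set D := TQB.PF 𝔐 ℓ π1 μ1 M1 (cg 𝔐 Fr) (ChN ℓ M1) with hD
  set C := TQB.PF 𝔐 ℓ π μ M ω (fun σ => ChN ℓ (NN' π ε) σ ∧ Clo φ (NN' π ε) σ) with hC
  -- the map
  let R : TQB.IT K1 L1 → (L → ℂ) → Prop := fun i θ => TP π φ π1 M i.2 ζ θ ∧
    BPs 𝔐 π μ M ω (stb (cstC φ (NN' π ε) i.1)) θ
  have hR : ∀ i ∈ D, R i (TQB.Psi R (cstC φ (NN' π ε)) i).2 := by
    intro i hi
    apply TQB.Psi_spec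
    obtain ⟨hi1, hi2⟩ := (hmD i).mp hi
    exact h1 L K K1 Q L1 Ω 𝔐 ℓ h𝔐 hℓ𝔐 π μ φ q α ε μQ π1 μ1 ι M M1 σr Fr ζ hRF ω θr hTPr hBr
      i.1 i.2 hi1 hi2
  have hΨ1 : ∀ i, (TQB.Psi R (cstC φ (NN' π ε)) i).1 = cstC φ (NN' π ε) i.1 := fun i => rfl
  set Ψ := TQB.Psi R (cstC φ (NN' π ε)) with hΨ
  have hdat : ∀ i ∈ D, ChN ℓ q.range i.1 ∧ EF π1 q.range M1 (stb i.1) i.2 ∧
      q.range ⊔ stb i.1 = ⊤ ∧
      ∀ u : L1 → ℤ, CIv (q.range.comap π1) u → sc 𝔐 i.2 u = sc 𝔐 Fr u := by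
    intro i hi
    obtain ⟨hi1, hi2⟩ := (hmD i).mp hi
    exact hrsc i.1 i.2 hi1 hi2
  have hst1 : ∀ (x : Q) (σ : Finset (Subgroup K1)), stb (cjC (q x) σ) =
      (stb σ).map (MulAut.conj (π1 (ι x))).toMonoidHom := by
    intro x σ
    rw [hRF.ld.πι]
    exact (hCS1 (q x) 1 σ).2.2.2.1
  have hst : ∀ (n : Ω → Q) (σ : Finset (Subgroup K)), stb (cjC (π (ε n)) σ) =
      (stb σ).map (MulAut.conj (π (ε n))).toMonoidHom :=
    fun n σ => (hCS (π (ε n)) 1 σ).2.2.2.1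
  -- the actions
  have k1 : ∀ i : TQB.IT K1 L1, TQB.act q ι 1 i = i := by
    rintro ⟨σ, F⟩
    change (⟨cjC (q 1) σ, cjF (ι 1) F⟩ : TQB.IT K1 L1) = ⟨σ, F⟩
    rw [map_one, map_one, (hCS1 1 1 σ).1, TQB.cjF_one]
  have k2 : ∀ (g h : Q) (i : TQB.IT K1 L1), TQB.act q ι (g * h) i =
      TQB.act q ι g (TQB.act q ι h i) := by
    rintro g h ⟨σ, F⟩
    change (⟨cjC (q (g * h)) σ, cjF (ι (g * h)) F⟩ : TQB.IT K1 L1) =
      ⟨cjC (q g) (cjC (q h) σ), cjF (ι g) (cjF (ι h) F)⟩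
    rw [map_mul, map_mul, (hCS1 (q g) (q h) σ).2.1, TQB.cjF_mul]
  have k3 : ∀ c : TQB.IT K L, TQB.act (fun n : Ω → Q => π (ε n)) ε 1 c = c := by
    rintro ⟨σ, F⟩
    change (⟨cjC (π (ε 1)) σ, cjF (ε 1) F⟩ : TQB.IT K L) = ⟨σ, F⟩
    rw [map_one, map_one, (hCS 1 1 σ).1, TQB.cjF_one]
  have k4 : ∀ (n m : Ω → Q) (c : TQB.IT K L), TQB.act (fun n : Ω → Q => π (ε n)) ε (n * m) c =
      TQB.act (fun n : Ω → Q => π (ε n)) ε n (TQB.act (fun n : Ω → Q => π (ε n)) ε m c) := by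
    rintro n m ⟨σ, F⟩
    change (⟨cjC (π (ε (n * m))) σ, cjF (ε (n * m)) F⟩ : TQB.IT K L) =
      ⟨cjC (π (ε n)) (cjC (π (ε m)) σ), cjF (ε n) (cjF (ε m) F)⟩
    rw [map_mul, map_mul, (hCS (π (ε n)) (π (ε m)) σ).2.1, TQB.cjF_mul]
  have k5 : ∀ g, ∀ i ∈ D, TQB.act q ι g i ∈ D := by
    rintro g ⟨σ, F⟩ hi
    rw [hmD] at hi ⊢
    obtain ⟨hi1, hi2⟩ := hi
    refine ⟨(hCS1 (q g) 1 σ).2.2.2.2.1 hi1, ?_⟩
    change BPs 𝔐 π1 μ1 M1 (cg 𝔐 Fr) (stb (cjC (q g) σ)) (cjF (ι g) F)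
    rw [hst1]
    exact (hCJ1 (ι g) (stb σ) F).1 _ hi2
  have k6 : ∀ i ∈ D, ∀ n, TQB.act (fun n : Ω → Q => π (ε n)) ε n (Ψ i) ∈ C := by
    intro i hi n
    rw [hmC]
    obtain ⟨hc1, hc2, _⟩ := hCST i.1 (hdat i hi).1
    refine ⟨⟨(hCS (π (ε n)) 1 _).2.2.2.2.1 hc1, ?_⟩, ?_⟩
    · exact TQB.clo_conj hNn hNr (hεN n) hc1.2 hc2
    · change BPs 𝔐 π μ M ω (stb (cjC (π (ε n)) (cstC φ (NN' π ε) i.1))) (cjF (ε n) (Ψ i).2)
      rw [hst]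
      exact (hCJ (ε n) _ _).1 _ (hR i hi).2
  have k7 : ∀ c ∈ C, ∃ i ∈ D, ∃ n, c = TQB.act (fun n : Ω → Q => π (ε n)) ε n (Ψ i) := by
    rintro ⟨σ, θ⟩ hc
    rw [hmC] at hc
    obtain ⟨⟨hc1, hc2⟩, hc3⟩ := hc
    obtain ⟨n, σ1, F1, hch, hbp, hσ, htp⟩ := h2 L K K1 Q L1 Ω 𝔐 ℓ h𝔐 hℓ𝔐 π μ φ q α ε μQ π1
      μ1 ι M M1 σr Fr ζ hRF ω θr hTPr hBr hSTB hSPP σ θ hc1 hc2 hc3
    have hi : (⟨σ1, F1⟩ : TQB.IT K1 L1) ∈ D := (hmD _).mpr ⟨hch, hbp⟩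
    refine ⟨⟨σ1, F1⟩, hi, n, ?_⟩
    have h11 := TQB.tp_unique hRF.ld.s (hR _ hi).1 htp
    change (⟨σ, θ⟩ : TQB.IT K L) = ⟨cjC (π (ε n)) (cstC φ (NN' π ε) σ1),
      cjF (ε n) (Ψ ⟨σ1, F1⟩).2⟩
    rw [h11, ← hσ, ← TQB.cjF_mul, mul_inv_cancel, TQB.cjF_one]
  have k8 : ∀ i ∈ D, ∀ i' ∈ D, ∀ n, TQB.act (fun n : Ω → Q => π (ε n)) ε n (Ψ i) = Ψ i' ↔
      ∀ o, TQB.act q ι (n o) i = i' := by
    rintro ⟨σ, F⟩ hi ⟨σ', F'⟩ hi' n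
    have hd := hdat _ hi
    have hd' := hdat _ hi'
    have hps := (h4 L K K1 Q L1 Ω 𝔐 ℓ h𝔐 hℓ𝔐 π μ φ q α ε μQ π1 μ1 ι M M1 σr Fr ζ hRF σ σ' F
      F' _ _ hd.1 hd'.1 hd.2.2.1 hd'.2.2.1 hd.2.1 hd'.2.1 ((hmD _).mp hi).2.ovl
      ((hmD _).mp hi').2.ovl hd.2.2.2 hd'.2.2.2 (hR _ hi).1 (hR _ hi').1 n).1
    have e1 : (TQB.act (fun n : Ω → Q => π (ε n)) ε n (Ψ ⟨σ, F⟩) = Ψ ⟨σ', F'⟩) ↔
        (cjC (π (ε n)) (cstC φ (NN' π ε) σ) = cstC φ (NN' π ε) σ' ∧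
          cjF (ε n) (Ψ ⟨σ, F⟩).2 = (Ψ ⟨σ', F'⟩).2) := by
      constructor
      · intro h
        exact ⟨congrArg Sigma.fst h, congrArg (fun c : TQB.IT K L => c.2) h⟩
      · rintro ⟨h, h'⟩
        exact Sigma.ext h (heq_of_eq h')
    have e2 : (∀ o, TQB.act q ι (n o) (⟨σ, F⟩ : TQB.IT K1 L1) = ⟨σ', F'⟩) ↔
        ∀ o, cjC (q (n o)) σ = σ' ∧ cjF (ι (n o)) F = F' := by
      refine forall_congr' fun o => ⟨fun h => ?_, fun h => ?_⟩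
      · exact ⟨congrArg Sigma.fst h, congrArg (fun c : TQB.IT K1 L1 => c.2) h⟩
      · exact Sigma.ext h.1 (heq_of_eq h.2)
    rw [e1, e2]
    exact hps
  -- the values
  have hval : ∀ i ∈ D, ∀ n : Ω → Q,
      ν ((stb (cstC φ (NN' π ε) i.1)).map (MulAut.conj (π (ε n))).toMonoidHom)
        (cjF (ε n) (Ψ i).2) a = μ0 a * ν1 (stb i.1) i.2 a1 := by
    intro i hi n
    rw [hν i.1 i.2 (Ψ i).2 n ((hmD i).mp hi).1 ((hmD i).mp hi).2 (hR i hi).1 a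
      (hkψ _ a.2), hχ]
  have hdc : ∀ (l : L) (S : Subgroup K) (f : L → ℂ),
      HasDefect ℓ (fun s : AL π M S => f s) n0 →
      HasDefect ℓ (fun s : AL π M (S.map (MulAut.conj (π l)).toMonoidHom) => cjF l f s) n0 :=
    fun l S f => (hCJ l S f).2.1 ℓ n0
  have k9 : ∀ c ∈ C, ∀ n,
      TQB.GG ℓ π M (fun S f => ((ν S f a : ℂˣ) : ℂ)) n0
        (TQB.act (fun n : Ω → Q => π (ε n)) ε n c).1.card
        (stb (TQB.act (fun n : Ω → Q => π (ε n)) ε n c).1)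
        (TQB.act (fun n : Ω → Q => π (ε n)) ε n c).2 =
      TQB.GG ℓ π M (fun S f => ((ν S f a : ℂˣ) : ℂ)) n0 c.1.card (stb c.1) c.2 := by
    intro c hc n
    obtain ⟨i, hi, m, rfl⟩ := k7 c hc
    set θ := (Ψ i).2 with hθ
    have e1 : (TQB.act (fun n : Ω → Q => π (ε n)) ε m (Ψ i)).1 =
      cjC (π (ε m)) (cstC φ (NN' π ε) i.1) := rfl
    have e2 : (TQB.act (fun n : Ω → Q => π (ε n)) ε m (Ψ i)).2 = cjF (ε m) θ := rfl
    have e3 : (TQB.act (fun n : Ω → Q => π (ε n)) ε n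
      (TQB.act (fun n : Ω → Q => π (ε n)) ε m (Ψ i))).1 =
      cjC (π (ε n)) (cjC (π (ε m)) (cstC φ (NN' π ε) i.1)) := rfl
    have e4 : (TQB.act (fun n : Ω → Q => π (ε n)) ε n
      (TQB.act (fun n : Ω → Q => π (ε n)) ε m (Ψ i))).2 = cjF (ε n) (cjF (ε m) θ) := rfl
    rw [e1, e2, e3, e4, (hCS (π (ε n)) 1 _).2.2.1, hst n]
    apply TQB.GG_conj hdc
    change ((ν _ _ a : ℂˣ) : ℂ) = ((ν _ _ a : ℂˣ) : ℂ)
    rw [hst, TQB.map_map_conj, ← TQB.cjF_mul, ← map_mul, ← map_mul, hval i hi, hval i hi]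
  have k10 : ∀ i ∈ D, Nat.card ↥((stb i.1).comap q) =
      Nat.card {g : Q // TQB.act q ι g i = i} := by
    rintro ⟨σ, F⟩ hi
    obtain ⟨hi1, hi2⟩ := (hmD _).mp hi
    refine Nat.card_congr (Equiv.subtypeEquivRight fun g => ?_)
    constructor
    · intro hg
      have hg' : q g ∈ stb σ := hg
      apply Sigma.ext
      · exact (hCS1 (q g) 1 σ).2.2.2.2.2.1 hg'
      · apply heq_of_eq
        funext x
        have hq : π1 (ι g)⁻¹ ∈ stb σ := by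
          rw [map_inv, hRF.ld.πι]
          exact (stb σ).inv_mem hg'
        have h12 := hi2.iv (ι g)⁻¹ hq x
        rw [inv_inv] at h12
        exact h12
    · intro hg
      have h12 : cjC (q g) σ = σ := congrArg Sigma.fst hg
      exact (hCS1 (q g) 1 σ).2.2.2.2.2.2 hi1.1 h12
  have hsum := h7 Q (TQB.IT K1 L1) (TQB.IT K L) Ω (TQB.act q ι)
    (TQB.act (fun n : Ω → Q => π (ε n)) ε) k1 k2 k3 k4 D C Ψ k5 k6 k7 k8
    (fun c => TQB.GG ℓ π M (fun S f => ((ν S f a : ℂˣ) : ℂ)) n0 c.1.card (stb c.1) c.2)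
    k9 (fun i => Nat.card ↥((stb i.1).comap q)) k10
  rw [hsum]
  clear hsum k1 k2 k3 k4 k5 k6 k7 k8 k9 k10
  -- the orders
  have hnum : ∀ i ∈ D, ((Nat.card Q : ℂ) / (Nat.card ↥((stb i.1).comap q) : ℂ)) ^
      (Fintype.card Ω - 1) * (Nat.card ↥(M ⊓ stb (cstC φ (NN' π ε) i.1)) : ℂ) =
      (Nat.card M : ℂ) / (Nat.card M1 : ℂ) * (Nat.card ↥(M1 ⊓ stb i.1) : ℂ) := by
    intro i hi
    have hd := hdat i hi
    have hb := ((hmD i).mp hi).2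
    have hf := (h8 L K K1 Q L1 Ω ℓ π μ φ q α ε μQ π1 μ1 ι M M1 hRF.wd hRF.ld hRF.mm i.1 i.2
      hd.1 hd.2.1 hb.ovl ζ hRF.zt (Ψ i).2 (hR i hi).1).1
    refine TQB.numer (r := Nat.card q.range) (rs := Nat.card ↥(q.range ⊓ stb i.1))
      (kq := Nat.card q.ker) Fintype.card_pos Nat.card_pos Nat.card_pos Nat.card_pos
      Nat.card_pos hf ?_ ?_ ?_
    · have h13 := EXPB.card_comap q ⊤
      rw [Subgroup.comap_top, top_inf_eq, Subgroup.card_top] at h13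
      exact h13
    · rw [EXPB.card_comap q (stb i.1), inf_comm]
    · exact TQB.card_prod hqn hRF.mm.le1 hd.2.1.cov
  by_cases hex : ∃ n1, n0 + Fintype.card Ω * padicValNat ℓ (Nat.card π1.ker) =
      Fintype.card Ω * n1 + padicValNat ℓ (Nat.card π.ker)
  · obtain ⟨n1, hn1⟩ := hex
    have hz := hT2X a1 ha1 n1
    have hterm : ∀ i ∈ D, ((Nat.card Q : ℂ) / (Nat.card ↥((stb i.1).comap q) : ℂ)) ^
        (Fintype.card Ω - 1) * TQB.GG ℓ π M (fun S f => ((ν S f a : ℂˣ) : ℂ)) n0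
          (Ψ i).1.card (stb (Ψ i).1) (Ψ i).2 =
        ((Nat.card M : ℂ) / (Nat.card M1 : ℂ) * ((μ0 a : ℂˣ) : ℂ)) *
          TQB.GG ℓ π1 M1 (fun S f => ((ν1 S f a1 : ℂˣ) : ℂ)) n1 i.1.card (stb i.1) i.2 := by
      intro i hi
      have hd := hdat i hi
      have hb := ((hmD i).mp hi).2
      have hf := (h8 L K K1 Q L1 Ω ℓ π μ φ q α ε μQ π1 μ1 ι M M1 hRF.wd hRF.ld hRF.mm i.1
        i.2 hd.1 hd.2.1 hb.ovl ζ hRF.zt (Ψ i).2 (hR i hi).1).2 n0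
      have hdf : HasDefect ℓ (fun s : AL π M (stb (cstC φ (NN' π ε) i.1)) => (Ψ i).2 s) n0 ↔
          HasDefect ℓ (fun s : AL π1 M1 (stb i.1) => i.2 s) n1 := by
        rw [hf]
        constructor
        · rintro ⟨n2, h14, h15⟩
          have h16 : Fintype.card Ω * n2 = Fintype.card Ω * n1 := by omega
          have h17 : n2 = n1 := Nat.eq_of_mul_eq_mul_left Fintype.card_pos h16
          rw [← h17]
          exact h14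
        · intro h14
          exact ⟨n1, h14, hn1⟩
      have hv0 := hval i hi 1
      rw [map_one, map_one, TQB.map_conj_one, TQB.cjF_one] at hv0
      rw [hΨ1]
      unfold TQB.GG
      rw [(hCST i.1 hd.1).2.2.1]
      by_cases h14 : HasDefect ℓ (fun s : AL π1 M1 (stb i.1) => i.2 s) n1
      · rw [if_pos h14, if_pos (hdf.mpr h14)]
        beta_reduce
        rw [hv0]
        have h15 := hnum i hi
        push_cast
        linear_combination ((-1 : ℂ) ^ i.1.card * ((μ0 a : ℂˣ) : ℂ) *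
          ((ν1 (stb i.1) i.2 a1 : ℂˣ) : ℂ)) * h15
      · rw [if_neg h14, if_neg (fun h => h14 (hdf.mp h))]
        ring
    rw [Finset.sum_congr rfl hterm, ← Finset.mul_sum, hz, mul_zero]
  · apply Finset.sum_eq_zero
    intro i hi
    have hd := hdat i hi
    have hb := ((hmD i).mp hi).2
    have hf := (h8 L K K1 Q L1 Ω ℓ π μ φ q α ε μQ π1 μ1 ι M M1 hRF.wd hRF.ld hRF.mm i.1
      i.2 hd.1 hd.2.1 hb.ovl ζ hRF.zt (Ψ i).2 (hR i hi).1).2 n0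
    rw [hΨ1]
    unfold TQB.GG
    rw [if_neg, mul_zero, mul_zero]
    intro h14
    obtain ⟨n1, _, h15⟩ := hf.mp h14
    exact hex ⟨n1, h15⟩

end Pool.Agent.DPG
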