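import Mathlib
import Pool.Agent.DPG.StmtsB
import Pool.Agent.DPG.NPT

/-!
# TRO: preliminaries on the wreath product data
-/

set_option autoImplicit false

namespace Pool.Agent.DPG

open Pool.Agent.DP Pool.Agent.DPC Pool.Agent.DPM Pool.Agent.DPN Pool.Agent.DPF
  Pool.Agent.DPK Pool.Agent.Lib_helper13 Representation
open Pool.Agent.Lib_helper13.Dade (pCore DadeHolds dadeSum)

namespace TRO

set_option linter.unusedSectionVars false

section

variable {L K K1 Q Ω : Type} [Group L] [Group K] [Group K1] [Group Q] [Fintype Ω]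
  {π : L →* K} {μ : π.ker →* ℂˣ} {φ : K →* Gam (Equiv.Perm Ω) Ω K1} {q : Q →* K1}
  {α : K1 →* MulAut Q} {ε : (Ω → Q) →* L} {μQ : q.ker →* ℂˣ}

theorem mem_N (h : WD π μ φ q α ε μQ) (k : K) :
    k ∈ NN' π ε ↔ (φ k).right = 1 ∧ ∀ o, (φ k).left o ∈ q.range := by
  constructor
  · rintro ⟨l, ⟨n, rfl⟩, rfl⟩
    rw [h.φε]
    exact ⟨rfl, fun o => ⟨n o, rfl⟩⟩
  · rintro ⟨h1, h2⟩
    choose n hn using h2
    refine ⟨ε n, ⟨n, rfl⟩, h.φi ?_⟩
    rw [h.φε]
    apply SemidirectProduct.ext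
    · funext o
      exact hn o
    · exact h1.symm

theorem exists_N (h : WD π μ φ q α ε μQ) (s : Ω → K1) (hs : ∀ o, s o ∈ q.range) :
    ∃ k ∈ NN' π ε, (φ k).right = 1 ∧ ∀ o, (φ k).left o = s o := by
  choose n hn using hs
  refine ⟨π (ε n), ⟨ε n, ⟨n, rfl⟩, rfl⟩, ?_, ?_⟩
  · rw [h.φε]
    rfl
  · intro o
    rw [h.φε]
    exact hn o

theorem comap_N (h : WD π μ φ q α ε μQ) : (NN' π ε).comap π = ε.range := by
  ext x
  constructor
  · rintro ⟨l, hl, hlx⟩
    have h1 : x * l⁻¹ ∈ π.ker := by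
      rw [MonoidHom.mem_ker, map_mul, map_inv, hlx, mul_inv_cancel]
    have h2 := ε.range.mul_mem (h.kr h1) hl
    rwa [inv_mul_cancel_right] at h2
  · intro hx
    exact ⟨x, hx, rfl⟩

theorem normal_N (h : WD π μ φ q α ε μQ) : (NN' π ε).Normal := by
  refine ⟨?_⟩
  rintro _ ⟨_, ⟨n, rfl⟩, rfl⟩ k
  obtain ⟨l, rfl⟩ := h.πs k
  refine ⟨l * ε n * l⁻¹, ⟨_, h.cj l n⟩, ?_⟩
  rw [map_mul, map_mul, map_inv]

theorem left_conj (g x : Gam (Equiv.Perm Ω) Ω K1) (hx : x.right = 1) (o : Ω) :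
    (g * x * g⁻¹).left o = g.left o * x.left (g.right⁻¹ • o) * (g.left o)⁻¹ := by
  change (g * x).left o * (g⁻¹).left ((g * x).right⁻¹ • o) = _
  have h1 : (g * x).right = g.right := by
    rw [SemidirectProduct.mul_right, hx, mul_one]
  rw [h1]
  have h2 : (g⁻¹).left (g.right⁻¹ • o) = (g.left (g.right⁻¹⁻¹ • g.right⁻¹ • o))⁻¹ := rfl
  rw [h2, inv_inv, smul_inv_smul]
  rfl

theorem right_conj (g x : Gam (Equiv.Perm Ω) Ω K1) (hx : x.right = 1) :
    (g * x * g⁻¹).right = 1 := by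
  rw [SemidirectProduct.mul_right, SemidirectProduct.mul_right, hx, mul_one,
    SemidirectProduct.inv_right, mul_inv_cancel]

theorem pi_eps_eq_one (h : WD π μ φ q α ε μQ) (n : Ω → Q) :
    π (ε n) = 1 ↔ ∀ o, q (n o) = 1 := by
  rw [← map_eq_one_iff φ h.φi, h.φε]
  constructor
  · intro h1 o
    have h2 := congrArg (fun g => g.left o) h1
    exact h2
  · intro h1
    apply SemidirectProduct.ext
    · funext o
      exact h1 o
    · rfl

theorem card_eq [Finite L] [Finite Q] (h : WD π μ φ q α ε μQ) : ∃ r : ℕ, r ≠ 0 ∧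
    Nat.card Q ^ Fintype.card Ω = Nat.card q.ker ^ Fintype.card Ω * r ∧
    Nat.card ↥((NN' π ε).comap π) = Nat.card π.ker * r := by
  have h0 : Nat.card ↥((NN' π ε).comap π) = Nat.card π.ker * π.ker.relIndex ε.range := by
    rw [comap_N h]
    have h2 := Subgroup.relIndex_mul_relIndex (⊥ : Subgroup L) π.ker ε.range bot_le h.kr
    rw [Subgroup.relIndex_bot_left, Subgroup.relIndex_bot_left] at h2
    exact h2.symm
  refine ⟨π.ker.relIndex ε.range, ?_, ?_, h0⟩
  · intro h1
    rw [h1, mul_zero] at h0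
    exact Nat.card_pos.ne' h0
  · have h1 : Nat.card ↥(π.ker.comap ε) = Nat.card q.ker ^ Fintype.card Ω := by
      rw [← Nat.card_eq_fintype_card (α := Ω), ← Nat.card_fun]
      refine Nat.card_congr ⟨fun n o => ⟨n.1 o, ?_⟩, fun z => ⟨fun o => (z o : Q), ?_⟩, ?_, ?_⟩
      · exact (pi_eps_eq_one h n.1).mp n.2 o
      · exact (pi_eps_eq_one h _).mpr fun o => (z o).2
      · intro n
        rfl
      · intro z
        rfl
    rw [← h1, ← Subgroup.index_comap, Subgroup.card_mul_index, Nat.card_fun,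
      Nat.card_eq_fintype_card (α := Ω)]

/-! ### The chains in one coordinate -/

open Classical in
/-- The elements whose coordinate at `o` lies in `D` and whose other coordinates are trivial. -/
noncomputable def P (φ : K →* Gam (Equiv.Perm Ω) Ω K1) (o : Ω) (D : Subgroup K1) : Subgroup K :=
  PS φ (Function.update (fun _ => ⊥) o D)

theorem mem_P {φ : K →* Gam (Equiv.Perm Ω) Ω K1} {o : Ω} {D : Subgroup K1} {k : K} :
    k ∈ P φ o D ↔ (φ k).right = 1 ∧ (φ k).left o ∈ D ∧ ∀ w, w ≠ o → (φ k).left w = 1 := by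
  classical
  constructor
  · rintro ⟨h1, h2⟩
    refine ⟨h1, ?_, ?_⟩
    · have h3 := h2 o
      rwa [Function.update_self] at h3
    · intro w hw
      have h3 := h2 w
      rw [Function.update_of_ne hw] at h3
      exact h3
  · rintro ⟨h1, h2, h3⟩
    refine ⟨h1, ?_⟩
    intro w
    by_cases hw : w = o
    · subst hw
      rw [Function.update_self]
      exact h2
    · rw [Function.update_of_ne hw, h3 w hw]
      exact Subgroup.one_mem _

theorem exists_P (h : WD π μ φ q α ε μQ) (o : Ω) {D : Subgroup K1} (hD : D ≤ q.range) {d : K1}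
    (hd : d ∈ D) : ∃ k ∈ P φ o D, (φ k).left o = d := by
  classical
  obtain ⟨k, -, hk, hk'⟩ := exists_N h (Function.update (fun _ => 1) o d) (by
    intro w
    by_cases hw : w = o
    · subst hw
      rw [Function.update_self]
      exact hD hd
    · rw [Function.update_of_ne hw]
      exact Subgroup.one_mem _)
  have h1 : (φ k).left o = d := by
    rw [hk', Function.update_self]
  refine ⟨k, mem_P.mpr ⟨hk, by rw [h1]; exact hd, ?_⟩, h1⟩
  intro w hw
  rw [hk', Function.update_of_ne hw]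

theorem P_le_N (h : WD π μ φ q α ε μQ) (o : Ω) {D : Subgroup K1} (hD : D ≤ q.range) :
    P φ o D ≤ NN' π ε := by
  intro k hk
  obtain ⟨h1, h2, h3⟩ := mem_P.mp hk
  refine (mem_N h k).mpr ⟨h1, ?_⟩
  intro w
  by_cases hw : w = o
  · subst hw
    exact hD h2
  · rw [h3 w hw]
    exact Subgroup.one_mem _

theorem P_mono (o : Ω) {D E : Subgroup K1} (hDE : D ≤ E) : P φ o D ≤ P φ o E := by
  intro k hk
  obtain ⟨h1, h2, h3⟩ := mem_P.mp hk
  exact mem_P.mpr ⟨h1, hDE h2, h3⟩

theorem P_pgroup (h : WD π μ φ q α ε μQ) (o : Ω) {ℓ : ℕ} {D : Subgroup K1} (hD : IsPGroup ℓ D) :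
    IsPGroup ℓ (P φ o D) := by
  have hm : ∀ a b : ↥(P φ o D), (φ (a * b : K)).left o = (φ a).left o * (φ b).left o := by
    intro a b
    rw [map_mul]
    change (φ a).left o * (φ b).left ((φ a).right⁻¹ • o) = _
    rw [(mem_P.mp a.2).1, inv_one, one_smul]
  let f : ↥(P φ o D) →* D :=
    { toFun := fun k => ⟨(φ k).left o, (mem_P.mp k.2).2.1⟩
      map_one' := by
        apply Subtype.ext
        change (φ ((1 : ↥(P φ o D)) : K)).left o = 1
        rw [Subgroup.coe_one, map_one]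
        rfl
      map_mul' := by
        intro a b
        apply Subtype.ext
        exact hm a b }
  refine hD.of_injective f ?_
  intro a b hab
  apply Subtype.ext
  apply h.φi
  obtain ⟨a1, -, a3⟩ := mem_P.mp a.2
  obtain ⟨b1, -, b3⟩ := mem_P.mp b.2
  apply SemidirectProduct.ext
  · funext w
    by_cases hw : w = o
    · subst hw
      exact congrArg Subtype.val hab
    · rw [a3 w hw, b3 w hw]
  · rw [a1, b1]

open Classical in
/-- The chain in one coordinate. -/
noncomputable def PC (φ : K →* Gam (Equiv.Perm Ω) Ω K1) (o : Ω) (σ : Finset (Subgroup K1)) :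
    Finset (Subgroup K) :=
  σ.image (P φ o)

theorem mem_PC {φ : K →* Gam (Equiv.Perm Ω) Ω K1} {o : Ω} {σ : Finset (Subgroup K1)}
    {E : Subgroup K} : E ∈ PC φ o σ ↔ ∃ D ∈ σ, P φ o D = E := by
  classical
  rw [PC, Finset.mem_image]

theorem chN_PC (h : WD π μ φ q α ε μQ) (o : Ω) {ℓ : ℕ} {σ : Finset (Subgroup K1)}
    (hσ : ChN ℓ q.range σ) : ChN ℓ (NN' π ε) (PC φ o σ) := by
  refine ⟨⟨?_, ?_⟩, ?_⟩
  · intro E hE
    obtain ⟨D, hD, rfl⟩ := mem_PC.mp hE
    refine ⟨P_pgroup h o (hσ.1.1 D hD).1, ?_⟩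
    rw [bot_lt_iff_ne_bot]
    intro hb
    apply (hσ.1.1 D hD).2.ne'
    rw [Subgroup.eq_bot_iff_forall]
    intro d hd
    obtain ⟨k, hk, hk'⟩ := exists_P h o (hσ.2 D hD) hd
    rw [hb, Subgroup.mem_bot] at hk
    rw [← hk', hk, map_one]
    rfl
  · intro E hE F hF _
    obtain ⟨D, hD, rfl⟩ := mem_PC.mp (Finset.mem_coe.mp hE)
    obtain ⟨D', hD', rfl⟩ := mem_PC.mp (Finset.mem_coe.mp hF)
    exact (hσ.1.total hD hD').imp (P_mono o) (P_mono o)
  · intro E hE
    obtain ⟨D, hD, rfl⟩ := mem_PC.mp hE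
    exact P_le_N h o (hσ.2 D hD)

/-- One coordinate of the elements which normalize the chain in one coordinate. -/
theorem stb_aux (h : WD π μ φ q α ε μQ) (o : Ω) {ℓ : ℕ} {σ : Finset (Subgroup K1)}
    (hσ : ChN ℓ q.range σ) {k : K} (hk1 : (φ k).right = 1) (hk : k ∈ stb (PC φ o σ))
    {D : Subgroup K1} (hD : D ∈ σ) {d : K1} (hd : d ∈ D) :
    (φ k).left o * d * ((φ k).left o)⁻¹ ∈ D := by
  obtain ⟨x, hx, hx'⟩ := exists_P h o (hσ.2 D hD) hd
  have h1 := (mem_stb'.mp hk (P φ o D) (mem_PC.mpr ⟨D, hD, rfl⟩) x).mp hx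
  obtain ⟨-, h2, -⟩ := mem_P.mp h1
  rw [map_mul, map_mul, map_inv, left_conj _ _ (mem_P.mp hx).1, hk1, inv_one, one_smul, hx'] at h2
  exact h2

theorem left_inv_of {g : Gam (Equiv.Perm Ω) Ω K1} (hg : g.right = 1) (o : Ω) :
    (g⁻¹).left o = (g.left o)⁻¹ := by
  have h2 : (g⁻¹).left o = (g.left (g.right⁻¹⁻¹ • o))⁻¹ := rfl
  rw [h2, hg, inv_one, inv_one, one_smul]

open Classical in
/-- The stabilizer in `N` of the chain in one coordinate. -/
theorem inf_stb (h : WD π μ φ q α ε μQ) (o : Ω) {ℓ : ℕ} {σ : Finset (Subgroup K1)}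
    (hσ : ChN ℓ q.range σ) : NN' π ε ⊓ PS φ (Function.update (fun _ => ⊤) o (stb σ)) =
      NN' π ε ⊓ stb (PC φ o σ) := by
  ext k
  rw [Subgroup.mem_inf, Subgroup.mem_inf]
  refine and_congr_right fun hkN => ?_
  have hk1 : (φ k).right = 1 := ((mem_N h k).mp hkN).1
  have hkey : k ∈ PS φ (Function.update (fun _ => ⊤) o (stb σ)) ↔ (φ k).left o ∈ stb σ := by
    constructor
    · rintro ⟨-, h2⟩
      have h3 := h2 o
      rwa [Function.update_self] at h3
    · intro h1
      refine ⟨hk1, fun w => ?_⟩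
      by_cases hw : w = o
      · subst hw
        rw [Function.update_self]
        exact h1
      · rw [Function.update_of_ne hw]
        exact Subgroup.mem_top _
  rw [hkey]
  constructor
  · intro h1
    rw [mem_stb']
    intro E hE x
    obtain ⟨D, hD, rfl⟩ := mem_PC.mp hE
    have h2 := mem_stb'.mp h1 D hD
    have hright : (φ (k * x * k⁻¹)).right = 1 ↔ (φ x).right = 1 := by
      rw [map_mul, map_mul, map_inv, SemidirectProduct.mul_right, SemidirectProduct.mul_right,
        SemidirectProduct.inv_right, hk1, one_mul, inv_one, mul_one]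
    have hleft : (φ x).right = 1 → ∀ w, (φ (k * x * k⁻¹)).left w =
        (φ k).left w * (φ x).left w * ((φ k).left w)⁻¹ := by
      intro hx w
      rw [map_mul, map_mul, map_inv, left_conj _ _ hx, hk1, inv_one, one_smul]
    rw [mem_P, mem_P, hright]
    refine and_congr_right fun hx => ?_
    rw [hleft hx, ← h2]
    refine and_congr_right fun _ => ?_
    refine forall_congr' fun w => ?_
    refine imp_congr_right fun _ => ?_
    rw [hleft hx]
    constructor
    · intro h3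
      rw [h3]
      group
    · intro h3
      have h4 := mul_inv_eq_one.mp h3
      exact mul_eq_left.mp h4
  · intro h1
    rw [mem_stb']
    intro D hD x
    constructor
    · intro hx
      exact stb_aux h o hσ hk1 h1 hD hx
    · intro hx
      have h3 := stb_aux h o hσ (k := k⁻¹) (by
        rw [map_inv, SemidirectProduct.inv_right, hk1, inv_one])
        ((stb (PC φ o σ)).inv_mem h1) hD hx
      rw [map_inv, left_inv_of hk1] at h3
      have h4 : ((φ k).left o)⁻¹ * ((φ k).left o * x * ((φ k).left o)⁻¹) *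
          (((φ k).left o)⁻¹)⁻¹ = x := by group
      rwa [h4] at h3

/-- The elements which normalize a nonempty chain in one coordinate fix this coordinate. -/
theorem stb_fix (h : WD π μ φ q α ε μQ) (o : Ω) {ℓ : ℕ} {σ : Finset (Subgroup K1)}
    (hσ : ChN ℓ q.range σ) (hne : σ.Nonempty) {k : K} (hk : k ∈ stb (PC φ o σ)) :
    (φ k).right o = o := by
  by_contra hno
  obtain ⟨D, hD⟩ := hne
  apply (hσ.1.1 D hD).2.ne'
  rw [Subgroup.eq_bot_iff_forall]
  intro d hd
  obtain ⟨x, hx, hx'⟩ := exists_P h o (hσ.2 D hD) hd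
  have h1 := (mem_stb'.mp hk (P φ o D) (mem_PC.mpr ⟨D, hD, rfl⟩) x).mp hx
  obtain ⟨-, -, h3⟩ := mem_P.mp h1
  have h4 := h3 _ hno
  rw [map_mul, map_mul, map_inv, left_conj _ _ (mem_P.mp hx).1] at h4
  have h5 : (φ k).right⁻¹ • (φ k).right o = o := by
    change (φ k).right⁻¹ ((φ k).right o) = o
    simp
  rw [h5, hx'] at h4
  exact mul_eq_left.mp (mul_inv_eq_one.mp h4)

end

end TRO

end Pool.Agent.DPG
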