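import Mathlib
import Pool.Agent.DPG.TROA
import Pool.Agent.DPK.Stmts
import Pool.Agent.DP.IRRPI

/-!
# TRO: a nonempty chain with a character in the block of a character of `Q`
-/

set_option autoImplicit false

namespace Pool.Agent.DPG

open Pool.Agent.DP Pool.Agent.DPC Pool.Agent.DPM Pool.Agent.DPN Pool.Agent.DPF
  Pool.Agent.DPK Pool.Agent.Lib_helper13 Representation
open Pool.Agent.Lib_helper13.Dade (pCore DadeHolds dadeSum)
open Pool.Agent.DP.IRRPI (irrOn_ext0 res_ext0)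

namespace TRO

section Sc

variable {G : Type} [Group G] [Fintype G] {𝔐 : Ideal (integralClosure ℤ ℂ)}

theorem cg_eq_cen (S : Subgroup G) [Fintype S] {F : G → ℂ} (hF : ∀ x, x ∉ S → F x = 0) (g : G) :
    cg 𝔐 F g = cen 𝔐 S.subtype (fun s : S => F s) g := by
  rw [BEM.cg_eq, BEM.sc_sub S hF, cen]
  congr 2
  funext s
  exact BEM.cI_cast g s

theorem sc_pair {S : Subgroup G} {F : G → ℂ} (hF : IrrOn S F) {u : G → ℤ}
    (hu : CIv (⊤ : Subgroup G) u) :
    sc 𝔐 F u = pair 𝔐 (fun x => ((u x : ℤ) : ℂ)) (cg 𝔐 F) := by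
  classical
  rw [BEM.sc_sub S hF.2]
  have h1 := red_wt_eq_pair 𝔐 S.subtype hF.1 (fun x => ((u x : ℤ) : ℂ)) (by
    intro g x
    rw [hu g (Subgroup.mem_top g) x]) (fun x => Pool.Agent.Lib_helper13.isIntegral_intCast _)
  have h2 : (cg 𝔐 F) = cen 𝔐 S.subtype (fun s : S => F s) := by
    funext g
    exact cg_eq_cen S hF.2 g
  rw [h2]
  exact h1

end Sc

theorem irrOn_congr {G : Type} [Group G] {S T : Subgroup G} (h : S = T) {f : G → ℂ}
    (hf : IrrOn S f) : IrrOn T f := by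
  subst h
  exact hf

theorem hasDefect_congr {G : Type} [Group G] {ℓ d : ℕ} {S T : Subgroup G} (h : S = T)
    {f : G → ℂ} (hf : HasDefect ℓ (fun s : S => f s) d) : HasDefect ℓ (fun s : T => f s) d := by
  subst h
  exact hf

theorem irrOn_top {G : Type} [Group G] [Fintype G] {f : G → ℂ} : IrrOn (⊤ : Subgroup G) f ↔ IsIrr f := by
  constructor
  · intro h
    exact h.1.comp_mulEquiv (Subgroup.topEquiv (G := G)).symm
  · intro h
    exact ⟨h.comp_mulEquiv (Subgroup.topEquiv (G := G)), fun x hx => absurd (Subgroup.mem_top x) hx⟩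

theorem hasDefect_top' {G : Type} [Group G] [Fintype G] {ℓ d : ℕ} {f : G → ℂ} :
    HasDefect ℓ (fun s : (⊤ : Subgroup G) => f s) d ↔ HasDefect ℓ f d :=
  hasDefect_comp_equiv (Subgroup.topEquiv (G := G)) (ψ := f)

theorem sylAb_unit (ℓ : ℕ) [hℓ : Fact ℓ.Prime] : SylAb ℓ (⊥ : Subgroup Unit) := by
  refine ⟨inferInstance, ?_, ?_, ?_⟩
  · exact IsPGroup.of_bot
  · intro h
    have h1 : (⊥ : Subgroup Unit).index = 1 := by
      rw [Subgroup.index_bot]
      simp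
    rw [h1] at h
    exact hℓ.out.one_lt.ne' (Nat.dvd_one.mp h)
  · intro x y
    exact Subgroup.mem_bot.mpr (Subsingleton.elim _ _)

theorem exists_chain (Cl : ∀ (Y : Type) [Group Y], Prop) (h1 : Stmt_PS1r Cl) (Q K1 : Type)
    [Group Q] [Fintype Q] [Group K1] [Fintype K1] (𝔐 : Ideal (integralClosure ℤ ℂ)) (ℓ : ℕ)
    [Fact ℓ.Prime] (hM : 𝔐.IsMaximal) (hℓ : (ℓ : integralClosure ℤ ℂ) ∈ 𝔐) (q : Q →* K1)
    (hq : q.ker ≤ Subgroup.center Q) (μ : q.ker →* ℂˣ) (hμ : Function.Injective μ)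
    (hC : Cl q.range) (hH : HR Cl ℓ (Nat.card q.range)) (f : Q → ℂ)
    (hf : IrrOn (⊤ : Subgroup Q) f) (hfo : Ov q μ f)
    (hno : ∀ g, IrrOn (⊤ : Subgroup Q) g → Ov q μ g →
      (∀ u : Q → ℤ, CIv (⊤ : Subgroup Q) u → sc 𝔐 g u = sc 𝔐 f u) →
      ¬ HasDefect ℓ g (padicValNat ℓ (Nat.card q.ker))) :
    ∃ (σ : Finset (Subgroup K1)) (f1 : Q → ℂ), ChN ℓ q.range σ ∧ σ.Nonempty ∧
      IrrOn ((stb σ).comap q) f1 ∧ Ov q μ f1 ∧
      ∀ u : Q → ℤ, CIv (⊤ : Subgroup Q) u → sc 𝔐 f1 u = sc 𝔐 f u := by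
  classical
  have hfr : Fintype q.range := Fintype.ofFinite _
  have hker : q.rangeRestrict.ker = q.ker := MonoidHom.ker_rangeRestrict q
  let μ' : q.rangeRestrict.ker →* ℂˣ := μ.comp (Subgroup.inclusion hker.le)
  have hμ' : Function.Injective μ' := hμ.comp (Subgroup.inclusion_injective hker.le)
  have hcyc : IsCyclic q.rangeRestrict.ker :=
    isCyclic_of_injective_ringHom ((Units.coeHom ℂ).comp μ') (Units.val_injective.comp hμ')
  have hpos : Pos 𝔐 ℓ q.rangeRestrict μ' ⊤ (cg 𝔐 f) := by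
    intro θ hθ hov hd hcen
    have hT : (⊤ : Subgroup q.range).comap q.rangeRestrict = ⊤ := Subgroup.comap_top _
    have hmem : ∀ x, x ∈ (⊤ : Subgroup q.range).comap q.rangeRestrict := fun x => by
      rw [hT]
      exact Subgroup.mem_top x
    have hI := irrOn_ext0 hθ
    refine hno (ext0 θ) (irrOn_congr hT hI) ?_ ?_ ?_
    · intro z x
      have h2 := hov ⟨z, hmem z⟩ ⟨x, hmem x⟩ (by rw [hker]; exact z.2)
      rw [ext0_of_mem θ (hmem (z * x)), ext0_of_mem θ (hmem x)]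
      exact h2
    · intro u hu
      rw [sc_pair (irrOn_congr hT hI) hu, sc_pair hf hu]
      congr 1
      funext g
      rw [← hcen g (hmem g), cg_eq_cen _ hI.2, res_ext0]
    · apply hasDefect_top'.mp
      apply hasDefect_congr hT
      rw [res_ext0, ← hker]
      exact hd
  obtain ⟨d, hd⟩ := (irrOn_top.mp hf).exists_defect (ℓ := ℓ)
  have hsum := h1 Q q.range Unit 𝔐 ℓ hM hℓ q.rangeRestrict q.rangeRestrict_surjective
    (by rw [hker]; exact hq) hcyc μ' hμ' hC hH ⊤ 1 (fun _ => ⟨1, rfl⟩) (fun k => by simp) ⊥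
    (sylAb_unit ℓ) (cg 𝔐 f) hpos d
  have hex : ∃ τ ∈ Ch ℓ (⊥ : Subgroup ↥(⊤ : Subgroup q.range)), τ.Nonempty ∧
      Nonempty {ψ : ↥(SL q.rangeRestrict ⊤ τ ⊤) → ℂ // IsIrr ψ ∧
        OvL q.rangeRestrict.ker μ' _ ψ ∧ HasDefect ℓ ψ d ∧
        ∀ g ∈ (⊤ : Subgroup q.range).comap q.rangeRestrict,
          cen 𝔐 (SL q.rangeRestrict ⊤ τ ⊤).subtype ψ g = cg 𝔐 f g} := by
    by_contra hcon
    rw [PHU, Finset.sum_eq_single ∅] at hsum
    · rw [Finset.card_empty, pow_zero, one_mul, mul_eq_zero] at hsum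
      rcases hsum with h2 | h2
      · exact Nat.card_pos.ne' (by exact_mod_cast h2)
      · have hS : SL q.rangeRestrict ⊤ ∅ ⊤ = ⊤ := by
          have h3 : mapCh (⊤ : Subgroup q.range).subtype ∅ = ∅ := by
            rw [mapCh, Finset.image_empty]
          change ((⊤ : Subgroup q.range) ⊓
            stb (mapCh (⊤ : Subgroup q.range).subtype ∅)).comap q.rangeRestrict = ⊤
          rw [h3, stb_empty, inf_top_eq, Subgroup.comap_top]
        have hI := irrOn_congr hS.symm hf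
        have hne : Nonempty {ψ : ↥(SL q.rangeRestrict ⊤ ∅ ⊤) → ℂ // IsIrr ψ ∧
            OvL q.rangeRestrict.ker μ' _ ψ ∧ HasDefect ℓ ψ d ∧
            ∀ g ∈ (⊤ : Subgroup q.range).comap q.rangeRestrict,
              cen 𝔐 (SL q.rangeRestrict ⊤ ∅ ⊤).subtype ψ g = cg 𝔐 f g} := by
          refine ⟨fun s => f s, hI.1, ?_, hasDefect_congr hS.symm (hasDefect_top'.mpr hd), ?_⟩
          · intro s t hst
            exact hfo ⟨s, by rw [← hker]; exact hst⟩ t
          · intro g _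
            rw [cg_eq_cen _ hI.2]
        have hfin : Finite {ψ : ↥(SL q.rangeRestrict ⊤ ∅ ⊤) → ℂ // IsIrr ψ ∧
            OvL q.rangeRestrict.ker μ' _ ψ ∧ HasDefect ℓ ψ d ∧
            ∀ g ∈ (⊤ : Subgroup q.range).comap q.rangeRestrict,
              cen 𝔐 (SL q.rangeRestrict ⊤ ∅ ⊤).subtype ψ g = cg 𝔐 f g} :=
          Set.Finite.to_subtype (finite_isIrr.subset fun ψ hψ => hψ.1)
        exact Nat.card_pos.ne' (by exact_mod_cast h2)
    · intro τ hτ hne
      have h2 : IsEmpty {ψ : ↥(SL q.rangeRestrict ⊤ τ ⊤) → ℂ // IsIrr ψ ∧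
        OvL q.rangeRestrict.ker μ' _ ψ ∧ HasDefect ℓ ψ d ∧
        ∀ g ∈ (⊤ : Subgroup q.range).comap q.rangeRestrict,
          cen 𝔐 (SL q.rangeRestrict ⊤ τ ⊤).subtype ψ g = cg 𝔐 f g} := by
        rw [← not_nonempty_iff]
        intro h3
        exact hcon ⟨τ, hτ, Finset.nonempty_iff_ne_empty.mpr hne, h3⟩
      rw [Nat.card_eq_zero.mpr (Or.inl h2)]
      simp
    · intro h2
      exact absurd (mem_Ch.mpr (isCh_empty ℓ _)) h2
  obtain ⟨τ, hτ, ⟨D0, hD0⟩, ⟨ψ, hψ, hψo, -, hψc⟩⟩ := hex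
  have hiT : Function.Injective (⊤ : Subgroup q.range).subtype := Subtype.val_injective
  have hiq : Function.Injective q.range.subtype := Subtype.val_injective
  have hSL : SL q.rangeRestrict ⊤ τ ⊤ =
      (stb (mapCh q.range.subtype (mapCh (⊤ : Subgroup q.range).subtype τ))).comap q := by
    have h2 := comap_stb_mapCh hiq (mapCh (⊤ : Subgroup q.range).subtype τ)
    change ((⊤ : Subgroup q.range) ⊓
      stb (mapCh (⊤ : Subgroup q.range).subtype τ)).comap q.rangeRestrict = _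
    rw [top_inf_eq, ← h2]
    rfl
  have hI := irrOn_ext0 hψ
  refine ⟨mapCh q.range.subtype (mapCh (⊤ : Subgroup q.range).subtype τ), ext0 ψ, ⟨?_, ?_⟩,
    ⟨(D0.map _).map _, mem_mapCh.mpr ⟨_, mem_mapCh.mpr ⟨_, hD0, rfl⟩, rfl⟩⟩,
    irrOn_congr hSL hI, ?_, ?_⟩
  · have h3 := (isCh_mapCh_iff (Z := (⊥ : Subgroup ↥(⊤ : Subgroup q.range))) hiT).mpr
      (mem_Ch.mp hτ)
    rw [Subgroup.map_bot] at h3
    have h4 := (isCh_mapCh_iff (Z := (⊥ : Subgroup q.range)) hiq).mpr h3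
    rw [Subgroup.map_bot] at h4
    exact h4
  · intro D hD
    obtain ⟨D', -, rfl⟩ := mem_mapCh.mp hD
    exact Subgroup.map_subtype_le _
  · intro z x
    have hz : (z : Q) ∈ SL q.rangeRestrict ⊤ τ ⊤ := by
      rw [hSL, Subgroup.mem_comap, MonoidHom.mem_ker.mp z.2]
      exact Subgroup.one_mem _
    by_cases hx : x ∈ SL q.rangeRestrict ⊤ τ ⊤
    · rw [ext0_of_mem ψ hx, ext0_of_mem ψ (Subgroup.mul_mem _ hz hx)]
      exact hψo ⟨z, hz⟩ ⟨x, hx⟩ (by rw [hker]; exact z.2)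
    · have hzx : (z : Q) * x ∉ SL q.rangeRestrict ⊤ τ ⊤ := by
        intro h3
        apply hx
        have h4 := Subgroup.mul_mem _ (Subgroup.inv_mem _ hz) h3
        rwa [inv_mul_cancel_left] at h4
      rw [ext0_of_not_mem ψ hx, ext0_of_not_mem ψ hzx, mul_zero]
  · intro u hu
    rw [sc_pair hI hu, sc_pair hf hu]
    congr 1
    funext g
    rw [cg_eq_cen _ hI.2, res_ext0]
    exact hψc g (Subgroup.mem_top _)

end TRO

end Pool.Agent.DPG
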