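import Mathlib
import Pool.Agent.DPG.TROB

/-!
# TRO: the group `M` acts trivially on `Ω`
-/

set_option autoImplicit false
set_option linter.unusedSectionVars false

namespace Pool.Agent.DPG

open Pool.Agent.DP Pool.Agent.DPC Pool.Agent.DPM Pool.Agent.DPN Pool.Agent.DPF
  Pool.Agent.DPK Pool.Agent.Lib_helper13 Representation
open Pool.Agent.Lib_helper13.Dade (pCore DadeHolds dadeSum)

namespace TRO

theorem sc_comp {G : Type} [Group G] [Fintype G] {𝔐 : Ideal (integralClosure ℤ ℂ)} (a : G ≃* G)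
    (F : G → ℂ) (u : G → ℤ) :
    sc 𝔐 (fun x => F (a x)) u = sc 𝔐 F (fun x => u (a.symm x)) := by
  rw [sc, sc, map_one]
  congr 2
  refine Fintype.sum_equiv a.toEquiv _ _ fun x => ?_
  change ((u x : ℤ) : ℂ) * F (a x) = ((u (a.symm (a x)) : ℤ) : ℂ) * F (a x)
  rw [MulEquiv.symm_apply_apply]

section

variable {L K K1 Q Ω : Type} [Group L] [Fintype L] [Group K] [Fintype K] [Group K1] [Fintype K1]
  [Group Q] [Fintype Q] [Fintype Ω] {𝔐 : Ideal (integralClosure ℤ ℂ)}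
  {π : L →* K} {μ : π.ker →* ℂˣ} {φ : K →* Gam (Equiv.Perm Ω) Ω K1} {q : Q →* K1}
  {α : K1 →* MulAut Q} {ε : (Ω → Q) →* L} {μQ : q.ker →* ℂˣ}
  {ω : L → (integralClosure ℤ ℂ) ⧸ 𝔐} {f0 : L → ℂ} {f : Ω → Q → ℂ}

theorem twist (h : WD π μ φ q α ε μQ) {g : Q → ℂ}
    (hg : IrrOn (⊤ : Subgroup Q) g ∧ Ov q μQ g) (b : K1) :
    IrrOn ((⊤ : Subgroup K1).comap q) (fun x => g (α b x)) ∧ Ov q μQ (fun x => g (α b x)) := by
  constructor
  · rw [Subgroup.comap_top]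
    exact irrOn_top.mpr ((irrOn_top.mp hg.1).comp_mulEquiv (α b))
  · intro z x
    change g (α b (z * x)) = _
    rw [map_mul, h.αz b z z.2]
    exact hg.2 z _

theorem sc_move (h6 : Stmt_LMT) (ℓ : ℕ) [Fact ℓ.Prime] (hM : 𝔐.IsMaximal)
    (hℓ : (ℓ : integralClosure ℤ ℂ) ∈ 𝔐) (h : WD π μ φ q α ε μQ)
    (hstb : STB 𝔐 π μ (NN' π ε) ω) (hf0 : Cvd 𝔐 π μ (NN' π ε) ω f0)
    (hf : ∀ o, IrrOn (⊤ : Subgroup Q) (f o) ∧ Ov q μQ (f o)) (hTF : TF ε f f0) (k : K) (w : Ω)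
    {u : Q → ℤ} (hu : CIv (⊤ : Subgroup Q) u) :
    sc 𝔐 (fun x => f ((φ k).right w) (α ((φ k).left ((φ k).right w)) x)) u =
      sc 𝔐 (f w) u := by
  classical
  obtain ⟨l, rfl⟩ := h.πs k
  have hT : ∀ o, IrrOn ((⊤ : Subgroup K1).comap q) (f o) ∧ Ov q μQ (f o) := by
    intro o
    rw [Subgroup.comap_top]
    exact hf o
  have hTF' : TF ε (fun w x => f ((φ (π l)).right w) (α ((φ (π l)).left ((φ (π l)).right w)) x))
      (fun x => f0 (l * x * l⁻¹)) := by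
    constructor
    · intro n
      change f0 (l * ε n * l⁻¹) = _
      rw [← h.cj, hTF.1, ← Equiv.prod_comp (φ (π l)).right]
      refine Finset.prod_congr rfl fun w _ => ?_
      rw [wB_apply]
      have h7 : (φ (π l)).right⁻¹ • (φ (π l)).right w = w := by
        change (φ (π l)).right⁻¹ ((φ (π l)).right w) = w
        simp
      rw [h7]
    · intro l' hl'
      apply hTF.2
      intro h7
      apply hl'
      rw [← comap_N h] at h7 ⊢
      have h8 := (normal_N h).comap π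
      have h9 := h8.conj_mem _ h7 l⁻¹
      have h10 : l⁻¹ * (l * l' * l⁻¹) * l⁻¹⁻¹ = l' := by group
      rwa [h10] at h9
  have h7 := (h6 L K K1 Q Ω 𝔐 ℓ hM hℓ π μ φ q α ε μQ h (fun _ => ⊤) (fun _ => ⊤) _ f _ f0
    (fun w => twist h (hf _) _) hT hTF' hTF).mpr (by
      intro v hv hv'
      rw [← hstb f0 hf0 v hv hv' l⁻¹, sc, sc]
      have h8 : l * 1 * l⁻¹ = 1 := by group
      rw [h8]
      congr 2
      refine Fintype.sum_equiv (MulAut.conj l).toEquiv _ _ fun x => ?_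
      have h9 : (MulAut.conj l).toEquiv x = l * x * l⁻¹ := rfl
      have h10 : l⁻¹ * (l * x * l⁻¹) * l⁻¹⁻¹ = x := by group
      rw [h9, h10])
  exact h7 w u hu

theorem AL_top (h : WD π μ φ q α ε μQ) :
    AL π (NN' π ε) (PS φ (fun _ => ⊤)) = (NN' π ε).comap π := by
  have h1 : NN' π ε ⊓ PS φ (fun _ => (⊤ : Subgroup K1)) = NN' π ε := by
    rw [inf_eq_left]
    intro k hk
    exact ⟨((mem_N h k).mp hk).1, fun o => Subgroup.mem_top _⟩
  change (NN' π ε ⊓ PS φ (fun _ => (⊤ : Subgroup K1))).comap π = _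
  rw [h1]

theorem no_min (h3 : Stmt_PSN) (h5 : Stmt_TNA) (h6 : Stmt_LMT) (ℓ : ℕ) [Fact ℓ.Prime]
    (hM : 𝔐.IsMaximal) (hℓ : (ℓ : integralClosure ℤ ℂ) ∈ 𝔐) (h : WD π μ φ q α ε μQ)
    (M : Subgroup K) [M.Normal] (hNM : NN' π ε ≤ M) (hidx : ¬ ℓ ∣ (NN' π ε).relIndex M)
    (hpos : Pos 𝔐 ℓ π μ M ω)
    (hstb : STB 𝔐 π μ (NN' π ε) ω) {σ : Finset (Subgroup K)} {θ : L → ℂ}
    (hσ : ChN ℓ (NN' π ε) σ) (hθ : BPs 𝔐 π μ M ω (stb σ) θ)
    (hf0 : Cvd 𝔐 π μ (NN' π ε) ω f0)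
    (hf : ∀ o, IrrOn (⊤ : Subgroup Q) (f o) ∧ Ov q μQ (f o)) (hTF : TF ε f f0) (o : Ω)
    (g : Q → ℂ) (hg : IrrOn (⊤ : Subgroup Q) g) (hgo : Ov q μQ g)
    (hgs : ∀ u : Q → ℤ, CIv (⊤ : Subgroup Q) u → sc 𝔐 g u = sc 𝔐 (f o) u) :
    ¬ HasDefect ℓ g (padicValNat ℓ (Nat.card q.ker)) := by
  classical
  rintro ⟨m, hm, hm'⟩
  choose k hk using fun w => h.tr w o
  have hgg : ∀ w, IrrOn ((⊤ : Subgroup K1).comap q) (fun x => g (α ((φ (k w)).left o) x)) ∧
      Ov q μQ (fun x => g (α ((φ (k w)).left o) x)) := fun w => twist h ⟨hg, hgo⟩ _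
  have hT : ∀ o, IrrOn ((⊤ : Subgroup K1).comap q) (f o) ∧ Ov q μQ (f o) := by
    intro o
    rw [Subgroup.comap_top]
    exact hf o
  have hsc : ∀ (w : Ω) (u : Q → ℤ), CIv (⊤ : Subgroup Q) u →
      sc 𝔐 (fun x => g (α ((φ (k w)).left o) x)) u = sc 𝔐 (f w) u := by
    intro w u hu
    have e1 := sc_move h6 ℓ hM hℓ h hstb hf0 hf hTF (k w) w hu
    rw [hk w] at e1
    have hu' : CIv (⊤ : Subgroup Q) (fun x => u ((α ((φ (k w)).left o)).symm x)) := by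
      intro s _ x
      change u _ = u _
      rw [map_mul, map_mul, map_inv]
      exact hu _ (Subgroup.mem_top _) _
    rw [← e1, sc_comp (α ((φ (k w)).left o)) g, sc_comp (α ((φ (k w)).left o)) (f o),
      hgs _ hu']
  obtain ⟨G, hG1, hG2, hG3⟩ := (h5 L K K1 Q Ω π μ φ q α ε μQ h (fun _ => ⊤)).1
    (fun w x => g (α ((φ (k w)).left o) x)) hgg
  have hscG := (h6 L K K1 Q Ω 𝔐 ℓ hM hℓ π μ φ q α ε μQ h (fun _ => ⊤) (fun _ => ⊤) _ f G f0
    hgg hT hG3 hTF).mp hsc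
  have hNn : (NN' π ε).Normal := normal_N h
  refine h3 L K 𝔐 ℓ hM hℓ π h.πs h.πc μ (NN' π ε) M hNM hidx ω hpos hstb σ θ
    ⟨hσ.1, fun D hD => (hσ.2 D hD).trans hNM⟩ hθ f0 hf0 G (irrOn_congr (AL_top h) hG1) hG2
    hscG ?_
  have hm0 : m ≠ 0 := by
    rintro rfl
    obtain ⟨n, hn, hn'⟩ := (irrOn_top.mp hg).exists_degree
    rw [hm] at hn'
    have : n = 0 := by exact_mod_cast hn'.symm
    omega
  refine ⟨m ^ Fintype.card Ω, ?_, ?_⟩
  · change G 1 = _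
    have h7 := hG3.1 1
    rw [map_one] at h7
    rw [h7]
    have h8 : ∀ w ∈ (Finset.univ : Finset Ω),
        g (α ((φ (k w)).left o) ((1 : Ω → Q) w)) = (m : ℂ) := by
      intro w _
      rw [Pi.one_apply, map_one, hm]
    rw [Finset.prod_congr rfl h8, Finset.prod_const, Finset.card_univ, Nat.cast_pow]
  · obtain ⟨r, hr, h7, h8⟩ := card_eq h
    have h9 := congrArg (padicValNat ℓ) h7
    rw [h8, padicValNat.mul Nat.card_pos.ne' hr, padicValNat.pow]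
    rw [padicValNat.mul (pow_ne_zero _ Nat.card_pos.ne') hr,
      padicValNat.pow, padicValNat.pow, hm', mul_add] at h9
    omega

end

end TRO

open TRO in
/-- TRO: `M` acts trivially on `Ω`. -/
theorem TRO_thm (Cl : ∀ (Y : Type) [Group Y], Prop) (h1 : Stmt_PS1r Cl) (h2 : Stmt_NPT)
    (h3 : Stmt_PSN) (h4 : Stmt_SST) (h5 : Stmt_TNA) (h6 : Stmt_LMT) : Stmt_TRO Cl := by
  classical
  intro L K K1 Q Ω _ _ _ _ _ _ _ _ _ 𝔐 ℓ _ hM hℓ π μ φ q α ε μQ h hC hH M _ hNM hidx ω hpos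
    hstb hspp σ θ hσ hθ m hm
  have hNn : (NN' π ε).Normal := normal_N h
  obtain ⟨-, -, -, -, -, -, -, -, ⟨f0, hf0⟩, -⟩ := h2 L K 𝔐 ℓ hM hℓ π h.πs h.πc μ (NN' π ε) M
    hNM ω hstb hspp σ θ hσ hθ
  obtain ⟨f, hfT, hTF⟩ := (h5 L K K1 Q Ω π μ φ q α ε μQ h (fun _ => ⊤)).2.1 f0
    (irrOn_congr (AL_top h).symm hf0.1) hf0.2.1
  have hf : ∀ o, IrrOn (⊤ : Subgroup Q) (f o) ∧ Ov q μQ (f o) := by
    intro o
    have h7 := hfT o
    rw [Subgroup.comap_top] at h7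
    exact h7
  have hqc : q.ker ≤ Subgroup.center Q := by
    intro z hz
    rw [Subgroup.mem_center_iff]
    intro x
    have h7 := h.αz (q x) z hz
    rw [h.qα] at h7
    have h8 : x * z * x⁻¹ * x = z * x := by rw [h7]
    rwa [inv_mul_cancel_right] at h8
  ext o
  rw [Equiv.Perm.one_apply]
  obtain ⟨σ1, f1, hσ1, hne, hf1, hf1o, hf1s⟩ := exists_chain Cl h1 Q K1 𝔐 ℓ hM hℓ q hqc μQ h.μQi
    hC hH (f o) (hf o).1 (hf o).2
    (no_min h3 h5 h6 ℓ hM hℓ h M hNM hidx hpos hstb hσ hθ hf0 hf hTF o)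
  have hP := chN_PC h o hσ1
  have hS' : ∀ w, IrrOn ((Function.update (fun _ => (⊤ : Subgroup K1)) o (stb σ1) w).comap q)
      (Function.update f o f1 w) ∧ Ov q μQ (Function.update f o f1 w) := by
    intro w
    by_cases hw : w = o
    · subst hw
      rw [Function.update_self, Function.update_self]
      exact ⟨hf1, hf1o⟩
    · rw [Function.update_of_ne hw, Function.update_of_ne hw]
      exact hfT w
  obtain ⟨G, hG1, hG2, hG3⟩ := (h5 L K K1 Q Ω π μ φ q α ε μQ h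
    (Function.update (fun _ => (⊤ : Subgroup K1)) o (stb σ1))).1 (Function.update f o f1) hS'
  have hG4 : IrrOn (AL π (NN' π ε) (stb (PC φ o σ1))) G := by
    refine irrOn_congr ?_ hG1
    change (NN' π ε ⊓ PS φ _).comap π = (NN' π ε ⊓ _).comap π
    rw [← inf_stb h o hσ1]
  have hGs := (h6 L K K1 Q Ω 𝔐 ℓ hM hℓ π μ φ q α ε μQ h
    (Function.update (fun _ => (⊤ : Subgroup K1)) o (stb σ1)) (fun _ => ⊤)
    (Function.update f o f1) f G f0 hS' hfT hG3 hTF).mp (by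
      intro w u hu
      by_cases hw : w = o
      · subst hw
        rw [Function.update_self]
        exact hf1s u hu
      · rw [Function.update_of_ne hw])
  obtain ⟨x, hx⟩ := h.πs m
  obtain ⟨u, v, hu, hv, hus, hvs, huv⟩ := hspp f0 hf0 x (by rw [hx]; exact hm)
  have hcs : SOn ((NN' π ε).comap π : Set L) (conv u v) := by
    intro z hz
    rw [conv]
    refine Finset.sum_eq_zero fun y _ => ?_
    by_cases hy : u y = 0
    · rw [hy, zero_mul]
    · by_cases hy' : v (y⁻¹ * z) = 0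
      · rw [hy', mul_zero]
      · exfalso
        apply hz
        have e1 : π (x⁻¹ * y) ∈ NN' π ε := by
          by_contra h7
          exact hy (hus y h7)
        have e2 : π (x * (y⁻¹ * z)) ∈ NN' π ε := by
          by_contra h7
          exact hy' (hvs _ h7)
        have e3 := hNn.conj_mem _ e1 (π x)
        have e4 := (NN' π ε).mul_mem e3 e2
        have e5 : π x * π (x⁻¹ * y) * (π x)⁻¹ * π (x * (y⁻¹ * z)) = π z := by
          simp only [map_mul, map_inv]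
          group
        rw [e5] at e4
        exact e4
  have hne0 : sc 𝔐 G (conv u v) ≠ 0 := by
    rw [hGs _ (NPT.conv_civ hu hv) hcs]
    exact huv
  obtain ⟨⟨t, ht, ht'⟩, -⟩ := h4 L K 𝔐 ℓ hM hℓ π h.πs h.πc (NN' π ε) (PC φ o σ1) hP G hG4 x u v
    hu hv hus hvs hne0
  have h7 := stb_fix h o hσ1 hne ht
  have h8 := ((mem_N h _).mp ht').1
  have h9 : (φ (π t)).right = (φ m).right := by
    rw [map_mul, map_inv, hx, map_mul, map_inv, SemidirectProduct.mul_right,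
      SemidirectProduct.inv_right] at h8
    exact (inv_mul_eq_one.mp h8).symm
  rw [← h9]
  exact h7

end Pool.Agent.DPG
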