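import Mathlib
import Pool.Agent.DPG.StmtsB
import Pool.Agent.DPG.BEM

/-!
# UPP: the pairs of `L` which belong to the pairs of `L1`
-/

set_option autoImplicit false

namespace Pool.Agent.DPG

open Pool.Agent.DP Pool.Agent.DPC Pool.Agent.DPM Pool.Agent.DPN Pool.Agent.DPF
  Pool.Agent.Lib_helper13 Representation
open Pool.Agent.Lib_helper13.Dade (pCore DadeHolds dadeSum)

namespace UPP

/-- Two functions with the same scalars have the same central function. -/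
theorem cg_of_sc {L : Type} [Group L] [Fintype L] (𝔐 : Ideal (integralClosure ℤ ℂ))
    (S : Subgroup L) {F G : L → ℂ} (h : ∀ u : L → ℤ, CIv S u → sc 𝔐 F u = sc 𝔐 G u) (g : L) :
    cg 𝔐 F g = cg 𝔐 G g := by
  rw [BEM.cg_eq, BEM.cg_eq]
  exact h (BEM.cI g) fun s _ x => BEM.cI_conj g s x

end UPP

theorem UPP_thm (h1 : Stmt_RSC) (h2 : Stmt_ZCO) (h3 : Stmt_CMA) (h4 : Stmt_ZIN)
    (h5 : Stmt_CST) : Stmt_UPP := by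
  intro L K K1 Q L1 Ω _ _ _ _ _ _ _ _ _ _ _ _ 𝔐 ℓ _ hM hℓ π μ φ q α ε μQ π1 μ1 ι M M1 σr Fr ζ r
    ω θr hTr hBr σ F hσ hF
  obtain ⟨-, hR⟩ := h1 L K K1 Q L1 Ω 𝔐 ℓ hM hℓ π μ φ q α ε μQ π1 μ1 ι M M1 σr Fr ζ r
  obtain ⟨hq, hE, hs, hsc⟩ := hR σ F hσ hF
  obtain ⟨θ, hθ, hov, hT⟩ := h2 L K K1 Q L1 Ω ℓ π μ φ q α ε μQ π1 μ1 ι M M1 r.wd r.ld r.mm σ F
    hq hE hF.ovl ζ r.zt
  obtain ⟨-, -, hC⟩ := h5 L K K1 Q Ω ℓ π μ φ q α ε μQ r.wd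
  obtain ⟨-, -, -, -, -, hC6, -⟩ := hC σ hq
  have hcm := h3 L K K1 Q L1 Ω 𝔐 ℓ hM hℓ π μ φ q α ε μQ π1 μ1 ι M M1 r.wd r.ld r.mm (stb σ)
    (stb σr) F Fr hE r.ef hF.ovl r.ov hsc ζ r.zt (stb (cstC φ (NN' π ε) σ))
    (stb (cstC φ (NN' π ε) σr)) θ θr hθ hBr.irr hT hTr
  refine ⟨θ, hT, hθ, hov, ?_, ?_, ?_⟩
  · intro g hg
    rw [UPP.cg_of_sc 𝔐 (M.comap π) hcm g]
    exact hBr.cn g hg
  · have h6 := hC6 hs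
    rw [eq_top_iff] at h6 ⊢
    exact h6.trans (sup_le_sup_right r.mm.le _)
  · exact (h4 L K K1 Q L1 Ω ℓ π μ φ q α ε μQ π1 μ1 ι M M1 r.wd r.ld r.mm σ F hq hE hF.ovl hs hF.iv
      ζ r.zt θ hT).2 r.zi

end Pool.Agent.DPG
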