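import Pool.Agent.DPG.StmtsB
import Pool.Agent.DPG.SYT

/-!
# VCL: the vertex group belongs to the class
-/

namespace Pool.Agent.DPG

open Pool.Agent.DP Pool.Agent.DPC Pool.Agent.DPM Pool.Agent.DPN Pool.Agent.DPF
  Pool.Agent.DPK Pool.Agent.Lib_helper13 Representation

theorem VCL_thm (Cl : ∀ (Y : Type) [Group Y], Prop) : Stmt_VCL Cl := by
  intro hG K K1 Q Ω _ _ _ _ _ _ φ q hφ hK
  obtain ⟨o⟩ := ‹Nonempty Ω›
  have h1 : Cl K1 := by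
    refine hG.im _ _ (SYT.cf φ o) ?_ (hG.sub hK (SYT.st φ o))
    intro b
    obtain ⟨k, hk, hb⟩ := hφ o b
    exact ⟨⟨k, hk⟩, hb⟩
  exact ⟨h1, hG.sub h1 q.range⟩

end Pool.Agent.DPG
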