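import Pool.Agent.DPG.StmtsB
import Pool.Agent.DPN.Base
import Pool.Agent.DP.IRRPI
import Pool.Agent.DP.QL

/-!
# ZEX: a character over a product of characters is a product
-/

namespace Pool.Agent.DPG

open Pool.Agent.DP Pool.Agent.DPC Pool.Agent.DPM Pool.Agent.DPN Pool.Agent.DPF
  Pool.Agent.DPK Pool.Agent.Lib_helper13 Representation
open Pool.Agent.Lib_helper13.Dade (pCore DadeHolds dadeSum)

namespace ZEX

/-- An injective homomorphism onto the kernel of a homomorphism. -/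
theorem exists_clG {A Y K : Type} [Group A] [Group Y] [Group K] (j : A →* Y)
    (hj : Function.Injective j) (p : Y →* K) (hp : ∀ y, p y = 1 ↔ y ∈ j.range) :
    ∃ c : Y →* MulAut A, ClG j c p := by
  have hn : j.range.Normal := by
    have h1 : j.range = p.ker := by
      ext y
      rw [MonoidHom.mem_ker, hp]
    rw [h1]
    infer_instance
  let e : A ≃* j.range := MonoidHom.ofInjective hj
  refine ⟨(MulAut.congr e.symm).toMonoidHom.comp (MulAut.conjNormal : Y →* MulAut j.range),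
    ⟨hj, ?_, hp⟩⟩
  intro y a
  have h1 : ∀ b : j.range, j (e.symm b) = b := by
    intro b
    have h2 := MonoidHom.apply_ofInjective_symm hj b
    exact h2
  change j (e.symm (MulAut.conjNormal y (e a))) = _
  rw [h1, MulAut.conjNormal_apply]
  rfl

section Cen

variable {K1 Q L1 : Type} [Group K1] [Group Q] [Group L1]

/-- The restriction of an irreducible character to a subgroup which generates the group together
with central elements. -/
theorem res_irr [Finite Q] [Finite L1] {q : Q →* K1} {π1 : L1 →* K1} {μ1 : π1.ker →* ℂˣ}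
    {ι : Q →* L1} (hc : π1.ker ≤ Subgroup.center L1) (hι : ∀ x, π1 (ι x) = q x)
    (S : Subgroup K1) {F : L1 → ℂ} (hF : IsIrr (fun a : AL π1 q.range S => F a))
    (hov : Ov π1 μ1 F) : IsIrr (fun a : ↥(S.comap q) => F (ι a)) := by
  classical
  have i1 : Fintype ↥(S.comap q) := Fintype.ofFinite _
  have i2 : Fintype π1.ker := Fintype.ofFinite _
  have i3 : Fintype (AL π1 q.range S) := Fintype.ofFinite _
  let p : ↥(S.comap q) × π1.ker →* AL π1 q.range S :=
    { toFun := fun x => ⟨(x.2 : L1) * ι x.1, by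
        change π1 _ ∈ q.range ⊓ S
        have h1 : π1 ((x.2 : L1) * ι x.1) = q x.1 := by
          rw [map_mul, MonoidHom.mem_ker.mp x.2.2, one_mul, hι]
        rw [h1]
        exact Subgroup.mem_inf.mpr ⟨⟨_, rfl⟩, x.1.2⟩⟩
      map_one' := by
        apply Subtype.ext
        simp
      map_mul' := by
        intro x y
        apply Subtype.ext
        change ((x.2 : L1) * (y.2 : L1)) * ι ((x.1 : Q) * (y.1 : Q)) =
          ((x.2 : L1) * ι x.1) * ((y.2 : L1) * ι y.1)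
        have h1 : (y.2 : L1) * ι x.1 = ι x.1 * (y.2 : L1) :=
          (Subgroup.mem_center_iff.mp (hc y.2.2) (ι x.1)).symm
        rw [map_mul]
        calc ((x.2 : L1) * (y.2 : L1)) * (ι x.1 * ι y.1)
            = (x.2 : L1) * ((y.2 : L1) * ι x.1) * ι y.1 := by group
          _ = ((x.2 : L1) * ι x.1) * ((y.2 : L1) * ι y.1) := by rw [h1]; group }
  have hp : Function.Surjective p := by
    rintro ⟨y, hy⟩
    obtain ⟨⟨x, hx⟩, hy2⟩ := Subgroup.mem_inf.mp hy
    refine ⟨(⟨x, by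
      change q x ∈ S
      rw [hx]
      exact hy2⟩, ⟨y * (ι x)⁻¹, by
      rw [MonoidHom.mem_ker, map_mul, map_inv, hι, hx, mul_inv_cancel]⟩), ?_⟩
    apply Subtype.ext
    change (y * (ι x)⁻¹) * ι x = y
    group
  have h1 := QL.irr_comp p hp hF
  have h2 := h1.sum_self
  have hch : IsChr (fun a : ↥(S.comap q) => F (ι a)) := by
    have h3 := h1.isChr.comp (MonoidHom.inl ↥(S.comap q) π1.ker)
    have h4 : (fun a : ↥(S.comap q) => F (ι a)) =
        fun x => (fun x => F ((p x : AL π1 q.range S) : L1))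
          ((MonoidHom.inl ↥(S.comap q) π1.ker) x) := by
      funext a
      change F (ι a) = F ((1 : L1) * ι a)
      rw [one_mul]
    rw [h4]
    exact h3
  refine hch.isIrr ?_
  have h5 : ∀ x : ↥(S.comap q) × π1.ker,
      F ((p x : AL π1 q.range S) : L1) * F ((p x⁻¹ : AL π1 q.range S) : L1) =
        F (ι x.1) * F (ι (x.1⁻¹ : ↥(S.comap q))) := by
    intro x
    have h6 : F ((p x : AL π1 q.range S) : L1) = ((μ1 x.2 : ℂˣ) : ℂ) * F (ι x.1) := hov x.2 _
    have h7 : F ((p x⁻¹ : AL π1 q.range S) : L1) =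
        ((μ1 x.2⁻¹ : ℂˣ) : ℂ) * F (ι (x.1⁻¹ : ↥(S.comap q))) := hov x.2⁻¹ _
    rw [h6, h7, map_inv, Units.val_inv_eq_inv_val]
    have h8 : ((μ1 x.2 : ℂˣ) : ℂ) ≠ 0 := Units.ne_zero _
    field_simp
  rw [Finset.sum_congr rfl fun x _ => h5 x, Fintype.sum_prod_type] at h2
  simp only [Finset.sum_const, Finset.card_univ, nsmul_eq_mul] at h2
  rw [← Finset.mul_sum, Nat.card_prod, Nat.cast_mul, mul_comm (Nat.card ↥(S.comap q) : ℂ),
    ← Nat.card_eq_fintype_card] at h2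
  exact mul_left_cancel₀ (Nat.cast_ne_zero.mpr Nat.card_pos.ne') h2

end Cen

section Wr

variable {L K K1 Q L1 Ω : Type} [Group L] [Group K] [Group K1] [Group Q] [Group L1]
  [Fintype Ω]

/-- The elements above `M` and `T`. -/
def MS (π : L →* K) (φ : K →* Gam (Equiv.Perm Ω) Ω K1) (π1 : L1 →* K1) (M T : Subgroup K) :
    Subgroup (L × Gam (Equiv.Perm Ω) Ω L1) :=
  MY π φ π1 M ⊓ T.comap (π.comp (MonoidHom.fst L (Gam (Equiv.Perm Ω) Ω L1)))

variable {ℓ : ℕ} {π : L →* K} {μ : π.ker →* ℂˣ}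
  {φ : K →* Gam (Equiv.Perm Ω) Ω K1} {q : Q →* K1} {α : K1 →* MulAut Q}
  {ε : (Ω → Q) →* L} {μQ : q.ker →* ℂˣ} {π1 : L1 →* K1} {μ1 : π1.ker →* ℂˣ}
  {ι : Q →* L1} {M : Subgroup K} {M1 : Subgroup K1}

omit [Fintype Ω] in
theorem mem_MY {x : L × Gam (Equiv.Perm Ω) Ω L1} :
    x ∈ MY π φ π1 M ↔ φ (π x.1) = gmap Ω π1 x.2 ∧ π x.1 ∈ M := Iff.rfl

omit [Fintype Ω] in
theorem mem_MS {T : Subgroup K} {x : L × Gam (Equiv.Perm Ω) Ω L1} :
    x ∈ MS π φ π1 M T ↔ x ∈ MY π φ π1 M ∧ π x.1 ∈ T := Iff.rfl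

theorem left_eq {x : L × Gam (Equiv.Perm Ω) Ω L1} (hx : x ∈ MY π φ π1 M) (o : Ω) :
    π1 (x.2.left o) = (φ (π x.1)).left o := by
  rw [(mem_MY.mp hx).1]
  rfl

theorem right_eq (hM : MM ℓ π φ q ε M M1) {x : L × Gam (Equiv.Perm Ω) Ω L1}
    (hx : x ∈ MY π φ π1 M) : x.2.right = 1 := by
  have h1 : x.2.right = (φ (π x.1)).right := by
    rw [(mem_MY.mp hx).1]
    rfl
  rw [h1, hM.r _ (mem_MY.mp hx).2]

theorem left_mul (hM : MM ℓ π φ q ε M M1) {x : L × Gam (Equiv.Perm Ω) Ω L1}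
    (hx : x ∈ MY π φ π1 M) (y : L × Gam (Equiv.Perm Ω) Ω L1) (o : Ω) :
    (x * y).2.left o = x.2.left o * y.2.left o := by
  change x.2.left o * y.2.left (x.2.right⁻¹ • o) = _
  rw [right_eq hM hx, inv_one, one_smul]

theorem dY_mem (hW : WD π μ φ q α ε μQ) (hL : LD q α μQ π1 μ1 ι) (hM : MM ℓ π φ q ε M M1)
    (n : Ω → Q) : dY ε ι n ∈ MY π φ π1 M := by
  rw [mem_MY]
  refine ⟨?_, hM.le ⟨ε n, ⟨n, rfl⟩, rfl⟩⟩
  change φ (π (ε n)) = gmap Ω π1 (gin (fun o => ι (n o)))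
  rw [hW.φε]
  apply SemidirectProduct.ext
  · funext o
    exact (hL.πι (n o)).symm
  · rfl

/-- The homomorphism `dY`. -/
def jY (hW : WD π μ φ q α ε μQ) (hL : LD q α μQ π1 μ1 ι) (hM : MM ℓ π φ q ε M M1) :
    (Ω → Q) →* MY π φ π1 M where
  toFun n := ⟨dY ε ι n, dY_mem hW hL hM n⟩
  map_one' := by
    apply Subtype.ext
    change (ε 1, gin (fun o => ι ((1 : Ω → Q) o))) = 1
    rw [map_one]
    apply Prod.ext
    · rfl
    · apply SemidirectProduct.ext
      · funext o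
        change ι 1 = 1
        exact map_one ι
      · rfl
  map_mul' := by
    intro a b
    apply Subtype.ext
    change (ε (a * b), gin (fun o => ι ((a * b) o))) =
      (ε a * ε b, gin (fun o => ι (a o)) * gin (fun o => ι (b o)))
    rw [map_mul]
    apply Prod.ext
    · rfl
    · change gin (fun o => ι ((a * b) o)) = gin (fun o => ι (a o)) * gin (fun o => ι (b o))
      unfold gin
      rw [← map_mul]
      congr 1
      funext o
      exact map_mul ι _ _

theorem jY_inj (hW : WD π μ φ q α ε μQ) (hL : LD q α μQ π1 μ1 ι) (hM : MM ℓ π φ q ε M M1) :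
    Function.Injective (jY (π1 := π1) hW hL hM) := by
  intro a b hab
  have h1 : dY ε ι a = dY ε ι b := congrArg Subtype.val hab
  have h2 : (gin (fun o => ι (a o)) : Gam (Equiv.Perm Ω) Ω L1) = gin (fun o => ι (b o)) :=
    congrArg Prod.snd h1
  funext o
  have h3 := congrFun (congrArg SemidirectProduct.left h2) o
  exact hL.ιi h3

theorem jY_normal (hW : WD π μ φ q α ε μQ) (hL : LD q α μQ π1 μ1 ι)
    (hM : MM ℓ π φ q ε M M1) : (jY (π1 := π1) hW hL hM).range.Normal := by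
  refine ⟨?_⟩
  rintro _ ⟨n, rfl⟩ x
  refine ⟨wB α Ω (φ (π (x : L × Gam (Equiv.Perm Ω) Ω L1).1)) n, ?_⟩
  apply Subtype.ext
  change dY ε ι (wB α Ω (φ (π (x : L × Gam (Equiv.Perm Ω) Ω L1).1)) n) =
    (x : L × Gam (Equiv.Perm Ω) Ω L1) * dY ε ι n * (x : L × Gam (Equiv.Perm Ω) Ω L1)⁻¹
  obtain ⟨⟨l, g⟩, hx⟩ := x
  have hr : g.right = 1 := right_eq hM hx
  have hrk : (φ (π l)).right = 1 := hM.r _ (mem_MY.mp hx).2
  apply Prod.ext
  · exact hW.cj l n
  · change gin (fun o => ι (wB α Ω (φ (π l)) n o)) = g * gin (fun o => ι (n o)) * g⁻¹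
    apply SemidirectProduct.ext
    · funext o
      have h2 : (φ (π l)).left o = π1 (g.left o) := (left_eq hx o).symm
      change ι (α ((φ (π l)).left o) (n ((φ (π l)).right⁻¹ • o))) =
        g.left o * ι (n (g.right⁻¹ • o)) *
          (g.left (g.right⁻¹⁻¹ • ((g.right * 1)⁻¹ • o)))⁻¹
      rw [hrk, hr, h2]
      simp only [inv_one, one_smul, mul_one]
      exact hL.ια _ _
    · change (1 : Equiv.Perm Ω) = g.right * 1 * g.right⁻¹
      rw [mul_one, mul_inv_cancel]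

theorem gz_mem (z : Ω → π1.ker) : ((1 : L), (gin (fun o => (z o : L1)) :
    Gam (Equiv.Perm Ω) Ω L1)) ∈ MY π φ π1 M := by
  rw [mem_MY]
  refine ⟨?_, ?_⟩
  · change φ (π 1) = gmap Ω π1 (gin (fun o => (z o : L1)))
    rw [map_one, map_one]
    apply SemidirectProduct.ext
    · funext o
      exact (MonoidHom.mem_ker.mp (z o).2).symm
    · rfl
  · change π 1 ∈ M
    rw [map_one]
    exact M.one_mem

theorem exists_MS (hW : WD π μ φ q α ε μQ) (hL : LD q α μQ π1 μ1 ι)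
    (hM : MM ℓ π φ q ε M M1) (hq : q.range.Normal) {S : Subgroup K1} {T : Subgroup K}
    (hT : ∀ k, k ∈ T ↔ ∀ o, (φ k).left o ∈ S) (hcov : M1 ≤ q.range ⊔ S)
    {x : L × Gam (Equiv.Perm Ω) Ω L1} (hx : x ∈ MY π φ π1 M) :
    ∃ n : Ω → Q, x * dY ε ι n ∈ MS π φ π1 M T := by
  have h1 : ∀ o, ∃ n : Q, π1 (x.2.left o) * q n ∈ S := by
    intro o
    have h2 : π1 (x.2.left o) ∈ M1 := by
      rw [left_eq hx]
      exact hM.l _ (mem_MY.mp hx).2 o
    obtain ⟨s, hs, _, ⟨n, rfl⟩, h3⟩ := Subgroup.mem_sup_of_normal_right.mp (by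
      have h4 := hcov h2
      rw [sup_comm] at h4
      exact h4)
    refine ⟨n⁻¹, ?_⟩
    rw [← h3, map_inv, mul_assoc, mul_inv_cancel, mul_one]
    exact hs
  choose n hn using h1
  refine ⟨n, ?_⟩
  have h5 : x * dY ε ι n ∈ MY π φ π1 M := (MY π φ π1 M).mul_mem hx (dY_mem hW hL hM n)
  refine mem_MS.mpr ⟨h5, ?_⟩
  rw [hT]
  intro o
  rw [← left_eq h5, left_mul hM hx, map_mul]
  have h6 : π1 ((dY ε ι n).2.left o) = q (n o) := hL.πι (n o)
  rw [h6]
  exact hn o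

theorem core [Fintype L] [Fintype K] [Fintype K1] [Fintype Q] [Fintype L1]
    (hW : WD π μ φ q α ε μQ) (hL : LD q α μQ π1 μ1 ι)
    (hM : MM ℓ π φ q ε M M1) (hq : q.range.Normal) (S : Subgroup K1) (T : Subgroup K)
    (hT : ∀ k, k ∈ T ↔ ∀ o, (φ k).left o ∈ S) {F : L1 → ℂ} (hF : EF π1 q.range M1 S F)
    (hov : Ov π1 μ1 F) {θ : L → ℂ} {e : ℂ} (hθ : IrrOn (AL π M T) θ)
    (hθe : ∀ n : Ω → Q, θ (ε n) = e * ∏ o, F (ι (n o))) :
    ∃ ζ, ZT π φ π1 μ1 ε ι M ζ ∧ TP π φ π1 M F ζ θ := by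
  classical
  have i0 : Fintype (Gam (Equiv.Perm Ω) Ω L1) := gamFintype _ _ _
  have hDn := jY_normal (π1 := π1) hW hL hM
  set DD : Subgroup ↥(MY π φ π1 M) := (jY (π1 := π1) hW hL hM).range with hDD
  have i1 : Fintype ↥(MS π φ π1 M T) := Fintype.ofFinite _
  have i2 : Fintype (↥(MY π φ π1 M) ⧸ DD) := Fintype.ofFinite _
  have i3 : Fintype ↥(MY π φ π1 M) := Fintype.ofFinite _
  let P : Subgroup (Ω → Q) := pK (fun _ : Ω => S.comap q)
  have i4 : Fintype P := Fintype.ofFinite _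
  have hφε : ∀ (n : Ω → Q) o, (φ (π (ε n))).left o = q (n o) := by
    intro n o
    rw [hW.φε]
    rfl
  have hjm : ∀ a : P, dY ε ι (a : Ω → Q) ∈ MS π φ π1 M T := by
    intro a
    refine mem_MS.mpr ⟨dY_mem hW hL hM a, ?_⟩
    rw [hT]
    intro o
    change (φ (π (ε a))).left o ∈ S
    rw [hφε]
    exact mem_pK.mp a.2 o
  let j : P →* ↥(MS π φ π1 M T) :=
    (((MY π φ π1 M).subtype.comp (jY (π1 := π1) hW hL hM)).comp P.subtype).codRestrict
      (MS π φ π1 M T) hjm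
  have hjv : ∀ a : P, ((j a : ↥(MS π φ π1 M T)) : L × Gam (Equiv.Perm Ω) Ω L1) =
    dY ε ι (a : Ω → Q) := fun a => rfl
  have hj : Function.Injective j := by
    intro a b hab
    have h1 : dY ε ι (a : Ω → Q) = dY ε ι (b : Ω → Q) := congrArg Subtype.val hab
    apply Subtype.ext
    exact jY_inj (π1 := π1) hW hL hM (Subtype.ext h1)
  let p : ↥(MS π φ π1 M T) →* ↥(MY π φ π1 M) ⧸ DD :=
    (QuotientGroup.mk' DD).comp (Subgroup.inclusion (inf_le_left :
      MS π φ π1 M T ≤ MY π φ π1 M))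
  have hp : ∀ y, p y = 1 ↔ y ∈ j.range := by
    intro y
    change QuotientGroup.mk' DD (Subgroup.inclusion _ y) = 1 ↔ _
    rw [QuotientGroup.mk'_apply, QuotientGroup.eq_one_iff]
    constructor
    · rintro ⟨n, hn⟩
      have hn' : dY ε ι n = (y : L × Gam (Equiv.Perm Ω) Ω L1) := congrArg Subtype.val hn
      have h1 : n ∈ P := by
        refine mem_pK.mpr fun o => ?_
        have h2 := (hT _).mp (mem_MS.mp y.2).2 o
        rw [← hn'] at h2
        change (φ (π (ε n))).left o ∈ S at h2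
        rw [hφε] at h2
        exact h2
      exact ⟨⟨n, h1⟩, Subtype.ext hn'⟩
    · rintro ⟨a, rfl⟩
      exact ⟨a, rfl⟩
  obtain ⟨c, hc⟩ := exists_clG j hj p hp
  have hps : Function.Surjective p := by
    intro x
    obtain ⟨⟨x, hx⟩, rfl⟩ := QuotientGroup.mk'_surjective DD x
    obtain ⟨n, hn⟩ := exists_MS hW hL hM hq hT hF.cov hx
    refine ⟨⟨_, hn⟩, ?_⟩
    change QuotientGroup.mk' DD _ = QuotientGroup.mk' DD _
    rw [QuotientGroup.mk'_apply, QuotientGroup.mk'_apply, eq_comm, QuotientGroup.eq]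
    refine ⟨n, ?_⟩
    apply Subtype.ext
    change dY ε ι n = x⁻¹ * (x * dY ε ι n)
    group
  -- the characters
  have hFq : IsIrr (fun a : ↥(S.comap q) => F (ι a)) :=
    res_irr hL.c hL.πι S hF.res hov
  have hFq0 : ∀ x, x ∉ S.comap q → F (ι x) = 0 := by
    intro x hx
    refine hF.irr.2 _ fun h => hx ?_
    have h1 := (Subgroup.mem_inf.mp h).2
    rw [hL.πι] at h1
    exact h1
  have hθA : IsIrr (fun a : P => ∏ o, F (ι ((a : Ω → Q) o))) :=
    (IRRPI_thm Ω Q (fun _ => S.comap q) P rfl).1 (fun _ x => F (ι x))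
      (fun _ => ⟨hFq, hFq0⟩)
  have hE : IsChr (fun x : ↥(MS π φ π1 M T) =>
      ∏ o, F ((x : L × Gam (Equiv.Perm Ω) Ω L1).2.left o)) := by
    refine IsChr.prod Finset.univ (fun o (x : ↥(MS π φ π1 M T)) =>
      F ((x : L × Gam (Equiv.Perm Ω) Ω L1).2.left o)) fun o => ?_
    let r : ↥(MS π φ π1 M T) →* ↥(AL π1 M1 S) :=
      { toFun := fun x => ⟨(x : L × Gam (Equiv.Perm Ω) Ω L1).2.left o, by
          change π1 _ ∈ M1 ⊓ S
          rw [left_eq (mem_MS.mp x.2).1]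
          exact Subgroup.mem_inf.mpr ⟨hM.l _ (mem_MY.mp (mem_MS.mp x.2).1).2 o,
            (hT _).mp (mem_MS.mp x.2).2 o⟩⟩
        map_one' := rfl
        map_mul' := by
          intro x y
          apply Subtype.ext
          exact left_mul hM (mem_MS.mp x.2).1 _ o }
    exact hF.irr.1.isChr.comp r
  have hψ : IsIrr (fun x : ↥(MS π φ π1 M T) =>
      θ (x : L × Gam (Equiv.Perm Ω) Ω L1).1) := by
    let r : ↥(MS π φ π1 M T) →* ↥(AL π M T) :=
      ((MonoidHom.fst L (Gam (Equiv.Perm Ω) Ω L1)).comp (MS π φ π1 M T).subtype).codRestrict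
        (AL π M T) (fun x => Subgroup.mem_inf.mpr
          ⟨(mem_MY.mp (mem_MS.mp x.2).1).2, (mem_MS.mp x.2).2⟩)
    have hr : Function.Surjective r := by
      rintro ⟨l, hl⟩
      have hl' := Subgroup.mem_inf.mp hl
      have h1 : ∀ o, ∃ y, π1 y = (φ (π l)).left o := fun o => hL.s _
      choose y hy using h1
      refine ⟨⟨(l, (⟨y, (φ (π l)).right⟩ : Gam (Equiv.Perm Ω) Ω L1)), ?_⟩, rfl⟩
      refine mem_MS.mpr ⟨mem_MY.mpr ⟨?_, hl'.1⟩, hl'.2⟩
      apply SemidirectProduct.ext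
      · funext o
        exact (hy o).symm
      · rfl
    have i5 : Fintype ↥(AL π M T) := Fintype.ofFinite _
    exact QL.irr_comp r hr hθ.1
  have he : e ≠ 0 := by
    rintro rfl
    have h1 := hθe 1
    rw [map_one, zero_mul] at h1
    exact hθ.1.one_ne_zero h1
  obtain ⟨η, hη, hηe⟩ := (b_GALL P ↥(MS π φ π1 M T) (↥(MY π φ π1 M) ⧸ DD) j c p hc hps _
    _ hθA hE (fun a => rfl)).2.2 _ hψ (by
      have h1 : resj j (fun x : ↥(MS π φ π1 M T) =>
          θ (x : L × Gam (Equiv.Perm Ω) Ω L1).1) =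
          fun a : P => e * ∏ o, F (ι ((a : Ω → Q) o)) := by
        funext a
        exact hθe a
      have h2 := ip_self hθA
      rw [h1]
      unfold ip at h2 ⊢
      have h3 : ∀ a : P, (e * ∏ o, F (ι ((a : Ω → Q) o))) *
          ∏ o, F (ι (((a⁻¹ : P) : Ω → Q) o)) = e * ((∏ o, F (ι ((a : Ω → Q) o))) *
          ∏ o, F (ι (((a⁻¹ : P) : Ω → Q) o))) := fun a => by ring
      rw [Finset.sum_congr rfl fun a _ => h3 a, ← Finset.mul_sum, mul_div_assoc, h2, mul_one]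
      exact he)
  have hval : ∀ (x : L × Gam (Equiv.Perm Ω) Ω L1) (hx : x ∈ MS π φ π1 M T),
      θ x.1 = (∏ o, F (x.2.left o)) * η (QuotientGroup.mk' DD ⟨x, (mem_MS.mp hx).1⟩) :=
    fun x hx => congrFun hηe ⟨x, hx⟩
  -- the function
  let ζ : L × Gam (Equiv.Perm Ω) Ω L1 → ℂ := fun x =>
    if h : x ∈ MY π φ π1 M then η (QuotientGroup.mk' DD ⟨x, h⟩) else 0
  have hζ : ∀ x (h : x ∈ MY π φ π1 M), ζ x = η (QuotientGroup.mk' DD ⟨x, h⟩) :=
    fun x h => dif_pos h
  have hζ0 : ∀ x, x ∉ MY π φ π1 M → ζ x = 0 := fun x h => dif_neg h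
  have hd : ∀ (n : Ω → Q) (x), ζ (x * dY ε ι n) = ζ x := by
    intro n x
    have h1 := dY_mem (π1 := π1) hW hL hM n
    by_cases hx : x ∈ MY π φ π1 M
    · rw [hζ x hx, hζ _ ((MY π φ π1 M).mul_mem hx h1)]
      congr 1
      rw [QuotientGroup.mk'_apply, QuotientGroup.mk'_apply, eq_comm, QuotientGroup.eq]
      refine ⟨n, ?_⟩
      apply Subtype.ext
      change dY ε ι n = x⁻¹ * (x * dY ε ι n)
      group
    · rw [hζ0 x hx, hζ0]
      intro h
      exact hx (((MY π φ π1 M).mul_mem_cancel_right h1).mp h)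
  refine ⟨ζ, ⟨⟨?_, hζ0⟩, hd, ?_⟩, ?_, ?_⟩
  · have h1 : (fun s : ↥(MY π φ π1 M) => ζ s) = fun s => η (QuotientGroup.mk' DD s) := by
      funext s
      exact hζ s s.2
    rw [h1]
    exact QL.irr_comp (QuotientGroup.mk' DD) (QuotientGroup.mk'_surjective DD) hη
  · intro z x
    have hg := gz_mem (π := π) (φ := φ) (M := M) z
    by_cases hx : x ∈ MY π φ π1 M
    · obtain ⟨n1, hn1⟩ := exists_MS hW hL hM hq hT hF.cov hx
      have h1 := COSET_thm P ↥(MS π φ π1 M T) (↥(MY π φ π1 M) ⧸ DD) j c p hc _ _ hθA hE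
        (fun a => rfl) ⟨_, hn1⟩
      have h2 : ∃ a : P, (∏ o, F ((((⟨_, hn1⟩ * j a : ↥(MS π φ π1 M T))) :
          L × Gam (Equiv.Perm Ω) Ω L1).2.left o)) ≠ 0 := by
        by_contra hcon
        push Not at hcon
        rw [Finset.sum_congr rfl fun a _ => by rw [hcon a, zero_mul]] at h1
        rw [Finset.sum_const_zero] at h1
        exact (Nat.cast_ne_zero.mpr (Nat.card_pos (α := P)).ne') h1.symm
      obtain ⟨a, ha⟩ := h2
      set x' : L × Gam (Equiv.Perm Ω) Ω L1 := x * dY ε ι n1 * dY ε ι (a : Ω → Q) with hx'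
      have hx'm : x' ∈ MS π φ π1 M T := (MS π φ π1 M T).mul_mem hn1 (hjm a)
      have ha' : ∏ o, F (x'.2.left o) ≠ 0 := ha
      have hx'Y := (mem_MS.mp hx'm).1
      have h3 : ζ x' = ζ x := by
        rw [hx', hd, hd]
      have h4 : ζ ((1, gin (fun o => (z o : L1))) * x') =
          ζ ((1, gin (fun o => (z o : L1))) * x) := by
        rw [hx', ← mul_assoc, ← mul_assoc, hd, hd]
      have h5 : ((1, gin (fun o => (z o : L1))) : L × Gam (Equiv.Perm Ω) Ω L1) * x' ∈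
          MS π φ π1 M T := by
        refine mem_MS.mpr ⟨(MY π φ π1 M).mul_mem hg hx'Y, ?_⟩
        change π (1 * x'.1) ∈ T
        rw [one_mul]
        exact (mem_MS.mp hx'm).2
      have h6 := hval x' hx'm
      have h7 := hval _ h5
      rw [← hζ _ hx'Y, h3] at h6
      rw [← hζ _ (mem_MS.mp h5).1, h4] at h7
      have h8 : ∏ o, F ((((1, gin (fun o => (z o : L1))) :
          L × Gam (Equiv.Perm Ω) Ω L1) * x').2.left o) =
          (∏ o, ((μ1 (z o) : ℂˣ) : ℂ)) * ∏ o, F (x'.2.left o) := by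
        rw [← Finset.prod_mul_distrib]
        refine Finset.prod_congr rfl fun o _ => ?_
        rw [left_mul hM hg]
        exact hov (z o) _
      have h9 : (((1, gin (fun o => (z o : L1))) :
          L × Gam (Equiv.Perm Ω) Ω L1) * x').1 = x'.1 := one_mul _
      rw [h8, h9, h6] at h7
      refine mul_left_cancel₀ ha' ?_
      rw [h7]
      ring
    · rw [hζ0 x hx, hζ0, mul_zero]
      intro h
      exact hx (((MY π φ π1 M).mul_mem_cancel_left hg).mp h)
  · intro l hl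
    exact hθ.2 l fun h => hl (Subgroup.mem_inf.mp h).1
  · intro x hx
    by_cases hxT : π x.1 ∈ T
    · rw [hval x (mem_MS.mpr ⟨hx, hxT⟩), hζ x hx]
    · have h1 : θ x.1 = 0 := hθ.2 _ fun h => hxT (Subgroup.mem_inf.mp h).2
      rw [h1]
      have h2 : ∃ o, (φ (π x.1)).left o ∉ S := by
        by_contra hcon
        push Not at hcon
        exact hxT ((hT _).mpr hcon)
      obtain ⟨o, ho⟩ := h2
      have h3 : F (x.2.left o) = 0 := by
        refine hF.irr.2 _ fun h => ho ?_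
        have h4 := (Subgroup.mem_inf.mp h).2
        rw [left_eq hx] at h4
        exact h4
      rw [Finset.prod_eq_zero (Finset.mem_univ o) h3, zero_mul]

end Wr

end ZEX

theorem ZEX_thm (h1 : Stmt_CST) : Stmt_ZEX := by
  intro L K K1 Q L1 Ω _ _ _ _ _ _ _ _ _ _ _ _ ℓ _ π μ φ q α ε μQ π1 μ1 ι M M1 hW hL hM σ F
    hσ hF hov θ e hθ _ hθe
  obtain ⟨_, hqn, h2⟩ := h1 L K K1 Q Ω ℓ π μ φ q α ε μQ hW
  obtain ⟨_, _, _, hT, _⟩ := h2 σ hσ
  exact ZEX.core hW hL hM hqn (stb σ) _ hT hF hov hθ hθe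

end Pool.Agent.DPG
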