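import Pool.Agent.DPG.StmtsB
import Pool.Agent.DPG.WDB
import Pool.Agent.DPG.ZEX
import Pool.Agent.DPM.QINF

/-!
# ZCO: products are characters
-/

namespace Pool.Agent.DPG

open Pool.Agent.DP Pool.Agent.DPC Pool.Agent.DPM Pool.Agent.DPN Pool.Agent.DPF
  Pool.Agent.DPK Pool.Agent.Lib_helper13 Representation
open Pool.Agent.Lib_helper13.Dade (pCore DadeHolds dadeSum)

namespace ZCO

variable {L K K1 Q L1 Ω : Type} [Group L] [Group K] [Group K1] [Group Q] [Group L1]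
  [Fintype Ω] {ℓ : ℕ} {π : L →* K} {μ : π.ker →* ℂˣ}
  {φ : K →* Gam (Equiv.Perm Ω) Ω K1} {q : Q →* K1} {α : K1 →* MulAut Q}
  {ε : (Ω → Q) →* L} {μQ : q.ker →* ℂˣ} {π1 : L1 →* K1} {μ1 : π1.ker →* ℂˣ}
  {ι : Q →* L1} {M : Subgroup K} {M1 : Subgroup K1}

open ZEX

/-- The product of the values of `F` on a product with an element with central coordinates. -/
theorem prod_z (hM : MM ℓ π φ q ε M M1) {F : L1 → ℂ} (hov : Ov π1 μ1 F) (z : Ω → π1.ker)
    {y : L × Gam (Equiv.Perm Ω) Ω L1} (hy : y ∈ MY π φ π1 M) (hyz : ∀ o, y.2.left o = z o)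
    (x : L × Gam (Equiv.Perm Ω) Ω L1) :
    ∏ o, F ((y * x).2.left o) = (∏ o, ((μ1 (z o) : ℂˣ) : ℂ)) * ∏ o, F (x.2.left o) := by
  rw [← Finset.prod_mul_distrib]
  refine Finset.prod_congr rfl fun o _ => ?_
  rw [left_mul hM hy, hyz]
  exact hov (z o) _

theorem core [Fintype L] [Fintype K] [Fintype K1] [Fintype Q] [Fintype L1]
    (hW : WD π μ φ q α ε μQ) (hL : LD q α μQ π1 μ1 ι)
    (hM : MM ℓ π φ q ε M M1) (hq : q.range.Normal) (S : Subgroup K1) (T : Subgroup K)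
    (hT : ∀ k, k ∈ T ↔ ∀ o, (φ k).left o ∈ S) {F : L1 → ℂ} (hF : EF π1 q.range M1 S F)
    (hov : Ov π1 μ1 F) {ζ : L × Gam (Equiv.Perm Ω) Ω L1 → ℂ}
    (hZ : ZT π φ π1 μ1 ε ι M ζ) :
    ∃ θ : L → ℂ, IrrOn (AL π M T) θ ∧ Ov π μ θ ∧ TP π φ π1 M F ζ θ := by
  classical
  have i0 : Fintype (Gam (Equiv.Perm Ω) Ω L1) := gamFintype _ _ _
  have hDn := jY_normal (π1 := π1) hW hL hM
  set DD : Subgroup ↥(MY π φ π1 M) := (jY (π1 := π1) hW hL hM).range with hDD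
  have i1 : Fintype ↥(MS π φ π1 M T) := Fintype.ofFinite _
  have i2 : Fintype (↥(MY π φ π1 M) ⧸ DD) := Fintype.ofFinite _
  have i3 : Fintype ↥(MY π φ π1 M) := Fintype.ofFinite _
  let P : Subgroup (Ω → Q) := pK (fun _ : Ω => S.comap q)
  have i4 : Fintype P := Fintype.ofFinite _
  have hφε : ∀ (n : Ω → Q) o, (φ (π (ε n))).left o = q (n o) := by
    intro n o
    rw [hW.φε]
    rfl
  have hjm : ∀ a : P, dY ε ι (a : Ω → Q) ∈ MS π φ π1 M T := by
    intro a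
    refine mem_MS.mpr ⟨dY_mem hW hL hM a, ?_⟩
    rw [hT]
    intro o
    change (φ (π (ε a))).left o ∈ S
    rw [hφε]
    exact mem_pK.mp a.2 o
  let j : P →* ↥(MS π φ π1 M T) :=
    (((MY π φ π1 M).subtype.comp (jY (π1 := π1) hW hL hM)).comp P.subtype).codRestrict
      (MS π φ π1 M T) hjm
  have hj : Function.Injective j := by
    intro a b hab
    have h1 : dY ε ι (a : Ω → Q) = dY ε ι (b : Ω → Q) := congrArg Subtype.val hab
    apply Subtype.ext
    exact jY_inj (π1 := π1) hW hL hM (Subtype.ext h1)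
  let p : ↥(MS π φ π1 M T) →* ↥(MY π φ π1 M) ⧸ DD :=
    (QuotientGroup.mk' DD).comp (Subgroup.inclusion (inf_le_left :
      MS π φ π1 M T ≤ MY π φ π1 M))
  have hp : ∀ y, p y = 1 ↔ y ∈ j.range := by
    intro y
    change QuotientGroup.mk' DD (Subgroup.inclusion _ y) = 1 ↔ _
    rw [QuotientGroup.mk'_apply, QuotientGroup.eq_one_iff]
    constructor
    · rintro ⟨n, hn⟩
      have hn' : dY ε ι n = (y : L × Gam (Equiv.Perm Ω) Ω L1) := congrArg Subtype.val hn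
      have h1 : n ∈ P := by
        refine mem_pK.mpr fun o => ?_
        have h2 := (hT _).mp (mem_MS.mp y.2).2 o
        rw [← hn'] at h2
        change (φ (π (ε n))).left o ∈ S at h2
        rw [hφε] at h2
        exact h2
      exact ⟨⟨n, h1⟩, Subtype.ext hn'⟩
    · rintro ⟨a, rfl⟩
      exact ⟨a, rfl⟩
  obtain ⟨c, hc⟩ := exists_clG j hj p hp
  have hps : Function.Surjective p := by
    intro x
    obtain ⟨⟨x, hx⟩, rfl⟩ := QuotientGroup.mk'_surjective DD x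
    obtain ⟨n, hn⟩ := exists_MS hW hL hM hq hT hF.cov hx
    refine ⟨⟨_, hn⟩, ?_⟩
    change QuotientGroup.mk' DD _ = QuotientGroup.mk' DD _
    rw [QuotientGroup.mk'_apply, QuotientGroup.mk'_apply, eq_comm, QuotientGroup.eq]
    refine ⟨n, ?_⟩
    apply Subtype.ext
    change dY ε ι n = x⁻¹ * (x * dY ε ι n)
    group
  -- the characters
  have hFq : IsIrr (fun a : ↥(S.comap q) => F (ι a)) :=
    res_irr hL.c hL.πι S hF.res hov
  have hFq0 : ∀ x, x ∉ S.comap q → F (ι x) = 0 := by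
    intro x hx
    refine hF.irr.2 _ fun h => hx ?_
    have h1 := (Subgroup.mem_inf.mp h).2
    rw [hL.πι] at h1
    exact h1
  have hθA : IsIrr (fun a : P => ∏ o, F (ι ((a : Ω → Q) o))) :=
    (IRRPI_thm Ω Q (fun _ => S.comap q) P rfl).1 (fun _ x => F (ι x))
      (fun _ => ⟨hFq, hFq0⟩)
  have hE : IsChr (fun x : ↥(MS π φ π1 M T) =>
      ∏ o, F ((x : L × Gam (Equiv.Perm Ω) Ω L1).2.left o)) := by
    refine IsChr.prod Finset.univ (fun o (x : ↥(MS π φ π1 M T)) =>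
      F ((x : L × Gam (Equiv.Perm Ω) Ω L1).2.left o)) fun o => ?_
    let r : ↥(MS π φ π1 M T) →* ↥(AL π1 M1 S) :=
      { toFun := fun x => ⟨(x : L × Gam (Equiv.Perm Ω) Ω L1).2.left o, by
          change π1 _ ∈ M1 ⊓ S
          rw [left_eq (mem_MS.mp x.2).1]
          exact Subgroup.mem_inf.mpr ⟨hM.l _ (mem_MY.mp (mem_MS.mp x.2).1).2 o,
            (hT _).mp (mem_MS.mp x.2).2 o⟩⟩
        map_one' := rfl
        map_mul' := by
          intro x y
          apply Subtype.ext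
          exact left_mul hM (mem_MS.mp x.2).1 _ o }
    exact hF.irr.1.isChr.comp r
  -- the character of the quotient
  obtain ⟨η, hη, hηe⟩ := QINF.exists_inf (QuotientGroup.mk' DD)
    (QuotientGroup.mk'_surjective DD) hZ.irr.1 (by
      intro x y hx
      rw [QuotientGroup.mk'_apply, QuotientGroup.eq_one_iff] at hx
      obtain ⟨n, rfl⟩ := hx
      have h1 := hZ.irr.1.conj_eq y (jY (π1 := π1) hW hL hM n * y)
      have h2 : y * (jY (π1 := π1) hW hL hM n * y) * y⁻¹ = y * jY (π1 := π1) hW hL hM n := by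
        group
      rw [h2] at h1
      exact h1.symm.trans (hZ.d n y))
  have hζ : ∀ x (h : x ∈ MY π φ π1 M), ζ x = η (QuotientGroup.mk' DD ⟨x, h⟩) :=
    fun x h => congrFun hηe ⟨x, h⟩
  have hψ := ((b_GALL P ↥(MS π φ π1 M T) (↥(MY π φ π1 M) ⧸ DD) j c p hc hps _
    _ hθA hE (fun a => rfl)).1 η hη).1
  have hψ' : IsIrr (fun x : ↥(MS π φ π1 M T) =>
      (∏ o, F ((x : L × Gam (Equiv.Perm Ω) Ω L1).2.left o)) * ζ x) := by
    have h1 : (fun x : ↥(MS π φ π1 M T) =>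
        (∏ o, F ((x : L × Gam (Equiv.Perm Ω) Ω L1).2.left o)) * ζ x) =
        fun x : ↥(MS π φ π1 M T) =>
          (∏ o, F ((x : L × Gam (Equiv.Perm Ω) Ω L1).2.left o)) * η (p x) := by
      funext x
      rw [hζ _ (mem_MS.mp x.2).1]
      rfl
    rw [h1]
    exact hψ
  -- the projection
  let r : ↥(MS π φ π1 M T) →* ↥(AL π M T) :=
    ((MonoidHom.fst L (Gam (Equiv.Perm Ω) Ω L1)).comp (MS π φ π1 M T).subtype).codRestrict
      (AL π M T) (fun x => Subgroup.mem_inf.mpr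
        ⟨(mem_MY.mp (mem_MS.mp x.2).1).2, (mem_MS.mp x.2).2⟩)
  have hr : Function.Surjective r := by
    rintro ⟨l, hl⟩
    have hl' := Subgroup.mem_inf.mp hl
    have h1 : ∀ o, ∃ y, π1 y = (φ (π l)).left o := fun o => hL.s _
    choose y hy using h1
    refine ⟨⟨(l, (⟨y, (φ (π l)).right⟩ : Gam (Equiv.Perm Ω) Ω L1)), ?_⟩, rfl⟩
    refine mem_MS.mpr ⟨mem_MY.mpr ⟨?_, hl'.1⟩, hl'.2⟩
    apply SemidirectProduct.ext
    · funext o
      exact (hy o).symm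
    · rfl
  have i5 : Fintype ↥(AL π M T) := Fintype.ofFinite _
  obtain ⟨θ', hθ', hθe⟩ := QINF.exists_inf r hr hψ' (by
    rintro ⟨x, hx⟩ ⟨y, hy⟩ hxr
    have h1 : x.1 = 1 := congrArg Subtype.val hxr
    obtain ⟨z, hz⟩ := WDB.fst_eq_one (mem_MS.mp hx).1.1 h1
    change (∏ o, F ((x * y).2.left o)) * ζ (x * y) = (∏ o, F (y.2.left o)) * ζ y
    rw [prod_z hM hov z (mem_MS.mp hx).1 (fun o => by rw [hz]; rfl) y, hz,
      ← hZ.z z y]
    ring)
  have hval : ∀ x (hx : x ∈ MS π φ π1 M T), (∏ o, F (x.2.left o)) * ζ x =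
      θ' ⟨x.1, Subgroup.mem_inf.mpr ⟨(mem_MY.mp (mem_MS.mp hx).1).2, (mem_MS.mp hx).2⟩⟩ :=
    fun x hx => congrFun hθe ⟨x, hx⟩
  let θ : L → ℂ := fun l => if h : l ∈ AL π M T then θ' ⟨l, h⟩ else 0
  have hθ : ∀ l (h : l ∈ AL π M T), θ l = θ' ⟨l, h⟩ := fun l h => dif_pos h
  have hθ0 : ∀ l, l ∉ AL π M T → θ l = 0 := fun l h => dif_neg h
  have hval' : ∀ x, x ∈ MS π φ π1 M T → θ x.1 = (∏ o, F (x.2.left o)) * ζ x := by
    intro x hx
    rw [hval x hx]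
    exact hθ _ _
  refine ⟨θ, ⟨?_, hθ0⟩, ?_, ?_, ?_⟩
  · have h1 : (fun s : ↥(AL π M T) => θ s) = θ' := by
      funext s
      exact hθ s s.2
    rw [h1]
    exact hθ'
  · intro z l
    by_cases hl : l ∈ AL π M T
    · obtain ⟨⟨x, hx⟩, hxl⟩ := hr ⟨l, hl⟩
      have h1 : x.1 = l := congrArg Subtype.val hxl
      obtain ⟨n, hn⟩ := hW.kr z.2
      have h2 : π (ε n) = 1 := by
        rw [hn]
        exact z.2
      have h3 : ∀ o, n o ∈ q.ker := (WDB.πε_eq_one hW).mp h2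
      have h4 : ∀ o, ι (n o) ∈ π1.ker := fun o => (WDB.ι_ker hL).mpr (h3 o)
      have h5 : dY ε ι n ∈ MS π φ π1 M T := by
        refine mem_MS.mpr ⟨dY_mem hW hL hM n, ?_⟩
        change π (ε n) ∈ T
        rw [h2]
        exact T.one_mem
      have h6 := hval' _ ((MS π φ π1 M T).mul_mem h5 hx)
      rw [prod_z hM hov (fun o => ⟨ι (n o), h4 o⟩) (mem_MS.mp h5).1 (fun o => rfl) x] at h6
      have h7 : (dY ε ι n * x).1 = z * l := by
        rw [← h1, ← hn]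
        rfl
      have h8 : ζ (dY ε ι n * x) = ζ x := by
        have hxY := (mem_MS.mp hx).1
        have h9 := hZ.irr.1.conj_eq ⟨x, hxY⟩ (jY (π1 := π1) hW hL hM n * ⟨x, hxY⟩)
        have h10 : (⟨x, hxY⟩ : ↥(MY π φ π1 M)) * (jY (π1 := π1) hW hL hM n * ⟨x, hxY⟩) *
            (⟨x, hxY⟩)⁻¹ = ⟨x, hxY⟩ * jY (π1 := π1) hW hL hM n := by
          group
        rw [h10] at h9
        exact h9.symm.trans (hZ.d n x)
      have h11 : (∏ o, ((μ1 ⟨ι (n o), h4 o⟩ : ℂˣ) : ℂ)) = ((μ z : ℂˣ) : ℂ) := by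
        have h12 : z = ⟨ε n, MonoidHom.mem_ker.mpr h2⟩ := Subtype.ext hn.symm
        rw [h12, hW.με n h3 (MonoidHom.mem_ker.mpr h2), Units.coe_prod]
        refine Finset.prod_congr rfl fun o _ => ?_
        rw [hL.μι ⟨n o, h3 o⟩ (h4 o)]
      rw [h7, h8, h11, mul_assoc, ← hval' x hx, h1] at h6
      exact h6
    · have h1 : (z : L) * l ∉ AL π M T := by
        intro h
        apply hl
        have h2 : π ((z : L) * l) ∈ M ⊓ T := h
        rw [map_mul, MonoidHom.mem_ker.mp z.2, one_mul] at h2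
        exact h2
      rw [hθ0 _ h1, hθ0 _ hl, mul_zero]
  · intro l hl
    exact hθ0 l fun h => hl (Subgroup.mem_inf.mp h).1
  · intro x hx
    by_cases hxT : π x.1 ∈ T
    · exact hval' x (mem_MS.mpr ⟨hx, hxT⟩)
    · have h1 : θ x.1 = 0 := hθ0 _ fun h => hxT (Subgroup.mem_inf.mp h).2
      rw [h1]
      have h2 : ∃ o, (φ (π x.1)).left o ∉ S := by
        by_contra hcon
        push Not at hcon
        exact hxT ((hT _).mpr hcon)
      obtain ⟨o, ho⟩ := h2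
      have h3 : F (x.2.left o) = 0 := by
        refine hF.irr.2 _ fun h => ho ?_
        have h4 := (Subgroup.mem_inf.mp h).2
        rw [left_eq hx] at h4
        exact h4
      rw [Finset.prod_eq_zero (Finset.mem_univ o) h3, zero_mul]

end ZCO

theorem ZCO_thm (h1 : Stmt_CST) (_ : Stmt_TNA) : Stmt_ZCO := by
  intro L K K1 Q L1 Ω _ _ _ _ _ _ _ _ _ _ _ _ ℓ _ π μ φ q α ε μQ π1 μ1 ι M M1 hW hL hM σ F
    hσ hF hov ζ hζ
  obtain ⟨_, hqn, h2⟩ := h1 L K K1 Q Ω ℓ π μ φ q α ε μQ hW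
  obtain ⟨_, _, _, hT, _⟩ := h2 σ hσ
  exact ZCO.core hW hL hM hqn (stb σ) _ hT hF hov hζ

end Pool.Agent.DPG
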