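import Mathlib
import Pool.Agent.DPG.StmtsB
import Pool.Agent.DP.COSET

/-!
# ZIN: invariance of the product character and of `ζ`
-/

namespace Pool.Agent.DPG

open Pool.Agent.DP Pool.Agent.DPC Pool.Agent.DPM Pool.Agent.DPN Pool.Agent.DPF
  Pool.Agent.Lib_helper13 Representation

namespace ZIN

section Gen

variable {B Ω : Type} [Group B]

theorem mul_l (a b : Gam (Equiv.Perm Ω) Ω B) (o : Ω) :
    (a * b).left o = a.left o * b.left (a.right⁻¹ • o) := rfl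

theorem inv_l (a : Gam (Equiv.Perm Ω) Ω B) (o : Ω) :
    (a⁻¹).left o = (a.left (a.right • o))⁻¹ := by
  change (a.left (a.right⁻¹⁻¹ • o))⁻¹ = _
  rw [inv_inv]

theorem conj_l (g m : Gam (Equiv.Perm Ω) Ω B) (hm : m.right = 1) (o : Ω) :
    (g * m * g⁻¹).left o = g.left o * m.left (g.right⁻¹ • o) * (g.left o)⁻¹ := by
  rw [mul_l, mul_l, inv_l]
  have h : (g * m).right = g.right := by
    rw [SemidirectProduct.mul_right, hm, mul_one]
  rw [h, smul_inv_smul]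

theorem conj_r (g m : Gam (Equiv.Perm Ω) Ω B) (hm : m.right = 1) :
    (g * m * g⁻¹).right = 1 := by
  rw [SemidirectProduct.mul_right, SemidirectProduct.mul_right, hm, mul_one,
    SemidirectProduct.inv_right, mul_inv_cancel]

end Gen

section Main

variable {L K K1 Q L1 Ω : Type} [Group L] [Group K] [Group K1] [Group Q] [Group L1]
  [Fintype Ω]
variable {ℓ : ℕ} {π : L →* K} {μ : π.ker →* ℂˣ} {φ : K →* Gam (Equiv.Perm Ω) Ω K1}
  {q : Q →* K1} {α : K1 →* MulAut Q} {ε : (Ω → Q) →* L} {μQ : q.ker →* ℂˣ} {π1 : L1 →* K1}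
  {μ1 : π1.ker →* ℂˣ} {ι : Q →* L1} {M : Subgroup K} {M1 : Subgroup K1}

theorem YY_iff (x : L × Gam (Equiv.Perm Ω) Ω L1) :
    x ∈ YY π φ π1 ↔ φ (π x.1) = gmap Ω π1 x.2 := Iff.rfl

theorem YY_l {x : L × Gam (Equiv.Perm Ω) Ω L1} (hx : x ∈ YY π φ π1) (o : Ω) :
    (φ (π x.1)).left o = π1 (x.2.left o) := by
  rw [(YY_iff x).mp hx]
  rfl

theorem YY_r {x : L × Gam (Equiv.Perm Ω) Ω L1} (hx : x ∈ YY π φ π1) :
    (φ (π x.1)).right = x.2.right := by
  rw [(YY_iff x).mp hx]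
  rfl

theorem MY_iff (x : L × Gam (Equiv.Perm Ω) Ω L1) :
    x ∈ MY π φ π1 M ↔ x ∈ YY π φ π1 ∧ π x.1 ∈ M := Iff.rfl

theorem MY_r (hM : MM ℓ π φ q ε M M1) {x : L × Gam (Equiv.Perm Ω) Ω L1}
    (hx : x ∈ MY π φ π1 M) : x.2.right = 1 := by
  rw [← YY_r hx.1]
  exact hM.r _ hx.2

theorem dY_mem (hW : WD π μ φ q α ε μQ) (hL : LD q α μQ π1 μ1 ι)
    (hM : MM ℓ π φ q ε M M1) (n : Ω → Q) : dY ε ι n ∈ MY π φ π1 M := by
  constructor
  · change φ (π (ε n)) = gmap Ω π1 (gin fun o => ι (n o))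
    rw [hW.φε]
    apply SemidirectProduct.ext
    · funext o
      exact (hL.πι (n o)).symm
    · rfl
  · exact hM.le ⟨ε n, ⟨n, rfl⟩, rfl⟩

theorem dY_inv (n : Ω → Q) : (dY ε ι n)⁻¹ = dY (L := L) (L1 := L1) ε ι n⁻¹ := by
  apply Prod.ext
  · exact (map_inv ε n).symm
  · change (gin fun o => ι (n o))⁻¹ = gin fun o => ι (n⁻¹ o)
    apply SemidirectProduct.ext
    · funext o
      rw [inv_l]
      change (ι (n ((1 : Equiv.Perm Ω) • o)))⁻¹ = ι (n⁻¹ o)
      rw [one_smul, Pi.inv_apply, map_inv]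
    · change (1 : Equiv.Perm Ω)⁻¹ = 1
      exact inv_one

theorem dY_conj (hW : WD π μ φ q α ε μQ) (hL : LD q α μQ π1 μ1 ι)
    {y : L × Gam (Equiv.Perm Ω) Ω L1} (hy : y ∈ YY π φ π1) (n : Ω → Q) :
    y * dY ε ι n * y⁻¹ = dY ε ι (wB α Ω (φ (π y.1)) n) := by
  apply Prod.ext
  · exact (hW.cj y.1 n).symm
  · change y.2 * (gin fun o => ι (n o)) * y.2⁻¹ = gin fun o => ι (wB α Ω (φ (π y.1)) n o)
    apply SemidirectProduct.ext
    · funext o
      rw [conj_l _ _ rfl]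
      change y.2.left o * ι (n (y.2.right⁻¹ • o)) * (y.2.left o)⁻¹ =
        ι (α ((φ (π y.1)).left o) (n ((φ (π y.1)).right⁻¹ • o)))
      rw [YY_l hy, YY_r hy, hL.ια]
    · exact conj_r _ _ rfl

theorem conj_YY {y x : L × Gam (Equiv.Perm Ω) Ω L1} (hy : y ∈ YY π φ π1)
    (hx : x ∈ YY π φ π1) : y * x * y⁻¹ ∈ YY π φ π1 :=
  (YY π φ π1).mul_mem ((YY π φ π1).mul_mem hy hx) ((YY π φ π1).inv_mem hy)

theorem conj_MY (hM : MM ℓ π φ q ε M M1) {y x : L × Gam (Equiv.Perm Ω) Ω L1}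
    (hy : y ∈ YY π φ π1) (hx : x ∈ MY π φ π1 M) : y * x * y⁻¹ ∈ MY π φ π1 M := by
  refine ⟨conj_YY hy hx.1, ?_⟩
  change π (y.1 * x.1 * y.1⁻¹) ∈ M
  rw [map_mul, map_mul, map_inv]
  exact hM.nm.conj_mem _ hx.2 _

theorem conj_MY_iff (hM : MM ℓ π φ q ε M M1) {y x : L × Gam (Equiv.Perm Ω) Ω L1}
    (hy : y ∈ YY π φ π1) : y * x * y⁻¹ ∈ MY π φ π1 M ↔ x ∈ MY π φ π1 M := by
  constructor
  · intro h
    have h1 := conj_MY hM ((YY π φ π1).inv_mem hy) h
    have h2 : y⁻¹ * (y * x * y⁻¹) * y⁻¹⁻¹ = x := by group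
    rw [h2] at h1
    exact h1
  · exact conj_MY hM hy

theorem mul_dY_l (hM : MM ℓ π φ q ε M M1) {x : L × Gam (Equiv.Perm Ω) Ω L1}
    (hx : x ∈ MY π φ π1 M) (n : Ω → Q) (o : Ω) :
    (x * dY ε ι n).2.left o = x.2.left o * ι (n o) := by
  change (x.2 * gin fun o => ι (n o)).left o = _
  rw [mul_l, MY_r hM hx, inv_one, one_smul]
  rfl

/-- Some element of the coset of `b` has a nonzero value. -/
theorem nz1 [Fintype L1] {S : Subgroup K1} {F : L1 → ℂ} (hF : EF π1 q.range M1 S F)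
    (h1 : q.range ≤ M1) (b : L1) (hb : π1 b ∈ M1) (hbs : π1 b ∈ S) :
    ∃ a, π1 a ∈ q.range ∧ F (b * a) ≠ 0 := by
  classical
  have hle : AL π1 q.range S ≤ AL π1 M1 S := by
    intro x hx
    exact ⟨h1 hx.1, hx.2⟩
  obtain ⟨n, ρ, hρ, hχ⟩ := hF.irr.1
  set j : AL π1 q.range S →* AL π1 M1 S := Subgroup.inclusion hle with hj
  have hc : Representation.character (ρ.comp j : Representation ℂ _ (Fin n → ℂ)) =
      fun a : AL π1 q.range S => F a := by
    funext a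
    have := congrFun hχ (j a)
    exact this
  have hirr : Representation.IsIrreducible (ρ.comp j : Representation ℂ _ (Fin n → ℂ)) := by
    apply irreducible_of_sum
    rw [hc]
    exact hF.res.sum_self
  have hs := COSET.main ρ j hirr ⟨b, hb, hbs⟩
  by_contra hcon
  push Not at hcon
  have h0 : ∀ a : AL π1 q.range S, ρ.character ((⟨b, hb, hbs⟩ : AL π1 M1 S) * j a) = 0 := by
    intro a
    rw [hχ]
    exact hcon a a.2.1
  have hz : ∑ a : AL π1 q.range S, ρ.character ((⟨b, hb, hbs⟩ : AL π1 M1 S) * j a) *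
      ρ.character ((⟨b, hb, hbs⟩ : AL π1 M1 S) * j a)⁻¹ = 0 := by
    apply Finset.sum_eq_zero
    intro a _
    rw [h0 a, zero_mul]
  rw [hz] at hs
  have hcard : ∑ a : AL π1 q.range S, ρ.character (j a) * ρ.character (j a)⁻¹ =
      (Nat.card (AL π1 q.range S) : ℂ) := by
    rw [← hF.res.sum_self]
    refine Finset.sum_congr rfl fun a _ => ?_
    rw [← map_inv, hχ]
    rfl
  rw [hcard] at hs
  exact natCard_ne_zero hs.symm

theorem nz2 [Fintype L1] (hL : LD q α μQ π1 μ1 ι) (hq : q.range.Normal) {S : Subgroup K1}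
    {F : L1 → ℂ} (hF : EF π1 q.range M1 S F) (hO : Ov π1 μ1 F)
    (h1 : q.range ≤ M1) (b : L1) (hb : π1 b ∈ M1) : ∃ m : Q, F (b * ι m) ≠ 0 := by
  have h2 := M1.inv_mem hb
  have h3 := hF.cov h2
  haveI := hq
  rw [Subgroup.mem_sup_of_normal_left] at h3
  obtain ⟨_, ⟨m0, rfl⟩, t, ht, h4⟩ := h3
  have h5 : π1 (b * ι m0) = t⁻¹ := by
    rw [map_mul, hL.πι]
    have : q m0 = (π1 b)⁻¹ * t⁻¹ := by rw [← h4]; group
    rw [this]
    group
  have h6 : π1 (b * ι m0) ∈ M1 := by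
    rw [map_mul, hL.πι]
    exact M1.mul_mem hb (h1 ⟨m0, rfl⟩)
  obtain ⟨a, ⟨m1, hm1⟩, ha⟩ := nz1 hF h1 (b * ι m0) h6 (by rw [h5]; exact S.inv_mem ht)
  have hz : a * (ι m1)⁻¹ ∈ π1.ker := by
    rw [MonoidHom.mem_ker, map_mul, map_inv, hL.πι, hm1, mul_inv_cancel]
  have hzc := Subgroup.mem_center_iff.mp (hL.c hz) (b * ι m0)
  refine ⟨m0 * m1, ?_⟩
  intro h0
  apply ha
  have h7 : b * ι m0 * a = (a * (ι m1)⁻¹) * (b * ι (m0 * m1)) := by
    calc b * ι m0 * a = (b * ι m0 * (a * (ι m1)⁻¹)) * ι m1 := by group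
      _ = (a * (ι m1)⁻¹ * (b * ι m0)) * ι m1 := by rw [hzc]
      _ = _ := by rw [map_mul]; group
  rw [h7]
  have h8 := hO ⟨_, hz⟩ (b * ι (m0 * m1))
  rw [h0, mul_zero] at h8
  exact h8

/-- The product over the coordinates is invariant. -/
theorem prod_conj (hM : MM ℓ π φ q ε M M1) {S : Subgroup K1} {F : L1 → ℂ}
    (hF : ∀ t, π1 t ∈ S → ∀ x, F (t * x * t⁻¹) = F x)
    {y x : L × Gam (Equiv.Perm Ω) Ω L1} (hy : ∀ o, π1 (y.2.left o) ∈ S)
    (hx : x ∈ MY π φ π1 M) :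
    ∏ o, F ((y * x * y⁻¹).2.left o) = ∏ o, F (x.2.left o) := by
  have h : ∀ o, F ((y * x * y⁻¹).2.left o) = F (x.2.left (y.2.right⁻¹ o)) := by
    intro o
    change F ((y.2 * x.2 * y.2⁻¹).left o) = _
    rw [conj_l _ _ (MY_r hM hx), hF _ (hy o)]
    rfl
  rw [Finset.prod_congr rfl fun o _ => h o]
  exact Equiv.prod_comp (y.2.right⁻¹ : Equiv.Perm Ω) fun o => F (x.2.left o)

theorem exY (hL : LD q α μQ π1 μ1 ι) (t : L) :
    ∃ g : Gam (Equiv.Perm Ω) Ω L1, (t, g) ∈ YY π φ π1 := by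
  choose f hf using hL.s
  refine ⟨⟨fun o => f ((φ (π t)).left o), (φ (π t)).right⟩, ?_⟩
  change φ (π t) = gmap Ω π1 _
  apply SemidirectProduct.ext
  · funext o
    exact (hf _).symm
  · rfl

end Main

end ZIN

open ZIN in
theorem ZIN_thm (h1 : Stmt_CST) : Stmt_ZIN := by
  intro L K K1 Q L1 Ω _ _ _ _ _ _ _ _ _ _ _ _ ℓ _ π μ φ q α ε μQ π1 μ1 ι M M1 hW hL hM σ F
    hσ hF hO hsj hFi ζ hζ θ hθ
  obtain ⟨-, hqn, hch⟩ := h1 L K K1 Q Ω ℓ π μ φ q α ε μQ hW
  obtain ⟨-, -, -, hstb, -, -, -⟩ := hch σ hσ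
  constructor
  · intro hinv
    -- elements with coordinates in the stabilizer
    have key : ∀ y ∈ YY π φ π1, (∀ o, π1 (y.2.left o) ∈ stb σ) → ∀ x ∈ MY π φ π1 M,
        ζ (y * x * y⁻¹) = ζ x := by
      intro y hy hys x hx
      have hm : ∀ o, ∃ m : Q, F (x.2.left o * ι m) ≠ 0 := by
        intro o
        apply nz2 hL hqn hF hO hM.le1
        rw [← YY_l hx.1 o]
        exact hM.l _ hx.2 o
      choose m hm using hm
      set x' := x * dY ε ι m with hx'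
      have hx'm : x' ∈ MY π φ π1 M := (MY π φ π1 M).mul_mem hx (dY_mem hW hL hM m)
      have hyt : π y.1 ∈ stb (cstC φ (NN' π ε) σ) := by
        rw [hstb]
        intro o
        rw [YY_l hy]
        exact hys o
      have e1 := hinv y.1 hyt x'.1
      have e2 := hθ.2 (y * x' * y⁻¹) (conj_MY hM hy hx'm)
      have e3 := hθ.2 x' hx'm
      rw [prod_conj hM hFi hys hx'm] at e2
      change θ (y.1 * x'.1 * y.1⁻¹) = _ at e2
      rw [e1, e3] at e2
      have hne : ∏ o, F (x'.2.left o) ≠ 0 := by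
        rw [Finset.prod_ne_zero_iff]
        intro o _
        rw [hx', mul_dY_l hM hx]
        exact hm o
      have e4 := mul_left_cancel₀ hne e2
      have e5 : ζ x' = ζ x := hζ.d m x
      have e6 : y * x' * y⁻¹ = (y * x * y⁻¹) * dY ε ι (wB α Ω (φ (π y.1)) m) := by
        rw [← dY_conj hW hL hy, hx']
        group
      rw [e6, e5, hζ.d] at e4
      exact e4.symm
    intro y hy x
    by_cases hx : x ∈ MY π φ π1 M
    · have hn : ∀ o, ∃ n : Q, π1 ((ι n)⁻¹ * y.2.left o) ∈ stb σ := by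
        intro o
        have h3 : π1 (y.2.left o) ∈ q.range ⊔ stb σ := by
          rw [hsj]
          trivial
        haveI := hqn
        rw [Subgroup.mem_sup_of_normal_left] at h3
        obtain ⟨_, ⟨n, rfl⟩, t, ht, h4⟩ := h3
        refine ⟨n, ?_⟩
        rw [map_mul, map_inv, hL.πι, ← h4, inv_mul_cancel_left]
        exact ht
      choose n hn using hn
      have hdm := dY_mem hW hL hM n
      set y1 := (dY ε ι n)⁻¹ * y with hy1
      have hy1m : y1 ∈ YY π φ π1 := (YY π φ π1).mul_mem ((YY π φ π1).inv_mem hdm.1) hy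
      have hy1s : ∀ o, π1 (y1.2.left o) ∈ stb σ := by
        intro o
        have h4 : y1.2.left o = (ι (n o))⁻¹ * y.2.left o := by
          rw [hy1, dY_inv]
          change ((gin fun o => ι (n⁻¹ o)) * y.2).left o = _
          rw [mul_l]
          change ι (n⁻¹ o) * y.2.left ((1 : Equiv.Perm Ω)⁻¹ • o) = _
          rw [inv_one, one_smul, Pi.inv_apply, map_inv]
        rw [h4]
        exact hn o
      have hz := conj_MY hM hy1m hx
      set z := y1 * x * y1⁻¹ with hzd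
      have e1 : y * x * y⁻¹ = z * dY ε ι (wB α Ω (φ (π (z⁻¹).1)) n) * dY ε ι n⁻¹ := by
        rw [← dY_conj hW hL ((YY π φ π1).inv_mem hz.1), ← dY_inv, hzd, hy1]
        group
      rw [e1, hζ.d, hζ.d]
      exact key y1 hy1m hy1s x hx
    · rw [hζ.irr.2 _ hx]
      apply hζ.irr.2
      rw [conj_MY_iff hM hy]
      exact hx
  · intro hinv t ht x
    obtain ⟨g, hg⟩ := exY (π := π) (φ := φ) hL t
    have hgs : ∀ o, π1 (g.left o) ∈ stb σ := by
      intro o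
      rw [← YY_l hg o]
      exact (hstb _).mp ht o
    by_cases hx : π x ∈ M
    · obtain ⟨h, hh⟩ := exY (π := π) (φ := φ) hL x
      have hxm : (x, h) ∈ MY π φ π1 M := ⟨hh, hx⟩
      have e2 := hθ.2 _ (conj_MY hM hg hxm)
      have e3 := hθ.2 (x, h) hxm
      rw [prod_conj hM hFi hgs hxm, hinv _ hg, ← e3] at e2
      exact e2
    · rw [hθ.1 x hx]
      apply hθ.1
      rw [map_mul, map_mul, map_inv]
      intro h
      apply hx
      have h2 := hM.nm.conj_mem _ h (π t)⁻¹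
      have h3 : (π t)⁻¹ * (π t * π x * (π t)⁻¹) * (π t)⁻¹⁻¹ = π x := by group
      rw [h3] at h2
      exact h2

end Pool.Agent.DPG
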