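import Mathlib
import Pool.Agent.DPF.AllF
import Pool.Agent.DPG.StmtsB
import Pool.Agent.DPG.RIX
import Pool.Agent.DPG.STO
import Pool.Agent.DPG.PST
import Pool.Agent.DPG.RIU
import Pool.Agent.DPG.NPT
import Pool.Agent.DPG.AMA
import Pool.Agent.DPG.AMB
import Pool.Agent.DPG.BGA
import Pool.Agent.DPG.STK
import Pool.Agent.DPG.PSN
import Pool.Agent.DPG.BEM
import Pool.Agent.DPG.BGB
import Pool.Agent.DPG.SST
import Pool.Agent.DPG.IRC
import Pool.Agent.DPG.CNO
import Pool.Agent.DPG.CJN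
import Pool.Agent.DPG.CHB
import Pool.Agent.DPG.CHT
import Pool.Agent.DPG.CJS
import Pool.Agent.DPG.RIY
import Pool.Agent.DPG.SYT
import Pool.Agent.DPG.PLE
import Pool.Agent.DPG.DWN
import Pool.Agent.DPG.TRO
import Pool.Agent.DPG.EDK
import Pool.Agent.DPG.TQB
import Pool.Agent.DPG.RFE
import Pool.Agent.DPG.CNB
import Pool.Agent.DPG.CLS
import Pool.Agent.DPG.SUL
import Pool.Agent.DPG.TQA
import Pool.Agent.DPG.ZEX
import Pool.Agent.DPG.CMB
import Pool.Agent.DPG.PSI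
import Pool.Agent.DPG.TEN
import Pool.Agent.DPG.ZCO
import Pool.Agent.DPG.TIE
import Pool.Agent.DPG.POL
import Pool.Agent.DPG.PRC
import Pool.Agent.DPG.LVT
import Pool.Agent.DPG.PRF
import Pool.Agent.DPG.CMA
import Pool.Agent.DPG.ZIN
import Pool.Agent.DPG.DFT
import Pool.Agent.DPG.TNA
import Pool.Agent.DPG.CST
import Pool.Agent.DPG.LMT
import Pool.Agent.DPG.TOG
import Pool.Agent.DPG.UPP
import Pool.Agent.DPG.CNA
import Pool.Agent.DPG.RSC
import Pool.Agent.DPG.TQC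
import Pool.Agent.DPG.MMC
import Pool.Agent.DPG.VCL

/-!
# Dade's conjecture: minimal normal subgroups which are not simple: the theorem
-/

namespace Pool.Agent.DPG

open Pool.Agent.DPF Pool.Agent.DPK

theorem all_CHT : Stmt_CHT := CHT_thm
theorem all_CHB : Stmt_CHB := CHB_thm all_CHT
theorem all_IRC : Stmt_IRC := IRC_thm all_CHT
theorem all_SST : Stmt_SST := SST_thm all_CHB
theorem all_RIX : Stmt_RIX := RIX_thm all_CHT all_SST
theorem all_STK : Stmt_STK := STK_thm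
theorem all_PST : Stmt_PST := PST_thm all_STK
theorem all_STO : Stmt_STO := STO_thm all_PST
theorem all_RIU : Stmt_RIU := RIU_thm all_RIX all_IRC
theorem all_NPT : Stmt_NPT := NPT_thm all_IRC all_SST
theorem all_AMA : Stmt_AMA := AMA_thm
theorem all_AMB : Stmt_AMB := AMB_thm
theorem all_BGA : Stmt_BGA := BGA_thm
theorem all_BGB : Stmt_BGB := BGB_thm all_BGA
theorem all_PSN : Stmt_PSN := PSN_thm all_IRC
theorem all_BEM : Stmt_BEM := BEM_thm all_IRC
theorem all_CNO : Stmt_CNO := CNO_thm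
theorem all_CJN : Stmt_CJN := CJN_thm
theorem all_CJS : Stmt_CJS := CJS_thm
theorem all_RIY : Stmt_RIY := RIY_thm
theorem all_SYT : Stmt_SYT := SYT_thm
theorem all_PLE : Stmt_PLE := PLE_thm

theorem all_CNA : Stmt_CNA := CNA_thm
theorem all_CNB : Stmt_CNB := CNB_thm
theorem all_CST : Stmt_CST := CST_thm
theorem all_TOG : Stmt_TOG := TOG_thm
theorem all_TNA : Stmt_TNA := TNA_thm
theorem all_CLS : Stmt_CLS := CLS_thm all_TNA all_CST
theorem all_PRC : Stmt_PRC := PRC_thm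
theorem all_LMT : Stmt_LMT := LMT_thm all_PRC
theorem all_PRF : Stmt_PRF := PRF_thm all_PRC
theorem all_MMC : Stmt_MMC := MMC_thm
theorem all_SUL : Stmt_SUL := SUL_thm all_CHB all_PRC all_CST
theorem all_ZEX : Stmt_ZEX := ZEX_thm all_CST
theorem all_ZCO : Stmt_ZCO := ZCO_thm all_CST all_TNA
theorem all_CMA : Stmt_CMA := CMA_thm all_PRF
theorem all_CMB : Stmt_CMB := CMB_thm all_PRF
theorem all_ZIN : Stmt_ZIN := ZIN_thm all_CST
theorem all_DFT : Stmt_DFT := DFT_thm all_CST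
theorem all_PSI : Stmt_PSI := PSI_thm all_CST all_TNA all_RIY
theorem all_RFE : Stmt_RFE :=
  RFE_thm all_NPT all_CLS all_CJN all_CJS all_CST all_AMA all_AMB all_SUL all_ZEX all_ZIN
theorem all_RSC : Stmt_RSC := RSC_thm all_BEM all_RIU
theorem all_UPP : Stmt_UPP := UPP_thm all_RSC all_ZCO all_CMA all_ZIN all_CST
theorem all_DWN : Stmt_DWN :=
  DWN_thm all_NPT all_CLS all_CJN all_CJS all_CST all_LMT all_TNA all_RIX all_RIY all_ZEX
    all_BEM all_CMB
theorem all_POL : Stmt_POL := POL_thm all_PSN all_NPT all_RIU all_IRC all_LMT all_TNA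
theorem all_TIE : Stmt_TIE := TIE_thm
theorem all_EDK : Stmt_EDK := EDK_thm all_TIE all_CST
theorem all_TQC : Stmt_TQC := TQC_thm all_PSI all_RSC
theorem all_TQB : Stmt_TQB :=
  TQB_thm all_UPP all_DWN all_RSC all_PSI all_CJN all_CJS all_CNO all_DFT all_STO all_CST

section

variable (Cl : ∀ (Y : Type) [Group Y], Prop)

theorem all_VCL : Stmt_VCL Cl := VCL_thm Cl

theorem all_TRO (h1 : Stmt_PS1r Cl) : Stmt_TRO Cl :=
  TRO_thm Cl h1 all_NPT all_PSN all_SST all_TNA all_LMT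

theorem all_LVT (h2 : Stmt_T2Ar Cl) : Stmt_LVT Cl := LVT_thm Cl h2 all_BGA all_BGB all_CJN

theorem all_TQA (h2 : Stmt_T2Ar Cl) : Stmt_TQA Cl :=
  TQA_thm Cl all_RFE all_POL all_SYT (all_LVT Cl h2) all_EDK all_TQC all_TQB all_PLE all_CJN
    all_RSC all_BGA

/-- The theorem. -/
theorem all_TEN (h1 : Stmt_PS1r Cl) (h2 : Stmt_T2Ar Cl) (h3 : Stmt_T2Br Cl) : Stmt_TEN Cl :=
  TEN_thm Cl h3 all_CNA all_CNB (all_VCL Cl) (all_TRO Cl h1) all_MMC (all_TQA Cl h2) all_TOG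
    all_BGA all_BGB

end

end Pool.Agent.DPG
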