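import Pool.Agent.DPG.StmtsB
import Pool.Agent.DPG.WDB
import Pool.Agent.DPG.CJN
import Pool.Agent.DPG.CJS
import Pool.Agent.DPG.ZEX

/-!
# PSI: conjugacy of products
-/

namespace Pool.Agent.DPG

open Pool.Agent.DP Pool.Agent.DPC Pool.Agent.DPM Pool.Agent.DPN Pool.Agent.DPF
  Pool.Agent.DPK Pool.Agent.Lib_helper13 Representation
open Pool.Agent.Lib_helper13.Dade (pCore DadeHolds dadeSum)

namespace PSI

section Gen

variable {L1 K1 : Type} [Group L1] [Group K1]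

/-- The scalars of a conjugate. -/
theorem sc_cjF [Fintype L1] (𝔐 : Ideal (integralClosure ℤ ℂ)) {S : Subgroup L1} {u : L1 → ℤ}
    (hu : CIv S u) {l : L1} (hl : l ∈ S) (f : L1 → ℂ) : sc 𝔐 (cjF l f) u = sc 𝔐 f u := by
  have h1 : ∑ x, ((u x : ℤ) : ℂ) * cjF l f x = ∑ x, ((u x : ℤ) : ℂ) * f x := by
    symm
    refine Fintype.sum_equiv (MulAut.conj l).toEquiv _ _ ?_
    intro x
    have h2 : (MulAut.conj l).toEquiv x = l * x * l⁻¹ := rfl
    rw [h2, hu l hl, cjF]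
    congr 2
    group
  have h2 : cjF l f 1 = f 1 := by
    rw [cjF]
    congr 1
    group
  rw [sc, sc, h1, h2]

/-- The conjugate of an extension. -/
theorem EF_cj [Fintype L1] {π1 : L1 →* K1} {N M1 S : Subgroup K1} [N.Normal] [M1.Normal]
    {F : L1 → ℂ} (h : EF π1 N M1 S F) (l : L1) :
    EF π1 N M1 (S.map (MulAut.conj (π1 l)).toMonoidHom) (cjF l F) := by
  refine ⟨⟨?_, ?_⟩, ?_, ?_⟩
  · exact h.irr.1.comp_mulEquiv (CJN.eAL π1 M1 l S)
  · intro x hx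
    apply h.irr.2
    intro hx'
    exact hx ((CJN.mem_AL π1 M1 l S x).mpr hx')
  · exact h.res.comp_mulEquiv (CJN.eAL π1 N l S)
  · intro x hx
    have h1 : (π1 l)⁻¹ * x * π1 l ∈ M1 := (CJN.mem_nm M1 (π1 l) x).mpr hx
    have h2 := h.cov h1
    rw [Subgroup.mem_sup_of_normal_left] at h2
    obtain ⟨m, hm, s, hs, hms⟩ := h2
    have h3 : x = (π1 l * m * (π1 l)⁻¹) * (π1 l * s * (π1 l)⁻¹) := by
      have h4 : x = π1 l * ((π1 l)⁻¹ * x * π1 l) * (π1 l)⁻¹ := by group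
      rw [h4, ← hms]
      group
    rw [h3]
    refine Subgroup.mul_mem_sup ?_ ?_
    · exact Subgroup.Normal.conj_mem inferInstance _ hm _
    · rw [CJN.mem_mapc]
      have h4 : (π1 l)⁻¹ * (π1 l * s * (π1 l)⁻¹) * π1 l = s := by group
      rw [h4]
      exact hs

/-- The conjugate lies over the same linear character. -/
theorem Ov_cj {π1 : L1 →* K1} {μ1 : π1.ker →* ℂˣ} (hc : π1.ker ≤ Subgroup.center L1)
    {F : L1 → ℂ} (h : Ov π1 μ1 F) (l : L1) : Ov π1 μ1 (cjF l F) := by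
  intro z x
  change F (l⁻¹ * (z * x) * l) = _ * F (l⁻¹ * x * l)
  have hz := Subgroup.mem_center_iff.mp (hc z.2) l⁻¹
  have h1 : l⁻¹ * ((z : L1) * x) * l = (z : L1) * (l⁻¹ * x * l) := by
    rw [← mul_assoc, ← mul_assoc, hz, mul_assoc, mul_assoc, ← mul_assoc]
    group
  rw [h1]
  exact h z _

end Gen

section Dat

variable {L K K1 Q L1 Ω : Type} [Group L] [Group K] [Group K1] [Group Q] [Group L1]
  [Fintype Ω] {ℓ : ℕ} {π : L →* K} {μ : π.ker →* ℂˣ}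
  {φ : K →* Gam (Equiv.Perm Ω) Ω K1} {q : Q →* K1} {α : K1 →* MulAut Q}
  {ε : (Ω → Q) →* L} {μQ : q.ker →* ℂˣ} {π1 : L1 →* K1} {μ1 : π1.ker →* ℂˣ}
  {ι : Q →* L1} {M : Subgroup K} {M1 : Subgroup K1}

/-- A coordinate of a conjugate. -/
theorem coord_conj (h : WD π μ φ q α ε μQ) (n : Ω → Q) (k : K) (o : Ω)
    (hk : (φ k).right o = o) :
    (φ (π (ε n) * k * (π (ε n))⁻¹)).left o = q (n o) * (φ k).left o * (q (n o))⁻¹ := by
  have h1 : (π (ε n))⁻¹ = π (ε n⁻¹) := by rw [map_inv, map_inv]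
  have h2 : (φ k).right⁻¹ o = o := by
    rw [Equiv.Perm.inv_eq_iff_eq]
    exact hk.symm
  have h3 : (φ (π (ε n))).right = 1 := WDB.φε_right h n
  rw [h1, map_mul, map_mul, WDB.mul_left, WDB.mul_left, WDB.mul_right, h3, WDB.φε_left h,
    WDB.φε_left h, one_mul, h2, Pi.inv_apply, map_inv]
  rfl

/-- Elements with a given coordinate at a fixed point. -/
theorem exists_lift (h : WD π μ φ q α ε μQ) {S : Subgroup K1} (hS : q.range ⊔ S = ⊤) (o : Ω)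
    {b : K1} (hb : b ∈ S) :
    ∃ k, (∀ w, (φ k).left w ∈ S) ∧ (φ k).right o = o ∧ (φ k).left o = b := by
  classical
  have hn := WDB.normal_range h
  obtain ⟨k0, hk0, hk0'⟩ := h.sj o b
  have h1 : ∀ w, ∃ s ∈ q.range, ∃ t ∈ S, s * t = (φ k0).left w := by
    intro w
    have h2 : (φ k0).left w ∈ q.range ⊔ S := by
      rw [hS]
      exact Subgroup.mem_top _
    rw [Subgroup.mem_sup_of_normal_left] at h2
    obtain ⟨s, hs, t, ht, hst⟩ := h2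
    exact ⟨s, hs, t, ht, hst⟩
  choose s hs t ht hst using h1
  obtain ⟨m, -, hm1, hm2⟩ := WDB.exists_NN h (fun w => if w = o then 1 else s w) (by
    intro w
    by_cases hw : w = o
    · simp only [if_pos hw]
      exact Subgroup.one_mem _
    · simp only [if_neg hw]
      exact hs w)
  have h3 : ∀ w, (φ ((π (ε m))⁻¹ * k0)).left w =
      (if w = o then 1 else s w)⁻¹ * (φ k0).left w := by
    intro w
    rw [map_mul, map_inv, WDB.mul_left, WDB.inv_left, WDB.inv_right, hm1, inv_inv]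
    rw [Equiv.Perm.one_apply, hm2]
  refine ⟨(π (ε m))⁻¹ * k0, ?_, ?_, ?_⟩
  · intro w
    rw [h3]
    by_cases hw : w = o
    · rw [if_pos hw, inv_one, one_mul, hw, hk0']
      exact hb
    · rw [if_neg hw, ← hst w, inv_mul_cancel_left]
      exact ht w
  · rw [map_mul, map_inv, WDB.mul_right, WDB.inv_right, hm1, inv_one, one_mul]
    exact hk0
  · rw [h3, if_pos rfl, inv_one, one_mul, hk0']

/-- Conjugate products. -/
theorem conj_TP (h : WD π μ φ q α ε μQ) (h1 : LD q α μQ π1 μ1 ι) (hm : MM ℓ π φ q ε M M1)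
    {F : L1 → ℂ} {ζ : L × Gam (Equiv.Perm Ω) Ω L1 → ℂ} {θ : L → ℂ}
    (hz : ∀ y ∈ YY π φ π1, ∀ x, ζ (y * x * y⁻¹) = ζ x) (hT : TP π φ π1 M F ζ θ) (n : Ω → Q)
    {x : L × Gam (Equiv.Perm Ω) Ω L1} (hx : x ∈ MY π φ π1 M) :
    cjF (ε n) θ x.1 = (∏ o, cjF (ι (n o)) F (x.2.left o)) * ζ x := by
  have hw : dY ε ι n⁻¹ ∈ YY π φ π1 := WDB.dY_mem_YY h h1 n⁻¹
  have h2 := WDB.MY_normal M hm.nm hw hx
  have h3 := hT.2 _ h2
  rw [hz _ hw] at h3
  have h4 : (dY ε ι n⁻¹ * x * (dY ε ι n⁻¹)⁻¹).1 = (ε n)⁻¹ * x.1 * ε n := by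
    change ε n⁻¹ * x.1 * (ε n⁻¹)⁻¹ = _
    rw [map_inv, inv_inv]
  have h5 : ∀ o, (dY ε ι n⁻¹ * x * (dY ε ι n⁻¹)⁻¹).2.left o =
      (ι (n o))⁻¹ * x.2.left o * ι (n o) := by
    intro o
    change (((dY ε ι n⁻¹).2 * x.2 * (dY ε ι n⁻¹).2⁻¹ : Gam (Equiv.Perm Ω) Ω L1)).left o = _
    rw [WDB.conj_left _ _ (WDB.MY_right hm hx), WDB.dY_left, WDB.dY_right, Pi.inv_apply, map_inv,
      inv_inv]
    rfl
  rw [h4] at h3
  change θ ((ε n)⁻¹ * x.1 * ε n) = _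
  rw [h3]
  congr 1
  refine Finset.prod_congr rfl fun o _ => ?_
  rw [h5]
  rfl

end Dat

/-- The main step. -/
theorem main (h2 : Stmt_TNA) (h3 : Stmt_RIY)
    {L K K1 Q L1 Ω : Type} [Group L] [Fintype L] [Group K] [Fintype K] [Group K1]
    [Fintype K1] [Group Q] [Fintype Q] [Group L1] [Fintype L1] [Fintype Ω]
    {𝔐 : Ideal (integralClosure ℤ ℂ)} {ℓ : ℕ} [Fact ℓ.Prime] (hmax : 𝔐.IsMaximal)
    (hℓ : (ℓ : integralClosure ℤ ℂ) ∈ 𝔐) {π : L →* K} {μ : π.ker →* ℂˣ}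
    {φ : K →* Gam (Equiv.Perm Ω) Ω K1} {q : Q →* K1} {α : K1 →* MulAut Q}
    {ε : (Ω → Q) →* L} {μQ : q.ker →* ℂˣ} {π1 : L1 →* K1} {μ1 : π1.ker →* ℂˣ}
    {ι : Q →* L1} {M : Subgroup K} {M1 : Subgroup K1} {σr : Finset (Subgroup K1)}
    {Fr : L1 → ℂ} {ζ : L × Gam (Equiv.Perm Ω) Ω L1 → ℂ}
    (R : RF 𝔐 ℓ π μ φ q α ε μQ π1 μ1 ι M M1 σr Fr ζ) {S S' : Subgroup K1}
    {F F' : L1 → ℂ} {θ θ' : L → ℂ} (hF : EF π1 q.range M1 S F)
    (hF' : EF π1 q.range M1 S' F') (ov : Ov π1 μ1 F) (ov' : Ov π1 μ1 F')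
    (hs : ∀ u : L1 → ℤ, CIv (q.range.comap π1) u → sc 𝔐 F u = sc 𝔐 Fr u)
    (hs' : ∀ u : L1 → ℤ, CIv (q.range.comap π1) u → sc 𝔐 F' u = sc 𝔐 Fr u)
    (hT : TP π φ π1 M F ζ θ) (hT' : TP π φ π1 M F' ζ θ') (n : Ω → Q)
    (hst : ∀ o, S.map (MulAut.conj (q (n o))).toMonoidHom = S')
    (hθ : cjF (ε n) θ = θ') (o : Ω) : cjF (ι (n o)) F = F' := by
  classical
  have hqn := WDB.normal_range R.wd
  have hM1n := R.mm.nm1
  have A : ∀ o, EF π1 q.range M1 S' (cjF (ι (n o)) F) := by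
    intro o
    have e1 := EF_cj hF (ι (n o))
    rw [R.ld.πι, hst o] at e1
    exact e1
  have B : ∀ o, Ov π1 μ1 (cjF (ι (n o)) F) := fun o => Ov_cj R.ld.c ov (ι (n o))
  have hζ1 : ζ 1 ≠ 0 := by
    have i0 : Fintype (Gam (Equiv.Perm Ω) Ω L1) := gamFintype _ _ _
    have i1 : Fintype ↥(MY π φ π1 M) := Fintype.ofFinite _
    exact R.zt.irr.1.one_ne_zero
  have D : ∀ m : Ω → Q, ∏ o, cjF (ι (n o)) F (ι (m o)) = ∏ o, F' (ι (m o)) := by
    intro m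
    have hm := WDB.dY_mem_MY R.wd R.ld R.mm.le m
    have e1 := conj_TP R.wd R.ld R.mm R.zi hT n hm
    have e2 := hT'.2 _ hm
    rw [hθ, e2] at e1
    have e3 : ζ (dY ε ι m) = ζ 1 := by
      have := R.zt.d m 1
      rwa [one_mul] at this
    rw [e3] at e1
    exact (mul_right_cancel₀ hζ1 e1).symm
  have irr : ∀ G : L1 → ℂ, EF π1 q.range M1 S' G → Ov π1 μ1 G →
      IrrOn (S'.comap q) (fun x => G (ι x)) := by
    intro G hG hov
    refine ⟨ZEX.res_irr R.ld.c R.ld.πι S' hG.res hov, ?_⟩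
    intro x hx
    refine hG.irr.2 _ ?_
    intro h4
    apply hx
    have h5 := (Subgroup.mem_inf.mp (Subgroup.mem_comap.mp h4)).2
    rw [R.ld.πι] at h5
    exact h5
  have ovι : ∀ G : L1 → ℂ, Ov π1 μ1 G → Ov q μQ (fun x => G (ι x)) := by
    intro G hG z x
    have hz : ι z ∈ π1.ker := (WDB.ι_ker R.ld).mpr z.2
    have e1 := hG ⟨ι z, hz⟩ (ι x)
    change G (ι (z * x)) = _ * G (ι x)
    rw [map_mul, ← R.ld.μι z hz]
    exact e1
  obtain ⟨T1, -, T3⟩ := h2 L K K1 Q Ω π μ φ q α ε μQ R.wd (fun _ => S')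
  obtain ⟨G0, -, -, hG0⟩ := T1 (fun _ x => F' (ι x)) fun _ => ⟨irr F' hF' ov', ovι F' ov'⟩
  have E := T3 (fun o x => cjF (ι (n o)) F (ι x)) (fun _ x => F' (ι x)) G0
    (fun o => irr _ (A o) (B o)) (fun _ => irr F' hF' ov')
    ⟨fun m => by rw [hG0.1 m, D m], hG0.2⟩ hG0
  have E' : ∀ x, cjF (ι (n o)) F (ι x) = F' (ι x) := fun x => congrFun (congrFun E o) x
  refine h3 L1 K1 𝔐 ℓ hmax hℓ π1 R.ld.s R.ld.c q.range M1 R.mm.le1 R.mm.cop1 S' _ F' (A o) hF'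
    ?_ ?_ ?_
  · intro y hy
    have h4 := (Subgroup.mem_inf.mp (Subgroup.mem_comap.mp hy)).1
    obtain ⟨z, hz, x, rfl⟩ := (WDB.mem_comap_range R.ld).mp h4
    have e1 := B o ⟨z, hz⟩ (ι x)
    have e2 := ov' ⟨z, hz⟩ (ι x)
    change cjF (ι (n o)) F (z * ι x) = _ at e1
    change F' (z * ι x) = _ at e2
    rw [e1, e2, E' x]
  · intro x hx
    obtain ⟨u, hu1, hu2, hu3⟩ := R.sup x hx
    refine ⟨u, hu1, hu2, ?_⟩
    rw [sc_cjF 𝔐 hu1 (Subgroup.mem_comap.mpr ⟨n o, (R.ld.πι _).symm⟩), hs u hu1]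
    exact hu3
  · intro u hu
    rw [sc_cjF 𝔐 hu (Subgroup.mem_comap.mpr ⟨n o, (R.ld.πι _).symm⟩), hs u hu, hs' u hu]

end PSI

open PSI in
/-- PSI: conjugacy of products. -/
theorem PSI_thm (h1 : Stmt_CST) (h2 : Stmt_TNA) (h3 : Stmt_RIY) : Stmt_PSI := by
  classical
  intro L K K1 Q L1 Ω _ _ _ _ _ _ _ _ _ _ _ _ 𝔐 ℓ _ hmax hℓ π μ φ q α ε μQ π1 μ1 ι M M1 σr
    Fr ζ R σ σ' F F' θ θ' hσ hσ' hq hq' hF hF' ov ov' hs hs' hT hT' n
  obtain ⟨hNn, hqn, hcst⟩ := h1 L K K1 Q Ω ℓ π μ φ q α ε μQ R.wd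
  have hMn := R.mm.nm
  constructor
  · constructor
    · rintro ⟨hc, hθ⟩ o
      have hc' := ((hcst σ hσ).2.2.2.2.2.2 σ' hσ' n).mp hc
      refine ⟨hc' o, ?_⟩
      refine main h2 h3 hmax hℓ R hF hF' ov ov' hs hs' hT hT' n ?_ hθ o
      intro w
      rw [← CJS.stb_cjC, hc' w]
    · intro h
      refine ⟨((hcst σ hσ).2.2.2.2.2.2 σ' hσ' n).mpr fun o => (h o).1, ?_⟩
      funext l
      by_cases hl : π l ∈ M
      · obtain ⟨g, hg⟩ := WDB.exists_YY (π := π) (φ := φ) R.ld l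
        have hx : (l, g) ∈ MY π φ π1 M := ⟨hg, hl⟩
        have e1 := conj_TP R.wd R.ld R.mm R.zi hT n hx
        have e2 := hT'.2 _ hx
        change cjF (ε n) θ l = _ at e1
        change θ' l = _ at e2
        rw [e1, e2]
        congr 1
        refine Finset.prod_congr rfl fun o _ => ?_
        rw [(h o).2]
      · rw [hT'.1 l hl]
        refine hT.1 _ ?_
        rw [CJN.pi_conj]
        exact fun h4 => hl ((CJN.mem_nm M (π (ε n)) (π l)).mp h4)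
  · intro hmap hθ
    have hst : ∀ o, (stb σ).map (MulAut.conj (q (n o))).toMonoidHom = stb σ' := by
      intro o
      ext b
      rw [CJN.mem_mapc]
      constructor
      · intro hb
        obtain ⟨k, hk1, hk2, hk3⟩ := exists_lift R.wd hq o hb
        have hk : k ∈ stb (cstC φ (NN' π ε) σ) := ((hcst σ hσ).2.2.2.1 k).mpr hk1
        have hk' : π (ε n) * k * (π (ε n))⁻¹ ∈ stb (cstC φ (NN' π ε) σ') := by
          rw [← hmap, CJN.mem_mapc]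
          have : (π (ε n))⁻¹ * (π (ε n) * k * (π (ε n))⁻¹) * π (ε n) = k := by group
          rw [this]
          exact hk
        have h4 := ((hcst σ' hσ').2.2.2.1 _).mp hk' o
        rw [coord_conj R.wd n k o hk2, hk3] at h4
        have : q (n o) * ((q (n o))⁻¹ * b * q (n o)) * (q (n o))⁻¹ = b := by group
        rw [this] at h4
        exact h4
      · intro hb
        obtain ⟨k, hk1, hk2, hk3⟩ := exists_lift R.wd hq' o hb
        have hk : k ∈ stb (cstC φ (NN' π ε) σ') := ((hcst σ' hσ').2.2.2.1 k).mpr hk1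
        rw [← hmap, CJN.mem_mapc] at hk
        have e1 : (π (ε n))⁻¹ * k * π (ε n) = π (ε n⁻¹) * k * (π (ε n⁻¹))⁻¹ := by
          rw [map_inv, map_inv, inv_inv]
        rw [e1] at hk
        have h4 := ((hcst σ hσ).2.2.2.1 _).mp hk o
        rw [coord_conj R.wd n⁻¹ k o hk2, hk3, Pi.inv_apply, map_inv, inv_inv] at h4
        exact h4
    intro o
    exact ⟨hst o, main h2 h3 hmax hℓ R hF hF' ov ov' hs hs' hT hT' n hst hθ o⟩

end Pool.Agent.DPG
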