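import Pool.Agent.DPG.StmtsB
import Pool.Agent.DPG.CJN
import Pool.Agent.DPM.EXPB

/-!
# The relations for the pairs of the closed chains: auxiliary results
-/

namespace Pool.Agent.DPG

open Pool.Agent.DP Pool.Agent.DPC Pool.Agent.DPM Pool.Agent.DPN Pool.Agent.DPF
  Pool.Agent.Lib_helper13 Representation
open Pool.Agent.Lib_helper13.Dade (pCore DadeHolds dadeSum)

namespace TQB

/-! ### The homomorphism to the wreath product -/

section Psi

variable {K H K1 H1 W W1 Ω : Type} [Group K] [Group H] [Group K1] [Group H1] [Group W]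
  [Group W1] [Fintype Ω] {φ : K →* Gam (Equiv.Perm Ω) Ω K1} {p : K →* H} {p1 : K1 →* H1}
  {πW : W →* H} {πW1 : W1 →* H1} {ψ : W →* Gam (Equiv.Perm Ω) Ω W1}

theorem psi_one (h1 : ∀ w k, πW w = p k → gmap Ω πW1 (ψ w) = gmap Ω p1 (φ k)) {z : W}
    (hz : z ∈ πW.ker) : gmap Ω πW1 (ψ z) = 1 := by
  have h := h1 z 1 (by rw [map_one]; exact hz)
  rw [map_one, map_one] at h
  exact h

theorem psi_right (h1 : ∀ w k, πW w = p k → gmap Ω πW1 (ψ w) = gmap Ω p1 (φ k)) {z : W}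
    (hz : z ∈ πW.ker) : (ψ z).right = 1 :=
  congrArg (fun x : Gam (Equiv.Perm Ω) Ω H1 => x.right) (psi_one h1 hz)

theorem psi_left (h1 : ∀ w k, πW w = p k → gmap Ω πW1 (ψ w) = gmap Ω p1 (φ k)) {z : W}
    (hz : z ∈ πW.ker) (o : Ω) : (ψ z).left o ∈ πW1.ker :=
  congrArg (fun x : Gam (Equiv.Perm Ω) Ω H1 => x.left o) (psi_one h1 hz)

theorem psi_tr (hs : Function.Surjective πW)
    (h1 : ∀ w k, πW w = p k → gmap Ω πW1 (ψ w) = gmap Ω p1 (φ k))
    (htr : ∀ o o', ∃ k, (φ k).right o = o') (o o' : Ω) : ∃ w, (ψ w).right o = o' := by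
  obtain ⟨k, hk⟩ := htr o o'
  obtain ⟨w, hw⟩ := hs (p k)
  refine ⟨w, ?_⟩
  have h2 : (ψ w).right = (φ k).right :=
    congrArg (fun x : Gam (Equiv.Perm Ω) Ω H1 => x.right) (h1 w k hw)
  rw [h2]
  exact hk

theorem psi_sj (hs1 : Function.Surjective p1) (hsW : Function.Surjective πW1)
    (h2 : ∀ g k, gmap Ω πW1 g = gmap Ω p1 (φ k) → ∃ w, πW w = p k ∧ ψ w = g)
    (hsj : ∀ o b, ∃ k, (φ k).right o = o ∧ (φ k).left o = b) (o : Ω) (b : W1) :
    ∃ w, (ψ w).right o = o ∧ (ψ w).left o = b := by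
  classical
  obtain ⟨b1, hb1⟩ := hs1 (πW1 b)
  obtain ⟨k, hk1, hk2⟩ := hsj o b1
  have hex : ∀ o', ∃ c, πW1 c = p1 ((φ k).left o') := fun o' => hsW _
  choose c hc using hex
  let g : Gam (Equiv.Perm Ω) Ω W1 := ⟨fun o' => if o' = o then b else c o', (φ k).right⟩
  have hg : gmap Ω πW1 g = gmap Ω p1 (φ k) := by
    apply SemidirectProduct.ext
    · funext o'
      change πW1 (if o' = o then b else c o') = p1 ((φ k).left o')
      by_cases ho : o' = o
      · rw [if_pos ho, ho, hk2, hb1]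
      · rw [if_neg ho, hc]
    · rfl
  obtain ⟨w, _, hw⟩ := h2 g k hg
  refine ⟨w, ?_, ?_⟩
  · rw [hw]
    exact hk1
  · rw [hw]
    change (if o = o then b else c o) = b
    rw [if_pos rfl]

end Psi

/-! ### Closed chains -/

section Clo

variable {K K1 Ω : Type} [Group K] [Group K1] [Fintype Ω]

theorem left_conj (a b : Gam (Equiv.Perm Ω) Ω K1) (ha : a.right = 1) (hb : b.right = 1)
    (o : Ω) : (a⁻¹ * b * a).left o = (a.left o)⁻¹ * b.left o * a.left o := by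
  have h : ∀ x y : Gam (Equiv.Perm Ω) Ω K1, x.right = 1 → (x * y).left o =
      x.left o * y.left o := by
    intro x y hx
    change x.left o * y.left (x.right⁻¹ • o) = _
    rw [hx, inv_one, one_smul]
  have h1 : a⁻¹.right = 1 := by
    rw [SemidirectProduct.inv_right, ha, inv_one]
  have h2 : (a⁻¹ * b).right = 1 := by
    rw [SemidirectProduct.mul_right, h1, hb, one_mul]
  have h3 : a⁻¹.left o = (a.left o)⁻¹ := by
    have h4 := h a⁻¹ a h1
    rw [inv_mul_cancel] at h4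
    exact eq_inv_of_mul_eq_one_left h4.symm
  rw [h _ _ h2, h _ _ h1, h3]

theorem clo_conj {φ : K →* Gam (Equiv.Perm Ω) Ω K1} {N : Subgroup K} (hN : N.Normal)
    (hr : ∀ k ∈ N, (φ k).right = 1) {g : K} (hg : g ∈ N) {σ : Finset (Subgroup K)}
    (hσ : ∀ D ∈ σ, D ≤ N) (hc : Clo φ N σ) : Clo φ N (cjC g σ) := by
  classical
  intro D' hD' k hk
  rw [cjC, Finset.mem_image] at hD'
  obtain ⟨D, hD, rfl⟩ := hD'
  change k ∈ D.map (MulAut.conj g).toMonoidHom
  rw [CJN.mem_mapc]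
  refine hc D hD ⟨?_, fun o => ?_⟩
  · have h := hN.conj_mem k hk.1 g⁻¹
    rw [inv_inv] at h
    exact h
  · obtain ⟨d', hd', h2⟩ := hk.2 o
    have hd2 := (CJN.mem_mapc g d' D).mp hd'
    refine ⟨g⁻¹ * d' * g, hd2, ?_⟩
    have hd3 : d' ∈ N := by
      have h := hN.conj_mem _ (hσ D hD hd2) g
      have h4 : g * (g⁻¹ * d' * g) * g⁻¹ = d' := by group
      rw [h4] at h
      exact h
    rw [map_mul, map_mul, map_inv, map_mul, map_mul, map_inv,
      left_conj _ _ (hr g hg) (hr d' hd3), left_conj _ _ (hr g hg) (hr k hk.1), h2]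

end Clo

/-! ### Uniqueness -/

section Uni

variable {L K K1 L1 Ω : Type} [Group L] [Group K] [Group K1] [Group L1] [Fintype Ω]

theorem tp_unique {π : L →* K} {φ : K →* Gam (Equiv.Perm Ω) Ω K1} {π1 : L1 →* K1}
    (hs : Function.Surjective π1) {M : Subgroup K} {F : L1 → ℂ}
    {ζ : L × Gam (Equiv.Perm Ω) Ω L1 → ℂ} {θ θ' : L → ℂ} (h : TP π φ π1 M F ζ θ)
    (h' : TP π φ π1 M F ζ θ') : θ = θ' := by
  funext l
  by_cases hl : π l ∈ M
  · have hex : ∀ o, ∃ c, π1 c = (φ (π l)).left o := fun o => hs _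
    choose c hc using hex
    have hx : ((l, ⟨c, (φ (π l)).right⟩) : L × Gam (Equiv.Perm Ω) Ω L1) ∈ MY π φ π1 M := by
      refine ⟨?_, hl⟩
      change φ (π l) = gmap Ω π1 ⟨c, (φ (π l)).right⟩
      apply SemidirectProduct.ext
      · funext o
        exact (hc o).symm
      · rfl
    exact (h.2 _ hx).trans (h'.2 _ hx).symm
  · rw [h.1 l hl, h'.1 l hl]

end Uni

/-! ### Numbers -/

section Num

theorem card_prod {G : Type} [Group G] [Finite G] {N M S : Subgroup G} (hN : N.Normal)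
    (hNM : N ≤ M) (hM : M ≤ N ⊔ S) :
    Nat.card M * Nat.card ↥(N ⊓ S) = Nat.card N * Nat.card ↥(M ⊓ S) := by
  haveI := hN
  have h1 : Nat.card N * N.relIndex M = Nat.card M := by
    have h := Subgroup.relIndex_mul_relIndex ⊥ N M bot_le hNM
    rw [Subgroup.relIndex_bot_left, Subgroup.relIndex_bot_left] at h
    exact h
  have h2 : Nat.card ↥(N ⊓ S) * (N ⊓ S).relIndex (M ⊓ S) = Nat.card ↥(M ⊓ S) := by
    have h := Subgroup.relIndex_mul_relIndex ⊥ (N ⊓ S) (M ⊓ S) bot_le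
      (inf_le_inf_right S hNM)
    rw [Subgroup.relIndex_bot_left, Subgroup.relIndex_bot_left] at h
    exact h
  have h3 : N ⊔ (M ⊓ S) = M := by
    apply le_antisymm (sup_le hNM inf_le_left)
    intro x hx
    have hx2 := hM hx
    rw [Subgroup.mem_sup_of_normal_left] at hx2
    obtain ⟨y, hy, z, hz, rfl⟩ := hx2
    refine Subgroup.mul_mem_sup hy ⟨?_, hz⟩
    have h := M.mul_mem (M.inv_mem (hNM hy)) hx
    rw [inv_mul_cancel_left] at h
    exact h
  have h4 : N.relIndex M = (N ⊓ S).relIndex (M ⊓ S) := by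
    have h5 : N.relIndex (N ⊔ (M ⊓ S)) = N.relIndex (M ⊓ S) := Subgroup.relIndex_sup_left _ _
    rw [h3] at h5
    rw [h5, ← Subgroup.inf_relIndex_right]
    have h6 : N ⊓ (M ⊓ S) = N ⊓ S := by
      rw [← inf_assoc, inf_eq_left.mpr hNM]
    rw [h6]
  rw [← h1, ← h2, h4]
  ring

theorem numer {r rs m m1 m1s X s cQ kq w : ℕ} (hw : 0 < w) (hr : 0 < r) (hrs : 0 < rs)
    (hm1 : 0 < m1) (hk : 0 < kq) (h1 : X * r ^ w = m * rs ^ w) (h2 : cQ = kq * r)
    (h2' : s = kq * rs) (h3 : m1 * rs = r * m1s) :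
    ((cQ : ℂ) / (s : ℂ)) ^ (w - 1) * (X : ℂ) = (m : ℂ) / (m1 : ℂ) * (m1s : ℂ) := by
  obtain ⟨v, rfl⟩ : ∃ v, w = v + 1 := ⟨w - 1, by omega⟩
  rw [Nat.add_sub_cancel]
  have hr' : (r : ℂ) ≠ 0 := by exact_mod_cast hr.ne'
  have hrs' : (rs : ℂ) ≠ 0 := by exact_mod_cast hrs.ne'
  have hm1' : (m1 : ℂ) ≠ 0 := by exact_mod_cast hm1.ne'
  have hk' : (kq : ℂ) ≠ 0 := by exact_mod_cast hk.ne'
  have h1' : (X : ℂ) * (r : ℂ) ^ (v + 1) = (m : ℂ) * (rs : ℂ) ^ (v + 1) := by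
    exact_mod_cast h1
  have h3' : (m1 : ℂ) * (rs : ℂ) = (r : ℂ) * (m1s : ℂ) := by exact_mod_cast h3
  have hX : (X : ℂ) = (m : ℂ) * (rs : ℂ) ^ (v + 1) / (r : ℂ) ^ (v + 1) := by
    rw [eq_div_iff (pow_ne_zero _ hr'), h1']
  have hs : (m1s : ℂ) = (m1 : ℂ) * (rs : ℂ) / (r : ℂ) := by
    rw [eq_div_iff hr', h3']
    ring
  have hc : (cQ : ℂ) / (s : ℂ) = (r : ℂ) / (rs : ℂ) := by
    rw [h2, h2']
    push_cast
    rw [mul_div_mul_left _ _ hk']
  rw [hc, hX, hs, div_pow]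
  field_simp
  ring

end Num

/-! ### Conjugation of functions -/

section Cj

variable {G : Type} [Group G]

theorem cjF_one (f : G → ℂ) : cjF 1 f = f := by
  funext x
  change f (1⁻¹ * x * 1) = f x
  rw [inv_one, one_mul, mul_one]

theorem cjF_mul (g h : G) (f : G → ℂ) : cjF (g * h) f = cjF g (cjF h f) := by
  funext x
  change f ((g * h)⁻¹ * x * (g * h)) = f (h⁻¹ * (g⁻¹ * x * g) * h)
  congr 1
  group

theorem map_conj_one (S : Subgroup G) : S.map (MulAut.conj (1 : G)).toMonoidHom = S := by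
  ext x
  rw [CJN.mem_mapc]
  simp

theorem card_conj (M : Subgroup G) [M.Normal] (S : Subgroup G) (g : G) :
    Nat.card ↥(M ⊓ S.map (MulAut.conj g).toMonoidHom) = Nat.card ↥(M ⊓ S) := by
  have h : M ⊓ S.map (MulAut.conj g).toMonoidHom =
      (M ⊓ S).map (MulAut.conj g).toMonoidHom := by
    ext x
    rw [Subgroup.mem_inf, CJN.mem_mapc, CJN.mem_mapc, Subgroup.mem_inf,
      CJN.mem_nm M]
  rw [h]
  exact (Nat.card_congr ((M ⊓ S).equivMapOfInjective _ (MulAut.conj g).injective).toEquiv).symm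

end Cj

end TQB

end Pool.Agent.DPG
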