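import Mathlib
import Pool.Agent.DPG.StmtsB

/-!
# TQC: the linear characters of the pairs of the closed chains
-/

namespace Pool.Agent.DPG

open Pool.Agent.DP Pool.Agent.DPC Pool.Agent.DPM Pool.Agent.DPN Pool.Agent.DPF
  Pool.Agent.DPK Pool.Agent.Lib_helper13 Representation

namespace TQC

variable {G : Type} [Group G]

/-- Conjugation of a subgroup by a product. -/
theorem map_conj_mul (g h : G) (S : Subgroup G) :
    S.map (MulAut.conj (g * h)).toMonoidHom =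
      (S.map (MulAut.conj h).toMonoidHom).map (MulAut.conj g).toMonoidHom := by
  rw [Subgroup.map_map]
  congr 1
  rw [map_mul]
  rfl

theorem map_conj_one (S : Subgroup G) : S.map (MulAut.conj (1 : G)).toMonoidHom = S := by
  have h : (MulAut.conj (1 : G)).toMonoidHom = MonoidHom.id G := by
    rw [map_one]
    rfl
  rw [h, Subgroup.map_id]

theorem cjF_mul (g h : G) (f : G → ℂ) : cjF (g * h) f = cjF g (cjF h f) := by
  funext x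
  unfold cjF
  congr 1
  group

theorem cjF_one (f : G → ℂ) : cjF (1 : G) f = f := by
  funext x
  unfold cjF
  simp

end TQC

open Classical in
theorem TQC_thm (h1 : Stmt_PSI) (h2 : Stmt_RSC) : Stmt_TQC := by
  intro L K K1 Q L1 Ω _ _ _ _ _ _ _ _ _ _ _ _ 𝔐 ℓ _ hM hℓ π μ φ q α ε μQ π1 μ1 ι M M1 σr Fr ζ
    hRF X ξ ξ0 hξ
  have hR := (h2 L K K1 Q L1 Ω 𝔐 ℓ hM hℓ π μ φ q α ε μQ π1 μ1 ι M M1 σr Fr ζ hRF).2
  have key : ∀ (σ σ' : Finset (Subgroup K1)) (F F' : L1 → ℂ) (θ θ' : L → ℂ) (n n' : Ω → Q),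
      ChN ℓ M1 σ → BPs 𝔐 π1 μ1 M1 (cg 𝔐 Fr) (stb σ) F → TP π φ π1 M F ζ θ →
      ChN ℓ M1 σ' → BPs 𝔐 π1 μ1 M1 (cg 𝔐 Fr) (stb σ') F' → TP π φ π1 M F' ζ θ' →
      (stb (cstC φ (NN' π ε) σ)).map (MulAut.conj (π (ε n))).toMonoidHom =
        (stb (cstC φ (NN' π ε) σ')).map (MulAut.conj (π (ε n'))).toMonoidHom →
      cjF (ε n) θ = cjF (ε n') θ' → ξ (stb σ) F = ξ (stb σ') F' := by
    intro σ σ' F F' θ θ' n n' a1 a2 a3 b1 b2 b3 hS hF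
    obtain ⟨c1, c2, c3, c4⟩ := hR σ F a1 a2
    obtain ⟨d1, d2, d3, d4⟩ := hR σ' F' b1 b2
    have e1 : (stb (cstC φ (NN' π ε) σ)).map (MulAut.conj (π (ε (n'⁻¹ * n)))).toMonoidHom =
        stb (cstC φ (NN' π ε) σ') := by
      rw [map_mul, map_mul, TQC.map_conj_mul, hS, ← TQC.map_conj_mul, ← map_mul, ← map_mul,
        inv_mul_cancel, map_one, map_one, TQC.map_conj_one]
    have e2 : cjF (ε (n'⁻¹ * n)) θ = θ' := by
      rw [map_mul, TQC.cjF_mul, hF, ← TQC.cjF_mul, ← map_mul, inv_mul_cancel, map_one,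
        TQC.cjF_one]
    have e3 := (h1 L K K1 Q L1 Ω 𝔐 ℓ hM hℓ π μ φ q α ε μQ π1 μ1 ι M M1 σr Fr ζ hRF σ σ' F F'
      θ θ' c1 d1 c3 d3 c2 d2 a2.ovl b2.ovl c4 d4 a3 b3 (n'⁻¹ * n)).2 e1 e2
    obtain ⟨e4, e5⟩ := e3 (Classical.arbitrary Ω)
    have e6 : π1 (ι ((n'⁻¹ * n) (Classical.arbitrary Ω))) =
        q ((n'⁻¹ * n) (Classical.arbitrary Ω)) := hRF.ld.πι _
    have e7 := hξ (ι ((n'⁻¹ * n) (Classical.arbitrary Ω)))
      (by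
        rw [e6]
        exact hRF.mm.le1 ⟨_, rfl⟩) (stb σ) F
    rw [e6, e4, e5] at e7
    exact e7.symm
  refine ⟨fun S f =>
    if h : ∃ x : Finset (Subgroup K1) × (L1 → ℂ) × (L → ℂ) × (Ω → Q),
        ChN ℓ M1 x.1 ∧ BPs 𝔐 π1 μ1 M1 (cg 𝔐 Fr) (stb x.1) x.2.1 ∧
        TP π φ π1 M x.2.1 ζ x.2.2.1 ∧
        S = (stb (cstC φ (NN' π ε) x.1)).map (MulAut.conj (π (ε x.2.2.2))).toMonoidHom ∧
        f = cjF (ε x.2.2.2) x.2.2.1
    then ξ (stb h.choose.1) h.choose.2.1 else ξ0 S f, ?_, ?_⟩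
  · intro σ F θ n a1 a2 a3
    have h : ∃ x : Finset (Subgroup K1) × (L1 → ℂ) × (L → ℂ) × (Ω → Q),
        ChN ℓ M1 x.1 ∧ BPs 𝔐 π1 μ1 M1 (cg 𝔐 Fr) (stb x.1) x.2.1 ∧
        TP π φ π1 M x.2.1 ζ x.2.2.1 ∧
        (stb (cstC φ (NN' π ε) σ)).map (MulAut.conj (π (ε n))).toMonoidHom =
          (stb (cstC φ (NN' π ε) x.1)).map (MulAut.conj (π (ε x.2.2.2))).toMonoidHom ∧
        cjF (ε n) θ = cjF (ε x.2.2.2) x.2.2.1 := ⟨(σ, F, θ, n), a1, a2, a3, rfl, rfl⟩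
    obtain ⟨b1, b2, b3, b4, b5⟩ := h.choose_spec
    beta_reduce
    rw [dif_pos h]
    exact (key _ _ _ _ _ _ _ _ a1 a2 a3 b1 b2 b3 b4 b5).symm
  · intro S f
    by_cases h : ∃ x : Finset (Subgroup K1) × (L1 → ℂ) × (L → ℂ) × (Ω → Q),
        ChN ℓ M1 x.1 ∧ BPs 𝔐 π1 μ1 M1 (cg 𝔐 Fr) (stb x.1) x.2.1 ∧
        TP π φ π1 M x.2.1 ζ x.2.2.1 ∧
        S = (stb (cstC φ (NN' π ε) x.1)).map (MulAut.conj (π (ε x.2.2.2))).toMonoidHom ∧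
        f = cjF (ε x.2.2.2) x.2.2.1
    · left
      obtain ⟨⟨σ, F, θ, n⟩, b1, b2, b3, b4, b5⟩ := h
      exact ⟨σ, F, θ, n, b1, b2, b3, b4, b5⟩
    · right
      beta_reduce
      rw [dif_neg h]

end Pool.Agent.DPG
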